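import Pool.Agent.DW24.Ext

/-!
Module A4 (core): the dual inequality for a cyclic partition into `n ≥ 2` blocks.
-/

set_option autoImplicit false

open MeasureTheory Filter Topology Set

namespace DW24

lemma Tst.cst (c : ℝ) : Tst (fun _ => c) := ⟨contDiff_const, fun _ => rfl⟩

lemma Tst.add2 {φ ψ : ℝ → ℝ} (h1 : Tst φ) (h2 : Tst ψ) : Tst (fun θ => φ θ + ψ θ) :=
  ⟨h1.1.add h2.1, fun θ => by simp only [h1.2 θ, h2.2 θ]⟩

lemma Tst.smul2 {ψ : ℝ → ℝ} (c : ℝ) (h : Tst ψ) : Tst (fun θ => c * ψ θ) :=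
  ⟨contDiff_const.mul h.1, fun θ => by simp only [h.2 θ]⟩

lemma Tst.sum {s : Finset ℕ} {B : ℕ → ℝ → ℝ} (h : ∀ k ∈ s, Tst (B k)) :
    Tst (fun θ => ∑ k ∈ s, B k θ) := by
  refine ⟨ContDiff.sum fun k hk => (h k hk).1, fun θ => ?_⟩
  exact Finset.sum_congr rfl fun k hk => (h k hk).2 θ

lemma PosFun.sum {M : (ℝ → ℝ) → ℝ} (hM : PosFun M) (B : ℕ → ℝ → ℝ) (n : ℕ)
    (h : ∀ k < n, Tst (B k)) :
    M (fun θ => ∑ k ∈ Finset.range n, B k θ) = ∑ k ∈ Finset.range n, M (B k) := by
  induction n with
  | zero =>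
    simp only [Finset.range_zero, Finset.sum_empty]
    have := hM.smul 0 (fun _ => 1) (Tst.cst 1)
    simpa using this
  | succ n ih =>
    simp only [Finset.sum_range_succ]
    rw [hM.add _ _ (Tst.sum fun k hk => h k (by
      have := Finset.mem_range.1 hk; omega)) (h n (by omega)), ih fun k hk => h k (by omega)]

lemma PosFun.mono2 {M : (ℝ → ℝ) → ℝ} (hM : PosFun M) {φ ψ : ℝ → ℝ} (hφ : Tst φ) (hψ : Tst ψ)
    (h : ∀ θ, φ θ ≤ ψ θ) : M φ ≤ M ψ := by
  have h1 := hM.pos (fun θ => ψ θ + (-1) * φ θ) (hψ.add2 (hφ.smul2 (-1))) (fun θ => by linarith [h θ])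
  rw [hM.add _ _ hψ (hφ.smul2 (-1)), hM.smul _ _ hφ] at h1
  linarith

/-- The core dual inequality. -/
theorem core {V : ℕ → ℝ → ℝ} {ρ : ℝ} {M : (ℝ → ℝ) → ℝ} (hM : PosFun M)
    (h1 : M (fun _ => 1) = 2 * Real.pi * ρ ^ 2)
    {n : ℕ} (hn : 2 ≤ n) {t : ℕ → ℝ} (ht : ∀ k < n, t k < t (k + 1))
    (htn : t n = t 0 + 2 * Real.pi)
    (hR : ∀ k < n, ∀ ψ, Tst ψ → (∀ θ, 0 ≤ ψ θ) →
      ∫ θ in (t k)..(t (k + 1)), V k θ * LL ρ ψ θ ≤ M ψ)
    {C : ℝ} (hC : 0 < C) {Φ : ℝ → ℝ} (hΦ : ContDiff ℝ 2 Φ)
    (hΦp : ∀ θ, Φ (θ + 2 * Real.pi) = (-1) ^ n * Φ θ) (hΦC : ∀ θ, |Φ θ| ≤ C) :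
    ∑ k ∈ Finset.range n, ∫ θ in (t k)..(t (k + 1)), V k θ * (ρ ^ 2 * C + (-1) ^ k * LL ρ Φ θ)
      ≤ 4 * Real.pi * C * ρ ^ 2 := by
  have hpi : (0 : ℝ) < 2 * Real.pi := by positivity
  -- monotonicity of t
  have htlt : ∀ i j, i < j → j ≤ n → t i < t j := by
    intro i j hij hj
    induction j with
    | zero => omega
    | succ j ih =>
      rcases Nat.lt_succ_iff_lt_or_eq.1 hij with h | h
      · exact (ih h (by omega)).trans (ht j (by omega))
      · rw [h]; exact ht j (by omega)
  have htle : ∀ i j, i ≤ j → j ≤ n → t i ≤ t j := by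
    intro i j hij hj
    rcases Nat.eq_or_lt_of_le hij with h | h
    · rw [h]
    · exact (htlt i j h hj).le
  -- the minimal gap
  obtain ⟨w, hw, hgap⟩ : ∃ w : ℝ, 0 < w ∧ ∀ k < n, 4 * w ≤ t (k + 1) - t k := by
    have hne : (Finset.range n).Nonempty := ⟨0, Finset.mem_range.2 (by omega)⟩
    obtain ⟨k₀, hk₀, hmin⟩ := Finset.exists_min_image (Finset.range n) (fun k => t (k + 1) - t k) hne
    refine ⟨(t (k₀ + 1) - t k₀) / 4, ?_, ?_⟩
    · have := ht k₀ (Finset.mem_range.1 hk₀); linarith
    · intro k hk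
      have := hmin k (Finset.mem_range.2 hk)
      linarith
  -- sign consistency
  have hsgn2 : ((-1 : ℝ) ^ n) * (-1) ^ n = 1 := by rw [← pow_add, ← two_mul]; simp
  have hΦm : ∀ θ, Φ (θ - 2 * Real.pi) = (-1) ^ n * Φ θ := by
    intro θ
    have := hΦp (θ - 2 * Real.pi)
    rw [sub_add_cancel] at this
    rw [this, ← mul_assoc, hsgn2, one_mul]
  have hsgnabs : ∀ (k : ℕ) θ, |(-1 : ℝ) ^ k * Φ θ| ≤ C := by
    intro k θ
    rw [abs_mul, abs_pow, abs_neg, abs_one, one_pow, one_mul]; exact hΦC θ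
  -- block functions
  have hblock : ∀ k, k < n → ∃ B : ℝ → ℝ, Tst B ∧ (∀ θ, 0 ≤ B θ) ∧
      (∀ θ ∈ Icc (t k) (t (k + 1)), B θ = C + (-1) ^ k * Φ θ) ∧
      (∀ θ ∈ Icc (t k - 2 * w) (t k - 2 * w + 2 * Real.pi), B θ ≤ C + (-1) ^ k * Φ θ) ∧
      (∀ θ ∈ Icc (t k - 2 * w) (t k - 2 * w + 2 * Real.pi), θ ∉ Ioo (t k - w) (t (k + 1) + w) → B θ = 0) := by
    intro k hk
    obtain ⟨η, hη2, hη0, hη1, hηI, hηO⟩ := exists_cutoff (t k) (t (k + 1)) hw
    have hlen : t (k + 1) + 2 * w ≤ t k - 2 * w + 2 * Real.pi := by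
      -- some other block has length at least 4 w
      rcases Nat.eq_zero_or_pos k with h | h
      · subst h
        have h2 : t 1 + 4 * w ≤ t 2 := by have := hgap 1 (by omega); linarith
        have h3 : t 2 ≤ t n := htle 2 n hn le_rfl
        rw [htn] at h3
        simp only [zero_add] at *
        linarith
      · have h2 : t 0 + 4 * w ≤ t 1 := by have := hgap 0 (by omega); simpa using by linarith
        have h3 : t 1 ≤ t k := htle 1 k h (by omega)
        have h4 : t (k + 1) ≤ t n := htle (k + 1) n (by omega) le_rfl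
        rw [htn] at h4
        linarith
    have hβ : ContDiff ℝ 2 (fun θ => (C + (-1) ^ k * Φ θ) * η θ) :=
      (contDiff_const.add (contDiff_const.mul hΦ)).mul hη2
    obtain ⟨B, hB2, hBp, hBI⟩ := ext_periodic (c := t k - 2 * w) (δ := w) hβ hw (by
      intro θ hθ
      have : θ ∉ Ioo (t k - w) (t (k + 1) + w) := by
        intro h
        exact hθ ⟨by linarith [h.1], by linarith [h.2]⟩
      rw [hηO θ this, mul_zero]) (Or.inl rfl : (1 : ℝ) = 1 ∨ (1 : ℝ) = -1)
    have hpos : ∀ θ, 0 ≤ (C + (-1) ^ k * Φ θ) * η θ := fun θ =>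
      mul_nonneg (by linarith [neg_le_of_abs_le (hsgnabs k θ)]) (hη0 θ)
    have hBper : Function.Periodic B (2 * Real.pi) := fun θ => by rw [hBp, one_mul]
    refine ⟨B, ⟨hB2, hBper⟩, ?_, ?_, ?_, ?_⟩
    · intro θ
      obtain ⟨y, hy, hyB⟩ := hBper.exists_mem_Ico hpi θ (t k - 2 * w)
      rw [hyB, hBI y ⟨hy.1, hy.2.le⟩]
      exact hpos y
    · intro θ hθ
      rw [hBI θ ⟨by linarith [hθ.1], by linarith [hθ.2]⟩, hηI θ hθ, mul_one]
    · intro θ hθ
      rw [hBI θ hθ]
      exact mul_le_of_le_one_right (by linarith [neg_le_of_abs_le (hsgnabs k θ)]) (hη1 θ)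
    · intro θ hθ h
      rw [hBI θ hθ, hηO θ h, mul_zero]
  choose! B hBT hB0 hBI hBle hBz using hblock
  -- pointwise bound for the sum
  have hsum : ∀ θ, ∑ k ∈ Finset.range n, B k θ ≤ 2 * C := by
    have hper : Function.Periodic (fun θ => ∑ k ∈ Finset.range n, B k θ) (2 * Real.pi) := fun θ =>
      Finset.sum_congr rfl fun k hk => (hBT k (Finset.mem_range.1 hk)).2 θ
    intro θ₀
    obtain ⟨θ, hθ, hθe⟩ := hper.exists_mem_Ico hpi θ₀ (t 0)
    rw [hθe]
    -- the block of θ
    obtain ⟨j, hj, hj1, hj2⟩ : ∃ j < n, t j ≤ θ ∧ θ < t (j + 1) := by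
      classical
      have hex : ∃ m, θ < t m := ⟨n, by rw [htn]; exact hθ.2⟩
      set m := Nat.find hex with hm
      have hm1 : θ < t m := Nat.find_spec hex
      have hm0 : m ≠ 0 := by
        intro h
        rw [h] at hm1
        linarith [hθ.1]
      have hmn : m ≤ n := Nat.find_min' hex (by rw [htn]; exact hθ.2)
      have hm2 := Nat.find_min hex (m := m - 1) (by omega)
      refine ⟨m - 1, by omega, not_lt.1 hm2, ?_⟩
      rw [Nat.sub_add_cancel (by omega)]
      exact hm1
    have hφ := hsgnabs j θ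
    have hφ1 := neg_le_of_abs_le hφ
    have hφ2 := le_of_abs_le hφ
    have hBj : B j θ = C + (-1) ^ j * Φ θ := hBI j hj θ ⟨hj1, hj2.le⟩
    have hgj := hgap j hj
    -- values of the other block functions
    have hother : ∀ k < n, k ≠ j → B k θ ≠ 0 →
        (B k θ ≤ C - (-1) ^ j * Φ θ) ∧
        ((θ < t j + w ∧ (k + 1 = j ∨ (j = 0 ∧ k + 1 = n))) ∨
          (t (j + 1) - w < θ ∧ (k = j + 1 ∨ (j + 1 = n ∧ k = 0)))) := by
      intro k hk hkj hne
      -- three possible translates
      have hk0 : t 0 ≤ t k := htle 0 k (by omega) hk.le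
      have hkn : t (k + 1) ≤ t n := htle (k + 1) n (by omega) le_rfl
      have hgk := hgap k hk
      have sgn1 : ∀ a b : ℕ, a = b + 1 → ((-1 : ℝ)) ^ a = -(-1) ^ b := by
        intro a b h; rw [h, pow_succ]; ring
      by_cases c0 : θ ∈ Icc (t k - 2 * w) (t k - 2 * w + 2 * Real.pi)
      · -- direct window
        have hin : θ ∈ Ioo (t k - w) (t (k + 1) + w) := by
          by_contra h; exact hne (hBz k hk θ c0 h)
        have hle := hBle k hk θ c0
        rcases Nat.lt_or_gt_of_ne hkj with h | h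
        · -- k < j
          have h3 : t (k + 1) ≤ t j := htle _ _ (by omega) hj.le
          have hkj1 : k + 1 = j := by
            by_contra h4
            have h5 : t (k + 1) < t (k + 2) := ht (k + 1) (by omega)
            have h6 : t (k + 2) ≤ t j := htle _ _ (by omega) hj.le
            have h7 := hgap (k + 1) (by omega)
            have h8 : t (k + 1 + 1) = t (k + 2) := rfl
            linarith [hin.2]
          refine ⟨?_, Or.inl ⟨?_, Or.inl hkj1⟩⟩
          · rw [sgn1 j k hkj1.symm]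
            linarith
          · rw [← hkj1]; exact hin.2
        · -- j < k
          have h3 : t (j + 1) ≤ t k := htle _ _ (by omega) hk.le
          have hkj1 : k = j + 1 := by
            by_contra h4
            have h6 : t (j + 2) ≤ t k := htle _ _ (by omega) hk.le
            have h7 := hgap (j + 1) (by omega)
            have h8 : t (j + 1 + 1) = t (j + 2) := rfl
            linarith [hin.1]
          refine ⟨?_, Or.inr ⟨?_, Or.inl hkj1⟩⟩
          · rw [sgn1 k j hkj1] at hle
            linarith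
          · rw [← hkj1]; linarith [hin.1]
      · rw [mem_Icc, not_and_or, not_le, not_le] at c0
        rcases c0 with c0 | c0
        · -- θ < t k - 2 w : translate by + 2π
          have hθ' : θ + 2 * Real.pi ∈ Icc (t k - 2 * w) (t k - 2 * w + 2 * Real.pi) := by
            refine ⟨?_, by linarith⟩
            have : t k ≤ t n := htle k n hk.le le_rfl
            rw [htn] at this
            linarith [hθ.1]
          have hper : B k (θ + 2 * Real.pi) = B k θ := (hBT k hk).2 θ
          have hin : θ + 2 * Real.pi ∈ Ioo (t k - w) (t (k + 1) + w) := by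
            by_contra h; exact hne (by rw [← hper]; exact hBz k hk _ hθ' h)
          have hle := hBle k hk _ hθ'
          rw [hper, hΦp] at hle
          have hk1 : k + 1 = n := by
            by_contra h4
            have h6 : t (k + 2) ≤ t n := htle _ _ (by omega) le_rfl
            have h7 := hgap (k + 1) (by omega)
            have h8 : t (k + 1 + 1) = t (k + 2) := rfl
            rw [htn] at h6
            linarith [hin.2, hθ.1]
          have hθw : θ < t 0 + w := by
            have : t (k + 1) = t 0 + 2 * Real.pi := by rw [hk1, htn]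
            linarith [hin.2]
          have hj0 : j = 0 := by
            by_contra h4
            have h6 : t 1 ≤ t j := htle _ _ (by omega) hj.le
            have h7 := hgap 0 (by omega)
            simp only [zero_add] at h7
            linarith
          refine ⟨?_, Or.inl ⟨by rw [hj0]; exact hθw, Or.inr ⟨hj0, hk1⟩⟩⟩
          rw [hj0, pow_zero, one_mul]
          have h5 : (-1 : ℝ) ^ k * ((-1) ^ n * Φ θ) = - Φ θ := by
            rw [← mul_assoc, ← hk1, ← pow_add, show k + (k + 1) = 2 * k + 1 by ring, pow_succ,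
              pow_mul]
            norm_num
          rw [h5] at hle
          linarith
        · -- θ > t k - 2 w + 2 π : translate by - 2π
          have hθ' : θ - 2 * Real.pi ∈ Icc (t k - 2 * w) (t k - 2 * w + 2 * Real.pi) := by
            refine ⟨by linarith, ?_⟩
            have := hθ.2
            linarith
          have hper : B k (θ - 2 * Real.pi) = B k θ := by
            have := (hBT k hk).2 (θ - 2 * Real.pi)
            rw [sub_add_cancel] at this
            exact this.symm
          have hin : θ - 2 * Real.pi ∈ Ioo (t k - w) (t (k + 1) + w) := by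
            by_contra h; exact hne (by rw [← hper]; exact hBz k hk _ hθ' h)
          have hle := hBle k hk _ hθ'
          rw [hper, hΦm] at hle
          have hk1 : k = 0 := by
            by_contra h4
            have h6 : t 1 ≤ t k := htle _ _ (by omega) hk.le
            have h7 := hgap 0 (by omega)
            simp only [zero_add] at h7
            linarith [hin.1, hθ.2]
          have hθw : t n - w < θ := by
            rw [htn]
            rw [hk1] at hin
            linarith [hin.1]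
          have hjn : j + 1 = n := by
            by_contra h4
            have h6 : t (j + 2) ≤ t n := htle _ _ (by omega) le_rfl
            have h7 := hgap (j + 1) (by omega)
            have h8 : t (j + 1 + 1) = t (j + 2) := rfl
            linarith
          refine ⟨?_, Or.inr ⟨by rw [hjn]; exact hθw, Or.inr ⟨hjn, hk1⟩⟩⟩
          rw [show ((-1 : ℝ)) ^ k = 1 by rw [hk1, pow_zero], one_mul, ← hjn, pow_succ] at hle
          linarith
    -- at most one other block is active
    have hrest : ∑ k ∈ (Finset.range n).erase j, B k θ ≤ C - (-1) ^ j * Φ θ := by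
      by_cases hex : ∃ k₁ < n, k₁ ≠ j ∧ B k₁ θ ≠ 0
      · obtain ⟨k₁, hk₁, hk₁j, hk₁0⟩ := hex
        have h₁ := hother k₁ hk₁ hk₁j hk₁0
        rw [Finset.sum_eq_single_of_mem k₁ (Finset.mem_erase.2 ⟨hk₁j, Finset.mem_range.2 hk₁⟩)]
        · exact h₁.1
        · intro k₂ hk₂ hne
          by_contra hB
          have hk₂j := (Finset.mem_erase.1 hk₂).1
          have hk₂n := Finset.mem_range.1 (Finset.mem_erase.1 hk₂).2
          have h₂ := hother k₂ hk₂n hk₂j hB
          rcases h₁.2 with ⟨a1, a2⟩ | ⟨a1, a2⟩ <;> rcases h₂.2 with ⟨b1, b2⟩ | ⟨b1, b2⟩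
          · omega
          · linarith
          · linarith
          · omega
      · push Not at hex
        rw [Finset.sum_eq_zero]
        · linarith
        · intro k hk
          exact hex k (Finset.mem_range.1 (Finset.mem_erase.1 hk).2) (Finset.mem_erase.1 hk).1
    rw [← Finset.add_sum_erase _ _ (Finset.mem_range.2 hj), hBj]
    linarith
  -- conclusion
  have hint : ∀ k < n, ∫ θ in (t k)..(t (k + 1)), V k θ * (ρ ^ 2 * C + (-1) ^ k * LL ρ Φ θ) ≤ M (B k) := by
    intro k hk
    have hcongr : ∫ θ in (t k)..(t (k + 1)), V k θ * (ρ ^ 2 * C + (-1) ^ k * LL ρ Φ θ)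
        = ∫ θ in (t k)..(t (k + 1)), V k θ * LL ρ (B k) θ := by
      rw [intervalIntegral.integral_of_le (ht k hk).le, intervalIntegral.integral_of_le (ht k hk).le,
        MeasureTheory.integral_Ioc_eq_integral_Ioo, MeasureTheory.integral_Ioc_eq_integral_Ioo]
      refine MeasureTheory.setIntegral_congr_fun measurableSet_Ioo fun θ hθ => ?_
      have hev : B k =ᶠ[𝓝 θ] fun x => C + (-1) ^ k * Φ x := by
        filter_upwards [Ioo_mem_nhds hθ.1 hθ.2] with x hx
        exact hBI k hk x ⟨hx.1.le, hx.2.le⟩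
      have hd1 : deriv (B k) =ᶠ[𝓝 θ] fun x => (-1) ^ k * deriv Φ x := by
        have := hev.deriv
        refine this.trans (Filter.Eventually.of_forall fun x => ?_)
        simp only
        rw [deriv_const_add, deriv_const_mul _ ((hΦ.differentiable (by norm_num)) x)]
      have hd2 : deriv (deriv (B k)) θ = (-1) ^ k * deriv (deriv Φ) θ := by
        rw [hd1.deriv_eq, deriv_const_mul]
        have : ContDiff ℝ 1 (deriv Φ) := by
          have h2 : ContDiff ℝ (1 + 1) Φ := by simpa [one_add_one_eq_two] using hΦ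
          exact (contDiff_succ_iff_deriv.1 h2).2.2
        exact (this.differentiable (by norm_num)) θ
      unfold LL
      rw [hd2, hBI k hk θ ⟨hθ.1.le, hθ.2.le⟩]
      ring
    rw [hcongr]
    exact hR k hk (B k) (hBT k hk) (hB0 k hk)
  calc ∑ k ∈ Finset.range n, ∫ θ in (t k)..(t (k + 1)), V k θ * (ρ ^ 2 * C + (-1) ^ k * LL ρ Φ θ)
      ≤ ∑ k ∈ Finset.range n, M (B k) := Finset.sum_le_sum fun k hk => hint k (Finset.mem_range.1 hk)
    _ = M (fun θ => ∑ k ∈ Finset.range n, B k θ) := (hM.sum B n hBT).symm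
    _ ≤ M (fun _ => 2 * C * 1) := hM.mono2 (Tst.sum fun k hk => hBT k (Finset.mem_range.1 hk))
        (Tst.cst _) (fun θ => by rw [mul_one]; exact hsum θ)
    _ = 4 * Real.pi * C * ρ ^ 2 := by rw [hM.smul (2 * C) _ (Tst.cst 1), h1]; ring

end DW24
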