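import Pool.Agent.DW24.Defs

/-!
Periodic (or antiperiodic) extension of a function supported inside one period.
-/

set_option autoImplicit false

open MeasureTheory Filter Topology Set

namespace DW24

/-- Extension of `β`, supported in `[c + δ, c + 2π - δ]`, to a function with `e (θ + 2π) = σ e θ`. -/
theorem ext_periodic {m : WithTop ℕ∞} {β : ℝ → ℝ} (hβ : ContDiff ℝ m β) {c δ : ℝ} (hδ : 0 < δ)
    (hsupp : ∀ θ, θ ∉ Icc (c + δ) (c + 2 * Real.pi - δ) → β θ = 0) {σ : ℝ} (hσ : σ = 1 ∨ σ = -1) :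
    ∃ e : ℝ → ℝ, ContDiff ℝ m e ∧ (∀ θ, e (θ + 2 * Real.pi) = σ * e θ) ∧
      (∀ θ ∈ Icc c (c + 2 * Real.pi), e θ = β θ) := by
  have h2 : (0 : ℝ) < 2 * Real.pi := by positivity
  have hσ0 : σ ≠ 0 := by rcases hσ with h | h <;> rw [h] <;> norm_num
  set e : ℝ → ℝ := fun θ => σ ^ (toIcoDiv h2 c θ) * β (toIcoMod h2 c θ) with he
  have hper : ∀ θ, e (θ + 2 * Real.pi) = σ * e θ := by
    intro θ
    simp only [he]
    rw [toIcoDiv_add_right, toIcoMod_add_right, zpow_add_one₀ hσ0]
    ring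
  have hper' : ∀ (k : ℤ) θ, e (θ + k * (2 * Real.pi)) = σ ^ k * e θ := by
    intro k θ
    simp only [he]
    have h1 : toIcoDiv h2 c (θ + k * (2 * Real.pi)) = toIcoDiv h2 c θ + k := by
      simp
    have h3 : toIcoMod h2 c (θ + k * (2 * Real.pi)) = toIcoMod h2 c θ := by
      simp
    rw [h1, h3, zpow_add₀ hσ0]
    ring
  have hIco : ∀ θ ∈ Ico c (c + 2 * Real.pi), e θ = β θ := by
    intro θ hθ
    have hm : toIcoMod h2 c θ = θ := (toIcoMod_eq_self h2).2 hθ
    have hd : toIcoDiv h2 c θ = 0 := by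
      have h3 := toIcoMod_add_toIcoDiv_zsmul h2 c θ
      rw [hm] at h3
      have h4 : (toIcoDiv h2 c θ : ℝ) * (2 * Real.pi) = 0 := by
        rw [zsmul_eq_mul] at h3; linarith
      rcases mul_eq_zero.1 h4 with h5 | h5
      · exact_mod_cast h5
      · exact absurd h5 h2.ne'
    simp only [he, hm, hd, zpow_zero, one_mul]
  have hβc : β c = 0 := hsupp c (fun h => by linarith [h.1])
  have hβc2 : β (c + 2 * Real.pi) = 0 := hsupp _ (fun h => by linarith [h.2])
  have hIcc : ∀ θ ∈ Icc c (c + 2 * Real.pi), e θ = β θ := by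
    intro θ hθ
    rcases eq_or_lt_of_le hθ.2 with h | h
    · rw [h, hper, hIco c ⟨le_rfl, by linarith⟩, hβc, hβc2, mul_zero]
    · exact hIco θ ⟨hθ.1, h⟩
  refine ⟨e, ?_, hper, hIcc⟩
  -- smoothness on the open period
  have hopen : ∀ θ ∈ Ioo c (c + 2 * Real.pi), ContDiffAt ℝ m e θ := by
    intro θ hθ
    have : e =ᶠ[𝓝 θ] β := by
      filter_upwards [Ioo_mem_nhds hθ.1 hθ.2] with x hx
      exact hIcc x ⟨hx.1.le, hx.2.le⟩
    exact hβ.contDiffAt.congr_of_eventuallyEq this
  -- at the point c the function vanishes nearby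
  have hatc : ContDiffAt ℝ m e c := by
    have : e =ᶠ[𝓝 c] fun _ => 0 := by
      have hmem : Ioo (c - δ) (c + δ) ∈ 𝓝 c := Ioo_mem_nhds (by linarith) (by linarith)
      filter_upwards [hmem, Ioo_mem_nhds (show c - 2 * Real.pi < c by linarith)
        (show c < c + 2 * Real.pi by linarith)] with x hx hx2
      rcases lt_or_ge x c with h | h
      · have e1 : e (x + 2 * Real.pi) = β (x + 2 * Real.pi) :=
          hIcc _ ⟨by linarith [hx2.1], by linarith⟩
        have e2 : β (x + 2 * Real.pi) = 0 := hsupp _ (fun h' => by linarith [h'.2, hx.1])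
        rw [hper, e2] at e1
        rcases mul_eq_zero.1 e1 with h5 | h5
        · exact absurd h5 hσ0
        · exact h5
      · rw [hIcc x ⟨h, by linarith [hx2.2]⟩]
        exact hsupp x (fun h' => by linarith [h'.1, hx.2])
    exact (contDiffAt_const (c := (0 : ℝ))).congr_of_eventuallyEq this
  rw [contDiff_iff_contDiffAt]
  intro θ
  -- translate to the base period
  set k : ℤ := toIcoDiv h2 c θ with hk
  set θ' : ℝ := toIcoMod h2 c θ with hθ'
  have hθk : θ = θ' + k * (2 * Real.pi) := by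
    have := toIcoMod_add_toIcoDiv_zsmul h2 c θ
    rw [zsmul_eq_mul] at this
    exact this.symm
  have hmem : θ' ∈ Ico c (c + 2 * Real.pi) := toIcoMod_mem_Ico h2 c θ
  have hbase : ContDiffAt ℝ m e θ' := by
    rcases eq_or_lt_of_le hmem.1 with h | h
    · rw [← h]; exact hatc
    · exact hopen θ' ⟨h, hmem.2⟩
  have heq : e = fun x => σ ^ k * e (x - k * (2 * Real.pi)) := by
    funext x
    have := hper' k (x - k * (2 * Real.pi))
    rw [sub_add_cancel] at this
    exact this
  rw [heq]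
  have hcomp : ContDiffAt ℝ m (fun x : ℝ => e (x - k * (2 * Real.pi))) θ := by
    have hθ'' : θ - k * (2 * Real.pi) = θ' := by rw [hθk]; ring
    have h1 : ContDiffAt ℝ m e (θ - k * (2 * Real.pi)) := by rw [hθ'']; exact hbase
    exact h1.comp θ (contDiffAt_id.sub contDiffAt_const)
  exact contDiffAt_const.mul hcomp

/-- smooth cutoff: `1` on `[s, t]`, `0` outside `(s - w, t + w)`. -/
theorem exists_cutoff (s t : ℝ) {w : ℝ} (hw : 0 < w) :
    ∃ η : ℝ → ℝ, ContDiff ℝ 2 η ∧ (∀ θ, 0 ≤ η θ) ∧ (∀ θ, η θ ≤ 1) ∧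
      (∀ θ ∈ Icc s t, η θ = 1) ∧ (∀ θ, θ ∉ Ioo (s - w) (t + w) → η θ = 0) := by
  refine ⟨fun θ => Real.smoothTransition ((θ - (s - w)) / w) * Real.smoothTransition ((t + w - θ) / w),
    ?_, ?_, ?_, ?_, ?_⟩
  · have h1 : ContDiff ℝ 2 (fun θ : ℝ => (θ - (s - w)) / w) := (contDiff_id.sub contDiff_const).div_const w
    have h2 : ContDiff ℝ 2 (fun θ : ℝ => (t + w - θ) / w) := (contDiff_const.sub contDiff_id).div_const w
    exact (Real.smoothTransition.contDiff.comp h1).mul (Real.smoothTransition.contDiff.comp h2)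
  · intro θ
    exact mul_nonneg (Real.smoothTransition.nonneg _) (Real.smoothTransition.nonneg _)
  · intro θ
    exact mul_le_one₀ (Real.smoothTransition.le_one _) (Real.smoothTransition.nonneg _)
      (Real.smoothTransition.le_one _)
  · intro θ hθ
    have h1 : Real.smoothTransition ((θ - (s - w)) / w) = 1 :=
      Real.smoothTransition.one_of_one_le (by rw [le_div_iff₀ hw]; linarith [hθ.1])
    have h2 : Real.smoothTransition ((t + w - θ) / w) = 1 :=
      Real.smoothTransition.one_of_one_le (by rw [le_div_iff₀ hw]; linarith [hθ.2])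
    simp only [h1, h2, mul_one]
  · intro θ hθ
    rw [mem_Ioo, not_and_or, not_lt, not_lt] at hθ
    rcases hθ with h | h
    · have h1 : Real.smoothTransition ((θ - (s - w)) / w) = 0 :=
        Real.smoothTransition.zero_of_nonpos (div_nonpos_of_nonpos_of_nonneg (by linarith) hw.le)
      simp only [h1, zero_mul]
    · have h1 : Real.smoothTransition ((t + w - θ) / w) = 0 :=
        Real.smoothTransition.zero_of_nonpos (div_nonpos_of_nonpos_of_nonneg (by linarith) hw.le)
      simp only [h1, mul_zero]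

end DW24
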