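import Pool.Agent.DW24.Defs
import Pool.Agent.DW24.Ext
import Pool.Agent.DW24.Core

set_option autoImplicit false

open MeasureTheory Filter Topology Set

namespace DW24

/-- A two-scale cutoff: `X` rises from `0` to `1` on `[-ε-η, η]`, with the concave corner
located in `[-η, η]`. -/
lemma exists_X {ε η : ℝ} (hε : 0 < ε) (hη : 0 < η) :
    ∃ X X1 X2 F F1 : ℝ → ℝ, (∀ x, HasDerivAt X (X1 x) x) ∧ (∀ x, HasDerivAt X1 (X2 x) x) ∧
      Continuous X2 ∧ (∀ x, 0 ≤ X x) ∧ (∀ x, X x ≤ 1) ∧ (∀ x, x ≤ -ε - η → X x = 0) ∧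
      (∀ x, η ≤ x → X x = 1) ∧ (∀ x, 0 ≤ X1 x) ∧ (∀ x, x ≤ -ε - η → X1 x = 0) ∧
      (∀ x, η ≤ x → X1 x = 0) ∧ (∀ x, -(F1 x) / ε ≤ X2 x) ∧ (∀ x, 0 ≤ F1 x) ∧
      (∀ x, x ∉ Icc (-η) η → F1 x = 0) ∧ (∀ x, HasDerivAt F (F1 x) x) ∧ Continuous F1 ∧
      (∀ x, 0 ≤ F x) ∧ (∀ x, F x ≤ 1) := by
  set F : ℝ → ℝ := fun u => Real.smoothTransition ((u + η) / (2 * η)) with hF
  have hFcd : ContDiff ℝ 2 F := by
    have h1 : ContDiff ℝ 2 Real.smoothTransition := Real.smoothTransition.contDiff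
    exact h1.comp (by fun_prop)
  have hFc : Continuous F := hFcd.continuous
  have hFd : ∀ x, HasDerivAt F (deriv F x) x := fun x =>
    (hFcd.differentiable (by norm_num) x).hasDerivAt
  have hF1c : Continuous (deriv F) := hFcd.continuous_deriv (by norm_num)
  have hFmono : Monotone F := by
    intro x y hxy
    apply Real.smoothTransition.monotone
    apply div_le_div_of_nonneg_right _ (by positivity)
    linarith
  have hF0 : ∀ x, x ≤ -η → F x = 0 := by
    intro x hx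
    apply Real.smoothTransition.zero_of_nonpos
    apply div_nonpos_of_nonpos_of_nonneg <;> linarith
  have hF1 : ∀ x, η ≤ x → F x = 1 := by
    intro x hx
    apply Real.smoothTransition.one_of_one_le
    rw [le_div_iff₀ (by positivity)]
    linarith
  have hFn : ∀ x, 0 ≤ F x := fun x => Real.smoothTransition.nonneg _
  have hFl : ∀ x, F x ≤ 1 := fun x => Real.smoothTransition.le_one _
  have hdn : ∀ x, 0 ≤ deriv F x := fun x => hFmono.deriv_nonneg
  have hd0 : ∀ x, x ∉ Icc (-η) η → deriv F x = 0 := by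
    intro x hx
    rw [mem_Icc, not_and_or, not_le, not_le] at hx
    rcases hx with hx | hx
    · have : F =ᶠ[𝓝 x] fun _ => 0 := by
        filter_upwards [Iio_mem_nhds hx] with y hy
        exact hF0 y (le_of_lt hy)
      rw [this.deriv_eq]
      simp
    · have : F =ᶠ[𝓝 x] fun _ => 1 := by
        filter_upwards [Ioi_mem_nhds hx] with y hy
        exact hF1 y (le_of_lt hy)
      rw [this.deriv_eq]
      simp
  set G : ℝ → ℝ := fun x => ∫ u in (0)..x, F u with hG
  have hGd : ∀ x, HasDerivAt G (F x) x := by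
    intro x
    exact intervalIntegral.integral_hasDerivAt_right (hFc.intervalIntegrable _ _)
      (hFc.stronglyMeasurableAtFilter _ _) hFc.continuousAt
  have hGI : ∀ x y, G y - G x = ∫ u in x..y, F u := by
    intro x y
    simp only [hG]
    rw [intervalIntegral.integral_interval_sub_left (hFc.intervalIntegrable _ _)
      (hFc.intervalIntegrable _ _)]
  refine ⟨fun x => (G (x + ε) - G x) / ε, fun x => (F (x + ε) - F x) / ε,
    fun x => (deriv F (x + ε) - deriv F x) / ε, F, deriv F, ?_, ?_, ?_, ?_, ?_, ?_, ?_, ?_, ?_, ?_,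
    ?_, hdn, hd0, hFd, hF1c, hFn, hFl⟩
  · intro x
    have h1 : HasDerivAt (fun x => G (x + ε)) (F (x + ε)) x := (hGd (x + ε)).comp_add_const x ε
    exact (h1.sub (hGd x)).div_const ε
  · intro x
    have h1 : HasDerivAt (fun x => F (x + ε)) (deriv F (x + ε)) x := (hFd (x + ε)).comp_add_const x ε
    exact (h1.sub (hFd x)).div_const ε
  · fun_prop
  · intro x
    show 0 ≤ (G (x + ε) - G x) / ε
    rw [hGI]
    apply div_nonneg _ hε.le
    apply intervalIntegral.integral_nonneg (by linarith)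
    intro u _
    exact hFn u
  · intro x
    show (G (x + ε) - G x) / ε ≤ 1
    rw [hGI, div_le_one hε]
    have h1 : ∫ u in x..(x + ε), F u ≤ ∫ _u in x..(x + ε), (1 : ℝ) := by
      apply intervalIntegral.integral_mono_on (by linarith) (hFc.intervalIntegrable _ _)
        intervalIntegrable_const
      intro u _
      exact hFl u
    simpa using h1
  · intro x hx
    show (G (x + ε) - G x) / ε = 0
    rw [hGI]
    have h1 : ∫ u in x..(x + ε), F u = ∫ _u in x..(x + ε), (0 : ℝ) := by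
      apply intervalIntegral.integral_congr
      intro u hu
      rw [uIcc_of_le (by linarith)] at hu
      exact hF0 u (by linarith [hu.2])
    rw [h1]
    simp
  · intro x hx
    show (G (x + ε) - G x) / ε = 1
    rw [hGI]
    have h1 : ∫ u in x..(x + ε), F u = ∫ _u in x..(x + ε), (1 : ℝ) := by
      apply intervalIntegral.integral_congr
      intro u hu
      rw [uIcc_of_le (by linarith)] at hu
      exact hF1 u (by linarith [hu.1])
    rw [h1]
    simp [hε.ne']
  · intro x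
    show 0 ≤ (F (x + ε) - F x) / ε
    apply div_nonneg _ hε.le
    have := hFmono (show x ≤ x + ε by linarith)
    linarith
  · intro x hx
    show (F (x + ε) - F x) / ε = 0
    rw [hF0 x (by linarith), hF0 (x + ε) (by linarith)]
    simp
  · intro x hx
    show (F (x + ε) - F x) / ε = 0
    rw [hF1 x hx, hF1 (x + ε) (by linarith)]
    simp
  · intro x
    show -(deriv F x) / ε ≤ (deriv F (x + ε) - deriv F x) / ε
    apply div_le_div_of_nonneg_right _ hε.le
    have := hdn (x + ε)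
    linarith

lemma contDiff2_of {X X1 X2 : ℝ → ℝ} (h1 : ∀ x, HasDerivAt X (X1 x) x)
    (h2 : ∀ x, HasDerivAt X1 (X2 x) x) (h3 : Continuous X2) : ContDiff ℝ 2 X := by
  have e1 : deriv X = X1 := funext fun x => (h1 x).deriv
  have e2 : deriv X1 = X2 := funext fun x => (h2 x).deriv
  have c1 : ContDiff ℝ 1 X1 := by
    rw [contDiff_one_iff_deriv]
    exact ⟨fun x => (h2 x).differentiableAt, by rw [e2]; exact h3⟩
  rw [show (2 : WithTop ℕ∞) = 1 + 1 by norm_num, contDiff_succ_iff_deriv]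
  exact ⟨fun x => (h1 x).differentiableAt, by simp, by rw [e1]; exact c1⟩

lemma periodic_deriv' {ψ : ℝ → ℝ} {c : ℝ} (h : Function.Periodic ψ c) :
    Function.Periodic (deriv ψ) c := by
  intro x
  have h1 : (fun y => ψ (y + c)) = ψ := funext h
  calc deriv ψ (x + c) = deriv (fun y => ψ (y + c)) x := (deriv_comp_add_const ψ c x).symm
    _ = deriv ψ x := by rw [h1]

lemma LL_periodic {ρ : ℝ} {ψ : ℝ → ℝ} (hψ : Tst ψ) : Function.Periodic (LL ρ ψ) (2 * Real.pi) := by
  intro x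
  simp only [LL]
  rw [periodic_deriv' (periodic_deriv' hψ.2) x, hψ.2 x]

lemma LL_cont {ρ : ℝ} {ψ : ℝ → ℝ} (hψ : Tst ψ) : Continuous (LL ρ ψ) := by
  have h1 : ContDiff ℝ 1 (deriv ψ) := by
    have h := hψ.1
    rw [show (2 : WithTop ℕ∞) = 1 + 1 by norm_num, contDiff_succ_iff_deriv] at h
    exact h.2.2
  have h2 : Continuous (deriv (deriv ψ)) := h1.continuous_deriv le_rfl
  have h3 := hψ.1.continuous
  show Continuous (fun θ => deriv (deriv ψ) θ + ρ ^ 2 * ψ θ)
  fun_prop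

lemma int_period {h : ℝ → ℝ} (hp : Function.Periodic h (2 * Real.pi)) (c : ℝ) :
    ∫ θ in (0)..(2 * Real.pi), h θ = ∫ θ in c..(c + 2 * Real.pi), h θ := by
  have := hp.intervalIntegral_add_eq 0 c
  rwa [zero_add] at this

lemma ar1 {a b A c : ℝ} (h1 : -A ≤ a) (h2 : 0 ≤ b) (h3 : b ≤ c) (hA : 0 ≤ A) : -(A * c) ≤ a * b := by
  nlinarith [mul_le_mul_of_nonneg_right h1 h2, mul_le_mul_of_nonneg_left h3 hA]

lemma ar2 {a b A c : ℝ} (h1 : a ≤ A) (h2 : 0 ≤ b) (h3 : b ≤ c) (hA : 0 ≤ A) : a * b ≤ A * c := by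
  nlinarith [mul_le_mul_of_nonneg_right h1 h2, mul_le_mul_of_nonneg_left h3 hA]

lemma ar3 {p v x f ε δ A : ℝ} (hε : 0 < ε) (h1 : -f / ε ≤ x) (hp : 0 ≤ p) (hv : 0 ≤ v) (hf : 0 ≤ f)
    (hvf : v * f ≤ δ * ε * f) (hpA : p ≤ A) (hA : 0 ≤ A) : -(A * (δ * f)) ≤ p * v * x := by
  have g3 := mul_le_mul_of_nonneg_left h1 (mul_nonneg hp hv)
  have g4 : p * v * (-f / ε) = -(p * ((v * f) / ε)) := by ring
  have g5 : (v * f) / ε ≤ δ * f := by
    rw [div_le_iff₀ hε]
    linarith
  have g6 : 0 ≤ (v * f) / ε := div_nonneg (mul_nonneg hv hf) hε.le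
  have g8 : p * ((v * f) / ε) ≤ A * (δ * f) := mul_le_mul hpA g5 g6 hA
  rw [g4] at g3
  linarith

/-- Restriction of the inequality `L V ≤ M` to the arc between two zeros. -/
theorem restr {V : ℝ → ℝ} (hc : Continuous V) (hp : Function.Periodic V (2 * Real.pi))
    (h0 : ∀ θ, 0 ≤ V θ) {ρ : ℝ} {M : (ℝ → ℝ) → ℝ} (hM : PosFun M)
    (hV : ∀ ψ, Tst ψ → (∀ θ, 0 ≤ ψ θ) →
      ∫ θ in (0)..(2 * Real.pi), V θ * LL ρ ψ θ ≤ M ψ)
    {s t : ℝ} (hst : s < t) (hlen : t ≤ s + 2 * Real.pi) (hs : V s = 0) (ht : V t = 0)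
    (ψ : ℝ → ℝ) (hψ : Tst ψ) (hψ0 : ∀ θ, 0 ≤ ψ θ) :
    ∫ θ in s..t, V θ * LL ρ ψ θ ≤ M ψ := by
  rcases eq_or_lt_of_le hlen with hlen | hlen
  · rw [hlen]
    have hper : Function.Periodic (fun θ => V θ * LL ρ ψ θ) (2 * Real.pi) := by
      intro x
      show V (x + 2 * Real.pi) * LL ρ ψ (x + 2 * Real.pi) = V x * LL ρ ψ x
      rw [hp x, LL_periodic hψ x]
    rw [← int_period hper s]
    exact hV ψ hψ hψ0
  -- the proper case
  set γ : ℝ := s + 2 * Real.pi - t with hγ
  have hγ0 : 0 < γ := by rw [hγ]; linarith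
  set c : ℝ := s - γ / 2 with hcdef
  have hc2 : c + 2 * Real.pi = t + γ / 2 := by rw [hcdef, hγ]; ring
  -- bounds
  have hψ1c : Continuous (deriv ψ) := hψ.1.continuous_deriv (by norm_num)
  have hLc : Continuous (LL ρ ψ) := LL_cont hψ
  obtain ⟨A, hA0, hA1, hA2, hA3⟩ : ∃ A : ℝ, 0 ≤ A ∧ (∀ θ ∈ Icc c (c + 2 * Real.pi), ψ θ ≤ A) ∧
      (∀ θ ∈ Icc c (c + 2 * Real.pi), |deriv ψ θ| ≤ A) ∧
      (∀ θ ∈ Icc c (c + 2 * Real.pi), |LL ρ ψ θ| ≤ A) := by
    obtain ⟨A1, h1⟩ := (isCompact_Icc (a := c) (b := c + 2 * Real.pi)).exists_bound_of_continuousOn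
      hψ.1.continuous.continuousOn
    obtain ⟨A2, h2⟩ := (isCompact_Icc (a := c) (b := c + 2 * Real.pi)).exists_bound_of_continuousOn
      hψ1c.continuousOn
    obtain ⟨A3, h3⟩ := (isCompact_Icc (a := c) (b := c + 2 * Real.pi)).exists_bound_of_continuousOn
      hLc.continuousOn
    refine ⟨max (max A1 A2) (max A3 0), le_trans (le_max_right _ _) (le_max_right _ _), ?_, ?_, ?_⟩
    · intro θ hθ
      refine le_trans (le_abs_self _) (le_trans (h1 θ hθ) (le_trans (le_max_left _ _) (le_max_left _ _)))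
    · intro θ hθ
      exact le_trans (h2 θ hθ) (le_trans (le_max_right _ _) (le_max_left _ _))
    · intro θ hθ
      exact le_trans (h3 θ hθ) (le_trans (le_max_left _ _) (le_max_right _ _))
  suffices hmain : ∀ δ : ℝ, 0 < δ → ∫ θ in s..t, V θ * LL ρ ψ θ ≤ M ψ + δ * A * (2 * Real.pi + 6) by
    apply le_of_forall_pos_le_add
    intro e he
    have hq : 0 < A * (2 * Real.pi + 6) + 1 := by positivity
    have h1 := hmain (e / (A * (2 * Real.pi + 6) + 1)) (by positivity)
    have h2 : e / (A * (2 * Real.pi + 6) + 1) * A * (2 * Real.pi + 6) ≤ e := by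
      rw [mul_assoc, div_mul_eq_mul_div, div_le_iff₀ hq]
      nlinarith
    linarith
  intro δ hδ
  obtain ⟨ε₁, hε₁, hε₁s, hε₁t⟩ : ∃ ε₁ : ℝ, 0 < ε₁ ∧ (∀ θ, |θ - s| ≤ ε₁ → V θ ≤ δ) ∧
      (∀ θ, |θ - t| ≤ ε₁ → V θ ≤ δ) := by
    have h1 : ∀ᶠ θ in 𝓝 s, V θ < δ := hc.continuousAt.eventually_lt_const (by rw [hs]; exact hδ)
    have h2 : ∀ᶠ θ in 𝓝 t, V θ < δ := hc.continuousAt.eventually_lt_const (by rw [ht]; exact hδ)
    obtain ⟨a1, ha1, h1⟩ := Metric.eventually_nhds_iff.mp h1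
    obtain ⟨a2, ha2, h2⟩ := Metric.eventually_nhds_iff.mp h2
    refine ⟨min a1 a2 / 2, by positivity, ?_, ?_⟩
    · intro θ hθ
      apply (h1 _).le
      rw [Real.dist_eq]
      have := min_le_left a1 a2
      have := lt_min ha1 ha2
      linarith
    · intro θ hθ
      apply (h2 _).le
      rw [Real.dist_eq]
      have := min_le_right a1 a2
      have := lt_min ha1 ha2
      linarith
  set ε : ℝ := min (ε₁ / 2) (min (γ / 16) ((t - s) / 8)) with hεdef
  have hε : 0 < ε := by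
    apply lt_min (by positivity)
    apply lt_min (by positivity)
    linarith
  have hεa : 2 * ε ≤ ε₁ := by
    have := min_le_left (ε₁ / 2) (min (γ / 16) ((t - s) / 8))
    linarith
  have hεb : ε ≤ γ / 16 := le_trans (min_le_right _ _) (min_le_left _ _)
  have hεc : ε ≤ (t - s) / 8 := le_trans (min_le_right _ _) (min_le_right _ _)
  have hδε : 0 < δ * ε := by positivity
  obtain ⟨η₁, hη₁, hη₁s, hη₁t⟩ : ∃ η₁ : ℝ, 0 < η₁ ∧ (∀ θ, |θ - s| ≤ η₁ → V θ ≤ δ * ε) ∧
      (∀ θ, |θ - t| ≤ η₁ → V θ ≤ δ * ε) := by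
    have h1 : ∀ᶠ θ in 𝓝 s, V θ < δ * ε := hc.continuousAt.eventually_lt_const (by rw [hs]; exact hδε)
    have h2 : ∀ᶠ θ in 𝓝 t, V θ < δ * ε := hc.continuousAt.eventually_lt_const (by rw [ht]; exact hδε)
    obtain ⟨a1, ha1, h1⟩ := Metric.eventually_nhds_iff.mp h1
    obtain ⟨a2, ha2, h2⟩ := Metric.eventually_nhds_iff.mp h2
    refine ⟨min a1 a2 / 2, by positivity, ?_, ?_⟩
    · intro θ hθ
      apply (h1 _).le
      rw [Real.dist_eq]
      have := min_le_left a1 a2
      have := lt_min ha1 ha2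
      linarith
    · intro θ hθ
      apply (h2 _).le
      rw [Real.dist_eq]
      have := min_le_right a1 a2
      have := lt_min ha1 ha2
      linarith
  set η : ℝ := min η₁ ε with hηdef
  have hη : 0 < η := lt_min hη₁ hε
  have hηa : η ≤ η₁ := min_le_left _ _
  have hηb : η ≤ ε := min_le_right _ _
  obtain ⟨X, X1, X2, F, F1, hX1, hX2, hX2c, hXn, hXl, hX0, hX1', hX1n, hX10, hX11, hX2lb, hF1n, hF10,
    hFd, hF1c, hFn, hFl⟩ := exists_X hε hη
  have hXc : Continuous X := continuous_iff_continuousAt.mpr fun x => (hX1 x).continuousAt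
  have hX1c : Continuous X1 := continuous_iff_continuousAt.mpr fun x => (hX2 x).continuousAt
  have hFc : Continuous F := continuous_iff_continuousAt.mpr fun x => (hFd x).continuousAt
  -- the test function
  have hψd : ∀ θ, HasDerivAt ψ (deriv ψ θ) θ := fun θ =>
    (hψ.1.differentiable (by norm_num) θ).hasDerivAt
  have hψ1cd : ContDiff ℝ 1 (deriv ψ) := by
    have h := hψ.1
    rw [show (2 : WithTop ℕ∞) = 1 + 1 by norm_num, contDiff_succ_iff_deriv] at h
    exact h.2.2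
  have hψdd : ∀ θ, HasDerivAt (deriv ψ) (deriv (deriv ψ) θ) θ := fun θ =>
    (hψ1cd.differentiable (by norm_num) θ).hasDerivAt
  have hψ2c : Continuous (deriv (deriv ψ)) := hψ1cd.continuous_deriv le_rfl
  set β : ℝ → ℝ := fun θ => ψ θ * (X (θ - s) + X (t - θ) - 1) with hβ
  set β1 : ℝ → ℝ := fun θ => deriv ψ θ * (X (θ - s) + X (t - θ) - 1) + ψ θ * (X1 (θ - s) - X1 (t - θ))
    with hβ1
  set β2 : ℝ → ℝ := fun θ => deriv (deriv ψ) θ * (X (θ - s) + X (t - θ) - 1) +
    2 * deriv ψ θ * (X1 (θ - s) - X1 (t - θ)) + ψ θ * (X2 (θ - s) + X2 (t - θ)) with hβ2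
  have hsub1 : ∀ (H H1 : ℝ → ℝ), (∀ x, HasDerivAt H (H1 x) x) → ∀ θ,
      HasDerivAt (fun θ => H (θ - s)) (H1 (θ - s)) θ := by
    intro H H1 hH θ
    exact (hH (θ - s)).comp_sub_const θ s
  have hsub2 : ∀ (H H1 : ℝ → ℝ), (∀ x, HasDerivAt H (H1 x) x) → ∀ θ,
      HasDerivAt (fun θ => H (t - θ)) (-(H1 (t - θ))) θ := by
    intro H H1 hH θ
    exact (hH (t - θ)).comp_const_sub t θ
  have hdβ : ∀ θ, HasDerivAt β (β1 θ) θ := by
    intro θ
    have h1 := (((hsub1 X X1 hX1 θ).add (hsub2 X X1 hX1 θ)).sub_const 1)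
    have h2 := (hψd θ).mul h1
    refine h2.congr_deriv ?_
    simp only [hβ1, Pi.add_apply]
    ring
  have hdβ1 : ∀ θ, HasDerivAt β1 (β2 θ) θ := by
    intro θ
    have h1 := (((hsub1 X X1 hX1 θ).add (hsub2 X X1 hX1 θ)).sub_const 1)
    have h2 := (hψdd θ).mul h1
    have h3 := (hsub1 X1 X2 hX2 θ).sub (hsub2 X1 X2 hX2 θ)
    have h4 := (hψd θ).mul h3
    refine (h2.add h4).congr_deriv ?_
    simp only [hβ2, Pi.add_apply, Pi.sub_apply]
    ring
  have hβ2c : Continuous β2 := by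
    have := hψ.1.continuous
    simp only [hβ2]
    fun_prop
  have hβc : Continuous β := by
    have := hψ.1.continuous
    simp only [hβ]
    fun_prop
  have hβcd : ContDiff ℝ 2 β := contDiff2_of hdβ hdβ1 hβ2c
  -- properties of the cutoff
  have hχn : ∀ θ, 0 ≤ X (θ - s) + X (t - θ) - 1 := by
    intro θ
    rcases le_or_gt η (θ - s) with h | h
    · rw [hX1' _ h]
      have := hXn (t - θ)
      linarith
    · rw [hX1' (t - θ) (by linarith)]
      have := hXn (θ - s)
      linarith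
  have hχl : ∀ θ, X (θ - s) + X (t - θ) - 1 ≤ 1 := by
    intro θ
    have h1 := hXl (θ - s)
    have h2 := hXl (t - θ)
    linarith
  have hχ0 : ∀ θ, (θ ≤ s - 2 * ε ∨ t + 2 * ε ≤ θ) → X (θ - s) + X (t - θ) - 1 = 0 := by
    intro θ hθ
    rcases hθ with hθ | hθ
    · rw [hX0 (θ - s) (by linarith), hX1' (t - θ) (by linarith)]
      ring
    · rw [hX1' (θ - s) (by linarith), hX0 (t - θ) (by linarith)]
      ring
  obtain ⟨e, hecd, heper, heβ⟩ := ext_periodic hβcd (c := c) (δ := γ / 4) (by positivity) (by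
    intro θ hθ
    simp only [hβ]
    rw [mem_Icc, not_and_or, not_le, not_le] at hθ
    rw [hχ0 θ]
    · ring
    · rcases hθ with hθ | hθ
      · left
        rw [hcdef] at hθ
        linarith
      · right
        rw [hc2] at hθ
        linarith) (σ := 1) (Or.inl rfl)
  have heT : Tst e := ⟨hecd, fun θ => by rw [heper θ, one_mul]⟩
  have h2pi : (0 : ℝ) < 2 * Real.pi := by positivity
  have he0 : ∀ θ, 0 ≤ e θ := by
    intro θ
    obtain ⟨y, hy, hye⟩ := heT.2.exists_mem_Ico h2pi θ c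
    rw [hye, heβ y ⟨hy.1, hy.2.le⟩]
    exact mul_nonneg (hψ0 y) (hχn y)
  have heψ : ∀ θ, e θ ≤ ψ θ := by
    intro θ
    have hper : Function.Periodic (fun θ => ψ θ - e θ) (2 * Real.pi) := by
      intro x
      show ψ (x + 2 * Real.pi) - e (x + 2 * Real.pi) = ψ x - e x
      rw [hψ.2 x, heT.2 x]
    obtain ⟨y, hy, hye⟩ := hper.exists_mem_Ico h2pi θ c
    have h1 : ψ θ - e θ = ψ y - e y := hye
    rw [heβ y ⟨hy.1, hy.2.le⟩] at h1
    have h2 : β y ≤ ψ y := by
      simp only [hβ]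
      have := mul_le_mul_of_nonneg_left (hχl y) (hψ0 y)
      linarith
    linarith
  have hMe : M e ≤ M ψ := hM.mono2 heT hψ heψ
  have hVe := hV e heT he0
  have hper : Function.Periodic (fun θ => V θ * LL ρ e θ) (2 * Real.pi) := by
    intro x
    show V (x + 2 * Real.pi) * LL ρ e (x + 2 * Real.pi) = V x * LL ρ e x
    rw [hp x, LL_periodic heT x]
  rw [int_period hper c] at hVe
  have hcongr : ∫ θ in c..(c + 2 * Real.pi), V θ * LL ρ e θ =
      ∫ θ in c..(c + 2 * Real.pi), V θ * (β2 θ + ρ ^ 2 * β θ) := by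
    apply intervalIntegral.integral_congr_ae
    have hae : ∀ᵐ θ : ℝ, θ ≠ c + 2 * Real.pi := by
      rw [ae_iff]
      simp
    filter_upwards [hae] with θ hθ1 hθ2
    rw [uIoc_of_le (by linarith)] at hθ2
    have hlt : θ < c + 2 * Real.pi := lt_of_le_of_ne hθ2.2 hθ1
    have hev : e =ᶠ[𝓝 θ] β := by
      filter_upwards [Ioo_mem_nhds hθ2.1 hlt] with x hx
      exact heβ x ⟨hx.1.le, hx.2.le⟩
    have hev1 : deriv e =ᶠ[𝓝 θ] β1 := by
      have := hev.deriv
      have hd : deriv β = β1 := funext fun x => (hdβ x).deriv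
      rwa [hd] at this
    have hev2 : deriv (deriv e) θ = β2 θ := by
      rw [hev1.deriv_eq, (hdβ1 θ).deriv]
    simp only [LL]
    rw [hev2, hev.eq_of_nhds]
  rw [hcongr] at hVe
  -- the error function
  set E : ℝ → ℝ := fun θ => δ * A + 2 * A * δ * (X1 (θ - s) + X1 (t - θ)) +
    A * δ * (F1 (θ - s) + F1 (t - θ)) with hE
  set EE : ℝ → ℝ := fun θ => δ * A * θ + 2 * A * δ * (X (θ - s) - X (t - θ)) +
    A * δ * (F (θ - s) - F (t - θ)) with hEE
  have hEc : Continuous E := by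
    simp only [hE]
    fun_prop
  have hEd : ∀ θ, HasDerivAt EE (E θ) θ := by
    intro θ
    have h1 : HasDerivAt (fun θ : ℝ => δ * A * θ) (δ * A) θ := by
      simpa using (hasDerivAt_id θ).const_mul (δ * A)
    have h2 := ((hsub1 X X1 hX1 θ).sub (hsub2 X X1 hX1 θ)).const_mul (2 * A * δ)
    have h3 := ((hsub1 F F1 hFd θ).sub (hsub2 F F1 hFd θ)).const_mul (A * δ)
    refine ((h1.add h2).add h3).congr_deriv ?_
    simp only [hE]
    ring
  have hEint : ∫ θ in c..(c + 2 * Real.pi), E θ ≤ δ * A * (2 * Real.pi + 6) := by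
    rw [intervalIntegral.integral_eq_sub_of_hasDerivAt (fun θ _ => hEd θ) (hEc.intervalIntegrable _ _)]
    simp only [hEE]
    have a1 := hXn (c + 2 * Real.pi - s)
    have a2 := hXl (c + 2 * Real.pi - s)
    have a3 := hXn (t - (c + 2 * Real.pi))
    have a4 := hXl (t - c)
    have a5 := hXn (c - s)
    have b1 := hFn (c + 2 * Real.pi - s)
    have b2 := hFl (c + 2 * Real.pi - s)
    have b3 := hFn (t - (c + 2 * Real.pi))
    have b4 := hFl (t - c)
    have b5 := hFn (c - s)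
    have hAδ : 0 ≤ A * δ := by positivity
    have q1 : (X (c + 2 * Real.pi - s) - X (t - (c + 2 * Real.pi))) - (X (c - s) - X (t - c)) ≤ 2 := by
      linarith
    have q2 : (F (c + 2 * Real.pi - s) - F (t - (c + 2 * Real.pi))) - (F (c - s) - F (t - c)) ≤ 2 := by
      linarith
    have q3 := mul_le_mul_of_nonneg_left q1 (show 0 ≤ 2 * A * δ by positivity)
    have q4 := mul_le_mul_of_nonneg_left q2 hAδ
    nlinarith
  -- pointwise estimates
  have hVX1 : ∀ θ, V θ * X1 (θ - s) ≤ δ * X1 (θ - s) := by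
    intro θ
    rcases le_or_gt (θ - s) (-ε - η) with h | h
    · rw [hX10 _ h]
      simp
    · rcases le_or_gt η (θ - s) with h' | h'
      · rw [hX11 _ h']
        simp
      · apply mul_le_mul_of_nonneg_right _ (hX1n _)
        apply hε₁s
        rw [abs_le]
        constructor <;> linarith
  have hVX1' : ∀ θ, V θ * X1 (t - θ) ≤ δ * X1 (t - θ) := by
    intro θ
    rcases le_or_gt (t - θ) (-ε - η) with h | h
    · rw [hX10 _ h]
      simp
    · rcases le_or_gt η (t - θ) with h' | h'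
      · rw [hX11 _ h']
        simp
      · apply mul_le_mul_of_nonneg_right _ (hX1n _)
        apply hε₁t
        rw [abs_le]
        constructor <;> linarith
  have hVF : ∀ θ, V θ * F1 (θ - s) ≤ δ * ε * F1 (θ - s) := by
    intro θ
    by_cases h : θ - s ∈ Icc (-η) η
    · apply mul_le_mul_of_nonneg_right _ (hF1n _)
      apply hη₁s
      rw [abs_le]
      constructor <;> linarith [h.1, h.2]
    · rw [hF10 _ h]
      simp
  have hVF' : ∀ θ, V θ * F1 (t - θ) ≤ δ * ε * F1 (t - θ) := by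
    intro θ
    by_cases h : t - θ ∈ Icc (-η) η
    · apply mul_le_mul_of_nonneg_right _ (hF1n _)
      apply hη₁t
      rw [abs_le]
      constructor <;> linarith [h.1, h.2]
    · rw [hF10 _ h]
      simp
  have hpt : ∀ θ ∈ Icc c (c + 2 * Real.pi), V θ * (X (θ - s) + X (t - θ) - 1) * LL ρ ψ θ
      - 2 * A * δ * (X1 (θ - s) + X1 (t - θ)) - A * δ * (F1 (θ - s) + F1 (t - θ)) ≤
      V θ * (β2 θ + ρ ^ 2 * β θ) := by
    intro θ hθ
    have e1 : V θ * (β2 θ + ρ ^ 2 * β θ) = V θ * (X (θ - s) + X (t - θ) - 1) * LL ρ ψ θ +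
        2 * deriv ψ θ * (V θ * X1 (θ - s)) - 2 * deriv ψ θ * (V θ * X1 (t - θ)) +
        ψ θ * V θ * (X2 (θ - s) + X2 (t - θ)) := by
      simp only [hβ, hβ2, LL]
      ring
    rw [e1]
    have hVθ := h0 θ
    have f1 : -(A * (δ * X1 (θ - s))) ≤ deriv ψ θ * (V θ * X1 (θ - s)) :=
      ar1 (abs_le.mp (hA2 θ hθ)).1 (mul_nonneg hVθ (hX1n _)) (hVX1 θ) hA0
    have f2 : deriv ψ θ * (V θ * X1 (t - θ)) ≤ A * (δ * X1 (t - θ)) :=
      ar2 (abs_le.mp (hA2 θ hθ)).2 (mul_nonneg hVθ (hX1n _)) (hVX1' θ) hA0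
    have f3 : -(A * (δ * F1 (θ - s))) ≤ ψ θ * V θ * X2 (θ - s) :=
      ar3 hε (hX2lb (θ - s)) (hψ0 θ) hVθ (hF1n _) (hVF θ) (hA1 θ hθ) hA0
    have f4 : -(A * (δ * F1 (t - θ))) ≤ ψ θ * V θ * X2 (t - θ) :=
      ar3 hε (hX2lb (t - θ)) (hψ0 θ) hVθ (hF1n _) (hVF' θ) (hA1 θ hθ) hA0
    linarith only [f1, f2, f3, f4]
  have hout : ∀ θ ∈ Icc c (c + 2 * Real.pi), (θ ≤ s ∨ t ≤ θ) →
      -(δ * A) ≤ V θ * (X (θ - s) + X (t - θ) - 1) * LL ρ ψ θ := by
    intro θ hθ hθ2
    have hq : V θ * (X (θ - s) + X (t - θ) - 1) ≤ δ := by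
      by_cases h : θ ≤ s - 2 * ε ∨ t + 2 * ε ≤ θ
      · rw [hχ0 θ h, mul_zero]
        exact hδ.le
      · push Not at h
        have hVδ : V θ ≤ δ := by
          rcases hθ2 with h2 | h2
          · apply hε₁s
            rw [abs_le]
            constructor <;> linarith [h.1]
          · apply hε₁t
            rw [abs_le]
            constructor <;> linarith [h.2]
        calc V θ * (X (θ - s) + X (t - θ) - 1) ≤ V θ * 1 :=
              mul_le_mul_of_nonneg_left (hχl θ) (h0 θ)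
          _ ≤ δ := by linarith
    have hq0 : 0 ≤ V θ * (X (θ - s) + X (t - θ) - 1) := mul_nonneg (h0 θ) (hχn θ)
    have g3 := ar1 (abs_le.mp (hA3 θ hθ)).1 hq0 hq hA0
    linarith only [g3]
  have hin : ∀ θ ∈ Icc s t, V θ * LL ρ ψ θ - δ * A ≤
      V θ * (X (θ - s) + X (t - θ) - 1) * LL ρ ψ θ := by
    intro θ hθ
    have hθ' : θ ∈ Icc c (c + 2 * Real.pi) := by
      rw [hc2, hcdef]
      constructor <;> linarith [hθ.1, hθ.2]
    have hq : V θ * (1 - (X (θ - s) + X (t - θ) - 1)) ≤ δ := by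
      by_cases h : θ ≤ s + 2 * ε
      · have hVδ : V θ ≤ δ := by
          apply hε₁s
          rw [abs_le]
          constructor <;> linarith [hθ.1]
        calc V θ * (1 - (X (θ - s) + X (t - θ) - 1)) ≤ V θ * 1 := by
              apply mul_le_mul_of_nonneg_left _ (h0 θ)
              have := hχn θ
              linarith
          _ ≤ δ := by linarith
      · by_cases h' : t - 2 * ε ≤ θ
        · have hVδ : V θ ≤ δ := by
            apply hε₁t
            rw [abs_le]
            constructor <;> linarith [hθ.2]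
          calc V θ * (1 - (X (θ - s) + X (t - θ) - 1)) ≤ V θ * 1 := by
                apply mul_le_mul_of_nonneg_left _ (h0 θ)
                have := hχn θ
                linarith
            _ ≤ δ := by linarith
        · push Not at h h'
          rw [hX1' (θ - s) (by linarith), hX1' (t - θ) (by linarith)]
          norm_num
          exact hδ.le
    have hq0 : 0 ≤ V θ * (1 - (X (θ - s) + X (t - θ) - 1)) := by
      apply mul_nonneg (h0 θ)
      have := hχl θ
      linarith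
    have g3 := ar2 (abs_le.mp (hA3 θ hθ')).2 hq0 hq hA0
    linarith only [g3]
  -- integrate
  have hcs : c ≤ s := by rw [hcdef]; linarith
  have htc : t ≤ c + 2 * Real.pi := by rw [hc2]; linarith
  set H : ℝ → ℝ := fun θ => V θ * (β2 θ + ρ ^ 2 * β θ) with hH
  have hHc : Continuous H := by
    simp only [hH]
    fun_prop
  have hVLc : Continuous (fun θ => V θ * LL ρ ψ θ) := by fun_prop
  have i1 : ∫ θ in c..s, -(E θ) ≤ ∫ θ in c..s, H θ := by
    apply intervalIntegral.integral_mono_on hcs (hEc.neg.intervalIntegrable _ _)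
      (hHc.intervalIntegrable _ _)
    intro θ hθ
    have hθ' : θ ∈ Icc c (c + 2 * Real.pi) := ⟨hθ.1, by linarith [hθ.2]⟩
    have k1 := hpt θ hθ'
    have k2 := hout θ hθ' (Or.inl hθ.2)
    show -(E θ) ≤ H θ
    simp only [hE, hH]
    linarith only [k1, k2]
  have i2 : ∫ θ in s..t, (V θ * LL ρ ψ θ - E θ) ≤ ∫ θ in s..t, H θ := by
    apply intervalIntegral.integral_mono_on hst.le
      ((hVLc.sub hEc).intervalIntegrable _ _) (hHc.intervalIntegrable _ _)
    intro θ hθ
    have hθ' : θ ∈ Icc c (c + 2 * Real.pi) := ⟨by linarith [hθ.1], by linarith [hθ.2]⟩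
    have k1 := hpt θ hθ'
    have k2 := hin θ hθ
    show V θ * LL ρ ψ θ - E θ ≤ H θ
    simp only [hE, hH]
    linarith only [k1, k2]
  have i3 : ∫ θ in t..(c + 2 * Real.pi), -(E θ) ≤ ∫ θ in t..(c + 2 * Real.pi), H θ := by
    apply intervalIntegral.integral_mono_on htc (hEc.neg.intervalIntegrable _ _)
      (hHc.intervalIntegrable _ _)
    intro θ hθ
    have hθ' : θ ∈ Icc c (c + 2 * Real.pi) := ⟨by linarith [hθ.1], hθ.2⟩
    have k1 := hpt θ hθ'
    have k2 := hout θ hθ' (Or.inr hθ.1)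
    show -(E θ) ≤ H θ
    simp only [hE, hH]
    linarith only [k1, k2]
  rw [intervalIntegral.integral_neg] at i1 i3
  rw [intervalIntegral.integral_sub (hVLc.intervalIntegrable _ _)
    (hEc.intervalIntegrable _ _)] at i2
  have j1 : (∫ θ in c..s, H θ) + (∫ θ in s..t, H θ) + ∫ θ in t..(c + 2 * Real.pi), H θ =
      ∫ θ in c..(c + 2 * Real.pi), H θ := by
    rw [intervalIntegral.integral_add_adjacent_intervals (hHc.intervalIntegrable _ _)
      (hHc.intervalIntegrable _ _), intervalIntegral.integral_add_adjacent_intervals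
      (hHc.intervalIntegrable _ _) (hHc.intervalIntegrable _ _)]
  have j2 : (∫ θ in c..s, E θ) + (∫ θ in s..t, E θ) + ∫ θ in t..(c + 2 * Real.pi), E θ =
      ∫ θ in c..(c + 2 * Real.pi), E θ := by
    rw [intervalIntegral.integral_add_adjacent_intervals (hEc.intervalIntegrable _ _)
      (hEc.intervalIntegrable _ _), intervalIntegral.integral_add_adjacent_intervals
      (hEc.intervalIntegrable _ _) (hEc.intervalIntegrable _ _)]
  linarith

end DW24
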