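import Pool.Agent.DW24.DefsS
import Pool.Agent.DW24.A1

set_option autoImplicit false

open MeasureTheory Filter Topology Set

namespace DW24

lemma LS_periodic {q ρ : ℝ} {ψ : ℝ → ℝ} (hψ : Tst ψ) : Function.Periodic (LS q ρ ψ) (2 * Real.pi) := by
  intro x
  simp only [LS]
  rw [periodic_deriv' (periodic_deriv' hψ.2) x, periodic_deriv' hψ.2 x, hψ.2 x]

lemma LS_cont {q ρ : ℝ} {ψ : ℝ → ℝ} (hψ : Tst ψ) : Continuous (LS q ρ ψ) := by
  have h1 : ContDiff ℝ 1 (deriv ψ) := by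
    have h := hψ.1
    rw [show (2 : WithTop ℕ∞) = 1 + 1 by norm_num, contDiff_succ_iff_deriv] at h
    exact h.2.2
  have h2 : Continuous (deriv (deriv ψ)) := h1.continuous_deriv le_rfl
  have h3 := hψ.1.continuous
  have h4 := h1.continuous
  show Continuous (fun θ => (1 + q ^ 2) * deriv (deriv ψ) θ + 2 * q * ρ * deriv ψ θ + ρ ^ 2 * ψ θ)
  fun_prop

/-- Restriction of the inequality `L V ≤ M` (spiral operator) to the arc between two zeros. -/
theorem restrQ {V : ℝ → ℝ} (hc : Continuous V) (hp : Function.Periodic V (2 * Real.pi))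
    (h0 : ∀ θ, 0 ≤ V θ) {ρ q : ℝ} {M : (ℝ → ℝ) → ℝ} (hM : PosFun M)
    (hV : ∀ ψ, Tst ψ → (∀ θ, 0 ≤ ψ θ) →
      ∫ θ in (0)..(2 * Real.pi), V θ * LS q ρ ψ θ ≤ M ψ)
    {s t : ℝ} (hst : s < t) (hlen : t ≤ s + 2 * Real.pi) (hs : V s = 0) (ht : V t = 0)
    (ψ : ℝ → ℝ) (hψ : Tst ψ) (hψ0 : ∀ θ, 0 ≤ ψ θ) :
    ∫ θ in s..t, V θ * LS q ρ ψ θ ≤ M ψ := by
  rcases eq_or_lt_of_le hlen with hlen | hlen
  · rw [hlen]
    have hper : Function.Periodic (fun θ => V θ * LS q ρ ψ θ) (2 * Real.pi) := by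
      intro x
      show V (x + 2 * Real.pi) * LS q ρ ψ (x + 2 * Real.pi) = V x * LS q ρ ψ x
      rw [hp x, LS_periodic hψ x]
    rw [← int_period hper s]
    exact hV ψ hψ hψ0
  -- the proper case
  set γ : ℝ := s + 2 * Real.pi - t with hγ
  have hγ0 : 0 < γ := by rw [hγ]; linarith
  set c : ℝ := s - γ / 2 with hcdef
  have hc2 : c + 2 * Real.pi = t + γ / 2 := by rw [hcdef, hγ]; ring
  -- bounds
  have hψ1c : Continuous (deriv ψ) := hψ.1.continuous_deriv (by norm_num)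
  have hLc : Continuous (LS q ρ ψ) := LS_cont hψ
  obtain ⟨A, hA0, hA1, hA2, hA3⟩ : ∃ A : ℝ, 0 ≤ A ∧ (∀ θ ∈ Icc c (c + 2 * Real.pi), (1 + q ^ 2) * ψ θ ≤ A) ∧
      (∀ θ ∈ Icc c (c + 2 * Real.pi), |(1 + q ^ 2) * deriv ψ θ + q * ρ * ψ θ| ≤ A) ∧
      (∀ θ ∈ Icc c (c + 2 * Real.pi), |LS q ρ ψ θ| ≤ A) := by
    have hψc := hψ.1.continuous
    have k1 : Continuous (fun θ => (1 + q ^ 2) * ψ θ) := by fun_prop
    have k2 : Continuous (fun θ => (1 + q ^ 2) * deriv ψ θ + q * ρ * ψ θ) := by fun_prop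
    obtain ⟨A1, h1⟩ := (isCompact_Icc (a := c) (b := c + 2 * Real.pi)).exists_bound_of_continuousOn
      k1.continuousOn
    obtain ⟨A2, h2⟩ := (isCompact_Icc (a := c) (b := c + 2 * Real.pi)).exists_bound_of_continuousOn
      k2.continuousOn
    obtain ⟨A3, h3⟩ := (isCompact_Icc (a := c) (b := c + 2 * Real.pi)).exists_bound_of_continuousOn
      hLc.continuousOn
    refine ⟨max (max A1 A2) (max A3 0), le_trans (le_max_right _ _) (le_max_right _ _), ?_, ?_, ?_⟩
    · intro θ hθ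
      refine le_trans (le_abs_self _) (le_trans (h1 θ hθ) (le_trans (le_max_left _ _) (le_max_left _ _)))
    · intro θ hθ
      exact le_trans (h2 θ hθ) (le_trans (le_max_right _ _) (le_max_left _ _))
    · intro θ hθ
      exact le_trans (h3 θ hθ) (le_trans (le_max_left _ _) (le_max_right _ _))
  suffices hmain : ∀ δ : ℝ, 0 < δ → ∫ θ in s..t, V θ * LS q ρ ψ θ ≤ M ψ + δ * A * (2 * Real.pi + 6) by
    apply le_of_forall_pos_le_add
    intro e he
    have hq : 0 < A * (2 * Real.pi + 6) + 1 := by positivity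
    have h1 := hmain (e / (A * (2 * Real.pi + 6) + 1)) (by positivity)
    have h2 : e / (A * (2 * Real.pi + 6) + 1) * A * (2 * Real.pi + 6) ≤ e := by
      rw [mul_assoc, div_mul_eq_mul_div, div_le_iff₀ hq]
      nlinarith
    linarith
  intro δ hδ
  obtain ⟨ε₁, hε₁, hε₁s, hε₁t⟩ : ∃ ε₁ : ℝ, 0 < ε₁ ∧ (∀ θ, |θ - s| ≤ ε₁ → V θ ≤ δ) ∧
      (∀ θ, |θ - t| ≤ ε₁ → V θ ≤ δ) := by
    have h1 : ∀ᶠ θ in 𝓝 s, V θ < δ := hc.continuousAt.eventually_lt_const (by rw [hs]; exact hδ)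
    have h2 : ∀ᶠ θ in 𝓝 t, V θ < δ := hc.continuousAt.eventually_lt_const (by rw [ht]; exact hδ)
    obtain ⟨a1, ha1, h1⟩ := Metric.eventually_nhds_iff.mp h1
    obtain ⟨a2, ha2, h2⟩ := Metric.eventually_nhds_iff.mp h2
    refine ⟨min a1 a2 / 2, by positivity, ?_, ?_⟩
    · intro θ hθ
      apply (h1 _).le
      rw [Real.dist_eq]
      have := min_le_left a1 a2
      have := lt_min ha1 ha2
      linarith
    · intro θ hθ
      apply (h2 _).le
      rw [Real.dist_eq]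
      have := min_le_right a1 a2
      have := lt_min ha1 ha2
      linarith
  set ε : ℝ := min (ε₁ / 2) (min (γ / 16) ((t - s) / 8)) with hεdef
  have hε : 0 < ε := by
    apply lt_min (by positivity)
    apply lt_min (by positivity)
    linarith
  have hεa : 2 * ε ≤ ε₁ := by
    have := min_le_left (ε₁ / 2) (min (γ / 16) ((t - s) / 8))
    linarith
  have hεb : ε ≤ γ / 16 := le_trans (min_le_right _ _) (min_le_left _ _)
  have hεc : ε ≤ (t - s) / 8 := le_trans (min_le_right _ _) (min_le_right _ _)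
  have hδε : 0 < δ * ε := by positivity
  obtain ⟨η₁, hη₁, hη₁s, hη₁t⟩ : ∃ η₁ : ℝ, 0 < η₁ ∧ (∀ θ, |θ - s| ≤ η₁ → V θ ≤ δ * ε) ∧
      (∀ θ, |θ - t| ≤ η₁ → V θ ≤ δ * ε) := by
    have h1 : ∀ᶠ θ in 𝓝 s, V θ < δ * ε := hc.continuousAt.eventually_lt_const (by rw [hs]; exact hδε)
    have h2 : ∀ᶠ θ in 𝓝 t, V θ < δ * ε := hc.continuousAt.eventually_lt_const (by rw [ht]; exact hδε)
    obtain ⟨a1, ha1, h1⟩ := Metric.eventually_nhds_iff.mp h1
    obtain ⟨a2, ha2, h2⟩ := Metric.eventually_nhds_iff.mp h2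
    refine ⟨min a1 a2 / 2, by positivity, ?_, ?_⟩
    · intro θ hθ
      apply (h1 _).le
      rw [Real.dist_eq]
      have := min_le_left a1 a2
      have := lt_min ha1 ha2
      linarith
    · intro θ hθ
      apply (h2 _).le
      rw [Real.dist_eq]
      have := min_le_right a1 a2
      have := lt_min ha1 ha2
      linarith
  set η : ℝ := min η₁ ε with hηdef
  have hη : 0 < η := lt_min hη₁ hε
  have hηa : η ≤ η₁ := min_le_left _ _
  have hηb : η ≤ ε := min_le_right _ _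
  obtain ⟨X, X1, X2, F, F1, hX1, hX2, hX2c, hXn, hXl, hX0, hX1', hX1n, hX10, hX11, hX2lb, hF1n, hF10,
    hFd, hF1c, hFn, hFl⟩ := exists_X hε hη
  have hXc : Continuous X := continuous_iff_continuousAt.mpr fun x => (hX1 x).continuousAt
  have hX1c : Continuous X1 := continuous_iff_continuousAt.mpr fun x => (hX2 x).continuousAt
  have hFc : Continuous F := continuous_iff_continuousAt.mpr fun x => (hFd x).continuousAt
  -- the test function
  have hψd : ∀ θ, HasDerivAt ψ (deriv ψ θ) θ := fun θ =>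
    (hψ.1.differentiable (by norm_num) θ).hasDerivAt
  have hψ1cd : ContDiff ℝ 1 (deriv ψ) := by
    have h := hψ.1
    rw [show (2 : WithTop ℕ∞) = 1 + 1 by norm_num, contDiff_succ_iff_deriv] at h
    exact h.2.2
  have hψdd : ∀ θ, HasDerivAt (deriv ψ) (deriv (deriv ψ) θ) θ := fun θ =>
    (hψ1cd.differentiable (by norm_num) θ).hasDerivAt
  have hψ2c : Continuous (deriv (deriv ψ)) := hψ1cd.continuous_deriv le_rfl
  set β : ℝ → ℝ := fun θ => ψ θ * (X (θ - s) + X (t - θ) - 1) with hβ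
  set β1 : ℝ → ℝ := fun θ => deriv ψ θ * (X (θ - s) + X (t - θ) - 1) + ψ θ * (X1 (θ - s) - X1 (t - θ))
    with hβ1
  set β2 : ℝ → ℝ := fun θ => deriv (deriv ψ) θ * (X (θ - s) + X (t - θ) - 1) +
    2 * deriv ψ θ * (X1 (θ - s) - X1 (t - θ)) + ψ θ * (X2 (θ - s) + X2 (t - θ)) with hβ2
  have hsub1 : ∀ (H H1 : ℝ → ℝ), (∀ x, HasDerivAt H (H1 x) x) → ∀ θ,
      HasDerivAt (fun θ => H (θ - s)) (H1 (θ - s)) θ := by
    intro H H1 hH θ
    exact (hH (θ - s)).comp_sub_const θ s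
  have hsub2 : ∀ (H H1 : ℝ → ℝ), (∀ x, HasDerivAt H (H1 x) x) → ∀ θ,
      HasDerivAt (fun θ => H (t - θ)) (-(H1 (t - θ))) θ := by
    intro H H1 hH θ
    exact (hH (t - θ)).comp_const_sub t θ
  have hdβ : ∀ θ, HasDerivAt β (β1 θ) θ := by
    intro θ
    have h1 := (((hsub1 X X1 hX1 θ).add (hsub2 X X1 hX1 θ)).sub_const 1)
    have h2 := (hψd θ).mul h1
    refine h2.congr_deriv ?_
    simp only [hβ1, Pi.add_apply]
    ring
  have hdβ1 : ∀ θ, HasDerivAt β1 (β2 θ) θ := by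
    intro θ
    have h1 := (((hsub1 X X1 hX1 θ).add (hsub2 X X1 hX1 θ)).sub_const 1)
    have h2 := (hψdd θ).mul h1
    have h3 := (hsub1 X1 X2 hX2 θ).sub (hsub2 X1 X2 hX2 θ)
    have h4 := (hψd θ).mul h3
    refine (h2.add h4).congr_deriv ?_
    simp only [hβ2, Pi.add_apply, Pi.sub_apply]
    ring
  have hβ2c : Continuous β2 := by
    have := hψ.1.continuous
    simp only [hβ2]
    fun_prop
  have hβ1c : Continuous β1 := by
    have := hψ.1.continuous
    simp only [hβ1]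
    fun_prop
  have hβc : Continuous β := by
    have := hψ.1.continuous
    simp only [hβ]
    fun_prop
  have hβcd : ContDiff ℝ 2 β := contDiff2_of hdβ hdβ1 hβ2c
  -- properties of the cutoff
  have hχn : ∀ θ, 0 ≤ X (θ - s) + X (t - θ) - 1 := by
    intro θ
    rcases le_or_gt η (θ - s) with h | h
    · rw [hX1' _ h]
      have := hXn (t - θ)
      linarith
    · rw [hX1' (t - θ) (by linarith)]
      have := hXn (θ - s)
      linarith
  have hχl : ∀ θ, X (θ - s) + X (t - θ) - 1 ≤ 1 := by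
    intro θ
    have h1 := hXl (θ - s)
    have h2 := hXl (t - θ)
    linarith
  have hχ0 : ∀ θ, (θ ≤ s - 2 * ε ∨ t + 2 * ε ≤ θ) → X (θ - s) + X (t - θ) - 1 = 0 := by
    intro θ hθ
    rcases hθ with hθ | hθ
    · rw [hX0 (θ - s) (by linarith), hX1' (t - θ) (by linarith)]
      ring
    · rw [hX1' (θ - s) (by linarith), hX0 (t - θ) (by linarith)]
      ring
  obtain ⟨e, hecd, heper, heβ⟩ := ext_periodic hβcd (c := c) (δ := γ / 4) (by positivity) (by
    intro θ hθ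
    simp only [hβ]
    rw [mem_Icc, not_and_or, not_le, not_le] at hθ
    rw [hχ0 θ]
    · ring
    · rcases hθ with hθ | hθ
      · left
        rw [hcdef] at hθ
        linarith
      · right
        rw [hc2] at hθ
        linarith) (σ := 1) (Or.inl rfl)
  have heT : Tst e := ⟨hecd, fun θ => by rw [heper θ, one_mul]⟩
  have h2pi : (0 : ℝ) < 2 * Real.pi := by positivity
  have he0 : ∀ θ, 0 ≤ e θ := by
    intro θ
    obtain ⟨y, hy, hye⟩ := heT.2.exists_mem_Ico h2pi θ c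
    rw [hye, heβ y ⟨hy.1, hy.2.le⟩]
    exact mul_nonneg (hψ0 y) (hχn y)
  have heψ : ∀ θ, e θ ≤ ψ θ := by
    intro θ
    have hper : Function.Periodic (fun θ => ψ θ - e θ) (2 * Real.pi) := by
      intro x
      show ψ (x + 2 * Real.pi) - e (x + 2 * Real.pi) = ψ x - e x
      rw [hψ.2 x, heT.2 x]
    obtain ⟨y, hy, hye⟩ := hper.exists_mem_Ico h2pi θ c
    have h1 : ψ θ - e θ = ψ y - e y := hye
    rw [heβ y ⟨hy.1, hy.2.le⟩] at h1
    have h2 : β y ≤ ψ y := by
      simp only [hβ]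
      have := mul_le_mul_of_nonneg_left (hχl y) (hψ0 y)
      linarith
    linarith
  have hMe : M e ≤ M ψ := hM.mono2 heT hψ heψ
  have hVe := hV e heT he0
  have hper : Function.Periodic (fun θ => V θ * LS q ρ e θ) (2 * Real.pi) := by
    intro x
    show V (x + 2 * Real.pi) * LS q ρ e (x + 2 * Real.pi) = V x * LS q ρ e x
    rw [hp x, LS_periodic heT x]
  rw [int_period hper c] at hVe
  have hcongr : ∫ θ in c..(c + 2 * Real.pi), V θ * LS q ρ e θ =
      ∫ θ in c..(c + 2 * Real.pi), V θ * ((1 + q ^ 2) * β2 θ + 2 * q * ρ * β1 θ + ρ ^ 2 * β θ) := by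
    apply intervalIntegral.integral_congr_ae
    have hae : ∀ᵐ θ : ℝ, θ ≠ c + 2 * Real.pi := by
      rw [ae_iff]
      simp
    filter_upwards [hae] with θ hθ1 hθ2
    rw [uIoc_of_le (by linarith)] at hθ2
    have hlt : θ < c + 2 * Real.pi := lt_of_le_of_ne hθ2.2 hθ1
    have hev : e =ᶠ[𝓝 θ] β := by
      filter_upwards [Ioo_mem_nhds hθ2.1 hlt] with x hx
      exact heβ x ⟨hx.1.le, hx.2.le⟩
    have hev1 : deriv e =ᶠ[𝓝 θ] β1 := by
      have := hev.deriv
      have hd : deriv β = β1 := funext fun x => (hdβ x).deriv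
      rwa [hd] at this
    have hev2 : deriv (deriv e) θ = β2 θ := by
      rw [hev1.deriv_eq, (hdβ1 θ).deriv]
    simp only [LS]
    rw [hev2, hev.eq_of_nhds, hev1.eq_of_nhds]
  rw [hcongr] at hVe
  -- the error function
  set E : ℝ → ℝ := fun θ => δ * A + 2 * A * δ * (X1 (θ - s) + X1 (t - θ)) +
    A * δ * (F1 (θ - s) + F1 (t - θ)) with hE
  set EE : ℝ → ℝ := fun θ => δ * A * θ + 2 * A * δ * (X (θ - s) - X (t - θ)) +
    A * δ * (F (θ - s) - F (t - θ)) with hEE
  have hEc : Continuous E := by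
    simp only [hE]
    fun_prop
  have hEd : ∀ θ, HasDerivAt EE (E θ) θ := by
    intro θ
    have h1 : HasDerivAt (fun θ : ℝ => δ * A * θ) (δ * A) θ := by
      simpa using (hasDerivAt_id θ).const_mul (δ * A)
    have h2 := ((hsub1 X X1 hX1 θ).sub (hsub2 X X1 hX1 θ)).const_mul (2 * A * δ)
    have h3 := ((hsub1 F F1 hFd θ).sub (hsub2 F F1 hFd θ)).const_mul (A * δ)
    refine ((h1.add h2).add h3).congr_deriv ?_
    simp only [hE]
    ring
  have hEint : ∫ θ in c..(c + 2 * Real.pi), E θ ≤ δ * A * (2 * Real.pi + 6) := by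
    rw [intervalIntegral.integral_eq_sub_of_hasDerivAt (fun θ _ => hEd θ) (hEc.intervalIntegrable _ _)]
    simp only [hEE]
    have a1 := hXn (c + 2 * Real.pi - s)
    have a2 := hXl (c + 2 * Real.pi - s)
    have a3 := hXn (t - (c + 2 * Real.pi))
    have a4 := hXl (t - c)
    have a5 := hXn (c - s)
    have b1 := hFn (c + 2 * Real.pi - s)
    have b2 := hFl (c + 2 * Real.pi - s)
    have b3 := hFn (t - (c + 2 * Real.pi))
    have b4 := hFl (t - c)
    have b5 := hFn (c - s)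
    have hAδ : 0 ≤ A * δ := by positivity
    have q1 : (X (c + 2 * Real.pi - s) - X (t - (c + 2 * Real.pi))) - (X (c - s) - X (t - c)) ≤ 2 := by
      linarith
    have q2 : (F (c + 2 * Real.pi - s) - F (t - (c + 2 * Real.pi))) - (F (c - s) - F (t - c)) ≤ 2 := by
      linarith
    have q3 := mul_le_mul_of_nonneg_left q1 (show 0 ≤ 2 * A * δ by positivity)
    have q4 := mul_le_mul_of_nonneg_left q2 hAδ
    nlinarith
  -- pointwise estimates
  have hVX1 : ∀ θ, V θ * X1 (θ - s) ≤ δ * X1 (θ - s) := by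
    intro θ
    rcases le_or_gt (θ - s) (-ε - η) with h | h
    · rw [hX10 _ h]
      simp
    · rcases le_or_gt η (θ - s) with h' | h'
      · rw [hX11 _ h']
        simp
      · apply mul_le_mul_of_nonneg_right _ (hX1n _)
        apply hε₁s
        rw [abs_le]
        constructor <;> linarith
  have hVX1' : ∀ θ, V θ * X1 (t - θ) ≤ δ * X1 (t - θ) := by
    intro θ
    rcases le_or_gt (t - θ) (-ε - η) with h | h
    · rw [hX10 _ h]
      simp
    · rcases le_or_gt η (t - θ) with h' | h'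
      · rw [hX11 _ h']
        simp
      · apply mul_le_mul_of_nonneg_right _ (hX1n _)
        apply hε₁t
        rw [abs_le]
        constructor <;> linarith
  have hVF : ∀ θ, V θ * F1 (θ - s) ≤ δ * ε * F1 (θ - s) := by
    intro θ
    by_cases h : θ - s ∈ Icc (-η) η
    · apply mul_le_mul_of_nonneg_right _ (hF1n _)
      apply hη₁s
      rw [abs_le]
      constructor <;> linarith [h.1, h.2]
    · rw [hF10 _ h]
      simp
  have hVF' : ∀ θ, V θ * F1 (t - θ) ≤ δ * ε * F1 (t - θ) := by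
    intro θ
    by_cases h : t - θ ∈ Icc (-η) η
    · apply mul_le_mul_of_nonneg_right _ (hF1n _)
      apply hη₁t
      rw [abs_le]
      constructor <;> linarith [h.1, h.2]
    · rw [hF10 _ h]
      simp
  have hpt : ∀ θ ∈ Icc c (c + 2 * Real.pi), V θ * (X (θ - s) + X (t - θ) - 1) * LS q ρ ψ θ
      - 2 * A * δ * (X1 (θ - s) + X1 (t - θ)) - A * δ * (F1 (θ - s) + F1 (t - θ)) ≤
      V θ * ((1 + q ^ 2) * β2 θ + 2 * q * ρ * β1 θ + ρ ^ 2 * β θ) := by
    intro θ hθ
    have e1 : V θ * ((1 + q ^ 2) * β2 θ + 2 * q * ρ * β1 θ + ρ ^ 2 * β θ) =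
        V θ * (X (θ - s) + X (t - θ) - 1) * LS q ρ ψ θ +
        2 * ((1 + q ^ 2) * deriv ψ θ + q * ρ * ψ θ) * (V θ * X1 (θ - s)) -
        2 * ((1 + q ^ 2) * deriv ψ θ + q * ρ * ψ θ) * (V θ * X1 (t - θ)) +
        ((1 + q ^ 2) * ψ θ) * V θ * (X2 (θ - s) + X2 (t - θ)) := by
      simp only [hβ, hβ1, hβ2, LS]
      ring
    rw [e1]
    have hVθ := h0 θ
    have f1 : -(A * (δ * X1 (θ - s))) ≤
        ((1 + q ^ 2) * deriv ψ θ + q * ρ * ψ θ) * (V θ * X1 (θ - s)) :=
      ar1 (abs_le.mp (hA2 θ hθ)).1 (mul_nonneg hVθ (hX1n _)) (hVX1 θ) hA0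
    have f2 : ((1 + q ^ 2) * deriv ψ θ + q * ρ * ψ θ) * (V θ * X1 (t - θ)) ≤
        A * (δ * X1 (t - θ)) :=
      ar2 (abs_le.mp (hA2 θ hθ)).2 (mul_nonneg hVθ (hX1n _)) (hVX1' θ) hA0
    have hq0 : 0 ≤ (1 + q ^ 2) * ψ θ := mul_nonneg (by positivity) (hψ0 θ)
    have f3 : -(A * (δ * F1 (θ - s))) ≤ ((1 + q ^ 2) * ψ θ) * V θ * X2 (θ - s) :=
      ar3 hε (hX2lb (θ - s)) hq0 hVθ (hF1n _) (hVF θ) (hA1 θ hθ) hA0
    have f4 : -(A * (δ * F1 (t - θ))) ≤ ((1 + q ^ 2) * ψ θ) * V θ * X2 (t - θ) :=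
      ar3 hε (hX2lb (t - θ)) hq0 hVθ (hF1n _) (hVF' θ) (hA1 θ hθ) hA0
    linarith only [f1, f2, f3, f4]
  have hout : ∀ θ ∈ Icc c (c + 2 * Real.pi), (θ ≤ s ∨ t ≤ θ) →
      -(δ * A) ≤ V θ * (X (θ - s) + X (t - θ) - 1) * LS q ρ ψ θ := by
    intro θ hθ hθ2
    have hq : V θ * (X (θ - s) + X (t - θ) - 1) ≤ δ := by
      by_cases h : θ ≤ s - 2 * ε ∨ t + 2 * ε ≤ θ
      · rw [hχ0 θ h, mul_zero]
        exact hδ.le
      · push Not at h
        have hVδ : V θ ≤ δ := by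
          rcases hθ2 with h2 | h2
          · apply hε₁s
            rw [abs_le]
            constructor <;> linarith [h.1]
          · apply hε₁t
            rw [abs_le]
            constructor <;> linarith [h.2]
        calc V θ * (X (θ - s) + X (t - θ) - 1) ≤ V θ * 1 :=
              mul_le_mul_of_nonneg_left (hχl θ) (h0 θ)
          _ ≤ δ := by linarith
    have hq0 : 0 ≤ V θ * (X (θ - s) + X (t - θ) - 1) := mul_nonneg (h0 θ) (hχn θ)
    have g3 := ar1 (abs_le.mp (hA3 θ hθ)).1 hq0 hq hA0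
    linarith only [g3]
  have hin : ∀ θ ∈ Icc s t, V θ * LS q ρ ψ θ - δ * A ≤
      V θ * (X (θ - s) + X (t - θ) - 1) * LS q ρ ψ θ := by
    intro θ hθ
    have hθ' : θ ∈ Icc c (c + 2 * Real.pi) := by
      rw [hc2, hcdef]
      constructor <;> linarith [hθ.1, hθ.2]
    have hq : V θ * (1 - (X (θ - s) + X (t - θ) - 1)) ≤ δ := by
      by_cases h : θ ≤ s + 2 * ε
      · have hVδ : V θ ≤ δ := by
          apply hε₁s
          rw [abs_le]
          constructor <;> linarith [hθ.1]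
        calc V θ * (1 - (X (θ - s) + X (t - θ) - 1)) ≤ V θ * 1 := by
              apply mul_le_mul_of_nonneg_left _ (h0 θ)
              have := hχn θ
              linarith
          _ ≤ δ := by linarith
      · by_cases h' : t - 2 * ε ≤ θ
        · have hVδ : V θ ≤ δ := by
            apply hε₁t
            rw [abs_le]
            constructor <;> linarith [hθ.2]
          calc V θ * (1 - (X (θ - s) + X (t - θ) - 1)) ≤ V θ * 1 := by
                apply mul_le_mul_of_nonneg_left _ (h0 θ)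
                have := hχn θ
                linarith
            _ ≤ δ := by linarith
        · push Not at h h'
          rw [hX1' (θ - s) (by linarith), hX1' (t - θ) (by linarith)]
          norm_num
          exact hδ.le
    have hq0 : 0 ≤ V θ * (1 - (X (θ - s) + X (t - θ) - 1)) := by
      apply mul_nonneg (h0 θ)
      have := hχl θ
      linarith
    have g3 := ar2 (abs_le.mp (hA3 θ hθ')).2 hq0 hq hA0
    linarith only [g3]
  -- integrate
  have hcs : c ≤ s := by rw [hcdef]; linarith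
  have htc : t ≤ c + 2 * Real.pi := by rw [hc2]; linarith
  set H : ℝ → ℝ := fun θ => V θ * ((1 + q ^ 2) * β2 θ + 2 * q * ρ * β1 θ + ρ ^ 2 * β θ) with hH
  have hHc : Continuous H := by
    simp only [hH]
    fun_prop
  have hVLc : Continuous (fun θ => V θ * LS q ρ ψ θ) := by fun_prop
  have i1 : ∫ θ in c..s, -(E θ) ≤ ∫ θ in c..s, H θ := by
    apply intervalIntegral.integral_mono_on hcs (hEc.neg.intervalIntegrable _ _)
      (hHc.intervalIntegrable _ _)
    intro θ hθ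
    have hθ' : θ ∈ Icc c (c + 2 * Real.pi) := ⟨hθ.1, by linarith [hθ.2]⟩
    have k1 := hpt θ hθ'
    have k2 := hout θ hθ' (Or.inl hθ.2)
    show -(E θ) ≤ H θ
    simp only [hE, hH]
    linarith only [k1, k2]
  have i2 : ∫ θ in s..t, (V θ * LS q ρ ψ θ - E θ) ≤ ∫ θ in s..t, H θ := by
    apply intervalIntegral.integral_mono_on hst.le
      ((hVLc.sub hEc).intervalIntegrable _ _) (hHc.intervalIntegrable _ _)
    intro θ hθ
    have hθ' : θ ∈ Icc c (c + 2 * Real.pi) := ⟨by linarith [hθ.1], by linarith [hθ.2]⟩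
    have k1 := hpt θ hθ'
    have k2 := hin θ hθ
    show V θ * LS q ρ ψ θ - E θ ≤ H θ
    simp only [hE, hH]
    linarith only [k1, k2]
  have i3 : ∫ θ in t..(c + 2 * Real.pi), -(E θ) ≤ ∫ θ in t..(c + 2 * Real.pi), H θ := by
    apply intervalIntegral.integral_mono_on htc (hEc.neg.intervalIntegrable _ _)
      (hHc.intervalIntegrable _ _)
    intro θ hθ
    have hθ' : θ ∈ Icc c (c + 2 * Real.pi) := ⟨by linarith [hθ.1], hθ.2⟩
    have k1 := hpt θ hθ'
    have k2 := hout θ hθ' (Or.inr hθ.1)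
    show -(E θ) ≤ H θ
    simp only [hE, hH]
    linarith only [k1, k2]
  rw [intervalIntegral.integral_neg] at i1 i3
  rw [intervalIntegral.integral_sub (hVLc.intervalIntegrable _ _)
    (hEc.intervalIntegrable _ _)] at i2
  have j1 : (∫ θ in c..s, H θ) + (∫ θ in s..t, H θ) + ∫ θ in t..(c + 2 * Real.pi), H θ =
      ∫ θ in c..(c + 2 * Real.pi), H θ := by
    rw [intervalIntegral.integral_add_adjacent_intervals (hHc.intervalIntegrable _ _)
      (hHc.intervalIntegrable _ _), intervalIntegral.integral_add_adjacent_intervals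
      (hHc.intervalIntegrable _ _) (hHc.intervalIntegrable _ _)]
  have j2 : (∫ θ in c..s, E θ) + (∫ θ in s..t, E θ) + ∫ θ in t..(c + 2 * Real.pi), E θ =
      ∫ θ in c..(c + 2 * Real.pi), E θ := by
    rw [intervalIntegral.integral_add_adjacent_intervals (hEc.intervalIntegrable _ _)
      (hEc.intervalIntegrable _ _), intervalIntegral.integral_add_adjacent_intervals
      (hEc.intervalIntegrable _ _) (hEc.intervalIntegrable _ _)]
  linarith

theorem restrS {V : ℝ → ℝ} (hc : Continuous V) (hp : Function.Periodic V (2 * Real.pi))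
    (h0 : ∀ θ, 0 ≤ V θ) {ρ s : ℝ} {M : (ℝ → ℝ) → ℝ} (hM : PosFun M)
    (hV : ∀ ψ, Tst ψ → (∀ θ, 0 ≤ ψ θ) →
      ∫ θ in (0)..(2 * Real.pi), V θ * LS s ρ ψ θ ≤ M ψ)
    {t₁ t₂ : ℝ} (hst : t₁ < t₂) (hlen : t₂ ≤ t₁ + 2 * Real.pi) (hs : V t₁ = 0) (ht : V t₂ = 0)
    (ψ : ℝ → ℝ) (hψ : Tst ψ) (hψ0 : ∀ θ, 0 ≤ ψ θ) :
    ∫ θ in t₁..t₂, V θ * LS s ρ ψ θ ≤ M ψ :=
  restrQ hc hp h0 hM hV hst hlen hs ht ψ hψ hψ0

end DW24
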