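import Pool.Agent.DW24.Defs

/-!
MP_24b0ce_an, module A2: the circle is divided, at common zeros, into finitely many arcs, on each
of which all functions but one are at most `ε`, with different labels on neighbouring arcs.
-/

set_option autoImplicit false

open MeasureTheory Filter Topology Set

namespace DW24

/-- An arc between two common zeros on which all functions but one are at most `ε`. -/
def GoodArc {ι : Type*} (V : ι → ℝ → ℝ) (ε : ℝ) (s t : ℝ) (a : ι) : Prop :=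
  s < t ∧ (∀ i, V i s = 0) ∧ (∀ i, V i t = 0) ∧ ∀ i, i ≠ a → ∀ θ ∈ Icc s t, V i θ ≤ ε

theorem GoodArc.merge {ι : Type*} {V : ι → ℝ → ℝ} {ε s t u : ℝ} {a : ι}
    (h1 : GoodArc V ε s t a) (h2 : GoodArc V ε t u a) : GoodArc V ε s u a :=
  ⟨h1.1.trans h2.1, h1.2.1, h2.2.2.1, fun i hi θ hθ => by
    rcases le_total θ t with h | h
    · exact h1.2.2.2 i hi θ ⟨hθ.1, h⟩
    · exact h2.2.2.2 i hi θ ⟨h, hθ.2⟩⟩

theorem GoodArc.shift {ι : Type*} {V : ι → ℝ → ℝ} {ε s t : ℝ} {a : ι}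
    (hp : ∀ i, Function.Periodic (V i) (2 * Real.pi))
    (h : GoodArc V ε s t a) : GoodArc V ε (s + 2 * Real.pi) (t + 2 * Real.pi) a :=
  ⟨by linarith [h.1], fun i => by rw [hp i]; exact h.2.1 i, fun i => by rw [hp i]; exact h.2.2.1 i,
    fun i hi θ hθ => by
      have h1 := h.2.2.2 i hi (θ - 2 * Real.pi) ⟨by linarith [hθ.1], by linarith [hθ.2]⟩
      rwa [(hp i).sub_eq] at h1⟩

/-- A chain of good arcs, as a sequence. -/
def Chn {ι : Type*} (V : ι → ℝ → ℝ) (ε : ℝ) (n : ℕ) (s s' : ℝ) : Prop :=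
  ∃ (t : ℕ → ℝ) (a : ℕ → ι), t 0 = s ∧ t n = s' ∧ ∀ k < n, GoodArc V ε (t k) (t (k + 1)) (a k)

theorem Chn.refl {ι : Type*} [Nonempty ι] (V : ι → ℝ → ℝ) (ε s : ℝ) : Chn V ε 0 s s :=
  ⟨fun _ => s, fun _ => Classical.arbitrary ι, rfl, rfl, fun k hk => absurd hk (Nat.not_lt_zero k)⟩

theorem Chn.snoc {ι : Type*} {V : ι → ℝ → ℝ} {ε : ℝ} {n : ℕ} {s s' s'' : ℝ} {a : ι}
    (h : Chn V ε n s s') (h' : GoodArc V ε s' s'' a) : Chn V ε (n + 1) s s'' := by
  obtain ⟨t, b, h0, hn, hk⟩ := h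
  refine ⟨fun k => if k ≤ n then t k else s'', fun k => if k < n then b k else a, ?_, ?_, ?_⟩
  · simp [h0]
  · simp
  · intro k hk'
    rcases Nat.lt_or_ge k n with h1 | h1
    · have h2 := hk k h1
      simp only [h1.le, if_true, h1, show k + 1 ≤ n from h1]
      exact h2
    · have h2 : k = n := by omega
      subst h2
      simp only [le_refl, if_true, lt_irrefl, if_false, show ¬ (k + 1 ≤ k) by omega, hn]
      exact h'

/-- In a gap between common zeros only one function is positive. -/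
theorem gap_single {ι : Type*} {V : ι → ℝ → ℝ} (hc : ∀ i, Continuous (V i))
    (h0 : ∀ i θ, 0 ≤ V i θ) (hd : ∀ i j, i ≠ j → ∀ θ, V i θ * V j θ = 0) {s t : ℝ} (hst : s < t)
    (hs : ∀ i, V i s = 0) (ht : ∀ i, V i t = 0)
    (hgap : ∀ θ ∈ Ioo s t, ∃ i, V i θ ≠ 0) {ε : ℝ} (hε : 0 < ε) :
    ∃ a, GoodArc V ε s t a := by
  have hmid : (s + t) / 2 ∈ Ioo s t := ⟨by linarith, by linarith⟩
  obtain ⟨a, ha⟩ := hgap _ hmid
  refine ⟨a, hst, hs, ht, ?_⟩
  have hpos : ∀ i θ, V i θ ≠ 0 → 0 < V i θ := fun i θ h => lt_of_le_of_ne (h0 i θ) (Ne.symm h)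
  have hsub : Ioo s t ⊆ {θ | 0 < V a θ} := by
    refine IsPreconnected.subset_left_of_subset_union (v := ⋃ j : {j // j ≠ a}, {θ | 0 < V j θ})
      ?_ ?_ ?_ ?_ ?_ isPreconnected_Ioo
    · exact isOpen_lt continuous_const (hc a)
    · exact isOpen_iUnion fun j => isOpen_lt continuous_const (hc j)
    · rw [Set.disjoint_left]
      intro θ h1 h2
      obtain ⟨j, hj⟩ := mem_iUnion.1 h2
      have h3 : (0 : ℝ) < V a θ * V j θ := mul_pos h1 hj
      rw [hd a j (Ne.symm j.2) θ] at h3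
      exact lt_irrefl _ h3
    · intro θ hθ
      obtain ⟨i, hi⟩ := hgap θ hθ
      by_cases h : i = a
      · left
        rw [h] at hi
        exact hpos a θ hi
      · right
        exact mem_iUnion.2 ⟨⟨i, h⟩, hpos i θ hi⟩
    · exact ⟨_, hmid, hpos a _ ha⟩
  intro i hi θ hθ
  have hzero : V i θ = 0 := by
    rcases eq_or_lt_of_le hθ.1 with h1 | h1
    · rw [← h1]; exact hs i
    · rcases eq_or_lt_of_le hθ.2 with h2 | h2
      · rw [h2]; exact ht i
      · have h3 : 0 < V a θ := hsub ⟨h1, h2⟩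
        have h4 := hd i a hi θ
        rcases mul_eq_zero.1 h4 with h5 | h5
        · exact h5
        · rw [h5] at h3; exact absurd h3 (lt_irrefl _)
  rw [hzero]
  exact hε.le

theorem exists_delta {ι : Type*} [Fintype ι] {V : ι → ℝ → ℝ} (hc : ∀ i, Continuous (V i))
    (hp : ∀ i, Function.Periodic (V i) (2 * Real.pi)) {ε : ℝ} (hε : 0 < ε) :
    ∃ δ : ℝ, 0 < δ ∧ ∀ i s θ, V i s = 0 → s ≤ θ → θ ≤ s + δ → V i θ ≤ ε := by
  classical
  have hpi : (0 : ℝ) < 2 * Real.pi := by positivity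
  have h1 : ∀ i, ∃ δ : ℝ, 0 < δ ∧ ∀ s θ, V i s = 0 → s ≤ θ → θ ≤ s + δ → V i θ ≤ ε := by
    intro i
    have hu : UniformContinuousOn (V i) (Icc 0 (2 * Real.pi + 1)) :=
      isCompact_Icc.uniformContinuousOn_of_continuous (hc i).continuousOn
    rw [Metric.uniformContinuousOn_iff] at hu
    obtain ⟨δ, hδ, h2⟩ := hu ε hε
    refine ⟨min (δ / 2) 1, by positivity, fun s θ hs h3 h4 => ?_⟩
    obtain ⟨y, hy, hxy⟩ := (hp i).exists_mem_Ico₀ hpi s
    -- translate by a multiple of the period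
    obtain ⟨n, hn, -⟩ := existsUnique_add_zsmul_mem_Ico hpi s 0
    rw [zsmul_eq_mul, zero_add] at hn
    have hper : ∀ x, V i (x + n * (2 * Real.pi)) = V i x := fun x => by
      have := (hp i).int_mul n x
      rw [← this]
    have h5 := h2 (s + n * (2 * Real.pi)) ⟨hn.1, by linarith [hn.2]⟩ (θ + n * (2 * Real.pi))
      ⟨by linarith [hn.1], by linarith [hn.2, min_le_right (δ / 2) 1]⟩ (by
        rw [Real.dist_eq, _root_.abs_lt]
        constructor <;> linarith [min_le_left (δ / 2) 1])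
    rw [hper, hper, hs, Real.dist_eq, zero_sub, abs_neg] at h5
    exact le_trans (le_abs_self _) h5.le
  choose δ hδ h2 using h1
  rcases isEmpty_or_nonempty ι with hι | hι
  · exact ⟨1, one_pos, fun i => (hι.false i).elim⟩
  · refine ⟨Finset.univ.inf' Finset.univ_nonempty δ, ?_, fun i s θ h3 h4 h5 => ?_⟩
    · rw [Finset.lt_inf'_iff]
      exact fun i _ => hδ i
    · exact h2 i s θ h3 h4 (le_trans h5 (add_le_add_right (Finset.inf'_le _ (Finset.mem_univ i)) s))

theorem partition {ι : Type*} [Fintype ι] [Nonempty ι] (V : ι → ℝ → ℝ)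
    (hc : ∀ i, Continuous (V i)) (hp : ∀ i, Function.Periodic (V i) (2 * Real.pi))
    (h0 : ∀ i θ, 0 ≤ V i θ) (hd : ∀ i j, i ≠ j → ∀ θ, V i θ * V j θ = 0)
    {z : ℝ} (hz : ∀ i, V i z = 0) {ε : ℝ} (hε : 0 < ε) :
    ∃ (n : ℕ) (t : ℕ → ℝ) (a : ℕ → ι), 1 ≤ n ∧ (∀ k < n, t k < t (k + 1)) ∧
      t n = t 0 + 2 * Real.pi ∧ (∀ k ≤ n, ∀ i, V i (t k) = 0) ∧
      (∀ k < n, ∀ i, i ≠ a k → ∀ θ ∈ Icc (t k) (t (k + 1)), V i θ ≤ ε) ∧
      (2 ≤ n → (∀ k, k + 1 < n → a k ≠ a (k + 1)) ∧ a (n - 1) ≠ a 0) := by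
  classical
  have hpi : (0 : ℝ) < 2 * Real.pi := by positivity
  obtain ⟨δ, hδ, hclose⟩ := exists_delta hc hp hε
  have hz' : ∀ i, V i (z + 2 * Real.pi) = 0 := fun i => by rw [hp i]; exact hz i
  have hS : IsClosed {θ | ∀ i, V i θ = 0} := by
    have : {θ | ∀ i, V i θ = 0} = ⋂ i, {θ | V i θ = 0} := by ext; simp
    rw [this]
    exact isClosed_iInter fun i => isClosed_eq (hc i) continuous_const
  -- one advance
  have hadv : ∀ s, (∀ i, V i s = 0) → s < z + 2 * Real.pi → ∀ n, Chn V ε n z s →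
      ∃ n' s', (∀ i, V i s' = 0) ∧ s' ≤ z + 2 * Real.pi ∧ Chn V ε n' z s' ∧
        (s' = z + 2 * Real.pi ∨ s + δ ≤ s') := by
    intro s hs hsz n hn
    set m : ℝ := min (s + δ) (z + 2 * Real.pi) with hm
    have hsm : s < m := lt_min (by linarith) hsz
    have hmz : m ≤ z + 2 * Real.pi := min_le_right _ _
    obtain ⟨t₁, ht₁, ht₁max⟩ := (isCompact_Icc.inter_right hS).exists_isGreatest
      (s := Icc s m ∩ {θ | ∀ i, V i θ = 0}) ⟨s, ⟨le_rfl, hsm.le⟩, hs⟩
    obtain ⟨t₂, ht₂, ht₂min⟩ := (isCompact_Icc.inter_right hS).exists_isLeast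
      (s := Icc m (z + 2 * Real.pi) ∩ {θ | ∀ i, V i θ = 0}) ⟨z + 2 * Real.pi, ⟨hmz, le_rfl⟩, hz'⟩
    have h1 : t₁ ≤ t₂ := le_trans ht₁.1.2 ht₂.1.1
    have hstep1 : ∃ n', Chn V ε n' z t₁ := by
      rcases eq_or_lt_of_le ht₁.1.1 with h2 | h2
      · exact ⟨n, h2 ▸ hn⟩
      · refine ⟨n + 1, hn.snoc (a := Classical.arbitrary ι) ⟨h2, hs, ht₁.2, fun i _ θ hθ => ?_⟩⟩
        exact hclose i s θ (hs i) hθ.1 (le_trans hθ.2 (le_trans ht₁.1.2 (min_le_left _ _)))
    have hstep2 : ∃ n', Chn V ε n' z t₂ := by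
      obtain ⟨n', hn'⟩ := hstep1
      rcases eq_or_lt_of_le h1 with h2 | h2
      · exact ⟨n', h2 ▸ hn'⟩
      · obtain ⟨a, ha⟩ := gap_single hc h0 hd h2 ht₁.2 ht₂.2 (fun θ hθ => by
          by_contra hcon
          push Not at hcon
          rcases le_total θ m with h3 | h3
          · have := ht₁max ⟨⟨le_trans ht₁.1.1 hθ.1.le, h3⟩, hcon⟩
            linarith [hθ.1]
          · have := ht₂min ⟨⟨h3, le_trans hθ.2.le ht₂.1.2⟩, hcon⟩
            linarith [hθ.2]) hε
        exact ⟨n' + 1, hn'.snoc ha⟩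
    obtain ⟨n', hn'⟩ := hstep2
    refine ⟨n', t₂, ht₂.2, ht₂.1.2, hn', ?_⟩
    rcases le_total (s + δ) (z + 2 * Real.pi) with h3 | h3
    · right
      have : m = s + δ := min_eq_left h3
      rw [← this]; exact ht₂.1.1
    · left
      have : m = z + 2 * Real.pi := min_eq_right h3
      exact le_antisymm ht₂.1.2 (this ▸ ht₂.1.1)
  -- iterate
  have hiter : ∀ m : ℕ, ∃ n' s', (∀ i, V i s' = 0) ∧ s' ≤ z + 2 * Real.pi ∧ Chn V ε n' z s' ∧
        (s' = z + 2 * Real.pi ∨ z + m * δ ≤ s') := by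
    intro m
    induction m with
    | zero => exact ⟨0, z, hz, by linarith, Chn.refl V ε z, Or.inr (by simp)⟩
    | succ m ih =>
      obtain ⟨n', s', h1, h2, h3, h4⟩ := ih
      rcases eq_or_lt_of_le h2 with h5 | h5
      · exact ⟨n', s', h1, h2, h3, Or.inl h5⟩
      · obtain ⟨n'', s'', g1, g2, g3, g4⟩ := hadv s' h1 h5 n' h3
        refine ⟨n'', s'', g1, g2, g3, ?_⟩
        rcases g4 with g4 | g4
        · exact Or.inl g4
        · right
          rcases h4 with h4 | h4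
          · exact absurd h4 h5.ne
          · push_cast
            linarith
  have hex : ∃ n, 1 ≤ n ∧ ∃ s, Chn V ε n s (s + 2 * Real.pi) := by
    obtain ⟨m, hm⟩ := exists_nat_gt (2 * Real.pi / δ)
    rw [div_lt_iff₀ hδ] at hm
    obtain ⟨n', s', h1, h2, h3, h4⟩ := hiter m
    have h5 : s' = z + 2 * Real.pi := by
      rcases h4 with h4 | h4
      · exact h4
      · linarith
    rw [h5] at h3
    refine ⟨n', ?_, z, h3⟩
    rcases Nat.eq_zero_or_pos n' with h6 | h6
    · exfalso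
      subst h6
      obtain ⟨t, a, g1, g2, -⟩ := h3
      rw [g1] at g2
      linarith
    · exact h6
  -- minimal number of arcs
  set n := Nat.find hex with hn
  obtain ⟨hn1, s, t, a, ht0, htn, harc⟩ := Nat.find_spec hex
  rw [← hn] at hn1 htn harc
  have hmin : ∀ m, m < n → 1 ≤ m → ∀ s, ¬ Chn V ε m s (s + 2 * Real.pi) := fun m hm h1 s hs =>
    Nat.find_min hex hm ⟨h1, s, hs⟩
  refine ⟨n, t, a, hn1, fun k hk => (harc k hk).1, by rw [htn, ht0], ?_, fun k hk =>
    (harc k hk).2.2.2, fun hn2 => ⟨fun k hk hak => ?_, fun hlast => ?_⟩⟩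
  · intro k hk
    rcases Nat.lt_or_ge k n with h1 | h1
    · exact (harc k h1).2.1
    · have h2 : k = (n - 1) + 1 := by omega
      rw [h2]
      exact (harc (n - 1) (by omega)).2.2.1
  · -- merge two consecutive arcs
    refine hmin (n - 1) (by omega) (by omega) s ⟨fun j => if j ≤ k then t j else t (j + 1),
      fun j => if j ≤ k then a j else a (j + 1), by simp [ht0], ?_, ?_⟩
    · simp only [show ¬ (n - 1 ≤ k) by omega, if_false, show n - 1 + 1 = n by omega, htn]
    · intro j hj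
      rcases Nat.lt_trichotomy j k with h1 | h1 | h1
      · simp only [h1.le, if_true, show j + 1 ≤ k from h1]
        exact harc j (by omega)
      · subst h1
        simp only [le_refl, if_true, show ¬ (j + 1 ≤ j) by omega, if_false]
        have h2 := harc j (by omega)
        have h3 := harc (j + 1) (by omega)
        rw [← hak] at h3
        exact h2.merge h3
      · simp only [show ¬ (j ≤ k) by omega, if_false, show ¬ (j + 1 ≤ k) by omega]
        exact harc (j + 1) (by omega)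
  · -- merge the last and the first arc
    have hfirst := (harc 0 (by omega)).shift hp
    have hlst := harc (n - 1) (by omega)
    rw [show n - 1 + 1 = n by omega, htn, hlast, ← ht0] at hlst
    have hmerge := hlst.merge hfirst
    rw [show (0 : ℕ) + 1 = 1 from rfl] at hmerge
    refine hmin (n - 1) (by omega) (by omega) (t 1) ⟨fun j => if j < n - 1 then t (j + 1) else
      t 1 + 2 * Real.pi, fun j => if j < n - 2 then a (j + 1) else a 0, ?_, ?_, ?_⟩
    · simp only [show 0 < n - 1 by omega, if_true, zero_add]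
    · simp only [lt_irrefl, if_false]
    · intro j hj
      rcases Nat.lt_or_ge j (n - 2) with h1 | h1
      · simp only [show j < n - 1 by omega, if_true, show j + 1 < n - 1 by omega, h1]
        exact harc (j + 1) (by omega)
      · simp only [hj, if_true, show ¬ (j + 1 < n - 1) by omega, if_false,
          show ¬ (j < n - 2) by omega]
        rw [show j + 1 = n - 1 by omega]
        exact hmerge

end DW24
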