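import Mathlib

/-!
MP_24b0ce_an: two measure lemmas (almost everywhere on a period implies almost everywhere;
Borel-Cantelli for exceptional sets of summable measure).
-/

set_option autoImplicit false

open MeasureTheory Filter Topology Set

namespace DW24

theorem iff_add_zsmul {P : ℝ → Prop} {T : ℝ} (hP : ∀ θ, P θ ↔ P (θ + T)) (θ : ℝ) (n : ℤ) :
    P θ ↔ P (θ + n * T) := by
  induction n with
  | zero => simp
  | succ n ih =>
    rw [ih, hP]
    push_cast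
    rw [show θ + (n : ℝ) * T + T = θ + ((n : ℝ) + 1) * T by ring]
  | pred n ih =>
    rw [ih, hP (θ + ((-(n : ℤ) - 1 : ℤ) : ℝ) * T)]
    push_cast
    rw [show θ + (-(n : ℝ) - 1) * T + T = θ + -(n : ℝ) * T by ring]

theorem ae_real_of_Ioc {P : ℝ → Prop} (hP : ∀ θ, P θ ↔ P (θ + 2 * Real.pi))
    (h : ∀ᵐ θ ∂(volume.restrict (Ioc 0 (2 * Real.pi))), P θ) : ∀ᵐ θ : ℝ, P θ := by
  have hpi : (0 : ℝ) < 2 * Real.pi := by positivity
  rw [ae_restrict_iff' measurableSet_Ioc, ae_iff] at h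
  rw [ae_iff]
  have hsub : {θ | ¬ P θ} ⊆ ⋃ n : ℤ, (fun θ : ℝ => θ + n * (2 * Real.pi)) ⁻¹'
      {θ | ¬ (θ ∈ Ioc 0 (2 * Real.pi) → P θ)} := by
    intro θ hθ
    obtain ⟨n, hn, -⟩ := existsUnique_add_zsmul_mem_Ioc hpi θ 0
    rw [zsmul_eq_mul, zero_add] at hn
    refine mem_iUnion.2 ⟨n, ?_⟩
    show ¬ (θ + n * (2 * Real.pi) ∈ Ioc 0 (2 * Real.pi) → P (θ + n * (2 * Real.pi)))
    intro hcon
    exact hθ ((iff_add_zsmul hP θ n).2 (hcon hn))
  refine measure_mono_null hsub (measure_iUnion_null fun n => ?_)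
  rw [measure_preimage_add_right]
  exact h

theorem ae_tendsto_of_small {g : ℕ → ℝ → ℝ} (hper : ∀ n, Function.Periodic (g n) (2 * Real.pi))
    (h0 : ∀ n θ, 0 ≤ g n θ)
    (ε : ℕ → ℝ) (hε : Tendsto ε atTop (𝓝 0))
    (h : ∀ n, volume {θ ∈ Ioc 0 (2 * Real.pi) | ε n < g n θ} ≤ ENNReal.ofReal ((1 / 2) ^ n)) :
    ∀ᵐ θ : ℝ, Tendsto (fun n => g n θ) atTop (𝓝 0) := by
  refine ae_real_of_Ioc (fun θ => ?_) ?_
  · have : (fun n => g n (θ + 2 * Real.pi)) = fun n => g n θ := funext fun n => hper n θ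
    rw [this]
  · have hsum : ∑' n, volume {θ ∈ Ioc 0 (2 * Real.pi) | ε n < g n θ} ≠ ⊤ := by
      refine ne_top_of_le_ne_top ?_ (ENNReal.tsum_le_tsum h)
      have h1 : Summable fun n : ℕ => ((1 : ℝ) / 2) ^ n := summable_geometric_two
      rw [← ENNReal.ofReal_tsum_of_nonneg (fun n => by positivity) h1]
      exact ENNReal.ofReal_ne_top
    have h2 := measure_setOfPred_frequently_eq_zero hsum
    rw [ae_restrict_iff' measurableSet_Ioc, ae_iff]
    refine measure_mono_null ?_ h2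
    intro θ hθ
    simp only [mem_ofPred_eq, Classical.not_imp] at hθ
    obtain ⟨hθ1, hθ2⟩ := hθ
    by_contra hcon
    apply hθ2
    have h3 : ∀ᶠ n in atTop, g n θ ≤ ε n := by
      have h4 : ∀ᶠ n in atTop, ¬ (θ ∈ Ioc 0 (2 * Real.pi) ∧ ε n < g n θ) :=
        Filter.not_frequently.1 hcon
      filter_upwards [h4] with n hn
      by_contra h5
      exact hn ⟨hθ1, not_le.1 h5⟩
    exact squeeze_zero' (Eventually.of_forall fun n => h0 n θ) h3 hε

end DW24
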