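import Pool.Agent.DW24.Defs

/-!
Module B: weak subharmonicity (in log-coordinates) from the sub-mean-value property, and the
sub-mean-value property of `max (log ‖P (e^ζ)‖) (log ‖Q (e^ζ)‖)`.
-/

set_option autoImplicit false

open MeasureTheory Filter Topology Set

namespace DW24

/-- sub-mean value property of `log ‖f‖` -/
theorem submean_log {f : ℂ → ℂ} {c : ℂ} {h : ℝ} (hh : 0 < h)
    (hf : AnalyticOnNhd ℂ f (Metric.closedBall c h)) (h0 : f c ≠ 0) :
    Real.log ‖f c‖ ≤ Real.circleAverage (fun z => Real.log ‖f z‖) c h := by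
  have hf' : AnalyticOnNhd ℂ f (Metric.closedBall c |h|) := by rwa [abs_of_pos hh]
  have key := hf'.circleAverage_log_norm hh.ne' h0
  rw [key]
  have : 0 ≤ ∑ᶠ u, ((MeromorphicOn.divisor f (Metric.closedBall c |h|)) u : ℝ)
      * Real.log (h * ‖c - u‖⁻¹) := by
    apply finsum_nonneg
    intro u
    by_cases h1 : u ∈ Metric.closedBall c |h|
    · refine mul_nonneg (mod_cast MeromorphicOn.AnalyticOnNhd.divisor_nonneg hf' ..) ?_
      by_cases h3 : u = c
      · simp [h3]
      · have hpos : 0 < ‖c - u‖ := by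
          rw [norm_pos_iff, sub_ne_zero]; exact fun h => h3 h.symm
        apply Real.log_nonneg
        rw [← div_eq_mul_inv, le_div_iff₀ hpos, one_mul]
        have := Metric.mem_closedBall.mp h1
        rwa [dist_comm, dist_eq_norm, abs_of_pos hh] at this
    · simp [Function.locallyFinsuppWithin.apply_eq_zero_of_notMem _ h1]
  linarith

theorem submean_max {P Q : ℂ → ℂ} {R : ℝ} (hP : AnalyticOnNhd ℂ P (Metric.ball 0 (Real.exp R)))
    (hQ : AnalyticOnNhd ℂ Q (Metric.ball 0 (Real.exp R)))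
    {x θ h : ℝ} (hh : 0 < h) (hx : x + h < R)
    (hP0 : P (Complex.exp (x + θ * Complex.I)) ≠ 0) (hQ0 : Q (Complex.exp (x + θ * Complex.I)) ≠ 0) :
    max (Real.log ‖P (Complex.exp (x + θ * Complex.I))‖) (Real.log ‖Q (Complex.exp (x + θ * Complex.I))‖)
      ≤ (1 / (2 * Real.pi)) * ∫ t in (0)..(2 * Real.pi),
        max (Real.log ‖P (Complex.exp ((x + h * Real.cos t : ℝ) + (θ + h * Real.sin t : ℝ) * Complex.I))‖)
          (Real.log ‖Q (Complex.exp ((x + h * Real.cos t : ℝ) + (θ + h * Real.sin t : ℝ) * Complex.I))‖) := by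
  set c : ℂ := x + θ * Complex.I with hc
  have hcirc : ∀ t : ℝ, (((x + h * Real.cos t : ℝ) : ℂ) + (θ + h * Real.sin t : ℝ) * Complex.I)
      = circleMap c h t := by
    intro t
    rw [circleMap, hc, Complex.exp_mul_I]
    push_cast
    ring
  have hmap : ∀ z ∈ Metric.closedBall c h, Complex.exp z ∈ Metric.ball (0 : ℂ) (Real.exp R) := by
    intro z hz
    rw [mem_ball_zero_iff, Complex.norm_exp, Real.exp_lt_exp]
    have h1 : ‖z - c‖ ≤ h := by rwa [Metric.mem_closedBall, dist_eq_norm] at hz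
    have h2 := (Complex.abs_re_le_norm (z - c)).trans h1
    have h3 : c.re = x := by simp [hc]
    have h4 := (abs_le.mp h2).2
    rw [Complex.sub_re, h3] at h4
    linarith
  have hexp : ∀ {F : ℂ → ℂ}, AnalyticOnNhd ℂ F (Metric.ball 0 (Real.exp R)) →
      AnalyticOnNhd ℂ (fun z => F (Complex.exp z)) (Metric.closedBall c h) := by
    intro F hF z hz
    exact (hF _ (hmap z hz)).comp (analyticAt_cexp)
  have ci : ∀ {F : ℂ → ℂ}, AnalyticOnNhd ℂ F (Metric.ball 0 (Real.exp R)) →
      CircleIntegrable (fun z => Real.log ‖F (Complex.exp z)‖) c h := by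
    intro F hF
    have := ((hexp hF).mono (Metric.sphere_subset_closedBall)).meromorphicOn
    exact this.circleIntegrable_log_norm_of_nonneg hh.le
  have ciP := ci hP
  have ciQ := ci hQ
  have hmaxi : CircleIntegrable (fun z => max (Real.log ‖P (Complex.exp z)‖)
      (Real.log ‖Q (Complex.exp z)‖)) c h := by
    have : (fun z => max (Real.log ‖P (Complex.exp z)‖) (Real.log ‖Q (Complex.exp z)‖))
      = fun z => (1/2 : ℝ) * (Real.log ‖P (Complex.exp z)‖ + Real.log ‖Q (Complex.exp z)‖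
        + |Real.log ‖P (Complex.exp z)‖ - Real.log ‖Q (Complex.exp z)‖|) := by
      funext z
      rw [max_def]
      split_ifs with h1
      · rw [abs_of_nonpos (by linarith)]; ring
      · rw [abs_of_nonneg (by linarith)]; ring
    rw [this]
    unfold CircleIntegrable at *
    exact ((ciP.add ciQ).add (ciP.sub ciQ).abs).const_mul _
  have e1 : (1 / (2 * Real.pi)) * ∫ t in (0)..(2 * Real.pi),
        max (Real.log ‖P (Complex.exp ((x + h * Real.cos t : ℝ) + (θ + h * Real.sin t : ℝ) * Complex.I))‖)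
          (Real.log ‖Q (Complex.exp ((x + h * Real.cos t : ℝ) + (θ + h * Real.sin t : ℝ) * Complex.I))‖)
      = Real.circleAverage (fun z => max (Real.log ‖P (Complex.exp z)‖)
          (Real.log ‖Q (Complex.exp z)‖)) c h := by
    rw [Real.circleAverage, smul_eq_mul, one_div]
    congr 1
    apply intervalIntegral.integral_congr
    intro t _
    simp only [hcirc]
  rw [e1]
  apply max_le
  · refine (submean_log hh (hexp hP) hP0).trans ?_
    exact Real.circleAverage_mono ciP hmaxi (fun z _ => le_max_left _ _)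
  · refine (submean_log hh (hexp hQ) hQ0).trans ?_
    exact Real.circleAverage_mono ciQ hmaxi (fun z _ => le_max_right _ _)

/-- second-order Taylor bound -/
theorem taylor2_bound {g g1 g2 : ℝ → ℝ} (hg : ∀ s, HasDerivAt g (g1 s) s)
    (hg1 : ∀ s, HasDerivAt g1 (g2 s) s) {C : ℝ} (hC : ∀ s, |g2 s| ≤ C) (h : ℝ) :
    |g h - g 0 - g1 0 * h| ≤ C * h ^ 2 := by
  have b1 : ∀ s, |g1 s - g1 0| ≤ C * |s| := by
    intro s
    have := Convex.norm_image_sub_le_of_norm_hasDerivWithin_le (s := univ) (f := g1) (f' := g2)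
      (C := C) (x := 0) (y := s)
      (fun x _ => (hg1 x).hasDerivWithinAt) (fun x _ => by simpa using hC x) convex_univ
      (mem_univ _) (mem_univ _)
    simpa using this
  have hC0 : 0 ≤ C := (abs_nonneg _).trans (hC 0)
  have b2 := Convex.norm_image_sub_le_of_norm_hasDerivWithin_le (s := uIcc 0 h)
    (f := fun s => g s - g1 0 * s) (f' := fun s => g1 s - g1 0 * 1)
    (C := C * |h|) (x := 0) (y := h)
    (fun x _ => ((hg x).sub ((hasDerivAt_id x).const_mul (g1 0))).hasDerivWithinAt)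
    (fun x hx => by
      rw [mul_one, Real.norm_eq_abs]
      refine (b1 x).trans (mul_le_mul_of_nonneg_left ?_ hC0)
      have := abs_sub_left_of_mem_uIcc hx
      simpa using this)
    (convex_uIcc 0 h) left_mem_uIcc right_mem_uIcc
  have e : g h - g1 0 * h - (g 0 - g1 0 * 0) = g h - g 0 - g1 0 * h := by ring
  simp only [e, Real.norm_eq_abs, sub_zero] at b2
  calc _ ≤ C * |h| * |h| := b2
    _ = C * h ^ 2 := by rw [mul_assoc, abs_mul_abs_self, sq]

/-- second-order Taylor limit -/
theorem taylor2_lim {g g1 : ℝ → ℝ} {c : ℝ} (hg : ∀ s, HasDerivAt g (g1 s) s)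
    (hg1 : HasDerivAt g1 c 0) :
    Tendsto (fun h => (g h - g 0 - g1 0 * h) / h ^ 2) (𝓝[≠] 0) (𝓝 (c / 2)) := by
  rw [Metric.tendsto_nhds]
  intro ε hε
  have ho := hg1.isLittleO
  rw [Asymptotics.isLittleO_iff] at ho
  have ho' := ho (half_pos hε)
  rw [Metric.eventually_nhds_iff] at ho'
  obtain ⟨δ, hδ, hd⟩ := ho'
  have : ∀ᶠ h : ℝ in 𝓝[≠] 0, |h| < δ ∧ h ≠ 0 := by
    refine Filter.Eventually.and ?_ ?_
    · apply nhdsWithin_le_nhds
      filter_upwards [Metric.ball_mem_nhds (0 : ℝ) hδ] with x hx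
      simpa using hx
    · exact self_mem_nhdsWithin
  filter_upwards [this] with h hh
  obtain ⟨hh, hne⟩ := hh
  have b2 := Convex.norm_image_sub_le_of_norm_hasDerivWithin_le (s := uIcc 0 h)
    (f := fun s => g s - g1 0 * s - c / 2 * s ^ 2)
    (f' := fun s => g1 s - g1 0 * 1 - c / 2 * ((2 : ℕ) * s ^ (2 - 1) * 1))
    (C := ε / 2 * |h|) (x := 0) (y := h)
    (fun x _ => (((hg x).sub ((hasDerivAt_id x).const_mul (g1 0))).sub
      (((hasDerivAt_id x).pow 2).const_mul (c / 2))).hasDerivWithinAt)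
    (fun x hx => by
      have hx' : |x| ≤ |h| := by simpa using abs_sub_left_of_mem_uIcc hx
      have h1 := hd (y := x) (by simpa using lt_of_le_of_lt hx' hh)
      simp only [sub_zero, smul_eq_mul, Real.norm_eq_abs] at h1
      have e : g1 x - g1 0 * 1 - c / 2 * ((2 : ℕ) * x ^ (2 - 1) * 1) = g1 x - g1 0 - x * c := by
        norm_num; ring
      rw [e, Real.norm_eq_abs]
      exact h1.trans (mul_le_mul_of_nonneg_left hx' (half_pos hε).le))
    (convex_uIcc 0 h) left_mem_uIcc right_mem_uIcc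
  have e : g h - g1 0 * h - c / 2 * h ^ 2 - (g 0 - g1 0 * 0 - c / 2 * 0 ^ 2)
      = g h - g 0 - g1 0 * h - c / 2 * h ^ 2 := by ring
  simp only [e, Real.norm_eq_abs, sub_zero] at b2
  rw [Real.dist_eq]
  have hh2 : 0 < h ^ 2 := by positivity
  have e2 : (g h - g 0 - g1 0 * h) / h ^ 2 - c / 2
      = (g h - g 0 - g1 0 * h - c / 2 * h ^ 2) / h ^ 2 := by
    field_simp
  rw [e2, abs_div, abs_of_pos hh2, div_lt_iff₀ hh2]
  calc _ ≤ ε / 2 * |h| * |h| := b2
    _ = ε / 2 * h ^ 2 := by rw [mul_assoc, abs_mul_abs_self, sq]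
    _ < ε * h ^ 2 := by nlinarith

/-- the measure `dx dθ` on `ℝ × (0, 2π]` -/
noncomputable def mu : Measure (ℝ × ℝ) :=
  (volume : Measure ℝ).prod (volume.restrict (Ioc 0 (2 * Real.pi)))

/-- the measure `dt` on `(0, 2π]` -/
noncomputable def nu : Measure ℝ := volume.restrict (Ioc 0 (2 * Real.pi))

instance : IsFiniteMeasure nu := by unfold nu; infer_instance
instance : SFinite nu := by unfold nu; infer_instance
instance : SFinite mu := by unfold mu; infer_instance

theorem mu_eq : mu = (volume : Measure (ℝ × ℝ)).restrict (univ ×ˢ Ioc 0 (2 * Real.pi)) := by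
  rw [mu, Measure.volume_eq_prod, ← Measure.prod_restrict, Measure.restrict_univ]

theorem integrable_translate {U : ℝ × ℝ → ℝ}
    (hUi : ∀ a b : ℝ, IntegrableOn U (univ ×ˢ Ioc a b) volume) (v : ℝ × ℝ) :
    Integrable (fun p => U (p + v)) mu := by
  rw [mu_eq]
  have h := (measurePreserving_add_right (volume : Measure (ℝ × ℝ)) v).integrableOn_comp_preimage
    (measurableEmbedding_addRight v) (f := U) (s := univ ×ˢ Ioc v.2 (2 * Real.pi + v.2))
  have h1 := h.mpr (hUi _ _)
  have e : (fun x : ℝ × ℝ => x + v) ⁻¹' (univ ×ˢ Ioc v.2 (2 * Real.pi + v.2))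
      = univ ×ˢ Ioc 0 (2 * Real.pi) := by
    ext p
    simp
  rw [e] at h1
  exact h1

theorem integral_translate {H : ℝ × ℝ → ℝ}
    (hi : ∀ a b : ℝ, IntegrableOn H (univ ×ˢ Ioc a b) volume)
    (hp : ∀ x θ, H (x, θ + 2 * Real.pi) = H (x, θ)) (v : ℝ × ℝ) :
    ∫ p, H (p + v) ∂mu = ∫ p, H p ∂mu := by
  have h1 := integrable_translate hi v
  have h0 : Integrable H mu := by simpa using integrable_translate hi 0
  have hpi : (0 : ℝ) ≤ 2 * Real.pi := by positivity
  unfold mu at *
  rw [integral_prod _ h1, integral_prod _ h0]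
  simp only [← intervalIntegral.integral_of_le hpi]
  have e : ∀ x : ℝ, ∫ y in (0 : ℝ)..(2 * Real.pi), H ((x, y) + v)
      = ∫ y in (0 : ℝ)..(2 * Real.pi), H (x + v.1, y) := by
    intro x
    have : ∀ y : ℝ, H ((x, y) + v) = (fun z => H (x + v.1, z)) (y + v.2) := by
      intro y; rfl
    simp only [this]
    rw [intervalIntegral.integral_comp_add_right (fun z => H (x + v.1, z)) v.2]
    have hper : Function.Periodic (fun z => H (x + v.1, z)) (2 * Real.pi) := fun z => hp _ _
    have := hper.intervalIntegral_add_eq v.2 0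
    rw [zero_add] at this
    rw [zero_add, add_comm (2 * Real.pi) v.2, this]
  simp only [e]
  exact integral_add_right_eq_self (fun x => ∫ y in (0 : ℝ)..(2 * Real.pi), H (x, y)) v.1

/-- the vector `h (cos t, sin t)` -/
noncomputable def ev (h t : ℝ) : ℝ × ℝ := (h * Real.cos t, h * Real.sin t)

theorem ev_cont (h : ℝ) : Continuous (ev h) := by
  unfold ev; fun_prop

theorem aesm_U {U : ℝ × ℝ → ℝ}
    (hUi : ∀ a b : ℝ, IntegrableOn U (univ ×ˢ Ioc a b) volume) :
    AEStronglyMeasurable U volume := by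
  have : LocallyIntegrable U volume := by
    intro p
    refine ⟨univ ×ˢ Ioc (p.2 - 1) (p.2 + 1), ?_, hUi _ _⟩
    rw [← Prod.mk.eta (p := p)]
    exact prod_mem_nhds univ_mem (Ioc_mem_nhds (by simp) (by simp))
  exact this.aestronglyMeasurable

theorem nu_prod_mu_le : nu.prod mu ≤ (volume : Measure ℝ).prod (volume : Measure (ℝ × ℝ)) := by
  rw [nu, mu_eq, Measure.prod_restrict]
  exact Measure.restrict_le_self

theorem aesm_shift {U : ℝ × ℝ → ℝ} (hU : AEStronglyMeasurable U volume) (h : ℝ) :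
    AEStronglyMeasurable (fun q : ℝ × (ℝ × ℝ) => U (q.2 + ev h q.1)) (nu.prod mu) := by
  have hmp : MeasurePreserving (fun q : ℝ × (ℝ × ℝ) => (q.1, q.2 + ev h q.1))
      ((volume : Measure ℝ).prod (volume : Measure (ℝ × ℝ)))
      ((volume : Measure ℝ).prod (volume : Measure (ℝ × ℝ))) := by
    refine MeasurePreserving.skew_product (f := id) (g := fun t p => p + ev h t)
      (MeasurePreserving.id _) ?_ ?_
    · have := ev_cont h
      apply Continuous.measurable
      unfold Function.uncurry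
      fun_prop
    · refine Filter.Eventually.of_forall fun t => ?_
      exact (measurePreserving_add_right (volume : Measure (ℝ × ℝ)) (ev h t)).map_eq
  have hq : Measure.QuasiMeasurePreserving (fun q : ℝ × (ℝ × ℝ) => q.2 + ev h q.1)
      ((volume : Measure ℝ).prod (volume : Measure (ℝ × ℝ))) volume :=
    (Measure.quasiMeasurePreserving_snd (μ := (volume : Measure ℝ))
      (ν := (volume : Measure (ℝ × ℝ)))).comp hmp.quasiMeasurePreserving
  exact (hU.comp_quasiMeasurePreserving hq).mono_measure nu_prod_mu_le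

theorem integrable_shift {U : ℝ × ℝ → ℝ}
    (hUi : ∀ a b : ℝ, IntegrableOn U (univ ×ˢ Ioc a b) volume)
    (hUp : ∀ x θ, U (x, θ + 2 * Real.pi) = U (x, θ)) (h : ℝ) :
    Integrable (fun q : ℝ × (ℝ × ℝ) => U (q.2 + ev h q.1)) (nu.prod mu) := by
  rw [integrable_prod_iff (aesm_shift (aesm_U hUi) h)]
  refine ⟨Filter.Eventually.of_forall fun t => by simpa using integrable_translate hUi (ev h t), ?_⟩
  have : ∀ t : ℝ, ∫ y, ‖U (y + ev h t)‖ ∂mu = ∫ y, ‖U y‖ ∂mu := by
    intro t
    exact integral_translate (H := fun p => ‖U p‖) (fun a b => (hUi a b).norm)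
      (fun x θ => by rw [hUp]) (ev h t)
  simp only [this]
  exact integrable_const _

theorem main_h {U φ : ℝ × ℝ → ℝ}
    (hUi : ∀ a b : ℝ, IntegrableOn U (univ ×ˢ Ioc a b) volume)
    (hUp : ∀ x θ, U (x, θ + 2 * Real.pi) = U (x, θ))
    (hφc : Continuous φ) {C : ℝ} (hφb : ∀ p, |φ p| ≤ C)
    (hφp : ∀ x θ, φ (x, θ + 2 * Real.pi) = φ (x, θ)) (h : ℝ)
    (hsub : ∀ᵐ p, φ p * ((2 * Real.pi) * U p)
      ≤ φ p * ∫ t in (0)..(2 * Real.pi), U (p + ev h t)) :
    0 ≤ ∫ p, U p * ((∫ t in (0)..(2 * Real.pi), φ (p - ev h t)) - (2 * Real.pi) * φ p) ∂mu := by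
  have hpi : (0 : ℝ) ≤ 2 * Real.pi := by positivity
  have hU0 : Integrable U mu := by simpa using integrable_translate hUi 0
  -- joint integrability
  have hF : Integrable (fun q : ℝ × (ℝ × ℝ) => φ q.2 * U (q.2 + ev h q.1)) (nu.prod mu) := by
    refine (integrable_shift hUi hUp h).bdd_mul (c := C) ?_ ?_
    · exact (hφc.comp continuous_snd).aestronglyMeasurable
    · exact Filter.Eventually.of_forall fun q => by simpa using hφb q.2
  have hG : Integrable (fun q : ℝ × (ℝ × ℝ) => φ (q.2 - ev h q.1) * U q.2) (nu.prod mu) := by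
    refine (hU0.comp_snd nu).bdd_mul (c := C) ?_ ?_
    · have := ev_cont h
      exact (hφc.comp (by fun_prop : Continuous fun q : ℝ × (ℝ × ℝ) =>
        q.2 - ev h q.1)).aestronglyMeasurable
    · exact Filter.Eventually.of_forall fun q => by simpa using hφb _
  have hsub' : ∀ᵐ p ∂mu, φ p * ((2 * Real.pi) * U p)
      ≤ ∫ t, φ p * U (p + ev h t) ∂nu := by
    rw [mu_eq]
    refine (ae_restrict_of_ae hsub).mono fun p hp => ?_
    rw [integral_const_mul]
    rw [intervalIntegral.integral_of_le hpi] at hp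
    exact hp
  -- translation in each slice
  have htr : ∀ t : ℝ, ∫ p, φ p * U (p + ev h t) ∂mu = ∫ p, φ (p - ev h t) * U p ∂mu := by
    intro t
    have hi : ∀ a b : ℝ, IntegrableOn (fun p => φ (p - ev h t) * U p) (univ ×ˢ Ioc a b) volume := by
      intro a b
      refine (hUi a b).bdd_mul (c := C) ?_ ?_
      · exact (hφc.comp (by fun_prop : Continuous fun q : (ℝ × ℝ) =>
          q - ev h t)).aestronglyMeasurable
      · exact Filter.Eventually.of_forall fun q => by simpa using hφb _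
    have := integral_translate (H := fun p => φ (p - ev h t) * U p) hi
      (fun x θ => by
        rw [hUp]
        congr 1
        have e : ((x, θ + 2 * Real.pi) : ℝ × ℝ) - ev h t
            = (x - (ev h t).1, (θ - (ev h t).2) + 2 * Real.pi) := by
          ext
          · simp
          · simp; ring
        have e' : ((x, θ) : ℝ × ℝ) - ev h t = (x - (ev h t).1, (θ - (ev h t).2)) := rfl
        rw [e, hφp, e']) (ev h t)
    simpa using this
  have hswap1 := integral_integral_swap (f := fun (t : ℝ) (p : ℝ × ℝ) => φ p * U (p + ev h t)) hF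
  have hswap2 := integral_integral_swap (f := fun (t : ℝ) (p : ℝ × ℝ) => φ (p - ev h t) * U p) hG
  simp only [htr] at hswap1
  have hint1 : Integrable (fun p => φ p * ((2 * Real.pi) * U p)) mu := by
    refine (hU0.const_mul (2 * Real.pi)).bdd_mul (c := C) hφc.aestronglyMeasurable ?_
    exact Filter.Eventually.of_forall fun q => by simpa using hφb q
  have hint2 : Integrable (fun p => ∫ t, φ p * U (p + ev h t) ∂nu) mu := hF.integral_prod_right
  have hint3 : Integrable (fun p => ∫ t, φ (p - ev h t) * U p ∂nu) mu := hG.integral_prod_right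
  have hle := integral_mono_ae hint1 hint2 hsub'
  rw [← hswap1, hswap2] at hle
  have e3 : ∫ p, U p * ((∫ t in (0)..(2 * Real.pi), φ (p - ev h t)) - (2 * Real.pi) * φ p) ∂mu
      = (∫ p, ∫ t, φ (p - ev h t) * U p ∂nu ∂mu) - ∫ p, φ p * ((2 * Real.pi) * U p) ∂mu := by
    rw [← integral_sub hint3 hint1]
    apply integral_congr_ae
    refine Filter.Eventually.of_forall fun p => ?_
    simp only []
    rw [intervalIntegral.integral_of_le hpi, integral_mul_const]
    unfold nu
    ring
  rw [e3]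
  linarith

theorem int_cos : ∫ t in (0)..(2 * Real.pi), Real.cos t = 0 := by
  rw [integral_cos]; simp

theorem int_sin : ∫ t in (0)..(2 * Real.pi), Real.sin t = 0 := by
  rw [integral_sin]; simp

theorem int_cos2 : ∫ t in (0)..(2 * Real.pi), Real.cos t ^ 2 = Real.pi := by
  rw [integral_cos_sq]; simp

theorem int_sin2 : ∫ t in (0)..(2 * Real.pi), Real.sin t ^ 2 = Real.pi := by
  rw [integral_sin_sq]; simp

theorem int_sincos : ∫ t in (0)..(2 * Real.pi), Real.sin t * Real.cos t = 0 := by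
  rw [integral_sin_mul_cos₁]; simp

/-- bounded data: `ω, ω', ω''` -/
theorem bdd_of_compact {ω : ℝ → ℝ} (hω : ContDiff ℝ 2 ω)
    {a b : ℝ} (hωs : ∀ x, x ∉ Icc a b → ω x = 0) :
    ∃ K : ℝ, ∀ x, |ω x| ≤ K ∧ |deriv ω x| ≤ K ∧ |deriv (deriv ω) x| ≤ K := by
  have hc : HasCompactSupport ω := HasCompactSupport.intro isCompact_Icc hωs
  have h1 : ContDiff ℝ 1 (deriv ω) := by
    have : ContDiff ℝ (1 + 1) ω := by rw [one_add_one_eq_two]; exact hω
    exact (contDiff_succ_iff_deriv.mp this).2.2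
  have h2 : Continuous (deriv (deriv ω)) := h1.continuous_deriv le_rfl
  obtain ⟨K0, hK0⟩ := hc.exists_bound_of_continuous hω.continuous
  obtain ⟨K1, hK1⟩ := hc.deriv.exists_bound_of_continuous h1.continuous
  obtain ⟨K2, hK2⟩ := hc.deriv.deriv.exists_bound_of_continuous h2
  refine ⟨max K0 (max K1 K2), fun x => ⟨?_, ?_, ?_⟩⟩
  · exact (hK0 x).trans (le_max_left _ _)
  · exact (hK1 x).trans ((le_max_left _ _).trans (le_max_right _ _))
  · exact (hK2 x).trans ((le_max_right _ _).trans (le_max_right _ _))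

theorem per_deriv {ψ : ℝ → ℝ} {c : ℝ} (h : Function.Periodic ψ c) :
    Function.Periodic (deriv ψ) c := by
  intro x
  have : (fun y => ψ (y + c)) = ψ := funext h
  rw [← deriv_comp_add_const ψ c x, this]

theorem bdd_of_per {ψ : ℝ → ℝ} (hψ : Tst ψ) :
    ∃ K : ℝ, ∀ x, |ψ x| ≤ K ∧ |deriv ψ x| ≤ K ∧ |deriv (deriv ψ) x| ≤ K := by
  obtain ⟨hc, hp⟩ := hψ
  have h1 : ContDiff ℝ 1 (deriv ψ) := by
    have : ContDiff ℝ (1 + 1) ψ := by rw [one_add_one_eq_two]; exact hc
    exact (contDiff_succ_iff_deriv.mp this).2.2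
  have h2 : Continuous (deriv (deriv ψ)) := h1.continuous_deriv le_rfl
  have key : ∀ f : ℝ → ℝ, Continuous f → Function.Periodic f (2 * Real.pi) →
      ∃ K : ℝ, ∀ x, |f x| ≤ K := by
    intro f hf hfp
    have := hfp.isBounded_of_continuous (by positivity) hf
    obtain ⟨K, hK⟩ := this.exists_norm_le
    exact ⟨K, fun x => hK _ (mem_range_self x)⟩
  obtain ⟨K0, hK0⟩ := key _ hc.continuous hp
  obtain ⟨K1, hK1⟩ := key _ h1.continuous (per_deriv hp)
  obtain ⟨K2, hK2⟩ := key _ h2 (per_deriv (per_deriv hp))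
  refine ⟨max K0 (max K1 K2), fun x => ⟨?_, ?_, ?_⟩⟩
  · exact (hK0 x).trans (le_max_left _ _)
  · exact (hK1 x).trans ((le_max_left _ _).trans (le_max_right _ _))
  · exact (hK2 x).trans ((le_max_right _ _).trans (le_max_right _ _))

/-- second difference quotient of `ω(x) ψ(θ)` averaged over the circle -/
theorem avg_bound_lim {ω ψ : ℝ → ℝ} (hω : ContDiff ℝ 2 ω) (hψ : ContDiff ℝ 2 ψ) {K : ℝ}
    (hK : ∀ x, |ω x| ≤ K ∧ |deriv ω x| ≤ K ∧ |deriv (deriv ω) x| ≤ K)
    (hL : ∀ x, |ψ x| ≤ K ∧ |deriv ψ x| ≤ K ∧ |deriv (deriv ψ) x| ≤ K) (x θ : ℝ) :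
    (∀ h : ℝ, |(∫ t in (0)..(2 * Real.pi), ω (x - h * Real.cos t) * ψ (θ - h * Real.sin t))
        - 2 * Real.pi * (ω x * ψ θ)| ≤ (2 * Real.pi * (4 * K ^ 2)) * h ^ 2) ∧
    Tendsto (fun h : ℝ => ((∫ t in (0)..(2 * Real.pi),
        ω (x - h * Real.cos t) * ψ (θ - h * Real.sin t)) - 2 * Real.pi * (ω x * ψ θ)) / h ^ 2)
      (𝓝[≠] 0) (𝓝 (Real.pi / 2 * (ω x * deriv (deriv ψ) θ + deriv (deriv ω) x * ψ θ))) := by
  have hpi : (0 : ℝ) ≤ 2 * Real.pi := by positivity
  have hK0 : 0 ≤ K := (abs_nonneg _).trans (hK 0).1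
  have hd : ∀ {f : ℝ → ℝ}, ContDiff ℝ 2 f → (∀ s, HasDerivAt f (deriv f s) s) ∧
      (∀ s, HasDerivAt (deriv f) (deriv (deriv f) s) s) := by
    intro f hf
    have h1 : ContDiff ℝ 1 (deriv f) := by
      have : ContDiff ℝ (1 + 1) f := by rw [one_add_one_eq_two]; exact hf
      exact (contDiff_succ_iff_deriv.mp this).2.2
    exact ⟨fun s => (hf.differentiable (by norm_num) s).hasDerivAt,
      fun s => (h1.differentiable (by norm_num) s).hasDerivAt⟩
  obtain ⟨w1, w2⟩ := hd hω
  obtain ⟨p1, p2⟩ := hd hψ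
  -- one-variable restriction
  let g : ℝ → ℝ → ℝ := fun t s => ω (x - s * Real.cos t) * ψ (θ - s * Real.sin t)
  let g1 : ℝ → ℝ → ℝ := fun t s =>
    deriv ω (x - s * Real.cos t) * (-Real.cos t) * ψ (θ - s * Real.sin t)
      + ω (x - s * Real.cos t) * (deriv ψ (θ - s * Real.sin t) * (-Real.sin t))
  let g2 : ℝ → ℝ → ℝ := fun t s =>
    deriv (deriv ω) (x - s * Real.cos t) * (-Real.cos t) * (-Real.cos t) * ψ (θ - s * Real.sin t)
      + deriv ω (x - s * Real.cos t) * (-Real.cos t) * (deriv ψ (θ - s * Real.sin t) * (-Real.sin t))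
      + (deriv ω (x - s * Real.cos t) * (-Real.cos t) * (deriv ψ (θ - s * Real.sin t) * (-Real.sin t))
      + ω (x - s * Real.cos t) * (deriv (deriv ψ) (θ - s * Real.sin t) * (-Real.sin t) * (-Real.sin t)))
  have li : ∀ (y c s : ℝ), HasDerivAt (fun s => y - s * c) (-c) s := by
    intro y c s
    simpa using ((hasDerivAt_id s).mul_const c).const_sub y
  have hg : ∀ t s, HasDerivAt (g t) (g1 t s) s := by
    intro t s
    exact ((w1 _).comp s (li x (Real.cos t) s)).mul ((p1 _).comp s (li θ (Real.sin t) s))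
  have hg1 : ∀ t s, HasDerivAt (g1 t) (g2 t s) s := by
    intro t s
    exact ((((w2 _).comp s (li x (Real.cos t) s)).mul_const (-Real.cos t)).mul
      ((p1 _).comp s (li θ (Real.sin t) s))).add
      (((w1 _).comp s (li x (Real.cos t) s)).mul
      (((p2 _).comp s (li θ (Real.sin t) s)).mul_const (-Real.sin t)))
  have hg2 : ∀ t s, |g2 t s| ≤ 4 * K ^ 2 := by
    intro t s
    have c1 := Real.abs_cos_le_one t
    have s1 := Real.abs_sin_le_one t
    have A0 := (hK (x - s * Real.cos t)).1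
    have A1 := (hK (x - s * Real.cos t)).2.1
    have A2 := (hK (x - s * Real.cos t)).2.2
    have B0 := (hL (θ - s * Real.sin t)).1
    have B1 := (hL (θ - s * Real.sin t)).2.1
    have B2 := (hL (θ - s * Real.sin t)).2.2
    have mm : ∀ {a b c d : ℝ}, |a| ≤ K → |b| ≤ 1 → |c| ≤ 1 → |d| ≤ K →
        |a * d * (b * c)| ≤ K ^ 2 := by
      intro a b c d ha hb hc hd
      rw [abs_mul, abs_mul, abs_mul]
      calc |a| * |d| * (|b| * |c|) ≤ K * K * (1 * 1) := by gcongr
        _ = K ^ 2 := by ring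
    have t1 := mm A2 c1 c1 B0
    have t2 := mm A1 c1 s1 B1
    have t3 := mm A0 s1 s1 B2
    have e : g2 t s = deriv (deriv ω) (x - s * Real.cos t) * ψ (θ - s * Real.sin t)
          * (Real.cos t * Real.cos t)
        + 2 * (deriv ω (x - s * Real.cos t) * deriv ψ (θ - s * Real.sin t)
          * (Real.cos t * Real.sin t))
        + ω (x - s * Real.cos t) * deriv (deriv ψ) (θ - s * Real.sin t)
          * (Real.sin t * Real.sin t) := by
      simp only [g2]; ring
    rw [e]
    refine (abs_add_le _ _).trans ?_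
    refine (add_le_add (abs_add_le _ _) le_rfl).trans ?_
    rw [abs_mul (2 : ℝ)]
    rw [abs_two]
    linarith
  have hωc := hω.continuous
  have hψc := hψ.continuous
  have hgc : ∀ s, Continuous (fun t => g t s) := by
    intro s
    simp only [g]
    fun_prop
  have hg1c : Continuous (fun t => g1 t 0) := by
    simp only [g1]
    simp only [zero_mul, sub_zero]
    fun_prop
  have hg10 : ∫ t in (0)..(2 * Real.pi), g1 t 0 = 0 := by
    have : ∀ t, g1 t 0 = (-(deriv ω x * ψ θ)) * Real.cos t + (-(ω x * deriv ψ θ)) * Real.sin t := by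
      intro t; simp only [g1, zero_mul, sub_zero]; ring
    simp only [this]
    rw [intervalIntegral.integral_add, intervalIntegral.integral_const_mul,
      intervalIntegral.integral_const_mul, int_cos, int_sin]
    · ring
    · exact (Real.continuous_cos.const_mul _).intervalIntegrable _ _
    · exact (Real.continuous_sin.const_mul _).intervalIntegrable _ _
  have hrep : ∀ h : ℝ, (∫ t in (0)..(2 * Real.pi),
        ω (x - h * Real.cos t) * ψ (θ - h * Real.sin t)) - 2 * Real.pi * (ω x * ψ θ)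
      = ∫ t in (0)..(2 * Real.pi), (g t h - g t 0 - g1 t 0 * h) := by
    intro h
    rw [intervalIntegral.integral_sub, intervalIntegral.integral_sub,
      intervalIntegral.integral_mul_const, hg10]
    · have : ∀ t, g t 0 = ω x * ψ θ := by intro t; simp [g]
      simp only [this]
      rw [intervalIntegral.integral_const]
      simp only [g, smul_eq_mul]
      ring
    · exact (hgc h).intervalIntegrable _ _
    · exact (hgc 0).intervalIntegrable _ _
    · exact ((hgc h).sub (hgc 0)).intervalIntegrable _ _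
    · exact (hg1c.mul_const h).intervalIntegrable _ _
  refine ⟨fun h => ?_, ?_⟩
  · rw [hrep h]
    have := intervalIntegral.norm_integral_le_of_norm_le_const (a := 0) (b := 2 * Real.pi)
      (f := fun t => g t h - g t 0 - g1 t 0 * h) (C := 4 * K ^ 2 * h ^ 2)
      (fun t _ => taylor2_bound (hg t) (hg1 t) (hg2 t) h)
    rw [Real.norm_eq_abs, sub_zero, abs_of_nonneg hpi] at this
    calc _ ≤ _ := this
      _ = _ := by ring
  · have hval : Real.pi / 2 * (ω x * deriv (deriv ψ) θ + deriv (deriv ω) x * ψ θ)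
        = ∫ t in (0)..(2 * Real.pi), g2 t 0 / 2 := by
      have : ∀ t, g2 t 0 / 2 = (deriv (deriv ω) x * ψ θ / 2) * Real.cos t ^ 2
          + (deriv ω x * deriv ψ θ) * (Real.sin t * Real.cos t)
          + (ω x * deriv (deriv ψ) θ / 2) * Real.sin t ^ 2 := by
        intro t; simp only [g2, zero_mul, sub_zero]; ring
      simp only [this]
      rw [intervalIntegral.integral_add, intervalIntegral.integral_add,
        intervalIntegral.integral_const_mul, intervalIntegral.integral_const_mul,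
        intervalIntegral.integral_const_mul, int_cos2, int_sin2, int_sincos]
      · ring
      · exact (by fun_prop : Continuous fun t : ℝ =>
          (deriv (deriv ω) x * ψ θ / 2) * Real.cos t ^ 2).intervalIntegrable _ _
      · exact (by fun_prop : Continuous fun t : ℝ =>
          (deriv ω x * deriv ψ θ) * (Real.sin t * Real.cos t)).intervalIntegrable _ _
      · exact (by fun_prop : Continuous fun t : ℝ =>
          (deriv (deriv ω) x * ψ θ / 2) * Real.cos t ^ 2
          + (deriv ω x * deriv ψ θ) * (Real.sin t * Real.cos t)).intervalIntegrable _ _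
      · exact (by fun_prop : Continuous fun t : ℝ =>
          (ω x * deriv (deriv ψ) θ / 2) * Real.sin t ^ 2).intervalIntegrable _ _
    rw [hval]
    have hfun : (fun h : ℝ => ((∫ t in (0)..(2 * Real.pi),
        ω (x - h * Real.cos t) * ψ (θ - h * Real.sin t)) - 2 * Real.pi * (ω x * ψ θ)) / h ^ 2)
      = fun h => ∫ t in (0)..(2 * Real.pi), (g t h - g t 0 - g1 t 0 * h) / h ^ 2 := by
      funext h
      rw [hrep h, intervalIntegral.integral_div]
    rw [hfun]
    refine intervalIntegral.tendsto_integral_filter_of_dominated_convergence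
      (fun _ => 4 * K ^ 2) ?_ ?_ ?_ ?_
    · refine Filter.Eventually.of_forall fun h => ?_
      exact (((hgc h).sub (hgc 0)).sub (hg1c.mul_const h)).div_const (h ^ 2)
        |>.aestronglyMeasurable
    · filter_upwards [self_mem_nhdsWithin] with h hh
      refine Filter.Eventually.of_forall fun t _ => ?_
      have hh2 : 0 < h ^ 2 := by
        have : h ≠ 0 := hh
        positivity
      rw [Real.norm_eq_abs, abs_div, abs_of_pos hh2, div_le_iff₀ hh2]
      exact taylor2_bound (hg t) (hg1 t) (hg2 t) h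
    · exact intervalIntegrable_const
    · refine Filter.Eventually.of_forall fun t _ => ?_
      exact taylor2_lim (hg t) (hg1 t 0)

theorem dd_zero {ω : ℝ → ℝ} {a b : ℝ} (hωs : ∀ x, x ∉ Icc a b → ω x = 0) {x : ℝ}
    (hx : x ∉ Icc a b) : deriv (deriv ω) x = 0 := by
  have ho : (Icc a b)ᶜ ∈ 𝓝 x := isClosed_Icc.isOpen_compl.mem_nhds hx
  have h0 : ω =ᶠ[𝓝 x] fun _ => 0 := by
    filter_upwards [ho] with y hy using hωs y hy
  have h1 : deriv ω =ᶠ[𝓝 x] fun _ => 0 := by
    have := h0.deriv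
    simpa using this
  have h2 := h1.deriv_eq
  simpa using h2

/-- weak subharmonicity in log-coordinates -/
theorem JJ_nonneg {u : ℝ → ℝ → ℝ} {x₀ x₁ : ℝ} (hx : x₀ < x₁)
    (hper : ∀ x, Function.Periodic (u x) (2 * Real.pi))
    (hint : ∀ a b : ℝ, IntegrableOn (fun p : ℝ × ℝ => u p.1 p.2) (Ioo x₀ x₁ ×ˢ Ioo a b))
    (hsub : ∀ h : ℝ, 0 < h → ∀ᵐ p : ℝ × ℝ, x₀ < p.1 - h → p.1 + h < x₁ →
      u p.1 p.2 ≤ (1 / (2 * Real.pi)) *
        ∫ t in (0)..(2 * Real.pi), u (p.1 + h * Real.cos t) (p.2 + h * Real.sin t))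
    {ω ψ : ℝ → ℝ} (hω : ContDiff ℝ 2 ω) (hωs : ∃ a b, x₀ < a ∧ b < x₁ ∧ ∀ x, x ∉ Icc a b → ω x = 0)
    (hω0 : ∀ x, 0 ≤ ω x) (hψ : Tst ψ) (hψ0 : ∀ θ, 0 ≤ ψ θ) :
    0 ≤ JJ u ω ψ := by
  obtain ⟨a, b, ha, hb, hs⟩ := hωs
  have hpi : (0 : ℝ) < 2 * Real.pi := by positivity
  set A : Set (ℝ × ℝ) := Ioo x₀ x₁ ×ˢ univ with hA
  have hAm : MeasurableSet A := measurableSet_Ioo.prod MeasurableSet.univ
  set U : ℝ × ℝ → ℝ := A.indicator (fun p => u p.1 p.2) with hU
  have hUi : ∀ a b : ℝ, IntegrableOn U (univ ×ˢ Ioc a b) volume := by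
    intro c d
    rw [IntegrableOn, hU, integrable_indicator_iff hAm, IntegrableOn,
      Measure.restrict_restrict hAm]
    refine (hint c (d + 1)).mono_set ?_
    rintro ⟨x, y⟩ ⟨⟨hx1, -⟩, -, hy⟩
    exact ⟨hx1, hy.1, lt_of_le_of_lt hy.2 (by linarith)⟩
  have hUp : ∀ x θ, U (x, θ + 2 * Real.pi) = U (x, θ) := by
    intro x θ
    simp only [hU, indicator, hA, mem_prod, mem_univ, and_true]
    split_ifs
    · exact hper x θ
    · rfl
  obtain ⟨K0, hK0⟩ := bdd_of_compact hω hs
  obtain ⟨K1, hK1⟩ := bdd_of_per hψ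
  set K := max K0 K1 with hK
  have hKω : ∀ x, |ω x| ≤ K ∧ |deriv ω x| ≤ K ∧ |deriv (deriv ω) x| ≤ K := fun x =>
    ⟨(hK0 x).1.trans (le_max_left _ _), (hK0 x).2.1.trans (le_max_left _ _),
      (hK0 x).2.2.trans (le_max_left _ _)⟩
  have hKψ : ∀ x, |ψ x| ≤ K ∧ |deriv ψ x| ≤ K ∧ |deriv (deriv ψ) x| ≤ K := fun x =>
    ⟨(hK1 x).1.trans (le_max_right _ _), (hK1 x).2.1.trans (le_max_right _ _),
      (hK1 x).2.2.trans (le_max_right _ _)⟩
  have hKnn : 0 ≤ K := (abs_nonneg _).trans (hKω 0).1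
  have hcd : ∀ {f : ℝ → ℝ}, ContDiff ℝ 2 f → Continuous (deriv (deriv f)) := by
    intro f hf
    have h1 : ContDiff ℝ 1 (deriv f) := by
      have : ContDiff ℝ (1 + 1) f := by rw [one_add_one_eq_two]; exact hf
      exact (contDiff_succ_iff_deriv.mp this).2.2
    exact h1.continuous_deriv le_rfl
  have hωc := hω.continuous
  have hψc := hψ.1.continuous
  have hω2c := hcd hω
  have hψ2c := hcd hψ.1
  have hφc : Continuous (fun p : ℝ × ℝ => ω p.1 * ψ p.2) := by fun_prop
  have hφb : ∀ p : ℝ × ℝ, |ω p.1 * ψ p.2| ≤ K * K := by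
    intro p
    rw [abs_mul]
    exact mul_le_mul (hKω _).1 (hKψ _).1 (abs_nonneg _) hKnn
  have hφp : ∀ x θ : ℝ, ω (x, θ + 2 * Real.pi).1 * ψ (x, θ + 2 * Real.pi).2
      = ω (x, θ).1 * ψ (x, θ).2 := by
    intro x θ
    simp only [hψ.2 θ]
  have hU0 : Integrable U mu := by simpa using integrable_translate hUi 0
  -- the averaged difference quotient
  let D : ℝ → ℝ × ℝ → ℝ := fun h p =>
    ((∫ t in (0)..(2 * Real.pi), ω (p.1 - h * Real.cos t) * ψ (p.2 - h * Real.sin t))
      - 2 * Real.pi * (ω p.1 * ψ p.2)) / h ^ 2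
  have hDb : ∀ h : ℝ, h ≠ 0 → ∀ p, |D h p| ≤ 2 * Real.pi * (4 * K ^ 2) := by
    intro h hh p
    have hh2 : 0 < h ^ 2 := by positivity
    simp only [D]
    rw [abs_div, abs_of_pos hh2, div_le_iff₀ hh2]
    exact (avg_bound_lim hω hψ.1 hKω hKψ p.1 p.2).1 h
  have hDl : ∀ p : ℝ × ℝ, Tendsto (fun h => D h p) (𝓝[>] 0)
      (𝓝 (Real.pi / 2 * (ω p.1 * deriv (deriv ψ) p.2 + deriv (deriv ω) p.1 * ψ p.2))) := by
    intro p
    exact (avg_bound_lim hω hψ.1 hKω hKψ p.1 p.2).2.mono_left
      (nhdsWithin_mono 0 (fun x hx => ne_of_gt hx))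
  have hDm : ∀ h : ℝ, Continuous (D h) := by
    intro h
    simp only [D]
    refine Continuous.div_const (Continuous.sub ?_ (by fun_prop)) _
    apply intervalIntegral.continuous_parametric_intervalIntegral_of_continuous'
    unfold Function.uncurry
    fun_prop
  -- positivity at small h
  have hpos : ∀ᶠ h : ℝ in 𝓝[>] 0, 0 ≤ ∫ p, U p * D h p ∂mu := by
    have hmin : 0 < min (a - x₀) (x₁ - b) := lt_min (by linarith) (by linarith)
    filter_upwards [Ioo_mem_nhdsGT hmin] with h hh
    have h0 : 0 < h := hh.1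
    have h1 : h < a - x₀ := lt_of_lt_of_le hh.2 (min_le_left _ _)
    have h2 : h < x₁ - b := lt_of_lt_of_le hh.2 (min_le_right _ _)
    have hs' : ∀ᵐ p : ℝ × ℝ, ω p.1 * ψ p.2 * ((2 * Real.pi) * U p)
        ≤ ω p.1 * ψ p.2 * ∫ t in (0)..(2 * Real.pi), U (p + ev h t) := by
      filter_upwards [hsub h h0] with p hp
      by_cases hpab : p.1 ∈ Icc a b
      · have i1 : x₀ < p.1 - h := by linarith [hpab.1]
        have i2 : p.1 + h < x₁ := by linarith [hpab.2]
        have hp' := hp i1 i2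
        have eU : U p = u p.1 p.2 := by
          simp only [hU, indicator, hA, mem_prod, mem_univ, and_true]
          rw [if_pos]
          exact ⟨by linarith, by linarith⟩
        have eUt : ∀ t : ℝ, U (p + ev h t) = u (p.1 + h * Real.cos t) (p.2 + h * Real.sin t) := by
          intro t
          simp only [hU, indicator, hA, mem_prod, mem_univ, and_true]
          rw [if_pos]
          · rfl
          · simp only [Prod.fst_add, ev]
            have c1 := Real.cos_le_one t
            have c2 := Real.neg_one_le_cos t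
            constructor
            · nlinarith
            · nlinarith
        simp only [eU, eUt]
        refine mul_le_mul_of_nonneg_left ?_ (mul_nonneg (hω0 _) (hψ0 _))
        have := mul_le_mul_of_nonneg_left hp' hpi.le
        rwa [← mul_assoc, mul_one_div_cancel hpi.ne', one_mul] at this
      · simp [hs p.1 hpab]
    have := main_h (φ := fun p => ω p.1 * ψ p.2) hUi hUp hφc hφb hφp h hs'
    have e : ∫ p, U p * D h p ∂mu = (∫ p, U p * ((∫ t in (0)..(2 * Real.pi),
        ω (p - ev h t).1 * ψ (p - ev h t).2) - (2 * Real.pi) * (ω p.1 * ψ p.2)) ∂mu) / h ^ 2 := by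
      rw [← integral_div]
      congr 1
      funext p
      simp only [D, ev, Prod.fst_sub, Prod.snd_sub]
      ring
    rw [e]
    positivity
  have hlim : Tendsto (fun h => ∫ p, U p * D h p ∂mu) (𝓝[>] 0)
      (𝓝 (∫ p, U p * (Real.pi / 2 * (ω p.1 * deriv (deriv ψ) p.2
        + deriv (deriv ω) p.1 * ψ p.2)) ∂mu)) := by
    refine tendsto_integral_filter_of_dominated_convergence
      (fun p => |U p| * (2 * Real.pi * (4 * K ^ 2))) ?_ ?_ ?_ ?_
    · refine Filter.Eventually.of_forall fun h => ?_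
      exact hU0.aestronglyMeasurable.mul (hDm h).aestronglyMeasurable
    · filter_upwards [self_mem_nhdsWithin] with h hh
      refine Filter.Eventually.of_forall fun p => ?_
      rw [Real.norm_eq_abs, abs_mul]
      exact mul_le_mul_of_nonneg_left (hDb h (ne_of_gt hh) p) (abs_nonneg _)
    · exact hU0.abs.mul_const _
    · exact Filter.Eventually.of_forall fun p => (hDl p).const_mul (U p)
  have hfin := ge_of_tendsto hlim hpos
  -- identify with JJ
  have hJ : ∫ p, U p * (ω p.1 * deriv (deriv ψ) p.2 + deriv (deriv ω) p.1 * ψ p.2) ∂mu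
      = JJ u ω ψ := by
    have hi : Integrable (fun p => U p * (ω p.1 * deriv (deriv ψ) p.2
        + deriv (deriv ω) p.1 * ψ p.2)) mu := by
      refine hU0.mul_bdd (c := K * K + K * K) ?_ ?_
      · exact (by fun_prop : Continuous fun p : ℝ × ℝ => ω p.1 * deriv (deriv ψ) p.2
          + deriv (deriv ω) p.1 * ψ p.2).aestronglyMeasurable
      · refine Filter.Eventually.of_forall fun p => ?_
        rw [Real.norm_eq_abs]
        refine (abs_add_le _ _).trans ?_
        rw [abs_mul, abs_mul]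
        exact add_le_add (mul_le_mul (hKω _).1 (hKψ _).2.2 (abs_nonneg _) hKnn)
          (mul_le_mul (hKω _).2.2 (hKψ _).1 (abs_nonneg _) hKnn)
    unfold mu at *
    rw [integral_prod _ hi, JJ]
    congr 1
    funext x
    rw [intervalIntegral.integral_of_le hpi.le]
    by_cases hxx : x ∈ Ioo x₀ x₁
    · congr 1
      funext θ
      simp only [hU, indicator, hA, mem_prod, mem_univ, and_true]
      rw [if_pos hxx]
    · have hnx : x ∉ Icc a b := by
        intro hx
        exact hxx ⟨by linarith [hx.1], by linarith [hx.2]⟩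
      simp [hs x hnx, dd_zero hs hnx]
  have e2 : ∫ p, U p * (Real.pi / 2 * (ω p.1 * deriv (deriv ψ) p.2
        + deriv (deriv ω) p.1 * ψ p.2)) ∂mu = Real.pi / 2 * JJ u ω ψ := by
    rw [← hJ, ← integral_const_mul]
    congr 1
    funext p
    ring
  rw [e2] at hfin
  have hp2 : 0 < Real.pi / 2 := by positivity
  exact nonneg_of_mul_nonneg_right hfin hp2

end DW24
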