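import Pool.Agent.DW24.B

/-!
Module B2: almost everywhere non-vanishing and integrability of `log ‖P (e^ζ)‖` in the
log-plane, and the resulting positivity of `JJ` for `max (log ‖P (e^ζ)‖) (log ‖Q (e^ζ)‖)`.
-/

set_option autoImplicit false

open MeasureTheory Filter Topology Set

namespace DW24

theorem exp_mem_ball {R x : ℝ} (hx : x < R) (θ : ℝ) :
    Complex.exp (x + θ * Complex.I) ∈ Metric.ball (0 : ℂ) (Real.exp R) := by
  rw [mem_ball_zero_iff, Complex.norm_exp, Real.exp_lt_exp]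
  simpa using hx

theorem exp_eq_circleMap (x θ : ℝ) :
    Complex.exp (x + θ * Complex.I) = circleMap 0 (Real.exp x) θ := by
  rw [circleMap, Complex.exp_add, Complex.ofReal_exp, zero_add]

theorem exp_add_two_pi (x θ : ℝ) :
    Complex.exp (x + (θ + 2 * Real.pi : ℝ) * Complex.I) = Complex.exp (x + θ * Complex.I) := by
  have : (x : ℂ) + (θ + 2 * Real.pi : ℝ) * Complex.I
      = x + θ * Complex.I + 2 * Real.pi * Complex.I := by
    push_cast; ring
  rw [this, Complex.exp_add, Complex.exp_two_pi_mul_I, mul_one]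

/-- a.e. non-vanishing in the log-plane -/
theorem ae_ne_zero {P : ℂ → ℂ} {R : ℝ} (hP : AnalyticOnNhd ℂ P (Metric.ball 0 (Real.exp R)))
    (h0 : ∃ z ∈ Metric.ball (0 : ℂ) (Real.exp R), P z ≠ 0) :
    ∀ᵐ p : ℝ × ℝ, p.1 < R → P (Complex.exp (p.1 + p.2 * Complex.I)) ≠ 0 := by
  set H : Set ℂ := {ζ | ζ.re < R} with hH
  have hHo : IsOpen H := isOpen_lt Complex.continuous_re continuous_const
  have hHc : IsPreconnected H := (convex_halfSpace_re_lt R).isPreconnected
  have hg : AnalyticOnNhd ℂ (fun ζ => P (Complex.exp ζ)) H := by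
    intro ζ hζ
    refine (hP _ ?_).comp analyticAt_cexp
    rw [mem_ball_zero_iff, Complex.norm_exp, Real.exp_lt_exp]
    exact hζ
  have hcase := hg.eqOn_zero_or_eventually_ne_zero_of_preconnected hHc
  have hev : ∀ᶠ ζ in codiscreteWithin H, P (Complex.exp ζ) ≠ 0 := by
    rcases hcase with h | h
    · exfalso
      -- a nonzero point with nonzero value
      have : ∃ z ∈ Metric.ball (0 : ℂ) (Real.exp R), z ≠ 0 ∧ P z ≠ 0 := by
        obtain ⟨z, hz, hPz⟩ := h0
        by_cases hz0 : z = 0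
        · subst hz0
          have hc : ContinuousAt P 0 := (hP 0 hz).continuousAt
          have h1 : ∀ᶠ w in 𝓝 (0 : ℂ), P w ≠ 0 := hc.eventually_ne hPz
          have h2 : ∀ᶠ w in 𝓝 (0 : ℂ), w ∈ Metric.ball (0 : ℂ) (Real.exp R) :=
            Metric.isOpen_ball.mem_nhds hz
          have h3 : ∀ᶠ w in 𝓝[≠] (0 : ℂ), w ≠ 0 := self_mem_nhdsWithin
          obtain ⟨w, ⟨hw1, hw2⟩, hw3⟩ :=
            (((h1.and h2).filter_mono nhdsWithin_le_nhds).and h3).exists
          exact ⟨w, hw2, hw3, hw1⟩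
        · exact ⟨z, hz, hz0, hPz⟩
      obtain ⟨z, hz, hz0, hPz⟩ := this
      have hlog : Complex.log z ∈ H := by
        rw [hH]
        change (Complex.log z).re < R
        rw [Complex.log_re, Real.log_lt_iff_lt_exp (norm_pos_iff.mpr hz0)]
        simpa using hz
      have := h hlog
      simp only [Pi.zero_apply, Complex.exp_log hz0] at this
      exact hPz this
    · exact h
  have hae : ∀ᵐ ζ ∂(volume : Measure ℂ), ζ ∈ H → P (Complex.exp ζ) ≠ 0 := by
    rw [← ae_restrict_iff' hHo.measurableSet]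
    exact ae_restrict_le_codiscreteWithin hHo.measurableSet hev
  have hmp := Complex.volume_preserving_equiv_real_prod.symm
  have := hmp.quasiMeasurePreserving.ae hae
  filter_upwards [this] with p hp hpR
  have e : (Complex.measurableEquivRealProd.symm p : ℂ) = p.1 + p.2 * Complex.I := by
    rw [Complex.measurableEquivRealProd_symm_apply, Complex.mk_eq_add_mul_I]
  rw [e] at hp
  apply hp
  rw [hH]
  simpa using hpR

/-- slices of `log ‖P(e^ζ)‖` are interval integrable -/
theorem slice_integrable {P : ℂ → ℂ} {R : ℝ}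
    (hP : AnalyticOnNhd ℂ P (Metric.ball 0 (Real.exp R))) {x : ℝ} (hx : x < R) (a b : ℝ) :
    IntervalIntegrable (fun θ : ℝ => Real.log ‖P (Complex.exp (x + θ * Complex.I))‖) volume a b := by
  have hper : Function.Periodic
      (fun θ : ℝ => Real.log ‖P (Complex.exp (x + θ * Complex.I))‖) (2 * Real.pi) := by
    intro θ
    simp only [exp_add_two_pi]
  refine hper.intervalIntegrable₀ (by positivity) ?_ a b
  have hsub : Metric.sphere (0 : ℂ) (Real.exp x) ⊆ Metric.ball 0 (Real.exp R) := by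
    intro z hz
    rw [mem_sphere_zero_iff_norm] at hz
    rw [mem_ball_zero_iff, hz, Real.exp_lt_exp]
    exact hx
  have := (hP.mono hsub).meromorphicOn.circleIntegrable_log_norm_of_nonneg (Real.exp_pos x).le
  unfold CircleIntegrable at this
  simpa only [exp_eq_circleMap] using this

/-- uniform lower bound for the circle means -/
theorem mean_lower {P : ℂ → ℂ} {R : ℝ}
    (hP : AnalyticOnNhd ℂ P (Metric.ball 0 (Real.exp R))) (x₀ : ℝ) :
    ∃ c : ℝ, ∀ x : ℝ, x₀ ≤ x → x < R →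
      c ≤ ∫ θ in (0)..(2 * Real.pi), Real.log ‖P (Complex.exp (x + θ * Complex.I))‖ := by
  set D : ℝ := ((analyticOrderAt P 0).toNat : ℝ) with hD
  refine ⟨2 * Real.pi * (D * (-|x₀|) + Real.log ‖meromorphicTrailingCoeffAt P 0‖), ?_⟩
  intro x hx0 hxR
  have hpi : 0 < 2 * Real.pi := by positivity
  have hr : 0 < Real.exp x := Real.exp_pos x
  have hsub : Metric.closedBall (0 : ℂ) |Real.exp x| ⊆ Metric.ball 0 (Real.exp R) := by
    intro z hz
    rw [mem_closedBall_zero_iff, abs_of_pos hr] at hz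
    rw [mem_ball_zero_iff]
    exact lt_of_le_of_lt hz (Real.exp_lt_exp.mpr hxR)
  have hP' := hP.mono hsub
  have key := hP'.meromorphicOn.circleAverage_log_norm hr.ne'
  have hS : 0 ≤ ∑ᶠ u, ((MeromorphicOn.divisor P (Metric.closedBall 0 |Real.exp x|)) u : ℝ)
      * Real.log (Real.exp x * ‖0 - u‖⁻¹) := by
    apply finsum_nonneg
    intro u
    by_cases h1 : u ∈ Metric.closedBall (0 : ℂ) |Real.exp x|
    · refine mul_nonneg (mod_cast MeromorphicOn.AnalyticOnNhd.divisor_nonneg hP' ..) ?_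
      by_cases h3 : u = 0
      · simp [h3]
      · have hpos : 0 < ‖(0 : ℂ) - u‖ := by
          rw [norm_pos_iff, sub_ne_zero]; exact fun h => h3 h.symm
        apply Real.log_nonneg
        rw [← div_eq_mul_inv, le_div_iff₀ hpos, one_mul]
        have := Metric.mem_closedBall.mp h1
        rwa [dist_comm, dist_eq_norm, abs_of_pos hr] at this
    · simp [Function.locallyFinsuppWithin.apply_eq_zero_of_notMem _ h1]
  have hdiv : ((MeromorphicOn.divisor P (Metric.closedBall 0 |Real.exp x|)) 0 : ℝ) = D := by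
    rw [MeromorphicOn.AnalyticOnNhd.divisor_apply hP' (by simp [hr.le]), hD]
    cases analyticOrderAt P 0 <;> simp
  rw [hdiv, Real.log_exp] at key
  have hx1 : -|x₀| ≤ x := (neg_abs_le x₀).trans hx0
  have hDnn : 0 ≤ D := by positivity
  have hmul : D * (-|x₀|) ≤ D * x := mul_le_mul_of_nonneg_left hx1 hDnn
  have hge : D * (-|x₀|) + Real.log ‖meromorphicTrailingCoeffAt P 0‖
      ≤ Real.circleAverage (fun z => Real.log ‖P z‖) 0 (Real.exp x) := by
    rw [key]; linarith
  have e : ∫ θ in (0)..(2 * Real.pi), Real.log ‖P (Complex.exp (x + θ * Complex.I))‖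
      = 2 * Real.pi * Real.circleAverage (fun z => Real.log ‖P z‖) 0 (Real.exp x) := by
    rw [Real.circleAverage, smul_eq_mul, ← mul_assoc, mul_inv_cancel₀ hpi.ne', one_mul]
    simp only [exp_eq_circleMap]
  rw [e]
  exact mul_le_mul_of_nonneg_left hge hpi.le

/-- uniform bound for the circle means of `|log ‖P‖|` -/
theorem mean_abs_bound {P : ℂ → ℂ} {R : ℝ}
    (hP : AnalyticOnNhd ℂ P (Metric.ball 0 (Real.exp R))) (x₀ : ℝ) {x₁ : ℝ} (hx₁ : x₁ < R) :
    ∃ C : ℝ, ∀ x : ℝ, x₀ ≤ x → x ≤ x₁ →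
      ∫ θ in (0)..(2 * Real.pi), |Real.log ‖P (Complex.exp (x + θ * Complex.I))‖| ≤ C := by
  obtain ⟨c, hc⟩ := mean_lower hP x₀
  have hcomp : IsCompact (Metric.closedBall (0 : ℂ) (Real.exp x₁)) := isCompact_closedBall _ _
  have hsub : Metric.closedBall (0 : ℂ) (Real.exp x₁) ⊆ Metric.ball 0 (Real.exp R) :=
    Metric.closedBall_subset_ball (Real.exp_lt_exp.mpr hx₁)
  have hcont : ContinuousOn P (Metric.closedBall (0 : ℂ) (Real.exp x₁)) :=
    (hP.mono hsub).continuousOn
  obtain ⟨M, hM⟩ := hcomp.exists_bound_of_continuousOn hcont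
  set M' := max M 1 with hM'
  have hM1 : 1 ≤ M' := le_max_right _ _
  have hlM : 0 ≤ Real.log M' := Real.log_nonneg hM1
  have hpi : 0 < 2 * Real.pi := by positivity
  refine ⟨2 * Real.pi * (2 * Real.log M') - c, ?_⟩
  intro x hx0 hx1
  have hxR : x < R := lt_of_le_of_lt hx1 hx₁
  have hup : ∀ θ : ℝ, Real.log ‖P (Complex.exp (x + θ * Complex.I))‖ ≤ Real.log M' := by
    intro θ
    have hmem : Complex.exp (x + θ * Complex.I) ∈ Metric.closedBall (0 : ℂ) (Real.exp x₁) := by
      rw [mem_closedBall_zero_iff, Complex.norm_exp, Real.exp_le_exp]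
      simpa using hx1
    have hb := (hM _ hmem).trans (le_max_left M 1)
    rcases eq_or_lt_of_le (norm_nonneg (P (Complex.exp (x + θ * Complex.I)))) with h | h
    · rw [← h, Real.log_zero]; exact hlM
    · exact Real.log_le_log h hb
  have hint := slice_integrable hP hxR 0 (2 * Real.pi)
  have hbd : ∀ θ : ℝ, |Real.log ‖P (Complex.exp (x + θ * Complex.I))‖|
      ≤ 2 * Real.log M' - Real.log ‖P (Complex.exp (x + θ * Complex.I))‖ := by
    intro θ
    have := hup θ
    rw [abs_le]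
    constructor <;> linarith
  calc _ ≤ ∫ θ in (0)..(2 * Real.pi), (2 * Real.log M'
          - Real.log ‖P (Complex.exp (x + θ * Complex.I))‖) := by
        apply intervalIntegral.integral_mono_on hpi.le hint.abs
          (intervalIntegrable_const.sub hint)
        intro θ _
        exact hbd θ
    _ = 2 * Real.pi * (2 * Real.log M')
          - ∫ θ in (0)..(2 * Real.pi), Real.log ‖P (Complex.exp (x + θ * Complex.I))‖ := by
        rw [intervalIntegral.integral_sub intervalIntegrable_const hint,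
          intervalIntegral.integral_const, sub_zero, smul_eq_mul]
    _ ≤ _ := by
        have := hc x hx0 hxR
        linarith

theorem aesm_log {P : ℂ → ℂ} {R : ℝ} (hP : AnalyticOnNhd ℂ P (Metric.ball 0 (Real.exp R)))
    {x₀ x₁ : ℝ} (hx₁ : x₁ < R) (a b : ℝ) :
    AEStronglyMeasurable (fun p : ℝ × ℝ => Real.log ‖P (Complex.exp (p.1 + p.2 * Complex.I))‖)
      ((volume : Measure (ℝ × ℝ)).restrict (Ioo x₀ x₁ ×ˢ Ioo a b)) := by
  have hm : MeasurableSet (Ioo x₀ x₁ ×ˢ Ioo a b) := measurableSet_Ioo.prod measurableSet_Ioo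
  have hc : ContinuousOn (fun p : ℝ × ℝ => P (Complex.exp (p.1 + p.2 * Complex.I)))
      (Ioo x₀ x₁ ×ˢ Ioo a b) := by
    refine hP.continuousOn.comp (by fun_prop) ?_
    rintro ⟨x, θ⟩ ⟨hx, -⟩
    exact exp_mem_ball (lt_trans hx.2 hx₁) θ
  have h1 : AEStronglyMeasurable (fun p : ℝ × ℝ => P (Complex.exp (p.1 + p.2 * Complex.I)))
      ((volume : Measure (ℝ × ℝ)).restrict (Ioo x₀ x₁ ×ˢ Ioo a b)) :=
    hc.aestronglyMeasurable hm
  exact (Real.measurable_log.comp_aemeasurable h1.norm.aemeasurable).aestronglyMeasurable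

/-- `log ‖P(e^ζ)‖` is integrable on rectangles -/
theorem integrableOn_log {P : ℂ → ℂ} {R : ℝ}
    (hP : AnalyticOnNhd ℂ P (Metric.ball 0 (Real.exp R)))
    (x₀ : ℝ) {x₁ : ℝ} (hx₁ : x₁ < R) (a b : ℝ) :
    IntegrableOn (fun p : ℝ × ℝ => Real.log ‖P (Complex.exp (p.1 + p.2 * Complex.I))‖)
      (Ioo x₀ x₁ ×ˢ Ioo a b) := by
  obtain ⟨C, hC⟩ := mean_abs_bound hP x₀ hx₁
  have hm := aesm_log hP (x₀ := x₀) hx₁ a b
  have hpi : 0 < 2 * Real.pi := by positivity
  obtain ⟨N, hN⟩ := exists_nat_ge ((b - a) / (2 * Real.pi))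
  rw [div_le_iff₀ hpi] at hN
  unfold IntegrableOn
  rw [Measure.volume_eq_prod, ← Measure.prod_restrict] at *
  rw [integrable_prod_iff hm]
  constructor
  · rw [ae_restrict_iff' measurableSet_Ioo]
    refine Filter.Eventually.of_forall fun x hx => ?_
    by_cases hab : a ≤ b
    · have := slice_integrable hP (lt_trans hx.2 hx₁) a b
      rw [intervalIntegrable_iff_integrableOn_Ioo_of_le hab] at this
      exact this
    · rw [Ioo_eq_empty (fun h => hab h.le)]
      simp
  · have hfin : IsFiniteMeasure ((volume : Measure ℝ).restrict (Ioo x₀ x₁)) := inferInstance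
    refine Integrable.mono' (integrable_const (N * C)) hm.norm.integral_prod_right' ?_
    rw [ae_restrict_iff' measurableSet_Ioo]
    refine Filter.Eventually.of_forall fun x hx => ?_
    have hxR : x < R := lt_trans hx.2 hx₁
    rw [Real.norm_eq_abs, abs_of_nonneg (integral_nonneg fun _ => norm_nonneg _)]
    have hper : Function.Periodic
        (fun θ : ℝ => |Real.log ‖P (Complex.exp (x + θ * Complex.I))‖|) (2 * Real.pi) := by
      intro θ
      simp only [exp_add_two_pi]
    have hN0 : (0 : ℝ) ≤ N * (2 * Real.pi) := by positivity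
    have i1 : ∫ θ in Ioo a b, ‖Real.log ‖P (Complex.exp (x + θ * Complex.I))‖‖
        ≤ ∫ θ in a..(a + N * (2 * Real.pi)), |Real.log ‖P (Complex.exp (x + θ * Complex.I))‖| := by
      rw [intervalIntegral.integral_of_le (by linarith)]
      apply setIntegral_mono_set
      · have := (slice_integrable hP hxR a (a + N * (2 * Real.pi))).abs
        rwa [intervalIntegrable_iff_integrableOn_Ioc_of_le (by linarith)] at this
      · exact Filter.Eventually.of_forall fun _ => abs_nonneg _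
      · apply LE.le.eventuallyLE
        intro θ hθ
        exact ⟨hθ.1, by linarith [hθ.2]⟩
    have i2 : ∫ θ in a..(a + N * (2 * Real.pi)), |Real.log ‖P (Complex.exp (x + θ * Complex.I))‖|
        = N * ∫ θ in (0)..(2 * Real.pi), |Real.log ‖P (Complex.exp (x + θ * Complex.I))‖| := by
      have h1 := hper.intervalIntegral_add_zsmul_eq (N : ℤ) a
        (fun t₁ t₂ => (slice_integrable hP hxR t₁ t₂).abs)
      have h2 := hper.intervalIntegral_add_eq a 0
      simp only [zsmul_eq_mul, Int.cast_natCast] at h1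
      rw [h1, h2, zero_add]
    refine i1.trans ?_
    rw [i2]
    exact mul_le_mul_of_nonneg_left (hC x hx.1.le hx.2.le) (Nat.cast_nonneg N)

/-- positivity of `JJ` for `max (log ‖P(e^ζ)‖) (log ‖Q(e^ζ)‖)` -/
theorem JJ_max_nonneg {P Q : ℂ → ℂ} {R : ℝ}
    (hP : AnalyticOnNhd ℂ P (Metric.ball 0 (Real.exp R)))
    (hQ : AnalyticOnNhd ℂ Q (Metric.ball 0 (Real.exp R)))
    (hP0 : ∃ z ∈ Metric.ball (0 : ℂ) (Real.exp R), P z ≠ 0)
    (hQ0 : ∃ z ∈ Metric.ball (0 : ℂ) (Real.exp R), Q z ≠ 0)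
    {ω ψ : ℝ → ℝ} (hω : ContDiff ℝ 2 ω) {a b : ℝ} (hb : b < R)
    (hs : ∀ x, x ∉ Icc a b → ω x = 0) (hω0 : ∀ x, 0 ≤ ω x) (hψ : Tst ψ) (hψ0 : ∀ θ, 0 ≤ ψ θ) :
    0 ≤ JJ (fun x θ => max (Real.log ‖P (Complex.exp (x + θ * Complex.I))‖)
      (Real.log ‖Q (Complex.exp (x + θ * Complex.I))‖)) ω ψ := by
  have hbR : b < (b + R) / 2 := by linarith
  have hR : (b + R) / 2 < R := by linarith
  refine JJ_nonneg (x₀ := min a b - 1) (x₁ := (b + R) / 2) ?_ ?_ ?_ ?_ hω ?_ hω0 hψ hψ0
  · have := min_le_right a b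
    linarith
  · intro x θ
    simp only [exp_add_two_pi]
  · intro c d
    exact (integrableOn_log hP _ hR c d).sup (integrableOn_log hQ _ hR c d)
  · intro h hh
    filter_upwards [ae_ne_zero hP hP0, ae_ne_zero hQ hQ0] with p hp hq _ h2
    have hpR : p.1 < R := by linarith
    exact submean_max hP hQ hh (by linarith) (hp hpR) (hq hpR)
  · exact ⟨a, b, by linarith [min_le_left a b], hbR, hs⟩

/-- positivity of `JJ` for `log ‖P(e^ζ)‖` -/
theorem JJ_log_nonneg {P : ℂ → ℂ} {R : ℝ}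
    (hP : AnalyticOnNhd ℂ P (Metric.ball 0 (Real.exp R)))
    (hP0 : ∃ z ∈ Metric.ball (0 : ℂ) (Real.exp R), P z ≠ 0)
    {ω ψ : ℝ → ℝ} (hω : ContDiff ℝ 2 ω) {a b : ℝ} (hb : b < R)
    (hs : ∀ x, x ∉ Icc a b → ω x = 0) (hω0 : ∀ x, 0 ≤ ω x) (hψ : Tst ψ) (hψ0 : ∀ θ, 0 ≤ ψ θ) :
    0 ≤ JJ (fun x θ => Real.log ‖P (Complex.exp (x + θ * Complex.I))‖) ω ψ := by
  have := JJ_max_nonneg hP hP hP0 hP0 hω hb hs hω0 hψ hψ0
  simpa only [max_self] using this

end DW24
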