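import Pool.Agent.DW24.DefsS
import Pool.Agent.DW24.B

/-!
Module BS: weak subharmonicity in log-coordinates, tested against the twisted functions
`ω(x) ψ(θ - s (x - c))`.
-/

set_option autoImplicit false

open MeasureTheory Filter Topology Set

namespace DW24

theorem d_zero {ω : ℝ → ℝ} {a b : ℝ} (hωs : ∀ x, x ∉ Icc a b → ω x = 0) {x : ℝ}
    (hx : x ∉ Icc a b) : deriv ω x = 0 := by
  have ho : (Icc a b)ᶜ ∈ 𝓝 x := isClosed_Icc.isOpen_compl.mem_nhds hx
  have h0 : ω =ᶠ[𝓝 x] fun _ => 0 := by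
    filter_upwards [ho] with y hy using hωs y hy
  have h1 := h0.deriv_eq
  simpa using h1

/-- second difference quotient of `ω(x) ψ(θ)` averaged over a circle in skew coordinates -/
theorem avgS_bound_lim {ω ψ : ℝ → ℝ} (hω : ContDiff ℝ 2 ω) (hψ : ContDiff ℝ 2 ψ) {K : ℝ}
    (hK : ∀ x, |ω x| ≤ K ∧ |deriv ω x| ≤ K ∧ |deriv (deriv ω) x| ≤ K)
    (hL : ∀ x, |ψ x| ≤ K ∧ |deriv ψ x| ≤ K ∧ |deriv (deriv ψ) x| ≤ K) (s x θ : ℝ) :
    (∀ h : ℝ, |(∫ t in (0)..(2 * Real.pi), ω (x - h * Real.cos t) *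
          ψ (θ - h * (Real.sin t - s * Real.cos t)))
        - 2 * Real.pi * (ω x * ψ θ)| ≤ (2 * Real.pi * (4 * K ^ 2 * (1 + |s|) ^ 2)) * h ^ 2) ∧
    Tendsto (fun h : ℝ => ((∫ t in (0)..(2 * Real.pi),
        ω (x - h * Real.cos t) * ψ (θ - h * (Real.sin t - s * Real.cos t)))
          - 2 * Real.pi * (ω x * ψ θ)) / h ^ 2)
      (𝓝[≠] 0) (𝓝 (Real.pi / 2 * (deriv (deriv ω) x * ψ θ - 2 * s * (deriv ω x * deriv ψ θ)
        + (1 + s ^ 2) * (ω x * deriv (deriv ψ) θ)))) := by
  have hpi : (0 : ℝ) ≤ 2 * Real.pi := by positivity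
  have hK0 : 0 ≤ K := (abs_nonneg _).trans (hK 0).1
  have hd : ∀ {f : ℝ → ℝ}, ContDiff ℝ 2 f → (∀ s, HasDerivAt f (deriv f s) s) ∧
      (∀ s, HasDerivAt (deriv f) (deriv (deriv f) s) s) := by
    intro f hf
    have h1 : ContDiff ℝ 1 (deriv f) := by
      have : ContDiff ℝ (1 + 1) f := by rw [one_add_one_eq_two]; exact hf
      exact (contDiff_succ_iff_deriv.mp this).2.2
    exact ⟨fun s => (hf.differentiable (by norm_num) s).hasDerivAt,
      fun s => (h1.differentiable (by norm_num) s).hasDerivAt⟩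
  obtain ⟨w1, w2⟩ := hd hω
  obtain ⟨p1, p2⟩ := hd hψ
  set B : ℝ := 1 + |s| with hB
  have hB1 : 1 ≤ B := by have := abs_nonneg s; linarith
  let β : ℝ → ℝ := fun t => Real.sin t - s * Real.cos t
  have hβc : Continuous β := by simp only [β]; fun_prop
  have hβb : ∀ t, |β t| ≤ B := by
    intro t
    refine (abs_sub _ _).trans ?_
    rw [abs_mul]
    have h1 := Real.abs_sin_le_one t
    have h2 := Real.abs_cos_le_one t
    have h3 : |s| * |Real.cos t| ≤ |s| * 1 := mul_le_mul_of_nonneg_left h2 (abs_nonneg _)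
    linarith
  -- one-variable restriction
  let g : ℝ → ℝ → ℝ := fun t r => ω (x - r * Real.cos t) * ψ (θ - r * β t)
  let g1 : ℝ → ℝ → ℝ := fun t r =>
    deriv ω (x - r * Real.cos t) * (-Real.cos t) * ψ (θ - r * β t)
      + ω (x - r * Real.cos t) * (deriv ψ (θ - r * β t) * (-β t))
  let g2 : ℝ → ℝ → ℝ := fun t r =>
    deriv (deriv ω) (x - r * Real.cos t) * (-Real.cos t) * (-Real.cos t) * ψ (θ - r * β t)
      + deriv ω (x - r * Real.cos t) * (-Real.cos t) * (deriv ψ (θ - r * β t) * (-β t))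
      + (deriv ω (x - r * Real.cos t) * (-Real.cos t) * (deriv ψ (θ - r * β t) * (-β t))
      + ω (x - r * Real.cos t) * (deriv (deriv ψ) (θ - r * β t) * (-β t) * (-β t)))
  have li : ∀ (y c s : ℝ), HasDerivAt (fun s => y - s * c) (-c) s := by
    intro y c s
    simpa using ((hasDerivAt_id s).mul_const c).const_sub y
  have hg : ∀ t r, HasDerivAt (g t) (g1 t r) r := by
    intro t r
    exact ((w1 _).comp r (li x (Real.cos t) r)).mul ((p1 _).comp r (li θ (β t) r))
  have hg1 : ∀ t r, HasDerivAt (g1 t) (g2 t r) r := by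
    intro t r
    exact ((((w2 _).comp r (li x (Real.cos t) r)).mul_const (-Real.cos t)).mul
      ((p1 _).comp r (li θ (β t) r))).add
      (((w1 _).comp r (li x (Real.cos t) r)).mul
      (((p2 _).comp r (li θ (β t) r)).mul_const (-β t)))
  have hg2 : ∀ t r, |g2 t r| ≤ 4 * K ^ 2 * B ^ 2 := by
    intro t r
    have c1 : |Real.cos t| ≤ B := (Real.abs_cos_le_one t).trans hB1
    have s1 := hβb t
    have A0 := (hK (x - r * Real.cos t)).1
    have A1 := (hK (x - r * Real.cos t)).2.1
    have A2 := (hK (x - r * Real.cos t)).2.2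
    have B0 := (hL (θ - r * β t)).1
    have B1 := (hL (θ - r * β t)).2.1
    have B2 := (hL (θ - r * β t)).2.2
    have mm : ∀ {a b c d : ℝ}, |a| ≤ K → |b| ≤ B → |c| ≤ B → |d| ≤ K →
        |a * d * (b * c)| ≤ K ^ 2 * B ^ 2 := by
      intro a b c d ha hb hc hd
      rw [abs_mul, abs_mul, abs_mul]
      calc |a| * |d| * (|b| * |c|) ≤ K * K * (B * B) := by gcongr
        _ = K ^ 2 * B ^ 2 := by ring
    have t1 := mm A2 c1 c1 B0
    have t2 := mm A1 c1 s1 B1
    have t3 := mm A0 s1 s1 B2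
    have e : g2 t r = deriv (deriv ω) (x - r * Real.cos t) * ψ (θ - r * β t)
          * (Real.cos t * Real.cos t)
        + 2 * (deriv ω (x - r * Real.cos t) * deriv ψ (θ - r * β t)
          * (Real.cos t * β t))
        + ω (x - r * Real.cos t) * deriv (deriv ψ) (θ - r * β t)
          * (β t * β t) := by
      simp only [g2]; ring
    rw [e]
    refine (abs_add_le _ _).trans ?_
    refine (add_le_add (abs_add_le _ _) le_rfl).trans ?_
    rw [abs_mul (2 : ℝ)]
    rw [abs_two]
    linarith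
  have hωc := hω.continuous
  have hψc := hψ.continuous
  have hgc : ∀ r, Continuous (fun t => g t r) := by
    intro r
    simp only [g]
    fun_prop
  have hg1c : Continuous (fun t => g1 t 0) := by
    simp only [g1]
    simp only [zero_mul, sub_zero]
    fun_prop
  have hg10 : ∫ t in (0)..(2 * Real.pi), g1 t 0 = 0 := by
    have : ∀ t, g1 t 0 = (-(deriv ω x * ψ θ) + s * (ω x * deriv ψ θ)) * Real.cos t
        + (-(ω x * deriv ψ θ)) * Real.sin t := by
      intro t; simp only [g1, β, zero_mul, sub_zero]; ring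
    simp only [this]
    rw [intervalIntegral.integral_add, intervalIntegral.integral_const_mul,
      intervalIntegral.integral_const_mul, int_cos, int_sin]
    · ring
    · exact (Real.continuous_cos.const_mul _).intervalIntegrable _ _
    · exact (Real.continuous_sin.const_mul _).intervalIntegrable _ _
  have hrep : ∀ h : ℝ, (∫ t in (0)..(2 * Real.pi),
        ω (x - h * Real.cos t) * ψ (θ - h * (Real.sin t - s * Real.cos t)))
          - 2 * Real.pi * (ω x * ψ θ)
      = ∫ t in (0)..(2 * Real.pi), (g t h - g t 0 - g1 t 0 * h) := by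
    intro h
    rw [intervalIntegral.integral_sub, intervalIntegral.integral_sub,
      intervalIntegral.integral_mul_const, hg10]
    · have : ∀ t, g t 0 = ω x * ψ θ := by intro t; simp [g]
      simp only [this]
      rw [intervalIntegral.integral_const]
      simp only [g, β, smul_eq_mul]
      ring
    · exact (hgc h).intervalIntegrable _ _
    · exact (hgc 0).intervalIntegrable _ _
    · exact ((hgc h).sub (hgc 0)).intervalIntegrable _ _
    · exact (hg1c.mul_const h).intervalIntegrable _ _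
  refine ⟨fun h => ?_, ?_⟩
  · rw [hrep h]
    have := intervalIntegral.norm_integral_le_of_norm_le_const (a := 0) (b := 2 * Real.pi)
      (f := fun t => g t h - g t 0 - g1 t 0 * h) (C := 4 * K ^ 2 * B ^ 2 * h ^ 2)
      (fun t _ => taylor2_bound (hg t) (hg1 t) (hg2 t) h)
    rw [Real.norm_eq_abs, sub_zero, abs_of_nonneg hpi] at this
    calc _ ≤ _ := this
      _ = _ := by ring
  · have hval : Real.pi / 2 * (deriv (deriv ω) x * ψ θ - 2 * s * (deriv ω x * deriv ψ θ)
        + (1 + s ^ 2) * (ω x * deriv (deriv ψ) θ))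
        = ∫ t in (0)..(2 * Real.pi), g2 t 0 / 2 := by
      have : ∀ t, g2 t 0 / 2 = (deriv (deriv ω) x * ψ θ / 2 - s * (deriv ω x * deriv ψ θ)
            + s ^ 2 * (ω x * deriv (deriv ψ) θ / 2)) * Real.cos t ^ 2
          + (deriv ω x * deriv ψ θ - s * (ω x * deriv (deriv ψ) θ)) * (Real.sin t * Real.cos t)
          + (ω x * deriv (deriv ψ) θ / 2) * Real.sin t ^ 2 := by
        intro t; simp only [g2, β, zero_mul, sub_zero]; ring
      simp only [this]
      rw [intervalIntegral.integral_add, intervalIntegral.integral_add,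
        intervalIntegral.integral_const_mul, intervalIntegral.integral_const_mul,
        intervalIntegral.integral_const_mul, int_cos2, int_sin2, int_sincos]
      · ring
      · exact (by fun_prop : Continuous fun t : ℝ =>
          (deriv (deriv ω) x * ψ θ / 2 - s * (deriv ω x * deriv ψ θ)
            + s ^ 2 * (ω x * deriv (deriv ψ) θ / 2)) * Real.cos t ^ 2).intervalIntegrable _ _
      · exact (by fun_prop : Continuous fun t : ℝ =>
          (deriv ω x * deriv ψ θ - s * (ω x * deriv (deriv ψ) θ))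
            * (Real.sin t * Real.cos t)).intervalIntegrable _ _
      · exact (by fun_prop : Continuous fun t : ℝ =>
          (deriv (deriv ω) x * ψ θ / 2 - s * (deriv ω x * deriv ψ θ)
            + s ^ 2 * (ω x * deriv (deriv ψ) θ / 2)) * Real.cos t ^ 2
          + (deriv ω x * deriv ψ θ - s * (ω x * deriv (deriv ψ) θ))
            * (Real.sin t * Real.cos t)).intervalIntegrable _ _
      · exact (by fun_prop : Continuous fun t : ℝ =>
          (ω x * deriv (deriv ψ) θ / 2) * Real.sin t ^ 2).intervalIntegrable _ _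
    rw [hval]
    have hfun : (fun h : ℝ => ((∫ t in (0)..(2 * Real.pi),
        ω (x - h * Real.cos t) * ψ (θ - h * (Real.sin t - s * Real.cos t)))
          - 2 * Real.pi * (ω x * ψ θ)) / h ^ 2)
      = fun h => ∫ t in (0)..(2 * Real.pi), (g t h - g t 0 - g1 t 0 * h) / h ^ 2 := by
      funext h
      rw [hrep h, intervalIntegral.integral_div]
    rw [hfun]
    refine intervalIntegral.tendsto_integral_filter_of_dominated_convergence
      (fun _ => 4 * K ^ 2 * B ^ 2) ?_ ?_ ?_ ?_
    · refine Filter.Eventually.of_forall fun h => ?_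
      exact (((hgc h).sub (hgc 0)).sub (hg1c.mul_const h)).div_const (h ^ 2)
        |>.aestronglyMeasurable
    · filter_upwards [self_mem_nhdsWithin] with h hh
      refine Filter.Eventually.of_forall fun t _ => ?_
      have hh2 : 0 < h ^ 2 := by
        have : h ≠ 0 := hh
        positivity
      rw [Real.norm_eq_abs, abs_div, abs_of_pos hh2, div_le_iff₀ hh2]
      exact taylor2_bound (hg t) (hg1 t) (hg2 t) h
    · exact intervalIntegrable_const
    · refine Filter.Eventually.of_forall fun t _ => ?_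
      exact taylor2_lim (hg t) (hg1 t 0)

/-- weak subharmonicity in log-coordinates, twisted test functions -/
theorem JS_nonneg {u : ℝ → ℝ → ℝ} {x₀ x₁ : ℝ} (hx : x₀ < x₁)
    (hper : ∀ x, Function.Periodic (u x) (2 * Real.pi))
    (hint : ∀ a b : ℝ, IntegrableOn (fun p : ℝ × ℝ => u p.1 p.2) (Ioo x₀ x₁ ×ˢ Ioo a b))
    (hsub : ∀ h : ℝ, 0 < h → ∀ᵐ p : ℝ × ℝ, x₀ < p.1 - h → p.1 + h < x₁ →
      u p.1 p.2 ≤ (1 / (2 * Real.pi)) *
        ∫ t in (0)..(2 * Real.pi), u (p.1 + h * Real.cos t) (p.2 + h * Real.sin t))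
    {ω ψ : ℝ → ℝ} (hω : ContDiff ℝ 2 ω) (hωs : ∃ a b, x₀ < a ∧ b < x₁ ∧ ∀ x, x ∉ Icc a b → ω x = 0)
    (hω0 : ∀ x, 0 ≤ ω x) (hψ : Tst ψ) (hψ0 : ∀ θ, 0 ≤ ψ θ) (s c : ℝ) :
    0 ≤ JS s c u ω ψ := by
  obtain ⟨a, b, ha, hb, hs⟩ := hωs
  have hpi : (0 : ℝ) < 2 * Real.pi := by positivity
  set A : Set (ℝ × ℝ) := Ioo x₀ x₁ ×ˢ univ with hA
  have hAm : MeasurableSet A := measurableSet_Ioo.prod MeasurableSet.univ
  set U : ℝ × ℝ → ℝ := A.indicator (fun p => u p.1 p.2) with hU
  have hUi : ∀ a b : ℝ, IntegrableOn U (univ ×ˢ Ioc a b) volume := by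
    intro c d
    rw [IntegrableOn, hU, integrable_indicator_iff hAm, IntegrableOn,
      Measure.restrict_restrict hAm]
    refine (hint c (d + 1)).mono_set ?_
    rintro ⟨x, y⟩ ⟨⟨hx1, -⟩, -, hy⟩
    exact ⟨hx1, hy.1, lt_of_le_of_lt hy.2 (by linarith)⟩
  have hUp : ∀ x θ, U (x, θ + 2 * Real.pi) = U (x, θ) := by
    intro x θ
    simp only [hU, indicator, hA, mem_prod, mem_univ, and_true]
    split_ifs
    · exact hper x θ
    · rfl
  obtain ⟨K0, hK0⟩ := bdd_of_compact hω hs
  obtain ⟨K1, hK1⟩ := bdd_of_per hψ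
  set K := max K0 K1 with hK
  have hKω : ∀ x, |ω x| ≤ K ∧ |deriv ω x| ≤ K ∧ |deriv (deriv ω) x| ≤ K := fun x =>
    ⟨(hK0 x).1.trans (le_max_left _ _), (hK0 x).2.1.trans (le_max_left _ _),
      (hK0 x).2.2.trans (le_max_left _ _)⟩
  have hKψ : ∀ x, |ψ x| ≤ K ∧ |deriv ψ x| ≤ K ∧ |deriv (deriv ψ) x| ≤ K := fun x =>
    ⟨(hK1 x).1.trans (le_max_right _ _), (hK1 x).2.1.trans (le_max_right _ _),
      (hK1 x).2.2.trans (le_max_right _ _)⟩
  have hKnn : 0 ≤ K := (abs_nonneg _).trans (hKω 0).1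
  have hcd : ∀ {f : ℝ → ℝ}, ContDiff ℝ 2 f → Continuous (deriv f) ∧ Continuous (deriv (deriv f)) := by
    intro f hf
    have h1 : ContDiff ℝ 1 (deriv f) := by
      have : ContDiff ℝ (1 + 1) f := by rw [one_add_one_eq_two]; exact hf
      exact (contDiff_succ_iff_deriv.mp this).2.2
    exact ⟨h1.continuous, h1.continuous_deriv le_rfl⟩
  have hωc := hω.continuous
  have hψc := hψ.1.continuous
  obtain ⟨hω1c, hω2c⟩ := hcd hω
  obtain ⟨hψ1c, hψ2c⟩ := hcd hψ.1
  have hφc : Continuous (fun p : ℝ × ℝ => ω p.1 * ψ (p.2 - s * (p.1 - c))) := by fun_prop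
  have hφb : ∀ p : ℝ × ℝ, |ω p.1 * ψ (p.2 - s * (p.1 - c))| ≤ K * K := by
    intro p
    rw [abs_mul]
    exact mul_le_mul (hKω _).1 (hKψ _).1 (abs_nonneg _) hKnn
  have hφp : ∀ x θ : ℝ, ω (x, θ + 2 * Real.pi).1 *
        ψ ((x, θ + 2 * Real.pi).2 - s * ((x, θ + 2 * Real.pi).1 - c))
      = ω (x, θ).1 * ψ ((x, θ).2 - s * ((x, θ).1 - c)) := by
    intro x θ
    have e : θ + 2 * Real.pi - s * (x - c) = (θ - s * (x - c)) + 2 * Real.pi := by ring
    simp only [e, hψ.2 _]
  have hU0 : Integrable U mu := by simpa using integrable_translate hUi 0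
  set C0 : ℝ := 2 * Real.pi * (4 * K ^ 2 * (1 + |s|) ^ 2) with hC0
  -- the averaged difference quotient
  let D : ℝ → ℝ × ℝ → ℝ := fun h p =>
    ((∫ t in (0)..(2 * Real.pi), ω (p.1 - h * Real.cos t) *
        ψ ((p.2 - s * (p.1 - c)) - h * (Real.sin t - s * Real.cos t)))
      - 2 * Real.pi * (ω p.1 * ψ (p.2 - s * (p.1 - c)))) / h ^ 2
  have hDb : ∀ h : ℝ, h ≠ 0 → ∀ p, |D h p| ≤ C0 := by
    intro h hh p
    have hh2 : 0 < h ^ 2 := by positivity
    simp only [D]
    rw [abs_div, abs_of_pos hh2, div_le_iff₀ hh2]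
    exact (avgS_bound_lim hω hψ.1 hKω hKψ s p.1 (p.2 - s * (p.1 - c))).1 h
  let Lp : ℝ × ℝ → ℝ := fun p => deriv (deriv ω) p.1 * ψ (p.2 - s * (p.1 - c))
        - 2 * s * (deriv ω p.1 * deriv ψ (p.2 - s * (p.1 - c)))
        + (1 + s ^ 2) * (ω p.1 * deriv (deriv ψ) (p.2 - s * (p.1 - c)))
  have hLpc : Continuous Lp := by simp only [Lp]; fun_prop
  have hDl : ∀ p : ℝ × ℝ, Tendsto (fun h => D h p) (𝓝[>] 0)
      (𝓝 (Real.pi / 2 * Lp p)) := by
    intro p
    exact (avgS_bound_lim hω hψ.1 hKω hKψ s p.1 (p.2 - s * (p.1 - c))).2.mono_left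
      (nhdsWithin_mono 0 (fun x hx => ne_of_gt hx))
  have hDm : ∀ h : ℝ, Continuous (D h) := by
    intro h
    simp only [D]
    refine Continuous.div_const (Continuous.sub ?_ (by fun_prop)) _
    apply intervalIntegral.continuous_parametric_intervalIntegral_of_continuous'
    unfold Function.uncurry
    fun_prop
  -- positivity at small h
  have hpos : ∀ᶠ h : ℝ in 𝓝[>] 0, 0 ≤ ∫ p, U p * D h p ∂mu := by
    have hmin : 0 < min (a - x₀) (x₁ - b) := lt_min (by linarith) (by linarith)
    filter_upwards [Ioo_mem_nhdsGT hmin] with h hh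
    have h0 : 0 < h := hh.1
    have h1 : h < a - x₀ := lt_of_lt_of_le hh.2 (min_le_left _ _)
    have h2 : h < x₁ - b := lt_of_lt_of_le hh.2 (min_le_right _ _)
    have hs' : ∀ᵐ p : ℝ × ℝ, ω p.1 * ψ (p.2 - s * (p.1 - c)) * ((2 * Real.pi) * U p)
        ≤ ω p.1 * ψ (p.2 - s * (p.1 - c)) * ∫ t in (0)..(2 * Real.pi), U (p + ev h t) := by
      filter_upwards [hsub h h0] with p hp
      by_cases hpab : p.1 ∈ Icc a b
      · have i1 : x₀ < p.1 - h := by linarith [hpab.1]
        have i2 : p.1 + h < x₁ := by linarith [hpab.2]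
        have hp' := hp i1 i2
        have eU : U p = u p.1 p.2 := by
          simp only [hU, indicator, hA, mem_prod, mem_univ, and_true]
          rw [if_pos]
          exact ⟨by linarith, by linarith⟩
        have eUt : ∀ t : ℝ, U (p + ev h t) = u (p.1 + h * Real.cos t) (p.2 + h * Real.sin t) := by
          intro t
          simp only [hU, indicator, hA, mem_prod, mem_univ, and_true]
          rw [if_pos]
          · rfl
          · simp only [Prod.fst_add, ev]
            have c1 := Real.cos_le_one t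
            have c2 := Real.neg_one_le_cos t
            constructor
            · nlinarith
            · nlinarith
        simp only [eU, eUt]
        refine mul_le_mul_of_nonneg_left ?_ (mul_nonneg (hω0 _) (hψ0 _))
        have := mul_le_mul_of_nonneg_left hp' hpi.le
        rwa [← mul_assoc, mul_one_div_cancel hpi.ne', one_mul] at this
      · simp [hs p.1 hpab]
    have := main_h (φ := fun p => ω p.1 * ψ (p.2 - s * (p.1 - c))) hUi hUp hφc hφb hφp h hs'
    have e : ∫ p, U p * D h p ∂mu = (∫ p, U p * ((∫ t in (0)..(2 * Real.pi),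
        ω (p - ev h t).1 * ψ ((p - ev h t).2 - s * ((p - ev h t).1 - c)))
          - (2 * Real.pi) * (ω p.1 * ψ (p.2 - s * (p.1 - c)))) ∂mu) / h ^ 2 := by
      rw [← integral_div]
      congr 1
      funext p
      simp only [D, ev, Prod.fst_sub, Prod.snd_sub]
      have : ∀ t : ℝ, p.2 - h * Real.sin t - s * (p.1 - h * Real.cos t - c)
          = (p.2 - s * (p.1 - c)) - h * (Real.sin t - s * Real.cos t) := by
        intro t; ring
      simp only [this]
      ring
    rw [e]
    positivity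
  have hlim : Tendsto (fun h => ∫ p, U p * D h p ∂mu) (𝓝[>] 0)
      (𝓝 (∫ p, U p * (Real.pi / 2 * Lp p) ∂mu)) := by
    refine tendsto_integral_filter_of_dominated_convergence
      (fun p => |U p| * C0) ?_ ?_ ?_ ?_
    · refine Filter.Eventually.of_forall fun h => ?_
      exact hU0.aestronglyMeasurable.mul (hDm h).aestronglyMeasurable
    · filter_upwards [self_mem_nhdsWithin] with h hh
      refine Filter.Eventually.of_forall fun p => ?_
      rw [Real.norm_eq_abs, abs_mul]
      exact mul_le_mul_of_nonneg_left (hDb h (ne_of_gt hh) p) (abs_nonneg _)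
    · exact hU0.abs.mul_const _
    · exact Filter.Eventually.of_forall fun p => (hDl p).const_mul (U p)
  have hfin := ge_of_tendsto hlim hpos
  -- identify with JS
  have hLpb : ∀ p, |Lp p| ≤ K * K + |2 * s| * (K * K) + |1 + s ^ 2| * (K * K) := by
    intro p
    simp only [Lp]
    refine (abs_add_le _ _).trans ?_
    refine (add_le_add (abs_sub _ _) le_rfl).trans ?_
    rw [abs_mul, abs_mul (2 * s), abs_mul (deriv ω p.1), abs_mul (1 + s ^ 2), abs_mul (ω p.1)]
    have e1 := mul_le_mul (hKω p.1).2.2 (hKψ (p.2 - s * (p.1 - c))).1 (abs_nonneg _) hKnn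
    have e2 := mul_le_mul (hKω p.1).2.1 (hKψ (p.2 - s * (p.1 - c))).2.1 (abs_nonneg _) hKnn
    have e3 := mul_le_mul (hKω p.1).1 (hKψ (p.2 - s * (p.1 - c))).2.2 (abs_nonneg _) hKnn
    exact add_le_add (add_le_add e1 (mul_le_mul_of_nonneg_left e2 (abs_nonneg _)))
      (mul_le_mul_of_nonneg_left e3 (abs_nonneg _))
  have hJ : ∫ p, U p * Lp p ∂mu = JS s c u ω ψ := by
    have hi : Integrable (fun p => U p * Lp p) mu := by
      refine hU0.mul_bdd (c := K * K + |2 * s| * (K * K) + |1 + s ^ 2| * (K * K))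
        hLpc.aestronglyMeasurable ?_
      exact Filter.Eventually.of_forall fun p => by simpa using hLpb p
    unfold mu at *
    rw [integral_prod _ hi, JS]
    congr 1
    funext x
    rw [← intervalIntegral.integral_of_le hpi.le]
    by_cases hxx : x ∈ Ioo x₀ x₁
    · have e1 : ∀ θ : ℝ, U (x, θ) * Lp (x, θ) = (fun z => u x (z + s * (x - c)) *
          (deriv (deriv ω) x * ψ z - 2 * s * (deriv ω x * deriv ψ z)
            + (1 + s ^ 2) * (ω x * deriv (deriv ψ) z))) (θ - s * (x - c)) := by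
        intro θ
        simp only [hU, indicator, hA, mem_prod, mem_univ, and_true, Lp]
        rw [if_pos hxx, sub_add_cancel]
      simp only [e1]
      rw [intervalIntegral.integral_comp_sub_right (fun z => u x (z + s * (x - c)) *
          (deriv (deriv ω) x * ψ z - 2 * s * (deriv ω x * deriv ψ z)
            + (1 + s ^ 2) * (ω x * deriv (deriv ψ) z))) (s * (x - c))]
      have hperF : Function.Periodic (fun z => u x (z + s * (x - c)) *
          (deriv (deriv ω) x * ψ z - 2 * s * (deriv ω x * deriv ψ z)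
            + (1 + s ^ 2) * (ω x * deriv (deriv ψ) z))) (2 * Real.pi) := by
        intro z
        have e2 : z + 2 * Real.pi + s * (x - c) = (z + s * (x - c)) + 2 * Real.pi := by ring
        simp only [e2, hper x _, hψ.2 _, per_deriv hψ.2 _, per_deriv (per_deriv hψ.2) _]
      have h1 := hperF.intervalIntegral_add_eq (0 - s * (x - c)) 0
      rw [zero_add] at h1
      rw [← h1]
      congr 1
      ring
    · have hnx : x ∉ Icc a b := by
        intro hx
        exact hxx ⟨by linarith [hx.1], by linarith [hx.2]⟩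
      simp [Lp, hs x hnx, dd_zero hs hnx, d_zero hs hnx]
  have e2 : ∫ p, U p * (Real.pi / 2 * Lp p) ∂mu = Real.pi / 2 * JS s c u ω ψ := by
    rw [← hJ, ← integral_const_mul]
    congr 1
    funext p
    ring
  rw [e2] at hfin
  have hp2 : 0 < Real.pi / 2 := by positivity
  exact nonneg_of_mul_nonneg_right hfin hp2

end DW24
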