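import Pool.Agent.DW24.Defs

set_option autoImplicit false

open MeasureTheory Filter Topology Set

namespace DW24

open MeromorphicOn Function in
/-- Clearing the poles of a meromorphic function on a disc by a polynomial. -/
theorem exists_PQ {f : ℂ → ℂ} (hf : Meromorphic f) {R : ℝ} (hR : 0 < R) :
    ∃ P Q : ℂ → ℂ, Differentiable ℂ P ∧ AnalyticOnNhd ℂ Q (Metric.ball 0 R) ∧
      (∃ z, P z ≠ 0) ∧ (∀ᶠ z in codiscreteWithin (Metric.ball (0 : ℂ) R), P z ≠ 0 ∧ f z = Q z / P z) ∧
      ∃ c : ℝ, ∀ r, 0 < r → r < R →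
        Real.circleAverage (fun z => Real.log ‖P z‖) 0 r = ValueDistribution.logCounting f ⊤ r + c := by
  classical
  set D : Function.locallyFinsupp ℂ ℤ := (MeromorphicOn.divisor f Set.univ)⁻ with hD
  set d : ℂ → ℤ := fun z => if z ∈ Metric.closedBall (0 : ℂ) R then D z else 0 with hd
  have hD0 : ∀ z, 0 ≤ D z := by
    intro z
    rw [hD]
    exact negPart_nonneg _
  have hd0 : ∀ z, 0 ≤ d z := by
    intro z
    simp only [hd]
    split_ifs
    · exact hD0 z
    · exact le_refl _
  have hdfin : d.HasFiniteSupport := by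
    have h1 : (Function.locallyFinsuppWithin.toClosedBall R D).support.Finite :=
      Function.locallyFinsuppWithin.finiteSupport _ (isCompact_closedBall 0 |R|)
    refine h1.subset ?_
    intro z hz
    simp only [hd, Function.mem_support, ne_eq, ite_eq_right_iff, Classical.not_imp] at hz
    simp only [Function.mem_support, ne_eq]
    rw [Function.locallyFinsuppWithin.toClosedBall_eval_within _ (by rw [abs_of_pos hR]; exact hz.1)]
    exact hz.2
  have hdD : ∀ z ∈ Metric.closedBall (0 : ℂ) R, d z = D z := by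
    intro z hz
    simp only [hd, if_pos hz]
  set P : ℂ → ℂ := ∏ᶠ u, (fun z : ℂ => z - u) ^ d u with hP
  have hPan : ∀ z, AnalyticAt ℂ P z := fun z => Function.FactorizedRational.analyticAt (hd0 z)
  have hPmer : Meromorphic P := fun z => (hPan z).meromorphicAt
  have hPord : ∀ z, meromorphicOrderAt P z = d z := fun z =>
    Function.FactorizedRational.meromorphicOrderAt_eq d hdfin
  have hPne : ∀ z, d z = 0 → P z ≠ 0 := fun z hz => Function.FactorizedRational.ne_zero hz
  set U : Set ℂ := Metric.ball (0 : ℂ) R with hU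
  have hfP : MeromorphicOn (f * P) U := fun z _ => (hf z).mul (hPmer z)
  set Q : ℂ → ℂ := toMeromorphicNFOn (f * P) U with hQ
  have hQnf : MeromorphicNFOn Q U := meromorphicNFOn_toMeromorphicNFOn _ _
  refine ⟨P, Q, fun z => (hPan z).differentiableAt, ?_, ?_, ?_, ?_⟩
  · intro z hz
    rw [← (hQnf hz).meromorphicOrderAt_nonneg_iff_analyticAt]
    rw [hQ, meromorphicOrderAt_toMeromorphicNFOn hfP hz, meromorphicOrderAt_mul (hf z) (hPmer z), hPord z,
      hdD z (Metric.ball_subset_closedBall hz)]
    by_cases htop : meromorphicOrderAt f z = ⊤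
    · rw [htop]
      simp
    · obtain ⟨n, hn⟩ := WithTop.ne_top_iff_exists.mp htop
      have hDn : D z = n⁻ := by
        rw [hD, Function.locallyFinsuppWithin.negPart_apply,
          MeromorphicOn.divisor_apply (fun w _ => hf w) (Set.mem_univ z), ← hn]
        simp
      rw [hDn, ← hn]
      have h1 : (0 : ℤ) ≤ n + n⁻ := by
        have h2 := negPart_nonneg n
        have h3 := neg_le_negPart n
        omega
      exact_mod_cast h1
  · obtain ⟨z, hz⟩ := hdfin.exists_notMem
    exact ⟨z, hPne z (by simpa using hz)⟩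
  · have h1 : ∀ᶠ z in codiscreteWithin U, (f * P) z = Q z := toMeromorphicNFOn_eqOn_codiscrete hfP
    have h2 : (d.support)ᶜ ∈ codiscreteWithin U := compl_finite_mem_codiscreteWithin hdfin
    filter_upwards [h1, h2] with z hz1 hz2
    have hz3 : P z ≠ 0 := hPne z (by simpa using hz2)
    refine ⟨hz3, ?_⟩
    rw [← hz1]
    simp [hz3]
  · refine ⟨Real.log ‖meromorphicTrailingCoeffAt P 0‖, ?_⟩
    intro r hr hrR
    rw [MeromorphicOn.circleAverage_log_norm hr.ne' (fun z _ => hPmer z)]
    congr 1
    rw [ValueDistribution.logCounting_top]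
    have h0 : (0 : ℂ) ∈ Metric.closedBall (0 : ℂ) |r| := by simp
    have key : ∀ z ∈ Metric.closedBall (0 : ℂ) |r|, MeromorphicOn.divisor P (Metric.closedBall 0 |r|) z = D z := by
      intro z hz
      rw [MeromorphicOn.divisor_apply (fun w _ => hPmer w) hz, hPord z, hdD z]
      · simp
      · rw [abs_of_pos hr] at hz
        exact Metric.closedBall_subset_closedBall hrR.le hz
    simp only [Function.locallyFinsuppWithin.logCounting, AddMonoidHom.coe_mk, ZeroHom.coe_mk]
    rw [key 0 h0]
    congr 1
    apply finsum_congr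
    intro z
    rw [zero_sub, norm_neg]
    congr 2
    by_cases hz : z ∈ Metric.closedBall (0 : ℂ) |r|
    · rw [key z hz, Function.locallyFinsuppWithin.toClosedBall_eval_within _ hz]
    · rw [Function.locallyFinsuppWithin.apply_eq_zero_of_notMem _ hz,
        Function.locallyFinsuppWithin.apply_eq_zero_of_notMem _ hz]

end DW24
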