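import Pool.Agent.DW24.ES

/-!
MP_24b0ce_an, module CorS (S5): removal of a small first-order error term.
-/

set_option autoImplicit false

open MeasureTheory Filter Topology Set

namespace DW24

/-- integration by parts against the primitive of an integrable function of mean zero -/
theorem parts_corS {g : ℝ → ℝ} (hg : IntervalIntegrable g volume 0 (2 * Real.pi))
    (hg0 : ∫ θ in (0)..(2 * Real.pi), g θ = 0) {χ χ' : ℝ → ℝ}
    (hχ : ∀ x, HasDerivAt χ (χ' x) x) (hχc : Continuous χ') :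
    ∫ θ in (0)..(2 * Real.pi), (∫ t in (0)..θ, g t) * χ' θ
      = - ∫ θ in (0)..(2 * Real.pi), g θ * χ θ := by
  have hGac : AbsolutelyContinuousOnInterval (fun x => ∫ t in (0)..x, g t) 0 (2 * Real.pi) :=
    hg.absolutelyContinuousOnInterval_intervalIntegral left_mem_uIcc
  have hdχ : deriv χ = χ' := funext fun x => (hχ x).deriv
  have hχC : ContDiff ℝ 1 χ :=
    contDiff_one_iff_deriv.2 ⟨fun x => (hχ x).differentiableAt, by rw [hdχ]; exact hχc⟩
  have hχac : AbsolutelyContinuousOnInterval χ 0 (2 * Real.pi) :=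
    hχC.contDiffOn.absolutelyContinuousOnInterval
  have h := hGac.integral_mul_deriv_eq_deriv_mul hχac
  rw [hdχ] at h
  have hae : ∀ᵐ x, x ∈ uIoc 0 (2 * Real.pi) →
      deriv (fun x => ∫ t in (0)..x, g t) x * χ x = g x * χ x := by
    filter_upwards [hg.ae_hasDerivAt_integral] with x hx hxm
    rw [(hx (uIoc_subset_uIcc hxm) 0 left_mem_uIcc).deriv]
  rw [intervalIntegral.integral_congr_ae hae] at h
  rw [h, hg0, intervalIntegral.integral_same]
  ring

theorem Tst.hasDeriv {ψ : ℝ → ℝ} (h : Tst ψ) (x : ℝ) : HasDerivAt ψ (deriv ψ x) x :=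
  ((h.1.differentiable (by norm_num)) x).hasDerivAt

theorem Tst.hasDeriv2 {ψ : ℝ → ℝ} (h : Tst ψ) (x : ℝ) :
    HasDerivAt (deriv ψ) (deriv (deriv ψ) x) x := by
  have h1 : ContDiff ℝ (1 + 1) ψ := h.1
  have h2 := (contDiff_succ_iff_deriv.1 h1).2.2
  exact ((h2.differentiable (by norm_num)) x).hasDerivAt

theorem Tst.int_deriv {ψ : ℝ → ℝ} (h : Tst ψ) :
    ∫ θ in (0)..(2 * Real.pi), deriv ψ θ = 0 := by
  rw [intervalIntegral.integral_eq_sub_of_hasDerivAt (fun x _ => h.hasDeriv x)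
    (h.cont1.intervalIntegrable _ _)]
  have := h.2 0
  rw [zero_add] at this
  rw [this, sub_self]

theorem Tst.int_deriv2 {ψ : ℝ → ℝ} (h : Tst ψ) :
    ∫ θ in (0)..(2 * Real.pi), deriv (deriv ψ) θ = 0 := by
  rw [intervalIntegral.integral_eq_sub_of_hasDerivAt (fun x _ => h.hasDeriv2 x)
    (h.cont2.intervalIntegrable _ _)]
  have h1 : deriv ψ (0 + 2 * Real.pi) = deriv ψ 0 := by
    rw [← deriv_comp_add_const]
    congr 1
    funext x
    exact h.2 x
  rw [zero_add] at h1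
  rw [h1, sub_self]

theorem Tst.int_LS {ψ : ℝ → ℝ} (h : Tst ψ) (s ρ : ℝ) :
    ∫ θ in (0)..(2 * Real.pi), LS s ρ ψ θ = ρ ^ 2 * ∫ θ in (0)..(2 * Real.pi), ψ θ := by
  unfold LS
  rw [intervalIntegral.integral_add, intervalIntegral.integral_add,
    intervalIntegral.integral_const_mul, intervalIntegral.integral_const_mul,
    intervalIntegral.integral_const_mul, h.int_deriv, h.int_deriv2]
  · ring
  · exact (continuous_const.mul h.cont2).intervalIntegrable _ _
  · exact (continuous_const.mul h.cont1).intervalIntegrable _ _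
  · exact ((continuous_const.mul h.cont2).add (continuous_const.mul h.cont1)).intervalIntegrable _ _
  · exact (continuous_const.mul h.cont).intervalIntegrable _ _

/-- the primitive of the mean-zero part: continuous, periodic, bounded by `2E` -/
theorem prim_corS {e : ℝ → ℝ} (hp : Function.Periodic e (2 * Real.pi))
    (hi : IntervalIntegrable e volume 0 (2 * Real.pi)) {E : ℝ}
    (hE : ∫ θ in (0)..(2 * Real.pi), |e θ| ≤ E) :
    ∃ g : ℝ → ℝ, IntervalIntegrable g volume 0 (2 * Real.pi) ∧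
      (∫ θ in (0)..(2 * Real.pi), g θ = 0) ∧
      (∫ θ in (0)..(2 * Real.pi), |g θ| ≤ 2 * E) ∧
      Continuous (fun x => ∫ t in (0)..x, g t) ∧
      Function.Periodic (fun x => ∫ t in (0)..x, g t) (2 * Real.pi) ∧
      (∀ x, |∫ t in (0)..x, g t| ≤ 2 * E) ∧
      ∀ χ : ℝ → ℝ, Continuous χ → (∫ θ in (0)..(2 * Real.pi), χ θ = 0) →
        ∫ θ in (0)..(2 * Real.pi), g θ * χ θ = ∫ θ in (0)..(2 * Real.pi), e θ * χ θ := by
  have hpi : (0 : ℝ) < 2 * Real.pi := by positivity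
  set μ : ℝ := (2 * Real.pi)⁻¹ * ∫ θ in (0)..(2 * Real.pi), e θ with hμ
  have hμ2 : 2 * Real.pi * μ = ∫ θ in (0)..(2 * Real.pi), e θ := by
    rw [hμ, ← mul_assoc, mul_inv_cancel₀ hpi.ne', one_mul]
  have hE0 : |∫ θ in (0)..(2 * Real.pi), e θ| ≤ E :=
    (intervalIntegral.abs_integral_le_integral_abs hpi.le).trans hE
  have hgi : IntervalIntegrable (fun θ => e θ - μ) volume 0 (2 * Real.pi) :=
    hi.sub intervalIntegrable_const
  have hgp : Function.Periodic (fun θ => e θ - μ) (2 * Real.pi) := fun x => by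
    show e (x + 2 * Real.pi) - μ = e x - μ
    rw [hp x]
  have hg0 : ∫ θ in (0)..(2 * Real.pi), (e θ - μ) = 0 := by
    rw [intervalIntegral.integral_sub hi intervalIntegrable_const, intervalIntegral.integral_const,
      smul_eq_mul, sub_zero, hμ2, sub_self]
  have hgall : ∀ a b : ℝ, IntervalIntegrable (fun θ => e θ - μ) volume a b := fun a b =>
    hgp.intervalIntegrable hpi.ne' (t := 0) (by rw [zero_add]; exact hgi) a b
  have hgE : ∫ θ in (0)..(2 * Real.pi), |e θ - μ| ≤ 2 * E := by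
    have h1 : ∫ θ in (0)..(2 * Real.pi), |e θ - μ| ≤
        ∫ θ in (0)..(2 * Real.pi), (|e θ| + |μ|) := by
      refine intervalIntegral.integral_mono_on hpi.le hgi.abs
        (hi.abs.add intervalIntegrable_const) fun x _ => ?_
      exact abs_sub _ _
    rw [intervalIntegral.integral_add hi.abs intervalIntegrable_const,
      intervalIntegral.integral_const, smul_eq_mul, sub_zero] at h1
    have h2 : 2 * Real.pi * |μ| ≤ E := by
      calc 2 * Real.pi * |μ| = |2 * Real.pi * μ| := by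
            rw [abs_mul (2 * Real.pi) μ, abs_of_pos hpi]
        _ ≤ E := by rw [hμ2]; exact hE0
    linarith
  have hper : Function.Periodic (fun x => ∫ t in (0)..x, (e t - μ)) (2 * Real.pi) := fun x => by
    show ∫ t in (0)..(x + 2 * Real.pi), (e t - μ) = ∫ t in (0)..x, (e t - μ)
    rw [← intervalIntegral.integral_add_adjacent_intervals (hgall 0 x) (hgall x (x + 2 * Real.pi)),
      hgp.intervalIntegral_add_eq x 0, zero_add, hg0, add_zero]
  refine ⟨fun θ => e θ - μ, hgi, hg0, hgE,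
    intervalIntegral.continuous_primitive hgall 0, hper, ?_, ?_⟩
  · intro x
    obtain ⟨y, hy, hxy⟩ := hper.exists_mem_Ico₀ hpi x
    have hxy' : ∫ t in (0)..x, (e t - μ) = ∫ t in (0)..y, (e t - μ) := hxy
    rw [hxy']
    calc |∫ t in (0)..y, (e t - μ)| ≤ ∫ t in (0)..y, |e t - μ| :=
          intervalIntegral.abs_integral_le_integral_abs hy.1
      _ ≤ ∫ t in (0)..(2 * Real.pi), |e t - μ| := by
          refine intervalIntegral.integral_mono_interval le_rfl hy.1 hy.2.le ?_ hgi.abs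
          exact Filter.Eventually.of_forall fun t => abs_nonneg _
      _ ≤ 2 * E := hgE
  · intro χ hχ hχ0
    have h1 : (fun θ => (e θ - μ) * χ θ) = fun θ => e θ * χ θ - μ * χ θ := by
      funext θ; ring
    show ∫ θ in (0)..(2 * Real.pi), (e θ - μ) * χ θ = _
    have hc : Continuous fun θ => μ * χ θ := continuous_const.mul hχ
    rw [h1, intervalIntegral.integral_sub (hi.mul_continuousOn hχ.continuousOn)
      (hc.intervalIntegrable _ _), intervalIntegral.integral_const_mul, hχ0,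
      mul_zero, sub_zero]

theorem correctS {ι : Type*} [Fintype ι] {ρ s : ℝ} (hρ : 0 < ρ) (V e : ι → ℝ → ℝ) {M : (ℝ → ℝ) → ℝ}
    (hM : PosFun M) (hp : ∀ i, Function.Periodic (V i) (2 * Real.pi)) (h0 : ∀ i θ, 0 ≤ V i θ)
    (hint : ∀ i, IntervalIntegrable (V i) volume 0 (2 * Real.pi))
    (hpe : ∀ i, Function.Periodic (e i) (2 * Real.pi))
    (hinte : ∀ i, IntervalIntegrable (e i) volume 0 (2 * Real.pi))
    {E : ℝ} (hE0 : 0 ≤ E) (hE : ∀ i, ∫ θ in (0)..(2 * Real.pi), |e i θ| ≤ E)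
    (hV : ∀ i ψ, Tst ψ → (∀ θ, 0 ≤ ψ θ) →
      ∫ θ in (0)..(2 * Real.pi), V i θ * LS s ρ ψ θ
        ≤ M ψ + 2 * s * ∫ θ in (0)..(2 * Real.pi), e i θ * deriv ψ θ) :
    ∃ (V' : ι → ℝ → ℝ) (M' : (ℝ → ℝ) → ℝ),
      (∀ i, Function.Periodic (V' i) (2 * Real.pi)) ∧ (∀ i θ, 0 ≤ V' i θ) ∧
      (∀ i, IntervalIntegrable (V' i) volume 0 (2 * Real.pi)) ∧ PosFun M' ∧
      |M' (fun _ => 1) - M (fun _ => 1)| ≤ (8 * Real.pi * ρ ^ 2 + 8 * ρ * Fintype.card ι) * E ∧
      (∀ i ψ, Tst ψ → (∀ θ, 0 ≤ ψ θ) →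
        ∫ θ in (0)..(2 * Real.pi), V' i θ * LS s ρ ψ θ ≤ M' ψ) ∧
      ∀ i θ, |V' i θ - V i θ| ≤ 4 * E := by
  have hpi : (0 : ℝ) < 2 * Real.pi := by positivity
  choose g hgi hg0 hgE hGc hGp hGb hgχ using fun i => prim_corS (hpe i) (hinte i) (hE i)
  set a : ℝ := 2 * s / (1 + s ^ 2) with ha
  have hs1 : (0 : ℝ) < 1 + s ^ 2 := by positivity
  have ha1 : |a| ≤ 1 := by
    rw [ha, abs_div, abs_of_pos hs1, div_le_one hs1, abs_le]
    constructor <;> nlinarith [sq_nonneg (s - 1), sq_nonneg (s + 1)]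
  have ha2 : a * (1 + s ^ 2) = 2 * s := by
    rw [ha]; field_simp
  have has : |a * s| ≤ 2 := by
    rw [ha, show 2 * s / (1 + s ^ 2) * s = 2 * s ^ 2 / (1 + s ^ 2) by ring, abs_div,
      abs_of_pos hs1, div_le_iff₀ hs1, abs_of_nonneg (by positivity)]
    nlinarith
  have haG : ∀ i θ, |a * ∫ t in (0)..θ, g i t| ≤ 2 * E := fun i θ => by
    rw [abs_mul]
    calc |a| * |∫ t in (0)..θ, g i t| ≤ 1 * (2 * E) :=
          mul_le_mul ha1 (hGb i θ) (abs_nonneg _) zero_le_one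
      _ = 2 * E := one_mul _
  refine ⟨fun i θ => V i θ + a * (∫ t in (0)..θ, g i t) + 2 * E,
    fun ψ => M ψ + ((∑ i, 4 * ρ * ∫ θ in (0)..(2 * Real.pi), |g i θ| * ψ θ)
      + 4 * E * ρ ^ 2 * ∫ θ in (0)..(2 * Real.pi), ψ θ), ?_, ?_, ?_, ?_, ?_, ?_, ?_⟩
  · intro i θ
    have h1 : ∫ t in (0)..(θ + 2 * Real.pi), g i t = ∫ t in (0)..θ, g i t := hGp i θ
    show V i (θ + 2 * Real.pi) + a * (∫ t in (0)..(θ + 2 * Real.pi), g i t) + 2 * E
      = V i θ + a * (∫ t in (0)..θ, g i t) + 2 * E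
    rw [h1, hp i θ]
  · intro i θ
    have h1 := (abs_le.1 (haG i θ)).1
    have h2 := h0 i θ
    show 0 ≤ V i θ + a * (∫ t in (0)..θ, g i t) + 2 * E
    linarith
  · intro i
    exact ((hint i).add ((continuous_const.mul (hGc i)).intervalIntegrable _ _)).add
      intervalIntegrable_const
  · have hgψ : ∀ i (ψ : ℝ → ℝ), Tst ψ →
        IntervalIntegrable (fun θ => |g i θ| * ψ θ) volume 0 (2 * Real.pi) := fun i ψ hψ =>
      (hgi i).abs.mul_continuousOn hψ.cont.continuousOn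
    refine ⟨?_, ?_, ?_⟩
    · intro φ ψ hφ hψ
      have h1 : ∀ i, ∫ θ in (0)..(2 * Real.pi), |g i θ| * (φ θ + ψ θ)
          = (∫ θ in (0)..(2 * Real.pi), |g i θ| * φ θ)
            + ∫ θ in (0)..(2 * Real.pi), |g i θ| * ψ θ := fun i => by
        rw [← intervalIntegral.integral_add (hgψ i φ hφ) (hgψ i ψ hψ)]
        congr 1
        funext θ; ring
      have h2 : ∫ θ in (0)..(2 * Real.pi), (φ θ + ψ θ)
          = (∫ θ in (0)..(2 * Real.pi), φ θ) + ∫ θ in (0)..(2 * Real.pi), ψ θ :=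
        intervalIntegral.integral_add (hφ.cont.intervalIntegrable _ _)
          (hψ.cont.intervalIntegrable _ _)
      show M (fun θ => φ θ + ψ θ)
          + ((∑ i, 4 * ρ * ∫ θ in (0)..(2 * Real.pi), |g i θ| * (φ θ + ψ θ))
          + 4 * E * ρ ^ 2 * ∫ θ in (0)..(2 * Real.pi), (φ θ + ψ θ))
        = (M φ + ((∑ i, 4 * ρ * ∫ θ in (0)..(2 * Real.pi), |g i θ| * φ θ)
          + 4 * E * ρ ^ 2 * ∫ θ in (0)..(2 * Real.pi), φ θ))
          + (M ψ + ((∑ i, 4 * ρ * ∫ θ in (0)..(2 * Real.pi), |g i θ| * ψ θ)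
          + 4 * E * ρ ^ 2 * ∫ θ in (0)..(2 * Real.pi), ψ θ))
      have h3 : (∑ i, 4 * ρ * ∫ θ in (0)..(2 * Real.pi), |g i θ| * (φ θ + ψ θ))
          = (∑ i, 4 * ρ * ∫ θ in (0)..(2 * Real.pi), |g i θ| * φ θ)
            + ∑ i, 4 * ρ * ∫ θ in (0)..(2 * Real.pi), |g i θ| * ψ θ := by
        rw [← Finset.sum_add_distrib]
        exact Finset.sum_congr rfl fun i _ => by rw [h1 i]; ring
      rw [hM.add φ ψ hφ hψ, h2, h3]
      ring
    · intro c ψ hψ
      have h1 : ∀ i, ∫ θ in (0)..(2 * Real.pi), |g i θ| * (c * ψ θ)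
          = c * ∫ θ in (0)..(2 * Real.pi), |g i θ| * ψ θ := fun i => by
        rw [← intervalIntegral.integral_const_mul]
        congr 1
        funext θ; ring
      show M (fun θ => c * ψ θ)
          + ((∑ i, 4 * ρ * ∫ θ in (0)..(2 * Real.pi), |g i θ| * (c * ψ θ))
          + 4 * E * ρ ^ 2 * ∫ θ in (0)..(2 * Real.pi), (c * ψ θ))
        = c * (M ψ + ((∑ i, 4 * ρ * ∫ θ in (0)..(2 * Real.pi), |g i θ| * ψ θ)
          + 4 * E * ρ ^ 2 * ∫ θ in (0)..(2 * Real.pi), ψ θ))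
      rw [hM.smul c ψ hψ, intervalIntegral.integral_const_mul]
      simp only [h1]
      have h2 : (∑ i, 4 * ρ * (c * ∫ θ in (0)..(2 * Real.pi), |g i θ| * ψ θ))
          = c * ∑ i, 4 * ρ * ∫ θ in (0)..(2 * Real.pi), |g i θ| * ψ θ := by
        rw [Finset.mul_sum]
        exact Finset.sum_congr rfl fun i _ => by ring
      rw [h2]
      ring
    · intro ψ hψ hψ0
      have h1 : 0 ≤ ∑ i, 4 * ρ * ∫ θ in (0)..(2 * Real.pi), |g i θ| * ψ θ :=
        Finset.sum_nonneg fun i _ => mul_nonneg (by positivity)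
          (intervalIntegral.integral_nonneg hpi.le fun θ _ => mul_nonneg (abs_nonneg _) (hψ0 θ))
      have h2 : 0 ≤ 4 * E * ρ ^ 2 * ∫ θ in (0)..(2 * Real.pi), ψ θ :=
        mul_nonneg (by positivity) (intervalIntegral.integral_nonneg hpi.le fun θ _ => hψ0 θ)
      have h3 := hM.pos ψ hψ hψ0
      show 0 ≤ M ψ + ((∑ i, 4 * ρ * ∫ θ in (0)..(2 * Real.pi), |g i θ| * ψ θ)
        + 4 * E * ρ ^ 2 * ∫ θ in (0)..(2 * Real.pi), ψ θ)
      linarith
  · show |M (fun _ => 1) + ((∑ i, 4 * ρ * ∫ θ in (0)..(2 * Real.pi), |g i θ| * 1)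
        + 4 * E * ρ ^ 2 * ∫ θ in (0)..(2 * Real.pi), (1 : ℝ)) - M (fun _ => 1)| ≤ _
    have h1 : ∀ i, 4 * ρ * ∫ θ in (0)..(2 * Real.pi), |g i θ| * 1 ≤ 8 * ρ * E := fun i => by
      simp only [mul_one]
      have := mul_le_mul_of_nonneg_left (hgE i) (by positivity : 0 ≤ 4 * ρ)
      linarith
    have h1' : ∀ i, 0 ≤ 4 * ρ * ∫ θ in (0)..(2 * Real.pi), |g i θ| * 1 := fun i =>
      mul_nonneg (by positivity) (intervalIntegral.integral_nonneg hpi.le
        fun θ _ => mul_nonneg (abs_nonneg _) zero_le_one)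
    have h2 : (∑ i, 4 * ρ * ∫ θ in (0)..(2 * Real.pi), |g i θ| * 1)
        ≤ Fintype.card ι * (8 * ρ * E) := by
      calc _ ≤ ∑ _i : ι, 8 * ρ * E := Finset.sum_le_sum fun i _ => h1 i
        _ = _ := by rw [Finset.sum_const, Finset.card_univ, nsmul_eq_mul]
    have h2' : 0 ≤ ∑ i, 4 * ρ * ∫ θ in (0)..(2 * Real.pi), |g i θ| * 1 :=
      Finset.sum_nonneg fun i _ => h1' i
    rw [intervalIntegral.integral_const, smul_eq_mul, sub_zero, mul_one]
    have h3 : 0 ≤ 4 * E * ρ ^ 2 * (2 * Real.pi) := by positivity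
    rw [show M (fun _ => 1) + ((∑ i, 4 * ρ * ∫ θ in (0)..(2 * Real.pi), |g i θ| * 1)
        + 4 * E * ρ ^ 2 * (2 * Real.pi)) - M (fun _ => 1)
        = (∑ i, 4 * ρ * ∫ θ in (0)..(2 * Real.pi), |g i θ| * 1)
        + 4 * E * ρ ^ 2 * (2 * Real.pi) by ring, abs_of_nonneg (add_nonneg h2' h3)]
    nlinarith
  · intro i ψ hψ hψ0
    have hLS := LS_cont (s := s) (ρ := ρ) hψ
    have hVi : IntervalIntegrable (fun θ => V i θ * LS s ρ ψ θ) volume 0 (2 * Real.pi) :=
      (hint i).mul_continuousOn hLS.continuousOn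
    have hG1 : Continuous fun θ => a * ((∫ t in (0)..θ, g i t) * LS s ρ ψ θ) :=
      continuous_const.mul ((hGc i).mul hLS)
    have h1 : ∫ θ in (0)..(2 * Real.pi), (V i θ + a * (∫ t in (0)..θ, g i t) + 2 * E) * LS s ρ ψ θ
        = (∫ θ in (0)..(2 * Real.pi), V i θ * LS s ρ ψ θ)
          + a * (∫ θ in (0)..(2 * Real.pi), (∫ t in (0)..θ, g i t) * LS s ρ ψ θ)
          + 2 * E * (ρ ^ 2 * ∫ θ in (0)..(2 * Real.pi), ψ θ) := by
      have hL2 : Continuous fun θ => 2 * E * LS s ρ ψ θ := continuous_const.mul hLS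
      rw [← hψ.int_LS s ρ, ← intervalIntegral.integral_const_mul,
        ← intervalIntegral.integral_const_mul, ← intervalIntegral.integral_add hVi
          (hG1.intervalIntegrable _ _), ← intervalIntegral.integral_add
          (hVi.add (hG1.intervalIntegrable _ _)) (hL2.intervalIntegrable _ _)]
      congr 1
      funext θ; ring
    have h2 : ∫ θ in (0)..(2 * Real.pi), (∫ t in (0)..θ, g i t) * LS s ρ ψ θ
        = (1 + s ^ 2) * (∫ θ in (0)..(2 * Real.pi), (∫ t in (0)..θ, g i t) * deriv (deriv ψ) θ)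
          + 2 * s * ρ * (∫ θ in (0)..(2 * Real.pi), (∫ t in (0)..θ, g i t) * deriv ψ θ)
          + ρ ^ 2 * ∫ θ in (0)..(2 * Real.pi), (∫ t in (0)..θ, g i t) * ψ θ := by
      have c1 : Continuous fun θ => (1 + s ^ 2) * ((∫ t in (0)..θ, g i t) * deriv (deriv ψ) θ) :=
        continuous_const.mul ((hGc i).mul hψ.cont2)
      have c2 : Continuous fun θ => 2 * s * ρ * ((∫ t in (0)..θ, g i t) * deriv ψ θ) :=
        continuous_const.mul ((hGc i).mul hψ.cont1)
      have c3 : Continuous fun θ => ρ ^ 2 * ((∫ t in (0)..θ, g i t) * ψ θ) :=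
        continuous_const.mul ((hGc i).mul hψ.cont)
      have c12 : Continuous fun θ => (1 + s ^ 2) * ((∫ t in (0)..θ, g i t) * deriv (deriv ψ) θ)
          + 2 * s * ρ * ((∫ t in (0)..θ, g i t) * deriv ψ θ) := c1.add c2
      rw [← intervalIntegral.integral_const_mul, ← intervalIntegral.integral_const_mul,
        ← intervalIntegral.integral_const_mul,
        ← intervalIntegral.integral_add (c1.intervalIntegrable _ _) (c2.intervalIntegrable _ _),
        ← intervalIntegral.integral_add (c12.intervalIntegrable _ _) (c3.intervalIntegrable _ _)]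
      congr 1
      funext θ
      unfold LS
      ring
    have h3 := parts_corS (hgi i) (hg0 i) hψ.hasDeriv2 hψ.cont2
    have h4 := parts_corS (hgi i) (hg0 i) hψ.hasDeriv hψ.cont1
    have h5 := hgχ i (deriv ψ) hψ.cont1 hψ.int_deriv
    have h6 := hV i ψ hψ hψ0
    rw [h1, h2, h3, h4, h5]
    have hψi : 0 ≤ ∫ θ in (0)..(2 * Real.pi), ψ θ :=
      intervalIntegral.integral_nonneg hpi.le fun θ _ => hψ0 θ
    have hgψi : IntervalIntegrable (fun θ => g i θ * ψ θ) volume 0 (2 * Real.pi) :=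
      (hgi i).mul_continuousOn hψ.cont.continuousOn
    have hagψi : IntervalIntegrable (fun θ => |g i θ| * ψ θ) volume 0 (2 * Real.pi) :=
      (hgi i).abs.mul_continuousOn hψ.cont.continuousOn
    have h7 : |∫ θ in (0)..(2 * Real.pi), g i θ * ψ θ|
        ≤ ∫ θ in (0)..(2 * Real.pi), |g i θ| * ψ θ := by
      refine (intervalIntegral.abs_integral_le_integral_abs hpi.le).trans (le_of_eq ?_)
      congr 1
      funext θ
      rw [abs_mul, abs_of_nonneg (hψ0 θ)]
    have h7n : 0 ≤ ∫ θ in (0)..(2 * Real.pi), |g i θ| * ψ θ := (abs_nonneg _).trans h7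
    have h8 : a * ∫ θ in (0)..(2 * Real.pi), (∫ t in (0)..θ, g i t) * ψ θ
        ≤ 2 * E * ∫ θ in (0)..(2 * Real.pi), ψ θ := by
      rw [← intervalIntegral.integral_const_mul, ← intervalIntegral.integral_const_mul]
      refine intervalIntegral.integral_mono_on hpi.le
        ((continuous_const.mul ((hGc i).mul hψ.cont)).intervalIntegrable _ _)
        ((continuous_const.mul hψ.cont).intervalIntegrable _ _) fun θ _ => ?_
      have h9 := mul_le_mul_of_nonneg_right (abs_le.1 (haG i θ)).2 (hψ0 θ)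
      calc a * ((∫ t in (0)..θ, g i t) * ψ θ) = a * (∫ t in (0)..θ, g i t) * ψ θ := by ring
        _ ≤ 2 * E * ψ θ := h9
    have h10 : 4 * ρ * ∫ θ in (0)..(2 * Real.pi), |g i θ| * ψ θ
        ≤ ∑ j, 4 * ρ * ∫ θ in (0)..(2 * Real.pi), |g j θ| * ψ θ :=
      Finset.single_le_sum (f := fun j => 4 * ρ * ∫ θ in (0)..(2 * Real.pi), |g j θ| * ψ θ)
        (fun j _ => mul_nonneg (by positivity) (intervalIntegral.integral_nonneg hpi.le
          fun θ _ => mul_nonneg (abs_nonneg _) (hψ0 θ))) (Finset.mem_univ i)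
    have h11 : -(2 * ρ * (a * s) * ∫ θ in (0)..(2 * Real.pi), g i θ * ψ θ)
        ≤ 4 * ρ * ∫ θ in (0)..(2 * Real.pi), |g i θ| * ψ θ := by
      have h12 : |a * s * ∫ θ in (0)..(2 * Real.pi), g i θ * ψ θ|
          ≤ 2 * ∫ θ in (0)..(2 * Real.pi), |g i θ| * ψ θ := by
        rw [abs_mul]
        exact mul_le_mul has h7 (abs_nonneg _) (by norm_num)
      have h13 := (abs_le.1 h12).1
      have h14 := mul_le_mul_of_nonneg_left h13 (by positivity : 0 ≤ 2 * ρ)
      nlinarith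
    have h15 := mul_le_mul_of_nonneg_left h8 (by positivity : 0 ≤ ρ ^ 2)
    show (∫ θ in (0)..(2 * Real.pi), V i θ * LS s ρ ψ θ)
        + a * ((1 + s ^ 2) * -(∫ θ in (0)..(2 * Real.pi), e i θ * deriv ψ θ)
          + 2 * s * ρ * -(∫ θ in (0)..(2 * Real.pi), g i θ * ψ θ)
          + ρ ^ 2 * ∫ θ in (0)..(2 * Real.pi), (∫ t in (0)..θ, g i t) * ψ θ)
        + 2 * E * (ρ ^ 2 * ∫ θ in (0)..(2 * Real.pi), ψ θ)
      ≤ M ψ + ((∑ j, 4 * ρ * ∫ θ in (0)..(2 * Real.pi), |g j θ| * ψ θ)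
        + 4 * E * ρ ^ 2 * ∫ θ in (0)..(2 * Real.pi), ψ θ)
    have h16 : a * ((1 + s ^ 2) * -(∫ θ in (0)..(2 * Real.pi), e i θ * deriv ψ θ)
          + 2 * s * ρ * -(∫ θ in (0)..(2 * Real.pi), g i θ * ψ θ)
          + ρ ^ 2 * ∫ θ in (0)..(2 * Real.pi), (∫ t in (0)..θ, g i t) * ψ θ)
        = -(2 * s * ∫ θ in (0)..(2 * Real.pi), e i θ * deriv ψ θ)
          + -(2 * ρ * (a * s) * ∫ θ in (0)..(2 * Real.pi), g i θ * ψ θ)
          + ρ ^ 2 * (a * ∫ θ in (0)..(2 * Real.pi), (∫ t in (0)..θ, g i t) * ψ θ) := by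
      linear_combination (-(∫ θ in (0)..(2 * Real.pi), e i θ * deriv ψ θ)) * ha2
    rw [h16]
    linarith
  · intro i θ
    show |V i θ + a * (∫ t in (0)..θ, g i t) + 2 * E - V i θ| ≤ 4 * E
    rw [show V i θ + a * (∫ t in (0)..θ, g i t) + 2 * E - V i θ
      = a * (∫ t in (0)..θ, g i t) + 2 * E by ring]
    have h1 := abs_le.1 (haG i θ)
    rw [abs_le]
    constructor <;> linarith [h1.1, h1.2]

end DW24
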