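import Mathlib

/-!
Definitions for the sectorial case of the deficiency-sum problem (MP_24b0ce_an).
`Tst`: the test functions (C^2 and 2π-periodic); `LL ρ ψ = ψ'' + ρ² ψ`;
`Lam ρ = max (Λ₁ ρ) (Λ₂ ρ)`; `JJ`: the pairing of a function on the log-plane with `ω(x) ψ(θ)`.
-/

set_option autoImplicit false

open MeasureTheory Filter Topology Set

namespace DW24

/-- Test functions: twice continuously differentiable and `2π`-periodic. -/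
def Tst (ψ : ℝ → ℝ) : Prop := ContDiff ℝ 2 ψ ∧ Function.Periodic ψ (2 * Real.pi)

/-- `LL ρ ψ = ψ'' + ρ² ψ`. -/
noncomputable def LL (ρ : ℝ) (ψ : ℝ → ℝ) (θ : ℝ) : ℝ := deriv (deriv ψ) θ + ρ ^ 2 * ψ θ

/-- A positive linear functional on test functions. -/
structure PosFun (M : (ℝ → ℝ) → ℝ) : Prop where
  add : ∀ φ ψ, Tst φ → Tst ψ → M (fun θ => φ θ + ψ θ) = M φ + M ψ
  smul : ∀ (c : ℝ) ψ, Tst ψ → M (fun θ => c * ψ θ) = c * M ψ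
  pos : ∀ ψ, Tst ψ → (∀ θ, 0 ≤ ψ θ) → 0 ≤ M ψ

/-- The conjectured bound `max {Λ₁(ρ), Λ₂(ρ)}`. -/
noncomputable def Lam (ρ : ℝ) : ℝ :=
  max
    (2 - 2 * Real.sin (Real.pi / 2 * (2 * ρ - (Nat.floor (2 * ρ) : ℝ)))
        / ((Nat.floor (2 * ρ) : ℝ) + 2 * Real.sin (Real.pi / 2 * (2 * ρ - (Nat.floor (2 * ρ) : ℝ)))))
    (2 - 2 * Real.cos (Real.pi / 2 * (2 * ρ - (Nat.floor (2 * ρ) : ℝ)))
        / ((Nat.floor (2 * ρ) : ℝ) + 1))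

/-- Pairing of `u (x, θ)` with the Laplacian of `ω(x) ψ(θ)`. -/
noncomputable def JJ (u : ℝ → ℝ → ℝ) (ω ψ : ℝ → ℝ) : ℝ :=
  ∫ x, ∫ θ in (0)..(2 * Real.pi),
    u x θ * (ω x * deriv (deriv ψ) θ + deriv (deriv ω) x * ψ θ)

end DW24
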