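import Pool.Agent.DW24.Defs

/-!
Definitions for the version with logarithmic spirals.
`LS s ρ ψ = (1 + s²) ψ'' + 2 s ρ ψ' + ρ² ψ`: if `η(x, θ) = e^{-ρx} ψ(θ - s x)` then
`Δ η = e^{-ρx} (LS s ρ ψ)(θ - s x)`.
`JS s c u ω ψ`: pairing of `u` with the Laplacian of `ω(x) ψ(θ - s (x - c))`.
-/

set_option autoImplicit false

open MeasureTheory Filter Topology Set

namespace DW24

/-- `LS s ρ ψ = (1 + s²) ψ'' + 2 s ρ ψ' + ρ² ψ`. -/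
noncomputable def LS (s ρ : ℝ) (ψ : ℝ → ℝ) (θ : ℝ) : ℝ :=
  (1 + s ^ 2) * deriv (deriv ψ) θ + 2 * s * ρ * deriv ψ θ + ρ ^ 2 * ψ θ

/-- Pairing of `u (x, θ)` with the Laplacian of `ω(x) ψ(θ - s (x - c))`
(written in the rotated variable). -/
noncomputable def JS (s c : ℝ) (u : ℝ → ℝ → ℝ) (ω ψ : ℝ → ℝ) : ℝ :=
  ∫ x, ∫ θ in (0)..(2 * Real.pi),
    u x (θ + s * (x - c)) * (deriv (deriv ω) x * ψ θ - 2 * s * (deriv ω x * deriv ψ θ)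
      + (1 + s ^ 2) * (ω x * deriv (deriv ψ) θ))

end DW24
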