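import Pool.Agent.DW24.E1

/-!
MP_24b0ce_an, module E (limit extraction): from the functions `V n i` (the normalised local
proximity functions along the windows) to continuous limits satisfying the hypotheses of the
one-dimensional extremal problem.
-/

set_option autoImplicit false

open MeasureTheory Filter Topology Set

namespace DW24

theorem Tst.cont {ψ : ℝ → ℝ} (h : Tst ψ) : Continuous ψ := h.1.continuous

theorem Tst.cont2 {ψ : ℝ → ℝ} (h : Tst ψ) : Continuous (deriv (deriv ψ)) := by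
  have h1 : ContDiff ℝ (1 + 1) ψ := h.1
  have h2 : ContDiff ℝ 1 (deriv ψ) := (contDiff_succ_iff_deriv.1 h1).2.2
  exact (contDiff_one_iff_deriv.1 h2).2

theorem Tst_const (c : ℝ) : Tst (fun _ => c) := ⟨contDiff_const, fun _ => rfl⟩

theorem Tst.add {φ ψ : ℝ → ℝ} (hφ : Tst φ) (hψ : Tst ψ) : Tst (fun θ => φ θ + ψ θ) :=
  ⟨hφ.1.add hψ.1, fun x => by show φ (x + 2 * Real.pi) + ψ (x + 2 * Real.pi) = _; rw [hφ.2, hψ.2]⟩

theorem Tst.smul (c : ℝ) {ψ : ℝ → ℝ} (hψ : Tst ψ) : Tst (fun θ => c * ψ θ) :=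
  ⟨contDiff_const.mul hψ.1, fun x => by show c * ψ (x + 2 * Real.pi) = _; rw [hψ.2]⟩

theorem PosFun.mono {M : (ℝ → ℝ) → ℝ} (hM : PosFun M) {φ ψ : ℝ → ℝ} (hφ : Tst φ) (hψ : Tst ψ)
    (h : ∀ θ, φ θ ≤ ψ θ) : M φ ≤ M ψ := by
  have hd : Tst (fun θ => ψ θ + (-1) * φ θ) := hψ.add (hφ.smul (-1))
  have h1 := hM.add φ (fun θ => ψ θ + (-1) * φ θ) hφ hd
  have e : (fun θ => φ θ + (ψ θ + (-1) * φ θ)) = ψ := by funext θ; ring
  rw [e] at h1
  have h2 := hM.pos _ hd fun θ => by linarith [h θ]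
  linarith

theorem PosFun.const {M : (ℝ → ℝ) → ℝ} (hM : PosFun M) (c : ℝ) :
    M (fun _ => c) = c * M (fun _ => 1) := by
  have := hM.smul c (fun _ => 1) (Tst_const 1)
  simpa using this

theorem PosFun.one_nonneg {M : (ℝ → ℝ) → ℝ} (hM : PosFun M) : 0 ≤ M (fun _ => 1) :=
  hM.pos _ (Tst_const 1) fun _ => zero_le_one

theorem PosFun.abs_le {M : (ℝ → ℝ) → ℝ} (hM : PosFun M) {ψ : ℝ → ℝ} (hψ : Tst ψ) {s : ℝ}
    (hs : ∀ θ, |ψ θ| ≤ s) : |M ψ| ≤ s * M (fun _ => 1) := by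
  rw [_root_.abs_le]
  constructor
  · have := hM.mono (Tst_const (-s)) hψ fun θ => (_root_.abs_le.1 (hs θ)).1
    rw [hM.const] at this
    linarith
  · have := hM.mono hψ (Tst_const s) fun θ => (_root_.abs_le.1 (hs θ)).2
    rwa [hM.const] at this

theorem LL_add_const (ρ : ℝ) {ψ : ℝ → ℝ} (s θ : ℝ) :
    LL ρ (fun θ => ψ θ + s) θ = deriv (deriv ψ) θ + ρ ^ 2 * (ψ θ + s) := by
  unfold LL
  have : deriv (fun θ => ψ θ + s) = deriv ψ := by funext x; exact deriv_add_const s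
  rw [this]

theorem secondBdd_of {V : ℝ → ℝ} (h0 : ∀ θ, 0 ≤ V θ)
    (hint : IntervalIntegrable V volume 0 (2 * Real.pi)) {ρ : ℝ}
    {M : (ℝ → ℝ) → ℝ} (hM : PosFun M)
    (hV : ∀ ψ, Tst ψ → (∀ θ, 0 ≤ ψ θ) →
      ∫ θ in (0)..(2 * Real.pi), V θ * LL ρ ψ θ ≤ M ψ) :
    SecondBdd V (2 * M (fun _ => 1)) := by
  intro ψ s hψ hs
  have hφ : Tst (fun θ => ψ θ + s) := hψ.add (Tst_const s)
  have h1 := hV _ hφ fun θ => by linarith [(_root_.abs_le.1 (hs θ)).1]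
  have h2 : M (fun θ => ψ θ + s) ≤ 2 * M (fun _ => 1) * s := by
    have := hM.mono hφ (Tst_const (2 * s)) fun θ => by linarith [(_root_.abs_le.1 (hs θ)).2]
    rw [hM.const] at this
    linarith
  refine le_trans ?_ (le_trans h1 h2)
  have i1 : IntervalIntegrable (fun θ => V θ * deriv (deriv ψ) θ) volume 0 (2 * Real.pi) :=
    hint.mul_continuousOn hψ.cont2.continuousOn
  have i2 : IntervalIntegrable (fun θ => V θ * LL ρ (fun θ => ψ θ + s) θ) volume 0 (2 * Real.pi) := by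
    have e : LL ρ (fun θ => ψ θ + s)
        = fun θ => deriv (deriv ψ) θ + ρ ^ 2 * (ψ θ + s) := funext fun θ => LL_add_const ρ s θ
    refine hint.mul_continuousOn ?_
    rw [e]
    exact (hψ.cont2.add (continuous_const.mul (hψ.cont.add continuous_const))).continuousOn
  refine intervalIntegral.integral_mono_on (by positivity) i1 i2 fun θ _ => ?_
  rw [LL_add_const]
  have h3 : 0 ≤ ψ θ + s := by linarith [(_root_.abs_le.1 (hs θ)).1]
  exact mul_le_mul_of_nonneg_left (by nlinarith [sq_nonneg ρ, mul_nonneg (sq_nonneg ρ) h3]) (h0 θ)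

theorem LL_one (ρ θ : ℝ) : LL ρ (fun _ => 1) θ = ρ ^ 2 := by
  unfold LL
  simp

theorem integral_le_of {V : ℝ → ℝ} (h0 : ∀ θ, 0 ≤ V θ) {ρ : ℝ} (hρ : 1 ≤ ρ)
    {M : (ℝ → ℝ) → ℝ}
    (hV : ∀ ψ, Tst ψ → (∀ θ, 0 ≤ ψ θ) →
      ∫ θ in (0)..(2 * Real.pi), V θ * LL ρ ψ θ ≤ M ψ) :
    ∫ θ in (0)..(2 * Real.pi), V θ ≤ M (fun _ => 1) := by
  have h1 := hV _ (Tst_const 1) fun _ => zero_le_one
  simp only [LL_one] at h1
  rw [intervalIntegral.integral_mul_const] at h1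
  have h2 : 0 ≤ ∫ θ in (0)..(2 * Real.pi), V θ :=
    intervalIntegral.integral_nonneg (by positivity) fun θ _ => h0 θ
  nlinarith [mul_nonneg h2 (by nlinarith : (0 : ℝ) ≤ ρ ^ 2 - 1)]

theorem Tst.bdd {ψ : ℝ → ℝ} (h : Tst ψ) : ∃ s, 0 ≤ s ∧ ∀ θ, |ψ θ| ≤ s := by
  have hpi : (0 : ℝ) < 2 * Real.pi := by positivity
  obtain ⟨s, hs⟩ := isCompact_Icc.exists_bound_of_continuousOn (s := Icc (0 : ℝ) (2 * Real.pi))
    h.cont.continuousOn
  refine ⟨s, le_trans (norm_nonneg _) (hs 0 ⟨le_rfl, hpi.le⟩), fun θ => ?_⟩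
  obtain ⟨y, hy, hxy⟩ := h.2.exists_mem_Ico₀ hpi θ
  rw [hxy]
  exact hs y ⟨hy.1, hy.2.le⟩

/-- Limit extraction, with the convergence of the means along a subsequence `φ`; the disjointness
hypothesis asks only that the minimum of two of the functions tends to `0`. -/
theorem limitExtract_seq {ι : Type*} [Fintype ι] {ρ : ℝ} (hρ : 1 ≤ ρ) (V : ℕ → ι → ℝ → ℝ)
    (hp : ∀ n i, Function.Periodic (V n i) (2 * Real.pi))
    (h0 : ∀ n i θ, 0 ≤ V n i θ)
    (hint : ∀ n i, IntervalIntegrable (V n i) volume 0 (2 * Real.pi))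
    (M : ℕ → (ℝ → ℝ) → ℝ) (hM : ∀ n, PosFun (M n))
    (hM1 : Tendsto (fun n => M n (fun _ => 1)) atTop (𝓝 (2 * Real.pi * ρ ^ 2)))
    (hV : ∀ n i ψ, Tst ψ → (∀ θ, 0 ≤ ψ θ) →
      ∫ θ in (0)..(2 * Real.pi), V n i θ * LL ρ ψ θ ≤ M n ψ)
    (hd : ∀ i j, i ≠ j → ∀ᵐ θ : ℝ, Tendsto (fun n => min (V n i θ) (V n j θ)) atTop (𝓝 0)) :
    ∃ (φ : ℕ → ℕ) (W : ι → ℝ → ℝ) (M' : (ℝ → ℝ) → ℝ), StrictMono φ ∧
      (∀ i, Continuous (W i)) ∧
      (∀ i, Function.Periodic (W i) (2 * Real.pi)) ∧ (∀ i θ, 0 ≤ W i θ) ∧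
      (∀ i j, i ≠ j → ∀ θ, W i θ * W j θ = 0) ∧ PosFun M' ∧
      M' (fun _ => 1) = 2 * Real.pi * ρ ^ 2 ∧
      (∀ i ψ, Tst ψ → (∀ θ, 0 ≤ ψ θ) →
        ∫ θ in (0)..(2 * Real.pi), W i θ * LL ρ ψ θ ≤ M' ψ) ∧
      ∀ i, Tendsto (fun n => (1 / (2 * Real.pi)) * ∫ θ in (0)..(2 * Real.pi), V (φ n) i θ) atTop
        (𝓝 ((1 / (2 * Real.pi)) * ∫ θ in (0)..(2 * Real.pi), W i θ)) := by
  have hpi : (0 : ℝ) < 2 * Real.pi := by positivity
  -- uniform bound of the functionals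
  obtain ⟨B, hB⟩ := hM1.bddAbove_range
  replace hB : ∀ n, M n (fun _ => 1) ≤ B := fun n => hB (mem_range_self n)
  have hB0 : 0 ≤ B := le_trans (hM 0).one_nonneg (hB 0)
  -- Lipschitz representatives
  have hW : ∀ n i, ∃ W : ℝ → ℝ, (∀ a b, |W a - W b| ≤ 4 * B * |a - b|) ∧
      Function.Periodic W (2 * Real.pi) ∧ (∀ θ, 0 ≤ W θ) ∧ ∀ᵐ θ : ℝ, W θ = V n i θ := by
    intro n i
    obtain ⟨W, h1, h2, h3, h4⟩ := exists_lipschitz
      (C := 2 * M n (fun _ => 1)) (by linarith [(hM n).one_nonneg])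
      (secondBdd_of (h0 n i) (hint n i) (hM n) (hV n i)) (hp n i) (h0 n i) (hint n i)
    refine ⟨W, fun a b => le_trans (h1 a b) ?_, h2, h3, h4⟩
    exact mul_le_mul_of_nonneg_right (by linarith [hB n]) (abs_nonneg _)
  choose W hWL hWp hW0 hWae using hW
  have hWc : ∀ n i, Continuous (W n i) := fun n i =>
    (LipschitzWith.of_dist_le_mul (K := (4 * B).toNNReal) fun a b => by
      rw [Real.coe_toNNReal _ (by positivity), Real.dist_eq, Real.dist_eq]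
      exact hWL n i a b).continuous
  have hWint : ∀ n i (g : ℝ → ℝ), ∫ θ in (0)..(2 * Real.pi), V n i θ * g θ
      = ∫ θ in (0)..(2 * Real.pi), W n i θ * g θ := by
    intro n i g
    refine intervalIntegral.integral_congr_ae ?_
    filter_upwards [hWae n i] with θ hθ _
    rw [hθ]
  have hWint1 : ∀ n i, ∫ θ in (0)..(2 * Real.pi), V n i θ
      = ∫ θ in (0)..(2 * Real.pi), W n i θ := by
    intro n i
    have := hWint n i (fun _ => 1)
    simpa using this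
  -- uniform bound
  set K : ℝ := 8 * Real.pi * B + B with hK
  have hWK : ∀ n i θ, W n i θ ≤ K := by
    intro n i θ
    obtain ⟨y, hy, hxy⟩ := (hWp n i).exists_mem_Ico₀ hpi θ
    rw [hxy]
    have h1 : ∫ θ in (0)..(2 * Real.pi), W n i θ ≤ B := by
      rw [← hWint1]
      exact le_trans (integral_le_of (h0 n i) hρ (hV n i)) (hB n)
    have h2 : ∫ _θ in (0)..(2 * Real.pi), (W n i y - 8 * Real.pi * B)
        ≤ ∫ θ in (0)..(2 * Real.pi), W n i θ := by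
      refine intervalIntegral.integral_mono_on hpi.le intervalIntegrable_const
        ((hWc n i).intervalIntegrable _ _) fun x hx => ?_
      have h3 := hWL n i y x
      have h4 : |y - x| ≤ 2 * Real.pi := by
        rw [_root_.abs_le]; constructor <;> linarith [hy.1, hy.2, hx.1, hx.2]
      have h5 := (_root_.abs_le.1 h3).2
      nlinarith
    rw [intervalIntegral.integral_const, smul_eq_mul, sub_zero] at h2
    have h6 : W n i y - 8 * Real.pi * B ≤ B / (2 * Real.pi) := by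
      rw [le_div_iff₀ hpi]; linarith
    have h7 : B / (2 * Real.pi) ≤ B := div_le_self hB0 (by linarith [Real.pi_gt_three])
    linarith
  have hK0 : 0 ≤ K := by positivity
  -- subsequence converging at all rationals
  obtain ⟨a, -, φ, hφ, hlim⟩ := (isCompact_univ_pi
    (fun _ : ℚ × ι => isCompact_Icc (a := (0 : ℝ)) (b := K))).tendsto_subseq
    (x := fun n (q : ℚ × ι) => W n q.2 (q.1 : ℝ)) (fun n q _ => ⟨hW0 _ _ _, hWK _ _ _⟩)
  rw [tendsto_pi_nhds] at hlim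
  have hcau : ∀ i θ, CauchySeq fun n => W (φ n) i θ := by
    intro i θ
    rw [Metric.cauchySeq_iff]
    intro ε hε
    obtain ⟨q, hq⟩ := exists_rat_near θ (show (0 : ℝ) < ε / (3 * (4 * B + 1)) by positivity)
    have hq' : 4 * B * |θ - q| ≤ ε / 3 := by
      have h1 : 4 * B * |θ - q| ≤ (4 * B + 1) * (ε / (3 * (4 * B + 1))) :=
        mul_le_mul (by linarith) hq.le (abs_nonneg _) (by positivity)
      refine le_trans h1 (le_of_eq ?_)
      field_simp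
    have hc := (hlim (q, i)).cauchySeq
    rw [Metric.cauchySeq_iff] at hc
    obtain ⟨N, hN⟩ := hc (ε / 3) (by positivity)
    refine ⟨N, fun m hm n hn => ?_⟩
    have h1 := hN m hm n hn
    simp only [Function.comp] at h1
    rw [Real.dist_eq] at h1 ⊢
    have h2 := hWL (φ m) i θ q
    have h3 := hWL (φ n) i θ q
    have h4 : |W (φ m) i θ - W (φ n) i θ| ≤ |W (φ m) i θ - W (φ m) i q|
        + |W (φ m) i q - W (φ n) i q| + |W (φ n) i θ - W (φ n) i q| := by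
      have e : W (φ m) i θ - W (φ n) i θ = (W (φ m) i θ - W (φ m) i q)
        + (W (φ m) i q - W (φ n) i q) + -(W (φ n) i θ - W (φ n) i q) := by ring
      rw [e]
      refine le_trans (abs_add_le _ _) ?_
      rw [abs_neg]
      exact add_le_add_left (abs_add_le _ _) _
    linarith
  have hex : ∀ i θ, ∃ l, Tendsto (fun n => W (φ n) i θ) atTop (𝓝 l) := fun i θ =>
    cauchySeq_tendsto_of_complete (hcau i θ)
  choose Wl hWl using hex
  have hlL : ∀ i a b, |Wl i a - Wl i b| ≤ 4 * B * |a - b| := fun i a b =>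
    le_of_tendsto ((hWl i a).sub (hWl i b)).abs (Eventually.of_forall fun n => hWL (φ n) i a b)
  have hlc : ∀ i, Continuous (Wl i) := fun i =>
    (LipschitzWith.of_dist_le_mul (K := (4 * B).toNNReal) fun a b => by
      rw [Real.coe_toNNReal _ (by positivity), Real.dist_eq, Real.dist_eq]
      exact hlL i a b).continuous
  have hlp : ∀ i, Function.Periodic (Wl i) (2 * Real.pi) := fun i θ => by
    refine tendsto_nhds_unique (hWl i (θ + 2 * Real.pi)) ?_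
    simp only [(hWp _ i) θ]
    exact hWl i θ
  have hl0 : ∀ i θ, 0 ≤ Wl i θ := fun i θ =>
    ge_of_tendsto (hWl i θ) (Eventually.of_forall fun n => hW0 _ _ _)
  have hlint : ∀ i (g : ℝ → ℝ), Continuous g →
      Tendsto (fun n => ∫ θ in (0)..(2 * Real.pi), V (φ n) i θ * g θ) atTop
        (𝓝 (∫ θ in (0)..(2 * Real.pi), Wl i θ * g θ)) := by
    intro i g hg
    simp only [hWint]
    refine intervalIntegral.tendsto_integral_filter_of_dominated_convergence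
      (fun θ => K * |g θ|) ?_ ?_ ?_ ?_
    · exact Eventually.of_forall fun n => ((hWc (φ n) i).mul hg).aestronglyMeasurable
    · refine Eventually.of_forall fun n => Eventually.of_forall fun θ _ => ?_
      rw [norm_mul, Real.norm_eq_abs, Real.norm_eq_abs, abs_of_nonneg (hW0 _ _ _)]
      exact mul_le_mul_of_nonneg_right (hWK _ _ _) (abs_nonneg _)
    · exact (continuous_const.mul hg.abs).intervalIntegrable _ _
    · exact Eventually.of_forall fun θ _ => (hWl i θ).mul_const (g θ)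
  have hlint1 : ∀ i, Tendsto (fun n => ∫ θ in (0)..(2 * Real.pi), V (φ n) i θ) atTop
      (𝓝 (∫ θ in (0)..(2 * Real.pi), Wl i θ)) := by
    intro i
    have := hlint i (fun _ => 1) continuous_const
    simpa using this
  -- the limit functional
  have hUle : ((hyperfilter ℕ : Ultrafilter ℕ) : Filter ℕ) ≤ atTop := Nat.hyperfilter_le_atTop
  set U : Ultrafilter ℕ := hyperfilter ℕ with hU
  classical
  set Ml : (ℝ → ℝ) → ℝ := fun ψ =>
    if h : ∃ l, Tendsto (fun n => M (φ n) ψ) (U : Filter ℕ) (𝓝 l) then Classical.choose h else 0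
    with hMl
  have hMlt : ∀ ψ, Tst ψ → Tendsto (fun n => M (φ n) ψ) (U : Filter ℕ) (𝓝 (Ml ψ)) := by
    intro ψ hψ
    obtain ⟨s, hs0, hs⟩ := hψ.bdd
    have hex : ∃ l, Tendsto (fun n => M (φ n) ψ) (U : Filter ℕ) (𝓝 l) := by
      have h1 : ∀ n, M (φ n) ψ ∈ Icc (-(s * B)) (s * B) := fun n => by
        have h2 := (hM (φ n)).abs_le hψ hs
        have h3 : |M (φ n) ψ| ≤ s * B := le_trans h2 (mul_le_mul_of_nonneg_left (hB _) hs0)
        exact _root_.abs_le.1 h3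
      obtain ⟨l, -, hl⟩ := isCompact_Icc.ultrafilter_le_nhds
        (U.map fun n => M (φ n) ψ) (by
          rw [le_principal_iff]
          exact Filter.mem_map.2 (Eventually.of_forall fun n => h1 n))
      exact ⟨l, hl⟩
    have : Ml ψ = Classical.choose hex := by
      simp only [hMl]
      rw [dif_pos hex]
    rw [this]
    exact Classical.choose_spec hex
  have hcomp : Tendsto φ (U : Filter ℕ) atTop := hφ.tendsto_atTop.mono_left hUle
  refine ⟨φ, Wl, Ml, hφ, hlc, hlp, hl0, ?_, ?_, ?_, ?_, ?_⟩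
  · intro i j hij
    have h1 : ∀ᵐ θ : ℝ, Wl i θ * Wl j θ = 0 := by
      have hi : ∀ᵐ θ : ℝ, ∀ n, W n i θ = V n i θ := ae_all_iff.2 fun n => hWae n i
      have hj : ∀ᵐ θ : ℝ, ∀ n, W n j θ = V n j θ := ae_all_iff.2 fun n => hWae n j
      filter_upwards [hi, hj, hd i j hij] with θ hi hj hd
      have h2 : Tendsto (fun n => min (W (φ n) i θ) (W (φ n) j θ)) atTop (𝓝 0) := by
        simp only [hi, hj]
        exact hd.comp hφ.tendsto_atTop
      have h3 := tendsto_nhds_unique ((hWl i θ).min (hWl j θ)) h2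
      rcases le_total (Wl i θ) (Wl j θ) with h4 | h4
      · rw [min_eq_left h4] at h3
        rw [h3, zero_mul]
      · rw [min_eq_right h4] at h3
        rw [h3, mul_zero]
    have h3 := (Continuous.ae_eq_iff_eq (μ := (volume : Measure ℝ)) (f := fun θ => Wl i θ * Wl j θ)
      (g := fun _ => 0) ((hlc i).mul (hlc j)) continuous_const).1 h1
    intro θ
    exact congrFun h3 θ
  · refine ⟨fun f g hf hg => ?_, fun c ψ hψ => ?_, fun ψ hψ hψ0 => ?_⟩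
    · refine tendsto_nhds_unique (hMlt _ (hf.add hg)) ?_
      simp only [(hM _).add f g hf hg]
      exact (hMlt f hf).add (hMlt g hg)
    · refine tendsto_nhds_unique (hMlt _ (hψ.smul c)) ?_
      simp only [(hM _).smul c ψ hψ]
      exact (hMlt ψ hψ).const_mul c
    · exact ge_of_tendsto (hMlt ψ hψ) (Eventually.of_forall fun n => (hM _).pos ψ hψ hψ0)
  · exact tendsto_nhds_unique (hMlt _ (Tst_const 1)) (hM1.comp hcomp)
  · intro i ψ hψ hψ0
    have hLLc : Continuous (LL ρ ψ) := by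
      unfold LL
      exact hψ.cont2.add (continuous_const.mul hψ.cont)
    refine le_of_tendsto_of_tendsto ((hlint i _ hLLc).mono_left hUle) (hMlt ψ hψ)
      (Eventually.of_forall fun n => hV (φ n) i ψ hψ hψ0)
  · intro i
    exact (hlint1 i).const_mul (1 / (2 * Real.pi))


theorem min_tendsto_zero {V₁ V₂ : ℕ → ℝ} (h1 : ∀ n, 0 ≤ V₁ n) (h2 : ∀ n, 0 ≤ V₂ n)
    (h : Tendsto V₁ atTop (𝓝 0) ∨ Tendsto V₂ atTop (𝓝 0)) :
    Tendsto (fun n => min (V₁ n) (V₂ n)) atTop (𝓝 0) := by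
  rcases h with h | h
  · exact squeeze_zero (fun n => le_min (h1 n) (h2 n)) (fun n => min_le_left _ _) h
  · exact squeeze_zero (fun n => le_min (h1 n) (h2 n)) (fun n => min_le_right _ _) h

/-- Limit extraction, with the convergence of the means along a filter `F ≤ atTop`; the
disjointness hypothesis asks only that the minimum of two of the functions tends to `0`. -/
theorem limitExtract_min {ι : Type*} [Fintype ι] {ρ : ℝ} (hρ : 1 ≤ ρ) (V : ℕ → ι → ℝ → ℝ)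
    (hp : ∀ n i, Function.Periodic (V n i) (2 * Real.pi))
    (h0 : ∀ n i θ, 0 ≤ V n i θ)
    (hint : ∀ n i, IntervalIntegrable (V n i) volume 0 (2 * Real.pi))
    (M : ℕ → (ℝ → ℝ) → ℝ) (hM : ∀ n, PosFun (M n))
    (hM1 : Tendsto (fun n => M n (fun _ => 1)) atTop (𝓝 (2 * Real.pi * ρ ^ 2)))
    (hV : ∀ n i ψ, Tst ψ → (∀ θ, 0 ≤ ψ θ) →
      ∫ θ in (0)..(2 * Real.pi), V n i θ * LL ρ ψ θ ≤ M n ψ)
    (hd : ∀ i j, i ≠ j → ∀ᵐ θ : ℝ, Tendsto (fun n => min (V n i θ) (V n j θ)) atTop (𝓝 0)) :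
    ∃ (F : Filter ℕ) (W : ι → ℝ → ℝ) (M' : (ℝ → ℝ) → ℝ), F ≤ atTop ∧ F.NeBot ∧
      (∀ i, Continuous (W i)) ∧
      (∀ i, Function.Periodic (W i) (2 * Real.pi)) ∧ (∀ i θ, 0 ≤ W i θ) ∧
      (∀ i j, i ≠ j → ∀ θ, W i θ * W j θ = 0) ∧ PosFun M' ∧
      M' (fun _ => 1) = 2 * Real.pi * ρ ^ 2 ∧
      (∀ i ψ, Tst ψ → (∀ θ, 0 ≤ ψ θ) →
        ∫ θ in (0)..(2 * Real.pi), W i θ * LL ρ ψ θ ≤ M' ψ) ∧
      ∀ i, Tendsto (fun n => (1 / (2 * Real.pi)) * ∫ θ in (0)..(2 * Real.pi), V n i θ) F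
        (𝓝 ((1 / (2 * Real.pi)) * ∫ θ in (0)..(2 * Real.pi), W i θ)) := by
  obtain ⟨φ, W, M', hφ, h1, h2, h3, h4, h5, h6, h7, h8⟩ :=
    limitExtract_seq hρ V hp h0 hint M hM hM1 hV hd
  exact ⟨map φ atTop, W, M', hφ.tendsto_atTop, inferInstance, h1, h2, h3, h4, h5, h6, h7,
    fun i => tendsto_map'_iff.2 (h8 i)⟩

/-- Limit extraction, with the convergence of the means along a filter `F ≤ atTop`. -/
theorem limitExtract' {ι : Type*} [Fintype ι] {ρ : ℝ} (hρ : 1 ≤ ρ) (V : ℕ → ι → ℝ → ℝ)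
    (hp : ∀ n i, Function.Periodic (V n i) (2 * Real.pi))
    (h0 : ∀ n i θ, 0 ≤ V n i θ)
    (hint : ∀ n i, IntervalIntegrable (V n i) volume 0 (2 * Real.pi))
    (M : ℕ → (ℝ → ℝ) → ℝ) (hM : ∀ n, PosFun (M n))
    (hM1 : Tendsto (fun n => M n (fun _ => 1)) atTop (𝓝 (2 * Real.pi * ρ ^ 2)))
    (hV : ∀ n i ψ, Tst ψ → (∀ θ, 0 ≤ ψ θ) →
      ∫ θ in (0)..(2 * Real.pi), V n i θ * LL ρ ψ θ ≤ M n ψ)
    (hd : ∀ i j, i ≠ j → ∀ᵐ θ : ℝ, Tendsto (fun n => V n i θ) atTop (𝓝 0) ∨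
      Tendsto (fun n => V n j θ) atTop (𝓝 0)) :
    ∃ (F : Filter ℕ) (W : ι → ℝ → ℝ) (M' : (ℝ → ℝ) → ℝ), F ≤ atTop ∧ F.NeBot ∧
      (∀ i, Continuous (W i)) ∧
      (∀ i, Function.Periodic (W i) (2 * Real.pi)) ∧ (∀ i θ, 0 ≤ W i θ) ∧
      (∀ i j, i ≠ j → ∀ θ, W i θ * W j θ = 0) ∧ PosFun M' ∧
      M' (fun _ => 1) = 2 * Real.pi * ρ ^ 2 ∧
      (∀ i ψ, Tst ψ → (∀ θ, 0 ≤ ψ θ) →
        ∫ θ in (0)..(2 * Real.pi), W i θ * LL ρ ψ θ ≤ M' ψ) ∧
      ∀ i, Tendsto (fun n => (1 / (2 * Real.pi)) * ∫ θ in (0)..(2 * Real.pi), V n i θ) F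
        (𝓝 ((1 / (2 * Real.pi)) * ∫ θ in (0)..(2 * Real.pi), W i θ)) :=
  limitExtract_min hρ V hp h0 hint M hM hM1 hV fun i j hij => by
    filter_upwards [hd i j hij] with θ hθ
    exact min_tendsto_zero (fun n => h0 n i θ) (fun n => h0 n j θ) hθ

theorem limitExtract {ι : Type*} [Fintype ι] {ρ : ℝ} (hρ : 1 ≤ ρ) (V : ℕ → ι → ℝ → ℝ)
    (hp : ∀ n i, Function.Periodic (V n i) (2 * Real.pi))
    (h0 : ∀ n i θ, 0 ≤ V n i θ)
    (hint : ∀ n i, IntervalIntegrable (V n i) volume 0 (2 * Real.pi))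
    (M : ℕ → (ℝ → ℝ) → ℝ) (hM : ∀ n, PosFun (M n))
    (hM1 : Tendsto (fun n => M n (fun _ => 1)) atTop (𝓝 (2 * Real.pi * ρ ^ 2)))
    (hV : ∀ n i ψ, Tst ψ → (∀ θ, 0 ≤ ψ θ) →
      ∫ θ in (0)..(2 * Real.pi), V n i θ * LL ρ ψ θ ≤ M n ψ)
    (hd : ∀ i j, i ≠ j → ∀ᵐ θ : ℝ, Tendsto (fun n => V n i θ) atTop (𝓝 0) ∨
      Tendsto (fun n => V n j θ) atTop (𝓝 0))
    (δ : ι → ℝ)
    (hδ : ∀ i, ∀ᶠ n in atTop,
      δ i ≤ (1 / (2 * Real.pi)) * ∫ θ in (0)..(2 * Real.pi), V n i θ) :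
    ∃ (W : ι → ℝ → ℝ) (M' : (ℝ → ℝ) → ℝ), (∀ i, Continuous (W i)) ∧
      (∀ i, Function.Periodic (W i) (2 * Real.pi)) ∧ (∀ i θ, 0 ≤ W i θ) ∧
      (∀ i j, i ≠ j → ∀ θ, W i θ * W j θ = 0) ∧ PosFun M' ∧
      M' (fun _ => 1) = 2 * Real.pi * ρ ^ 2 ∧
      (∀ i ψ, Tst ψ → (∀ θ, 0 ≤ ψ θ) →
        ∫ θ in (0)..(2 * Real.pi), W i θ * LL ρ ψ θ ≤ M' ψ) ∧
      ∀ i, δ i ≤ (1 / (2 * Real.pi)) * ∫ θ in (0)..(2 * Real.pi), W i θ := by
  obtain ⟨F, W, M', hF, hne, h1, h2, h3, h4, h5, h6, h7, h8⟩ :=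
    limitExtract' hρ V hp h0 hint M hM hM1 hV hd
  exact ⟨W, M', h1, h2, h3, h4, h5, h6, h7, fun i => ge_of_tendsto (h8 i) (hF (hδ i))⟩

end DW24
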