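import Pool.Agent.DW24.Defs

/-!
MP_24b0ce_an, module E (limit extraction), part 1: an integrable function whose second derivative
is bounded against test functions is almost everywhere equal to a Lipschitz function.
-/

set_option autoImplicit false

open MeasureTheory Filter Topology Set

namespace DW24

theorem contDiff_two_of {P P' P'' : ℝ → ℝ} (h1 : ∀ x, HasDerivAt P (P' x) x)
    (h2 : ∀ x, HasDerivAt P' (P'' x) x) (hc : Continuous P'') : ContDiff ℝ 2 P := by
  have e1 : deriv P = P' := funext fun x => (h1 x).deriv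
  have e2 : deriv P' = P'' := funext fun x => (h2 x).deriv
  have hP' : ContDiff ℝ 1 P' := contDiff_one_iff_deriv.2
    ⟨fun x => (h2 x).differentiableAt, by rw [e2]; exact hc⟩
  rw [show (2 : WithTop ℕ∞) = 1 + 1 by norm_num, contDiff_succ_iff_deriv]
  refine ⟨fun x => (h1 x).differentiableAt, fun h => ?_, by rw [e1]; exact hP'⟩
  exact absurd h (by decide)

/-- periodic second antiderivative of a periodic function, after subtraction of the mean -/
theorem exists_P {f : ℝ → ℝ} (hf : Continuous f) (hp : Function.Periodic f (2 * Real.pi))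
    (h0 : ∀ θ, 0 ≤ f θ) {c : ℝ} (hc : ∫ θ in (0)..(2 * Real.pi), f θ = c) :
    ∃ P P' : ℝ → ℝ, (∀ x, HasDerivAt P (P' x) x) ∧
      (∀ x, HasDerivAt P' (f x - c / (2 * Real.pi)) x) ∧
      Function.Periodic P (2 * Real.pi) ∧ ∀ x, |P' x| ≤ 2 * c := by
  have hpi : (0 : ℝ) < 2 * Real.pi := by positivity
  set g : ℝ → ℝ := fun θ => f θ - c / (2 * Real.pi) with hg
  have hgc : Continuous g := hf.sub continuous_const
  have hgp : Function.Periodic g (2 * Real.pi) := fun x => by simp only [hg]; rw [hp x]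
  have hg0 : ∫ θ in (0)..(2 * Real.pi), g θ = 0 := by
    simp only [hg]
    rw [intervalIntegral.integral_sub (hf.intervalIntegrable _ _) intervalIntegrable_const, hc]
    simp only [intervalIntegral.integral_const, sub_zero, smul_eq_mul]
    field_simp
    ring
  set K : ℝ → ℝ := fun x => ∫ θ in (0)..x, g θ with hK
  have hKd : ∀ x, HasDerivAt K (g x) x := fun x =>
    intervalIntegral.integral_hasDerivAt_right (hgc.intervalIntegrable _ _)
      (hgc.stronglyMeasurableAtFilter _ _) hgc.continuousAt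
  have hKc : Continuous K := continuous_iff_continuousAt.2 fun x => (hKd x).continuousAt
  have hper : ∀ x, ∫ θ in x..(x + 2 * Real.pi), g θ = 0 := fun x => by
    have := hgp.intervalIntegral_add_eq x 0
    rw [this, zero_add, hg0]
  have hKp : Function.Periodic K (2 * Real.pi) := fun x => by
    simp only [hK]
    have h1 := intervalIntegral.integral_add_adjacent_intervals
      (hgc.intervalIntegrable (μ := volume) 0 x) (hgc.intervalIntegrable (μ := volume) x (x + 2 * Real.pi))
    rw [hper x, add_zero] at h1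
    exact h1.symm
  -- bound for K on one period
  have hKb0 : ∀ x ∈ Icc (0 : ℝ) (2 * Real.pi), |K x| ≤ c := by
    intro x hx
    have hKx : K x = (∫ θ in (0)..x, f θ) - c / (2 * Real.pi) * x := by
      simp only [hK, hg]
      rw [intervalIntegral.integral_sub (hf.intervalIntegrable _ _) intervalIntegrable_const]
      simp only [intervalIntegral.integral_const, sub_zero, smul_eq_mul]
      ring
    have h1 : 0 ≤ ∫ θ in (0)..x, f θ :=
      intervalIntegral.integral_nonneg hx.1 fun u _ => h0 u
    have h2 : (∫ θ in (0)..x, f θ) ≤ c := by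
      have h3 := intervalIntegral.integral_add_adjacent_intervals
        (hf.intervalIntegrable (μ := volume) 0 x) (hf.intervalIntegrable (μ := volume) x (2 * Real.pi))
      have h4 : 0 ≤ ∫ θ in x..(2 * Real.pi), f θ :=
        intervalIntegral.integral_nonneg hx.2 fun u _ => h0 u
      linarith
    have hc0 : 0 ≤ c := le_trans h1 h2
    have h5 : 0 ≤ c / (2 * Real.pi) * x := mul_nonneg (div_nonneg hc0 hpi.le) hx.1
    have h6 : c / (2 * Real.pi) * x ≤ c := by
      rw [div_mul_eq_mul_div, div_le_iff₀ hpi]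
      exact mul_le_mul_of_nonneg_left hx.2 hc0
    rw [hKx, abs_le]
    constructor <;> linarith
  have hKb : ∀ x, |K x| ≤ c := by
    intro x
    obtain ⟨y, hy, hxy⟩ := hKp.exists_mem_Ico₀ hpi x
    rw [hxy]
    exact hKb0 y ⟨hy.1, hy.2.le⟩
  have hc0 : 0 ≤ c := le_trans (abs_nonneg _) (hKb 0)
  set m : ℝ := (1 / (2 * Real.pi)) * ∫ θ in (0)..(2 * Real.pi), K θ with hm
  have hmb : |m| ≤ c := by
    have h1 : ‖∫ θ in (0)..(2 * Real.pi), K θ‖ ≤ c * |2 * Real.pi - 0| :=
      intervalIntegral.norm_integral_le_of_norm_le_const fun x _ => by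
        rw [Real.norm_eq_abs]; exact hKb x
    rw [sub_zero, abs_of_pos hpi, Real.norm_eq_abs] at h1
    rw [hm, abs_mul, abs_of_pos (by positivity : (0 : ℝ) < 1 / (2 * Real.pi)), one_div,
      inv_mul_le_iff₀ hpi]
    linarith
  refine ⟨fun x => ∫ θ in (0)..x, (K θ - m), fun x => K x - m, ?_, ?_, ?_, ?_⟩
  · intro x
    have hcc : Continuous fun θ => K θ - m := hKc.sub continuous_const
    exact intervalIntegral.integral_hasDerivAt_right (hcc.intervalIntegrable _ _)
      (hcc.stronglyMeasurableAtFilter _ _) hcc.continuousAt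
  · intro x
    simpa using (hKd x).sub_const m
  · intro x
    have hcc : Continuous fun θ => K θ - m := hKc.sub continuous_const
    have hpp : Function.Periodic (fun θ => K θ - m) (2 * Real.pi) := fun x => by
      show K (x + 2 * Real.pi) - m = K x - m
      rw [hKp x]
    have h1 := intervalIntegral.integral_add_adjacent_intervals
      (hcc.intervalIntegrable (μ := volume) 0 x) (hcc.intervalIntegrable (μ := volume) x (x + 2 * Real.pi))
    have h2 : ∫ θ in x..(x + 2 * Real.pi), (K θ - m) = 0 := by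
      rw [hpp.intervalIntegral_add_eq x 0, zero_add,
        intervalIntegral.integral_sub (hKc.intervalIntegrable _ _) intervalIntegrable_const]
      simp only [intervalIntegral.integral_const, sub_zero, smul_eq_mul, hm]
      field_simp
      ring
    rw [h2, add_zero] at h1
    exact h1.symm
  · intro x
    calc |K x - m| ≤ |K x| + |m| := abs_sub _ _
      _ ≤ 2 * c := by linarith [hKb x]

/-- The hypothesis the second derivative of `V` is bounded by `C` against test functions. -/
def SecondBdd (V : ℝ → ℝ) (C : ℝ) : Prop :=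
  ∀ ψ s, Tst ψ → (∀ θ, |ψ θ| ≤ s) → ∫ θ in (0)..(2 * Real.pi), V θ * deriv (deriv ψ) θ ≤ C * s

theorem diff_le {V : ℝ → ℝ} {C : ℝ} (hV : SecondBdd V C)
    (hint : IntervalIntegrable V volume 0 (2 * Real.pi))
    {f : ℝ → ℝ} (hf : Continuous f) (hp : Function.Periodic f (2 * Real.pi))
    (h0 : ∀ θ, 0 ≤ f θ) (a b : ℝ) :
    (∫ θ in (0)..(2 * Real.pi), V θ * f (θ - a)) - ∫ θ in (0)..(2 * Real.pi), V θ * f (θ - b)
      ≤ C * (2 * (∫ θ in (0)..(2 * Real.pi), f θ) * |a - b|) := by
  obtain ⟨P, P', h1, h2, h3, h4⟩ := exists_P hf hp h0 rfl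
  set c := ∫ θ in (0)..(2 * Real.pi), f θ with hc
  have hc0 : 0 ≤ c := by
    have := h4 0
    have h5 := le_trans (abs_nonneg _) this
    linarith
  set ψ : ℝ → ℝ := fun θ => P (θ - a) - P (θ - b) with hψ
  have d1 : ∀ x, HasDerivAt ψ (P' (x - a) - P' (x - b)) x := fun x =>
    ((h1 (x - a)).comp_sub_const x a).sub ((h1 (x - b)).comp_sub_const x b)
  have d2 : ∀ x, HasDerivAt (fun x => P' (x - a) - P' (x - b)) (f (x - a) - f (x - b)) x := fun x => by
    have h := ((h2 (x - a)).comp_sub_const x a).sub ((h2 (x - b)).comp_sub_const x b)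
    have e : f (x - a) - f (x - b)
        = f (x - a) - c / (2 * Real.pi) - (f (x - b) - c / (2 * Real.pi)) := by ring
    rw [e]
    exact h
  have hfc : Continuous fun x => f (x - a) - f (x - b) :=
    (hf.comp (continuous_id.sub continuous_const)).sub (hf.comp (continuous_id.sub continuous_const))
  have hT : Tst ψ := by
    refine ⟨contDiff_two_of d1 d2 hfc, fun x => ?_⟩
    show P (x + 2 * Real.pi - a) - P (x + 2 * Real.pi - b) = P (x - a) - P (x - b)
    rw [show x + 2 * Real.pi - a = (x - a) + 2 * Real.pi by ring,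
      show x + 2 * Real.pi - b = (x - b) + 2 * Real.pi by ring, h3, h3]
  have hb : ∀ θ, |ψ θ| ≤ 2 * c * |a - b| := by
    intro θ
    have := Convex.norm_image_sub_le_of_norm_hasDerivWithin_le (f := P) (f' := P') (s := univ)
      (C := 2 * c) (fun x _ => (h1 x).hasDerivWithinAt) (fun x _ => by
        rw [Real.norm_eq_abs]; exact h4 x) convex_univ (mem_univ (θ - b)) (mem_univ (θ - a))
    rw [Real.norm_eq_abs, Real.norm_eq_abs, show θ - a - (θ - b) = -(a - b) by ring, abs_neg] at this
    exact this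
  have h := hV ψ _ hT hb
  have e1 : deriv ψ = fun x => P' (x - a) - P' (x - b) := funext fun x => (d1 x).deriv
  have e2 : deriv (deriv ψ) = fun x => f (x - a) - f (x - b) := by
    rw [e1]; exact funext fun x => (d2 x).deriv
  rw [e2] at h
  have hia : IntervalIntegrable (fun θ => V θ * f (θ - a)) volume 0 (2 * Real.pi) :=
    hint.mul_continuousOn (hf.comp (continuous_id.sub continuous_const)).continuousOn
  have hib : IntervalIntegrable (fun θ => V θ * f (θ - b)) volume 0 (2 * Real.pi) :=
    hint.mul_continuousOn (hf.comp (continuous_id.sub continuous_const)).continuousOn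
  rw [← intervalIntegral.integral_sub hia hib]
  calc _ = ∫ θ in (0)..(2 * Real.pi), V θ * (f (θ - a) - f (θ - b)) := by
        congr 1; funext θ; ring
    _ ≤ _ := h

/-- continuous periodic approximations of the indicator of `cos θ ≥ cos δ` -/
noncomputable def fn (δ : ℝ) (n : ℕ) (θ : ℝ) : ℝ :=
  max 0 (min 1 (1 + n * (Real.cos θ - Real.cos δ)))

noncomputable def Ind (δ : ℝ) (θ : ℝ) : ℝ := if Real.cos δ ≤ Real.cos θ then 1 else 0

theorem fn_cont (δ : ℝ) (n : ℕ) : Continuous (fn δ n) := by
  unfold fn; fun_prop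

theorem fn_per (δ : ℝ) (n : ℕ) : Function.Periodic (fn δ n) (2 * Real.pi) := fun x => by
  simp only [fn, Real.cos_add_two_pi]

theorem Ind_per (δ : ℝ) : Function.Periodic (Ind δ) (2 * Real.pi) := fun x => by
  simp only [Ind, Real.cos_add_two_pi]

theorem fn_nonneg (δ : ℝ) (n : ℕ) (θ : ℝ) : 0 ≤ fn δ n θ := le_max_left _ _

theorem fn_le (δ : ℝ) (n : ℕ) (θ : ℝ) : fn δ n θ ≤ 1 := max_le zero_le_one (min_le_left _ _)

theorem fn_tendsto (δ θ : ℝ) : Tendsto (fun n => fn δ n θ) atTop (𝓝 (Ind δ θ)) := by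
  unfold Ind
  split_ifs with h
  · refine tendsto_const_nhds.congr' (Eventually.of_forall fun n => ?_)
    have : (1 : ℝ) ≤ 1 + n * (Real.cos θ - Real.cos δ) := by
      have : 0 ≤ (n : ℝ) * (Real.cos θ - Real.cos δ) := mul_nonneg (Nat.cast_nonneg _) (by linarith)
      linarith
    simp only [fn]
    rw [min_eq_left this, max_eq_right zero_le_one]
  · rw [not_le] at h
    have hd : 0 < Real.cos δ - Real.cos θ := by linarith
    obtain ⟨N, hN⟩ := exists_nat_ge (1 / (Real.cos δ - Real.cos θ))
    refine tendsto_const_nhds.congr' ?_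
    filter_upwards [eventually_ge_atTop N] with n hn
    have h1 : 1 / (Real.cos δ - Real.cos θ) ≤ n := le_trans hN (by exact_mod_cast hn)
    rw [div_le_iff₀ hd] at h1
    simp only [fn]
    rw [max_eq_left]
    exact le_trans (min_le_right _ _) (by nlinarith)

theorem tendsto_int_fn {V : ℝ → ℝ} (hint : IntervalIntegrable V volume 0 (2 * Real.pi)) (δ a : ℝ) :
    Tendsto (fun n => ∫ θ in (0)..(2 * Real.pi), V θ * fn δ n (θ - a)) atTop
      (𝓝 (∫ θ in (0)..(2 * Real.pi), V θ * Ind δ (θ - a))) := by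
  refine intervalIntegral.tendsto_integral_filter_of_dominated_convergence (fun θ => ‖V θ‖) ?_ ?_ ?_ ?_
  · refine Eventually.of_forall fun n => ?_
    have : Continuous fun θ => fn δ n (θ - a) := (fn_cont δ n).comp (continuous_id.sub continuous_const)
    have h1 := (hint.mul_continuousOn this.continuousOn)
    exact (intervalIntegrable_iff.1 h1).aestronglyMeasurable
  · refine Eventually.of_forall fun n => Eventually.of_forall fun θ _ => ?_
    rw [norm_mul]
    refine mul_le_of_le_one_right (norm_nonneg _) ?_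
    rw [Real.norm_eq_abs, abs_of_nonneg (fn_nonneg _ _ _)]
    exact fn_le _ _ _
  · exact hint.norm
  · exact Eventually.of_forall fun θ _ => (fn_tendsto δ (θ - a)).const_mul (V θ)

/-- the integral against the indicator is the integral over the interval -/
theorem int_Ind {V : ℝ → ℝ} (hp : Function.Periodic V (2 * Real.pi)) {δ : ℝ} (h0 : 0 < δ)
    (hδ : δ < Real.pi) (a : ℝ) :
    ∫ θ in (0)..(2 * Real.pi), V θ * Ind δ (θ - a) = ∫ θ in (a - δ)..(a + δ), V θ := by
  have hper : Function.Periodic (fun θ => V θ * Ind δ (θ - a)) (2 * Real.pi) := fun θ => by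
    show V (θ + 2 * Real.pi) * Ind δ (θ + 2 * Real.pi - a) = V θ * Ind δ (θ - a)
    rw [hp θ, show θ + 2 * Real.pi - a = (θ - a) + 2 * Real.pi by ring, Ind_per]
  have h1 := hper.intervalIntegral_add_eq 0 (a - Real.pi)
  rw [zero_add] at h1
  rw [h1, show a - Real.pi + 2 * Real.pi = a + Real.pi by ring]
  rw [intervalIntegral.integral_of_le (by linarith [Real.pi_pos]),
    intervalIntegral.integral_of_le (by linarith)]
  rw [← integral_Icc_eq_integral_Ioc, ← integral_Icc_eq_integral_Ioc]
  have hset : ∀ θ ∈ Icc (a - Real.pi) (a + Real.pi),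
      V θ * Ind δ (θ - a) = (Icc (a - δ) (a + δ)).indicator V θ := by
    intro θ hθ
    have hcos : Real.cos δ ≤ Real.cos (θ - a) ↔ |θ - a| ≤ δ := by
      rw [← Real.cos_abs (θ - a)]
      have hab : |θ - a| ≤ Real.pi := by
        rw [abs_le]; constructor <;> linarith [hθ.1, hθ.2]
      exact Real.strictAntiOn_cos.le_iff_ge ⟨h0.le, hδ.le⟩ ⟨abs_nonneg _, hab⟩
    have hmem : θ ∈ Icc (a - δ) (a + δ) ↔ |θ - a| ≤ δ := by
      rw [abs_le, mem_Icc]; constructor <;> rintro ⟨h1, h2⟩ <;> constructor <;> linarith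
    unfold Ind indicator
    by_cases h : |θ - a| ≤ δ
    · rw [if_pos (hcos.2 h), if_pos (hmem.2 h), mul_one]
    · rw [if_neg (fun h' => h (hcos.1 h')), if_neg (fun h' => h (hmem.1 h')), mul_zero]
  rw [setIntegral_congr_fun measurableSet_Icc hset, setIntegral_indicator measurableSet_Icc,
    inter_eq_self_of_subset_right (Icc_subset_Icc (by linarith) (by linarith))]

theorem avg_diff_le {V : ℝ → ℝ} {C : ℝ} (hV : SecondBdd V C)
    (hp : Function.Periodic V (2 * Real.pi))
    (hint : IntervalIntegrable V volume 0 (2 * Real.pi)) {δ : ℝ} (h0 : 0 < δ)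
    (hδ : δ < Real.pi) (a b : ℝ) :
    (∫ θ in (a - δ)..(a + δ), V θ) - ∫ θ in (b - δ)..(b + δ), V θ
      ≤ C * (2 * (2 * δ) * |a - b|) := by
  have h1 := (tendsto_int_fn hint δ a).sub (tendsto_int_fn hint δ b)
  rw [int_Ind hp h0 hδ a, int_Ind hp h0 hδ b] at h1
  have h2 : Tendsto (fun n => C * (2 * (∫ θ in (0)..(2 * Real.pi), fn δ n θ) * |a - b|)) atTop
      (𝓝 (C * (2 * (2 * δ) * |a - b|))) := by
    have h3 := tendsto_int_fn (V := fun _ => (1 : ℝ)) intervalIntegrable_const δ 0
    rw [int_Ind (fun _ => rfl) h0 hδ 0] at h3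
    simp only [one_mul, sub_zero, intervalIntegral.integral_const, smul_eq_mul, mul_one] at h3
    rw [show 0 + δ - (0 - δ) = 2 * δ by ring] at h3
    exact ((h3.const_mul 2).mul_const _).const_mul C
  exact le_of_tendsto_of_tendsto' h1 h2 fun n =>
    diff_le hV hint (fn_cont δ n) (fn_per δ n) (fn_nonneg δ n) a b

/-- `V` is almost everywhere equal to a Lipschitz function. -/
theorem exists_lipschitz {V : ℝ → ℝ} {C : ℝ} (hC : 0 ≤ C) (hV : SecondBdd V C)
    (hp : Function.Periodic V (2 * Real.pi)) (hnn : ∀ θ, 0 ≤ V θ)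
    (hint : IntervalIntegrable V volume 0 (2 * Real.pi)) :
    ∃ W : ℝ → ℝ, (∀ a b, |W a - W b| ≤ 2 * C * |a - b|) ∧ Function.Periodic W (2 * Real.pi) ∧
      (∀ θ, 0 ≤ W θ) ∧ ∀ᵐ θ : ℝ, W θ = V θ := by
  have hpi : (2 * Real.pi : ℝ) ≠ 0 := by positivity
  have hall : ∀ x y, IntervalIntegrable V volume x y := fun x y =>
    hp.intervalIntegrable₀ hpi hint x y
  have hloc : LocallyIntegrable V volume := by
    intro x
    refine ⟨Ioc (x - 1) (x + 1), Ioc_mem_nhds (by linarith) (by linarith), ?_⟩
    exact (intervalIntegrable_iff_integrableOn_Ioc_of_le (by linarith)).1 (hall _ _)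
  have hLDT := LocallyIntegrable.ae_hasDerivAt_integral hloc
  set G : ℝ → ℝ := fun x => ∫ t in (0)..x, V t with hG
  set S : Set ℝ := {x | HasDerivAt G (V x) x} with hS
  have hSae : ∀ᵐ x : ℝ, x ∈ S := by
    filter_upwards [hLDT] with x hx using hx 0
  have hlim : ∀ x ∈ S, Tendsto (fun δ : ℝ => (1 / (2 * δ)) * ∫ θ in (x - δ)..(x + δ), V θ) (𝓝[>] 0)
      (𝓝 (V x)) := by
    intro x hx
    have hx' : HasDerivAt G (V x) (x + 0) := by rw [add_zero]; exact hx
    have hx'' : HasDerivAt G (V x) (x - 0) := by rw [sub_zero]; exact hx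
    have h1 : HasDerivAt (fun δ => G (x + δ)) (V x) 0 := by
      simpa using hx'.comp_const_add x 0
    have h2 : HasDerivAt (fun δ => G (x - δ)) (-(V x)) 0 := by
      simpa using hx''.comp_const_sub x 0
    have h3 := (h1.sub h2).tendsto_slope_zero_right
    have h4 := h3.const_mul (1 / 2)
    rw [show 1 / 2 * (V x - -V x) = V x by ring] at h4
    refine h4.congr fun δ => ?_
    have h5 : ∫ θ in (x - δ)..(x + δ), V θ = G (x + δ) - G (x - δ) := by
      simp only [hG]
      rw [← intervalIntegral.integral_interval_sub_left (hall 0 (x + δ)) (hall 0 (x - δ))]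
    rw [h5]
    simp only [Pi.sub_apply, zero_add, add_zero, sub_zero, sub_self, smul_eq_mul, one_div, mul_inv]
    ring
  have hLip0 : ∀ x ∈ S, ∀ y ∈ S, V x - V y ≤ 2 * C * |x - y| := by
    intro x hx y hy
    have h1 := (hlim x hx).sub (hlim y hy)
    refine le_of_tendsto h1 ?_
    filter_upwards [Ioo_mem_nhdsGT Real.pi_pos] with δ hδ
    have h2 := avg_diff_le hV hp hint hδ.1 hδ.2 x y
    rw [← mul_sub, one_div, inv_mul_le_iff₀ (by linarith [hδ.1])]
    calc _ ≤ _ := h2
      _ = 2 * δ * (2 * C * |x - y|) := by ring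
  have hLip : LipschitzOnWith (2 * C).toNNReal V S := by
    refine LipschitzOnWith.of_dist_le_mul fun x hx y hy => ?_
    rw [Real.coe_toNNReal _ (by positivity), Real.dist_eq, Real.dist_eq, abs_le]
    constructor
    · have := hLip0 y hy x hx
      rw [abs_sub_comm] at this
      linarith
    · exact hLip0 x hx y hy
  obtain ⟨W, hW, hWV⟩ := hLip.extend_real
  have hWae : ∀ᵐ θ : ℝ, W θ = V θ := by
    filter_upwards [hSae] with θ hθ using (hWV hθ).symm
  refine ⟨W, fun a b => ?_, ?_, ?_, hWae⟩
  · have := hW.dist_le_mul a b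
    rwa [Real.coe_toNNReal _ (by positivity), Real.dist_eq, Real.dist_eq] at this
  · have h1 : ∀ᵐ θ : ℝ, W (θ + 2 * Real.pi) = V (θ + 2 * Real.pi) :=
      (measurePreserving_add_right volume (2 * Real.pi)).quasiMeasurePreserving.ae hWae
    have h2 : (fun θ => W (θ + 2 * Real.pi)) =ᵐ[volume] W := by
      filter_upwards [h1, hWae] with θ h1 h2
      rw [h1, h2, hp θ]
    have h3 := (Continuous.ae_eq_iff_eq (μ := (volume : Measure ℝ))
      (hW.continuous.comp (continuous_id.add continuous_const)) hW.continuous).1 h2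
    intro θ
    exact congrFun h3 θ
  · have h2 : (fun θ => max (W θ) 0) =ᵐ[volume] W := by
      filter_upwards [hWae] with θ h
      rw [max_eq_left]
      rw [h]; exact hnn θ
    have h3 := (Continuous.ae_eq_iff_eq (μ := (volume : Measure ℝ))
      (hW.continuous.max continuous_const) hW.continuous).1 h2
    intro θ
    rw [← congrFun h3 θ]
    exact le_max_right _ _

end DW24
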