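import Pool.Agent.DW24.DefsS
import Pool.Agent.DW24.E

/-!
MP_24b0ce_an, module ES: limit extraction for the spiral operator
`LS s ρ ψ = (1 + s²) ψ'' + 2 s ρ ψ' + ρ² ψ`, uniformly in the pitch `s`.
-/

set_option autoImplicit false

open MeasureTheory Filter Topology Set

namespace DW24

theorem Tst.cont1 {ψ : ℝ → ℝ} (h : Tst ψ) : Continuous (deriv ψ) := by
  have h1 : ContDiff ℝ (1 + 1) ψ := h.1
  exact (contDiff_succ_iff_deriv.1 h1).2.2.continuous

theorem LS_cont {s ρ : ℝ} {ψ : ℝ → ℝ} (h : Tst ψ) : Continuous (LS s ρ ψ) := by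
  unfold LS
  exact ((continuous_const.mul h.cont2).add (continuous_const.mul h.cont1)).add
    (continuous_const.mul h.cont)

theorem LS_add_const (s ρ : ℝ) {ψ : ℝ → ℝ} (c θ : ℝ) :
    LS s ρ (fun θ => ψ θ + c) θ
      = (1 + s ^ 2) * deriv (deriv ψ) θ + 2 * s * ρ * deriv ψ θ + ρ ^ 2 * (ψ θ + c) := by
  unfold LS
  have : deriv (fun θ => ψ θ + c) = deriv ψ := by funext x; exact deriv_add_const c
  rw [this]

theorem LS_one (s ρ θ : ℝ) : LS s ρ (fun _ => 1) θ = ρ ^ 2 := by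
  unfold LS
  simp

/-- periodic solution of `E' + κ E = k` -/
theorem exists_E {κ : ℝ} (hκ : κ ≠ 0) {k : ℝ → ℝ} (hk : Continuous k)
    (hp : Function.Periodic k (2 * Real.pi)) {b : ℝ} (hb : ∀ x, |k x| ≤ b) :
    ∃ E : ℝ → ℝ, (∀ x, HasDerivAt E (k x - κ * E x) x) ∧ Function.Periodic E (2 * Real.pi) ∧
      ∀ x, |κ * E x| ≤ b := by
  have hpi : (0 : ℝ) < 2 * Real.pi := by positivity
  set h : ℝ → ℝ := fun u => Real.exp (κ * u) * k u with hh
  have hhc : Continuous h := (by fun_prop : Continuous fun u => Real.exp (κ * u)).mul hk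
  set J : ℝ → ℝ := fun x => ∫ u in (0)..x, h u with hJ
  have hJd : ∀ x, HasDerivAt J (h x) x := fun x =>
    intervalIntegral.integral_hasDerivAt_right (hhc.intervalIntegrable _ _)
      (hhc.stronglyMeasurableAtFilter _ _) hhc.continuousAt
  have hd0 : Real.exp (2 * Real.pi * κ) - 1 ≠ 0 := by
    intro h0
    have h1 : Real.exp (2 * Real.pi * κ) = Real.exp 0 := by rw [Real.exp_zero]; linarith
    have h2 := Real.exp_injective h1
    rcases mul_eq_zero.1 h2 with h3 | h3
    · exact hpi.ne' h3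
    · exact hκ h3
  set c₀ : ℝ := (Real.exp (2 * Real.pi * κ) - 1)⁻¹ with hc₀
  have hc₀' : c₀ * (Real.exp (2 * Real.pi * κ) - 1) = 1 := inv_mul_cancel₀ hd0
  have hdiff : ∀ x, J (x + 2 * Real.pi) - J x = ∫ u in x..(x + 2 * Real.pi), h u := fun x =>
    intervalIntegral.integral_interval_sub_left (hhc.intervalIntegrable _ _)
      (hhc.intervalIntegrable _ _)
  refine ⟨fun x => c₀ * (Real.exp (-(κ * x)) * (J (x + 2 * Real.pi) - J x)), ?_, ?_, ?_⟩
  · intro x
    have h1 : HasDerivAt (fun x => Real.exp (-(κ * x))) (Real.exp (-(κ * x)) * (-κ)) x := by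
      have h2 : HasDerivAt (fun x : ℝ => -(κ * x)) (-κ) x := by
        have h3 := ((hasDerivAt_id x).const_mul κ).neg
        rw [mul_one] at h3
        exact h3
      exact h2.exp
    have h2 : HasDerivAt (fun x => J (x + 2 * Real.pi) - J x) (h (x + 2 * Real.pi) - h x) x :=
      ((hJd (x + 2 * Real.pi)).comp_add_const x (2 * Real.pi)).sub (hJd x)
    have h3 := (h1.mul h2).const_mul c₀
    refine h3.congr_deriv ?_
    have h4 : Real.exp (-(κ * x)) * (h (x + 2 * Real.pi) - h x)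
        = (Real.exp (2 * Real.pi * κ) - 1) * k x := by
      simp only [hh]
      rw [hp x, ← sub_mul, ← mul_assoc]
      congr 1
      rw [mul_sub, ← Real.exp_add, ← Real.exp_add]
      rw [show -(κ * x) + κ * (x + 2 * Real.pi) = 2 * Real.pi * κ by ring,
        show -(κ * x) + κ * x = 0 by ring, Real.exp_zero]
    have h5 : c₀ * (Real.exp (-(κ * x)) * (h (x + 2 * Real.pi) - h x)) = k x := by
      rw [h4, ← mul_assoc, hc₀', one_mul]
    linear_combination h5
  · intro x
    show c₀ * (Real.exp (-(κ * (x + 2 * Real.pi))) * (J (x + 2 * Real.pi + 2 * Real.pi)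
      - J (x + 2 * Real.pi))) = c₀ * (Real.exp (-(κ * x)) * (J (x + 2 * Real.pi) - J x))
    rw [hdiff, hdiff]
    have h1 : ∫ u in (x + 2 * Real.pi)..(x + 2 * Real.pi + 2 * Real.pi), h u
        = Real.exp (2 * Real.pi * κ) * ∫ u in x..(x + 2 * Real.pi), h u := by
      rw [← intervalIntegral.integral_comp_add_right, ← intervalIntegral.integral_const_mul]
      refine intervalIntegral.integral_congr fun u _ => ?_
      simp only [hh]
      rw [hp u, ← mul_assoc, ← Real.exp_add]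
      congr 2
      ring
    rw [h1, ← mul_assoc (Real.exp _), ← Real.exp_add]
    rw [show -(κ * (x + 2 * Real.pi)) + 2 * Real.pi * κ = -(κ * x) by ring]
  · intro x
    have hle : x ≤ x + 2 * Real.pi := by linarith
    have hb0 : 0 ≤ b := le_trans (abs_nonneg _) (hb 0)
    have h1 : |J (x + 2 * Real.pi) - J x| ≤ ∫ u in x..(x + 2 * Real.pi), b * Real.exp (κ * u) := by
      rw [hdiff, ← Real.norm_eq_abs]
      refine intervalIntegral.norm_integral_le_of_norm_le hle ?_
        ((by fun_prop : Continuous fun u => b * Real.exp (κ * u)).intervalIntegrable _ _)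
      refine Eventually.of_forall fun u _ => ?_
      simp only [hh]
      rw [norm_mul, Real.norm_eq_abs, Real.norm_eq_abs, abs_of_pos (Real.exp_pos _), mul_comm]
      exact mul_le_mul_of_nonneg_right (hb u) (Real.exp_pos _).le
    have h2 : ∫ u in x..(x + 2 * Real.pi), b * Real.exp (κ * u)
        = b * (Real.exp (κ * x) * ((Real.exp (2 * Real.pi * κ) - 1) / κ)) := by
      rw [intervalIntegral.integral_const_mul]
      congr 1
      have h3 : ∀ u ∈ uIcc x (x + 2 * Real.pi),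
          HasDerivAt (fun u => Real.exp (κ * u) / κ) (Real.exp (κ * u)) u := by
        intro u _
        have h4 : HasDerivAt (fun u : ℝ => κ * u) κ u := by
          simpa using (hasDerivAt_id u).const_mul κ
        have h5 := h4.exp.div_const κ
        refine h5.congr_deriv ?_
        field_simp
      rw [intervalIntegral.integral_eq_sub_of_hasDerivAt h3
        ((by fun_prop : Continuous fun u => Real.exp (κ * u)).intervalIntegrable _ _)]
      rw [show κ * (x + 2 * Real.pi) = κ * x + 2 * Real.pi * κ by ring, Real.exp_add]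
      field_simp
    rw [h2] at h1
    -- positivity of (e^{2πκ} - 1)/κ
    have h3 : |κ * c₀| * ((Real.exp (2 * Real.pi * κ) - 1) / κ) = 1 := by
      have h4 : 0 < (Real.exp (2 * Real.pi * κ) - 1) / κ := by
        rcases lt_or_gt_of_ne hκ with h5 | h5
        · have h6 : Real.exp (2 * Real.pi * κ) < 1 := Real.exp_lt_one_iff.2 (by nlinarith)
          exact div_pos_of_neg_of_neg (by linarith) h5
        · have h6 : 1 < Real.exp (2 * Real.pi * κ) := by
            rw [Real.one_lt_exp_iff]; positivity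
          exact div_pos (by linarith) h5
      have h5 : κ * c₀ = ((Real.exp (2 * Real.pi * κ) - 1) / κ)⁻¹ := by
        rw [hc₀, inv_div, div_eq_mul_inv]
      rw [h5, abs_of_pos (inv_pos.2 h4), inv_mul_cancel₀ h4.ne']
    calc |κ * (c₀ * (Real.exp (-(κ * x)) * (J (x + 2 * Real.pi) - J x)))|
        = |κ * c₀| * (Real.exp (-(κ * x)) * |J (x + 2 * Real.pi) - J x|) := by
          rw [← mul_assoc κ, abs_mul (κ * c₀), abs_mul (Real.exp _), abs_of_pos (Real.exp_pos _)]
      _ ≤ |κ * c₀| * (Real.exp (-(κ * x)) * (b * (Real.exp (κ * x)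
            * ((Real.exp (2 * Real.pi * κ) - 1) / κ)))) := by
          refine mul_le_mul_of_nonneg_left ?_ (abs_nonneg _)
          exact mul_le_mul_of_nonneg_left h1 (Real.exp_pos _).le
      _ = (Real.exp (-(κ * x)) * Real.exp (κ * x)) * b
            * (|κ * c₀| * ((Real.exp (2 * Real.pi * κ) - 1) / κ)) := by ring
      _ = b := by
          rw [h3, ← Real.exp_add, show -(κ * x) + κ * x = 0 by ring, Real.exp_zero]
          ring

/-- periodic solution of `(1 + s²) Q'' + 2 s ρ Q' = f - mean f` -/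
theorem exists_Q (s ρ : ℝ) {f : ℝ → ℝ} (hf : Continuous f) (hp : Function.Periodic f (2 * Real.pi))
    (h0 : ∀ θ, 0 ≤ f θ) {c : ℝ} (hc : ∫ θ in (0)..(2 * Real.pi), f θ = c) :
    ∃ Q Q' : ℝ → ℝ, (∀ x, HasDerivAt Q (Q' x) x) ∧
      (∀ x, HasDerivAt Q' ((f x - c / (2 * Real.pi) - 2 * s * ρ * Q' x) / (1 + s ^ 2)) x) ∧
      Function.Periodic Q (2 * Real.pi) ∧ ∀ x, |Q' x| ≤ 4 * c / (1 + s ^ 2) := by
  have hs : 0 < 1 + s ^ 2 := by positivity
  obtain ⟨P, P', h1, h2, h3, h4⟩ := exists_P hf hp h0 hc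
  have hc0 : 0 ≤ c := by
    have := le_trans (abs_nonneg _) (h4 0)
    linarith
  by_cases hκ : 2 * s * ρ = 0
  · refine ⟨fun x => P x / (1 + s ^ 2), fun x => P' x / (1 + s ^ 2), fun x => (h1 x).div_const _,
      fun x => ?_, fun x => ?_, fun x => ?_⟩
    · refine ((h2 x).div_const _).congr_deriv ?_
      rw [hκ, zero_mul, sub_zero]
    · show P (x + 2 * Real.pi) / _ = _
      rw [h3]
    · rw [abs_div, abs_of_pos hs]
      exact div_le_div_of_nonneg_right (le_trans (h4 x) (by linarith)) hs.le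
  · set κ : ℝ := 2 * s * ρ / (1 + s ^ 2) with hκd
    have hκ0 : κ ≠ 0 := div_ne_zero hκ hs.ne'
    have hP'c : Continuous P' := continuous_iff_continuousAt.2 fun x => (h2 x).continuousAt
    have hP'p : Function.Periodic P' (2 * Real.pi) := by
      intro x
      have e : (fun x => P (x + 2 * Real.pi)) = P := funext fun x => h3 x
      have g1 : HasDerivAt (fun x => P (x + 2 * Real.pi)) (P' (x + 2 * Real.pi)) x :=
        (h1 (x + 2 * Real.pi)).comp_add_const x (2 * Real.pi)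
      rw [e] at g1
      exact g1.unique (h1 x)
    obtain ⟨E, e1, e2, e3⟩ := exists_E hκ0 hP'c hP'p h4
    refine ⟨fun x => E x / (1 + s ^ 2), fun x => (P' x - κ * E x) / (1 + s ^ 2),
      fun x => (e1 x).div_const _, fun x => ?_, fun x => ?_, fun x => ?_⟩
    · have g1 := ((h2 x).sub ((e1 x).const_mul κ)).div_const (1 + s ^ 2)
      refine g1.congr_deriv ?_
      rw [hκd]
      field_simp
    · show E (x + 2 * Real.pi) / _ = _
      rw [e2]
    · rw [abs_div, abs_of_pos hs]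
      refine div_le_div_of_nonneg_right ?_ hs.le
      have g1 := abs_sub (P' x) (κ * E x)
      have g2 := h4 x
      have g3 := e3 x
      linarith

/-- The first order differences of `V` are bounded against test functions. -/
def DiffBdd (V : ℝ → ℝ) (C : ℝ) : Prop :=
  ∀ f : ℝ → ℝ, Continuous f → Function.Periodic f (2 * Real.pi) → (∀ θ, 0 ≤ f θ) → ∀ a b : ℝ,
    (∫ θ in (0)..(2 * Real.pi), V θ * f (θ - a)) - ∫ θ in (0)..(2 * Real.pi), V θ * f (θ - b)
      ≤ C * (2 * (∫ θ in (0)..(2 * Real.pi), f θ) * |a - b|)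

theorem diffBdd_of {V : ℝ → ℝ} {s ρ C : ℝ}
    (hV : ∀ ψ σ, Tst ψ → (∀ θ, |ψ θ| ≤ σ) →
      ∫ θ in (0)..(2 * Real.pi), V θ * ((1 + s ^ 2) * deriv (deriv ψ) θ + 2 * s * ρ * deriv ψ θ)
        ≤ C * σ)
    (hint : IntervalIntegrable V volume 0 (2 * Real.pi)) :
    DiffBdd V (2 * C / (1 + s ^ 2)) := by
  intro f hf hp h0 a b
  have hs : 0 < 1 + s ^ 2 := by positivity
  obtain ⟨Q, Q', h1, h2, h3, h4⟩ := exists_Q s ρ hf hp h0 rfl
  set c := ∫ θ in (0)..(2 * Real.pi), f θ with hc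
  set ψ : ℝ → ℝ := fun θ => Q (θ - a) - Q (θ - b) with hψ
  set Q'' : ℝ → ℝ := fun x => (f x - c / (2 * Real.pi) - 2 * s * ρ * Q' x) / (1 + s ^ 2) with hQ''
  have hQ'c : Continuous Q' := continuous_iff_continuousAt.2 fun x => (h2 x).continuousAt
  have hQ''c : Continuous Q'' := by
    rw [hQ'']
    exact ((hf.sub continuous_const).sub (continuous_const.mul hQ'c)).div_const _
  have d1 : ∀ x, HasDerivAt ψ (Q' (x - a) - Q' (x - b)) x := fun x =>
    ((h1 (x - a)).comp_sub_const x a).sub ((h1 (x - b)).comp_sub_const x b)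
  have d2 : ∀ x, HasDerivAt (fun x => Q' (x - a) - Q' (x - b)) (Q'' (x - a) - Q'' (x - b)) x :=
    fun x => ((h2 (x - a)).comp_sub_const x a).sub ((h2 (x - b)).comp_sub_const x b)
  have hc2 : Continuous fun x => Q'' (x - a) - Q'' (x - b) :=
    (hQ''c.comp (continuous_id.sub continuous_const)).sub
      (hQ''c.comp (continuous_id.sub continuous_const))
  have hT : Tst ψ := by
    refine ⟨contDiff_two_of d1 d2 hc2, fun x => ?_⟩
    show Q (x + 2 * Real.pi - a) - Q (x + 2 * Real.pi - b) = Q (x - a) - Q (x - b)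
    rw [show x + 2 * Real.pi - a = (x - a) + 2 * Real.pi by ring,
      show x + 2 * Real.pi - b = (x - b) + 2 * Real.pi by ring, h3, h3]
  have hb : ∀ θ, |ψ θ| ≤ 4 * c / (1 + s ^ 2) * |a - b| := by
    intro θ
    have := Convex.norm_image_sub_le_of_norm_hasDerivWithin_le (f := Q) (f' := Q') (s := univ)
      (C := 4 * c / (1 + s ^ 2)) (fun x _ => (h1 x).hasDerivWithinAt) (fun x _ => by
        rw [Real.norm_eq_abs]; exact h4 x) convex_univ (mem_univ (θ - b)) (mem_univ (θ - a))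
    rw [Real.norm_eq_abs, Real.norm_eq_abs, show θ - a - (θ - b) = -(a - b) by ring, abs_neg] at this
    exact this
  have h := hV ψ _ hT hb
  have e1 : deriv ψ = fun x => Q' (x - a) - Q' (x - b) := funext fun x => (d1 x).deriv
  have e2 : deriv (deriv ψ) = fun x => Q'' (x - a) - Q'' (x - b) := by
    rw [e1]; exact funext fun x => (d2 x).deriv
  rw [e2, e1] at h
  have e3 : ∀ θ, (1 + s ^ 2) * (Q'' (θ - a) - Q'' (θ - b)) + 2 * s * ρ * (Q' (θ - a) - Q' (θ - b))
      = f (θ - a) - f (θ - b) := by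
    intro θ
    simp only [hQ'']
    field_simp
    ring
  simp only [e3] at h
  have hia : IntervalIntegrable (fun θ => V θ * f (θ - a)) volume 0 (2 * Real.pi) :=
    hint.mul_continuousOn (hf.comp (continuous_id.sub continuous_const)).continuousOn
  have hib : IntervalIntegrable (fun θ => V θ * f (θ - b)) volume 0 (2 * Real.pi) :=
    hint.mul_continuousOn (hf.comp (continuous_id.sub continuous_const)).continuousOn
  rw [← intervalIntegral.integral_sub hia hib]
  calc _ = ∫ θ in (0)..(2 * Real.pi), V θ * (f (θ - a) - f (θ - b)) := by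
        congr 1; funext θ; ring
    _ ≤ _ := h
    _ = _ := by ring

theorem avg_diff_leS {V : ℝ → ℝ} {C : ℝ} (hV : DiffBdd V C)
    (hp : Function.Periodic V (2 * Real.pi))
    (hint : IntervalIntegrable V volume 0 (2 * Real.pi)) {δ : ℝ} (h0 : 0 < δ)
    (hδ : δ < Real.pi) (a b : ℝ) :
    (∫ θ in (a - δ)..(a + δ), V θ) - ∫ θ in (b - δ)..(b + δ), V θ
      ≤ C * (2 * (2 * δ) * |a - b|) := by
  have h1 := (tendsto_int_fn hint δ a).sub (tendsto_int_fn hint δ b)
  rw [int_Ind hp h0 hδ a, int_Ind hp h0 hδ b] at h1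
  have h2 : Tendsto (fun n => C * (2 * (∫ θ in (0)..(2 * Real.pi), fn δ n θ) * |a - b|)) atTop
      (𝓝 (C * (2 * (2 * δ) * |a - b|))) := by
    have h3 := tendsto_int_fn (V := fun _ => (1 : ℝ)) intervalIntegrable_const δ 0
    rw [int_Ind (fun _ => rfl) h0 hδ 0] at h3
    simp only [one_mul, sub_zero, intervalIntegral.integral_const, smul_eq_mul, mul_one] at h3
    rw [show 0 + δ - (0 - δ) = 2 * δ by ring] at h3
    exact ((h3.const_mul 2).mul_const _).const_mul C
  exact le_of_tendsto_of_tendsto' h1 h2 fun n =>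
    hV _ (fn_cont δ n) (fn_per δ n) (fn_nonneg δ n) a b

/-- `V` is almost everywhere equal to a Lipschitz function. -/
theorem exists_lipschitzS {V : ℝ → ℝ} {C : ℝ} (hC : 0 ≤ C) (hV : DiffBdd V C)
    (hp : Function.Periodic V (2 * Real.pi)) (hnn : ∀ θ, 0 ≤ V θ)
    (hint : IntervalIntegrable V volume 0 (2 * Real.pi)) :
    ∃ W : ℝ → ℝ, (∀ a b, |W a - W b| ≤ 2 * C * |a - b|) ∧ Function.Periodic W (2 * Real.pi) ∧
      (∀ θ, 0 ≤ W θ) ∧ ∀ᵐ θ : ℝ, W θ = V θ := by
  have hpi : (2 * Real.pi : ℝ) ≠ 0 := by positivity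
  have hall : ∀ x y, IntervalIntegrable V volume x y := fun x y =>
    hp.intervalIntegrable₀ hpi hint x y
  have hloc : LocallyIntegrable V volume := by
    intro x
    refine ⟨Ioc (x - 1) (x + 1), Ioc_mem_nhds (by linarith) (by linarith), ?_⟩
    exact (intervalIntegrable_iff_integrableOn_Ioc_of_le (by linarith)).1 (hall _ _)
  have hLDT := LocallyIntegrable.ae_hasDerivAt_integral hloc
  set G : ℝ → ℝ := fun x => ∫ t in (0)..x, V t with hG
  set S : Set ℝ := {x | HasDerivAt G (V x) x} with hS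
  have hSae : ∀ᵐ x : ℝ, x ∈ S := by
    filter_upwards [hLDT] with x hx using hx 0
  have hlim : ∀ x ∈ S, Tendsto (fun δ : ℝ => (1 / (2 * δ)) * ∫ θ in (x - δ)..(x + δ), V θ) (𝓝[>] 0)
      (𝓝 (V x)) := by
    intro x hx
    have hx' : HasDerivAt G (V x) (x + 0) := by rw [add_zero]; exact hx
    have hx'' : HasDerivAt G (V x) (x - 0) := by rw [sub_zero]; exact hx
    have h1 : HasDerivAt (fun δ => G (x + δ)) (V x) 0 := by
      simpa using hx'.comp_const_add x 0
    have h2 : HasDerivAt (fun δ => G (x - δ)) (-(V x)) 0 := by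
      simpa using hx''.comp_const_sub x 0
    have h3 := (h1.sub h2).tendsto_slope_zero_right
    have h4 := h3.const_mul (1 / 2)
    rw [show 1 / 2 * (V x - -V x) = V x by ring] at h4
    refine h4.congr fun δ => ?_
    have h5 : ∫ θ in (x - δ)..(x + δ), V θ = G (x + δ) - G (x - δ) := by
      simp only [hG]
      rw [← intervalIntegral.integral_interval_sub_left (hall 0 (x + δ)) (hall 0 (x - δ))]
    rw [h5]
    simp only [Pi.sub_apply, zero_add, add_zero, sub_zero, sub_self, smul_eq_mul, one_div, mul_inv]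
    ring
  have hLip0 : ∀ x ∈ S, ∀ y ∈ S, V x - V y ≤ 2 * C * |x - y| := by
    intro x hx y hy
    have h1 := (hlim x hx).sub (hlim y hy)
    refine le_of_tendsto h1 ?_
    filter_upwards [Ioo_mem_nhdsGT Real.pi_pos] with δ hδ
    have h2 := avg_diff_leS hV hp hint hδ.1 hδ.2 x y
    rw [← mul_sub, one_div, inv_mul_le_iff₀ (by linarith [hδ.1])]
    calc _ ≤ _ := h2
      _ = 2 * δ * (2 * C * |x - y|) := by ring
  have hLip : LipschitzOnWith (2 * C).toNNReal V S := by
    refine LipschitzOnWith.of_dist_le_mul fun x hx y hy => ?_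
    rw [Real.coe_toNNReal _ (by positivity), Real.dist_eq, Real.dist_eq, abs_le]
    constructor
    · have := hLip0 y hy x hx
      rw [abs_sub_comm] at this
      linarith
    · exact hLip0 x hx y hy
  obtain ⟨W, hW, hWV⟩ := hLip.extend_real
  have hWae : ∀ᵐ θ : ℝ, W θ = V θ := by
    filter_upwards [hSae] with θ hθ using (hWV hθ).symm
  refine ⟨W, fun a b => ?_, ?_, ?_, hWae⟩
  · have := hW.dist_le_mul a b
    rwa [Real.coe_toNNReal _ (by positivity), Real.dist_eq, Real.dist_eq] at this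
  · have h1 : ∀ᵐ θ : ℝ, W (θ + 2 * Real.pi) = V (θ + 2 * Real.pi) :=
      (measurePreserving_add_right volume (2 * Real.pi)).quasiMeasurePreserving.ae hWae
    have h2 : (fun θ => W (θ + 2 * Real.pi)) =ᵐ[volume] W := by
      filter_upwards [h1, hWae] with θ h1 h2
      rw [h1, h2, hp θ]
    have h3 := (Continuous.ae_eq_iff_eq (μ := (volume : Measure ℝ))
      (hW.continuous.comp (continuous_id.add continuous_const)) hW.continuous).1 h2
    intro θ
    exact congrFun h3 θ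
  · have h2 : (fun θ => max (W θ) 0) =ᵐ[volume] W := by
      filter_upwards [hWae] with θ h
      rw [max_eq_left]
      rw [h]; exact hnn θ
    have h3 := (Continuous.ae_eq_iff_eq (μ := (volume : Measure ℝ))
      (hW.continuous.max continuous_const) hW.continuous).1 h2
    intro θ
    rw [← congrFun h3 θ]
    exact le_max_right _ _

/-- the first order bound from the inequality against positive test functions -/
theorem firstBdd_of {V : ℝ → ℝ} (h0 : ∀ θ, 0 ≤ V θ)
    (hint : IntervalIntegrable V volume 0 (2 * Real.pi)) {s ρ : ℝ}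
    {M : (ℝ → ℝ) → ℝ} (hM : PosFun M)
    (hV : ∀ ψ, Tst ψ → (∀ θ, 0 ≤ ψ θ) →
      ∫ θ in (0)..(2 * Real.pi), V θ * LS s ρ ψ θ ≤ M ψ) :
    ∀ ψ σ, Tst ψ → (∀ θ, |ψ θ| ≤ σ) →
      ∫ θ in (0)..(2 * Real.pi), V θ * ((1 + s ^ 2) * deriv (deriv ψ) θ + 2 * s * ρ * deriv ψ θ)
        ≤ 2 * M (fun _ => 1) * σ := by
  intro ψ σ hψ hs
  have hφ : Tst (fun θ => ψ θ + σ) := hψ.add (Tst_const σ)
  have h1 := hV _ hφ fun θ => by linarith [(_root_.abs_le.1 (hs θ)).1]
  have h2 : M (fun θ => ψ θ + σ) ≤ 2 * M (fun _ => 1) * σ := by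
    have := hM.mono hφ (Tst_const (2 * σ)) fun θ => by linarith [(_root_.abs_le.1 (hs θ)).2]
    rw [hM.const] at this
    linarith
  refine le_trans ?_ (le_trans h1 h2)
  have i1 : IntervalIntegrable (fun θ => V θ * ((1 + s ^ 2) * deriv (deriv ψ) θ
      + 2 * s * ρ * deriv ψ θ)) volume 0 (2 * Real.pi) :=
    hint.mul_continuousOn ((continuous_const.mul hψ.cont2).add
      (continuous_const.mul hψ.cont1)).continuousOn
  have i2 : IntervalIntegrable (fun θ => V θ * LS s ρ (fun θ => ψ θ + σ) θ) volume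
      0 (2 * Real.pi) := hint.mul_continuousOn (LS_cont hφ).continuousOn
  refine intervalIntegral.integral_mono_on (by positivity) i1 i2 fun θ _ => ?_
  rw [LS_add_const]
  have h3 : 0 ≤ ψ θ + σ := by linarith [(_root_.abs_le.1 (hs θ)).1]
  exact mul_le_mul_of_nonneg_left (by nlinarith [mul_nonneg (sq_nonneg ρ) h3]) (h0 θ)

theorem integral_le_ofS {V : ℝ → ℝ} {s ρ : ℝ} {M : (ℝ → ℝ) → ℝ}
    (hV : ∀ ψ, Tst ψ → (∀ θ, 0 ≤ ψ θ) →
      ∫ θ in (0)..(2 * Real.pi), V θ * LS s ρ ψ θ ≤ M ψ) :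
    ρ ^ 2 * ∫ θ in (0)..(2 * Real.pi), V θ ≤ M (fun _ => 1) := by
  have h1 := hV _ (Tst_const 1) fun _ => zero_le_one
  simp only [LS_one] at h1
  rw [intervalIntegral.integral_mul_const] at h1
  linarith

/-- Lipschitz representatives of one family member, with the constant `8 M(1) / (1 + s²)`. -/
theorem exists_rep {V : ℝ → ℝ} (hp : Function.Periodic V (2 * Real.pi)) (h0 : ∀ θ, 0 ≤ V θ)
    (hint : IntervalIntegrable V volume 0 (2 * Real.pi)) {s ρ : ℝ}
    {M : (ℝ → ℝ) → ℝ} (hM : PosFun M)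
    (hV : ∀ ψ, Tst ψ → (∀ θ, 0 ≤ ψ θ) →
      ∫ θ in (0)..(2 * Real.pi), V θ * LS s ρ ψ θ ≤ M ψ) {B : ℝ} (hB : M (fun _ => 1) ≤ B) :
    ∃ W : ℝ → ℝ, (∀ a b, |W a - W b| ≤ 8 * B / (1 + s ^ 2) * |a - b|) ∧
      Function.Periodic W (2 * Real.pi) ∧ (∀ θ, 0 ≤ W θ) ∧ ∀ᵐ θ : ℝ, W θ = V θ := by
  have hs : 0 < 1 + s ^ 2 := by positivity
  have hM0 := hM.one_nonneg
  obtain ⟨W, h1, h2, h3, h4⟩ := exists_lipschitzS
    (C := 2 * (2 * M (fun _ => 1)) / (1 + s ^ 2)) (by positivity)
    (diffBdd_of (firstBdd_of h0 hint hM hV) hint) hp h0 hint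
  refine ⟨W, fun a b => le_trans (h1 a b) ?_, h2, h3, h4⟩
  refine mul_le_mul_of_nonneg_right ?_ (abs_nonneg _)
  rw [mul_div_assoc', div_le_div_iff_of_pos_right hs]
  linarith

/-- Limit extraction for the spiral operator with bounded pitch. -/
theorem limitExtractS {ι : Type*} [Fintype ι] {ρ : ℝ} (hρ : 1 ≤ ρ) (s : ℕ → ℝ) {B : ℝ}
    (hs : ∀ n, |s n| ≤ B) (V : ℕ → ι → ℝ → ℝ)
    (hp : ∀ n i, Function.Periodic (V n i) (2 * Real.pi))
    (h0 : ∀ n i θ, 0 ≤ V n i θ)
    (hint : ∀ n i, IntervalIntegrable (V n i) volume 0 (2 * Real.pi))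
    (M : ℕ → (ℝ → ℝ) → ℝ) (hM : ∀ n, PosFun (M n))
    (hM1 : Tendsto (fun n => M n (fun _ => 1)) atTop (𝓝 (2 * Real.pi * ρ ^ 2)))
    (hV : ∀ n i ψ, Tst ψ → (∀ θ, 0 ≤ ψ θ) →
      ∫ θ in (0)..(2 * Real.pi), V n i θ * LS (s n) ρ ψ θ ≤ M n ψ)
    (hd : ∀ i j, i ≠ j → ∀ᵐ θ : ℝ, Tendsto (fun n => min (V n i θ) (V n j θ)) atTop (𝓝 0)) :
    ∃ (F : Filter ℕ) (s' : ℝ) (W : ι → ℝ → ℝ) (M' : (ℝ → ℝ) → ℝ), F ≤ atTop ∧ F.NeBot ∧
      (∀ i, Continuous (W i)) ∧
      (∀ i, Function.Periodic (W i) (2 * Real.pi)) ∧ (∀ i θ, 0 ≤ W i θ) ∧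
      (∀ i j, i ≠ j → ∀ θ, W i θ * W j θ = 0) ∧ PosFun M' ∧
      M' (fun _ => 1) = 2 * Real.pi * ρ ^ 2 ∧
      (∀ i ψ, Tst ψ → (∀ θ, 0 ≤ ψ θ) →
        ∫ θ in (0)..(2 * Real.pi), W i θ * LS s' ρ ψ θ ≤ M' ψ) ∧
      ∀ i, Tendsto (fun n => (1 / (2 * Real.pi)) * ∫ θ in (0)..(2 * Real.pi), V n i θ) F
        (𝓝 ((1 / (2 * Real.pi)) * ∫ θ in (0)..(2 * Real.pi), W i θ)) := by
  have hpi : (0 : ℝ) < 2 * Real.pi := by positivity
  -- uniform bound of the functionals
  obtain ⟨K₀, hK₀⟩ := hM1.bddAbove_range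
  replace hK₀ : ∀ n, M n (fun _ => 1) ≤ K₀ := fun n => hK₀ (mem_range_self n)
  have hK₀0 : 0 ≤ K₀ := le_trans (hM 0).one_nonneg (hK₀ 0)
  -- Lipschitz representatives
  have hW : ∀ n i, ∃ W : ℝ → ℝ, (∀ a b, |W a - W b| ≤ 8 * K₀ * |a - b|) ∧
      Function.Periodic W (2 * Real.pi) ∧ (∀ θ, 0 ≤ W θ) ∧ ∀ᵐ θ : ℝ, W θ = V n i θ := by
    intro n i
    obtain ⟨W, h1, h2, h3, h4⟩ := exists_rep (hp n i) (h0 n i) (hint n i) (hM n) (hV n i) (hK₀ n)
    refine ⟨W, fun a b => le_trans (h1 a b) ?_, h2, h3, h4⟩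
    refine mul_le_mul_of_nonneg_right ?_ (abs_nonneg _)
    exact div_le_self (by positivity) (by nlinarith [sq_nonneg (s n)])
  choose W hWL hWp hW0 hWae using hW
  have hWc : ∀ n i, Continuous (W n i) := fun n i =>
    (LipschitzWith.of_dist_le_mul (K := (8 * K₀).toNNReal) fun a b => by
      rw [Real.coe_toNNReal _ (by positivity), Real.dist_eq, Real.dist_eq]
      exact hWL n i a b).continuous
  have hWint : ∀ n i (g : ℝ → ℝ), ∫ θ in (0)..(2 * Real.pi), V n i θ * g θ
      = ∫ θ in (0)..(2 * Real.pi), W n i θ * g θ := by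
    intro n i g
    refine intervalIntegral.integral_congr_ae ?_
    filter_upwards [hWae n i] with θ hθ _
    rw [hθ]
  have hWint1 : ∀ n i, ∫ θ in (0)..(2 * Real.pi), V n i θ
      = ∫ θ in (0)..(2 * Real.pi), W n i θ := by
    intro n i
    have := hWint n i (fun _ => 1)
    simpa using this
  have hVint : ∀ n i, ∫ θ in (0)..(2 * Real.pi), V n i θ ≤ K₀ := by
    intro n i
    have h1 := integral_le_ofS (hV n i)
    have h2 : 0 ≤ ∫ θ in (0)..(2 * Real.pi), V n i θ :=
      intervalIntegral.integral_nonneg (by positivity) fun θ _ => h0 n i θ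
    have h3 := hK₀ n
    nlinarith [mul_nonneg h2 (by nlinarith : (0 : ℝ) ≤ ρ ^ 2 - 1)]
  -- uniform bound
  set K : ℝ := 16 * Real.pi * K₀ + K₀ with hK
  have hWK : ∀ n i θ, W n i θ ≤ K := by
    intro n i θ
    obtain ⟨y, hy, hxy⟩ := (hWp n i).exists_mem_Ico₀ hpi θ
    rw [hxy]
    have h1 : ∫ θ in (0)..(2 * Real.pi), W n i θ ≤ K₀ := by
      rw [← hWint1]
      exact hVint n i
    have h2 : ∫ _θ in (0)..(2 * Real.pi), (W n i y - 16 * Real.pi * K₀)
        ≤ ∫ θ in (0)..(2 * Real.pi), W n i θ := by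
      refine intervalIntegral.integral_mono_on hpi.le intervalIntegrable_const
        ((hWc n i).intervalIntegrable _ _) fun x hx => ?_
      have h3 := hWL n i y x
      have h4 : |y - x| ≤ 2 * Real.pi := by
        rw [_root_.abs_le]; constructor <;> linarith [hy.1, hy.2, hx.1, hx.2]
      have h5 := (_root_.abs_le.1 h3).2
      nlinarith
    rw [intervalIntegral.integral_const, smul_eq_mul, sub_zero] at h2
    have h6 : W n i y - 16 * Real.pi * K₀ ≤ K₀ / (2 * Real.pi) := by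
      rw [le_div_iff₀ hpi]; linarith
    have h7 : K₀ / (2 * Real.pi) ≤ K₀ := div_le_self hK₀0 (by linarith [Real.pi_gt_three])
    linarith
  have hK0 : 0 ≤ K := by positivity
  -- subsequence converging at all rationals, and convergence of the pitch
  obtain ⟨a, -, φ, hφ, hlim0⟩ := ((isCompact_Icc (a := -B) (b := B)).prod (isCompact_univ_pi
    (fun _ : ℚ × ι => isCompact_Icc (a := (0 : ℝ)) (b := K)))).tendsto_subseq
    (x := fun n => (s n, fun (q : ℚ × ι) => W n q.2 (q.1 : ℝ)))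
    (fun n => ⟨⟨(_root_.abs_le.1 (hs n)).1, (_root_.abs_le.1 (hs n)).2⟩,
      fun q _ => ⟨hW0 _ _ _, hWK _ _ _⟩⟩)
  have hslim : Tendsto (fun n => s (φ n)) atTop (𝓝 a.1) :=
    (continuous_fst.tendsto a).comp hlim0
  have hlim : ∀ q : ℚ × ι, Tendsto (fun n => W (φ n) q.2 (q.1 : ℝ)) atTop (𝓝 (a.2 q)) := by
    intro q
    have h1 : Tendsto (fun n => fun q : ℚ × ι => W (φ n) q.2 (q.1 : ℝ)) atTop (𝓝 a.2) :=
      (continuous_snd.tendsto a).comp hlim0
    exact (tendsto_pi_nhds.1 h1) q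
  have hcau : ∀ i θ, CauchySeq fun n => W (φ n) i θ := by
    intro i θ
    rw [Metric.cauchySeq_iff]
    intro ε hε
    obtain ⟨q, hq⟩ := exists_rat_near θ (show (0 : ℝ) < ε / (3 * (8 * K₀ + 1)) by positivity)
    have hq' : 8 * K₀ * |θ - q| ≤ ε / 3 := by
      have h1 : 8 * K₀ * |θ - q| ≤ (8 * K₀ + 1) * (ε / (3 * (8 * K₀ + 1))) :=
        mul_le_mul (by linarith) hq.le (abs_nonneg _) (by positivity)
      refine le_trans h1 (le_of_eq ?_)
      field_simp
    have hc := (hlim (q, i)).cauchySeq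
    rw [Metric.cauchySeq_iff] at hc
    obtain ⟨N, hN⟩ := hc (ε / 3) (by positivity)
    refine ⟨N, fun m hm n hn => ?_⟩
    have h1 := hN m hm n hn
    rw [Real.dist_eq] at h1 ⊢
    have h2 := hWL (φ m) i θ q
    have h3 := hWL (φ n) i θ q
    have h4 : |W (φ m) i θ - W (φ n) i θ| ≤ |W (φ m) i θ - W (φ m) i q|
        + |W (φ m) i q - W (φ n) i q| + |W (φ n) i θ - W (φ n) i q| := by
      have e : W (φ m) i θ - W (φ n) i θ = (W (φ m) i θ - W (φ m) i q)
        + (W (φ m) i q - W (φ n) i q) + -(W (φ n) i θ - W (φ n) i q) := by ring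
      rw [e]
      refine le_trans (abs_add_le _ _) ?_
      rw [abs_neg]
      exact add_le_add_left (abs_add_le _ _) _
    linarith
  have hex : ∀ i θ, ∃ l, Tendsto (fun n => W (φ n) i θ) atTop (𝓝 l) := fun i θ =>
    cauchySeq_tendsto_of_complete (hcau i θ)
  choose Wl hWl using hex
  have hlL : ∀ i a b, |Wl i a - Wl i b| ≤ 8 * K₀ * |a - b| := fun i a b =>
    le_of_tendsto ((hWl i a).sub (hWl i b)).abs (Eventually.of_forall fun n => hWL (φ n) i a b)
  have hlc : ∀ i, Continuous (Wl i) := fun i =>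
    (LipschitzWith.of_dist_le_mul (K := (8 * K₀).toNNReal) fun a b => by
      rw [Real.coe_toNNReal _ (by positivity), Real.dist_eq, Real.dist_eq]
      exact hlL i a b).continuous
  have hlp : ∀ i, Function.Periodic (Wl i) (2 * Real.pi) := fun i θ => by
    refine tendsto_nhds_unique (hWl i (θ + 2 * Real.pi)) ?_
    simp only [(hWp _ i) θ]
    exact hWl i θ
  have hl0 : ∀ i θ, 0 ≤ Wl i θ := fun i θ =>
    ge_of_tendsto (hWl i θ) (Eventually.of_forall fun n => hW0 _ _ _)
  have hlint : ∀ i (g : ℝ → ℝ), Continuous g →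
      Tendsto (fun n => ∫ θ in (0)..(2 * Real.pi), V (φ n) i θ * g θ) atTop
        (𝓝 (∫ θ in (0)..(2 * Real.pi), Wl i θ * g θ)) := by
    intro i g hg
    simp only [hWint]
    refine intervalIntegral.tendsto_integral_filter_of_dominated_convergence
      (fun θ => K * |g θ|) ?_ ?_ ?_ ?_
    · exact Eventually.of_forall fun n => ((hWc (φ n) i).mul hg).aestronglyMeasurable
    · refine Eventually.of_forall fun n => Eventually.of_forall fun θ _ => ?_
      rw [norm_mul, Real.norm_eq_abs, Real.norm_eq_abs, abs_of_nonneg (hW0 _ _ _)]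
      exact mul_le_mul_of_nonneg_right (hWK _ _ _) (abs_nonneg _)
    · exact (continuous_const.mul hg.abs).intervalIntegrable _ _
    · exact Eventually.of_forall fun θ _ => (hWl i θ).mul_const (g θ)
  have hlint1 : ∀ i, Tendsto (fun n => ∫ θ in (0)..(2 * Real.pi), V (φ n) i θ) atTop
      (𝓝 (∫ θ in (0)..(2 * Real.pi), Wl i θ)) := by
    intro i
    have := hlint i (fun _ => 1) continuous_const
    simpa using this
  -- splitting of the operator
  have hsplit : ∀ (f : ℝ → ℝ), IntervalIntegrable f volume 0 (2 * Real.pi) → ∀ (σ : ℝ) ψ, Tst ψ →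
      ∫ θ in (0)..(2 * Real.pi), f θ * LS σ ρ ψ θ
        = (1 + σ ^ 2) * (∫ θ in (0)..(2 * Real.pi), f θ * deriv (deriv ψ) θ)
          + 2 * σ * ρ * (∫ θ in (0)..(2 * Real.pi), f θ * deriv ψ θ)
          + ρ ^ 2 * ∫ θ in (0)..(2 * Real.pi), f θ * ψ θ := by
    intro f hf σ ψ hψ
    have i1 := (hf.mul_continuousOn hψ.cont2.continuousOn).const_mul (1 + σ ^ 2)
    have i2 := (hf.mul_continuousOn hψ.cont1.continuousOn).const_mul (2 * σ * ρ)
    have i3 := (hf.mul_continuousOn hψ.cont.continuousOn).const_mul (ρ ^ 2)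
    rw [← intervalIntegral.integral_const_mul, ← intervalIntegral.integral_const_mul,
      ← intervalIntegral.integral_const_mul, ← intervalIntegral.integral_add i1 i2,
      ← intervalIntegral.integral_add (i1.add i2) i3]
    refine intervalIntegral.integral_congr fun θ _ => ?_
    simp only [LS]
    ring
  have hlintS : ∀ i ψ, Tst ψ →
      Tendsto (fun n => ∫ θ in (0)..(2 * Real.pi), V (φ n) i θ * LS (s (φ n)) ρ ψ θ) atTop
        (𝓝 (∫ θ in (0)..(2 * Real.pi), Wl i θ * LS a.1 ρ ψ θ)) := by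
    intro i ψ hψ
    rw [hsplit (Wl i) ((hlc i).intervalIntegrable _ _) a.1 ψ hψ]
    have h1 := ((tendsto_const_nhds (x := (1 : ℝ))).add (hslim.pow 2)).mul (hlint i _ hψ.cont2)
    have h2 := (((tendsto_const_nhds (x := (2 : ℝ))).mul hslim).mul_const ρ).mul
      (hlint i _ hψ.cont1)
    have h3 := (hlint i _ hψ.cont).const_mul (ρ ^ 2)
    refine ((h1.add h2).add h3).congr fun n => ?_
    rw [hsplit (V (φ n) i) (hint (φ n) i) (s (φ n)) ψ hψ]
  -- the limit functional
  have hUle : ((hyperfilter ℕ : Ultrafilter ℕ) : Filter ℕ) ≤ atTop := Nat.hyperfilter_le_atTop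
  set U : Ultrafilter ℕ := hyperfilter ℕ with hU
  classical
  set Ml : (ℝ → ℝ) → ℝ := fun ψ =>
    if h : ∃ l, Tendsto (fun n => M (φ n) ψ) (U : Filter ℕ) (𝓝 l) then Classical.choose h else 0
    with hMl
  have hMlt : ∀ ψ, Tst ψ → Tendsto (fun n => M (φ n) ψ) (U : Filter ℕ) (𝓝 (Ml ψ)) := by
    intro ψ hψ
    obtain ⟨σ, hs0, hs⟩ := hψ.bdd
    have hex : ∃ l, Tendsto (fun n => M (φ n) ψ) (U : Filter ℕ) (𝓝 l) := by
      have h1 : ∀ n, M (φ n) ψ ∈ Icc (-(σ * K₀)) (σ * K₀) := fun n => by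
        have h2 := (hM (φ n)).abs_le hψ hs
        have h3 : |M (φ n) ψ| ≤ σ * K₀ := le_trans h2 (mul_le_mul_of_nonneg_left (hK₀ _) hs0)
        exact _root_.abs_le.1 h3
      obtain ⟨l, -, hl⟩ := isCompact_Icc.ultrafilter_le_nhds
        (U.map fun n => M (φ n) ψ) (by
          rw [le_principal_iff]
          exact Filter.mem_map.2 (Eventually.of_forall fun n => h1 n))
      exact ⟨l, hl⟩
    have : Ml ψ = Classical.choose hex := by
      simp only [hMl]
      rw [dif_pos hex]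
    rw [this]
    exact Classical.choose_spec hex
  have hcomp : Tendsto φ (U : Filter ℕ) atTop := hφ.tendsto_atTop.mono_left hUle
  refine ⟨map φ atTop, a.1, Wl, Ml, hφ.tendsto_atTop, inferInstance, hlc, hlp, hl0,
    ?_, ?_, ?_, ?_, ?_⟩
  · intro i j hij
    have h1 : ∀ᵐ θ : ℝ, Wl i θ * Wl j θ = 0 := by
      have hi : ∀ᵐ θ : ℝ, ∀ n, W n i θ = V n i θ := ae_all_iff.2 fun n => hWae n i
      have hj : ∀ᵐ θ : ℝ, ∀ n, W n j θ = V n j θ := ae_all_iff.2 fun n => hWae n j
      filter_upwards [hi, hj, hd i j hij] with θ hi hj hd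
      have h2 : Tendsto (fun n => min (W (φ n) i θ) (W (φ n) j θ)) atTop (𝓝 0) := by
        simp only [hi, hj]
        exact hd.comp hφ.tendsto_atTop
      have h3 := tendsto_nhds_unique ((hWl i θ).min (hWl j θ)) h2
      rcases le_total (Wl i θ) (Wl j θ) with h4 | h4
      · rw [min_eq_left h4] at h3
        rw [h3, zero_mul]
      · rw [min_eq_right h4] at h3
        rw [h3, mul_zero]
    have h3 := (Continuous.ae_eq_iff_eq (μ := (volume : Measure ℝ)) (f := fun θ => Wl i θ * Wl j θ)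
      (g := fun _ => 0) ((hlc i).mul (hlc j)) continuous_const).1 h1
    intro θ
    exact congrFun h3 θ
  · refine ⟨fun f g hf hg => ?_, fun c ψ hψ => ?_, fun ψ hψ hψ0 => ?_⟩
    · refine tendsto_nhds_unique (hMlt _ (hf.add hg)) ?_
      simp only [(hM _).add f g hf hg]
      exact (hMlt f hf).add (hMlt g hg)
    · refine tendsto_nhds_unique (hMlt _ (hψ.smul c)) ?_
      simp only [(hM _).smul c ψ hψ]
      exact (hMlt ψ hψ).const_mul c
    · exact ge_of_tendsto (hMlt ψ hψ) (Eventually.of_forall fun n => (hM _).pos ψ hψ hψ0)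
  · exact tendsto_nhds_unique (hMlt _ (Tst_const 1)) (hM1.comp hcomp)
  · intro i ψ hψ hψ0
    refine le_of_tendsto_of_tendsto ((hlintS i ψ hψ).mono_left hUle) (hMlt ψ hψ)
      (Eventually.of_forall fun n => hV (φ n) i ψ hψ hψ0)
  · intro i
    exact tendsto_map'_iff.2 ((hlint1 i).const_mul (1 / (2 * Real.pi)))

theorem sum_le_sup_add {ι : Type*} [Fintype ι] [DecidableEq ι] (m : ι → ℝ) (hm : ∀ i, 0 ≤ m i)
    {S : ℝ} (hS : ∀ i, m i ≤ S) (hS0 : 0 ≤ S) :
    ∑ i, m i ≤ S + ∑ p ∈ (Finset.univ : Finset (ι × ι)).filter (fun p => p.1 ≠ p.2),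
      min (m p.1) (m p.2) := by
  rcases isEmpty_or_nonempty ι with hι | hι
  · simp only [Finset.univ_eq_empty, Finset.sum_empty, Finset.filter_empty, add_zero]
    exact hS0
  · obtain ⟨k, -, hk⟩ := Finset.exists_max_image Finset.univ m Finset.univ_nonempty
    have h1 : ∑ i, m i = m k + ∑ i ∈ Finset.univ.erase k, m i :=
      (Finset.add_sum_erase _ _ (Finset.mem_univ k)).symm
    have h2 : ∑ i ∈ Finset.univ.erase k, m i
        = ∑ p ∈ (Finset.univ.erase k).image (fun i => (i, k)), min (m p.1) (m p.2) := by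
      rw [Finset.sum_image fun i _ j _ h => (Prod.ext_iff.1 h).1]
      exact Finset.sum_congr rfl fun i _ => (min_eq_left (hk i (Finset.mem_univ i))).symm
    have h3 : ∑ p ∈ (Finset.univ.erase k).image (fun i => (i, k)), min (m p.1) (m p.2)
        ≤ ∑ p ∈ (Finset.univ : Finset (ι × ι)).filter (fun p => p.1 ≠ p.2),
          min (m p.1) (m p.2) := by
      refine Finset.sum_le_sum_of_subset_of_nonneg ?_ fun p _ _ => le_min (hm _) (hm _)
      intro p hp
      obtain ⟨i, hi, rfl⟩ := Finset.mem_image.1 hp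
      exact Finset.mem_filter.2 ⟨Finset.mem_univ _, Finset.ne_of_mem_erase hi⟩
    rw [h1, h2]
    exact add_le_add (hS k) h3

/-- Unbounded pitch: the limits are constants, so at most one of them survives. -/
theorem limitInfS {ι : Type*} [Fintype ι] {ρ : ℝ} (hρ : 1 ≤ ρ) (s : ℕ → ℝ)
    (hs : Tendsto (fun n => |s n|) atTop atTop) (V : ℕ → ι → ℝ → ℝ)
    (hp : ∀ n i, Function.Periodic (V n i) (2 * Real.pi))
    (h0 : ∀ n i θ, 0 ≤ V n i θ)
    (hint : ∀ n i, IntervalIntegrable (V n i) volume 0 (2 * Real.pi))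
    (M : ℕ → (ℝ → ℝ) → ℝ) (hM : ∀ n, PosFun (M n))
    (hM1 : Tendsto (fun n => M n (fun _ => 1)) atTop (𝓝 (2 * Real.pi * ρ ^ 2)))
    (hV : ∀ n i ψ, Tst ψ → (∀ θ, 0 ≤ ψ θ) →
      ∫ θ in (0)..(2 * Real.pi), V n i θ * LS (s n) ρ ψ θ ≤ M n ψ)
    (hd : ∀ i j, i ≠ j → ∀ᵐ θ : ℝ, Tendsto (fun n => min (V n i θ) (V n j θ)) atTop (𝓝 0))
    {D : ℝ} (hD : ∀ᶠ n in atTop, D ≤ ∑ i, (1 / (2 * Real.pi)) * ∫ θ in (0)..(2 * Real.pi), V n i θ) :
    D ≤ 1 := by
  classical
  have hpi : (0 : ℝ) < 2 * Real.pi := by positivity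
  have hρ2 : 0 < ρ ^ 2 := by positivity
  obtain ⟨K₀, hK₀⟩ := hM1.bddAbove_range
  replace hK₀ : ∀ n, M n (fun _ => 1) ≤ K₀ := fun n => hK₀ (mem_range_self n)
  have hK₀0 : 0 ≤ K₀ := le_trans (hM 0).one_nonneg (hK₀ 0)
  have hW : ∀ n i, ∃ W : ℝ → ℝ, (∀ a b, |W a - W b| ≤ 8 * K₀ / (1 + s n ^ 2) * |a - b|) ∧
      Function.Periodic W (2 * Real.pi) ∧ (∀ θ, 0 ≤ W θ) ∧ ∀ᵐ θ : ℝ, W θ = V n i θ := fun n i =>
    exists_rep (hp n i) (h0 n i) (hint n i) (hM n) (hV n i) (hK₀ n)
  choose W hWL hWp hW0 hWae using hW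
  set L : ℕ → ℝ := fun n => 8 * K₀ / (1 + s n ^ 2) with hL
  have hL0 : ∀ n, 0 ≤ L n := fun n => by positivity
  have hLlim : Tendsto L atTop (𝓝 0) := by
    have h1 : Tendsto (fun n => 1 + s n ^ 2) atTop atTop := by
      have h2 : Tendsto (fun n => |s n| ^ 2) atTop atTop := (tendsto_pow_atTop two_ne_zero).comp hs
      simp only [sq_abs] at h2
      exact tendsto_atTop_add_const_left _ _ h2
    exact h1.const_div_atTop _
  have hWc : ∀ n i, Continuous (W n i) := fun n i =>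
    (LipschitzWith.of_dist_le_mul (K := (L n).toNNReal) fun a b => by
      rw [Real.coe_toNNReal _ (hL0 n), Real.dist_eq, Real.dist_eq]
      exact hWL n i a b).continuous
  set m : ℕ → ι → ℝ := fun n i => (1 / (2 * Real.pi)) * ∫ θ in (0)..(2 * Real.pi), V n i θ with hm
  have hm0 : ∀ n i, 0 ≤ m n i := fun n i => mul_nonneg (by positivity)
    (intervalIntegral.integral_nonneg hpi.le fun θ _ => h0 n i θ)
  have hmS : ∀ n i, m n i ≤ M n (fun _ => 1) / (2 * Real.pi * ρ ^ 2) := by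
    intro n i
    have h1 := integral_le_ofS (hV n i)
    rw [le_div_iff₀ (by positivity)]
    simp only [hm]
    calc _ = ρ ^ 2 * ∫ θ in (0)..(2 * Real.pi), V n i θ := by field_simp
      _ ≤ _ := h1
  have hmW : ∀ n i, m n i = (1 / (2 * Real.pi)) * ∫ θ in (0)..(2 * Real.pi), W n i θ := by
    intro n i
    simp only [hm]
    congr 1
    refine intervalIntegral.integral_congr_ae ?_
    filter_upwards [hWae n i] with θ hθ _
    rw [hθ]
  -- the mean is close to every value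
  have hclose : ∀ n i θ, m n i ≤ W n i θ + 2 * Real.pi * L n := by
    intro n i θ
    obtain ⟨y, hy, hxy⟩ := (hWp n i).exists_mem_Ico₀ hpi θ
    rw [hxy, hmW]
    have h2 : ∫ θ in (0)..(2 * Real.pi), W n i θ
        ≤ ∫ _θ in (0)..(2 * Real.pi), (W n i y + 2 * Real.pi * L n) := by
      refine intervalIntegral.integral_mono_on hpi.le ((hWc n i).intervalIntegrable _ _)
        intervalIntegrable_const fun x hx => ?_
      have h3 := hWL n i x y
      have h4 : |x - y| ≤ 2 * Real.pi := by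
        rw [_root_.abs_le]; constructor <;> linarith [hy.1, hy.2, hx.1, hx.2]
      have h5 := (_root_.abs_le.1 h3).2
      have h6 := mul_le_mul_of_nonneg_left h4 (hL0 n)
      linarith
    rw [intervalIntegral.integral_const, smul_eq_mul, sub_zero] at h2
    rw [one_div, inv_mul_le_iff₀ hpi]
    exact h2
  have hmin : ∀ i j, i ≠ j → Tendsto (fun n => min (m n i) (m n j)) atTop (𝓝 0) := by
    intro i j hij
    have hi : ∀ᵐ θ : ℝ, ∀ n, W n i θ = V n i θ := ae_all_iff.2 fun n => hWae n i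
    have hj : ∀ᵐ θ : ℝ, ∀ n, W n j θ = V n j θ := ae_all_iff.2 fun n => hWae n j
    obtain ⟨θ, h1, h2, h3⟩ := (hi.and (hj.and (hd i j hij))).exists
    have h4 : Tendsto (fun n => min (V n i θ) (V n j θ) + 2 * Real.pi * L n) atTop (𝓝 0) := by
      have := h3.add (hLlim.const_mul (2 * Real.pi))
      rwa [mul_zero, add_zero] at this
    refine squeeze_zero (fun n => le_min (hm0 n i) (hm0 n j)) (fun n => ?_) h4
    have h5 := hclose n i θ
    have h6 := hclose n j θ
    rw [h1 n] at h5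
    rw [h2 n] at h6
    rw [← min_add_add_right]
    exact min_le_min h5 h6
  have hlimR : Tendsto (fun n => M n (fun _ => 1) / (2 * Real.pi * ρ ^ 2)
      + ∑ p ∈ (Finset.univ : Finset (ι × ι)).filter (fun p => p.1 ≠ p.2),
        min (m n p.1) (m n p.2)) atTop (𝓝 (1 + 0)) := by
    refine Tendsto.add ?_ ?_
    · have := hM1.div_const (2 * Real.pi * ρ ^ 2)
      rwa [div_self (by positivity)] at this
    · have h1 : Tendsto (fun n => ∑ p ∈ (Finset.univ : Finset (ι × ι)).filter (fun p => p.1 ≠ p.2),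
        min (m n p.1) (m n p.2)) atTop
          (𝓝 (∑ _p ∈ (Finset.univ : Finset (ι × ι)).filter (fun p => p.1 ≠ p.2), 0)) :=
        tendsto_finsetSum _ fun p hp => hmin _ _ (Finset.mem_filter.1 hp).2
      rwa [Finset.sum_const_zero] at h1
  rw [add_zero] at hlimR
  refine ge_of_tendsto hlimR ?_
  filter_upwards [hD] with n hn
  refine le_trans hn ?_
  exact sum_le_sup_add (m n) (hm0 n) (hmS n) (div_nonneg (hM n).one_nonneg (by positivity))

end DW24
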