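import Pool.Agent.DW24.E

/-!
Fubini bookkeeping: the bilinear expressions `AA G α β = ∫∫ G (x, θ) α(x) β(θ)`.
-/

set_option autoImplicit false

open MeasureTheory Filter Topology Set

namespace DW24

/-- `G` is integrable on the strip `x₀ < x < x₁`, `0 < θ < 2π`. -/
def SI (G : ℝ → ℝ → ℝ) (x₀ x₁ : ℝ) : Prop :=
  IntegrableOn (fun p : ℝ × ℝ => G p.1 p.2) (Ioo x₀ x₁ ×ˢ Ioo 0 (2 * Real.pi))

/-- `α` is continuous and vanishes outside a compact subinterval of `(x₀, x₁)`. -/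
def CS (α : ℝ → ℝ) (x₀ x₁ : ℝ) : Prop := Continuous α ∧ ∀ x, x ∉ Ioo x₀ x₁ → α x = 0

noncomputable def AA (G : ℝ → ℝ → ℝ) (α β : ℝ → ℝ) : ℝ :=
  ∫ x, ∫ θ in (0)..(2 * Real.pi), G x θ * (α x * β θ)

/-- the measure on the strip -/
noncomputable def mS : Measure (ℝ × ℝ) := (volume : Measure ℝ).prod (volume.restrict (Ioo 0 (2 * Real.pi)))

lemma twopi_pos : (0 : ℝ) < 2 * Real.pi := by positivity

lemma ii_eq (g : ℝ → ℝ) : ∫ θ in (0)..(2 * Real.pi), g θ = ∫ θ, g θ ∂(volume.restrict (Ioo 0 (2 * Real.pi))) := by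
  rw [intervalIntegral.integral_of_le twopi_pos.le, integral_Ioc_eq_integral_Ioo]

lemma mS_eq : mS = (volume : Measure (ℝ × ℝ)).restrict (univ ×ˢ Ioo 0 (2 * Real.pi)) := by
  unfold mS
  rw [Measure.volume_eq_prod, ← Measure.prod_restrict, Measure.restrict_univ]

lemma AA_integrable {G : ℝ → ℝ → ℝ} {x₀ x₁ : ℝ} (hG : SI G x₀ x₁) {α β : ℝ → ℝ} (hα : CS α x₀ x₁)
    (hβ : Continuous β) : Integrable (fun p : ℝ × ℝ => G p.1 p.2 * (α p.1 * β p.2)) mS := by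
  rw [mS_eq]
  have hset : (univ ×ˢ Ioo 0 (2 * Real.pi) : Set (ℝ × ℝ)) =
      (Ioo x₀ x₁ ×ˢ Ioo 0 (2 * Real.pi)) ∪ ((Ioo x₀ x₁)ᶜ ×ˢ Ioo 0 (2 * Real.pi)) := by
    rw [← union_prod, union_compl_self]
  rw [hset]
  refine IntegrableOn.union ?_ ?_
  · -- bounded continuous weight times an integrable function
    have hα' := hα.1
    obtain ⟨Ca, hCa⟩ : ∃ C, ∀ x ∈ Icc x₀ x₁, ‖α x‖ ≤ C :=
      isCompact_Icc.exists_bound_of_continuousOn hα'.continuousOn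
    obtain ⟨Cb, hCb⟩ : ∃ C, ∀ x ∈ Icc 0 (2 * Real.pi), ‖β x‖ ≤ C :=
      isCompact_Icc.exists_bound_of_continuousOn hβ.continuousOn
    have hm : AEStronglyMeasurable (fun p : ℝ × ℝ => α p.1 * β p.2)
        (volume.restrict (Ioo x₀ x₁ ×ˢ Ioo 0 (2 * Real.pi))) :=
      ((hα'.comp continuous_fst).mul (hβ.comp continuous_snd)).aestronglyMeasurable
    have hb : ∀ᵐ p ∂(volume.restrict (Ioo x₀ x₁ ×ˢ Ioo 0 (2 * Real.pi)) : Measure (ℝ × ℝ)),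
        ‖α p.1 * β p.2‖ ≤ Ca * Cb := by
      filter_upwards [ae_restrict_mem (measurableSet_Ioo.prod measurableSet_Ioo)] with p hp
      rw [norm_mul]
      have h1 := hCa p.1 ⟨hp.1.1.le, hp.1.2.le⟩
      have h2 := hCb p.2 ⟨hp.2.1.le, hp.2.2.le⟩
      exact mul_le_mul h1 h2 (norm_nonneg _) ((norm_nonneg _).trans h1)
    exact Integrable.mul_bdd hG hm hb
  · have : EqOn (fun p : ℝ × ℝ => G p.1 p.2 * (α p.1 * β p.2)) (fun _ => 0)
        ((Ioo x₀ x₁)ᶜ ×ˢ Ioo 0 (2 * Real.pi)) := by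
      intro p hp
      simp only
      rw [hα.2 p.1 hp.1]; ring
    exact (integrableOn_congr_fun this (measurableSet_Ioo.compl.prod measurableSet_Ioo)).2 integrableOn_zero

lemma AA_eq {G : ℝ → ℝ → ℝ} {x₀ x₁ : ℝ} (hG : SI G x₀ x₁) {α β : ℝ → ℝ} (hα : CS α x₀ x₁)
    (hβ : Continuous β) : AA G α β = ∫ p, G p.1 p.2 * (α p.1 * β p.2) ∂mS := by
  unfold AA
  simp only [ii_eq]
  exact (integral_prod _ (AA_integrable hG hα hβ)).symm

lemma AA_swap {G : ℝ → ℝ → ℝ} {x₀ x₁ : ℝ} (hG : SI G x₀ x₁) {α β : ℝ → ℝ} (hα : CS α x₀ x₁)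
    (hβ : Continuous β) :
    AA G α β = ∫ θ in (0)..(2 * Real.pi), (∫ x, G x θ * α x) * β θ := by
  rw [AA_eq hG hα hβ, ii_eq]
  unfold mS
  have hint := AA_integrable hG hα hβ
  unfold mS at hint
  rw [integral_prod_symm _ hint]
  congr 1
  funext θ
  rw [← integral_mul_const]
  congr 1
  funext x
  ring

lemma AA_ii {G : ℝ → ℝ → ℝ} {x₀ x₁ : ℝ} (hG : SI G x₀ x₁) {α : ℝ → ℝ} (hα : CS α x₀ x₁) :
    IntervalIntegrable (fun θ => ∫ x, G x θ * α x) volume 0 (2 * Real.pi) := by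
  rw [intervalIntegrable_iff_integrableOn_Ioo_of_le twopi_pos.le]
  have hint := AA_integrable hG hα (β := fun _ => 1) continuous_const
  unfold mS at hint
  have := hint.integral_prod_right
  simp only [mul_one] at this
  exact this

lemma AA_ix {G : ℝ → ℝ → ℝ} {x₀ x₁ : ℝ} (hG : SI G x₀ x₁) {α β : ℝ → ℝ} (hα : CS α x₀ x₁)
    (hβ : Continuous β) :
    Integrable (fun x => ∫ θ in (0)..(2 * Real.pi), G x θ * (α x * β θ)) := by
  have hint := AA_integrable hG hα hβ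
  unfold mS at hint
  have := hint.integral_prod_left
  simpa only [ii_eq] using this

lemma AA_add_right {G : ℝ → ℝ → ℝ} {x₀ x₁ : ℝ} (hG : SI G x₀ x₁) {α β γ : ℝ → ℝ} (hα : CS α x₀ x₁)
    (hβ : Continuous β) (hγ : Continuous γ) :
    AA G α (fun θ => β θ + γ θ) = AA G α β + AA G α γ := by
  have hs : Continuous (fun θ => β θ + γ θ) := hβ.add hγ
  rw [AA_eq hG hα hs, AA_eq hG hα hβ, AA_eq hG hα hγ,
    ← integral_add (AA_integrable hG hα hβ) (AA_integrable hG hα hγ)]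
  congr 1; funext p; ring

lemma AA_smul_right {G : ℝ → ℝ → ℝ} {α β : ℝ → ℝ} (c : ℝ) :
    AA G α (fun θ => c * β θ) = c * AA G α β := by
  unfold AA
  rw [← integral_const_mul]
  congr 1; funext x
  rw [← intervalIntegral.integral_const_mul]
  congr 1; funext θ; ring

lemma AA_add_mid {G : ℝ → ℝ → ℝ} {x₀ x₁ : ℝ} (hG : SI G x₀ x₁) {α β γ : ℝ → ℝ} (hα : CS α x₀ x₁)
    (hγ : CS γ x₀ x₁) (hβ : Continuous β) :
    AA G (fun x => α x + γ x) β = AA G α β + AA G γ β := by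
  have hs : CS (fun x => α x + γ x) x₀ x₁ := ⟨hα.1.add hγ.1, fun x hx => by
    simp only [hα.2 x hx, hγ.2 x hx, add_zero]⟩
  rw [AA_eq hG hs hβ, AA_eq hG hα hβ, AA_eq hG hγ hβ,
    ← integral_add (AA_integrable hG hα hβ) (AA_integrable hG hγ hβ)]
  congr 1; funext p; ring

lemma AA_smul_mid {G : ℝ → ℝ → ℝ} {α β : ℝ → ℝ} (c : ℝ) :
    AA G (fun x => c * α x) β = c * AA G α β := by
  unfold AA
  rw [← integral_const_mul]
  congr 1; funext x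
  rw [← intervalIntegral.integral_const_mul]
  congr 1; funext θ; ring

lemma SI.add {G H : ℝ → ℝ → ℝ} {x₀ x₁ : ℝ} (hG : SI G x₀ x₁) (hH : SI H x₀ x₁) :
    SI (fun x θ => G x θ + H x θ) x₀ x₁ := IntegrableOn.add hG hH

lemma SI.const (c x₀ x₁ : ℝ) : SI (fun _ _ => c) x₀ x₁ := by
  unfold SI
  refine integrableOn_const ?_ (by simp)
  rw [Measure.volume_eq_prod, Measure.prod_prod]
  rw [Real.volume_Ioo, Real.volume_Ioo]
  exact ENNReal.mul_ne_top ENNReal.ofReal_ne_top ENNReal.ofReal_ne_top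

lemma AA_add_left {G H : ℝ → ℝ → ℝ} {x₀ x₁ : ℝ} (hG : SI G x₀ x₁) (hH : SI H x₀ x₁) {α β : ℝ → ℝ}
    (hα : CS α x₀ x₁) (hβ : Continuous β) :
    AA (fun x θ => G x θ + H x θ) α β = AA G α β + AA H α β := by
  rw [AA_eq (hG.add hH) hα hβ, AA_eq hG hα hβ, AA_eq hH hα hβ,
    ← integral_add (AA_integrable hG hα hβ) (AA_integrable hH hα hβ)]
  congr 1; funext p; ring

/-- a.e. equality on the strip -/
lemma AA_congr {G H : ℝ → ℝ → ℝ} {x₀ x₁ : ℝ} (hG : SI G x₀ x₁) (hH : SI H x₀ x₁) {α β : ℝ → ℝ}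
    (hα : CS α x₀ x₁) (hβ : Continuous β)
    (hGH : ∀ᵐ p : ℝ × ℝ, p.1 ∈ Ioo x₀ x₁ → G p.1 p.2 = H p.1 p.2) :
    AA G α β = AA H α β := by
  rw [AA_eq hG hα hβ, AA_eq hH hα hβ]
  refine integral_congr_ae ?_
  have hac : mS ≪ (volume : Measure (ℝ × ℝ)) := by
    rw [mS_eq]
    exact Measure.absolutelyContinuous_of_le Measure.restrict_le_self
  have h2 := hac.ae_le hGH
  filter_upwards [h2] with p hp
  by_cases hx : p.1 ∈ Ioo x₀ x₁
  · rw [hp hx]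
  · rw [hα.2 _ hx]; ring

lemma AA_nonneg {G : ℝ → ℝ → ℝ} {α β : ℝ → ℝ} (hG : ∀ x θ, 0 ≤ G x θ) (hα : ∀ x, 0 ≤ α x)
    (hβ : ∀ θ, 0 ≤ β θ) : 0 ≤ AA G α β := by
  unfold AA
  refine integral_nonneg fun x => ?_
  refine intervalIntegral.integral_nonneg twopi_pos.le fun θ _ => ?_
  exact mul_nonneg (hG x θ) (mul_nonneg (hα x) (hβ θ))

lemma AA_mono_mid {G : ℝ → ℝ → ℝ} {x₀ x₁ : ℝ} (hG : SI G x₀ x₁) (hG0 : ∀ x θ, 0 ≤ G x θ)
    {α γ β : ℝ → ℝ} (hα : CS α x₀ x₁) (hγ : CS γ x₀ x₁) (h : ∀ x, α x ≤ γ x)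
    (hβ : Continuous β) (hβ0 : ∀ θ, 0 ≤ β θ) : AA G α β ≤ AA G γ β := by
  rw [AA_eq hG hα hβ, AA_eq hG hγ hβ]
  refine integral_mono (AA_integrable hG hα hβ) (AA_integrable hG hγ hβ) fun p => ?_
  exact mul_le_mul_of_nonneg_left (mul_le_mul_of_nonneg_right (h _) (hβ0 _)) (hG0 _ _)

/-- `JJ` in terms of `AA` -/
lemma JJ_eq {G : ℝ → ℝ → ℝ} {x₀ x₁ : ℝ} (hG : SI G x₀ x₁) {ω ψ : ℝ → ℝ} (hω : CS ω x₀ x₁)
    (hω2 : CS (deriv (deriv ω)) x₀ x₁) (hψ : Tst ψ) :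
    JJ G ω ψ = AA G ω (deriv (deriv ψ)) + AA G (deriv (deriv ω)) ψ := by
  rw [AA_eq hG hω hψ.cont2, AA_eq hG hω2 hψ.cont, ← integral_add (AA_integrable hG hω hψ.cont2)
    (AA_integrable hG hω2 hψ.cont)]
  unfold JJ
  simp only [ii_eq]
  have hint : Integrable (fun p : ℝ × ℝ => G p.1 p.2 * (ω p.1 * deriv (deriv ψ) p.2 +
      deriv (deriv ω) p.1 * ψ p.2)) mS := by
    refine ((AA_integrable hG hω hψ.cont2).add (AA_integrable hG hω2 hψ.cont)).congr ?_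
    filter_upwards with p
    simp only [Pi.add_apply]
    ring
  unfold mS at hint ⊢
  rw [← integral_prod _ hint]
  congr 1; funext p; ring

end DW24
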