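import Pool.Agent.DW24.Defs

/-!
MP_24b0ce_an, module W2: windows of bounded length. If `τ` is monotone and `ρ` lies between the
lower and the upper order of `τ (log r)`, then for every `K` there are, arbitrarily far out,
windows of length at most `L (K)` for which the middle carries `K` times the mass of the two ends.
-/

set_option autoImplicit false

open MeasureTheory Filter Topology Set

namespace DW24

/-- The discrete dichotomy: if all windows of length at most `2 m` fail, the sequence grows or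
decays exponentially. -/
theorem growth_or_decay {g : ℕ → ℝ} {k₀ : ℕ} (hg : ∀ k, k₀ ≤ k → 0 < g k) {K : ℝ} (hK : 1 ≤ K)
    {m : ℕ} (hm : 10 * K ^ 3 + 1 ≤ m)
    (hF : ∀ s, k₀ ≤ s → ∀ l, 1 ≤ l → l ≤ 2 * m →
      ∑ j ∈ Finset.Ico (s + 1) (s + l), g j < K * (g s + g (s + l))) :
    (∃ t, k₀ ≤ t ∧ ∀ i : ℕ, 2 ^ i * g t ≤ g (t + i * m)) ∨
      (∀ s, k₀ ≤ s → ∃ s', s < s' ∧ s' ≤ s + m ∧ g s' ≤ g s / 2) := by
  have hK2 : 1 ≤ K ^ 2 := one_le_pow₀ hK
  have hK3 : K ^ 2 ≤ K ^ 3 := pow_le_pow_right₀ hK (by norm_num)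
  have hK1 : K ≤ K ^ 2 := by nlinarith
  have hm1 : 1 ≤ m := by
    have : (1 : ℝ) ≤ m := by nlinarith
    exact_mod_cast this
  by_cases hcase : ∃ s t, k₀ ≤ s ∧ s < t ∧ t ≤ s + m ∧ 4 * K * g s ≤ g t
  · left
    -- growth persists
    have hstep : ∀ s t, k₀ ≤ s → s < t → t ≤ s + m → 4 * K * g s ≤ g t →
        4 * K * g t ≤ g (t + m) := by
      intro s t hs hst htm hgt
      have hgt0 : 0 < g t := hg t (by omega)
      have hgs0 : 0 < g s := hg s hs
      -- lower bound after `t`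
      have hlow : ∀ j, t < j → j ≤ t + m → g t ≤ K * (g s + g j) := by
        intro j htj hjm
        have h1 := hF s hs (j - s) (by omega) (by omega)
        have h2 : s + (j - s) = j := by omega
        rw [h2] at h1
        have h3 : g t ≤ ∑ i ∈ Finset.Ico (s + 1) j, g i :=
          Finset.single_le_sum (f := g) (fun i hi => (hg i (by
            have := (Finset.mem_Ico.1 hi).1; omega)).le) (Finset.mem_Ico.2 ⟨by omega, htj⟩)
        linarith
      have h1 := hF s hs (t + m - s) (by omega) (by omega)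
      have h2 : s + (t + m - s) = t + m := by omega
      rw [h2] at h1
      have h3 : ∑ i ∈ Finset.Ico (t + 1) (t + m), g i ≤ ∑ i ∈ Finset.Ico (s + 1) (t + m), g i :=
        Finset.sum_le_sum_of_subset_of_nonneg (Finset.Ico_subset_Ico (by omega) le_rfl)
          fun i hi _ => (hg i (by have := (Finset.mem_Ico.1 hi).1; omega)).le
      have h4 : ∑ _i ∈ Finset.Ico (t + 1) (t + m), (3 / 4 * g t)
          ≤ ∑ i ∈ Finset.Ico (t + 1) (t + m), K * g i := by
        refine Finset.sum_le_sum fun i hi => ?_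
        have h5 := hlow i (by have := (Finset.mem_Ico.1 hi).1; omega)
          (by have := (Finset.mem_Ico.1 hi).2; omega)
        nlinarith
      rw [Finset.sum_const, Nat.card_Ico, nsmul_eq_mul, ← Finset.mul_sum] at h4
      have h6 : ((t + m - (t + 1) : ℕ) : ℝ) = m - 1 := by
        have : t + m - (t + 1) = m - 1 := by omega
        rw [this, Nat.cast_sub hm1, Nat.cast_one]
      rw [h6] at h4
      have h7 : K * ∑ i ∈ Finset.Ico (t + 1) (t + m), g i ≤ K * (K * (g s + g (t + m))) :=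
        mul_le_mul_of_nonneg_left (by linarith) (by linarith)
      have h8 : (10 * K ^ 3) * (3 / 4 * g t) ≤ (m - 1) * (3 / 4 * g t) :=
        mul_le_mul_of_nonneg_right (by linarith) (by positivity)
      -- 7.5 K^3 g t ≤ K^2 (g s + g (t+m))
      have h9 : K ^ 2 * (15 / 2 * K * g t) ≤ K ^ 2 * (g s + g (t + m)) := by nlinarith
      have h10 : 15 / 2 * K * g t ≤ g s + g (t + m) := le_of_mul_le_mul_left h9 (by positivity)
      have h11 : g s ≤ K * g t := by nlinarith
      nlinarith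
    obtain ⟨s, t, hs, hst, htm, hgt⟩ := hcase
    refine ⟨t, by omega, ?_⟩
    have key : ∀ i : ℕ, 2 ^ i * g t ≤ g (t + i * m) ∧ 4 * K * g (t + i * m) ≤ g (t + i * m + m) := by
      intro i
      induction i with
      | zero =>
        simp only [pow_zero, one_mul, zero_mul, add_zero, le_refl, true_and]
        exact hstep s t hs hst htm hgt
      | succ i ih =>
        have e : t + (i + 1) * m = t + i * m + m := by ring
        rw [e]
        have h0 : 0 < g (t + i * m) := hg _ (by have := Nat.zero_le (i * m); omega)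
        refine ⟨?_, ?_⟩
        · rw [pow_succ]
          nlinarith [ih.1, ih.2]
        · exact hstep (t + i * m) (t + i * m + m) (by have := Nat.zero_le (i * m); omega)
            (by omega) le_rfl ih.2
    exact fun i => (key i).1
  · right
    push Not at hcase
    intro s hs
    by_contra hno
    push Not at hno
    have hgs0 : 0 < g s := hg s hs
    have h1 := hF s hs m hm1 (by omega)
    have h2 := hcase s (s + m) hs (by omega) le_rfl
    have h3 : ∑ _j ∈ Finset.Ico (s + 1) (s + m), (g s / 2) ≤ ∑ j ∈ Finset.Ico (s + 1) (s + m), g j :=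
      Finset.sum_le_sum fun j hj => (hno j (by have := (Finset.mem_Ico.1 hj).1; omega)
        (by have := (Finset.mem_Ico.1 hj).2; omega)).le
    rw [Finset.sum_const, Nat.card_Ico, nsmul_eq_mul] at h3
    have h6 : ((s + m - (s + 1) : ℕ) : ℝ) = m - 1 := by
      have : s + m - (s + 1) = m - 1 := by omega
      rw [this, Nat.cast_sub hm1, Nat.cast_one]
    rw [h6] at h3
    have h8 : (10 * K ^ 3) * (g s / 2) ≤ (m - 1) * (g s / 2) :=
      mul_le_mul_of_nonneg_right (by linarith) (by positivity)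
    -- 5 K^3 g s < K (g s + 4 K g s)
    have h9 : 5 * K ^ 3 * g s < K * (g s + 4 * K * g s) := by nlinarith
    have h10 : K * (g s + 4 * K * g s) = (K + 4 * K ^ 2) * g s := by ring
    rw [h10] at h9
    have h11 := lt_of_mul_lt_mul_right h9 hgs0.le
    linarith

/-- The unit masses. -/
noncomputable def um (τ : ℝ → ℝ) (ρ : ℝ) (k : ℕ) : ℝ :=
  ∫ x in (k : ℝ)..(k + 1), τ x * Real.exp (-ρ * x)

theorem ii_of_mono {τ : ℝ → ℝ} {x₀ : ℝ} (hmono : MonotoneOn τ (Ici x₀)) {ρ a b : ℝ}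
    (ha : x₀ ≤ a) (hb : x₀ ≤ b) :
    IntervalIntegrable (fun x => τ x * Real.exp (-ρ * x)) volume a b := by
  have h1 : IntervalIntegrable τ volume a b := by
    refine MonotoneOn.intervalIntegrable (hmono.mono fun y hy => ?_)
    rcases le_total a b with h | h
    · rw [uIcc_of_le h] at hy; exact le_trans ha hy.1
    · rw [uIcc_of_ge h] at hy; exact le_trans hb hy.1
  exact h1.mul_continuousOn (by fun_prop)

theorem um_bounds {τ : ℝ → ℝ} {x₀ : ℝ} (hmono : MonotoneOn τ (Ici x₀))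
    (hpos : ∀ x, x₀ ≤ x → 0 < τ x) {ρ : ℝ} (hρ : 0 < ρ) {k : ℕ} (hk : x₀ ≤ k) :
    τ k * Real.exp (-ρ * (k + 1)) ≤ um τ ρ k ∧ um τ ρ k ≤ τ (k + 1) * Real.exp (-ρ * k) := by
  have hi := ii_of_mono (ρ := ρ) hmono hk (show x₀ ≤ (k : ℝ) + 1 by linarith)
  have hlek : (k : ℝ) ≤ k + 1 := by linarith
  constructor
  · have h1 : ∫ _x in (k : ℝ)..(k + 1), τ k * Real.exp (-ρ * (k + 1)) ≤ um τ ρ k := by
      refine intervalIntegral.integral_mono_on hlek intervalIntegrable_const hi fun x hx => ?_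
      refine mul_le_mul (hmono (mem_Ici.2 hk) (mem_Ici.2 (le_trans hk hx.1)) hx.1) ?_
        (Real.exp_pos _).le (hpos x (le_trans hk hx.1)).le
      exact Real.exp_le_exp.2 (by nlinarith [hx.2])
    rw [intervalIntegral.integral_const, smul_eq_mul] at h1
    linarith
  · have h1 : um τ ρ k ≤ ∫ _x in (k : ℝ)..(k + 1), τ (k + 1) * Real.exp (-ρ * k) := by
      refine intervalIntegral.integral_mono_on hlek hi intervalIntegrable_const fun x hx => ?_
      refine mul_le_mul (hmono (mem_Ici.2 (le_trans hk hx.1)) (mem_Ici.2 (by linarith)) hx.2) ?_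
        (Real.exp_pos _).le (hpos _ (by linarith)).le
      exact Real.exp_le_exp.2 (by nlinarith [hx.1])
    rw [intervalIntegral.integral_const, smul_eq_mul] at h1
    linarith

theorem um_pos {τ : ℝ → ℝ} {x₀ : ℝ} (hmono : MonotoneOn τ (Ici x₀))
    (hpos : ∀ x, x₀ ≤ x → 0 < τ x) {ρ : ℝ} (hρ : 0 < ρ) {k : ℕ} (hk : x₀ ≤ k) :
    0 < um τ ρ k :=
  lt_of_lt_of_le (mul_pos (hpos _ hk) (Real.exp_pos _)) (um_bounds hmono hpos hρ hk).1

/-- Exponential growth contradicts the bound on the lower order. -/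
theorem not_growth {τ : ℝ → ℝ} {x₀ : ℝ} (hmono : MonotoneOn τ (Ici x₀))
    (hpos : ∀ x, x₀ ≤ x → 0 < τ x) {ρ : ℝ} (hρ : 0 < ρ)
    (hlow : Filter.liminf (fun x : ℝ => ((Real.log (τ x) / x : ℝ) : EReal)) atTop ≤ ρ)
    {m t : ℕ} (hm : 1 ≤ m) (ht : x₀ ≤ t) (h : ∀ i : ℕ, 2 ^ i * um τ ρ t ≤ um τ ρ (t + i * m)) :
    False := by
  have hm0 : (0 : ℝ) < m := by exact_mod_cast hm
  have hg0 : 0 < um τ ρ t := um_pos hmono hpos hρ ht
  set η : ℝ := Real.log 2 / m with hη
  have hη0 : 0 < η := div_pos (Real.log_pos (by norm_num)) hm0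
  -- pointwise bound
  set A : ℝ := Real.log (um τ ρ t) - (η + ρ) * (m + 1 + t) with hA
  have hpt : ∀ x : ℝ, (t : ℝ) + 1 ≤ x → (ρ + η) * x + (A - ρ * t) ≤ Real.log (τ x) + 0 := by
    intro x hx
    set i : ℕ := ⌊(x - t - 1) / m⌋₊ with hi
    have h1 : (i : ℝ) ≤ (x - t - 1) / m := Nat.floor_le (div_nonneg (by linarith) hm0.le)
    have h2 : (x - t - 1) / m < i + 1 := Nat.lt_floor_add_one _
    rw [le_div_iff₀ hm0] at h1
    rw [div_lt_iff₀ hm0] at h2
    have h3 : (((t + i * m : ℕ) : ℝ) + 1) ≤ x := by push_cast; linarith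
    have h4 : x₀ ≤ ((t + i * m : ℕ) : ℝ) := by
      push_cast
      have : 0 ≤ (i : ℝ) * m := by positivity
      linarith
    have h5 := (um_bounds hmono hpos hρ h4).2
    have h6 := hmono (mem_Ici.2 (show x₀ ≤ ((t + i * m : ℕ) : ℝ) + 1 by linarith))
      (mem_Ici.2 (show x₀ ≤ x by linarith)) h3
    have h7 : 2 ^ i * um τ ρ t ≤ τ x * Real.exp (-ρ * ((t + i * m : ℕ) : ℝ)) :=
      le_trans (h i) (le_trans h5 (mul_le_mul_of_nonneg_right h6 (Real.exp_pos _).le))
    have hx0 : 0 < τ x := hpos x (by linarith)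
    have h8 := Real.log_le_log (by positivity) h7
    rw [Real.log_mul (by positivity) hg0.ne', Real.log_mul hx0.ne' (Real.exp_pos _).ne',
      Real.log_exp, Real.log_pow] at h8
    have h9 : (i : ℝ) * Real.log 2 = η * (i * m) := by rw [hη]; field_simp
    rw [h9] at h8
    push_cast at h8
    have h10 : η * (x - t - 1 - m) ≤ η * (i * m) := mul_le_mul_of_nonneg_left (by linarith) hη0.le
    have h11 : ρ * (x - t - 1 - m) ≤ ρ * (i * m) := mul_le_mul_of_nonneg_left (by linarith) hρ.le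
    rw [hA]
    nlinarith
  have hev : ∀ᶠ x : ℝ in atTop, ρ + η / 2 ≤ Real.log (τ x) / x := by
    filter_upwards [eventually_ge_atTop ((t : ℝ) + 1), eventually_gt_atTop 0,
      eventually_ge_atTop (2 * |A - ρ * t| / η)] with x h1 h2 h3
    rw [le_div_iff₀ h2]
    have h4 := hpt x h1
    rw [div_le_iff₀ hη0] at h3
    have h5 := neg_abs_le (A - ρ * t)
    nlinarith
  have h1 : (((ρ + η / 2 : ℝ)) : EReal)
      ≤ Filter.liminf (fun x : ℝ => ((Real.log (τ x) / x : ℝ) : EReal)) atTop :=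
    le_liminf_of_le (by isBoundedDefault) (hev.mono fun x hx => EReal.coe_le_coe_iff.2 hx)
  have h2 := EReal.coe_le_coe_iff.1 (le_trans h1 hlow)
  linarith

/-- Exponential decay contradicts the bound on the upper order. -/
theorem not_decay {τ : ℝ → ℝ} {x₀ : ℝ} (hmono : MonotoneOn τ (Ici x₀))
    (hpos : ∀ x, x₀ ≤ x → 0 < τ x) {ρ : ℝ} (hρ : 0 < ρ)
    (hupp : (ρ : EReal) ≤ Filter.limsup (fun x : ℝ => ((Real.log (τ x) / x : ℝ) : EReal)) atTop)
    {m k₀ : ℕ} (hm : 1 ≤ m) (hk₀ : x₀ ≤ k₀)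
    (h : ∀ s, k₀ ≤ s → ∃ s', s < s' ∧ s' ≤ s + m ∧ um τ ρ s' ≤ um τ ρ s / 2) :
    False := by
  have hm0 : (0 : ℝ) < m := by exact_mod_cast hm
  set η : ℝ := Real.log 2 / m with hη
  have hη0 : 0 < η := div_pos (Real.log_pos (by norm_num)) hm0
  have hcast : ∀ s : ℕ, k₀ ≤ s → x₀ ≤ (s : ℝ) := fun s hs =>
    le_trans hk₀ (by exact_mod_cast hs)
  -- the points of decay are dense
  set B : ℝ := Real.log (um τ ρ k₀) + η * k₀ with hB
  have key : ∀ n, k₀ ≤ n → ∃ s, n ≤ s ∧ s ≤ n + m ∧ Real.log (um τ ρ s) ≤ B - η * s := by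
    intro n hn
    induction n, hn using Nat.le_induction with
    | base => exact ⟨k₀, le_rfl, by omega, by rw [hB]; linarith⟩
    | succ n hn ih =>
      obtain ⟨s, hs1, hs2, hs3⟩ := ih
      rcases Nat.lt_or_ge n s with hlt | hge
      · exact ⟨s, hlt, by omega, hs3⟩
      · have hsn : s = n := by omega
        obtain ⟨s', h1, h2, h3⟩ := h s (by omega)
        refine ⟨s', by omega, by omega, ?_⟩
        have hs0 : 0 < um τ ρ s := um_pos hmono hpos hρ (hcast s (by omega))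
        have hs0' : 0 < um τ ρ s' := um_pos hmono hpos hρ (hcast s' (by omega))
        have h4 := Real.log_le_log hs0' h3
        rw [Real.log_div hs0.ne' (by norm_num)] at h4
        have h5 : η * s' ≤ η * s + Real.log 2 := by
          have : η * (s' - s) ≤ η * m := by
            refine mul_le_mul_of_nonneg_left ?_ hη0.le
            have : (s' : ℝ) ≤ s + m := by exact_mod_cast h2
            linarith
          have h6 : η * m = Real.log 2 := by rw [hη]; field_simp
          nlinarith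
        linarith
  -- pointwise bound
  have hpt : ∀ x : ℝ, (k₀ : ℝ) ≤ x → Real.log (τ x) ≤ (ρ - η) * x + (B + ρ * (m + 2)) := by
    intro x hx
    have hx0 : 0 ≤ x := le_trans (Nat.cast_nonneg _) hx
    obtain ⟨s, h1, h2, h3⟩ := key ⌈x⌉₊ (by
      exact_mod_cast le_trans hx (Nat.le_ceil x))
    have h4 : x ≤ s := le_trans (Nat.le_ceil x) (by exact_mod_cast h1)
    have h5 : (s : ℝ) ≤ x + 1 + m := by
      have h6 : (⌈x⌉₊ : ℝ) < x + 1 := Nat.ceil_lt_add_one hx0
      have h7 : (s : ℝ) ≤ (⌈x⌉₊ : ℝ) + m := by exact_mod_cast h2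
      linarith
    have hs : x₀ ≤ (s : ℝ) := by linarith
    have h6 := (um_bounds hmono hpos hρ hs).1
    have h7 := hmono (mem_Ici.2 (show x₀ ≤ x by linarith)) (mem_Ici.2 hs) h4
    have hx1 : 0 < τ x := hpos x (by linarith)
    have h8 : τ x * Real.exp (-ρ * (s + 1)) ≤ um τ ρ s :=
      le_trans (mul_le_mul_of_nonneg_right h7 (Real.exp_pos _).le) h6
    have h9 := Real.log_le_log (by positivity) h8
    rw [Real.log_mul hx1.ne' (Real.exp_pos _).ne', Real.log_exp] at h9
    have h10 : ρ * s ≤ ρ * (x + 1 + m) := mul_le_mul_of_nonneg_left h5 hρ.le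
    have h11 : η * x ≤ η * s := mul_le_mul_of_nonneg_left h4 hη0.le
    nlinarith
  have hev : ∀ᶠ x : ℝ in atTop, Real.log (τ x) / x ≤ ρ - η / 2 := by
    filter_upwards [eventually_ge_atTop (k₀ : ℝ), eventually_gt_atTop 0,
      eventually_ge_atTop (2 * |B + ρ * (m + 2)| / η)] with x h1 h2 h3
    rw [div_le_iff₀ h2]
    have h4 := hpt x h1
    rw [div_le_iff₀ hη0] at h3
    have h5 := le_abs_self (B + ρ * (m + 2))
    nlinarith
  have h1 : Filter.limsup (fun x : ℝ => ((Real.log (τ x) / x : ℝ) : EReal)) atTop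
      ≤ (((ρ - η / 2 : ℝ)) : EReal) :=
    limsup_le_of_le (by isBoundedDefault) (hev.mono fun x hx => EReal.coe_le_coe_iff.2 hx)
  have h2 := EReal.coe_le_coe_iff.1 (le_trans hupp h1)
  linarith

/-- Windows of bounded length with integer end points. -/
theorem window'' {τ : ℝ → ℝ} {x₀ : ℝ} (hmono : MonotoneOn τ (Ici x₀))
    (hpos : ∀ x, x₀ ≤ x → 0 < τ x) {ρ : ℝ} (hρ : 0 < ρ)
    (hlow : Filter.liminf (fun x : ℝ => ((Real.log (τ x) / x : ℝ) : EReal)) atTop ≤ ρ)
    (hupp : (ρ : EReal) ≤ Filter.limsup (fun x : ℝ => ((Real.log (τ x) / x : ℝ) : EReal)) atTop)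
    (K : ℝ) :
    ∃ L : ℕ, ∀ X : ℝ, ∃ s l : ℕ, X ≤ s ∧ 2 ≤ l ∧ l ≤ L ∧
      K * ((∫ x in (s : ℝ)..(s + 1), τ x * Real.exp (-ρ * x))
          + ∫ x in (s + l : ℝ)..(s + l + 1), τ x * Real.exp (-ρ * x))
        ≤ ∫ x in (s + 1 : ℝ)..(s + l), τ x * Real.exp (-ρ * x) := by
  set K' : ℝ := max K 1 with hK'
  have hK1 : 1 ≤ K' := le_max_right _ _
  obtain ⟨m, hm⟩ := exists_nat_ge (10 * K' ^ 3 + 1)
  have hm1 : 1 ≤ m := by
    have h1 : (1 : ℝ) ≤ m := by
      have : 0 ≤ K' ^ 3 := by positivity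
      linarith
    exact_mod_cast h1
  refine ⟨2 * m, fun X => ?_⟩
  obtain ⟨k₀, hk₀⟩ := exists_nat_ge (max x₀ X)
  have hx₀ : x₀ ≤ k₀ := le_trans (le_max_left _ _) hk₀
  have hX : X ≤ k₀ := le_trans (le_max_right _ _) hk₀
  have hcast : ∀ s : ℕ, k₀ ≤ s → x₀ ≤ (s : ℝ) := fun s hs =>
    le_trans hx₀ (by exact_mod_cast hs)
  by_contra hno
  push Not at hno
  have hF : ∀ s, k₀ ≤ s → ∀ l, 1 ≤ l → l ≤ 2 * m →
      ∑ j ∈ Finset.Ico (s + 1) (s + l), um τ ρ j < K' * (um τ ρ s + um τ ρ (s + l)) := by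
    intro s hs l hl hlm
    have hs0 : 0 < um τ ρ s := um_pos hmono hpos hρ (hcast s hs)
    have hsl : 0 < um τ ρ (s + l) := um_pos hmono hpos hρ (hcast _ (by omega))
    rcases Nat.lt_or_ge 1 l with h2 | h2
    · have h3 := hno s l (le_trans hX (by exact_mod_cast hs)) h2 hlm
      have h4 : ∫ x in ((s : ℝ) + 1)..((s : ℝ) + l), τ x * Real.exp (-ρ * x)
          = ∑ j ∈ Finset.Ico (s + 1) (s + l), um τ ρ j := by
        have h5 := intervalIntegral.sum_integral_adjacent_intervals_Ico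
          (f := fun x => τ x * Real.exp (-ρ * x)) (μ := volume) (a := fun k : ℕ => (k : ℝ))
          (m := s + 1) (n := s + l) (by omega) (fun k hk => by
            refine ii_of_mono hmono (hcast k ?_) (hcast (k + 1) ?_)
            · have := (mem_Ico.1 hk).1; omega
            · have := (mem_Ico.1 hk).1; omega)
        have e : ((s : ℝ) + 1) = ((s + 1 : ℕ) : ℝ) := by push_cast; ring
        have e' : ((s : ℝ) + l) = ((s + l : ℕ) : ℝ) := by push_cast; ring
        rw [e, e', ← h5]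
        refine Finset.sum_congr rfl fun k _ => ?_
        unfold um
        push_cast
        rfl
      have h6 : um τ ρ (s + l) = ∫ x in ((s : ℝ) + l)..((s : ℝ) + l + 1), τ x * Real.exp (-ρ * x) := by
        unfold um
        push_cast
        rfl
      rw [h4, ← h6] at h3
      refine lt_of_lt_of_le h3 ?_
      exact mul_le_mul_of_nonneg_right (le_max_left _ _) (by
        have := add_pos hs0 hsl
        exact this.le)
    · have hl1 : l = 1 := by omega
      subst hl1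
      simp only [Finset.Ico_self, Finset.sum_empty]
      positivity
  rcases growth_or_decay (fun k hk => um_pos hmono hpos hρ (hcast k hk)) hK1 hm hF with
    ⟨t, ht, hgrow⟩ | hdec
  · exact not_growth hmono hpos hρ hlow hm1 (hcast t ht) hgrow
  · exact not_decay hmono hpos hρ hupp hm1 hx₀ hdec

/-- Windows of bounded length. -/
theorem window' {τ : ℝ → ℝ} {x₀ : ℝ} (hmono : MonotoneOn τ (Ici x₀))
    (hpos : ∀ x, x₀ ≤ x → 0 < τ x) {ρ : ℝ} (hρ : 0 < ρ)
    (hlow : Filter.liminf (fun x : ℝ => ((Real.log (τ x) / x : ℝ) : EReal)) atTop ≤ ρ)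
    (hupp : (ρ : EReal) ≤ Filter.limsup (fun x : ℝ => ((Real.log (τ x) / x : ℝ) : EReal)) atTop)
    (K : ℝ) :
    ∃ L : ℝ, ∀ X : ℝ, ∃ a b : ℝ, X ≤ a ∧ a + 1 < b ∧ b ≤ a + L ∧
      K * ((∫ x in a..(a + 1), τ x * Real.exp (-ρ * x)) + ∫ x in b..(b + 1), τ x * Real.exp (-ρ * x))
        ≤ ∫ x in (a + 1)..b, τ x * Real.exp (-ρ * x) := by
  obtain ⟨L, hL⟩ := window'' hmono hpos hρ hlow hupp K
  refine ⟨L, fun X => ?_⟩
  obtain ⟨s, l, h1, h2, h3, h4⟩ := hL X
  refine ⟨s, s + l, h1, ?_, ?_, h4⟩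
  · have : (2 : ℝ) ≤ l := by exact_mod_cast h2
    linarith
  · have : (l : ℝ) ≤ L := by exact_mod_cast h3
    linarith

/-- Windows (without the bound on the length). -/
theorem window {τ : ℝ → ℝ} {x₀ : ℝ} (hmono : MonotoneOn τ (Ici x₀)) (hpos : ∀ x, x₀ ≤ x → 0 < τ x)
    {ρ : ℝ} (hρ : 0 < ρ)
    (hlow : Filter.liminf (fun x : ℝ => ((Real.log (τ x) / x : ℝ) : EReal)) atTop ≤ ρ)
    (hupp : (ρ : EReal) ≤ Filter.limsup (fun x : ℝ => ((Real.log (τ x) / x : ℝ) : EReal)) atTop)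
    (K : ℝ) (X : ℝ) :
    ∃ a b : ℝ, X ≤ a ∧ a + 1 < b ∧
      K * ((∫ x in a..(a + 1), τ x * Real.exp (-ρ * x)) + ∫ x in b..(b + 1), τ x * Real.exp (-ρ * x))
        ≤ ∫ x in (a + 1)..b, τ x * Real.exp (-ρ * x) := by
  obtain ⟨L, hL⟩ := window' hmono hpos hρ hlow hupp K
  obtain ⟨a, b, h1, h2, -, h3⟩ := hL X
  exact ⟨a, b, h1, h2, h3⟩

end DW24
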