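import Pool.Agent.DW24.Defs

/-!
The weights `ω (x) = χ (x) e^{-ρ x}` with uniformly controlled errors.
-/

set_option autoImplicit false

open MeasureTheory Filter Topology Set

namespace DW24

lemma st_deriv_zero {x : ℝ} (hx : x < 0 ∨ 1 < x) : deriv Real.smoothTransition x = 0 := by
  rcases hx with hx | hx
  · have : Real.smoothTransition =ᶠ[𝓝 x] fun _ => 0 := by
      filter_upwards [Iio_mem_nhds hx] with y hy
      exact Real.smoothTransition.zero_of_nonpos (le_of_lt hy)
    rw [this.deriv_eq]; simp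
  · have : Real.smoothTransition =ᶠ[𝓝 x] fun _ => 1 := by
      filter_upwards [Ioi_mem_nhds hx] with y hy
      exact Real.smoothTransition.one_of_one_le (le_of_lt hy)
    rw [this.deriv_eq]; simp

lemma st_deriv2_zero {x : ℝ} (hx : x < 0 ∨ 1 < x) : deriv (deriv Real.smoothTransition) x = 0 := by
  have : deriv Real.smoothTransition =ᶠ[𝓝 x] fun _ => 0 := by
    rcases hx with hx | hx
    · filter_upwards [Iio_mem_nhds hx] with y hy
      exact st_deriv_zero (Or.inl hy)
    · filter_upwards [Ioi_mem_nhds hx] with y hy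
      exact st_deriv_zero (Or.inr hy)
  rw [this.deriv_eq]; simp

lemma st_contDiff (n : ℕ∞) : ContDiff ℝ n Real.smoothTransition := Real.smoothTransition.contDiff

lemma st_d1 (x : ℝ) : HasDerivAt Real.smoothTransition (deriv Real.smoothTransition x) x :=
  ((st_contDiff 1).differentiable (by norm_num) x).hasDerivAt

lemma st_contDiff_deriv : ContDiff ℝ 1 (deriv Real.smoothTransition) := by
  have h2 : ContDiff ℝ (1 + 1) Real.smoothTransition := by
    simpa [one_add_one_eq_two] using st_contDiff 2
  exact (contDiff_succ_iff_deriv.1 h2).2.2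

lemma st_d2 (x : ℝ) : HasDerivAt (deriv Real.smoothTransition)
    (deriv (deriv Real.smoothTransition) x) x :=
  (st_contDiff_deriv.differentiable (by norm_num) x).hasDerivAt

lemma st_bdd : ∃ C : ℝ, 0 < C ∧ (∀ x, |deriv Real.smoothTransition x| ≤ C) ∧
    ∀ x, |deriv (deriv Real.smoothTransition) x| ≤ C := by
  have c1 : Continuous (deriv Real.smoothTransition) := st_contDiff_deriv.continuous
  have c2 : Continuous (deriv (deriv Real.smoothTransition)) :=
    st_contDiff_deriv.continuous_deriv le_rfl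
  obtain ⟨C₁, hC₁⟩ := c1.bounded_above_of_compact_support
    (HasCompactSupport.intro (K := Icc 0 1) isCompact_Icc (fun x hx => st_deriv_zero (by
      rw [mem_Icc, not_and_or, not_le, not_le] at hx; exact hx)))
  obtain ⟨C₂, hC₂⟩ := c2.bounded_above_of_compact_support
    (HasCompactSupport.intro (K := Icc 0 1) isCompact_Icc (fun x hx => st_deriv2_zero (by
      rw [mem_Icc, not_and_or, not_le, not_le] at hx; exact hx)))
  refine ⟨|C₁| + |C₂| + 1, by positivity, fun x => ?_, fun x => ?_⟩
  · have := hC₁ x; rw [Real.norm_eq_abs] at this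
    linarith [le_abs_self C₁, abs_nonneg C₂]
  · have := hC₂ x; rw [Real.norm_eq_abs] at this
    linarith [le_abs_self C₂, abs_nonneg C₁]

/-- derivative of `g (σ x + c) e^{-ρ x}` twice, `σ = ±1` -/
lemma weight_calc {g g' g'' : ℝ → ℝ} (h1 : ∀ x, HasDerivAt g (g' x) x) (h2 : ∀ x, HasDerivAt g' (g'' x) x)
    (σ c ρ x : ℝ) :
    HasDerivAt (fun x => g (σ * x + c) * Real.exp (-ρ * x))
      ((σ * g' (σ * x + c) - ρ * g (σ * x + c)) * Real.exp (-ρ * x)) x ∧
    HasDerivAt (fun x => (σ * g' (σ * x + c) - ρ * g (σ * x + c)) * Real.exp (-ρ * x))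
      ((σ ^ 2 * g'' (σ * x + c) - 2 * ρ * σ * g' (σ * x + c) + ρ ^ 2 * g (σ * x + c))
        * Real.exp (-ρ * x)) x := by
  have hl : HasDerivAt (fun x : ℝ => σ * x + c) σ x := by
    simpa using ((hasDerivAt_id x).const_mul σ).add_const c
  have he : HasDerivAt (fun x : ℝ => Real.exp (-ρ * x)) (Real.exp (-ρ * x) * -ρ) x := by
    have : HasDerivAt (fun x : ℝ => -ρ * x) (-ρ) x := by
      simpa using (hasDerivAt_id x).const_mul (-ρ)
    exact this.exp
  have hg : HasDerivAt (fun x : ℝ => g (σ * x + c)) (g' (σ * x + c) * σ) x :=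
    (h1 (σ * x + c)).comp x hl
  have hg' : HasDerivAt (fun x : ℝ => g' (σ * x + c)) (g'' (σ * x + c) * σ) x :=
    (h2 (σ * x + c)).comp x hl
  constructor
  · refine (hg.mul he).congr_deriv ?_
    ring
  · refine ((((hg'.const_mul σ).sub (hg.const_mul ρ))).mul he).congr_deriv ?_
    simp only [Pi.sub_apply]
    ring

/-- The weights. -/
theorem exists_weight (ρ : ℝ) (hρ : 0 < ρ) : ∃ Cw : ℝ, 0 < Cw ∧ ∀ a b : ℝ, a + 1 < b →
    ∃ ω : ℝ → ℝ, ContDiff ℝ 2 ω ∧ (∀ x, 0 ≤ ω x) ∧ (∀ x, x ∉ Icc a (b + 1) → ω x = 0) ∧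
      (∀ x ∈ Icc (a + 1) b, ω x = Real.exp (-ρ * x)) ∧ (∀ x, ω x ≤ Real.exp (-ρ * x)) ∧
      (∀ x, |deriv (deriv ω) x - ρ ^ 2 * ω x| ≤ Cw * Real.exp (-ρ * x)) ∧
      (∀ x, x ∉ Icc a (a + 1) → x ∉ Icc b (b + 1) → deriv (deriv ω) x - ρ ^ 2 * ω x = 0) := by
  obtain ⟨C, hC, hb1, hb2⟩ := st_bdd
  refine ⟨C + 2 * ρ * C, by positivity, fun a b hab => ?_⟩
  set ω : ℝ → ℝ := fun x => Real.smoothTransition (x - a) * Real.smoothTransition (b + 1 - x) *
    Real.exp (-ρ * x) with hω
  have hexp : ∀ x : ℝ, 0 < Real.exp (-ρ * x) := fun x => Real.exp_pos _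
  -- local formulas
  have hleft : ∀ x, x < b → deriv (deriv ω) x - ρ ^ 2 * ω x
      = (deriv (deriv Real.smoothTransition) (x - a) - 2 * ρ * deriv Real.smoothTransition (x - a))
        * Real.exp (-ρ * x) := by
    intro x hx
    have hev : ω =ᶠ[𝓝 x] fun x => Real.smoothTransition (1 * x + -a) * Real.exp (-ρ * x) := by
      filter_upwards [Iio_mem_nhds hx] with y hy
      have hy' : y < b := hy
      simp only [hω]
      rw [Real.smoothTransition.one_of_one_le (x := b + 1 - y) (by linarith), mul_one, one_mul,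
        sub_eq_add_neg]
    have hc := fun y => weight_calc st_d1 st_d2 1 (-a) ρ y
    have hd1 : deriv ω =ᶠ[𝓝 x] fun y => (1 * deriv Real.smoothTransition (1 * y + -a)
        - ρ * Real.smoothTransition (1 * y + -a)) * Real.exp (-ρ * y) :=
      hev.deriv.trans (Eventually.of_forall fun y => (hc y).1.deriv)
    rw [hd1.deriv_eq, (hc x).2.deriv, hev.self_of_nhds]
    simp only [one_mul, ← sub_eq_add_neg]
    ring
  have hright : ∀ x, a + 1 < x → deriv (deriv ω) x - ρ ^ 2 * ω x
      = (deriv (deriv Real.smoothTransition) (b + 1 - x) + 2 * ρ * deriv Real.smoothTransition (b + 1 - x))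
        * Real.exp (-ρ * x) := by
    intro x hx
    have hev : ω =ᶠ[𝓝 x] fun x => Real.smoothTransition (-1 * x + (b + 1)) * Real.exp (-ρ * x) := by
      filter_upwards [Ioi_mem_nhds hx] with y hy
      have hy' : a + 1 < y := hy
      simp only [hω]
      rw [Real.smoothTransition.one_of_one_le (x := y - a) (by linarith), one_mul,
        show b + 1 - y = -1 * y + (b + 1) by ring]
    have hc := fun y => weight_calc st_d1 st_d2 (-1) (b + 1) ρ y
    have hd1 : deriv ω =ᶠ[𝓝 x] fun y => (-1 * deriv Real.smoothTransition (-1 * y + (b + 1))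
        - ρ * Real.smoothTransition (-1 * y + (b + 1))) * Real.exp (-ρ * y) :=
      hev.deriv.trans (Eventually.of_forall fun y => (hc y).1.deriv)
    rw [hd1.deriv_eq, (hc x).2.deriv, hev.self_of_nhds, show b + 1 - x = -1 * x + (b + 1) by ring]
    ring
  refine ⟨ω, ?_, ?_, ?_, ?_, ?_, ?_, ?_⟩
  · have h1 : ContDiff ℝ 2 (fun x : ℝ => x - a) := contDiff_id.sub contDiff_const
    have h2 : ContDiff ℝ 2 (fun x : ℝ => b + 1 - x) := contDiff_const.sub contDiff_id
    have h3 : ContDiff ℝ 2 (fun x : ℝ => Real.exp (-ρ * x)) := (contDiff_const.mul contDiff_id).exp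
    exact ((Real.smoothTransition.contDiff.comp h1).mul (Real.smoothTransition.contDiff.comp h2)).mul h3
  · intro x
    exact mul_nonneg (mul_nonneg (Real.smoothTransition.nonneg _) (Real.smoothTransition.nonneg _))
      (hexp x).le
  · intro x hx
    rw [mem_Icc, not_and_or, not_le, not_le] at hx
    simp only [hω]
    rcases hx with h | h
    · rw [Real.smoothTransition.zero_of_nonpos (x := x - a) (by linarith)]; ring
    · rw [Real.smoothTransition.zero_of_nonpos (x := b + 1 - x) (by linarith)]; ring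
  · intro x hx
    simp only [hω]
    rw [Real.smoothTransition.one_of_one_le (x := x - a) (by linarith [hx.1]),
      Real.smoothTransition.one_of_one_le (x := b + 1 - x) (by linarith [hx.2])]
    ring
  · intro x
    simp only [hω]
    refine mul_le_of_le_one_left (hexp x).le ?_
    exact mul_le_one₀ (Real.smoothTransition.le_one _) (Real.smoothTransition.nonneg _)
      (Real.smoothTransition.le_one _)
  · intro x
    rcases lt_or_ge x b with h | h
    · rw [hleft x h, abs_mul, abs_of_pos (hexp x)]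
      refine mul_le_mul_of_nonneg_right ?_ (hexp x).le
      refine (abs_sub _ _).trans ?_
      rw [abs_mul, abs_of_pos (by positivity : 0 < 2 * ρ)]
      have h1 := hb2 (x - a)
      have h2 := mul_le_mul_of_nonneg_left (hb1 (x - a)) (by positivity : 0 ≤ 2 * ρ)
      linarith
    · rw [hright x (by linarith), abs_mul, abs_of_pos (hexp x)]
      refine mul_le_mul_of_nonneg_right ?_ (hexp x).le
      refine (abs_add_le _ _).trans ?_
      rw [abs_mul, abs_of_pos (by positivity : 0 < 2 * ρ)]
      have h1 := hb2 (b + 1 - x)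
      have h2 := mul_le_mul_of_nonneg_left (hb1 (b + 1 - x)) (by positivity : 0 ≤ 2 * ρ)
      linarith
  · intro x hx1 hx2
    rcases lt_or_ge x b with h | h
    · rw [hleft x h]
      have : x - a < 0 ∨ 1 < x - a := by
        rw [mem_Icc, not_and_or, not_le, not_le] at hx1
        rcases hx1 with h1 | h1
        · left; linarith
        · right; linarith
      rw [st_deriv_zero this, st_deriv2_zero this]; ring
    · rw [hright x (by linarith)]
      have : b + 1 - x < 0 ∨ 1 < b + 1 - x := by
        rw [mem_Icc, not_and_or, not_le, not_le] at hx2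
        rcases hx2 with h1 | h1
        · exact absurd h1 (not_lt.2 h)
        · left; linarith
      rw [st_deriv_zero this, st_deriv2_zero this]; ring

end DW24
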