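import Pool.Agent.DW24.Defs
import Pool.Agent.DW24.Weight
import Pool.Agent.DW24.W2

/-!
Module FinA: `T(r) → ∞`, non-constancy, and the windows with their weights.
-/

set_option autoImplicit false

open MeasureTheory Filter Topology Set ValueDistribution

namespace DW24

theorem mono_T' {f : ℂ → ℂ} (hf : Meromorphic f) :
    Monotone (fun x : ℝ => characteristic f ⊤ (Real.exp x)) := by
  intro x y hxy
  exact characteristic_monotoneOn hf (Real.exp_pos x) (Real.exp_pos y) (Real.exp_le_exp.mpr hxy)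

theorem T_tendsto {f : ℂ → ℂ} (hf : Meromorphic f) {ρ : ℝ} (hρ : 0 < ρ)
    (hupp : (ρ : EReal) ≤ limsup (fun r : ℝ =>
      ((Real.log (characteristic f ⊤ r) / Real.log r : ℝ) : EReal)) atTop) :
    Tendsto (fun r => characteristic f ⊤ r) atTop atTop := by
  rw [tendsto_atTop_atTop]
  by_contra hcon
  push Not at hcon
  obtain ⟨b, hb⟩ := hcon
  have hbd : ∀ r : ℝ, 0 < r → characteristic f ⊤ r < b := by
    intro r hr
    obtain ⟨s, hs, hsb⟩ := hb r
    exact lt_of_le_of_lt (characteristic_monotoneOn hf hr (lt_of_lt_of_le hr hs) hs) hsb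
  set L : ℝ := Real.log (max b 1) with hL
  have hL0 : 0 ≤ L := Real.log_nonneg (le_max_right _ _)
  have hle : ∀ᶠ r : ℝ in atTop,
      ((Real.log (characteristic f ⊤ r) / Real.log r : ℝ) : EReal) ≤ ((ρ / 2 : ℝ) : EReal) := by
    have h1 : Tendsto (fun r : ℝ => L / Real.log r) atTop (𝓝 0) :=
      Real.tendsto_log_atTop.const_div_atTop L
    have h2 : ∀ᶠ r : ℝ in atTop, L / Real.log r < ρ / 2 :=
      h1.eventually_lt_const (half_pos hρ)
    filter_upwards [h2, eventually_gt_atTop (1 : ℝ)] with r hr hr1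
    rw [EReal.coe_le_coe_iff]
    have hlr : 0 < Real.log r := Real.log_pos hr1
    refine le_trans ?_ hr.le
    refine div_le_div_of_nonneg_right ?_ hlr.le
    have hT0 : 0 ≤ characteristic f ⊤ r := characteristic_nonneg hr1.le
    rcases eq_or_lt_of_le hT0 with h | h
    · rw [← h, Real.log_zero]; exact hL0
    · exact Real.log_le_log h ((hbd r (by linarith)).le.trans (le_max_left _ _))
  have := hupp.trans (limsup_le_of_le (h := hle))
  rw [EReal.coe_le_coe_iff] at this
  linarith

theorem ne_codiscrete {f : ℂ → ℂ} (hf : Meromorphic f)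
    (hT : Tendsto (fun r => characteristic f ⊤ r) atTop atTop) :
    ∀ c : ℂ, ∀ᶠ z in codiscrete ℂ, f z ≠ c := by
  intro c
  have hg : Meromorphic (fun z => f z - c) := hf.sub (Meromorphic.const c)
  have hgU : MeromorphicOn (fun z => f z - c) univ := fun z _ => hg z
  by_cases h : ∃ u : (univ : Set ℂ), meromorphicOrderAt (fun z => f z - c) u ≠ ⊤
  · rw [hgU.exists_meromorphicOrderAt_ne_top_iff_forall
      ⟨univ_nonempty, isPreconnected_univ⟩] at h
    have := hgU.eventually_codiscreteWithin_apply_ne_zero (fun x hx => h ⟨x, hx⟩)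
    filter_upwards [this] with z hz
    exact fun he => hz (by rw [he, sub_self])
  · exfalso
    push Not at h
    have hev : f =ᶠ[codiscrete ℂ] (fun _ => c) := by
      rw [Filter.EventuallyEq, Filter.eventually_iff, mem_codiscrete]
      intro x
      rw [Filter.disjoint_principal_right, compl_compl]
      have := meromorphicOrderAt_eq_top_iff.mp (h ⟨x, mem_univ x⟩)
      filter_upwards [this] with z hz
      exact sub_eq_zero.mp hz
    have hconst : ∀ r : ℝ, 1 ≤ r → characteristic f ⊤ r = characteristic (fun _ : ℂ => c) ⊤ r :=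
      fun r hr => characteristic_congr_codiscrete hev (by linarith)
    have hval : ∀ r : ℝ, characteristic (fun _ : ℂ => c) ⊤ r = Real.posLog ‖c‖ := by
      intro r
      simp [characteristic]
    obtain ⟨r, hr⟩ := (hT.eventually_gt_atTop (Real.posLog ‖c‖)).and (eventually_ge_atTop (1 : ℝ))
      |>.exists
    rw [hconst r hr.2, hval r] at hr
    exact lt_irrefl _ hr.1

/-- integrability of `τ κ` for monotone `τ` and continuous `κ` on a compact interval -/
theorem int_mono_cont {τ κ : ℝ → ℝ} (hτ : Monotone τ) (hκ : Continuous κ) (a b : ℝ) :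
    IntegrableOn (fun x => τ x * κ x) (Icc a b) := by
  have h1 : IntegrableOn τ (Icc a b) := hτ.locallyIntegrable.integrableOn_isCompact isCompact_Icc
  exact h1.mul_continuousOn hκ.continuousOn isCompact_Icc

theorem exists_windows_aux {f : ℂ → ℂ} (hf : Meromorphic f) {ρ : ℝ} (hρ : 0 < ρ)
    (hT : Tendsto (fun r => characteristic f ⊤ r) atTop atTop)
    (hwin : ∀ x₀ : ℝ, (∀ x, x₀ ≤ x → 0 < characteristic f ⊤ (Real.exp x)) → ∀ K X : ℝ,
      ∃ a b : ℝ, X ≤ a ∧ a + 1 < b ∧
      K * ((∫ x in a..(a + 1), characteristic f ⊤ (Real.exp x) * Real.exp (-ρ * x))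
        + ∫ x in b..(b + 1), characteristic f ⊤ (Real.exp x) * Real.exp (-ρ * x))
        ≤ ∫ x in (a + 1)..b, characteristic f ⊤ (Real.exp x) * Real.exp (-ρ * x))
    (A B : ℝ) (hA : 0 ≤ A) (hB : 0 ≤ B) :
    ∃ (α β : ℕ → ℝ) (ω : ℕ → ℝ → ℝ), Tendsto α atTop atTop ∧ (∀ n, 0 ≤ α n) ∧ (∀ n, α n ≤ β n) ∧
      (∀ n, ContDiff ℝ 2 (ω n)) ∧ (∀ n x, 0 ≤ ω n x) ∧ (∀ n x, x ∉ Icc (α n) (β n) → ω n x = 0) ∧
      (∀ n, 0 < ∫ x, characteristic f ⊤ (Real.exp x) * ω n x) ∧
      Tendsto (fun n => (∫ x, characteristic f ⊤ (Real.exp x) * ω n x)⁻¹ * (2 * Real.pi *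
        ∫ x, |deriv (deriv (ω n)) x - ρ ^ 2 * ω n x| * (A * characteristic f ⊤ (Real.exp x) + B)))
        atTop (𝓝 0) := by
  set τ : ℝ → ℝ := fun x => characteristic f ⊤ (Real.exp x) with hτ
  have hmono : Monotone τ := mono_T' hf
  have hτT : Tendsto τ atTop atTop := hT.comp Real.tendsto_exp_atTop
  obtain ⟨x₁, hx₁⟩ := (tendsto_atTop.mp hτT 1).exists_forall_of_atTop
  set x₀ : ℝ := max x₁ 0 with hx₀
  have hx0nn : 0 ≤ x₀ := le_max_right _ _
  have hge1 : ∀ x, x₀ ≤ x → 1 ≤ τ x := fun x hx => hx₁ x ((le_max_left _ _).trans hx)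
  have hpos : ∀ x, x₀ ≤ x → 0 < τ x := fun x hx => lt_of_lt_of_le one_pos (hge1 x hx)
  obtain ⟨Cw, hCw, hwt⟩ := exists_weight ρ hρ
  have hch : ∀ n : ℕ, ∃ a b : ℝ, max (n : ℝ) x₀ ≤ a ∧ a + 1 < b ∧
      ((n : ℝ) + 1) * ((∫ x in a..(a + 1), τ x * Real.exp (-ρ * x))
        + ∫ x in b..(b + 1), τ x * Real.exp (-ρ * x))
        ≤ ∫ x in (a + 1)..b, τ x * Real.exp (-ρ * x) := fun n => hwin x₀ hpos _ _
  choose a b hXa hab hKI using hch
  have hw := fun n => hwt (a n) (b n) (hab n)
  choose ω hω1 hω2 hω3 hω4 hω5 hω6 hω7 using hw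
  have hax : ∀ n, x₀ ≤ a n := fun n => (le_max_right _ _).trans (hXa n)
  have han : ∀ n : ℕ, (n : ℝ) ≤ a n := fun n => (le_max_left _ _).trans (hXa n)
  have hec : Continuous (fun x : ℝ => Real.exp (-ρ * x)) := by fun_prop
  have hgi : ∀ c d : ℝ, IntegrableOn (fun x => τ x * Real.exp (-ρ * x)) (Icc c d) :=
    fun c d => int_mono_cont hmono hec c d
  -- the main integral `I n`
  set I : ℕ → ℝ := fun n => ∫ x in (a n + 1)..(b n), τ x * Real.exp (-ρ * x) with hI
  have hIpos : ∀ n, 0 < I n := by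
    intro n
    have hlow : (b n - (a n + 1)) * Real.exp (-ρ * b n) ≤ I n := by
      have : (b n - (a n + 1)) * Real.exp (-ρ * b n)
          = ∫ _x in (a n + 1)..(b n), Real.exp (-ρ * b n) := by
        rw [intervalIntegral.integral_const, smul_eq_mul]
      rw [this, hI]
      apply intervalIntegral.integral_mono_on (hab n).le intervalIntegrable_const
      · rw [intervalIntegrable_iff_integrableOn_Icc_of_le (hab n).le]
        exact hgi _ _
      · intro x hx
        have h1 : 1 ≤ τ x := hge1 x (by linarith [hx.1, hax n])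
        have h2 : Real.exp (-ρ * b n) ≤ Real.exp (-ρ * x) := by
          rw [Real.exp_le_exp]; nlinarith [hx.2]
        calc Real.exp (-ρ * b n) ≤ 1 * Real.exp (-ρ * x) := by rw [one_mul]; exact h2
          _ ≤ τ x * Real.exp (-ρ * x) := mul_le_mul_of_nonneg_right h1 (Real.exp_pos _).le
    have h0 : 0 < (b n - (a n + 1)) * Real.exp (-ρ * b n) :=
      mul_pos (by linarith [hab n]) (Real.exp_pos _)
    linarith
  -- `D n ≥ I n`
  have hωint : ∀ n, Integrable (fun x => τ x * ω n x) := by
    intro n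
    have h1 : (fun x => τ x * ω n x) = (Icc (a n) (b n + 1)).indicator (fun x => τ x * ω n x) := by
      funext x
      by_cases hx : x ∈ Icc (a n) (b n + 1)
      · rw [indicator_of_mem hx]
      · rw [indicator_of_notMem hx, hω3 n x hx, mul_zero]
    rw [h1, integrable_indicator_iff measurableSet_Icc]
    exact int_mono_cont hmono (hω1 n).continuous _ _
  have hDI : ∀ n, I n ≤ ∫ x, τ x * ω n x := by
    intro n
    have h1 : I n = ∫ x, (Icc (a n + 1) (b n)).indicator (fun x => τ x * Real.exp (-ρ * x)) x := by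
      rw [integral_indicator measurableSet_Icc, integral_Icc_eq_integral_Ioc, hI]
      exact intervalIntegral.integral_of_le (hab n).le
    rw [h1]
    apply integral_mono_of_nonneg
    · refine Eventually.of_forall fun x => ?_
      apply indicator_nonneg
      intro y hy
      exact mul_nonneg (hpos y (by linarith [hy.1, hax n])).le (Real.exp_pos _).le
    · exact hωint n
    · refine Eventually.of_forall fun x => ?_
      by_cases hx : x ∈ Icc (a n + 1) (b n)
      · simp only [indicator_of_mem hx]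
        rw [hω4 n x hx]
      · simp only [indicator_of_notMem hx]
        by_cases hx2 : x ∈ Icc (a n) (b n + 1)
        · exact mul_nonneg (hpos x ((hax n).trans hx2.1)).le (hω2 n x)
        · rw [hω3 n x hx2, mul_zero]
  have hDpos : ∀ n, 0 < ∫ x, τ x * ω n x := fun n => lt_of_lt_of_le (hIpos n) (hDI n)
  -- the error integral
  set E : ℕ → ℝ := fun n => ∫ x, |deriv (deriv (ω n)) x - ρ ^ 2 * ω n x| * (A * τ x + B) with hE
  have hκ0 : ∀ n x, x ∉ Icc (a n) (a n + 1) → x ∉ Icc (b n) (b n + 1) →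
      |deriv (deriv (ω n)) x - ρ ^ 2 * ω n x| = 0 := by
    intro n x h1 h2
    rw [hω7 n x h1 h2, abs_zero]
  have hE0 : ∀ n, 0 ≤ E n := by
    intro n
    apply integral_nonneg
    intro x
    by_cases h1 : x ∈ Icc (a n) (a n + 1)
    · exact mul_nonneg (abs_nonneg _) (add_nonneg (mul_nonneg hA (hpos x ((hax n).trans h1.1)).le) hB)
    · by_cases h2 : x ∈ Icc (b n) (b n + 1)
      · have : x₀ ≤ x := by linarith [h2.1, hax n, hab n]
        exact mul_nonneg (abs_nonneg _) (add_nonneg (mul_nonneg hA (hpos x this).le) hB)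
      · simp only [Pi.zero_apply]
        rw [hκ0 n x h1 h2, zero_mul]
  have hEle : ∀ n, E n ≤ Cw * (A + B) * (I n / (n + 1)) := by
    intro n
    set g : ℝ → ℝ := fun x => τ x * Real.exp (-ρ * x) with hg
    have hmaj : E n ≤ ∫ x, (Cw * (A + B)) * ((Icc (a n) (a n + 1)).indicator g x
        + (Icc (b n) (b n + 1)).indicator g x) := by
      rw [hE]
      have hpt : ∀ x, x₀ ≤ x → |deriv (deriv (ω n)) x - ρ ^ 2 * ω n x| * (A * τ x + B)
          ≤ (Cw * (A + B)) * g x := by
        intro x hx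
        have h1 := hge1 x hx
        have h2 : A * τ x + B ≤ (A + B) * τ x := by nlinarith
        have h3 : 0 ≤ A * τ x + B := add_nonneg (mul_nonneg hA (hpos x hx).le) hB
        calc _ ≤ (Cw * Real.exp (-ρ * x)) * (A * τ x + B) :=
              mul_le_mul_of_nonneg_right (hω6 n x) h3
          _ ≤ (Cw * Real.exp (-ρ * x)) * ((A + B) * τ x) :=
              mul_le_mul_of_nonneg_left h2 (by positivity)
          _ = _ := by rw [hg]; ring
      apply integral_mono_of_nonneg
      · refine Eventually.of_forall fun x => ?_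
        by_cases h1 : x ∈ Icc (a n) (a n + 1)
        · exact mul_nonneg (abs_nonneg _)
            (add_nonneg (mul_nonneg hA (hpos x ((hax n).trans h1.1)).le) hB)
        · by_cases h2 : x ∈ Icc (b n) (b n + 1)
          · have : x₀ ≤ x := by linarith [h2.1, hax n, hab n]
            exact mul_nonneg (abs_nonneg _) (add_nonneg (mul_nonneg hA (hpos x this).le) hB)
          · simp only [Pi.zero_apply]
            rw [hκ0 n x h1 h2, zero_mul]
      · apply Integrable.const_mul
        apply Integrable.add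
        · rw [integrable_indicator_iff measurableSet_Icc]; exact hgi _ _
        · rw [integrable_indicator_iff measurableSet_Icc]; exact hgi _ _
      · refine Eventually.of_forall fun x => ?_
        have hgnn : ∀ y, x₀ ≤ y → 0 ≤ g y := fun y hy =>
          mul_nonneg (hpos y hy).le (Real.exp_pos _).le
        have hCAB : 0 ≤ Cw * (A + B) := by positivity
        by_cases h1 : x ∈ Icc (a n) (a n + 1)
        · have hx0 : x₀ ≤ x := (hax n).trans h1.1
          have h2 : x ∉ Icc (b n) (b n + 1) := fun h => by linarith [h.1, h1.2, hab n]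
          simp only [indicator_of_mem h1, indicator_of_notMem h2, add_zero]
          exact hpt x hx0
        · by_cases h2 : x ∈ Icc (b n) (b n + 1)
          · have hx0 : x₀ ≤ x := by linarith [h2.1, hax n, hab n]
            simp only [indicator_of_notMem h1, indicator_of_mem h2, zero_add]
            exact hpt x hx0
          · simp only [indicator_of_notMem h1, indicator_of_notMem h2, add_zero, mul_zero]
            rw [hκ0 n x h1 h2, zero_mul]
    have hval : ∫ x, (Cw * (A + B)) * ((Icc (a n) (a n + 1)).indicator g x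
        + (Icc (b n) (b n + 1)).indicator g x)
        = Cw * (A + B) * ((∫ x in (a n)..(a n + 1), g x) + ∫ x in (b n)..(b n + 1), g x) := by
      rw [integral_const_mul, integral_add, integral_indicator measurableSet_Icc,
        integral_indicator measurableSet_Icc, integral_Icc_eq_integral_Ioc,
        integral_Icc_eq_integral_Ioc, intervalIntegral.integral_of_le (by linarith),
        intervalIntegral.integral_of_le (by linarith)]
      · rw [integrable_indicator_iff measurableSet_Icc]; exact hgi _ _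
      · rw [integrable_indicator_iff measurableSet_Icc]; exact hgi _ _
    rw [hval] at hmaj
    refine hmaj.trans ?_
    apply mul_le_mul_of_nonneg_left _ (by positivity)
    rw [le_div_iff₀ (by positivity), mul_comm]
    exact hKI n
  refine ⟨a, fun n => b n + 1, ω, ?_, ?_, ?_, hω1, hω2, hω3, hDpos, ?_⟩
  · exact tendsto_atTop_mono han tendsto_natCast_atTop_atTop
  · intro n; exact hx0nn.trans (hax n)
  · intro n; linarith [hab n]
  · -- the limit
    have hup : Tendsto (fun n : ℕ => 2 * Real.pi * (Cw * (A + B)) * (1 / ((n : ℝ) + 1))) atTop (𝓝 0) := by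
      have := tendsto_one_div_add_atTop_nhds_zero_nat (𝕜 := ℝ)
      simpa using this.const_mul (2 * Real.pi * (Cw * (A + B)))
    refine squeeze_zero (fun n => ?_) (fun n => ?_) hup
    · exact mul_nonneg (inv_nonneg.mpr (hDpos n).le) (mul_nonneg (by positivity) (hE0 n))
    · have hD := hDpos n
      have hn : (0 : ℝ) < (n : ℝ) + 1 := by positivity
      rw [inv_mul_le_iff₀ hD]
      calc 2 * Real.pi * E n ≤ 2 * Real.pi * (Cw * (A + B) * (I n / (n + 1))) :=
            mul_le_mul_of_nonneg_left (hEle n) (by positivity)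
        _ ≤ 2 * Real.pi * (Cw * (A + B) * ((∫ x, τ x * ω n x) / (n + 1))) := by
            apply mul_le_mul_of_nonneg_left _ (by positivity)
            apply mul_le_mul_of_nonneg_left _ (by positivity)
            exact div_le_div_of_nonneg_right (hDI n) hn.le
        _ = _ := by ring

theorem liminf_comp_exp (F : ℝ → EReal) :
    liminf (fun x : ℝ => F (Real.exp x)) atTop = liminf F atTop := by
  have h : map (fun x : ℝ => F (Real.exp x)) atTop = map F atTop := by
    have := Filter.map_map (f := (atTop : Filter ℝ)) (m := Real.exp) (m' := F)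
    rw [Real.map_exp_atTop] at this
    exact this.symm
  change limsInf (map (fun x : ℝ => F (Real.exp x)) atTop) = limsInf (map F atTop)
  rw [h]

theorem limsup_comp_exp (F : ℝ → EReal) :
    limsup (fun x : ℝ => F (Real.exp x)) atTop = limsup F atTop := by
  have h : map (fun x : ℝ => F (Real.exp x)) atTop = map F atTop := by
    have := Filter.map_map (f := (atTop : Filter ℝ)) (m := Real.exp) (m' := F)
    rw [Real.map_exp_atTop] at this
    exact this.symm
  change limsSup (map (fun x : ℝ => F (Real.exp x)) atTop) = limsSup (map F atTop)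
  rw [h]

/-- windows and weights, from the statement of `window` -/
theorem exists_windows_of {f : ℂ → ℂ} (hf : Meromorphic f) {ρ : ℝ} (hρ : 0 < ρ)
    (hlow : liminf (fun r : ℝ => ((Real.log (characteristic f ⊤ r) / Real.log r : ℝ) : EReal)) atTop ≤ ρ)
    (hupp : (ρ : EReal) ≤ limsup (fun r : ℝ => ((Real.log (characteristic f ⊤ r) / Real.log r : ℝ) : EReal)) atTop)
    (hW : ∀ {τ : ℝ → ℝ} {x₀ : ℝ}, MonotoneOn τ (Ici x₀) → (∀ x, x₀ ≤ x → 0 < τ x) →
      Filter.liminf (fun x : ℝ => ((Real.log (τ x) / x : ℝ) : EReal)) atTop ≤ ρ →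
      (ρ : EReal) ≤ Filter.limsup (fun x : ℝ => ((Real.log (τ x) / x : ℝ) : EReal)) atTop →
      ∀ K X : ℝ, ∃ a b : ℝ, X ≤ a ∧ a + 1 < b ∧
      K * ((∫ x in a..(a + 1), τ x * Real.exp (-ρ * x)) + ∫ x in b..(b + 1), τ x * Real.exp (-ρ * x))
        ≤ ∫ x in (a + 1)..b, τ x * Real.exp (-ρ * x))
    (A B : ℝ) (hA : 0 ≤ A) (hB : 0 ≤ B) :
    ∃ (α β : ℕ → ℝ) (ω : ℕ → ℝ → ℝ), Tendsto α atTop atTop ∧ (∀ n, 0 ≤ α n) ∧ (∀ n, α n ≤ β n) ∧
      (∀ n, ContDiff ℝ 2 (ω n)) ∧ (∀ n x, 0 ≤ ω n x) ∧ (∀ n x, x ∉ Icc (α n) (β n) → ω n x = 0) ∧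
      (∀ n, 0 < ∫ x, characteristic f ⊤ (Real.exp x) * ω n x) ∧
      Tendsto (fun n => (∫ x, characteristic f ⊤ (Real.exp x) * ω n x)⁻¹ * (2 * Real.pi *
        ∫ x, |deriv (deriv (ω n)) x - ρ ^ 2 * ω n x| * (A * characteristic f ⊤ (Real.exp x) + B)))
        atTop (𝓝 0) := by
  refine exists_windows_aux hf hρ (T_tendsto hf hρ hupp) ?_ A B hA hB
  intro x₀ hpos K X
  have h1 := liminf_comp_exp
    (fun r : ℝ => ((Real.log (characteristic f ⊤ r) / Real.log r : ℝ) : EReal))
  have h2 := limsup_comp_exp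
    (fun r : ℝ => ((Real.log (characteristic f ⊤ r) / Real.log r : ℝ) : EReal))
  simp only [Real.log_exp] at h1 h2
  exact hW (τ := fun x => characteristic f ⊤ (Real.exp x)) (x₀ := x₀)
    ((mono_T' hf).monotoneOn _) hpos (h1.trans_le hlow) (h2.symm ▸ hupp) K X

/-- windows and weights -/
theorem exists_windows {f : ℂ → ℂ} (hf : Meromorphic f) {ρ : ℝ} (hρ : 0 < ρ)
    (hlow : liminf (fun r : ℝ => ((Real.log (characteristic f ⊤ r) / Real.log r : ℝ) : EReal)) atTop ≤ ρ)
    (hupp : (ρ : EReal) ≤ limsup (fun r : ℝ => ((Real.log (characteristic f ⊤ r) / Real.log r : ℝ) : EReal)) atTop)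
    (A B : ℝ) (hA : 0 ≤ A) (hB : 0 ≤ B) :
    ∃ (α β : ℕ → ℝ) (ω : ℕ → ℝ → ℝ), Tendsto α atTop atTop ∧ (∀ n, 0 ≤ α n) ∧ (∀ n, α n ≤ β n) ∧
      (∀ n, ContDiff ℝ 2 (ω n)) ∧ (∀ n x, 0 ≤ ω n x) ∧ (∀ n x, x ∉ Icc (α n) (β n) → ω n x = 0) ∧
      (∀ n, 0 < ∫ x, characteristic f ⊤ (Real.exp x) * ω n x) ∧
      Tendsto (fun n => (∫ x, characteristic f ⊤ (Real.exp x) * ω n x)⁻¹ * (2 * Real.pi *
        ∫ x, |deriv (deriv (ω n)) x - ρ ^ 2 * ω n x| * (A * characteristic f ⊤ (Real.exp x) + B)))
        atTop (𝓝 0) :=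
  exists_windows_of hf hρ hlow hupp (fun hm hp hl hu => window hm hp hρ hl hu) A B hA hB

/-- windows of bounded length and weights -/
theorem exists_windows_bdd {f : ℂ → ℂ} (hf : Meromorphic f) {ρ : ℝ} (hρ : 0 < ρ)
    (hlow : liminf (fun r : ℝ => ((Real.log (characteristic f ⊤ r) / Real.log r : ℝ) : EReal)) atTop ≤ ρ)
    (hupp : (ρ : EReal) ≤ limsup (fun r : ℝ => ((Real.log (characteristic f ⊤ r) / Real.log r : ℝ) : EReal)) atTop)
    (A B : ℝ) (hA : 0 ≤ A) (hB : 0 ≤ B) (η : ℝ) (hη : 0 < η) :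
    ∃ L : ℕ, ∀ X : ℝ, ∃ (k m : ℕ) (ω : ℝ → ℝ), X ≤ k ∧ 1 ≤ m ∧ m ≤ L ∧ ContDiff ℝ 2 ω ∧ (∀ x, 0 ≤ ω x) ∧
      (∀ x, ω x ≤ Real.exp (-ρ * x)) ∧ (∀ x, x ∉ Icc (k : ℝ) (k + m) → ω x = 0) ∧
      0 < ∫ x, characteristic f ⊤ (Real.exp x) * ω x ∧
      (∫ x, characteristic f ⊤ (Real.exp x) * ω x)⁻¹ * (2 * Real.pi *
        ∫ x, |deriv (deriv ω) x - ρ ^ 2 * ω x| * (A * characteristic f ⊤ (Real.exp x) + B)) ≤ η ∧
      ∫ x in (k : ℝ)..(k + m), characteristic f ⊤ (Real.exp x) * Real.exp (-ρ * x)
        ≤ 2 * ∫ x, characteristic f ⊤ (Real.exp x) * ω x := by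
  have hT := T_tendsto hf hρ hupp
  set τ : ℝ → ℝ := fun x => characteristic f ⊤ (Real.exp x) with hτ
  have hmono : Monotone τ := mono_T' hf
  have hτT : Tendsto τ atTop atTop := hT.comp Real.tendsto_exp_atTop
  obtain ⟨x₁, hx₁⟩ := (tendsto_atTop.mp hτT 1).exists_forall_of_atTop
  set x₀ : ℝ := max x₁ 0 with hx₀
  have hge1 : ∀ x, x₀ ≤ x → 1 ≤ τ x := fun x hx => hx₁ x ((le_max_left _ _).trans hx)
  have hpos : ∀ x, x₀ ≤ x → 0 < τ x := fun x hx => lt_of_lt_of_le one_pos (hge1 x hx)
  obtain ⟨Cw, hCw, hwt⟩ := exists_weight ρ hρ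
  set K : ℝ := max 1 (2 * Real.pi * (Cw * (A + B)) / η) with hK
  have hK1 : 1 ≤ K := le_max_left _ _
  have hKη : 2 * Real.pi * (Cw * (A + B)) ≤ η * K := by
    have := le_max_right 1 (2 * Real.pi * (Cw * (A + B)) / η)
    rw [div_le_iff₀ hη] at this
    linarith [mul_comm η K]
  have h1 := liminf_comp_exp
    (fun r : ℝ => ((Real.log (characteristic f ⊤ r) / Real.log r : ℝ) : EReal))
  have h2 := limsup_comp_exp
    (fun r : ℝ => ((Real.log (characteristic f ⊤ r) / Real.log r : ℝ) : EReal))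
  simp only [Real.log_exp] at h1 h2
  obtain ⟨L, hL⟩ := window'' (τ := τ) (x₀ := x₀) (hmono.monotoneOn _) hpos hρ
    (h1.trans_le hlow) (h2.symm ▸ hupp) K
  refine ⟨L + 1, fun X => ?_⟩
  obtain ⟨s, l, hXs, hl2, hlL, hKI⟩ := hL (max X x₀)
  set a : ℝ := (s : ℝ) with ha
  set b : ℝ := (s : ℝ) + l with hb
  have hl2' : (2 : ℝ) ≤ l := by exact_mod_cast hl2
  have hab : a + 1 < b := by rw [ha, hb]; linarith
  have hax : x₀ ≤ a := (le_max_right _ _).trans hXs
  obtain ⟨ω, hω1, hω2, hω3, hω4, hω5, hω6, hω7⟩ := hwt a b hab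
  have hec : Continuous (fun x : ℝ => Real.exp (-ρ * x)) := by fun_prop
  have hgi : ∀ c d : ℝ, IntegrableOn (fun x => τ x * Real.exp (-ρ * x)) (Icc c d) :=
    fun c d => int_mono_cont hmono hec c d
  have hgii : ∀ c d : ℝ, IntervalIntegrable (fun x => τ x * Real.exp (-ρ * x)) volume c d := by
    intro c d
    rw [intervalIntegrable_iff]
    exact (hgi (min c d) (max c d)).mono_set (uIoc_subset_uIcc)
  set I : ℝ := ∫ x in (a + 1)..b, τ x * Real.exp (-ρ * x) with hI
  have hIpos : 0 < I := by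
    have hlow : (b - (a + 1)) * Real.exp (-ρ * b) ≤ I := by
      have : (b - (a + 1)) * Real.exp (-ρ * b)
          = ∫ _x in (a + 1)..b, Real.exp (-ρ * b) := by
        rw [intervalIntegral.integral_const, smul_eq_mul]
      rw [this, hI]
      apply intervalIntegral.integral_mono_on hab.le intervalIntegrable_const (hgii _ _)
      intro x hx
      have h1 : 1 ≤ τ x := hge1 x (by linarith [hx.1])
      have h2 : Real.exp (-ρ * b) ≤ Real.exp (-ρ * x) := by
        rw [Real.exp_le_exp]; nlinarith [hx.2]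
      calc Real.exp (-ρ * b) ≤ 1 * Real.exp (-ρ * x) := by rw [one_mul]; exact h2
        _ ≤ τ x * Real.exp (-ρ * x) := mul_le_mul_of_nonneg_right h1 (Real.exp_pos _).le
    have h0 : 0 < (b - (a + 1)) * Real.exp (-ρ * b) :=
      mul_pos (by linarith) (Real.exp_pos _)
    linarith
  have hωint : Integrable (fun x => τ x * ω x) := by
    have h1 : (fun x => τ x * ω x) = (Icc a (b + 1)).indicator (fun x => τ x * ω x) := by
      funext x
      by_cases hx : x ∈ Icc a (b + 1)
      · rw [indicator_of_mem hx]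
      · rw [indicator_of_notMem hx, hω3 x hx, mul_zero]
    rw [h1, integrable_indicator_iff measurableSet_Icc]
    exact int_mono_cont hmono hω1.continuous _ _
  have hDI : I ≤ ∫ x, τ x * ω x := by
    have h1 : I = ∫ x, (Icc (a + 1) b).indicator (fun x => τ x * Real.exp (-ρ * x)) x := by
      rw [integral_indicator measurableSet_Icc, integral_Icc_eq_integral_Ioc, hI]
      exact intervalIntegral.integral_of_le hab.le
    rw [h1]
    apply integral_mono_of_nonneg
    · refine Eventually.of_forall fun x => ?_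
      apply indicator_nonneg
      intro y hy
      exact mul_nonneg (hpos y (by linarith [hy.1])).le (Real.exp_pos _).le
    · exact hωint
    · refine Eventually.of_forall fun x => ?_
      by_cases hx : x ∈ Icc (a + 1) b
      · simp only [indicator_of_mem hx]
        rw [hω4 x hx]
      · simp only [indicator_of_notMem hx]
        by_cases hx2 : x ∈ Icc a (b + 1)
        · exact mul_nonneg (hpos x (hax.trans hx2.1)).le (hω2 x)
        · rw [hω3 x hx2, mul_zero]
  have hDpos : 0 < ∫ x, τ x * ω x := lt_of_lt_of_le hIpos hDI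
  have hκ0 : ∀ x, x ∉ Icc a (a + 1) → x ∉ Icc b (b + 1) →
      |deriv (deriv ω) x - ρ ^ 2 * ω x| = 0 := by
    intro x h1 h2
    rw [hω7 x h1 h2, abs_zero]
  set g : ℝ → ℝ := fun x => τ x * Real.exp (-ρ * x) with hg
  set J : ℝ := (∫ x in a..(a + 1), g x) + ∫ x in b..(b + 1), g x with hJ
  have hmaj : ∫ x, |deriv (deriv ω) x - ρ ^ 2 * ω x| * (A * τ x + B) ≤ Cw * (A + B) * J := by
    have hmaj1 : ∫ x, |deriv (deriv ω) x - ρ ^ 2 * ω x| * (A * τ x + B)
        ≤ ∫ x, (Cw * (A + B)) * ((Icc a (a + 1)).indicator g x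
        + (Icc b (b + 1)).indicator g x) := by
      have hpt : ∀ x, x₀ ≤ x → |deriv (deriv ω) x - ρ ^ 2 * ω x| * (A * τ x + B)
          ≤ (Cw * (A + B)) * g x := by
        intro x hx
        have h1 := hge1 x hx
        have h2 : A * τ x + B ≤ (A + B) * τ x := by nlinarith
        have h3 : 0 ≤ A * τ x + B := add_nonneg (mul_nonneg hA (hpos x hx).le) hB
        calc _ ≤ (Cw * Real.exp (-ρ * x)) * (A * τ x + B) :=
              mul_le_mul_of_nonneg_right (hω6 x) h3
          _ ≤ (Cw * Real.exp (-ρ * x)) * ((A + B) * τ x) :=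
              mul_le_mul_of_nonneg_left h2 (by positivity)
          _ = _ := by rw [hg]; ring
      apply integral_mono_of_nonneg
      · refine Eventually.of_forall fun x => ?_
        by_cases h1 : x ∈ Icc a (a + 1)
        · exact mul_nonneg (abs_nonneg _)
            (add_nonneg (mul_nonneg hA (hpos x (hax.trans h1.1)).le) hB)
        · by_cases h2 : x ∈ Icc b (b + 1)
          · have : x₀ ≤ x := by linarith [h2.1]
            exact mul_nonneg (abs_nonneg _) (add_nonneg (mul_nonneg hA (hpos x this).le) hB)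
          · simp only [Pi.zero_apply]
            rw [hκ0 x h1 h2, zero_mul]
      · apply Integrable.const_mul
        apply Integrable.add
        · rw [integrable_indicator_iff measurableSet_Icc]; exact hgi _ _
        · rw [integrable_indicator_iff measurableSet_Icc]; exact hgi _ _
      · refine Eventually.of_forall fun x => ?_
        by_cases h1 : x ∈ Icc a (a + 1)
        · have hx0 : x₀ ≤ x := hax.trans h1.1
          have h2 : x ∉ Icc b (b + 1) := fun h => by linarith [h.1, h1.2]
          simp only [indicator_of_mem h1, indicator_of_notMem h2, add_zero]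
          exact hpt x hx0
        · by_cases h2 : x ∈ Icc b (b + 1)
          · have hx0 : x₀ ≤ x := by linarith [h2.1]
            simp only [indicator_of_notMem h1, indicator_of_mem h2, zero_add]
            exact hpt x hx0
          · simp only [indicator_of_notMem h1, indicator_of_notMem h2, add_zero, mul_zero]
            rw [hκ0 x h1 h2, zero_mul]
    refine hmaj1.trans (le_of_eq ?_)
    rw [integral_const_mul, integral_add, integral_indicator measurableSet_Icc,
      integral_indicator measurableSet_Icc, integral_Icc_eq_integral_Ioc,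
      integral_Icc_eq_integral_Ioc, hJ, intervalIntegral.integral_of_le (by linarith),
      intervalIntegral.integral_of_le (by linarith)]
    · rw [integrable_indicator_iff measurableSet_Icc]; exact hgi _ _
    · rw [integrable_indicator_iff measurableSet_Icc]; exact hgi _ _
  have hJ0 : 0 ≤ J := by
    rw [hJ]
    apply add_nonneg
    · apply intervalIntegral.integral_nonneg (by linarith)
      intro x hx
      exact mul_nonneg (hpos x (hax.trans hx.1)).le (Real.exp_pos _).le
    · apply intervalIntegral.integral_nonneg (by linarith)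
      intro x hx
      exact mul_nonneg (hpos x (by linarith [hx.1])).le (Real.exp_pos _).le
  have hKJ : K * J ≤ I := hKI
  refine ⟨s, l + 1, ω, (le_max_left _ _).trans hXs, by omega, by omega, hω1, hω2, hω5, ?_, hDpos,
    ?_, ?_⟩
  · intro x hx
    apply hω3
    intro h
    apply hx
    refine ⟨h.1, ?_⟩
    have := h.2
    push_cast
    rw [hb] at this
    linarith
  · rw [inv_mul_le_iff₀ hDpos]
    calc 2 * Real.pi * ∫ x, |deriv (deriv ω) x - ρ ^ 2 * ω x| * (A * τ x + B)
        ≤ 2 * Real.pi * (Cw * (A + B) * J) :=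
          mul_le_mul_of_nonneg_left hmaj (by positivity)
      _ = (2 * Real.pi * (Cw * (A + B))) * J := by ring
      _ ≤ (η * K) * J := mul_le_mul_of_nonneg_right hKη hJ0
      _ = η * (K * J) := by ring
      _ ≤ η * I := mul_le_mul_of_nonneg_left hKJ hη.le
      _ ≤ η * ∫ x, τ x * ω x := mul_le_mul_of_nonneg_left hDI hη.le
      _ = _ := by ring
  · have hsplit : ∫ x in (s : ℝ)..(s + (l + 1 : ℕ)), g x = J + I := by
      have e : ((s : ℝ) + (l + 1 : ℕ)) = b + 1 := by push_cast; rw [hb]; ring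
      rw [e, hJ, hI]
      have e1 := intervalIntegral.integral_add_adjacent_intervals (hgii a (a + 1)) (hgii (a + 1) b)
      have e2 := intervalIntegral.integral_add_adjacent_intervals (hgii a b) (hgii b (b + 1))
      have e3 : ∫ x in (s : ℝ)..(b + 1), g x = ∫ x in a..(b + 1), g x := rfl
      rw [e3, ← e2, ← e1]
      ring
    rw [hsplit]
    have : J ≤ K * J := by nlinarith
    linarith

end DW24
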