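import Pool.Agent.DW24.FinA

/-!
Module FinAS: the windows with their weights, with the additional control of `ω' + ρ ω`.
-/

set_option autoImplicit false

open MeasureTheory Filter Topology Set ValueDistribution

namespace DW24

/-- The weights. -/
theorem exists_weightS (ρ : ℝ) (hρ : 0 < ρ) : ∃ Cw : ℝ, 0 < Cw ∧ ∀ a b : ℝ, a + 1 < b →
    ∃ ω : ℝ → ℝ, ContDiff ℝ 2 ω ∧ (∀ x, 0 ≤ ω x) ∧ (∀ x, x ∉ Icc a (b + 1) → ω x = 0) ∧
      (∀ x ∈ Icc (a + 1) b, ω x = Real.exp (-ρ * x)) ∧ (∀ x, ω x ≤ Real.exp (-ρ * x)) ∧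
      (∀ x, |deriv (deriv ω) x - ρ ^ 2 * ω x| ≤ Cw * Real.exp (-ρ * x)) ∧
      (∀ x, x ∉ Icc a (a + 1) → x ∉ Icc b (b + 1) → deriv (deriv ω) x - ρ ^ 2 * ω x = 0) ∧
      (∀ x, |deriv ω x + ρ * ω x| ≤ Cw * Real.exp (-ρ * x)) ∧
      (∀ x, x ∉ Icc a (a + 1) → x ∉ Icc b (b + 1) → deriv ω x + ρ * ω x = 0) := by
  obtain ⟨C, hC, hb1, hb2⟩ := st_bdd
  refine ⟨C + 2 * ρ * C, by positivity, fun a b hab => ?_⟩
  set ω : ℝ → ℝ := fun x => Real.smoothTransition (x - a) * Real.smoothTransition (b + 1 - x) *
    Real.exp (-ρ * x) with hω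
  have hexp : ∀ x : ℝ, 0 < Real.exp (-ρ * x) := fun x => Real.exp_pos _
  -- local formulas
  have hleft : ∀ x, x < b → deriv (deriv ω) x - ρ ^ 2 * ω x
      = (deriv (deriv Real.smoothTransition) (x - a) - 2 * ρ * deriv Real.smoothTransition (x - a))
        * Real.exp (-ρ * x) := by
    intro x hx
    have hev : ω =ᶠ[𝓝 x] fun x => Real.smoothTransition (1 * x + -a) * Real.exp (-ρ * x) := by
      filter_upwards [Iio_mem_nhds hx] with y hy
      have hy' : y < b := hy
      simp only [hω]
      rw [Real.smoothTransition.one_of_one_le (x := b + 1 - y) (by linarith), mul_one, one_mul,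
        sub_eq_add_neg]
    have hc := fun y => weight_calc st_d1 st_d2 1 (-a) ρ y
    have hd1 : deriv ω =ᶠ[𝓝 x] fun y => (1 * deriv Real.smoothTransition (1 * y + -a)
        - ρ * Real.smoothTransition (1 * y + -a)) * Real.exp (-ρ * y) :=
      hev.deriv.trans (Eventually.of_forall fun y => (hc y).1.deriv)
    rw [hd1.deriv_eq, (hc x).2.deriv, hev.self_of_nhds]
    simp only [one_mul, ← sub_eq_add_neg]
    ring
  have hright : ∀ x, a + 1 < x → deriv (deriv ω) x - ρ ^ 2 * ω x
      = (deriv (deriv Real.smoothTransition) (b + 1 - x) + 2 * ρ * deriv Real.smoothTransition (b + 1 - x))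
        * Real.exp (-ρ * x) := by
    intro x hx
    have hev : ω =ᶠ[𝓝 x] fun x => Real.smoothTransition (-1 * x + (b + 1)) * Real.exp (-ρ * x) := by
      filter_upwards [Ioi_mem_nhds hx] with y hy
      have hy' : a + 1 < y := hy
      simp only [hω]
      rw [Real.smoothTransition.one_of_one_le (x := y - a) (by linarith), one_mul,
        show b + 1 - y = -1 * y + (b + 1) by ring]
    have hc := fun y => weight_calc st_d1 st_d2 (-1) (b + 1) ρ y
    have hd1 : deriv ω =ᶠ[𝓝 x] fun y => (-1 * deriv Real.smoothTransition (-1 * y + (b + 1))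
        - ρ * Real.smoothTransition (-1 * y + (b + 1))) * Real.exp (-ρ * y) :=
      hev.deriv.trans (Eventually.of_forall fun y => (hc y).1.deriv)
    rw [hd1.deriv_eq, (hc x).2.deriv, hev.self_of_nhds, show b + 1 - x = -1 * x + (b + 1) by ring]
    ring
  have hleft1 : ∀ x, x < b → deriv ω x + ρ * ω x
      = deriv Real.smoothTransition (x - a) * Real.exp (-ρ * x) := by
    intro x hx
    have hev : ω =ᶠ[𝓝 x] fun x => Real.smoothTransition (1 * x + -a) * Real.exp (-ρ * x) := by
      filter_upwards [Iio_mem_nhds hx] with y hy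
      have hy' : y < b := hy
      simp only [hω]
      rw [Real.smoothTransition.one_of_one_le (x := b + 1 - y) (by linarith), mul_one, one_mul,
        sub_eq_add_neg]
    have hc := fun y => weight_calc st_d1 st_d2 1 (-a) ρ y
    rw [hev.deriv_eq, (hc x).1.deriv, hev.self_of_nhds]
    simp only [one_mul, ← sub_eq_add_neg]
    ring
  have hright1 : ∀ x, a + 1 < x → deriv ω x + ρ * ω x
      = -(deriv Real.smoothTransition (b + 1 - x)) * Real.exp (-ρ * x) := by
    intro x hx
    have hev : ω =ᶠ[𝓝 x] fun x => Real.smoothTransition (-1 * x + (b + 1)) * Real.exp (-ρ * x) := by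
      filter_upwards [Ioi_mem_nhds hx] with y hy
      have hy' : a + 1 < y := hy
      simp only [hω]
      rw [Real.smoothTransition.one_of_one_le (x := y - a) (by linarith), one_mul,
        show b + 1 - y = -1 * y + (b + 1) by ring]
    have hc := fun y => weight_calc st_d1 st_d2 (-1) (b + 1) ρ y
    rw [hev.deriv_eq, (hc x).1.deriv, hev.self_of_nhds, show b + 1 - x = -1 * x + (b + 1) by ring]
    ring
  refine ⟨ω, ?_, ?_, ?_, ?_, ?_, ?_, ?_, ?_, ?_⟩
  · have h1 : ContDiff ℝ 2 (fun x : ℝ => x - a) := contDiff_id.sub contDiff_const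
    have h2 : ContDiff ℝ 2 (fun x : ℝ => b + 1 - x) := contDiff_const.sub contDiff_id
    have h3 : ContDiff ℝ 2 (fun x : ℝ => Real.exp (-ρ * x)) := (contDiff_const.mul contDiff_id).exp
    exact ((Real.smoothTransition.contDiff.comp h1).mul (Real.smoothTransition.contDiff.comp h2)).mul h3
  · intro x
    exact mul_nonneg (mul_nonneg (Real.smoothTransition.nonneg _) (Real.smoothTransition.nonneg _))
      (hexp x).le
  · intro x hx
    rw [mem_Icc, not_and_or, not_le, not_le] at hx
    simp only [hω]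
    rcases hx with h | h
    · rw [Real.smoothTransition.zero_of_nonpos (x := x - a) (by linarith)]; ring
    · rw [Real.smoothTransition.zero_of_nonpos (x := b + 1 - x) (by linarith)]; ring
  · intro x hx
    simp only [hω]
    rw [Real.smoothTransition.one_of_one_le (x := x - a) (by linarith [hx.1]),
      Real.smoothTransition.one_of_one_le (x := b + 1 - x) (by linarith [hx.2])]
    ring
  · intro x
    simp only [hω]
    refine mul_le_of_le_one_left (hexp x).le ?_
    exact mul_le_one₀ (Real.smoothTransition.le_one _) (Real.smoothTransition.nonneg _)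
      (Real.smoothTransition.le_one _)
  · intro x
    rcases lt_or_ge x b with h | h
    · rw [hleft x h, abs_mul, abs_of_pos (hexp x)]
      refine mul_le_mul_of_nonneg_right ?_ (hexp x).le
      refine (abs_sub _ _).trans ?_
      rw [abs_mul, abs_of_pos (by positivity : 0 < 2 * ρ)]
      have h1 := hb2 (x - a)
      have h2 := mul_le_mul_of_nonneg_left (hb1 (x - a)) (by positivity : 0 ≤ 2 * ρ)
      linarith
    · rw [hright x (by linarith), abs_mul, abs_of_pos (hexp x)]
      refine mul_le_mul_of_nonneg_right ?_ (hexp x).le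
      refine (abs_add_le _ _).trans ?_
      rw [abs_mul, abs_of_pos (by positivity : 0 < 2 * ρ)]
      have h1 := hb2 (b + 1 - x)
      have h2 := mul_le_mul_of_nonneg_left (hb1 (b + 1 - x)) (by positivity : 0 ≤ 2 * ρ)
      linarith
  · intro x hx1 hx2
    rcases lt_or_ge x b with h | h
    · rw [hleft x h]
      have : x - a < 0 ∨ 1 < x - a := by
        rw [mem_Icc, not_and_or, not_le, not_le] at hx1
        rcases hx1 with h1 | h1
        · left; linarith
        · right; linarith
      rw [st_deriv_zero this, st_deriv2_zero this]; ring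
    · rw [hright x (by linarith)]
      have : b + 1 - x < 0 ∨ 1 < b + 1 - x := by
        rw [mem_Icc, not_and_or, not_le, not_le] at hx2
        rcases hx2 with h1 | h1
        · exact absurd h1 (not_lt.2 h)
        · left; linarith
      rw [st_deriv_zero this, st_deriv2_zero this]; ring
  · intro x
    have hCle : C ≤ C + 2 * ρ * C := by
      have : 0 ≤ 2 * ρ * C := by positivity
      linarith
    rcases lt_or_ge x b with h | h
    · rw [hleft1 x h, abs_mul, abs_of_pos (hexp x)]
      exact mul_le_mul_of_nonneg_right ((hb1 _).trans hCle) (hexp x).le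
    · rw [hright1 x (by linarith), abs_mul, abs_neg, abs_of_pos (hexp x)]
      exact mul_le_mul_of_nonneg_right ((hb1 _).trans hCle) (hexp x).le
  · intro x hx1 hx2
    rcases lt_or_ge x b with h | h
    · rw [hleft1 x h]
      have : x - a < 0 ∨ 1 < x - a := by
        rw [mem_Icc, not_and_or, not_le, not_le] at hx1
        rcases hx1 with h1 | h1
        · left; linarith
        · right; linarith
      rw [st_deriv_zero this]; ring
    · rw [hright1 x (by linarith)]
      have : b + 1 - x < 0 ∨ 1 < b + 1 - x := by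
        rw [mem_Icc, not_and_or, not_le, not_le] at hx2
        rcases hx2 with h1 | h1
        · exact absurd h1 (not_lt.2 h)
        · left; linarith
      rw [st_deriv_zero this]; ring

theorem exists_windows_bddS {f : ℂ → ℂ} (hf : Meromorphic f) {ρ : ℝ} (hρ : 0 < ρ)
    (hlow : liminf (fun r : ℝ => ((Real.log (characteristic f ⊤ r) / Real.log r : ℝ) : EReal)) atTop ≤ ρ)
    (hupp : (ρ : EReal) ≤ limsup (fun r : ℝ => ((Real.log (characteristic f ⊤ r) / Real.log r : ℝ) : EReal)) atTop)
    (A B : ℝ) (hA : 0 ≤ A) (hB : 0 ≤ B) (η : ℝ) (hη : 0 < η) :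
    ∃ L : ℕ, ∀ X : ℝ, ∃ (k m : ℕ) (ω : ℝ → ℝ), X ≤ k ∧ 1 ≤ m ∧ m ≤ L ∧ ContDiff ℝ 2 ω ∧ (∀ x, 0 ≤ ω x) ∧
      (∀ x, ω x ≤ Real.exp (-ρ * x)) ∧ (∀ x, x ∉ Icc (k : ℝ) (k + m) → ω x = 0) ∧
      0 < ∫ x, characteristic f ⊤ (Real.exp x) * ω x ∧
      (∫ x, characteristic f ⊤ (Real.exp x) * ω x)⁻¹ * (2 * Real.pi *
        ∫ x, |deriv (deriv ω) x - ρ ^ 2 * ω x| * (A * characteristic f ⊤ (Real.exp x) + B)) ≤ η ∧
      (∫ x, characteristic f ⊤ (Real.exp x) * ω x)⁻¹ * (2 * Real.pi *
        ∫ x, |deriv ω x + ρ * ω x| * (A * characteristic f ⊤ (Real.exp x) + B)) ≤ η ∧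
      ∫ x in (k : ℝ)..(k + m), characteristic f ⊤ (Real.exp x) * Real.exp (-ρ * x)
        ≤ 2 * ∫ x, characteristic f ⊤ (Real.exp x) * ω x := by
  have hT := T_tendsto hf hρ hupp
  set τ : ℝ → ℝ := fun x => characteristic f ⊤ (Real.exp x) with hτ
  have hmono : Monotone τ := mono_T' hf
  have hτT : Tendsto τ atTop atTop := hT.comp Real.tendsto_exp_atTop
  obtain ⟨x₁, hx₁⟩ := (tendsto_atTop.mp hτT 1).exists_forall_of_atTop
  set x₀ : ℝ := max x₁ 0 with hx₀
  have hge1 : ∀ x, x₀ ≤ x → 1 ≤ τ x := fun x hx => hx₁ x ((le_max_left _ _).trans hx)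
  have hpos : ∀ x, x₀ ≤ x → 0 < τ x := fun x hx => lt_of_lt_of_le one_pos (hge1 x hx)
  obtain ⟨Cw, hCw, hwt⟩ := exists_weightS ρ hρ
  set K : ℝ := max 1 (2 * Real.pi * (Cw * (A + B)) / η) with hK
  have hK1 : 1 ≤ K := le_max_left _ _
  have hKη : 2 * Real.pi * (Cw * (A + B)) ≤ η * K := by
    have := le_max_right 1 (2 * Real.pi * (Cw * (A + B)) / η)
    rw [div_le_iff₀ hη] at this
    linarith [mul_comm η K]
  have h1 := liminf_comp_exp
    (fun r : ℝ => ((Real.log (characteristic f ⊤ r) / Real.log r : ℝ) : EReal))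
  have h2 := limsup_comp_exp
    (fun r : ℝ => ((Real.log (characteristic f ⊤ r) / Real.log r : ℝ) : EReal))
  simp only [Real.log_exp] at h1 h2
  obtain ⟨L, hL⟩ := window'' (τ := τ) (x₀ := x₀) (hmono.monotoneOn _) hpos hρ
    (h1.trans_le hlow) (h2.symm ▸ hupp) K
  refine ⟨L + 1, fun X => ?_⟩
  obtain ⟨s, l, hXs, hl2, hlL, hKI⟩ := hL (max X x₀)
  set a : ℝ := (s : ℝ) with ha
  set b : ℝ := (s : ℝ) + l with hb
  have hl2' : (2 : ℝ) ≤ l := by exact_mod_cast hl2
  have hab : a + 1 < b := by rw [ha, hb]; linarith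
  have hax : x₀ ≤ a := (le_max_right _ _).trans hXs
  obtain ⟨ω, hω1, hω2, hω3, hω4, hω5, hω6, hω7, hω8, hω9⟩ := hwt a b hab
  have hec : Continuous (fun x : ℝ => Real.exp (-ρ * x)) := by fun_prop
  have hgi : ∀ c d : ℝ, IntegrableOn (fun x => τ x * Real.exp (-ρ * x)) (Icc c d) :=
    fun c d => int_mono_cont hmono hec c d
  have hgii : ∀ c d : ℝ, IntervalIntegrable (fun x => τ x * Real.exp (-ρ * x)) volume c d := by
    intro c d
    rw [intervalIntegrable_iff]
    exact (hgi (min c d) (max c d)).mono_set (uIoc_subset_uIcc)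
  set I : ℝ := ∫ x in (a + 1)..b, τ x * Real.exp (-ρ * x) with hI
  have hIpos : 0 < I := by
    have hlow : (b - (a + 1)) * Real.exp (-ρ * b) ≤ I := by
      have : (b - (a + 1)) * Real.exp (-ρ * b)
          = ∫ _x in (a + 1)..b, Real.exp (-ρ * b) := by
        rw [intervalIntegral.integral_const, smul_eq_mul]
      rw [this, hI]
      apply intervalIntegral.integral_mono_on hab.le intervalIntegrable_const (hgii _ _)
      intro x hx
      have h1 : 1 ≤ τ x := hge1 x (by linarith [hx.1])
      have h2 : Real.exp (-ρ * b) ≤ Real.exp (-ρ * x) := by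
        rw [Real.exp_le_exp]; nlinarith [hx.2]
      calc Real.exp (-ρ * b) ≤ 1 * Real.exp (-ρ * x) := by rw [one_mul]; exact h2
        _ ≤ τ x * Real.exp (-ρ * x) := mul_le_mul_of_nonneg_right h1 (Real.exp_pos _).le
    have h0 : 0 < (b - (a + 1)) * Real.exp (-ρ * b) :=
      mul_pos (by linarith) (Real.exp_pos _)
    linarith
  have hωint : Integrable (fun x => τ x * ω x) := by
    have h1 : (fun x => τ x * ω x) = (Icc a (b + 1)).indicator (fun x => τ x * ω x) := by
      funext x
      by_cases hx : x ∈ Icc a (b + 1)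
      · rw [indicator_of_mem hx]
      · rw [indicator_of_notMem hx, hω3 x hx, mul_zero]
    rw [h1, integrable_indicator_iff measurableSet_Icc]
    exact int_mono_cont hmono hω1.continuous _ _
  have hDI : I ≤ ∫ x, τ x * ω x := by
    have h1 : I = ∫ x, (Icc (a + 1) b).indicator (fun x => τ x * Real.exp (-ρ * x)) x := by
      rw [integral_indicator measurableSet_Icc, integral_Icc_eq_integral_Ioc, hI]
      exact intervalIntegral.integral_of_le hab.le
    rw [h1]
    apply integral_mono_of_nonneg
    · refine Eventually.of_forall fun x => ?_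
      apply indicator_nonneg
      intro y hy
      exact mul_nonneg (hpos y (by linarith [hy.1])).le (Real.exp_pos _).le
    · exact hωint
    · refine Eventually.of_forall fun x => ?_
      by_cases hx : x ∈ Icc (a + 1) b
      · simp only [indicator_of_mem hx]
        rw [hω4 x hx]
      · simp only [indicator_of_notMem hx]
        by_cases hx2 : x ∈ Icc a (b + 1)
        · exact mul_nonneg (hpos x (hax.trans hx2.1)).le (hω2 x)
        · rw [hω3 x hx2, mul_zero]
  have hDpos : 0 < ∫ x, τ x * ω x := lt_of_lt_of_le hIpos hDI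
  set g : ℝ → ℝ := fun x => τ x * Real.exp (-ρ * x) with hg
  set J : ℝ := (∫ x in a..(a + 1), g x) + ∫ x in b..(b + 1), g x with hJ
  have hmaj : ∀ κ : ℝ → ℝ, (∀ x, |κ x| ≤ Cw * Real.exp (-ρ * x)) →
      (∀ x, x ∉ Icc a (a + 1) → x ∉ Icc b (b + 1) → κ x = 0) →
      ∫ x, |κ x| * (A * τ x + B) ≤ Cw * (A + B) * J := by
    intro κ hκ6 hκ7
    have hκ0 : ∀ x, x ∉ Icc a (a + 1) → x ∉ Icc b (b + 1) → |κ x| = 0 := by
      intro x h1 h2
      rw [hκ7 x h1 h2, abs_zero]
    have hmaj1 : ∫ x, |κ x| * (A * τ x + B)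
        ≤ ∫ x, (Cw * (A + B)) * ((Icc a (a + 1)).indicator g x
        + (Icc b (b + 1)).indicator g x) := by
      have hpt : ∀ x, x₀ ≤ x → |κ x| * (A * τ x + B)
          ≤ (Cw * (A + B)) * g x := by
        intro x hx
        have h1 := hge1 x hx
        have h2 : A * τ x + B ≤ (A + B) * τ x := by nlinarith
        have h3 : 0 ≤ A * τ x + B := add_nonneg (mul_nonneg hA (hpos x hx).le) hB
        calc _ ≤ (Cw * Real.exp (-ρ * x)) * (A * τ x + B) :=
              mul_le_mul_of_nonneg_right (hκ6 x) h3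
          _ ≤ (Cw * Real.exp (-ρ * x)) * ((A + B) * τ x) :=
              mul_le_mul_of_nonneg_left h2 (by positivity)
          _ = _ := by rw [hg]; ring
      apply integral_mono_of_nonneg
      · refine Eventually.of_forall fun x => ?_
        by_cases h1 : x ∈ Icc a (a + 1)
        · exact mul_nonneg (abs_nonneg _)
            (add_nonneg (mul_nonneg hA (hpos x (hax.trans h1.1)).le) hB)
        · by_cases h2 : x ∈ Icc b (b + 1)
          · have : x₀ ≤ x := by linarith [h2.1]
            exact mul_nonneg (abs_nonneg _) (add_nonneg (mul_nonneg hA (hpos x this).le) hB)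
          · simp only [Pi.zero_apply]
            rw [hκ0 x h1 h2, zero_mul]
      · apply Integrable.const_mul
        apply Integrable.add
        · rw [integrable_indicator_iff measurableSet_Icc]; exact hgi _ _
        · rw [integrable_indicator_iff measurableSet_Icc]; exact hgi _ _
      · refine Eventually.of_forall fun x => ?_
        by_cases h1 : x ∈ Icc a (a + 1)
        · have hx0 : x₀ ≤ x := hax.trans h1.1
          have h2 : x ∉ Icc b (b + 1) := fun h => by linarith [h.1, h1.2]
          simp only [indicator_of_mem h1, indicator_of_notMem h2, add_zero]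
          exact hpt x hx0
        · by_cases h2 : x ∈ Icc b (b + 1)
          · have hx0 : x₀ ≤ x := by linarith [h2.1]
            simp only [indicator_of_notMem h1, indicator_of_mem h2, zero_add]
            exact hpt x hx0
          · simp only [indicator_of_notMem h1, indicator_of_notMem h2, add_zero, mul_zero]
            rw [hκ0 x h1 h2, zero_mul]
    refine hmaj1.trans (le_of_eq ?_)
    rw [integral_const_mul, integral_add, integral_indicator measurableSet_Icc,
      integral_indicator measurableSet_Icc, integral_Icc_eq_integral_Ioc,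
      integral_Icc_eq_integral_Ioc, hJ, intervalIntegral.integral_of_le (by linarith),
      intervalIntegral.integral_of_le (by linarith)]
    · rw [integrable_indicator_iff measurableSet_Icc]; exact hgi _ _
    · rw [integrable_indicator_iff measurableSet_Icc]; exact hgi _ _
  have hJ0 : 0 ≤ J := by
    rw [hJ]
    apply add_nonneg
    · apply intervalIntegral.integral_nonneg (by linarith)
      intro x hx
      exact mul_nonneg (hpos x (hax.trans hx.1)).le (Real.exp_pos _).le
    · apply intervalIntegral.integral_nonneg (by linarith)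
      intro x hx
      exact mul_nonneg (hpos x (by linarith [hx.1])).le (Real.exp_pos _).le
  have hKJ : K * J ≤ I := hKI
  have hfin : ∀ κ : ℝ → ℝ, (∀ x, |κ x| ≤ Cw * Real.exp (-ρ * x)) →
      (∀ x, x ∉ Icc a (a + 1) → x ∉ Icc b (b + 1) → κ x = 0) →
      (∫ x, τ x * ω x)⁻¹ * (2 * Real.pi * ∫ x, |κ x| * (A * τ x + B)) ≤ η := by
    intro κ hκ6 hκ7
    rw [inv_mul_le_iff₀ hDpos]
    calc 2 * Real.pi * ∫ x, |κ x| * (A * τ x + B)
        ≤ 2 * Real.pi * (Cw * (A + B) * J) :=
          mul_le_mul_of_nonneg_left (hmaj κ hκ6 hκ7) (by positivity)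
      _ = (2 * Real.pi * (Cw * (A + B))) * J := by ring
      _ ≤ (η * K) * J := mul_le_mul_of_nonneg_right hKη hJ0
      _ = η * (K * J) := by ring
      _ ≤ η * I := mul_le_mul_of_nonneg_left hKJ hη.le
      _ ≤ η * ∫ x, τ x * ω x := mul_le_mul_of_nonneg_left hDI hη.le
      _ = _ := by ring
  refine ⟨s, l + 1, ω, (le_max_left _ _).trans hXs, by omega, by omega, hω1, hω2, hω5, ?_, hDpos,
    hfin _ hω6 hω7, hfin _ hω8 hω9, ?_⟩
  · intro x hx
    apply hω3
    intro h
    apply hx
    refine ⟨h.1, ?_⟩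
    have := h.2
    push_cast
    rw [hb] at this
    linarith
  · have hsplit : ∫ x in (s : ℝ)..(s + (l + 1 : ℕ)), g x = J + I := by
      have e : ((s : ℝ) + (l + 1 : ℕ)) = b + 1 := by push_cast; rw [hb]; ring
      rw [e, hJ, hI]
      have e1 := intervalIntegral.integral_add_adjacent_intervals (hgii a (a + 1)) (hgii (a + 1) b)
      have e2 := intervalIntegral.integral_add_adjacent_intervals (hgii a b) (hgii b (b + 1))
      have e3 : ∫ x in (s : ℝ)..(b + 1), g x = ∫ x in a..(b + 1), g x := rfl
      rw [e3, ← e2, ← e1]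
      ring
    rw [hsplit]
    have : J ≤ K * J := by nlinarith
    linarith

end DW24
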