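import Pool.Agent.DW24.FinAS

/-!
Module FinP: windows with their weights near weak Polya peaks.
-/

set_option autoImplicit false

open MeasureTheory Filter Topology Set ValueDistribution

namespace DW24

/-- The weight of a window whose end cells are light. -/
theorem window_assemble {f : ℂ → ℂ} (hf : Meromorphic f) {ρ : ℝ} (hρ : 0 < ρ) :
    ∃ Cw : ℝ, 0 < Cw ∧ ∀ (A B : ℝ), 0 ≤ A → 0 ≤ B → ∀ (η : ℝ), 0 < η → ∀ (K : ℝ), 1 ≤ K →
      2 * Real.pi * (Cw * (A + B)) ≤ η * K → ∀ (x₀ : ℝ),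
      (∀ x, x₀ ≤ x → 1 ≤ characteristic f ⊤ (Real.exp x)) → ∀ (a b : ℝ), a + 1 < b → x₀ ≤ a →
      K * ((∫ x in a..(a + 1), characteristic f ⊤ (Real.exp x) * Real.exp (-ρ * x))
        + ∫ x in b..(b + 1), characteristic f ⊤ (Real.exp x) * Real.exp (-ρ * x))
          ≤ ∫ x in (a + 1)..b, characteristic f ⊤ (Real.exp x) * Real.exp (-ρ * x) →
      ∃ ω : ℝ → ℝ, ContDiff ℝ 2 ω ∧ (∀ x, 0 ≤ ω x) ∧
      (∀ x, ω x ≤ Real.exp (-ρ * x)) ∧ (∀ x, x ∉ Icc a (b + 1) → ω x = 0) ∧
      0 < ∫ x, characteristic f ⊤ (Real.exp x) * ω x ∧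
      (∫ x, characteristic f ⊤ (Real.exp x) * ω x)⁻¹ * (2 * Real.pi *
        ∫ x, |deriv (deriv ω) x - ρ ^ 2 * ω x| * (A * characteristic f ⊤ (Real.exp x) + B)) ≤ η ∧
      (∫ x, characteristic f ⊤ (Real.exp x) * ω x)⁻¹ * (2 * Real.pi *
        ∫ x, |deriv ω x + ρ * ω x| * (A * characteristic f ⊤ (Real.exp x) + B)) ≤ η ∧
      ∫ x in a..(b + 1), characteristic f ⊤ (Real.exp x) * Real.exp (-ρ * x)
        ≤ 2 * ∫ x, characteristic f ⊤ (Real.exp x) * ω x := by
  set τ : ℝ → ℝ := fun x => characteristic f ⊤ (Real.exp x) with hτ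
  have hmono : Monotone τ := mono_T' hf
  obtain ⟨Cw, hCw, hwt⟩ := exists_weightS ρ hρ
  refine ⟨Cw, hCw, fun A B hA hB η hη K hK1 hKη x₀ hge1 a b hab hax hKJ => ?_⟩
  have hpos : ∀ x, x₀ ≤ x → 0 < τ x := fun x hx => lt_of_lt_of_le one_pos (hge1 x hx)
  obtain ⟨ω, hω1, hω2, hω3, hω4, hω5, hω6, hω7, hω8, hω9⟩ := hwt a b hab
  have hec : Continuous (fun x : ℝ => Real.exp (-ρ * x)) := by fun_prop
  have hgi : ∀ c d : ℝ, IntegrableOn (fun x => τ x * Real.exp (-ρ * x)) (Icc c d) :=
    fun c d => int_mono_cont hmono hec c d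
  have hgii : ∀ c d : ℝ, IntervalIntegrable (fun x => τ x * Real.exp (-ρ * x)) volume c d := by
    intro c d
    rw [intervalIntegrable_iff]
    exact (hgi (min c d) (max c d)).mono_set (uIoc_subset_uIcc)
  set I : ℝ := ∫ x in (a + 1)..b, τ x * Real.exp (-ρ * x) with hI
  have hIpos : 0 < I := by
    have hlow : (b - (a + 1)) * Real.exp (-ρ * b) ≤ I := by
      have : (b - (a + 1)) * Real.exp (-ρ * b)
          = ∫ _x in (a + 1)..b, Real.exp (-ρ * b) := by
        rw [intervalIntegral.integral_const, smul_eq_mul]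
      rw [this, hI]
      apply intervalIntegral.integral_mono_on hab.le intervalIntegrable_const (hgii _ _)
      intro x hx
      have h1 : 1 ≤ τ x := hge1 x (by linarith [hx.1])
      have h2 : Real.exp (-ρ * b) ≤ Real.exp (-ρ * x) := by
        rw [Real.exp_le_exp]; nlinarith [hx.2]
      calc Real.exp (-ρ * b) ≤ 1 * Real.exp (-ρ * x) := by rw [one_mul]; exact h2
        _ ≤ τ x * Real.exp (-ρ * x) := mul_le_mul_of_nonneg_right h1 (Real.exp_pos _).le
    have h0 : 0 < (b - (a + 1)) * Real.exp (-ρ * b) :=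
      mul_pos (by linarith) (Real.exp_pos _)
    linarith
  have hωint : Integrable (fun x => τ x * ω x) := by
    have h1 : (fun x => τ x * ω x) = (Icc a (b + 1)).indicator (fun x => τ x * ω x) := by
      funext x
      by_cases hx : x ∈ Icc a (b + 1)
      · rw [indicator_of_mem hx]
      · rw [indicator_of_notMem hx, hω3 x hx, mul_zero]
    rw [h1, integrable_indicator_iff measurableSet_Icc]
    exact int_mono_cont hmono hω1.continuous _ _
  have hDI : I ≤ ∫ x, τ x * ω x := by
    have h1 : I = ∫ x, (Icc (a + 1) b).indicator (fun x => τ x * Real.exp (-ρ * x)) x := by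
      rw [integral_indicator measurableSet_Icc, integral_Icc_eq_integral_Ioc, hI]
      exact intervalIntegral.integral_of_le hab.le
    rw [h1]
    apply integral_mono_of_nonneg
    · refine Eventually.of_forall fun x => ?_
      apply indicator_nonneg
      intro y hy
      exact mul_nonneg (hpos y (by linarith [hy.1])).le (Real.exp_pos _).le
    · exact hωint
    · refine Eventually.of_forall fun x => ?_
      by_cases hx : x ∈ Icc (a + 1) b
      · simp only [indicator_of_mem hx]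
        rw [hω4 x hx]
      · simp only [indicator_of_notMem hx]
        by_cases hx2 : x ∈ Icc a (b + 1)
        · exact mul_nonneg (hpos x (hax.trans hx2.1)).le (hω2 x)
        · rw [hω3 x hx2, mul_zero]
  have hDpos : 0 < ∫ x, τ x * ω x := lt_of_lt_of_le hIpos hDI
  set g : ℝ → ℝ := fun x => τ x * Real.exp (-ρ * x) with hg
  set J : ℝ := (∫ x in a..(a + 1), g x) + ∫ x in b..(b + 1), g x with hJ
  have hmaj : ∀ κ : ℝ → ℝ, (∀ x, |κ x| ≤ Cw * Real.exp (-ρ * x)) →
      (∀ x, x ∉ Icc a (a + 1) → x ∉ Icc b (b + 1) → κ x = 0) →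
      ∫ x, |κ x| * (A * τ x + B) ≤ Cw * (A + B) * J := by
    intro κ hκ6 hκ7
    have hκ0 : ∀ x, x ∉ Icc a (a + 1) → x ∉ Icc b (b + 1) → |κ x| = 0 := by
      intro x h1 h2
      rw [hκ7 x h1 h2, abs_zero]
    have hmaj1 : ∫ x, |κ x| * (A * τ x + B)
        ≤ ∫ x, (Cw * (A + B)) * ((Icc a (a + 1)).indicator g x
        + (Icc b (b + 1)).indicator g x) := by
      have hpt : ∀ x, x₀ ≤ x → |κ x| * (A * τ x + B)
          ≤ (Cw * (A + B)) * g x := by
        intro x hx
        have h1 := hge1 x hx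
        have h2 : A * τ x + B ≤ (A + B) * τ x := by nlinarith
        have h3 : 0 ≤ A * τ x + B := add_nonneg (mul_nonneg hA (hpos x hx).le) hB
        calc _ ≤ (Cw * Real.exp (-ρ * x)) * (A * τ x + B) :=
              mul_le_mul_of_nonneg_right (hκ6 x) h3
          _ ≤ (Cw * Real.exp (-ρ * x)) * ((A + B) * τ x) :=
              mul_le_mul_of_nonneg_left h2 (by positivity)
          _ = _ := by rw [hg]; ring
      apply integral_mono_of_nonneg
      · refine Eventually.of_forall fun x => ?_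
        by_cases h1 : x ∈ Icc a (a + 1)
        · exact mul_nonneg (abs_nonneg _)
            (add_nonneg (mul_nonneg hA (hpos x (hax.trans h1.1)).le) hB)
        · by_cases h2 : x ∈ Icc b (b + 1)
          · have : x₀ ≤ x := by linarith [h2.1]
            exact mul_nonneg (abs_nonneg _) (add_nonneg (mul_nonneg hA (hpos x this).le) hB)
          · simp only [Pi.zero_apply]
            rw [hκ0 x h1 h2, zero_mul]
      · apply Integrable.const_mul
        apply Integrable.add
        · rw [integrable_indicator_iff measurableSet_Icc]; exact hgi _ _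
        · rw [integrable_indicator_iff measurableSet_Icc]; exact hgi _ _
      · refine Eventually.of_forall fun x => ?_
        by_cases h1 : x ∈ Icc a (a + 1)
        · have hx0 : x₀ ≤ x := hax.trans h1.1
          have h2 : x ∉ Icc b (b + 1) := fun h => by linarith [h.1, h1.2]
          simp only [indicator_of_mem h1, indicator_of_notMem h2, add_zero]
          exact hpt x hx0
        · by_cases h2 : x ∈ Icc b (b + 1)
          · have hx0 : x₀ ≤ x := by linarith [h2.1]
            simp only [indicator_of_notMem h1, indicator_of_mem h2, zero_add]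
            exact hpt x hx0
          · simp only [indicator_of_notMem h1, indicator_of_notMem h2, add_zero, mul_zero]
            rw [hκ0 x h1 h2, zero_mul]
    refine hmaj1.trans (le_of_eq ?_)
    rw [integral_const_mul, integral_add, integral_indicator measurableSet_Icc,
      integral_indicator measurableSet_Icc, integral_Icc_eq_integral_Ioc,
      integral_Icc_eq_integral_Ioc, hJ, intervalIntegral.integral_of_le (by linarith),
      intervalIntegral.integral_of_le (by linarith)]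
    · rw [integrable_indicator_iff measurableSet_Icc]; exact hgi _ _
    · rw [integrable_indicator_iff measurableSet_Icc]; exact hgi _ _
  have hJ0 : 0 ≤ J := by
    rw [hJ]
    apply add_nonneg
    · apply intervalIntegral.integral_nonneg (by linarith)
      intro x hx
      exact mul_nonneg (hpos x (hax.trans hx.1)).le (Real.exp_pos _).le
    · apply intervalIntegral.integral_nonneg (by linarith)
      intro x hx
      exact mul_nonneg (hpos x (by linarith [hx.1])).le (Real.exp_pos _).le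
  have hfin : ∀ κ : ℝ → ℝ, (∀ x, |κ x| ≤ Cw * Real.exp (-ρ * x)) →
      (∀ x, x ∉ Icc a (a + 1) → x ∉ Icc b (b + 1) → κ x = 0) →
      (∫ x, τ x * ω x)⁻¹ * (2 * Real.pi * ∫ x, |κ x| * (A * τ x + B)) ≤ η := by
    intro κ hκ6 hκ7
    rw [inv_mul_le_iff₀ hDpos]
    calc 2 * Real.pi * ∫ x, |κ x| * (A * τ x + B)
        ≤ 2 * Real.pi * (Cw * (A + B) * J) :=
          mul_le_mul_of_nonneg_left (hmaj κ hκ6 hκ7) (by positivity)
      _ = (2 * Real.pi * (Cw * (A + B))) * J := by ring
      _ ≤ (η * K) * J := mul_le_mul_of_nonneg_right hKη hJ0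
      _ = η * (K * J) := by ring
      _ ≤ η * I := mul_le_mul_of_nonneg_left hKJ hη.le
      _ ≤ η * ∫ x, τ x * ω x := mul_le_mul_of_nonneg_left hDI hη.le
      _ = _ := by ring
  refine ⟨ω, hω1, hω2, hω5, hω3, hDpos, hfin _ hω6 hω7, hfin _ hω8 hω9, ?_⟩
  have hsplit : ∫ x in a..(b + 1), g x = J + I := by
    rw [hJ, hI]
    have e1 := intervalIntegral.integral_add_adjacent_intervals (hgii a (a + 1)) (hgii (a + 1) b)
    have e2 := intervalIntegral.integral_add_adjacent_intervals (hgii a b) (hgii b (b + 1))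
    rw [← e2, ← e1]
    ring
  rw [hsplit]
  have : J ≤ K * J := by nlinarith
  linarith

/-- Light end cells exist at a bounded distance. -/
theorem exists_light (K C c : ℝ) (hK : 1 ≤ K) (hC : 0 < C) (hc : 0 < c) :
    ∃ R : ℕ, ∀ (g : ℝ → ℝ) (x g₀ : ℝ), 0 < g₀ → (∀ u v : ℝ, IntervalIntegrable g volume u v) →
      (∀ y, |y - x| ≤ R + 1 → 0 ≤ g y) →
      (∀ y, |y - x| ≤ R + 1 → g y ≤ C * g₀) → c * g₀ ≤ ∫ y in (x - 1)..(x + 1), g y →
      ∃ h : ℕ, 1 ≤ h ∧ h ≤ R ∧
        K * ((∫ y in (x - h - 1)..(x - h), g y) + ∫ y in (x + h)..(x + h + 1), g y)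
          ≤ ∫ y in (x - h)..(x + h), g y := by
  -- choose R with c (1 + 1/K)^R > 2 (R + 1) C
  have hq : 1 < 1 + 1 / K := by have : 0 < 1 / K := by positivity
                                linarith
  have hlim : Tendsto (fun n : ℕ => (((n : ℝ) + 1) : ℝ) * (1 / (1 + 1 / K)) ^ n) atTop (𝓝 0) := by
    have h1 : |1 / (1 + 1 / K)| < 1 := by
      rw [abs_of_pos (by positivity), div_lt_one (by positivity)]; exact hq
    have h2 := tendsto_self_mul_const_pow_of_abs_lt_one h1
    have h3 := tendsto_pow_atTop_nhds_zero_of_abs_lt_one h1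
    have h4 := h2.add h3
    rw [add_zero] at h4
    refine h4.congr fun n => by ring
  obtain ⟨R, hR⟩ := (hlim.eventually_lt_const (by positivity : (0 : ℝ) < c / (2 * C))).exists
  refine ⟨R, fun g x g₀ hg₀ hgi hg0 hgC hgc => ?_⟩
  by_contra hcon
  push Not at hcon
  -- growth of S
  have hgrow : ∀ h : ℕ, h ≤ R → (1 + 1 / K) ^ h * (c * g₀) ≤ ∫ y in (x - (h + 1 : ℕ))..(x + (h + 1 : ℕ)), g y := by
    intro h
    induction h with
    | zero =>
      intro _
      simpa using hgc
    | succ h ih =>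
      intro hh
      have h1 := ih (by omega)
      have h2 := hcon (h + 1) (by omega) hh
      have e1 := intervalIntegral.integral_add_adjacent_intervals
        (hgi (x - ((h + 1 : ℕ) : ℝ) - 1) (x - ((h + 1 : ℕ) : ℝ))) (hgi (x - ((h + 1 : ℕ) : ℝ)) (x + ((h + 1 : ℕ) : ℝ)))
      have e2 := intervalIntegral.integral_add_adjacent_intervals
        (hgi (x - ((h + 1 : ℕ) : ℝ) - 1) (x + ((h + 1 : ℕ) : ℝ)))
        (hgi (x + ((h + 1 : ℕ) : ℝ)) (x + ((h + 1 : ℕ) : ℝ) + 1))
      have e3 : x - ((h + 1 + 1 : ℕ) : ℝ) = x - ((h + 1 : ℕ) : ℝ) - 1 := by push_cast; ring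
      have e4 : x + ((h + 1 + 1 : ℕ) : ℝ) = x + ((h + 1 : ℕ) : ℝ) + 1 := by push_cast; ring
      rw [e3, e4, ← e2, ← e1]
      set S := ∫ y in (x - ((h + 1 : ℕ) : ℝ))..(x + ((h + 1 : ℕ) : ℝ)), g y with hS
      set J₁ := ∫ y in (x - ((h + 1 : ℕ) : ℝ) - 1)..(x - ((h + 1 : ℕ) : ℝ)), g y with hJ₁
      set J₂ := ∫ y in (x + ((h + 1 : ℕ) : ℝ))..(x + ((h + 1 : ℕ) : ℝ) + 1), g y with hJ₂
      have h3 : S / K ≤ J₁ + J₂ := by
        rw [div_le_iff₀ (by linarith)]
        linarith [mul_comm K (J₁ + J₂)]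
      calc (1 + 1 / K) ^ (h + 1) * (c * g₀) = (1 + 1 / K) * ((1 + 1 / K) ^ h * (c * g₀)) := by ring
        _ ≤ (1 + 1 / K) * S := mul_le_mul_of_nonneg_left h1 (by linarith)
        _ = S + S / K := by ring
        _ ≤ _ := by linarith
  have h1 := hgrow R le_rfl
  have h2 : ∫ y in (x - (R + 1 : ℕ))..(x + (R + 1 : ℕ)), g y ≤ 2 * ((R : ℝ) + 1) * (C * g₀) := by
    have h3 : ∫ y in (x - (R + 1 : ℕ))..(x + (R + 1 : ℕ)), g y
        ≤ ∫ _y in (x - (R + 1 : ℕ))..(x + (R + 1 : ℕ)), C * g₀ := by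
      refine intervalIntegral.integral_mono_on (by have : (0 : ℝ) ≤ ((R + 1 : ℕ) : ℝ) := Nat.cast_nonneg _
                                                   linarith) (hgi _ _) intervalIntegrable_const
        (fun y hy => hgC y ?_)
      rw [abs_le]
      have e5 : ((R + 1 : ℕ) : ℝ) = R + 1 := by push_cast; ring
      rw [e5] at hy
      constructor
      · linarith [hy.1]
      · linarith [hy.2]
    refine h3.trans (le_of_eq ?_)
    rw [intervalIntegral.integral_const, smul_eq_mul]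
    push_cast; ring
  have h3 := h1.trans h2
  have hpow : 0 < (1 + 1 / K) ^ R := by positivity
  have h4 : ((R : ℝ) + 1) * (1 / (1 + 1 / K)) ^ R < c / (2 * C) := hR
  have h5 : (1 / (1 + 1 / K)) ^ R = ((1 + 1 / K) ^ R)⁻¹ := by rw [one_div, inv_pow]
  rw [h5, lt_div_iff₀ (by positivity)] at h4
  have h6 : ((R : ℝ) + 1) * (2 * C) < c * (1 + 1 / K) ^ R := by
    have h7 := mul_lt_mul_of_pos_right h4 hpow
    have h8 : ((R : ℝ) + 1) * ((1 + 1 / K) ^ R)⁻¹ * (2 * C) * (1 + 1 / K) ^ R = ((R : ℝ) + 1) * (2 * C) := by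
      field_simp
    rw [h8] at h7
    exact h7
  have h9 := mul_lt_mul_of_pos_right h6 hg₀
  linarith

end DW24
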