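import Pool.Agent.DW24.Defs

/-!
MP_24b0ce_an, module Int: local integrability of `log ‖h (e^{x+iθ})‖` in the log-plane for
meromorphic `h`, and transfer of codiscrete statements to almost-everywhere statements in the
log-plane.
-/

set_option autoImplicit false

open MeasureTheory Filter Topology Set

namespace DW24

theorem exp_eq_circleMap (x θ : ℝ) :
    Complex.exp (x + θ * Complex.I) = circleMap 0 (Real.exp x) θ := by
  rw [circleMap, Complex.exp_add, Complex.ofReal_exp, zero_add]

theorem posLog_add_posLog_inv (x : ℝ) : Real.posLog x + Real.posLog x⁻¹ = |Real.log x| := by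
  rw [Real.posLog_apply, Real.posLog_apply, Real.log_inv]
  rcases le_total 0 (Real.log x) with h | h
  · rw [max_eq_right h, max_eq_left (by linarith), abs_of_nonneg h, add_zero]
  · rw [max_eq_left h, max_eq_right (by linarith), abs_of_nonpos h, zero_add]

theorem intervalIntegrable_log_circle {h : ℂ → ℂ} (hh : Meromorphic h) (x : ℝ) :
    IntervalIntegrable (fun θ : ℝ => Real.log ‖h (Complex.exp (x + θ * Complex.I))‖) volume
      0 (2 * Real.pi) := by
  have h1 := MeromorphicOn.circleIntegrable_log_norm (f := h) (c := 0) (R := Real.exp x)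
    hh.meromorphicOn
  unfold CircleIntegrable at h1
  simp only [exp_eq_circleMap]
  exact h1

theorem integral_abs_log_circle {h : ℂ → ℂ} (hh : Meromorphic h) (x : ℝ) :
    ∫ θ in (0)..(2 * Real.pi), |Real.log ‖h (Complex.exp (x + θ * Complex.I))‖|
      = 2 * Real.pi * (ValueDistribution.proximity h ⊤ (Real.exp x)
        + ValueDistribution.proximity h⁻¹ ⊤ (Real.exp x)) := by
  have h1 : CircleIntegrable (fun z => Real.posLog ‖h z‖) 0 (Real.exp x) :=
    MeromorphicOn.circleIntegrable_posLog_norm hh.meromorphicOn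
  have h2 : CircleIntegrable (fun z => Real.posLog ‖h⁻¹ z‖) 0 (Real.exp x) :=
    MeromorphicOn.circleIntegrable_posLog_norm hh.inv.meromorphicOn
  rw [ValueDistribution.proximity_top, ValueDistribution.proximity_top]
  rw [Real.circleAverage_def, Real.circleAverage_def, smul_eq_mul, smul_eq_mul, ← mul_add,
    ← intervalIntegral.integral_add h1 h2, ← mul_assoc, mul_inv_cancel₀ (by positivity), one_mul]
  refine intervalIntegral.integral_congr fun θ _ => ?_
  simp only [exp_eq_circleMap, Pi.inv_apply, norm_inv]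
  exact (posLog_add_posLog_inv _).symm

theorem proximity_le_of_mem {h : ℂ → ℂ} (hh : Meromorphic h) {r₀ r₁ : ℝ} (h0 : 0 < r₀) {r : ℝ}
    (hr : r ∈ Icc r₀ r₁) :
    ValueDistribution.proximity h ⊤ r ≤ ValueDistribution.characteristic h ⊤ r₁
      - ValueDistribution.logCounting h ⊤ r₀ := by
  have hr0 : 0 < r := lt_of_lt_of_le h0 hr.1
  have h1 := ValueDistribution.characteristic_monotoneOn hh (mem_Ioi.2 hr0)
    (mem_Ioi.2 (lt_of_lt_of_le hr0 hr.2)) hr.2
  have h2 := ValueDistribution.logCounting_monotoneOn (f := h) (e := ⊤) (mem_Ioi.2 h0)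
    (mem_Ioi.2 hr0) hr.1
  have h3 : ValueDistribution.characteristic h ⊤ r
    = ValueDistribution.proximity h ⊤ r + ValueDistribution.logCounting h ⊤ r := rfl
  linarith

theorem exists_bound_circle {h : ℂ → ℂ} (hh : Meromorphic h) (x₀ x₁ : ℝ) :
    ∃ C : ℝ, 0 ≤ C ∧ ∀ x ∈ Icc x₀ x₁,
      ∫ θ in (0)..(2 * Real.pi), |Real.log ‖h (Complex.exp (x + θ * Complex.I))‖| ≤ C := by
  refine ⟨max 0 (2 * Real.pi * ((ValueDistribution.characteristic h ⊤ (Real.exp x₁)
      - ValueDistribution.logCounting h ⊤ (Real.exp x₀))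
      + (ValueDistribution.characteristic h⁻¹ ⊤ (Real.exp x₁)
      - ValueDistribution.logCounting h⁻¹ ⊤ (Real.exp x₀)))), le_max_left _ _, fun x hx => ?_⟩
  rw [integral_abs_log_circle hh]
  refine le_trans ?_ (le_max_right _ _)
  have hx' : Real.exp x ∈ Icc (Real.exp x₀) (Real.exp x₁) :=
    ⟨Real.exp_le_exp.2 hx.1, Real.exp_le_exp.2 hx.2⟩
  exact mul_le_mul_of_nonneg_left (add_le_add (proximity_le_of_mem hh (Real.exp_pos _) hx')
    (proximity_le_of_mem hh.inv (Real.exp_pos _) hx')) (by positivity)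

theorem periodic_log (h : ℂ → ℂ) (x : ℝ) :
    Function.Periodic (fun θ : ℝ => Real.log ‖h (Complex.exp (x + θ * Complex.I))‖)
      (2 * Real.pi) := by
  intro θ
  show Real.log ‖h (Complex.exp (x + ((θ + 2 * Real.pi : ℝ) : ℂ) * Complex.I))‖ = _
  congr 3
  rw [show (x : ℂ) + ((θ + 2 * Real.pi : ℝ) : ℂ) * Complex.I
    = (x + θ * Complex.I) + 2 * Real.pi * Complex.I by push_cast; ring, Complex.exp_periodic]

theorem integrableOn_log_circle {h : ℂ → ℂ} (hh : Meromorphic h) (x a b : ℝ) :
    IntegrableOn (fun θ : ℝ => Real.log ‖h (Complex.exp (x + θ * Complex.I))‖) (Ioo a b) := by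
  have h1 := (periodic_log h x).intervalIntegrable₀ (by positivity)
    (intervalIntegrable_log_circle hh x) a b
  rcases le_total a b with hab | hab
  · exact ((intervalIntegrable_iff_integrableOn_Ioc_of_le hab).1 h1).mono_set Ioo_subset_Ioc_self
  · rw [Ioo_eq_empty (not_lt.2 hab)]; exact integrableOn_empty

theorem measurable_log {h : ℂ → ℂ} (hh : Meromorphic h) :
    Measurable (fun p : ℝ × ℝ => Real.log ‖h (Complex.exp (p.1 + p.2 * Complex.I))‖) := by
  have h1 := hh.measurable
  fun_prop

theorem exists_periods (a b : ℝ) :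
    ∃ N : ℕ, a ≥ -(N * (2 * Real.pi)) ∧ b ≤ N * (2 * Real.pi) := by
  obtain ⟨N, hN⟩ := exists_nat_ge (max |a| |b|)
  have h1 : (N : ℝ) ≤ N * (2 * Real.pi) :=
    le_mul_of_one_le_right N.cast_nonneg (by linarith [Real.pi_gt_three])
  have h2 := le_trans (le_max_left _ _) hN
  have h3 := le_trans (le_max_right _ _) hN
  exact ⟨N, by linarith [neg_abs_le a], by linarith [le_abs_self b]⟩

/-- Local integrability of `log ‖h (e^{x + iθ})‖` in the log-plane. -/
theorem integrable_log {h : ℂ → ℂ} (hh : Meromorphic h) (x₀ x₁ a b : ℝ) :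
    IntegrableOn (fun p : ℝ × ℝ => Real.log ‖h (Complex.exp (p.1 + p.2 * Complex.I))‖)
      (Ioo x₀ x₁ ×ˢ Ioo a b) := by
  obtain ⟨C, hC0, hC⟩ := exists_bound_circle hh x₀ x₁
  obtain ⟨N, hN1, hN2⟩ := exists_periods a b
  have hm := measurable_log hh
  rw [IntegrableOn, Measure.volume_eq_prod, ← Measure.prod_restrict]
  rw [integrable_prod_iff hm.aestronglyMeasurable]
  refine ⟨Eventually.of_forall fun x => integrableOn_log_circle hh x a b, ?_⟩
  -- the bound
  have hbd : ∀ x ∈ Ioo x₀ x₁,
      ‖∫ θ in Ioo a b, ‖Real.log ‖h (Complex.exp (x + θ * Complex.I))‖‖‖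
        ≤ (2 * N) * C := by
    intro x hx
    have hx' : x ∈ Icc x₀ x₁ := ⟨hx.1.le, hx.2.le⟩
    rw [Real.norm_of_nonneg (integral_nonneg fun _ => norm_nonneg _)]
    have hsub : Ioo a b ⊆ Ioc (-(N * (2 * Real.pi))) (N * (2 * Real.pi)) := fun y hy =>
      ⟨lt_of_le_of_lt hN1 hy.1, le_trans hy.2.le hN2⟩
    have hle : -(N * (2 * Real.pi)) ≤ N * (2 * Real.pi) := by
      have : 0 ≤ N * (2 * Real.pi) := by positivity
      linarith
    have hper : Function.Periodic (fun θ : ℝ =>
        |Real.log ‖h (Complex.exp (x + θ * Complex.I))‖|) (2 * Real.pi) := fun θ => by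
      have := periodic_log h x θ
      simp only at this ⊢
      rw [this]
    have hii := ((periodic_log h x).intervalIntegrable₀ (by positivity)
      (intervalIntegrable_log_circle hh x) (-(N * (2 * Real.pi))) (N * (2 * Real.pi))).abs
    have h1 : ∫ θ in Ioo a b, ‖Real.log ‖h (Complex.exp (x + θ * Complex.I))‖‖
        ≤ ∫ θ in Ioc (-(N * (2 * Real.pi))) (N * (2 * Real.pi)),
          ‖Real.log ‖h (Complex.exp (x + θ * Complex.I))‖‖ := by
      refine setIntegral_mono_set ?_ (Eventually.of_forall fun _ => norm_nonneg _)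
        (LE.le.eventuallyLE hsub)
      exact (intervalIntegrable_iff_integrableOn_Ioc_of_le hle).1 hii
    refine le_trans h1 ?_
    have h2 : ∫ θ in Ioc (-(N * (2 * Real.pi))) (N * (2 * Real.pi)),
          ‖Real.log ‖h (Complex.exp (x + θ * Complex.I))‖‖
        = ∫ θ in (-(N * (2 * Real.pi)))..(N * (2 * Real.pi)),
          |Real.log ‖h (Complex.exp (x + θ * Complex.I))‖| := by
      rw [intervalIntegral.integral_of_le hle]; rfl
    rw [h2]
    have h3 := hper.intervalIntegral_add_zsmul_eq (2 * N : ℤ) (-(N * (2 * Real.pi)))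
      (fun t₁ t₂ => ((periodic_log h x).intervalIntegrable₀ (by positivity)
      (intervalIntegrable_log_circle hh x) t₁ t₂).abs)
    have h4 : -(N * (2 * Real.pi)) + (2 * N : ℤ) • (2 * Real.pi) = N * (2 * Real.pi) := by
      rw [zsmul_eq_mul]; push_cast; ring
    rw [h4] at h3
    rw [h3, hper.intervalIntegral_add_eq (-(N * (2 * Real.pi))) 0, zero_add, zsmul_eq_mul]
    push_cast
    exact mul_le_mul_of_nonneg_left (hC x hx') (by positivity)
  refine Integrable.mono' (g := fun _ => (2 * N) * C) ?_ ?_ ?_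
  · exact (integrable_const _)
  · exact (hm.norm.stronglyMeasurable.integral_prod_right' (ν := volume.restrict (Ioo a b))).aestronglyMeasurable
  · exact (ae_restrict_iff' measurableSet_Ioo).2 (Eventually.of_forall fun x hx => hbd x hx)

/-- A statement that holds off a discrete subset of the disc `|z| < R` holds almost everywhere on
the half-plane `x < log R` of the log-plane. -/
theorem ae_of_codiscrete {R : ℝ} (hR : 0 < R) {P : ℂ → Prop}
    (h : ∀ᶠ z in codiscreteWithin (Metric.ball (0 : ℂ) R), P z) :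
    ∀ᵐ q : ℝ × ℝ, q.1 < Real.log R → P (Complex.exp (q.1 + q.2 * Complex.I)) := by
  have hc : ({z | ¬ P z} ∩ Metric.ball (0 : ℂ) R).Countable := by
    refine (HereditarilyLindelofSpace.isLindelof _).countable_of_isDiscrete
      (isDiscrete_of_codiscreteWithin ?_)
    refine Filter.mem_of_superset h fun z hz => ?_
    simpa using hz
  have h2 : ((fun q : ℝ × ℝ => ((q.1 : ℂ) + q.2 * Complex.I)) ⁻¹'
      (Complex.exp ⁻¹' ({z | ¬ P z} ∩ Metric.ball (0 : ℂ) R))).Countable := by
    refine (hc.preimage_cexp).preimage_of_injOn ?_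
    intro p _ q _ hpq
    have hre := congrArg Complex.re hpq
    have him := congrArg Complex.im hpq
    simp only [Complex.add_re, Complex.add_im, Complex.ofReal_re, Complex.ofReal_im,
      Complex.mul_re, Complex.mul_im, Complex.I_re, Complex.I_im, mul_zero, mul_one,
      add_zero, zero_add, sub_self] at hre him
    exact Prod.ext hre him
  rw [ae_iff]
  refine measure_mono_null ?_ (h2.measure_zero volume)
  intro q hq
  simp only [mem_ofPred_eq, Classical.not_imp] at hq
  refine ⟨hq.2, ?_⟩
  rw [mem_ball_zero_iff, exp_eq_circleMap, norm_circleMap_zero, abs_of_pos (Real.exp_pos _)]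
  exact (Real.lt_log_iff_exp_lt hR).1 hq.1

end DW24
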