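import Pool.Agent.DW24.Defs

/-!
The integrand of the proximity function, and the function `v_a = log⁺|f| - log|f - a|`.
-/

set_option autoImplicit false

open MeasureTheory Filter Topology Set ValueDistribution

namespace DW24

/-- How near `f z` is to the value `a` (the integrand of the proximity function `m(r, a, f)`). -/
noncomputable def near (f : ℂ → ℂ) : WithTop ℂ → ℂ → ℝ
  | ⊤, z => Real.posLog ‖f z‖
  | (a : ℂ), z => Real.posLog ‖f z - a‖⁻¹

lemma near_top (f : ℂ → ℂ) (z : ℂ) : near f ⊤ z = Real.posLog ‖f z‖ := rfl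
lemma near_coe (f : ℂ → ℂ) (a z : ℂ) : near f (a : WithTop ℂ) z = Real.posLog ‖f z - a‖⁻¹ := rfl

lemma near_nonneg (f : ℂ → ℂ) (a : WithTop ℂ) (z : ℂ) : 0 ≤ near f a z := by
  cases a with
  | top => exact Real.posLog_nonneg
  | coe a => exact Real.posLog_nonneg

lemma proximity_eq (f : ℂ → ℂ) (a : WithTop ℂ) : proximity f a = Real.circleAverage (near f a) 0 := by
  cases a with
  | top => rw [proximity_top]; rfl
  | coe a => rw [proximity_coe]; rfl

/-- `v_a = log⁺|f| - log|f - a|` (`= log⁺|f|` for `a = ∞`). -/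
noncomputable def vv (f : ℂ → ℂ) : WithTop ℂ → ℂ → ℝ
  | ⊤, z => Real.posLog ‖f z‖
  | (a : ℂ), z => Real.posLog ‖f z‖ - Real.log ‖f z - a‖

noncomputable def cst : WithTop ℂ → ℝ
  | ⊤ => 0
  | (a : ℂ) => Real.posLog ‖a‖ + Real.log 2

lemma vv_top (f : ℂ → ℂ) (z : ℂ) : vv f ⊤ z = Real.posLog ‖f z‖ := rfl
lemma vv_coe (f : ℂ → ℂ) (a z : ℂ) :
    vv f (a : WithTop ℂ) z = Real.posLog ‖f z‖ - Real.log ‖f z - a‖ := rfl
lemma cst_coe (a : ℂ) : cst (a : WithTop ℂ) = Real.posLog ‖a‖ + Real.log 2 := rfl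

lemma cst_nonneg (a : WithTop ℂ) : 0 ≤ cst a := by
  cases a with
  | top => exact le_rfl
  | coe a => exact add_nonneg Real.posLog_nonneg (Real.log_nonneg (by norm_num))

lemma abs_posLog_sub (w a : ℂ) :
    |Real.posLog ‖w‖ - Real.posLog ‖w - a‖| ≤ Real.posLog ‖a‖ + Real.log 2 := by
  rw [abs_le]
  constructor
  · have h := Real.posLog_norm_add_le w (-a)
    rw [← sub_eq_add_neg, norm_neg] at h
    linarith
  · have h := Real.posLog_norm_add_le (w - a) a
    rw [sub_add_cancel] at h
    linarith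

lemma abs_vv_sub_near (f : ℂ → ℂ) (a : WithTop ℂ) (z : ℂ) : |vv f a z - near f a z| ≤ cst a := by
  cases a with
  | top =>
    rw [vv_top, near_top, sub_self, abs_zero]
    exact cst_nonneg ⊤
  | coe a =>
    have h := Real.posLog_sub_posLog_inv (x := ‖f z - a‖)
    rw [vv_coe, near_coe, cst_coe,
      show Real.posLog ‖f z‖ - Real.log ‖f z - a‖ - Real.posLog ‖f z - a‖⁻¹
        = Real.posLog ‖f z‖ - Real.posLog ‖f z - a‖ by linarith]
    exact abs_posLog_sub _ _

lemma vv_add_nonneg (f : ℂ → ℂ) (a : WithTop ℂ) (z : ℂ) : 0 ≤ vv f a z + cst a := by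
  have h := (abs_le.1 (abs_vv_sub_near f a z)).1
  have h2 := near_nonneg f a z
  linarith

lemma vv_add_le (f : ℂ → ℂ) (a : WithTop ℂ) (z : ℂ) : vv f a z + cst a ≤ near f a z + 2 * cst a := by
  have h := (abs_le.1 (abs_vv_sub_near f a z)).2
  linarith

lemma near_le_vv (f : ℂ → ℂ) (a : WithTop ℂ) (z : ℂ) : near f a z ≤ vv f a z + cst a := by
  have h := (abs_le.1 (abs_vv_sub_near f a z)).1
  linarith

/-- the point `e^{x + iθ}` -/
noncomputable def pt (x θ : ℝ) : ℂ := Complex.exp (x + θ * Complex.I)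

lemma pt_eq (x θ : ℝ) : pt x θ = circleMap 0 (Real.exp x) θ := by
  unfold pt circleMap
  rw [Complex.exp_add, Complex.ofReal_exp, zero_add]

lemma pt_per (x : ℝ) : Function.Periodic (pt x) (2 * Real.pi) := by
  intro θ
  unfold pt
  push_cast
  rw [show (x : ℂ) + (θ + 2 * Real.pi) * Complex.I = (x + θ * Complex.I) + 2 * Real.pi * Complex.I by ring]
  exact Complex.exp_periodic _

lemma norm_pt (x θ : ℝ) : ‖pt x θ‖ = Real.exp x := by
  unfold pt
  rw [Complex.norm_exp]
  simp

lemma int_pt (g : ℂ → ℝ) (x : ℝ) :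
    ∫ θ in (0)..(2 * Real.pi), g (pt x θ) = 2 * Real.pi * Real.circleAverage g 0 (Real.exp x) := by
  unfold Real.circleAverage
  simp only [pt_eq, smul_eq_mul]
  have : (2 * Real.pi) ≠ 0 := by positivity
  field_simp

lemma ci_near {f : ℂ → ℂ} (hf : Meromorphic f) (a : WithTop ℂ) (r : ℝ) :
    CircleIntegrable (near f a) 0 r := by
  cases a with
  | top => exact hf.meromorphicOn.circleIntegrable_posLog_norm
  | coe a =>
    have h1 : Meromorphic (fun z => f z - a) := hf.sub (Meromorphic.const a)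
    have h2 : CircleIntegrable (fun z => Real.posLog ‖(f z - a)⁻¹‖) 0 r :=
      h1.inv.meromorphicOn.circleIntegrable_posLog_norm
    simp only [norm_inv] at h2
    exact h2

lemma ci_vv {f : ℂ → ℂ} (hf : Meromorphic f) (a : WithTop ℂ) (r : ℝ) :
    CircleIntegrable (vv f a) 0 r := by
  cases a with
  | top => exact hf.meromorphicOn.circleIntegrable_posLog_norm
  | coe a =>
    have h1 : Meromorphic (fun z => f z - a) := hf.sub (Meromorphic.const a)
    exact (hf.meromorphicOn.circleIntegrable_posLog_norm).sub h1.meromorphicOn.circleIntegrable_log_norm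

lemma ci_const (c r : ℝ) : CircleIntegrable (fun _ => c) 0 r := circleIntegrable_const c 0 r

lemma mean_vv_le {f : ℂ → ℂ} (hf : Meromorphic f) (a : WithTop ℂ) (r : ℝ) :
    Real.circleAverage (fun z => vv f a z + cst a) 0 r ≤ proximity f a r + 2 * cst a := by
  rw [proximity_eq]
  have h : Real.circleAverage (fun z => near f a z + 2 * cst a) 0 r
      = Real.circleAverage (near f a) 0 r + 2 * cst a := by
    have := Real.circleAverage_add (ci_near hf a r) (ci_const (2 * cst a) r)
    rw [Real.circleAverage_const] at this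
    exact this
  rw [← h]
  exact Real.circleAverage_mono ((ci_vv hf a r).add (ci_const _ r)) ((ci_near hf a r).add (ci_const _ r))
    (fun z _ => vv_add_le f a z)

lemma mean_vv_ge {f : ℂ → ℂ} (hf : Meromorphic f) (a : WithTop ℂ) (r : ℝ) :
    proximity f a r ≤ Real.circleAverage (fun z => vv f a z + cst a) 0 r := by
  rw [proximity_eq]
  exact Real.circleAverage_mono (ci_near hf a r) ((ci_vv hf a r).add (ci_const _ r))
    (fun z _ => near_le_vv f a z)

/-- First main theorem: `m(r, a) ≤ T(r) + O(1)` for `r ≥ 1`. -/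
lemma proximity_le {f : ℂ → ℂ} (hf : Meromorphic f) (a : WithTop ℂ) :
    ∃ C : ℝ, 0 ≤ C ∧ ∀ r, 1 ≤ r → proximity f a r ≤ characteristic f ⊤ r + C := by
  cases a with
  | top =>
    refine ⟨0, le_rfl, fun r hr => ?_⟩
    have : 0 ≤ logCounting f ⊤ r := logCounting_nonneg hr
    rw [characteristic, Pi.add_apply]; linarith
  | coe a =>
    set g : ℂ → ℂ := fun z => f z - a with hg
    have hgm : Meromorphic g := hf.sub (Meromorphic.const a)
    set C₁ := max |Real.log ‖g 0‖| |Real.log ‖meromorphicTrailingCoeffAt g 0‖| with hC₁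
    refine ⟨C₁ + (Real.posLog ‖a‖ + Real.log 2), ?_, fun r hr => ?_⟩
    · exact add_nonneg (le_max_of_le_left (abs_nonneg _)) (cst_nonneg (a : WithTop ℂ))
    have h1 := characteristic_sub_characteristic_inv_le hgm (R := r)
    have h2 := abs_characteristic_sub_characteristic_shift_le (a₀ := a) (r := r) hf
    have h3 : proximity f (a : WithTop ℂ) r = proximity g⁻¹ ⊤ r := by
      rw [proximity_inv, proximity_coe_eq_proximity_sub_const_zero]; rfl
    have h4 : 0 ≤ logCounting g⁻¹ ⊤ r := logCounting_nonneg hr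
    have h5 : characteristic g⁻¹ ⊤ r = proximity g⁻¹ ⊤ r + logCounting g⁻¹ ⊤ r := by
      rw [characteristic, Pi.add_apply]
    have h6 := (abs_le.1 h1).1
    have h7 := (abs_le.1 h2).1
    rw [h3]
    linarith

end DW24
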