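import Pool.Agent.DW24.FB
import Pool.Agent.DW24.Near
import Pool.Agent.DW24.B
import Pool.Agent.DW24.Int
import Pool.Agent.DW24.C

/-!
The data of one window.
-/

set_option autoImplicit false

open MeasureTheory Filter Topology Set ValueDistribution

namespace DW24

lemma int_deriv2_zero {ω : ℝ → ℝ} (hω : ContDiff ℝ 2 ω) {α β : ℝ}
    (hsupp : ∀ x, x ∉ Icc α β → ω x = 0) : ∫ x, deriv (deriv ω) x = 0 := by
  have h2 : ContDiff ℝ (1 + 1) ω := by simpa [one_add_one_eq_two] using hω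
  have hc1 : ContDiff ℝ 1 (deriv ω) := (contDiff_succ_iff_deriv.1 h2).2.2
  have hz : ∀ x, x ∉ Icc α β → deriv ω x = 0 := by
    intro x hx
    have : ω =ᶠ[𝓝 x] fun _ => 0 := by
      filter_upwards [isClosed_Icc.isOpen_compl.mem_nhds hx] with y hy
      exact hsupp y hy
    rw [this.deriv_eq]; simp
  have hz2 : ∀ x, x ∉ Icc α β → deriv (deriv ω) x = 0 := by
    intro x hx
    have : deriv ω =ᶠ[𝓝 x] fun _ => 0 := by
      filter_upwards [isClosed_Icc.isOpen_compl.mem_nhds hx] with y hy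
      exact hz y hy
    rw [this.deriv_eq]; simp
  have hcs : HasCompactSupport (deriv (deriv ω)) := HasCompactSupport.intro isCompact_Icc hz2
  have hint : Integrable (deriv (deriv ω)) :=
    (hc1.continuous_deriv le_rfl).integrable_of_hasCompactSupport hcs
  have hbot : Tendsto (deriv ω) atBot (𝓝 0) := by
    refine tendsto_const_nhds.congr' ?_
    filter_upwards [eventually_lt_atBot α] with x hx
    exact (hz x (fun h => absurd h.1 (not_le.2 hx))).symm
  have htop : Tendsto (deriv ω) atTop (𝓝 0) := by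
    refine tendsto_const_nhds.congr' ?_
    filter_upwards [eventually_gt_atTop β] with x hx
    exact (hz x (fun h => absurd h.2 (not_le.2 hx))).symm
  have := integral_of_hasDerivAt_of_tendsto (f := deriv ω) (f' := deriv (deriv ω))
    (fun x => ((hc1.differentiable (by norm_num)) x).hasDerivAt) hint hbot htop
  simpa using this

lemma int_psi2_zero {ψ : ℝ → ℝ} (hψ : Tst ψ) : ∫ θ in (0)..(2 * Real.pi), deriv (deriv ψ) θ = 0 := by
  have h2 : ContDiff ℝ (1 + 1) ψ := by simpa [one_add_one_eq_two] using hψ.1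
  have hc1 : ContDiff ℝ 1 (deriv ψ) := (contDiff_succ_iff_deriv.1 h2).2.2
  rw [intervalIntegral.integral_deriv_eq_sub (fun x _ => (hc1.differentiable (by norm_num)) x)
    ((hc1.continuous_deriv le_rfl).intervalIntegrable _ _)]
  have : deriv ψ (0 + 2 * Real.pi) = deriv ψ 0 := by
    have h3 : (fun x => ψ (x + 2 * Real.pi)) = ψ := funext hψ.2
    have h4 := deriv_comp_add_const (f := ψ) (a := 2 * Real.pi) (x := (0 : ℝ))
    rw [h3] at h4
    exact h4.symm
  rw [zero_add] at this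
  rw [this, sub_self]

lemma AA_const (α β : ℝ → ℝ) : AA (fun _ _ => 1) α β = (∫ x, α x) * ∫ θ in (0)..(2 * Real.pi), β θ := by
  unfold AA
  rw [← integral_mul_const]
  congr 1; funext x
  rw [← intervalIntegral.integral_const_mul]
  congr 1; funext θ; ring

lemma mono_T {f : ℂ → ℂ} (hf : Meromorphic f) :
    Monotone (fun x => characteristic f ⊤ (Real.exp x)) := fun x y hxy =>
  characteristic_monotoneOn hf (Real.exp_pos x) (Real.exp_pos y) (Real.exp_le_exp.2 hxy)

lemma int_T {f : ℂ → ℂ} (hf : Meromorphic f) {κ : ℝ → ℝ} (hκ : Continuous κ) {α β : ℝ}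
    (hz : ∀ x, x ∉ Icc α β → κ x = 0) :
    Integrable (fun x => characteristic f ⊤ (Real.exp x) * κ x) := by
  have h1 : IntegrableOn (fun x => characteristic f ⊤ (Real.exp x)) (Icc α β) :=
    ((mono_T hf).monotoneOn _).integrableOn_isCompact isCompact_Icc
  obtain ⟨C, hC⟩ : ∃ C, ∀ x ∈ Icc α β, ‖κ x‖ ≤ C :=
    isCompact_Icc.exists_bound_of_continuousOn hκ.continuousOn
  have h2 : IntegrableOn (fun x => characteristic f ⊤ (Real.exp x) * κ x) (Icc α β) := by
    refine Integrable.mul_bdd h1 hκ.aestronglyMeasurable ?_ (c := C)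
    filter_upwards [ae_restrict_mem measurableSet_Icc] with x hx using hC x hx
  have h3 : (Icc α β).indicator (fun x => characteristic f ⊤ (Real.exp x) * κ x)
      = fun x => characteristic f ⊤ (Real.exp x) * κ x := by
    funext x
    by_cases hx : x ∈ Icc α β
    · rw [indicator_of_mem hx]
    · rw [indicator_of_notMem hx, hz x hx, mul_zero]
  rw [← h3]
  exact h2.integrable_indicator measurableSet_Icc

/-- joint integrability of the functions we use, on any strip -/
lemma strip_posLog {f : ℂ → ℂ} (hf : Meromorphic f) (x₀ x₁ a b : ℝ) :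
    IntegrableOn (fun p : ℝ × ℝ => Real.posLog ‖f (pt p.1 p.2)‖) (Ioo x₀ x₁ ×ˢ Ioo a b) := by
  have h := integrable_log hf x₀ x₁ a b
  have h2 : IntegrableOn (fun p : ℝ × ℝ => 2⁻¹ * (Real.log ‖f (pt p.1 p.2)‖ + |Real.log ‖f (pt p.1 p.2)‖|))
      (Ioo x₀ x₁ ×ˢ Ioo a b) := (h.add h.abs).const_mul _
  simpa only [Real.half_mul_log_add_log_abs] using h2

lemma strip_vv {f : ℂ → ℂ} (hf : Meromorphic f) (i : WithTop ℂ) (x₀ x₁ a b : ℝ) :
    IntegrableOn (fun p : ℝ × ℝ => vv f i (pt p.1 p.2)) (Ioo x₀ x₁ ×ˢ Ioo a b) := by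
  cases i with
  | top => exact strip_posLog hf x₀ x₁ a b
  | coe c =>
    have h1 : Meromorphic (fun z => f z - c) := hf.sub (Meromorphic.const c)
    exact (strip_posLog hf x₀ x₁ a b).sub (integrable_log h1 x₀ x₁ a b)

lemma strip_near {f : ℂ → ℂ} (hf : Meromorphic f) (i : WithTop ℂ) (x₀ x₁ a b : ℝ) :
    IntegrableOn (fun p : ℝ × ℝ => near f i (pt p.1 p.2)) (Ioo x₀ x₁ ×ˢ Ioo a b) := by
  cases i with
  | top => exact strip_posLog hf x₀ x₁ a b
  | coe c =>
    have h1 : Meromorphic (fun z => f z - c) := hf.sub (Meromorphic.const c)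
    have h2 := strip_posLog h1.inv x₀ x₁ a b
    simp only [Pi.inv_apply, norm_inv] at h2
    exact h2

lemma ae_slice {G : ℝ → ℝ → ℝ} {x₀ x₁ : ℝ}
    (h : ∀ a b : ℝ, IntegrableOn (fun p : ℝ × ℝ => G p.1 p.2) (Ioo x₀ x₁ ×ˢ Ioo a b)) :
    ∀ᵐ θ : ℝ, IntegrableOn (fun x => G x θ) (Ioo x₀ x₁) := by
  have h1 : ∀ n : ℕ, ∀ᵐ θ : ℝ, θ ∈ Ioo (-(n : ℝ)) n → IntegrableOn (fun x => G x θ) (Ioo x₀ x₁) := by
    intro n
    have h2 := h (-(n : ℝ)) n
    rw [IntegrableOn, Measure.volume_eq_prod, ← Measure.prod_restrict] at h2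
    have h3 := h2.prod_left_ae
    rw [ae_restrict_iff' measurableSet_Ioo] at h3
    exact h3
  have h2 := ae_all_iff.2 h1
  filter_upwards [h2] with θ hθ
  obtain ⟨n, hn⟩ := exists_nat_gt |θ|
  exact hθ n ⟨by linarith [neg_abs_le θ], by linarith [le_abs_self θ]⟩

/-- The data attached to one window. -/
theorem window_data {f : ℂ → ℂ} (hf : Meromorphic f)
    (hne : ∀ c : ℂ, ∀ᶠ z in codiscrete ℂ, f z ≠ c)
    {ι : Type*} [Fintype ι] (a : ι → WithTop ℂ) (ρ : ℝ)
    {ω : ℝ → ℝ} (hω : ContDiff ℝ 2 ω) (hω0 : ∀ x, 0 ≤ ω x) {α β : ℝ} (hα : 0 ≤ α) (hαβ : α ≤ β)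
    (hsupp : ∀ x, x ∉ Icc α β → ω x = 0)
    (hTω : 0 < ∫ x, characteristic f ⊤ (Real.exp x) * ω x)
    {C₁ : ℝ} (hC₁ : ∀ i r, 1 ≤ r → proximity f (a i) r ≤ characteristic f ⊤ r + C₁) :
    ∃ (V : ι → ℝ → ℝ) (M : (ℝ → ℝ) → ℝ),
      (∀ i, Function.Periodic (V i) (2 * Real.pi)) ∧ (∀ i θ, 0 ≤ V i θ) ∧
      (∀ i, IntervalIntegrable (V i) volume 0 (2 * Real.pi)) ∧ PosFun M ∧
      (|M (fun _ => 1) - 2 * Real.pi * ρ ^ 2| ≤
        (∫ x, characteristic f ⊤ (Real.exp x) * ω x)⁻¹ * (2 * Real.pi *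
          ∫ x, |deriv (deriv ω) x - ρ ^ 2 * ω x| *
            ((1 + Fintype.card ι) * characteristic f ⊤ (Real.exp x) + ∑ i, (C₁ + 2 * cst (a i))))) ∧
      (∀ i ψ, Tst ψ → (∀ θ, 0 ≤ ψ θ) →
        ∫ θ in (0)..(2 * Real.pi), V i θ * LL ρ ψ θ ≤ M ψ) ∧
      (∀ D : ℝ, (∀ x ∈ Icc α β, D * characteristic f ⊤ (Real.exp x) ≤
          ∑ i, proximity f (a i) (Real.exp x)) →
        D ≤ ∑ i, (1 / (2 * Real.pi)) * ∫ θ in (0)..(2 * Real.pi), V i θ) ∧
      (∀ B : ℝ, (∀ x, ω x ≤ B) → ∀ i, ∀ᵐ θ : ℝ, V i θ ≤ (∫ x, characteristic f ⊤ (Real.exp x) * ω x)⁻¹ *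
        (B * ((∫ x in α..β, near f (a i) (pt x θ)) + 2 * cst (a i) * (β - α)))) := by
  classical
  set T : ℝ → ℝ := fun x => characteristic f ⊤ (Real.exp x) with hT
  set Tω : ℝ := ∫ x, T x * ω x with hTωd
  set R : ℝ := Real.exp (β + 1) with hR
  have hRpos : 0 < R := Real.exp_pos _
  have hlogR : Real.log R = β + 1 := Real.log_exp _
  obtain ⟨P, Q, hP, hQ, ⟨z₀, hz₀⟩, hPQ, c₀, hc₀⟩ := exists_PQ hf hRpos
  set x₀ : ℝ := α - 1 with hx₀
  set x₁ : ℝ := β + 1 with hx₁
  have hx01 : x₀ < x₁ := by linarith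
  -- the weights
  have h2 : ContDiff ℝ (1 + 1) ω := by simpa [one_add_one_eq_two] using hω
  have hc1 : ContDiff ℝ 1 (deriv ω) := (contDiff_succ_iff_deriv.1 h2).2.2
  have hω2c : Continuous (deriv (deriv ω)) := hc1.continuous_deriv le_rfl
  have hz1 : ∀ x, x ∉ Icc α β → deriv ω x = 0 := by
    intro x hx
    have : ω =ᶠ[𝓝 x] fun _ => 0 := by
      filter_upwards [isClosed_Icc.isOpen_compl.mem_nhds hx] with y hy
      exact hsupp y hy
    rw [this.deriv_eq]; simp
  have hz2 : ∀ x, x ∉ Icc α β → deriv (deriv ω) x = 0 := by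
    intro x hx
    have : deriv ω =ᶠ[𝓝 x] fun _ => 0 := by
      filter_upwards [isClosed_Icc.isOpen_compl.mem_nhds hx] with y hy
      exact hz1 y hy
    rw [this.deriv_eq]; simp
  set κ : ℝ → ℝ := fun x => |deriv (deriv ω) x - ρ ^ 2 * ω x| with hκ
  have hκc : Continuous κ := (hω2c.sub (continuous_const.mul hω.continuous)).abs
  have hκz : ∀ x, x ∉ Icc α β → κ x = 0 := by
    intro x hx; simp only [hκ]; rw [hz2 x hx, hsupp x hx]; simp
  have hκ0 : ∀ x, 0 ≤ κ x := fun x => abs_nonneg _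
  have hIccIoo : ∀ x, x ∉ Ioo x₀ x₁ → x ∉ Icc α β := fun x hx h =>
    hx ⟨by linarith [h.1], by linarith [h.2]⟩
  have hCSω : CS ω x₀ x₁ := ⟨hω.continuous, fun x hx => hsupp x (hIccIoo x hx)⟩
  have hCSω2 : CS (deriv (deriv ω)) x₀ x₁ := ⟨hω2c, fun x hx => hz2 x (hIccIoo x hx)⟩
  have hCSκ : CS κ x₀ x₁ := ⟨hκc, fun x hx => hκz x (hIccIoo x hx)⟩
  -- meromorphy of P
  have hPm : Meromorphic P := fun z => (hP.analyticAt z).meromorphicAt
  have hPan : AnalyticOnNhd ℂ P (Metric.ball 0 (Real.exp (β + 1))) := fun z _ => hP.analyticAt z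
  -- a.e. facts on the strip
  have hae1 : ∀ᵐ q : ℝ × ℝ, q.1 < β + 1 → P (pt q.1 q.2) ≠ 0 ∧
      f (pt q.1 q.2) = Q (pt q.1 q.2) / P (pt q.1 q.2) := by
    have := ae_of_codiscrete hRpos hPQ
    rw [hlogR] at this
    exact this
  have hae2 : ∀ c : ℂ, ∀ᵐ q : ℝ × ℝ, q.1 < β + 1 → f (pt q.1 q.2) ≠ c := by
    intro c
    have := ae_of_codiscrete hRpos ((hne c).filter_mono (codiscreteWithin_mono (subset_univ _)))
    rw [hlogR] at this
    exact this
  -- the functions
  set u₀ : ℝ → ℝ → ℝ := fun x θ => max (Real.log ‖P (pt x θ)‖) (Real.log ‖Q (pt x θ)‖) with hu₀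
  set hh : WithTop ℂ → ℂ → ℂ := fun i z => match i with
    | ⊤ => P z
    | (c : ℂ) => Q z - c * P z with hhh
  set uu : WithTop ℂ → ℝ → ℝ → ℝ := fun i x θ => Real.log ‖hh i (pt x θ)‖ with huu
  have hhan : ∀ i, AnalyticOnNhd ℂ (hh i) (Metric.ball 0 (Real.exp (β + 1))) := by
    intro i
    cases i with
    | top => exact hPan
    | coe c => exact hQ.sub (analyticOnNhd_const.mul hPan)
  have hhne : ∀ i, ∀ᵐ q : ℝ × ℝ, q.1 < β + 1 → hh i (pt q.1 q.2) ≠ 0 := by
    intro i
    cases i with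
    | top =>
      filter_upwards [hae1] with q hq h
      exact (hq h).1
    | coe c =>
      filter_upwards [hae1, hae2 c] with q hq hq2 h
      obtain ⟨h3, h4⟩ := hq h
      have h5 := hq2 h
      intro h6
      apply h5
      rw [h4, div_eq_iff h3]
      exact sub_eq_zero.1 h6
  -- a.e. formula u₀ = log⁺|f| + log|P|
  have hae3 : ∀ᵐ q : ℝ × ℝ, q.1 < β + 1 → u₀ q.1 q.2 = Real.posLog ‖f (pt q.1 q.2)‖
      + Real.log ‖P (pt q.1 q.2)‖ := by
    filter_upwards [hae1, hae2 0] with q hq hq0 h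
    obtain ⟨h3, h4⟩ := hq h
    have h5 := hq0 h
    have hQ0 : Q (pt q.1 q.2) ≠ 0 := by
      intro h6; rw [h6, zero_div] at h4; exact h5 h4
    simp only [hu₀]
    rw [Real.posLog_apply, h4, norm_div, Real.log_div (norm_ne_zero_iff.2 hQ0) (norm_ne_zero_iff.2 h3),
      max_add, zero_add, sub_add_cancel]
  have hae4 : ∀ i, ∀ᵐ q : ℝ × ℝ, q.1 < β + 1 → u₀ q.1 q.2 = vv f i (pt q.1 q.2) + uu i q.1 q.2 := by
    intro i
    cases i with
    | top =>
      filter_upwards [hae3] with q hq h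
      rw [hq h, vv_top]
    | coe c =>
      filter_upwards [hae3, hae1, hae2 c] with q hq hq1 hq2 h
      obtain ⟨h3, h4⟩ := hq1 h
      have h5 := hq2 h
      rw [hq h, vv_coe]
      have h6 : hh (c : WithTop ℂ) (pt q.1 q.2) = (f (pt q.1 q.2) - c) * P (pt q.1 q.2) := by
        show Q _ - c * P _ = _
        rw [sub_mul, h4, div_mul_cancel₀ _ h3]
      simp only [huu]
      rw [h6, norm_mul, Real.log_mul (norm_ne_zero_iff.2 (sub_ne_zero.2 h5)) (norm_ne_zero_iff.2 h3)]
      ring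
  -- integrability on strips
  have hmeas : ∀ s t : ℝ, MeasurableSet (Ioo x₀ x₁ ×ˢ Ioo s t : Set (ℝ × ℝ)) := fun s t =>
    measurableSet_Ioo.prod measurableSet_Ioo
  have hstrip_ae : ∀ {F G : ℝ → ℝ → ℝ}, (∀ᵐ q : ℝ × ℝ, q.1 < β + 1 → F q.1 q.2 = G q.1 q.2) →
      ∀ s t : ℝ, IntegrableOn (fun p : ℝ × ℝ => G p.1 p.2) (Ioo x₀ x₁ ×ˢ Ioo s t) →
        IntegrableOn (fun p : ℝ × ℝ => F p.1 p.2) (Ioo x₀ x₁ ×ˢ Ioo s t) := by
    intro F G hFG s t hG
    refine IntegrableOn.congr_fun_ae hG ?_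
    filter_upwards [ae_restrict_of_ae hFG, ae_restrict_mem (hmeas s t)] with q hq hmem
    exact (hq hmem.1.2).symm
  have hu₀int : ∀ s t : ℝ, IntegrableOn (fun p : ℝ × ℝ => u₀ p.1 p.2) (Ioo x₀ x₁ ×ˢ Ioo s t) := by
    intro s t
    refine hstrip_ae (G := fun x θ => Real.posLog ‖f (pt x θ)‖ + Real.log ‖P (pt x θ)‖) hae3 s t ?_
    exact (strip_posLog hf x₀ x₁ s t).add (integrable_log hPm x₀ x₁ s t)
  have huuint : ∀ i, ∀ s t : ℝ, IntegrableOn (fun p : ℝ × ℝ => uu i p.1 p.2) (Ioo x₀ x₁ ×ˢ Ioo s t) := by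
    intro i s t
    refine hstrip_ae (G := fun x θ => u₀ x θ - vv f i (pt x θ)) ?_ s t
      ((hu₀int s t).sub (strip_vv hf i x₀ x₁ s t))
    filter_upwards [hae4 i] with q hq h
    have := hq h
    linarith
  have hSIu₀ : SI u₀ x₀ x₁ := hu₀int _ _
  have hSIuu : ∀ i, SI (uu i) x₀ x₁ := fun i => huuint i _ _
  set v : ι → ℝ → ℝ → ℝ := fun i x θ => vv f (a i) (pt x θ) + cst (a i) with hv
  have hv0 : ∀ i x θ, 0 ≤ v i x θ := fun i x θ => vv_add_nonneg f (a i) _
  have hSIv : ∀ i, SI (v i) x₀ x₁ := fun i =>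
    SI.add (strip_vv hf (a i) x₀ x₁ _ _) (SI.const (cst (a i)) x₀ x₁)
  -- nonnegativity of the two pairings
  have hJ₀ : ∀ ψ, Tst ψ → (∀ θ, 0 ≤ ψ θ) → 0 ≤ JJ u₀ ω ψ := by
    intro ψ hψ hψ0
    refine JJ_nonneg hx01 (fun x θ => by simp only [hu₀, pt_per x θ]) hu₀int ?_ hω
      ⟨α, β, by linarith, by linarith, hsupp⟩ hω0 hψ hψ0
    intro h hh0
    filter_upwards [hae1, hae2 0] with q hq hq0 h3 h4
    have h5 : q.1 < β + 1 := by linarith
    obtain ⟨h6, h7⟩ := hq h5
    have hQ0 : Q (pt q.1 q.2) ≠ 0 := by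
      intro h8; rw [h8, zero_div] at h7; exact hq0 h5 h7
    exact submean_max hPan hQ hh0 h4 h6 hQ0
  have hJu : ∀ i ψ, Tst ψ → (∀ θ, 0 ≤ ψ θ) → 0 ≤ JJ (uu i) ω ψ := by
    intro i ψ hψ hψ0
    refine JJ_nonneg hx01 (fun x θ => by simp only [huu, pt_per x θ]) (huuint i) ?_ hω
      ⟨α, β, by linarith, by linarith, hsupp⟩ hω0 hψ hψ0
    intro h hh0
    filter_upwards [hhne i] with q hq h3 h4
    have h5 : q.1 < β + 1 := by linarith
    have h6 := submean_max (hhan i) (hhan i) hh0 h4 (hq h5) (hq h5)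
    simp only [max_self] at h6
    exact h6
  -- relation between the pairings
  have hrel : ∀ i ψ, Tst ψ → JJ (v i) ω ψ + JJ (uu (a i)) ω ψ = JJ u₀ ω ψ := by
    intro i ψ hψ
    have hconst : JJ (fun _ _ => 1) ω ψ = 0 := by
      rw [JJ_eq (SI.const 1 x₀ x₁) hCSω hCSω2 hψ, AA_const, AA_const, int_psi2_zero hψ,
        int_deriv2_zero hω hsupp]
      ring
    have e1 : ∀ γ δ : ℝ → ℝ, CS γ x₀ x₁ → Continuous δ →
        AA (v i) γ δ + AA (uu (a i)) γ δ = AA u₀ γ δ + cst (a i) * AA (fun _ _ => 1) γ δ := by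
      intro γ δ hγ hδ
      rw [← AA_add_left (hSIv i) (hSIuu (a i)) hγ hδ]
      have e2 : AA (fun x θ => v i x θ + uu (a i) x θ) γ δ
          = AA (fun x θ => u₀ x θ + cst (a i)) γ δ := by
        refine AA_congr ((hSIv i).add (hSIuu (a i))) (hSIu₀.add (SI.const _ _ _)) hγ hδ ?_
        filter_upwards [hae4 (a i)] with q hq h
        simp only [hv]
        rw [hq h.2]; ring
      rw [e2, AA_add_left hSIu₀ (SI.const _ _ _) hγ hδ]
      congr 1
      unfold AA
      rw [← integral_const_mul]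
      congr 1; funext x
      rw [← intervalIntegral.integral_const_mul]
      congr 1; funext θ; ring
    rw [JJ_eq (hSIv i) hCSω hCSω2 hψ, JJ_eq (hSIuu (a i)) hCSω hCSω2 hψ, JJ_eq hSIu₀ hCSω hCSω2 hψ]
    rw [JJ_eq (SI.const 1 x₀ x₁) hCSω hCSω2 hψ] at hconst
    have h3 := e1 ω (deriv (deriv ψ)) hCSω hψ.cont2
    have h4 := e1 (deriv (deriv ω)) ψ hCSω2 hψ.cont
    have h5 : cst (a i) * (AA (fun _ _ => 1) ω (deriv (deriv ψ)) + AA (fun _ _ => 1) (deriv (deriv ω)) ψ) = 0 := by
      rw [hconst, mul_zero]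
    linarith
  -- means
  have hmean : ∀ i x, ∫ θ in (0)..(2 * Real.pi), v i x θ
      = 2 * Real.pi * Real.circleAverage (fun z => vv f (a i) z + cst (a i)) 0 (Real.exp x) := fun i x =>
    int_pt (fun z => vv f (a i) z + cst (a i)) x
  set V : ι → ℝ → ℝ := fun i θ => Tω⁻¹ * ∫ x, v i x θ * ω x with hV
  set M : (ℝ → ℝ) → ℝ := fun ψ => Tω⁻¹ * (JJ u₀ ω ψ + ∑ i, AA (v i) κ ψ) with hM
  have hTinv : 0 < Tω⁻¹ := inv_pos.2 hTω
  have hVint : ∀ i (δ : ℝ → ℝ), Continuous δ →
      ∫ θ in (0)..(2 * Real.pi), V i θ * δ θ = Tω⁻¹ * AA (v i) ω δ := by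
    intro i δ hδ
    rw [AA_swap (hSIv i) hCSω hδ, ← intervalIntegral.integral_const_mul]
    congr 1; funext θ
    simp only [hV]; ring
  refine ⟨V, M, ?_, ?_, ?_, ?_, ?_, ?_, ?_, ?_⟩
  · intro i θ
    simp only [hV, hv, pt_per _ θ]
  · intro i θ
    exact mul_nonneg hTinv.le (integral_nonneg fun x => mul_nonneg (hv0 i x θ) (hω0 x))
  · intro i
    exact (AA_ii (hSIv i) hCSω).const_mul _
  · -- PosFun M
    refine ⟨?_, ?_, ?_⟩
    · intro φ ψ hφ hψ
      simp only [hM]
      have e1 : JJ u₀ ω (fun θ => φ θ + ψ θ) = JJ u₀ ω φ + JJ u₀ ω ψ := by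
        rw [JJ_eq hSIu₀ hCSω hCSω2 (hφ.add hψ), JJ_eq hSIu₀ hCSω hCSω2 hφ, JJ_eq hSIu₀ hCSω hCSω2 hψ,
          AA_add_right hSIu₀ hCSω2 hφ.cont hψ.cont]
        have hd : deriv (deriv fun θ => φ θ + ψ θ) = fun θ => deriv (deriv φ) θ + deriv (deriv ψ) θ := by
          have hφ2 : ContDiff ℝ (1 + 1) φ := by simpa [one_add_one_eq_two] using hφ.1
          have hψ2 : ContDiff ℝ (1 + 1) ψ := by simpa [one_add_one_eq_two] using hψ.1
          have d1 : deriv (fun θ => φ θ + ψ θ) = fun θ => deriv φ θ + deriv ψ θ := by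
            funext θ
            exact deriv_fun_add ((hφ.1.differentiable (by norm_num)) θ) ((hψ.1.differentiable (by norm_num)) θ)
          rw [d1]
          funext θ
          exact deriv_fun_add (((contDiff_succ_iff_deriv.1 hφ2).2.2.differentiable (by norm_num)) θ)
            (((contDiff_succ_iff_deriv.1 hψ2).2.2.differentiable (by norm_num)) θ)
        rw [hd, AA_add_right hSIu₀ hCSω hφ.cont2 hψ.cont2]
        ring
      rw [e1]
      have e2 : ∑ i, AA (v i) κ (fun θ => φ θ + ψ θ) = ∑ i, AA (v i) κ φ + ∑ i, AA (v i) κ ψ := by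
        rw [← Finset.sum_add_distrib]
        exact Finset.sum_congr rfl fun i _ => AA_add_right (hSIv i) hCSκ hφ.cont hψ.cont
      rw [e2]; ring
    · intro c ψ hψ
      simp only [hM]
      have e1 : JJ u₀ ω (fun θ => c * ψ θ) = c * JJ u₀ ω ψ := by
        rw [JJ_eq hSIu₀ hCSω hCSω2 (hψ.smul c), JJ_eq hSIu₀ hCSω hCSω2 hψ, AA_smul_right]
        have hd : deriv (deriv fun θ => c * ψ θ) = fun θ => c * deriv (deriv ψ) θ := by
          have hψ2 : ContDiff ℝ (1 + 1) ψ := by simpa [one_add_one_eq_two] using hψ.1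
          have d1 : deriv (fun θ => c * ψ θ) = fun θ => c * deriv ψ θ := by
            funext θ
            exact deriv_const_mul c ((hψ.1.differentiable (by norm_num)) θ)
          rw [d1]
          funext θ
          exact deriv_const_mul c (((contDiff_succ_iff_deriv.1 hψ2).2.2.differentiable (by norm_num)) θ)
        rw [hd, AA_smul_right]
        ring
      rw [e1]
      have e2 : ∑ i, AA (v i) κ (fun θ => c * ψ θ) = c * ∑ i, AA (v i) κ ψ := by
        rw [Finset.mul_sum]
        exact Finset.sum_congr rfl fun i _ => AA_smul_right c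
      rw [e2]; ring
    · intro ψ hψ hψ0
      refine mul_nonneg hTinv.le (add_nonneg (hJ₀ ψ hψ hψ0) (Finset.sum_nonneg fun i _ => ?_))
      exact AA_nonneg (hv0 i) hκ0 hψ0
  · -- the mass
    have hone : Tst (fun _ => (1 : ℝ)) := Tst_const 1
    have hJ1 : JJ u₀ ω (fun _ => 1) = 2 * Real.pi * ∫ x, T x * deriv (deriv ω) x := by
      rw [JJ_eq hSIu₀ hCSω hCSω2 hone]
      have e1 : AA u₀ ω (deriv (deriv fun _ => (1 : ℝ))) = 0 := by
        have : deriv (deriv fun _ : ℝ => (1 : ℝ)) = fun _ => 0 := by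
          simp
        rw [this]
        unfold AA
        simp
      have hu₀' : SI (fun x θ => Real.posLog ‖f (pt x θ)‖ + Real.log ‖P (pt x θ)‖) x₀ x₁ :=
        (strip_posLog hf x₀ x₁ _ _).add (integrable_log hPm x₀ x₁ _ _)
      have e2 : AA u₀ (deriv (deriv ω)) (fun _ => 1)
          = AA (fun x θ => Real.posLog ‖f (pt x θ)‖ + Real.log ‖P (pt x θ)‖) (deriv (deriv ω)) (fun _ => 1) := by
        refine AA_congr hSIu₀ hu₀' hCSω2 continuous_const ?_
        filter_upwards [hae3] with q hq h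
        exact hq h.2
      have e3 : ∀ x, (∫ θ in (0)..(2 * Real.pi), (Real.posLog ‖f (pt x θ)‖ + Real.log ‖P (pt x θ)‖)
          * (deriv (deriv ω) x * 1)) = 2 * Real.pi * (T x * deriv (deriv ω) x)
            + 2 * Real.pi * c₀ * deriv (deriv ω) x := by
        intro x
        by_cases hx : x ∈ Icc α β
        · rw [intervalIntegral.integral_mul_const]
          have e4 : ∫ θ in (0)..(2 * Real.pi), (Real.posLog ‖f (pt x θ)‖ + Real.log ‖P (pt x θ)‖)
              = 2 * Real.pi * (T x + c₀) := by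
            rw [int_pt (fun z => Real.posLog ‖f z‖ + Real.log ‖P z‖) x]
            have h5 : CircleIntegrable (fun z => Real.posLog ‖f z‖) 0 (Real.exp x) :=
              hf.meromorphicOn.circleIntegrable_posLog_norm
            have h6 : CircleIntegrable (fun z => Real.log ‖P z‖) 0 (Real.exp x) :=
              hPm.meromorphicOn.circleIntegrable_log_norm
            have h7 := Real.circleAverage_add h5 h6
            have h8 : Real.circleAverage (fun z => Real.posLog ‖f z‖ + Real.log ‖P z‖) 0 (Real.exp x)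
                = Real.circleAverage (fun z => Real.posLog ‖f z‖) 0 (Real.exp x)
                  + Real.circleAverage (fun z => Real.log ‖P z‖) 0 (Real.exp x) := h7
            rw [h8, hc₀ (Real.exp x) (Real.exp_pos x) (Real.exp_lt_exp.2 (by linarith [hx.2]))]
            have h9 : T x = Real.circleAverage (fun z => Real.posLog ‖f z‖) 0 (Real.exp x)
                + logCounting f ⊤ (Real.exp x) := by
              simp only [hT]
              rw [characteristic, Pi.add_apply, proximity_top]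
            rw [h9]; ring
          rw [e4]; ring
        · rw [hz2 x hx]; simp
      rw [e1, e2, zero_add]
      unfold AA
      simp only [e3]
      rw [integral_add ((int_T hf hω2c hz2).const_mul _)
        (((hω2c.integrable_of_hasCompactSupport (HasCompactSupport.intro isCompact_Icc hz2))).const_mul _),
        integral_const_mul, integral_const_mul, int_deriv2_zero hω hsupp, mul_zero, add_zero]
    have hAA1 : ∀ i, AA (v i) κ (fun _ => 1) ≤ 2 * Real.pi * ∫ x, κ x * (T x + (C₁ + 2 * cst (a i))) := by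
      intro i
      unfold AA
      rw [← integral_const_mul]
      refine integral_mono (AA_ix (hSIv i) hCSκ continuous_const) ?_ fun x => ?_
      · refine Integrable.const_mul ?_ _
        have : (fun x => κ x * (T x + (C₁ + 2 * cst (a i))))
            = fun x => T x * κ x + (C₁ + 2 * cst (a i)) * κ x := by funext x; ring
        rw [this]
        exact (int_T hf hκc hκz).add ((hκc.integrable_of_hasCompactSupport
          (HasCompactSupport.intro isCompact_Icc hκz)).const_mul _)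
      · simp only
        rw [intervalIntegral.integral_mul_const, hmean, mul_one]
        by_cases hx : x ∈ Icc α β
        · have h3 := mean_vv_le hf (a i) (Real.exp x)
          have h4 := hC₁ i (Real.exp x) (Real.one_le_exp (by linarith [hx.1]))
          have h5 : Real.circleAverage (fun z => vv f (a i) z + cst (a i)) 0 (Real.exp x)
              ≤ T x + (C₁ + 2 * cst (a i)) := by simp only [hT]; linarith
          have h6 := mul_le_mul_of_nonneg_left h5 (mul_nonneg twopi_pos.le (hκ0 x))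
          linarith
        · rw [hκz x hx]; simp
    have hkey : ∫ x, T x * deriv (deriv ω) x = ρ ^ 2 * Tω + ∫ x, T x * (deriv (deriv ω) x - ρ ^ 2 * ω x) := by
      have h3 : (fun x => T x * (deriv (deriv ω) x - ρ ^ 2 * ω x))
          = fun x => T x * deriv (deriv ω) x - ρ ^ 2 * (T x * ω x) := by funext x; ring
      rw [h3, integral_sub (int_T hf hω2c hz2) ((int_T hf hω.continuous hsupp).const_mul _),
        integral_const_mul]
      ring
    have hκint : ∀ A B : ℝ, Integrable (fun x => κ x * (A * T x + B)) := by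
      intro A B
      have : (fun x => κ x * (A * T x + B)) = fun x => A * (T x * κ x) + B * κ x := by funext x; ring
      rw [this]
      exact ((int_T hf hκc hκz).const_mul _).add ((hκc.integrable_of_hasCompactSupport
          (HasCompactSupport.intro isCompact_Icc hκz)).const_mul _)
    have hT0 : ∀ x ∈ Icc α β, 0 ≤ T x := fun x hx =>
      characteristic_nonneg (Real.one_le_exp (by linarith [hx.1]))
    have habs : |∫ x, T x * (deriv (deriv ω) x - ρ ^ 2 * ω x)| ≤ ∫ x, κ x * (1 * T x + 0) := by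
      refine (abs_integral_le_integral_abs).trans ?_
      refine integral_mono_of_nonneg (Eventually.of_forall fun x => abs_nonneg _) (hκint 1 0)
        (Eventually.of_forall fun x => ?_)
      simp only
      by_cases hx : x ∈ Icc α β
      · rw [abs_mul, abs_of_nonneg (hT0 x hx)]
        simp only [hκ]
        linarith
      · rw [hz2 x hx, hsupp x hx, hκz x hx]; simp
    have hsum0 : 0 ≤ ∑ i, AA (v i) κ (fun _ => 1) := Finset.sum_nonneg fun i _ =>
      AA_nonneg (hv0 i) hκ0 (fun _ => zero_le_one)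
    have hsum1 : ∑ i, AA (v i) κ (fun _ => 1) ≤ 2 * Real.pi *
        ∫ x, κ x * ((Fintype.card ι : ℝ) * T x + ∑ i, (C₁ + 2 * cst (a i))) := by
      refine (Finset.sum_le_sum fun i _ => hAA1 i).trans ?_
      rw [← Finset.mul_sum, ← integral_finsetSum _ (fun i _ => by
        have := hκint 1 (C₁ + 2 * cst (a i))
        simpa only [one_mul] using this)]
      refine le_of_eq ?_
      congr 1
      congr 1
      funext x
      rw [← Finset.mul_sum, Finset.sum_add_distrib, Finset.sum_const, nsmul_eq_mul, Finset.card_univ]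
    have hM1 : M (fun _ => 1) - 2 * Real.pi * ρ ^ 2 = Tω⁻¹ * (2 * Real.pi *
        (∫ x, T x * (deriv (deriv ω) x - ρ ^ 2 * ω x)) + ∑ i, AA (v i) κ (fun _ => 1)) := by
      simp only [hM]
      rw [hJ1, hkey]
      have : Tω⁻¹ * Tω = 1 := inv_mul_cancel₀ hTω.ne'
      linear_combination (2 * Real.pi * ρ ^ 2) * this
    rw [hM1, abs_mul, abs_of_pos hTinv]
    refine mul_le_mul_of_nonneg_left ?_ hTinv.le
    have hsplit : ∫ x, κ x * ((1 + (Fintype.card ι : ℝ)) * T x + ∑ i, (C₁ + 2 * cst (a i)))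
        = (∫ x, κ x * (1 * T x + 0)) + ∫ x, κ x * ((Fintype.card ι : ℝ) * T x + ∑ i, (C₁ + 2 * cst (a i))) := by
      rw [← integral_add (hκint 1 0) (hκint _ _)]
      congr 1; funext x; ring
    rw [hsplit]
    refine (abs_add_le _ _).trans ?_
    rw [abs_mul, abs_of_pos twopi_pos, abs_of_nonneg hsum0, mul_add]
    have := mul_le_mul_of_nonneg_left habs twopi_pos.le
    linarith
  · -- the inequality
    intro i ψ hψ hψ0
    have hLL : Continuous (LL ρ ψ) := hψ.cont2.add (continuous_const.mul hψ.cont)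
    rw [hVint i _ hLL]
    refine mul_le_mul_of_nonneg_left ?_ hTinv.le
    have e1 : AA (v i) ω (LL ρ ψ) = AA (v i) ω (deriv (deriv ψ)) + ρ ^ 2 * AA (v i) ω ψ := by
      have hc : Continuous (fun θ => ρ ^ 2 * ψ θ) := continuous_const.mul hψ.cont
      have : LL ρ ψ = fun θ => deriv (deriv ψ) θ + ρ ^ 2 * ψ θ := rfl
      rw [this, AA_add_right (hSIv i) hCSω hψ.cont2 hc, AA_smul_right]
    have hCSρ : CS (fun x => ρ ^ 2 * ω x) x₀ x₁ :=
      ⟨continuous_const.mul hω.continuous, fun x hx => by simp only [hCSω.2 x hx, mul_zero]⟩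
    have hCSs : CS (fun x => deriv (deriv ω) x + κ x) x₀ x₁ :=
      ⟨hω2c.add hκc, fun x hx => by simp only [hCSω2.2 x hx, hCSκ.2 x hx, add_zero]⟩
    have e2 : ρ ^ 2 * AA (v i) ω ψ ≤ AA (v i) (deriv (deriv ω)) ψ + AA (v i) κ ψ := by
      rw [← AA_smul_mid, ← AA_add_mid (hSIv i) hCSω2 hCSκ hψ.cont]
      refine AA_mono_mid (hSIv i) (hv0 i) hCSρ hCSs (fun x => ?_) hψ.cont hψ0
      have := neg_abs_le (deriv (deriv ω) x - ρ ^ 2 * ω x)
      simp only [hκ]
      linarith
    have e3 := JJ_eq (hSIv i) hCSω hCSω2 hψ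
    have e4 := hrel i ψ hψ
    have e5 := hJu (a i) ψ hψ hψ0
    have e6 : AA (v i) κ ψ ≤ ∑ j, AA (v j) κ ψ :=
      Finset.single_le_sum (f := fun j => AA (v j) κ ψ)
        (fun j _ => AA_nonneg (hv0 j) hκ0 hψ0) (Finset.mem_univ i)
    linarith
  · -- lower bound for the sum of means
    intro D hD
    have e0 : ∀ i, ∫ θ in (0)..(2 * Real.pi), V i θ = Tω⁻¹ * AA (v i) ω (fun _ => 1) := by
      intro i
      rw [← hVint i _ continuous_const]
      simp only [mul_one]
    simp only [e0]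
    have e1 : ∑ i, (1 / (2 * Real.pi)) * (Tω⁻¹ * AA (v i) ω (fun _ => 1))
        = Tω⁻¹ * ∑ i, (1 / (2 * Real.pi)) * AA (v i) ω (fun _ => 1) := by
      rw [Finset.mul_sum]
      exact Finset.sum_congr rfl fun i _ => by ring
    rw [e1]
    have e2 : D * Tω ≤ ∑ i, (1 / (2 * Real.pi)) * AA (v i) ω (fun _ => 1) := by
      have e3 : ∑ i, (1 / (2 * Real.pi)) * AA (v i) ω (fun _ => 1)
          = ∫ x, ∑ i, (1 / (2 * Real.pi)) * ∫ θ in (0)..(2 * Real.pi), v i x θ * (ω x * 1) := by
        rw [integral_finsetSum _ (fun i _ => (AA_ix (hSIv i) hCSω continuous_const).const_mul _)]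
        exact Finset.sum_congr rfl fun i _ => by
          rw [integral_const_mul]; rfl
      rw [e3, hTωd, ← integral_const_mul]
      refine integral_mono ((int_T hf hω.continuous hsupp).const_mul _)
        (integrable_finsetSum _ fun i _ => (AA_ix (hSIv i) hCSω continuous_const).const_mul _) fun x => ?_
      simp only
      have e4 : ∀ i, (1 / (2 * Real.pi)) * ∫ θ in (0)..(2 * Real.pi), v i x θ * (ω x * 1)
          = ω x * Real.circleAverage (fun z => vv f (a i) z + cst (a i)) 0 (Real.exp x) := by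
        intro i
        rw [intervalIntegral.integral_mul_const, hmean, mul_one]
        have := twopi_pos.ne'
        field_simp
      simp only [e4]
      rw [← Finset.mul_sum]
      by_cases hx : x ∈ Icc α β
      · have h3 := hD x hx
        have h4 : ∑ i, proximity f (a i) (Real.exp x)
            ≤ ∑ i, Real.circleAverage (fun z => vv f (a i) z + cst (a i)) 0 (Real.exp x) :=
          Finset.sum_le_sum fun i _ => mean_vv_ge hf (a i) _
        have h5 := mul_le_mul_of_nonneg_left (h3.trans h4) (hω0 x)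
        simp only [hT]
        linarith
      · rw [hsupp x hx]; simp
    rw [inv_mul_eq_div, le_div_iff₀ hTω]
    exact e2
  · -- pointwise bound
    intro B hB i
    have hnear := ae_slice (G := fun x θ => near f (a i) (pt x θ)) (x₀ := x₀) (x₁ := x₁)
      (fun s t => strip_near hf (a i) x₀ x₁ s t)
    filter_upwards [hnear] with θ hθ
    simp only [hV]
    refine mul_le_mul_of_nonneg_left ?_ hTinv.le
    have hB0 : 0 ≤ B := (hω0 α).trans (hB α)
    have hsub : Icc α β ⊆ Ioo x₀ x₁ := fun x hx => ⟨by linarith [hx.1], by linarith [hx.2]⟩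
    have hint1 : IntegrableOn (fun x => near f (a i) (pt x θ)) (Icc α β) := hθ.mono_set hsub
    have hintc : IntegrableOn (fun _ : ℝ => 2 * cst (a i)) (Icc α β) :=
      continuous_const.integrableOn_Icc
    have hint2 : IntegrableOn (fun x => near f (a i) (pt x θ) + 2 * cst (a i)) (Icc α β) :=
      hint1.add hintc
    have hint3' : IntegrableOn (fun x => B * (near f (a i) (pt x θ) + 2 * cst (a i))) (Icc α β) :=
      Integrable.const_mul hint2 B
    have hint3 : Integrable ((Icc α β).indicator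
        (fun x => B * (near f (a i) (pt x θ) + 2 * cst (a i)))) :=
      hint3'.integrable_indicator measurableSet_Icc
    have hle : ∫ x, v i x θ * ω x ≤ ∫ x, (Icc α β).indicator
        (fun x => B * (near f (a i) (pt x θ) + 2 * cst (a i))) x := by
      refine integral_mono_of_nonneg (Eventually.of_forall fun x => mul_nonneg (hv0 i x θ) (hω0 x))
        hint3 (Eventually.of_forall fun x => ?_)
      simp only
      by_cases hx : x ∈ Icc α β
      · rw [indicator_of_mem hx]
        have h4 := vv_add_le f (a i) (pt x θ)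
        have h5 : v i x θ ≤ near f (a i) (pt x θ) + 2 * cst (a i) := h4
        calc v i x θ * ω x ≤ v i x θ * B := mul_le_mul_of_nonneg_left (hB x) (hv0 i x θ)
          _ ≤ (near f (a i) (pt x θ) + 2 * cst (a i)) * B := mul_le_mul_of_nonneg_right h5 hB0
          _ = _ := by ring
      · rw [indicator_of_notMem hx, hsupp x hx]; simp
    refine hle.trans (le_of_eq ?_)
    rw [integral_indicator measurableSet_Icc, integral_const_mul,
      intervalIntegral.integral_of_le hαβ, ← integral_Icc_eq_integral_Ioc,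
      integral_add hint1 hintc,
      setIntegral_const, Real.volume_real_Icc_of_le hαβ, smul_eq_mul]
    ring

end DW24
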