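import Pool.Agent.DW24.FinA
import Pool.Agent.DW24.WinData
import Pool.Agent.DW24.OneD
import Pool.Agent.DW24.Ae

/-!
The main theorem (locally radial separation of the deficient values).
-/

set_option autoImplicit false

open MeasureTheory Filter Topology Set ValueDistribution

namespace DW24

/-- The mean of `near f a` over the radial segment `e^k ≤ |z| ≤ e^(k+h)`, `arg z = θ`
(with respect to `d log |z|`), divided by the mean of the characteristic over the same radii. -/
noncomputable def Av (f : ℂ → ℂ) (a : WithTop ℂ) (h k : ℕ) (θ : ℝ) : ℝ :=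
  (∫ y in (k : ℝ)..(k + h), near f a (circleMap 0 (Real.exp y) θ)) /
    ∫ y in (k : ℝ)..(k + h), characteristic f ⊤ (Real.exp y)

/-- The values `a` and `b` are locally radially separated. -/
def Sep (f : ℂ → ℂ) (a b : WithTop ℂ) : Prop :=
  ∀ h : ℕ, 1 ≤ h → ∀ ε : ℝ, 0 < ε →
    Tendsto (fun k : ℕ => volume {θ : ℝ | θ ∈ Ioc 0 (2 * Real.pi) ∧ ε < min (Av f a h k θ) (Av f b h k θ)})
      atTop (𝓝 0)

theorem liminf_sum_le_of_sep {f : ℂ → ℂ} (hf : Meromorphic f) {ρ : ℝ} (hρ : 1 ≤ ρ)
    (hlow : liminf (fun r : ℝ => ((Real.log (characteristic f ⊤ r) / Real.log r : ℝ) : EReal)) atTop ≤ ρ)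
    (hupp : (ρ : EReal) ≤ limsup (fun r : ℝ => ((Real.log (characteristic f ⊤ r) / Real.log r : ℝ) : EReal)) atTop)
    {ι : Type*} [Fintype ι] (a : ι → WithTop ℂ)
    (hsep : ∀ i j, i ≠ j → Sep f (a i) (a j)) :
    liminf (fun r : ℝ => (((∑ i, proximity f (a i) r) / characteristic f ⊤ r : ℝ) : EReal)) atTop
      ≤ ((Lam ρ : ℝ) : EReal) := by
  classical
  have hρ0 : 0 < ρ := by linarith
  have hT := T_tendsto hf hρ0 hupp
  have hne := ne_codiscrete hf hT
  choose C₀ hC₀ hC using fun i => proximity_le hf (a i)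
  set C₁ := ∑ i, C₀ i with hC₁d
  have hC₁0 : 0 ≤ C₁ := Finset.sum_nonneg fun i _ => hC₀ i
  have hC₁ : ∀ i r, 1 ≤ r → proximity f (a i) r ≤ characteristic f ⊤ r + C₁ := by
    intro i r hr
    have h1 := hC i r hr
    have h2 := Finset.single_le_sum (f := C₀) (fun j _ => hC₀ j) (Finset.mem_univ i)
    linarith
  set cc : ℝ := ∑ i, cst (a i) with hcc
  have hcc0 : 0 ≤ cc := Finset.sum_nonneg fun i _ => cst_nonneg _
  have hcci : ∀ i, cst (a i) ≤ cc := fun i =>
    Finset.single_le_sum (f := fun i => cst (a i)) (fun j _ => cst_nonneg _) (Finset.mem_univ i)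
  have hη : ∀ n : ℕ, (0 : ℝ) < 1 / (n + 1) := fun n => by positivity
  choose L hL using fun n : ℕ => exists_windows_bdd hf hρ0 hlow hupp
    (1 + Fintype.card ι) (∑ i, (C₁ + 2 * cst (a i))) (by positivity)
    (Finset.sum_nonneg fun i _ => by have := cst_nonneg (a i); linarith) (1 / (n + 1)) (hη n)
  -- constants
  set G : ℕ → ℝ := fun n => 2 * Real.exp (ρ * L n) with hG
  have hG0 : ∀ n, 0 < G n := fun n => by positivity
  set ε : ℕ → ℝ := fun n => 1 / (n + 1) / (2 * G n) with hε
  have hε0 : ∀ n, 0 < ε n := fun n => by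
    have := hG0 n
    have := hη n
    simp only [hε]; positivity
  have hX : ∀ n : ℕ, ∃ X : ℕ, ∀ k : ℕ, X ≤ k →
      (∀ i j, i ≠ j → ∀ h : ℕ, 1 ≤ h → h ≤ L n →
        volume {θ : ℝ | θ ∈ Ioc 0 (2 * Real.pi) ∧ ε n < min (Av f (a i) h k θ) (Av f (a j) h k θ)}
          ≤ ENNReal.ofReal ((1 / 2) ^ n)) ∧
      max 1 (2 * cc / (1 / (n + 1) / (2 * G n))) ≤ characteristic f ⊤ (Real.exp k) := by
    intro n
    have e1 : ∀ᶠ k : ℕ in atTop, ∀ i j, i ≠ j → ∀ h : ℕ, 1 ≤ h → h ≤ L n →
        volume {θ : ℝ | θ ∈ Ioc 0 (2 * Real.pi) ∧ ε n < min (Av f (a i) h k θ) (Av f (a j) h k θ)}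
          ≤ ENNReal.ofReal ((1 / 2) ^ n) := by
      rw [eventually_all]; intro i
      rw [eventually_all]; intro j
      by_cases hij : i = j
      · exact Eventually.of_forall fun k h => absurd hij h
      have e2 : ∀ᶠ k : ℕ in atTop, ∀ h ∈ Finset.Icc 1 (L n),
          volume {θ : ℝ | θ ∈ Ioc 0 (2 * Real.pi) ∧ ε n < min (Av f (a i) h k θ) (Av f (a j) h k θ)}
          ≤ ENNReal.ofReal ((1 / 2) ^ n) := by
        rw [Filter.eventually_all_finset]
        intro h hh
        have h3 := hsep i j hij h (Finset.mem_Icc.1 hh).1 (ε n) (hε0 n)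
        have h4 : (0 : ENNReal) < ENNReal.ofReal ((1 / 2) ^ n) := ENNReal.ofReal_pos.2 (by positivity)
        exact (h3.eventually_lt_const h4).mono fun k hk => hk.le
      filter_upwards [e2] with k hk _ h h1 h2
      exact hk h (Finset.mem_Icc.2 ⟨h1, h2⟩)
    have e2 : ∀ᶠ k : ℕ in atTop, max 1 (2 * cc / (1 / (n + 1) / (2 * G n))) ≤ characteristic f ⊤ (Real.exp k) :=
      (hT.comp (Real.tendsto_exp_atTop.comp tendsto_natCast_atTop_atTop)).eventually_ge_atTop _
    obtain ⟨X, hX⟩ := eventually_atTop.1 (e1.and e2)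
    exact ⟨X, fun k hk => hX k hk⟩
  choose X hX using hX
  choose k m ω hk hm1 hmL hω hω0 hωle hsupp hTω hη2 hwin using fun n : ℕ => hL n (max (X n) n : ℕ)
  have hkX : ∀ n, X n ≤ k n := fun n => by
    have h1 : (max (X n) n : ℕ) ≤ k n := by exact_mod_cast hk n
    exact (le_max_left _ _).trans h1
  have hkn : ∀ n, n ≤ k n := fun n => by
    have h1 : (max (X n) n : ℕ) ≤ k n := by exact_mod_cast hk n
    exact (le_max_right _ _).trans h1
  have hkt : Tendsto (fun n => (k n : ℝ)) atTop atTop :=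
    tendsto_natCast_atTop_atTop.comp (tendsto_atTop_mono hkn tendsto_id)
  choose V M h1 h2 h3 h4 h5 h6 h7 h8 using fun n =>
    window_data hf hne a ρ (hω n) (hω0 n) (α := (k n : ℝ)) (β := k n + m n) (Nat.cast_nonneg _)
      (by linarith [(Nat.cast_nonneg (m n) : (0 : ℝ) ≤ (m n : ℝ))]) (hsupp n) (hTω n) hC₁
  have hηt : Tendsto (fun n : ℕ => (1 : ℝ) / (n + 1)) atTop (𝓝 0) := tendsto_one_div_add_atTop_nhds_zero_nat
  have hM1 : Tendsto (fun n => M n (fun _ => 1)) atTop (𝓝 (2 * Real.pi * ρ ^ 2)) := by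
    rw [tendsto_iff_dist_tendsto_zero]
    exact squeeze_zero (fun n => dist_nonneg) (fun n => by
      rw [Real.dist_eq]; exact (h5 n).trans (hη2 n)) hηt
  -- the pointwise bound of V by Av
  have hmono := mono_T hf
  have key : ∀ n i, ∀ᵐ θ : ℝ, V n i θ ≤ G n * Av f (a i) (m n) (k n) θ + 1 / (n + 1) / 2 := by
    intro n i
    have hkk : (0 : ℝ) ≤ k n := Nat.cast_nonneg _
    have hmm : (1 : ℝ) ≤ m n := by exact_mod_cast hm1 n
    have hb := h8 n (Real.exp (-ρ * k n)) (fun x => by
      by_cases hx : x ∈ Icc (k n : ℝ) (k n + m n)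
      · refine (hωle n x).trans (Real.exp_le_exp.2 ?_)
        have := mul_le_mul_of_nonneg_left hx.1 hρ0.le
        linarith
      · rw [hsupp n x hx]; positivity) i
    filter_upwards [hb] with θ hθ
    refine hθ.trans ?_
    obtain ⟨-, hTk⟩ := hX n (k n) (hkX n)
    have hTk1 : (1 : ℝ) ≤ characteristic f ⊤ (Real.exp (k n)) := (le_max_left _ _).trans hTk
    have hTk2 : 2 * cc / (1 / (n + 1) / (2 * G n)) ≤ characteristic f ⊤ (Real.exp (k n)) :=
      (le_max_right _ _).trans hTk
    set I : ℝ := ∫ y in (k n : ℝ)..(k n + m n), characteristic f ⊤ (Real.exp y) with hI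
    have hII : ∀ u v : ℝ, IntervalIntegrable (fun y => characteristic f ⊤ (Real.exp y)) volume u v :=
      fun u v => hmono.intervalIntegrable
    have hI1 : (m n : ℝ) * characteristic f ⊤ (Real.exp (k n)) ≤ I := by
      have e1 : ∫ y in (k n : ℝ)..(k n + m n), characteristic f ⊤ (Real.exp (k n))
          = (m n : ℝ) * characteristic f ⊤ (Real.exp (k n)) := by
        rw [intervalIntegral.integral_const, smul_eq_mul]; ring
      rw [← e1]
      exact intervalIntegral.integral_mono_on (by linarith) intervalIntegrable_const (hII _ _)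
        (fun y hy => hmono hy.1)
    have hIpos : 0 < I := lt_of_lt_of_le (by positivity) hI1
    set Tω : ℝ := ∫ x, characteristic f ⊤ (Real.exp x) * ω n x with hTωd
    have hTωn : 0 < Tω := hTω n
    have hlow2 : Real.exp (-ρ * (k n + m n)) * I ≤ 2 * Tω := by
      refine le_trans ?_ (hwin n)
      rw [hI, ← intervalIntegral.integral_const_mul]
      refine intervalIntegral.integral_mono_on (by linarith) ((hII _ _).const_mul _) ?_ (fun y hy => ?_)
      · refine (hII _ _).mul_continuousOn ?_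
        exact (Real.continuous_exp.comp (continuous_const.mul continuous_id)).continuousOn
      · rw [mul_comm]
        refine mul_le_mul_of_nonneg_left (Real.exp_le_exp.2 ?_) ?_
        · have := mul_le_mul_of_nonneg_left hy.2 hρ0.le
          linarith
        · exact characteristic_nonneg (Real.one_le_exp (hkk.trans hy.1))
    -- T ω ⁻¹ * e^{-ρ k} ≤ G / I
    have hkey : Tω⁻¹ * Real.exp (-ρ * k n) ≤ G n / I := by
      rw [inv_mul_eq_div, div_le_div_iff₀ hTωn hIpos]
      have e1 : Real.exp (-ρ * k n) = Real.exp (ρ * m n) * Real.exp (-ρ * (k n + m n)) := by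
        rw [← Real.exp_add]; congr 1; ring
      have e2 : Real.exp (ρ * m n) ≤ Real.exp (ρ * L n) := Real.exp_le_exp.2
        (mul_le_mul_of_nonneg_left (by exact_mod_cast hmL n) hρ0.le)
      calc Real.exp (-ρ * k n) * I = Real.exp (ρ * m n) * (Real.exp (-ρ * (k n + m n)) * I) := by
            rw [e1]; ring
        _ ≤ Real.exp (ρ * L n) * (2 * Tω) :=
            mul_le_mul e2 hlow2 (by positivity) (by positivity)
        _ = G n * Tω := by simp only [hG]; ring
    have hnn : 0 ≤ ∫ y in (k n : ℝ)..(k n + m n), near f (a i) (circleMap 0 (Real.exp y) θ) :=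
      intervalIntegral.integral_nonneg (by linarith) fun y _ => near_nonneg f (a i) _
    have hptc : ∫ x in (k n : ℝ)..(k n + m n), near f (a i) (pt x θ)
        = ∫ y in (k n : ℝ)..(k n + m n), near f (a i) (circleMap 0 (Real.exp y) θ) := by
      simp only [pt_eq]
    rw [hptc, ← mul_assoc, add_sub_cancel_left]
    have hcst : 0 ≤ 2 * cst (a i) * (m n : ℝ) := by
      have := cst_nonneg (a i)
      positivity
    calc Tω⁻¹ * Real.exp (-ρ * k n) * ((∫ y in (k n : ℝ)..(k n + m n),
            near f (a i) (circleMap 0 (Real.exp y) θ)) + 2 * cst (a i) * (m n : ℝ))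
        ≤ G n / I * ((∫ y in (k n : ℝ)..(k n + m n),
            near f (a i) (circleMap 0 (Real.exp y) θ)) + 2 * cst (a i) * (m n : ℝ)) :=
          mul_le_mul_of_nonneg_right hkey (add_nonneg hnn hcst)
      _ = G n * Av f (a i) (m n) (k n) θ + G n * (2 * cst (a i) * m n / I) := by
          unfold Av
          rw [← hI]; ring
      _ ≤ _ := by
          refine add_le_add le_rfl ?_
          have e1 : 2 * cst (a i) * m n / I ≤ 1 / (n + 1) / (2 * G n) := by
            rw [div_le_iff₀ hIpos]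
            rw [div_le_iff₀ (hε0 n)] at hTk2
            have e2 : 2 * cst (a i) * (m n : ℝ) ≤ 2 * cc * m n := by
              have := hcci i
              have := mul_le_mul_of_nonneg_right this (by linarith : (0 : ℝ) ≤ m n)
              linarith
            have e3 := mul_le_mul_of_nonneg_right hTk2 (by linarith : (0 : ℝ) ≤ m n)
            have e4 := mul_le_mul_of_nonneg_left hI1 (hε0 n).le
            simp only [hε] at e4
            linarith
          have e2 := mul_le_mul_of_nonneg_left e1 (hG0 n).le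
          refine e2.trans (le_of_eq ?_)
          have := (hG0 n).ne'
          field_simp
  have hd : ∀ i j, i ≠ j → ∀ᵐ θ : ℝ, Tendsto (fun n => min (V n i θ) (V n j θ)) atTop (𝓝 0) := by
    intro i j hij
    refine ae_tendsto_of_small (g := fun n θ => min (V n i θ) (V n j θ)) (fun n θ => ?_)
      (fun n θ => le_min (h2 n i θ) (h2 n j θ)) (fun n => 1 / ((n : ℝ) + 1)) hηt (fun n => ?_)
    · simp only [h1 n i θ, h1 n j θ]
    · have e1 := (hX n (k n) (hkX n)).1 i j hij (m n) (hm1 n) (hmL n)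
      refine le_trans (measure_mono_ae ?_) e1
      filter_upwards [key n i, key n j] with θ hi hj hmem
      refine ⟨hmem.1, ?_⟩
      have e2 : 1 / ((n : ℝ) + 1) < min (V n i θ) (V n j θ) := hmem.2
      have e3 : ε n * (2 * G n) = 1 / ((n : ℝ) + 1) := by
        simp only [hε]
        have := (hG0 n).ne'
        field_simp
      refine lt_min ?_ ?_
      · have e4 : 1 / ((n : ℝ) + 1) < G n * Av f (a i) (m n) (k n) θ + 1 / (n + 1) / 2 :=
          (e2.trans_le (min_le_left _ _)).trans_le hi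
        have e5 : G n * ε n < G n * Av f (a i) (m n) (k n) θ := by linarith
        exact lt_of_mul_lt_mul_left e5 (hG0 n).le
      · have e4 : 1 / ((n : ℝ) + 1) < G n * Av f (a j) (m n) (k n) θ + 1 / (n + 1) / 2 :=
          (e2.trans_le (min_le_right _ _)).trans_le hj
        have e5 : G n * ε n < G n * Av f (a j) (m n) (k n) θ := by linarith
        exact lt_of_mul_lt_mul_left e5 (hG0 n).le
  obtain ⟨F, W, M', hF, hFne, w1, w2, w3, w4, w5, w6, w7, w8⟩ :=
    limitExtract_min hρ V h1 h2 h3 M h4 hM1 h6 hd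
  have hone := oneD W w1 w2 w3 w4 hρ w5 w6 w7
  refine EReal.ge_of_forall_gt_iff_ge.1 fun D hD => ?_
  have e1 : ∀ᶠ r in atTop, ((D : ℝ) : EReal) < (((∑ i, proximity f (a i) r) / characteristic f ⊤ r : ℝ) : EReal) :=
    eventually_lt_of_lt_liminf hD
  have e2 : ∀ᶠ r in atTop, D * characteristic f ⊤ r ≤ ∑ i, proximity f (a i) r := by
    filter_upwards [e1, hT.eventually_gt_atTop 0] with r hr hr2
    rw [EReal.coe_lt_coe_iff, lt_div_iff₀ hr2] at hr
    exact hr.le
  obtain ⟨r₀, hr₀⟩ := eventually_atTop.1 e2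
  have e3 : ∀ᶠ n in atTop, D ≤ ∑ i, (1 / (2 * Real.pi)) * ∫ θ in (0)..(2 * Real.pi), V n i θ := by
    filter_upwards [hkt.eventually_ge_atTop (Real.log (max 1 r₀))] with n hn
    refine h7 n D fun x hx => hr₀ _ ?_
    have e5 : Real.log (max 1 r₀) ≤ x := hn.trans hx.1
    have e6 : max 1 r₀ ≤ Real.exp x := (Real.log_le_iff_le_exp (by positivity)).1 e5
    exact (le_max_right _ _).trans e6
  have e4 : Tendsto (fun n => ∑ i, (1 / (2 * Real.pi)) * ∫ θ in (0)..(2 * Real.pi), V n i θ) F
      (𝓝 (∑ i, (1 / (2 * Real.pi)) * ∫ θ in (0)..(2 * Real.pi), W i θ)) :=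
    tendsto_finsetSum _ fun i _ => w8 i
  have e5 : D ≤ ∑ i, (1 / (2 * Real.pi)) * ∫ θ in (0)..(2 * Real.pi), W i θ :=
    ge_of_tendsto e4 (hF e3)
  exact EReal.coe_le_coe_iff.2 (e5.trans hone)

end DW24
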