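import Pool.Agent.DW24.PhiS
import Pool.Agent.DW24.CoreS
import Pool.Agent.DW24.A1S
import Pool.Agent.DW24.A2
import Pool.Agent.DW24.OneD

/-!
The one-dimensional extremal problem for the spiral operator.
-/

set_option autoImplicit false

open MeasureTheory Filter Topology Set

namespace DW24

/-- The ε-version, assuming a common zero. -/
theorem oneDS_eps {ι : Type*} [Fintype ι] [Nonempty ι] (V : ι → ℝ → ℝ)
    (hc : ∀ i, Continuous (V i)) (hp : ∀ i, Function.Periodic (V i) (2 * Real.pi))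
    (h0 : ∀ i θ, 0 ≤ V i θ) (hd : ∀ i j, i ≠ j → ∀ θ, V i θ * V j θ = 0)
    {ρ s : ℝ} (hρ : 1 ≤ ρ) {M : (ℝ → ℝ) → ℝ} (hM : PosFun M)
    (h1 : M (fun _ => 1) = 2 * Real.pi * ρ ^ 2)
    (hV : ∀ i ψ, Tst ψ → (∀ θ, 0 ≤ ψ θ) →
      ∫ θ in (0)..(2 * Real.pi), V i θ * LS s ρ ψ θ ≤ M ψ)
    {z : ℝ} (hz : ∀ i, V i z = 0) {ε : ℝ} (hε : 0 < ε) :
    ∑ i, ∫ θ in (0)..(2 * Real.pi), V i θ
      ≤ 2 * Real.pi * Lam ρ + (1 + Fintype.card ι) * (2 * Real.pi * ε) := by
  classical
  obtain ⟨n, t, a, hn, ht, htn, hzero, hsmall, hlab⟩ := partition V hc hp h0 hd hz hε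
  have hpi : (0 : ℝ) < 2 * Real.pi := by positivity
  have hρ2 : 0 < ρ ^ 2 := by positivity
  have hLam := Lam_ge_one hρ
  have htlt : ∀ i j, i < j → j ≤ n → t i < t j := by
    intro i j hij hj
    induction j with
    | zero => omega
    | succ j ih =>
      rcases Nat.lt_succ_iff_lt_or_eq.1 hij with h | h
      · exact (ih h (by omega)).trans (ht j (by omega))
      · rw [h]; exact ht j (by omega)
  have htle : ∀ i j, i ≤ j → j ≤ n → t i ≤ t j := by
    intro i j hij hj
    rcases Nat.eq_or_lt_of_le hij with h | h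
    · rw [h]
    · exact (htlt i j h hj).le
  have hii : ∀ i x y, IntervalIntegrable (V i) volume x y := fun i x y => (hc i).intervalIntegrable x y
  have hlen : ∑ k ∈ Finset.range n, (t (k + 1) - t k) = 2 * Real.pi := by
    rw [Finset.sum_range_sub, htn]; ring
  -- decomposition of the integrals
  have hsplit : ∀ i, ∫ θ in (0)..(2 * Real.pi), V i θ
      = ∑ k ∈ Finset.range n, ∫ θ in (t k)..(t (k + 1)), V i θ := by
    intro i
    have e1 : ∫ θ in (0)..(2 * Real.pi), V i θ = ∫ θ in (t 0)..(t 0 + 2 * Real.pi), V i θ := by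
      have := (hp i).intervalIntegral_add_eq 0 (t 0)
      simpa using this
    rw [e1, ← htn]
    exact (intervalIntegral.sum_integral_adjacent_intervals fun k _ => hii i _ _).symm
  set X : ℝ := ∑ k ∈ Finset.range n, ∫ θ in (t k)..(t (k + 1)), V (a k) θ with hX
  have hblock : ∀ k < n, ∑ i, ∫ θ in (t k)..(t (k + 1)), V i θ
      ≤ (∫ θ in (t k)..(t (k + 1)), V (a k) θ) + Fintype.card ι * (ε * (t (k + 1) - t k)) := by
    intro k hk
    have hlk : 0 ≤ ε * (t (k + 1) - t k) := mul_nonneg hε.le (by linarith [ht k hk])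
    rw [← Finset.add_sum_erase _ _ (Finset.mem_univ (a k))]
    have hothers : ∑ i ∈ Finset.univ.erase (a k), ∫ θ in (t k)..(t (k + 1)), V i θ
        ≤ ∑ i ∈ Finset.univ.erase (a k), ε * (t (k + 1) - t k) := by
      refine Finset.sum_le_sum fun i hi => ?_
      have hia := (Finset.mem_erase.1 hi).1
      calc ∫ θ in (t k)..(t (k + 1)), V i θ ≤ ∫ θ in (t k)..(t (k + 1)), ε :=
            intervalIntegral.integral_mono_on (ht k hk).le (hii i _ _) (by simp)
              (fun θ hθ => hsmall k hk i hia θ hθ)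
        _ = ε * (t (k + 1) - t k) := by rw [intervalIntegral.integral_const, smul_eq_mul]; ring
    have hcard : ∑ i ∈ (Finset.univ : Finset ι).erase (a k), ε * (t (k + 1) - t k)
        ≤ Fintype.card ι * (ε * (t (k + 1) - t k)) := by
      rw [Finset.sum_const, nsmul_eq_mul]
      refine mul_le_mul_of_nonneg_right ?_ hlk
      have := Finset.card_erase_le (s := (Finset.univ : Finset ι)) (a := a k)
      exact_mod_cast this
    linarith
  have htotal : ∑ i, ∫ θ in (0)..(2 * Real.pi), V i θ ≤ X + Fintype.card ι * (2 * Real.pi * ε) := by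
    calc ∑ i, ∫ θ in (0)..(2 * Real.pi), V i θ
        = ∑ i, ∑ k ∈ Finset.range n, ∫ θ in (t k)..(t (k + 1)), V i θ :=
          Finset.sum_congr rfl fun i _ => hsplit i
      _ = ∑ k ∈ Finset.range n, ∑ i, ∫ θ in (t k)..(t (k + 1)), V i θ := Finset.sum_comm
      _ ≤ ∑ k ∈ Finset.range n, ((∫ θ in (t k)..(t (k + 1)), V (a k) θ)
            + Fintype.card ι * (ε * (t (k + 1) - t k))) :=
          Finset.sum_le_sum fun k hk => hblock k (Finset.mem_range.1 hk)
      _ = X + Fintype.card ι * (2 * Real.pi * ε) := by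
          rw [Finset.sum_add_distrib, ← hX, ← Finset.mul_sum, ← Finset.mul_sum, hlen]
          ring
  -- it suffices to bound X
  suffices hXb : X ≤ 2 * Real.pi * Lam ρ + 2 * Real.pi * ε by
    calc _ ≤ X + Fintype.card ι * (2 * Real.pi * ε) := htotal
      _ ≤ _ := by linarith
  rcases Nat.eq_or_lt_of_le hn with hn1 | hn2
  · -- a single block
    have hX1 : X = ∫ θ in (0)..(2 * Real.pi), V (a 0) θ := by
      rw [hX, hsplit (a 0), ← hn1]; simp
    have h2 := hV (a 0) (fun _ => 1) (Tst.cst 1) (fun _ => zero_le_one)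
    have h3 : ∀ θ, V (a 0) θ * LS s ρ (fun _ => 1) θ = ρ ^ 2 * V (a 0) θ := by
      intro θ; unfold LS; simp; ring
    simp only [h3] at h2
    rw [intervalIntegral.integral_const_mul, ← hX1, h1] at h2
    have h4 : X ≤ 2 * Real.pi := by
      have : ρ ^ 2 * X ≤ ρ ^ 2 * (2 * Real.pi) := by linarith
      exact le_of_mul_le_mul_left this hρ2
    nlinarith
  · -- at least two blocks
    have hR : ∀ k < n, ∀ ψ, Tst ψ → (∀ θ, 0 ≤ ψ θ) →
        ∫ θ in (t k)..(t (k + 1)), V (a k) θ * LS s ρ ψ θ ≤ M ψ := by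
      intro k hk ψ hψ hψ0
      refine restrS (hc _) (hp _) (h0 _) hM (hV (a k)) (ht k hk) ?_ (hzero k hk.le _)
        (hzero (k + 1) hk _) ψ hψ hψ0
      have e1 : t (k + 1) ≤ t n := htle _ _ hk le_rfl
      have e2 : t 0 ≤ t k := htle _ _ (Nat.zero_le _) hk.le
      rw [htn] at e1; linarith
    by_cases hint : ∃ m : ℕ, 2 * ρ = m
    · obtain ⟨m, hm⟩ := hint
      have hL2 := Lam_of_int hm
      have hcore := coreS (V := fun k => V (a k)) hM h1 hn2 ht htn hR (C := 1) one_pos
        (Φ := fun _ => 0) contDiff_const (fun _ => by simp) (fun _ => by simp)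
      have e1 : ∀ (k : ℕ) (θ : ℝ), V (a k) θ * (ρ ^ 2 * 1 + (-1) ^ k * LS s ρ (fun _ => (0 : ℝ)) θ)
          = ρ ^ 2 * V (a k) θ := by
        intro k θ; unfold LS; simp; ring
      simp only [e1] at hcore
      have e2 : ∑ k ∈ Finset.range n, ∫ θ in (t k)..(t (k + 1)), ρ ^ 2 * V (a k) θ = ρ ^ 2 * X := by
        rw [hX, Finset.mul_sum]
        exact Finset.sum_congr rfl fun k _ => intervalIntegral.integral_const_mul _ _
      rw [e2] at hcore
      have h4 : X ≤ 4 * Real.pi := by
        have : ρ ^ 2 * X ≤ ρ ^ 2 * (4 * Real.pi) := by linarith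
        exact le_of_mul_le_mul_left this hρ2
      nlinarith
    · push Not at hint
      obtain ⟨C, hC1, hC2, hPhi⟩ := exists_PhiS hρ hint
      have hC0 : 0 < C := lt_of_lt_of_le (by positivity) hC1
      -- a small width
      obtain ⟨w, hw, hws⟩ : ∃ w : ℝ, 0 < w ∧ ∀ k ≤ n, ∀ i θ, |θ - t k| ≤ 2 * w → V i θ ≤ ε := by
        have h5 : ∀ k, ∀ i, ∃ w : ℝ, 0 < w ∧ (k ≤ n → ∀ θ, |θ - t k| ≤ 2 * w → V i θ ≤ ε) := by
          intro k i
          by_cases hk : k ≤ n
          · have hcat : ContinuousAt (V i) (t k) := (hc i).continuousAt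
            obtain ⟨d, hd0, hd1⟩ := Metric.continuousAt_iff.1 hcat ε hε
            refine ⟨d / 4, by linarith, fun _ θ hθ => ?_⟩
            have h6 := hd1 (x := θ) (by rw [Real.dist_eq]; linarith)
            rw [Real.dist_eq, hzero k hk i, sub_zero] at h6
            exact (le_abs_self _).trans h6.le
          · exact ⟨1, one_pos, fun h => absurd h hk⟩
        choose w hw0 hw1 using h5
        obtain ⟨p₀, hp₀, hmin⟩ := Finset.exists_min_image
          (Finset.range (n + 1) ×ˢ (Finset.univ : Finset ι)) (fun p => w p.1 p.2)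
          ⟨(0, a 0), Finset.mem_product.2 ⟨Finset.mem_range.2 (by omega), Finset.mem_univ _⟩⟩
        refine ⟨w p₀.1 p₀.2, hw0 _ _, fun k hk i θ hθ => hw1 k i hk θ (hθ.trans ?_)⟩
        have := hmin (k, i) (Finset.mem_product.2 ⟨Finset.mem_range.2 (by omega), Finset.mem_univ _⟩)
        linarith
      -- the trapezoids
      have hτ : ∀ k, ∃ τ : ℝ → ℝ, ContDiff ℝ 2 τ ∧ (∀ θ, 0 ≤ τ θ) ∧ (∀ θ, τ θ ≤ 1) ∧
          (∀ θ ∈ Icc (t k + 2 * w) (t (k + 1) - 2 * w), τ θ = 1) ∧
          (∀ θ, θ ∉ Ioo (t k + w) (t (k + 1) - w) → τ θ = 0) := by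
        intro k
        obtain ⟨τ, a1, a2, a3, a4, a5⟩ := exists_cutoff (t k + 2 * w) (t (k + 1) - 2 * w) hw
        refine ⟨τ, a1, a2, a3, a4, fun θ hθ => a5 θ fun h => hθ ⟨by linarith [h.1], by linarith [h.2]⟩⟩
      choose τ hτ2 hτ0 hτ1 hτI hτO using hτ
      set e₀ : ℝ → ℝ := fun θ => ∑ k ∈ Finset.range n, (-1) ^ k * τ k θ with he₀
      have he₀c : ContDiff ℝ 2 e₀ := ContDiff.sum fun k _ => contDiff_const.mul (hτ2 k)
      have he₀I : ∀ k < n, ∀ θ ∈ Icc (t k) (t (k + 1)), e₀ θ = (-1) ^ k * τ k θ := by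
        intro k hk θ hθ
        simp only [he₀]
        refine Finset.sum_eq_single_of_mem k (Finset.mem_range.2 hk) fun j hj hjk => ?_
        rw [hτO j θ, mul_zero]
        intro h
        rcases Nat.lt_or_gt_of_ne hjk with h' | h'
        · have := htle (j + 1) k h' hk.le
          linarith [h.2, hθ.1]
        · have := htle (k + 1) j h' (Finset.mem_range.1 hj).le
          linarith [h.1, hθ.2]
      obtain ⟨e, hec, hep, heI⟩ := ext_periodic (c := t 0) (δ := w) he₀c hw (by
        intro θ hθ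
        simp only [he₀]
        refine Finset.sum_eq_zero fun k hk => ?_
        rw [hτO k θ, mul_zero]
        intro h
        have hk' := Finset.mem_range.1 hk
        have e1 := htle 0 k (Nat.zero_le _) hk'.le
        have e2 := htle (k + 1) n hk' le_rfl
        rw [htn] at e2
        exact hθ ⟨by linarith [h.1], by linarith [h.2]⟩) (neg_one_pow_eq_or ℝ n)
      -- values of e
      have hblk : ∀ θ ∈ Ico (t 0) (t 0 + 2 * Real.pi), ∃ j < n, θ ∈ Icc (t j) (t (j + 1)) := by
        intro θ hθ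
        have hex : ∃ m, θ < t m := ⟨n, by rw [htn]; exact hθ.2⟩
        set m := Nat.find hex with hm
        have hm1 : θ < t m := Nat.find_spec hex
        have hm0 : m ≠ 0 := by
          intro h
          rw [h] at hm1
          linarith [hθ.1]
        have hmn : m ≤ n := Nat.find_min' hex (by rw [htn]; exact hθ.2)
        have hm2 := Nat.find_min hex (m := m - 1) (by omega)
        refine ⟨m - 1, by omega, not_lt.1 hm2, ?_⟩
        rw [Nat.sub_add_cancel (by omega)]
        exact hm1.le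
      have he1 : ∀ θ, |e θ| ≤ 1 := by
        have hper : Function.Periodic (fun θ => |e θ|) (2 * Real.pi) := by
          intro θ
          simp only [hep, abs_mul, abs_pow, abs_neg, abs_one, one_pow, one_mul]
        intro θ₀
        obtain ⟨θ, hθ, hθe⟩ := hper.exists_mem_Ico hpi θ₀ (t 0)
        rw [hθe]
        obtain ⟨j, hj, hjI⟩ := hblk θ hθ
        rw [heI θ ⟨hθ.1, hθ.2.le⟩, he₀I j hj θ hjI, abs_mul, abs_pow, abs_neg, abs_one, one_pow,
          one_mul, abs_of_nonneg (hτ0 j θ)]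
        exact hτ1 j θ
      obtain ⟨Φ, hΦ2, hΦp, hΦC, hΦe⟩ := hPhi s n e hec.continuous he1 hep
      have hcore := coreS (V := fun k => V (a k)) hM h1 hn2 ht htn hR hC0 hΦ2 hΦp hΦC
      have hlow : ∀ k < n, (ρ ^ 2 * C + 1) * (∫ θ in (t k)..(t (k + 1)), V (a k) θ) - ε * (t (k + 1) - t k)
          ≤ ∫ θ in (t k)..(t (k + 1)), V (a k) θ * (ρ ^ 2 * C + (-1) ^ k * LS s ρ Φ θ) := by
        intro k hk
        have e1 : (ρ ^ 2 * C + 1) * (∫ θ in (t k)..(t (k + 1)), V (a k) θ) - ε * (t (k + 1) - t k)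
            = ∫ θ in (t k)..(t (k + 1)), ((ρ ^ 2 * C + 1) * V (a k) θ - ε) := by
          rw [intervalIntegral.integral_sub (((hii (a k) _ _)).const_mul _) (by simp),
            intervalIntegral.integral_const_mul, intervalIntegral.integral_const, smul_eq_mul]
          ring
        rw [e1]
        have hLc : Continuous (LS s ρ Φ) := by
          have : LS s ρ Φ = e := funext hΦe
          rw [this]; exact hec.continuous
        refine intervalIntegral.integral_mono_on (ht k hk).le
          (((continuous_const.mul (hc (a k))).sub continuous_const).intervalIntegrable _ _)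
          (((hc (a k)).mul (continuous_const.add (continuous_const.mul hLc))).intervalIntegrable _ _) ?_
        intro θ hθ
        have hθ0 : θ ∈ Icc (t 0) (t 0 + 2 * Real.pi) := by
          have e1 := htle 0 k (Nat.zero_le _) hk.le
          have e2 := htle (k + 1) n hk le_rfl
          rw [htn] at e2
          exact ⟨by linarith [hθ.1], by linarith [hθ.2]⟩
        have hsg : (-1 : ℝ) ^ k * LS s ρ Φ θ = τ k θ := by
          rw [hΦe, heI θ hθ0, he₀I k hk θ hθ, ← mul_assoc, ← pow_add, ← two_mul]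
          simp
        rw [hsg]
        have hVn := h0 (a k) θ
        by_cases hzone : θ ∈ Icc (t k + 2 * w) (t (k + 1) - 2 * w)
        · rw [hτI k θ hzone]
          nlinarith
        · have hVe : V (a k) θ ≤ ε := by
            rw [mem_Icc, not_and_or, not_le, not_le] at hzone
            rcases hzone with h | h
            · refine hws k hk.le (a k) θ ?_
              rw [abs_le]; constructor <;> linarith [hθ.1]
            · refine hws (k + 1) hk (a k) θ ?_
              rw [abs_le]; constructor <;> linarith [hθ.2]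
          have := mul_nonneg hVn (hτ0 k θ)
          nlinarith
      have hsum := Finset.sum_le_sum fun k (hk : k ∈ Finset.range n) => hlow k (Finset.mem_range.1 hk)
      rw [Finset.sum_sub_distrib, ← Finset.mul_sum, ← Finset.mul_sum, hlen, ← hX] at hsum
      have hfin : (ρ ^ 2 * C + 1) * X ≤ 4 * Real.pi * C * ρ ^ 2 + ε * (2 * Real.pi) := by linarith
      have hpos : 0 < 1 + ρ ^ 2 * C := by positivity
      have hX3 : X ≤ 2 * Real.pi * (2 * ρ ^ 2 * C / (1 + ρ ^ 2 * C)) + 2 * Real.pi * ε := by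
        have e1 : 2 * Real.pi * (2 * ρ ^ 2 * C / (1 + ρ ^ 2 * C)) * (1 + ρ ^ 2 * C)
            = 4 * Real.pi * C * ρ ^ 2 := by field_simp; ring
        have e2 : X * (1 + ρ ^ 2 * C) ≤ (2 * Real.pi * (2 * ρ ^ 2 * C / (1 + ρ ^ 2 * C))
            + 2 * Real.pi * ε) * (1 + ρ ^ 2 * C) := by
          rw [add_mul, e1]
          have : 0 ≤ 2 * Real.pi * ε * (ρ ^ 2 * C) := by positivity
          linarith
        exact le_of_mul_le_mul_right e2 hpos
      have := mul_le_mul_of_nonneg_left hC2 hpi.le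
      linarith

/-- Module A. -/
theorem oneDS {ι : Type*} [Fintype ι] (V : ι → ℝ → ℝ)
    (hc : ∀ i, Continuous (V i)) (hp : ∀ i, Function.Periodic (V i) (2 * Real.pi))
    (h0 : ∀ i θ, 0 ≤ V i θ) (hd : ∀ i j, i ≠ j → ∀ θ, V i θ * V j θ = 0)
    {ρ s : ℝ} (hρ : 1 ≤ ρ) {M : (ℝ → ℝ) → ℝ} (hM : PosFun M)
    (h1 : M (fun _ => 1) = 2 * Real.pi * ρ ^ 2)
    (hV : ∀ i ψ, Tst ψ → (∀ θ, 0 ≤ ψ θ) →
      ∫ θ in (0)..(2 * Real.pi), V i θ * LS s ρ ψ θ ≤ M ψ) :
    ∑ i, (1 / (2 * Real.pi)) * ∫ θ in (0)..(2 * Real.pi), V i θ ≤ Lam ρ := by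
  classical
  have hpi : (0 : ℝ) < 2 * Real.pi := by positivity
  have hρ2 : 0 < ρ ^ 2 := by positivity
  have hLam := Lam_ge_one hρ
  rw [← Finset.mul_sum]
  suffices hmain : ∑ i, ∫ θ in (0)..(2 * Real.pi), V i θ ≤ 2 * Real.pi * Lam ρ by
    rw [one_div, inv_mul_le_iff₀ hpi]; exact hmain
  rcases isEmpty_or_nonempty ι with hE | hN
  · simp only [Finset.univ_eq_empty, Finset.sum_empty]
    positivity
  by_cases hex : ∃ z, ∀ i, V i z = 0
  · obtain ⟨z, hz⟩ := hex
    refine le_of_forall_pos_le_add fun δ hδ => ?_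
    have hcard : (0 : ℝ) < (1 + Fintype.card ι) * (2 * Real.pi) := by positivity
    have := oneDS_eps V hc hp h0 hd hρ hM h1 hV hz (ε := δ / ((1 + Fintype.card ι) * (2 * Real.pi)))
      (div_pos hδ hcard)
    have e : (1 + (Fintype.card ι : ℝ)) * (2 * Real.pi * (δ / ((1 + Fintype.card ι) * (2 * Real.pi)))) = δ := by
      have h3 : (1 + (Fintype.card ι : ℝ)) ≠ 0 := by positivity
      field_simp
    rw [e] at this
    exact this
  · push Not at hex
    -- a single label on the whole circle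
    obtain ⟨i₀, hi₀⟩ := hex 0
    have hopen : ∀ i, IsOpen {θ | V i θ ≠ 0} := fun i => isOpen_ne_fun (hc i) continuous_const
    have hclopen : IsClopen {θ | V i₀ θ ≠ 0} := by
      refine ⟨?_, hopen i₀⟩
      rw [← isOpen_compl_iff]
      have : {θ | V i₀ θ ≠ 0}ᶜ = ⋃ i ∈ {i | i ≠ i₀}, {θ | V i θ ≠ 0} := by
        ext θ
        simp only [mem_compl_iff, Set.mem_ofPred_eq, not_not, mem_iUnion, exists_prop]
        constructor
        · intro h
          obtain ⟨i, hi⟩ := hex θ
          refine ⟨i, ?_, hi⟩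
          intro h'
          rw [h'] at hi
          exact hi h
        · rintro ⟨i, hi, hVi⟩
          rcases mul_eq_zero.1 (hd i i₀ hi θ) with h | h
          · exact absurd h hVi
          · exact h
      rw [this]
      exact isOpen_biUnion fun i _ => hopen i
    have huniv : {θ | V i₀ θ ≠ 0} = univ := hclopen.eq_univ ⟨0, hi₀⟩
    have hzero : ∀ i, i ≠ i₀ → ∀ θ, V i θ = 0 := by
      intro i hi θ
      have h2 : V i₀ θ ≠ 0 := by
        have : θ ∈ {θ | V i₀ θ ≠ 0} := by rw [huniv]; trivial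
        exact this
      rcases mul_eq_zero.1 (hd i i₀ hi θ) with h | h
      · exact h
      · exact absurd h h2
    rw [Finset.sum_eq_single i₀ (fun i _ hi => by simp [hzero i hi]) (by simp)]
    have h2 := hV i₀ (fun _ => 1) (Tst.cst 1) (fun _ => zero_le_one)
    have h3 : ∀ θ, V i₀ θ * LS s ρ (fun _ => 1) θ = ρ ^ 2 * V i₀ θ := by
      intro θ; unfold LS; simp; ring
    simp only [h3] at h2
    rw [intervalIntegral.integral_const_mul, h1] at h2
    have h4 : ∫ θ in (0)..(2 * Real.pi), V i₀ θ ≤ 2 * Real.pi := by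
      have : ρ ^ 2 * (∫ θ in (0)..(2 * Real.pi), V i₀ θ) ≤ ρ ^ 2 * (2 * Real.pi) := by linarith
      exact le_of_mul_le_mul_left this hρ2
    nlinarith

end DW24
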