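import Pool.Agent.DW24.WinData
import Pool.Agent.DW24.BS
import Pool.Agent.DW24.CorS

/-!
The data of one window, in a rotating frame (spiral version).
-/

set_option autoImplicit false

open MeasureTheory Filter Topology Set ValueDistribution

namespace DW24

/-- the shear homeomorphism -/
noncomputable def shH (s c : ℝ) : (ℝ × ℝ) ≃ₜ (ℝ × ℝ) where
  toFun p := (p.1, p.2 + s * (p.1 - c))
  invFun p := (p.1, p.2 - s * (p.1 - c))
  left_inv p := by simp
  right_inv p := by simp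
  continuous_toFun := by fun_prop
  continuous_invFun := by fun_prop

lemma shH_mp (s c : ℝ) : MeasurePreserving (shH s c) (volume : Measure (ℝ × ℝ)) volume := by
  have h : MeasurePreserving (fun q : ℝ × ℝ => (q.1, q.2 + s * (q.1 - c)))
      ((volume : Measure ℝ).prod volume) ((volume : Measure ℝ).prod volume) := by
    refine MeasurePreserving.skew_product (f := id) (g := fun t p => p + s * (t - c))
      (MeasurePreserving.id _) ?_ ?_
    · fun_prop
    · exact Eventually.of_forall fun t => (measurePreserving_add_right volume (s * (t - c))).map_eq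
  exact h

lemma shear_strip {G : ℝ → ℝ → ℝ} {x₀ x₁ : ℝ} (s c : ℝ)
    (h : ∀ a b : ℝ, IntegrableOn (fun p : ℝ × ℝ => G p.1 p.2) (Ioo x₀ x₁ ×ˢ Ioo a b)) (a b : ℝ) :
    IntegrableOn (fun p : ℝ × ℝ => G p.1 (p.2 + s * (p.1 - c))) (Ioo x₀ x₁ ×ˢ Ioo a b) := by
  set K : ℝ := |s| * (|x₀| + |x₁| + |c|) with hK
  have h1 := (shH_mp s c).integrableOn_comp_preimage (shH s c).measurableEmbedding
    (f := fun p : ℝ × ℝ => G p.1 p.2) (s := Ioo x₀ x₁ ×ˢ Ioo (a - K - 1) (b + K + 1))
  have h2 := h1.2 (h (a - K - 1) (b + K + 1))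
  refine IntegrableOn.mono_set h2 ?_
  rintro ⟨x, θ⟩ ⟨hx, hθ⟩
  simp only at hx hθ
  have hxc : |x - c| ≤ |x₀| + |x₁| + |c| := by
    have h3 : |x| ≤ |x₀| + |x₁| := by
      rw [abs_le]
      constructor
      · have := neg_abs_le x₀
        have := abs_nonneg x₁
        linarith [hx.1]
      · have := le_abs_self x₁
        have := abs_nonneg x₀
        linarith [hx.2]
    calc |x - c| ≤ |x| + |c| := abs_sub x c
      _ ≤ _ := by linarith
  have hsx : |s * (x - c)| ≤ K := by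
    rw [abs_mul]; exact mul_le_mul_of_nonneg_left hxc (abs_nonneg s)
  have h3 := abs_le.1 hsx
  refine ⟨hx, ?_, ?_⟩
  · show a - K - 1 < θ + s * (x - c)
    linarith [hθ.1, h3.1]
  · show θ + s * (x - c) < b + K + 1
    linarith [hθ.2, h3.2]

lemma ae_shear {P : ℝ × ℝ → Prop} (s c : ℝ) (h : ∀ᵐ q : ℝ × ℝ, P q) :
    ∀ᵐ q : ℝ × ℝ, P (q.1, q.2 + s * (q.1 - c)) :=
  (shH_mp s c).quasiMeasurePreserving.ae h

lemma int_shift {g : ℝ → ℝ} (hg : Function.Periodic g (2 * Real.pi)) (t : ℝ) :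
    ∫ θ in (0)..(2 * Real.pi), g (θ + t) = ∫ θ in (0)..(2 * Real.pi), g θ := by
  rw [intervalIntegral.integral_comp_add_right, zero_add, add_comm (2 * Real.pi) t]
  have := hg.intervalIntegral_add_eq t 0
  rw [zero_add] at this
  exact this

lemma JS_eq {G : ℝ → ℝ → ℝ} {s c x₀ x₁ : ℝ} (hG : SI (fun x θ => G x (θ + s * (x - c))) x₀ x₁)
    {ω ψ : ℝ → ℝ} (hω : CS ω x₀ x₁) (hω1 : CS (deriv ω) x₀ x₁)
    (hω2 : CS (deriv (deriv ω)) x₀ x₁) (hψ : Tst ψ) :
    JS s c G ω ψ = AA (fun x θ => G x (θ + s * (x - c))) (deriv (deriv ω)) ψ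
      - 2 * s * AA (fun x θ => G x (θ + s * (x - c))) (deriv ω) (deriv ψ)
      + (1 + s ^ 2) * AA (fun x θ => G x (θ + s * (x - c))) ω (deriv (deriv ψ)) := by
  have i0 := AA_integrable hG hω2 hψ.cont
  have i1 := AA_integrable hG hω1 hψ.cont1
  have i2 := AA_integrable hG hω hψ.cont2
  rw [AA_eq hG hω hψ.cont2, AA_eq hG hω2 hψ.cont, AA_eq hG hω1 hψ.cont1,
    ← integral_const_mul, ← integral_const_mul, ← integral_sub i0 (i1.const_mul _)]
  have i01 : Integrable (fun p : ℝ × ℝ => G p.1 (p.2 + s * (p.1 - c)) * (deriv (deriv ω) p.1 * ψ p.2)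
      - 2 * s * (G p.1 (p.2 + s * (p.1 - c)) * (deriv ω p.1 * deriv ψ p.2))) mS :=
    i0.sub (i1.const_mul _)
  rw [← integral_add i01 (i2.const_mul _)]
  unfold JS
  simp only [ii_eq]
  have hint : Integrable (fun p : ℝ × ℝ => G p.1 (p.2 + s * (p.1 - c)) *
      (deriv (deriv ω) p.1 * ψ p.2 - 2 * s * (deriv ω p.1 * deriv ψ p.2)
        + (1 + s ^ 2) * (ω p.1 * deriv (deriv ψ) p.2))) mS := by
    refine (i01.add (i2.const_mul (1 + s ^ 2))).congr ?_
    filter_upwards with p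
    simp only [Pi.add_apply]
    ring
  unfold mS at hint ⊢
  rw [← integral_prod _ hint]
  congr 1; funext p; ring

/-- The data attached to one window, in the frame rotating with pitch `s`. -/
theorem window_dataS {f : ℂ → ℂ} (hf : Meromorphic f)
    (hne : ∀ c : ℂ, ∀ᶠ z in codiscrete ℂ, f z ≠ c)
    {ι : Type*} [Fintype ι] (a : ι → WithTop ℂ) {ρ : ℝ} (hρ : 0 < ρ) (s : ℝ)
    {ω : ℝ → ℝ} (hω : ContDiff ℝ 2 ω) (hω0 : ∀ x, 0 ≤ ω x) {α β : ℝ} (hα : 0 ≤ α) (hαβ : α ≤ β)
    (hsupp : ∀ x, x ∉ Icc α β → ω x = 0)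
    (hTω : 0 < ∫ x, characteristic f ⊤ (Real.exp x) * ω x)
    {C₁ : ℝ} (hC₁0 : 0 ≤ C₁) (hC₁ : ∀ i r, 1 ≤ r → proximity f (a i) r ≤ characteristic f ⊤ r + C₁)
    {X₁ X₂ : ℝ}
    (hX₁ : (∫ x, characteristic f ⊤ (Real.exp x) * ω x)⁻¹ * (2 * Real.pi *
          ∫ x, |deriv (deriv ω) x - ρ ^ 2 * ω x| *
            ((1 + Fintype.card ι) * characteristic f ⊤ (Real.exp x) + ∑ i, (C₁ + 2 * cst (a i)))) ≤ X₁)
    (hX₂ : (∫ x, characteristic f ⊤ (Real.exp x) * ω x)⁻¹ * (2 * Real.pi *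
          ∫ x, |deriv ω x + ρ * ω x| *
            ((1 + Fintype.card ι) * characteristic f ⊤ (Real.exp x) + ∑ i, (C₁ + 2 * cst (a i)))) ≤ X₂) :
    ∃ (V : ι → ℝ → ℝ) (M : (ℝ → ℝ) → ℝ),
      (∀ i, Function.Periodic (V i) (2 * Real.pi)) ∧ (∀ i θ, 0 ≤ V i θ) ∧
      (∀ i, IntervalIntegrable (V i) volume 0 (2 * Real.pi)) ∧ PosFun M ∧
      (|M (fun _ => 1) - 2 * Real.pi * ρ ^ 2| ≤
        X₁ + (8 * Real.pi * ρ ^ 2 + 8 * ρ * Fintype.card ι) * X₂) ∧
      (∀ i ψ, Tst ψ → (∀ θ, 0 ≤ ψ θ) →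
        ∫ θ in (0)..(2 * Real.pi), V i θ * LS s ρ ψ θ ≤ M ψ) ∧
      (∀ D : ℝ, (∀ x ∈ Icc α β, D * characteristic f ⊤ (Real.exp x) ≤
          ∑ i, proximity f (a i) (Real.exp x)) →
        D ≤ ∑ i, (1 / (2 * Real.pi)) * (∫ θ in (0)..(2 * Real.pi), V i θ) + Fintype.card ι * (4 * X₂)) ∧
      (∀ B : ℝ, (∀ x, ω x ≤ B) → ∀ i, ∀ᵐ θ : ℝ, V i θ ≤ (∫ x, characteristic f ⊤ (Real.exp x) * ω x)⁻¹ *
        (B * ((∫ x in α..β, near f (a i) (pt x (θ + s * (x - α)))) + 2 * cst (a i) * (β - α))) + 4 * X₂) := by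
  classical
  set T : ℝ → ℝ := fun x => characteristic f ⊤ (Real.exp x) with hT
  set Tω : ℝ := ∫ x, T x * ω x with hTωd
  set R : ℝ := Real.exp (β + 1) with hR
  have hRpos : 0 < R := Real.exp_pos _
  have hlogR : Real.log R = β + 1 := Real.log_exp _
  obtain ⟨P, Q, hP, hQ, ⟨z₀, hz₀⟩, hPQ, c₀, hc₀⟩ := exists_PQ hf hRpos
  set x₀ : ℝ := α - 1 with hx₀
  set x₁ : ℝ := β + 1 with hx₁
  have hx01 : x₀ < x₁ := by linarith
  -- the weights
  have h2 : ContDiff ℝ (1 + 1) ω := by simpa [one_add_one_eq_two] using hω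
  have hc1 : ContDiff ℝ 1 (deriv ω) := (contDiff_succ_iff_deriv.1 h2).2.2
  have hω1c : Continuous (deriv ω) := hc1.continuous
  have hω2c : Continuous (deriv (deriv ω)) := hc1.continuous_deriv le_rfl
  have hz1 : ∀ x, x ∉ Icc α β → deriv ω x = 0 := by
    intro x hx
    have : ω =ᶠ[𝓝 x] fun _ => 0 := by
      filter_upwards [isClosed_Icc.isOpen_compl.mem_nhds hx] with y hy
      exact hsupp y hy
    rw [this.deriv_eq]; simp
  have hz2 : ∀ x, x ∉ Icc α β → deriv (deriv ω) x = 0 := by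
    intro x hx
    have : deriv ω =ᶠ[𝓝 x] fun _ => 0 := by
      filter_upwards [isClosed_Icc.isOpen_compl.mem_nhds hx] with y hy
      exact hz1 y hy
    rw [this.deriv_eq]; simp
  set κ : ℝ → ℝ := fun x => |deriv (deriv ω) x - ρ ^ 2 * ω x| with hκ
  have hκc : Continuous κ := (hω2c.sub (continuous_const.mul hω.continuous)).abs
  have hκz : ∀ x, x ∉ Icc α β → κ x = 0 := by
    intro x hx; simp only [hκ]; rw [hz2 x hx, hsupp x hx]; simp
  have hκ0 : ∀ x, 0 ≤ κ x := fun x => abs_nonneg _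
  set κ₁ : ℝ → ℝ := fun x => deriv ω x + ρ * ω x with hκ₁
  have hκ₁c : Continuous κ₁ := hω1c.add (continuous_const.mul hω.continuous)
  have hκ₁z : ∀ x, x ∉ Icc α β → κ₁ x = 0 := by
    intro x hx; simp only [hκ₁]; rw [hz1 x hx, hsupp x hx]; simp
  set κ₂ : ℝ → ℝ := fun x => |κ₁ x| with hκ₂
  have hκ₂c : Continuous κ₂ := hκ₁c.abs
  have hκ₂z : ∀ x, x ∉ Icc α β → κ₂ x = 0 := by
    intro x hx; simp only [hκ₂]; rw [hκ₁z x hx, abs_zero]
  have hκ₂0 : ∀ x, 0 ≤ κ₂ x := fun x => abs_nonneg _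
  have hIccIoo : ∀ x, x ∉ Ioo x₀ x₁ → x ∉ Icc α β := fun x hx h =>
    hx ⟨by linarith [h.1], by linarith [h.2]⟩
  have hCSω : CS ω x₀ x₁ := ⟨hω.continuous, fun x hx => hsupp x (hIccIoo x hx)⟩
  have hCSω1 : CS (deriv ω) x₀ x₁ := ⟨hω1c, fun x hx => hz1 x (hIccIoo x hx)⟩
  have hCSω2 : CS (deriv (deriv ω)) x₀ x₁ := ⟨hω2c, fun x hx => hz2 x (hIccIoo x hx)⟩
  have hCSκ : CS κ x₀ x₁ := ⟨hκc, fun x hx => hκz x (hIccIoo x hx)⟩
  have hCSκ₁ : CS κ₁ x₀ x₁ := ⟨hκ₁c, fun x hx => hκ₁z x (hIccIoo x hx)⟩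
  have hCSκ₂ : CS κ₂ x₀ x₁ := ⟨hκ₂c, fun x hx => hκ₂z x (hIccIoo x hx)⟩
  -- meromorphy of P
  have hPm : Meromorphic P := fun z => (hP.analyticAt z).meromorphicAt
  have hPan : AnalyticOnNhd ℂ P (Metric.ball 0 (Real.exp (β + 1))) := fun z _ => hP.analyticAt z
  -- a.e. facts on the strip
  have hae1 : ∀ᵐ q : ℝ × ℝ, q.1 < β + 1 → P (pt q.1 q.2) ≠ 0 ∧
      f (pt q.1 q.2) = Q (pt q.1 q.2) / P (pt q.1 q.2) := by
    have := ae_of_codiscrete hRpos hPQ
    rw [hlogR] at this
    exact this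
  have hae2 : ∀ c : ℂ, ∀ᵐ q : ℝ × ℝ, q.1 < β + 1 → f (pt q.1 q.2) ≠ c := by
    intro c
    have := ae_of_codiscrete hRpos ((hne c).filter_mono (codiscreteWithin_mono (subset_univ _)))
    rw [hlogR] at this
    exact this
  -- the functions
  set u₀ : ℝ → ℝ → ℝ := fun x θ => max (Real.log ‖P (pt x θ)‖) (Real.log ‖Q (pt x θ)‖) with hu₀
  set hh : WithTop ℂ → ℂ → ℂ := fun i z => match i with
    | ⊤ => P z
    | (c : ℂ) => Q z - c * P z with hhh
  set uu : WithTop ℂ → ℝ → ℝ → ℝ := fun i x θ => Real.log ‖hh i (pt x θ)‖ with huu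
  have hhan : ∀ i, AnalyticOnNhd ℂ (hh i) (Metric.ball 0 (Real.exp (β + 1))) := by
    intro i
    cases i with
    | top => exact hPan
    | coe c => exact hQ.sub (analyticOnNhd_const.mul hPan)
  have hhne : ∀ i, ∀ᵐ q : ℝ × ℝ, q.1 < β + 1 → hh i (pt q.1 q.2) ≠ 0 := by
    intro i
    cases i with
    | top =>
      filter_upwards [hae1] with q hq h
      exact (hq h).1
    | coe c =>
      filter_upwards [hae1, hae2 c] with q hq hq2 h
      obtain ⟨h3, h4⟩ := hq h
      have h5 := hq2 h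
      intro h6
      apply h5
      rw [h4, div_eq_iff h3]
      exact sub_eq_zero.1 h6
  -- a.e. formula u₀ = log⁺|f| + log|P|
  have hae3 : ∀ᵐ q : ℝ × ℝ, q.1 < β + 1 → u₀ q.1 q.2 = Real.posLog ‖f (pt q.1 q.2)‖
      + Real.log ‖P (pt q.1 q.2)‖ := by
    filter_upwards [hae1, hae2 0] with q hq hq0 h
    obtain ⟨h3, h4⟩ := hq h
    have h5 := hq0 h
    have hQ0 : Q (pt q.1 q.2) ≠ 0 := by
      intro h6; rw [h6, zero_div] at h4; exact h5 h4
    simp only [hu₀]
    rw [Real.posLog_apply, h4, norm_div, Real.log_div (norm_ne_zero_iff.2 hQ0) (norm_ne_zero_iff.2 h3),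
      max_add, zero_add, sub_add_cancel]
  have hae4 : ∀ i, ∀ᵐ q : ℝ × ℝ, q.1 < β + 1 → u₀ q.1 q.2 = vv f i (pt q.1 q.2) + uu i q.1 q.2 := by
    intro i
    cases i with
    | top =>
      filter_upwards [hae3] with q hq h
      rw [hq h, vv_top]
    | coe c =>
      filter_upwards [hae3, hae1, hae2 c] with q hq hq1 hq2 h
      obtain ⟨h3, h4⟩ := hq1 h
      have h5 := hq2 h
      rw [hq h, vv_coe]
      have h6 : hh (c : WithTop ℂ) (pt q.1 q.2) = (f (pt q.1 q.2) - c) * P (pt q.1 q.2) := by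
        show Q _ - c * P _ = _
        rw [sub_mul, h4, div_mul_cancel₀ _ h3]
      simp only [huu]
      rw [h6, norm_mul, Real.log_mul (norm_ne_zero_iff.2 (sub_ne_zero.2 h5)) (norm_ne_zero_iff.2 h3)]
      ring
  -- integrability on strips
  have hmeas : ∀ s t : ℝ, MeasurableSet (Ioo x₀ x₁ ×ˢ Ioo s t : Set (ℝ × ℝ)) := fun s t =>
    measurableSet_Ioo.prod measurableSet_Ioo
  have hstrip_ae : ∀ {F G : ℝ → ℝ → ℝ}, (∀ᵐ q : ℝ × ℝ, q.1 < β + 1 → F q.1 q.2 = G q.1 q.2) →
      ∀ s t : ℝ, IntegrableOn (fun p : ℝ × ℝ => G p.1 p.2) (Ioo x₀ x₁ ×ˢ Ioo s t) →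
        IntegrableOn (fun p : ℝ × ℝ => F p.1 p.2) (Ioo x₀ x₁ ×ˢ Ioo s t) := by
    intro F G hFG s t hG
    refine IntegrableOn.congr_fun_ae hG ?_
    filter_upwards [ae_restrict_of_ae hFG, ae_restrict_mem (hmeas s t)] with q hq hmem
    exact (hq hmem.1.2).symm
  have hu₀int : ∀ s t : ℝ, IntegrableOn (fun p : ℝ × ℝ => u₀ p.1 p.2) (Ioo x₀ x₁ ×ˢ Ioo s t) := by
    intro s t
    refine hstrip_ae (G := fun x θ => Real.posLog ‖f (pt x θ)‖ + Real.log ‖P (pt x θ)‖) hae3 s t ?_
    exact (strip_posLog hf x₀ x₁ s t).add (integrable_log hPm x₀ x₁ s t)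
  have huuint : ∀ i, ∀ s t : ℝ, IntegrableOn (fun p : ℝ × ℝ => uu i p.1 p.2) (Ioo x₀ x₁ ×ˢ Ioo s t) := by
    intro i s t
    refine hstrip_ae (G := fun x θ => u₀ x θ - vv f i (pt x θ)) ?_ s t
      ((hu₀int s t).sub (strip_vv hf i x₀ x₁ s t))
    filter_upwards [hae4 i] with q hq h
    have := hq h
    linarith
  -- the sheared functions
  set ut : ℝ → ℝ → ℝ := fun x θ => u₀ x (θ + s * (x - α)) with hut
  set uut : WithTop ℂ → ℝ → ℝ → ℝ := fun i x θ => uu i x (θ + s * (x - α)) with huut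
  set v : ι → ℝ → ℝ → ℝ := fun i x θ => vv f (a i) (pt x θ) + cst (a i) with hv
  set vt : ι → ℝ → ℝ → ℝ := fun i x θ => v i x (θ + s * (x - α)) with hvt
  have hv0 : ∀ i x θ, 0 ≤ vt i x θ := fun i x θ => vv_add_nonneg f (a i) _
  have hSIu₀ : SI ut x₀ x₁ := shear_strip s α hu₀int _ _
  have hSIuu : ∀ i, SI (uut i) x₀ x₁ := fun i => shear_strip s α (huuint i) _ _
  have hSIv : ∀ i, SI (vt i) x₀ x₁ := fun i => by
    refine shear_strip (G := v i) s α (fun b d => ?_) _ _
    refine (strip_vv hf (a i) x₀ x₁ b d).add ?_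
    have : IntegrableOn (fun _ : ℝ × ℝ => cst (a i)) (Icc x₀ x₁ ×ˢ Icc b d) :=
      (continuous_const.continuousOn).integrableOn_compact (isCompact_Icc.prod isCompact_Icc)
    exact this.mono_set (prod_mono Ioo_subset_Icc_self Ioo_subset_Icc_self)
  have hpert : ∀ x t : ℝ, pt x (t + 2 * Real.pi) = pt x t := fun x t => pt_per x t
  have hshift : ∀ x θ : ℝ, θ + 2 * Real.pi + s * (x - α) = (θ + s * (x - α)) + 2 * Real.pi := fun x θ => by ring
  -- nonnegativity of the two pairings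
  have hJ₀ : ∀ ψ, Tst ψ → (∀ θ, 0 ≤ ψ θ) → 0 ≤ JS s α u₀ ω ψ := by
    intro ψ hψ hψ0
    refine JS_nonneg hx01 (fun x θ => by simp only [hu₀, pt_per x θ]) hu₀int ?_ hω
      ⟨α, β, by linarith, by linarith, hsupp⟩ hω0 hψ hψ0 s α
    intro h hh0
    filter_upwards [hae1, hae2 0] with q hq hq0 h3 h4
    have h5 : q.1 < β + 1 := by linarith
    obtain ⟨h6, h7⟩ := hq h5
    have hQ0 : Q (pt q.1 q.2) ≠ 0 := by
      intro h8; rw [h8, zero_div] at h7; exact hq0 h5 h7
    exact submean_max hPan hQ hh0 h4 h6 hQ0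
  have hJu : ∀ i ψ, Tst ψ → (∀ θ, 0 ≤ ψ θ) → 0 ≤ JS s α (uu i) ω ψ := by
    intro i ψ hψ hψ0
    refine JS_nonneg hx01 (fun x θ => by simp only [huu, pt_per x θ]) (huuint i) ?_ hω
      ⟨α, β, by linarith, by linarith, hsupp⟩ hω0 hψ hψ0 s α
    intro h hh0
    filter_upwards [hhne i] with q hq h3 h4
    have h5 : q.1 < β + 1 := by linarith
    have h6 := submean_max (hhan i) (hhan i) hh0 h4 (hq h5) (hq h5)
    simp only [max_self] at h6
    exact h6
  -- relation between the pairings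
  have hrel : ∀ i ψ, Tst ψ → JS s α (v i) ω ψ + JS s α (uu (a i)) ω ψ = JS s α u₀ ω ψ := by
    intro i ψ hψ
    have hone : SI (fun x θ => (fun _ _ => (1 : ℝ)) x (θ + s * (x - α))) x₀ x₁ := SI.const 1 x₀ x₁
    have hω1i : ∫ x, deriv ω x = 0 := by
      have hcs : HasCompactSupport (deriv ω) := HasCompactSupport.intro isCompact_Icc hz1
      have hint : Integrable (deriv ω) := hω1c.integrable_of_hasCompactSupport hcs
      have hbot : Tendsto ω atBot (𝓝 0) := by
        refine tendsto_const_nhds.congr' ?_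
        filter_upwards [eventually_lt_atBot α] with x hx
        exact (hsupp x (fun h => absurd h.1 (not_le.2 hx))).symm
      have htop : Tendsto ω atTop (𝓝 0) := by
        refine tendsto_const_nhds.congr' ?_
        filter_upwards [eventually_gt_atTop β] with x hx
        exact (hsupp x (fun h => absurd h.2 (not_le.2 hx))).symm
      have := integral_of_hasDerivAt_of_tendsto (f := ω) (f' := deriv ω)
        (fun x => ((hω.differentiable (by norm_num)) x).hasDerivAt) hint hbot htop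
      simpa using this
    have hconst : JS s α (fun _ _ => 1) ω ψ = 0 := by
      rw [JS_eq hone hCSω hCSω1 hCSω2 hψ]
      have e1 := AA_const (deriv (deriv ω)) ψ
      have e2 := AA_const (deriv ω) (deriv ψ)
      have e3 := AA_const ω (deriv (deriv ψ))
      rw [e1, e2, e3, int_psi2_zero hψ, int_deriv2_zero hω hsupp, hω1i]
      ring
    have e1 : ∀ γ δ : ℝ → ℝ, CS γ x₀ x₁ → Continuous δ →
        AA (vt i) γ δ + AA (uut (a i)) γ δ = AA ut γ δ + cst (a i) * AA (fun _ _ => 1) γ δ := by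
      intro γ δ hγ hδ
      rw [← AA_add_left (hSIv i) (hSIuu (a i)) hγ hδ]
      have e2 : AA (fun x θ => vt i x θ + uut (a i) x θ) γ δ
          = AA (fun x θ => ut x θ + cst (a i)) γ δ := by
        refine AA_congr ((hSIv i).add (hSIuu (a i))) (hSIu₀.add (SI.const _ _ _)) hγ hδ ?_
        filter_upwards [ae_shear s α (hae4 (a i))] with q hq h
        have h3 := hq h.2
        simp only [hvt, huut, hut, hv]
        rw [h3]; ring
      rw [e2, AA_add_left hSIu₀ (SI.const _ _ _) hγ hδ]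
      congr 1
      unfold AA
      rw [← integral_const_mul]
      congr 1; funext x
      rw [← intervalIntegral.integral_const_mul]
      congr 1; funext θ; ring
    rw [JS_eq (hSIv i) hCSω hCSω1 hCSω2 hψ, JS_eq (hSIuu (a i)) hCSω hCSω1 hCSω2 hψ,
      JS_eq hSIu₀ hCSω hCSω1 hCSω2 hψ]
    rw [JS_eq hone hCSω hCSω1 hCSω2 hψ] at hconst
    have h3 := e1 ω (deriv (deriv ψ)) hCSω hψ.cont2
    have h4 := e1 (deriv (deriv ω)) ψ hCSω2 hψ.cont
    have h5 := e1 (deriv ω) (deriv ψ) hCSω1 hψ.cont1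
    have h6 : cst (a i) * (AA (fun _ _ => 1) (deriv (deriv ω)) ψ - 2 * s * AA (fun _ _ => 1) (deriv ω) (deriv ψ)
        + (1 + s ^ 2) * AA (fun _ _ => 1) ω (deriv (deriv ψ))) = 0 := by
      rw [hconst, mul_zero]
    linear_combination (1 + s ^ 2) * h3 + h4 - 2 * s * h5 + h6
  -- means
  have hmean : ∀ i x, ∫ θ in (0)..(2 * Real.pi), vt i x θ
      = 2 * Real.pi * Real.circleAverage (fun z => vv f (a i) z + cst (a i)) 0 (Real.exp x) := by
    intro i x
    have hper : Function.Periodic (v i x) (2 * Real.pi) := fun θ => by simp only [hv, pt_per x θ]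
    have h3 := int_shift hper (s * (x - α))
    exact h3.trans (int_pt (fun z => vv f (a i) z + cst (a i)) x)
  set V : ι → ℝ → ℝ := fun i θ => Tω⁻¹ * ∫ x, vt i x θ * ω x with hV
  set e : ι → ℝ → ℝ := fun i θ => Tω⁻¹ * ∫ x, vt i x θ * κ₁ x with he
  set M : (ℝ → ℝ) → ℝ := fun ψ => Tω⁻¹ * (JS s α u₀ ω ψ + ∑ i, AA (vt i) κ ψ) with hM
  have hTinv : 0 < Tω⁻¹ := inv_pos.2 hTω
  have hVint : ∀ i (δ : ℝ → ℝ), Continuous δ →
      ∫ θ in (0)..(2 * Real.pi), V i θ * δ θ = Tω⁻¹ * AA (vt i) ω δ := by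
    intro i δ hδ
    rw [AA_swap (hSIv i) hCSω hδ, ← intervalIntegral.integral_const_mul]
    congr 1; funext θ
    simp only [hV]; ring
  have heint : ∀ i (δ : ℝ → ℝ), Continuous δ →
      ∫ θ in (0)..(2 * Real.pi), e i θ * δ θ = Tω⁻¹ * AA (vt i) κ₁ δ := by
    intro i δ hδ
    rw [AA_swap (hSIv i) hCSκ₁ hδ, ← intervalIntegral.integral_const_mul]
    congr 1; funext θ
    simp only [he]; ring
  have hTκ : ∀ {κ' : ℝ → ℝ}, Continuous κ' → (∀ x, x ∉ Icc α β → κ' x = 0) → ∀ A B : ℝ,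
      Integrable (fun x => κ' x * (A * T x + B)) := by
    intro κ' hc' hz' A B
    have : (fun x => κ' x * (A * T x + B)) = fun x => A * (T x * κ' x) + B * κ' x := by funext x; ring
    rw [this]
    exact ((int_T hf hc' hz').const_mul _).add ((hc'.integrable_of_hasCompactSupport
        (HasCompactSupport.intro isCompact_Icc hz')).const_mul _)
  have hAA1 : ∀ {κ' : ℝ → ℝ}, CS κ' x₀ x₁ → (∀ x, x ∉ Icc α β → κ' x = 0) → (∀ x, 0 ≤ κ' x) → ∀ i,
      AA (vt i) κ' (fun _ => 1) ≤ 2 * Real.pi * ∫ x, κ' x * (1 * T x + (C₁ + 2 * cst (a i))) := by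
    intro κ' hCS' hz' h0' i
    unfold AA
    rw [← integral_const_mul]
    refine integral_mono (AA_ix (hSIv i) hCS' continuous_const) ((hTκ hCS'.1 hz' _ _).const_mul _) fun x => ?_
    simp only
    rw [intervalIntegral.integral_mul_const, hmean, mul_one]
    by_cases hx : x ∈ Icc α β
    · have h3 := mean_vv_le hf (a i) (Real.exp x)
      have h4 := hC₁ i (Real.exp x) (Real.one_le_exp (by linarith [hx.1]))
      have h5 : Real.circleAverage (fun z => vv f (a i) z + cst (a i)) 0 (Real.exp x)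
          ≤ T x + (C₁ + 2 * cst (a i)) := by simp only [hT]; linarith
      have h6 := mul_le_mul_of_nonneg_left h5 (mul_nonneg twopi_pos.le (h0' x))
      linarith
    · rw [hz' x hx]; simp
  have hT0 : ∀ x ∈ Icc α β, 0 ≤ T x := fun x hx =>
    characteristic_nonneg (Real.one_le_exp (by linarith [hx.1]))
  -- the total error bounds
  have hcard1 : ∀ i : ι, (1 : ℝ) ≤ 1 + Fintype.card ι := fun i => by
    have : (0 : ℝ) ≤ (Fintype.card ι : ℝ) := Nat.cast_nonneg _
    linarith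
  have hE : ∀ i, Tω⁻¹ * AA (vt i) κ₂ (fun _ => 1) ≤ X₂ := by
    intro i
    refine le_trans ?_ hX₂
    refine mul_le_mul_of_nonneg_left ?_ hTinv.le
    refine (hAA1 hCSκ₂ hκ₂z hκ₂0 i).trans ?_
    refine mul_le_mul_of_nonneg_left ?_ twopi_pos.le
    refine integral_mono (hTκ hκ₂c hκ₂z _ _) (hTκ hκ₂c hκ₂z _ _) fun x => ?_
    simp only
    by_cases hx : x ∈ Icc α β
    · refine mul_le_mul_of_nonneg_left ?_ (hκ₂0 x)
      have h3 : 1 * T x ≤ (1 + Fintype.card ι) * T x := mul_le_mul_of_nonneg_right (hcard1 i) (hT0 x hx)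
      have h4 : C₁ + 2 * cst (a i) ≤ ∑ j, (C₁ + 2 * cst (a j)) :=
        Finset.single_le_sum (f := fun j => C₁ + 2 * cst (a j))
          (fun j _ => by have := cst_nonneg (a j); positivity) (Finset.mem_univ i)
      linarith
    · have h0 : |deriv ω x + ρ * ω x| = 0 := hκ₂z x hx
      rw [hκ₂z x hx, h0, zero_mul, zero_mul]
  have hX₂0 : 0 ≤ X₂ := by
    refine le_trans ?_ hX₂
    refine mul_nonneg hTinv.le (mul_nonneg twopi_pos.le (integral_nonneg fun x => ?_))
    by_cases hx : x ∈ Icc α β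
    · refine mul_nonneg (abs_nonneg _) (add_nonneg (mul_nonneg (by positivity) (hT0 x hx)) ?_)
      exact Finset.sum_nonneg fun j _ => by have := cst_nonneg (a j); positivity
    · have h0 : |deriv ω x + ρ * ω x| = 0 := hκ₂z x hx
      show 0 ≤ |deriv ω x + ρ * ω x| * _
      rw [h0, zero_mul]
  have hMpos : PosFun M := by
    refine ⟨?_, ?_, ?_⟩
    · intro φ ψ hφ hψ
      simp only [hM]
      have hφ2 : ContDiff ℝ (1 + 1) φ := by simpa [one_add_one_eq_two] using hφ.1
      have hψ2 : ContDiff ℝ (1 + 1) ψ := by simpa [one_add_one_eq_two] using hψ.1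
      have d1 : deriv (fun θ => φ θ + ψ θ) = fun θ => deriv φ θ + deriv ψ θ := by
        funext θ
        exact deriv_fun_add ((hφ.1.differentiable (by norm_num)) θ) ((hψ.1.differentiable (by norm_num)) θ)
      have d2 : deriv (fun θ => deriv φ θ + deriv ψ θ) = fun θ => deriv (deriv φ) θ + deriv (deriv ψ) θ := by
        funext θ
        exact deriv_fun_add (((contDiff_succ_iff_deriv.1 hφ2).2.2.differentiable (by norm_num)) θ)
          (((contDiff_succ_iff_deriv.1 hψ2).2.2.differentiable (by norm_num)) θ)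
      have e1 : JS s α u₀ ω (fun θ => φ θ + ψ θ) = JS s α u₀ ω φ + JS s α u₀ ω ψ := by
        rw [JS_eq hSIu₀ hCSω hCSω1 hCSω2 (hφ.add hψ), JS_eq hSIu₀ hCSω hCSω1 hCSω2 hφ,
          JS_eq hSIu₀ hCSω hCSω1 hCSω2 hψ, d1, d2,
          AA_add_right hSIu₀ hCSω2 hφ.cont hψ.cont, AA_add_right hSIu₀ hCSω1 hφ.cont1 hψ.cont1,
          AA_add_right hSIu₀ hCSω hφ.cont2 hψ.cont2]
        ring
      rw [e1]
      have e2 : ∑ i, AA (vt i) κ (fun θ => φ θ + ψ θ) = ∑ i, AA (vt i) κ φ + ∑ i, AA (vt i) κ ψ := by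
        rw [← Finset.sum_add_distrib]
        exact Finset.sum_congr rfl fun i _ => AA_add_right (hSIv i) hCSκ hφ.cont hψ.cont
      rw [e2]; ring
    · intro c ψ hψ
      simp only [hM]
      have hψ2 : ContDiff ℝ (1 + 1) ψ := by simpa [one_add_one_eq_two] using hψ.1
      have d1 : deriv (fun θ => c * ψ θ) = fun θ => c * deriv ψ θ := by
        funext θ
        exact deriv_const_mul c ((hψ.1.differentiable (by norm_num)) θ)
      have d2 : deriv (fun θ => c * deriv ψ θ) = fun θ => c * deriv (deriv ψ) θ := by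
        funext θ
        exact deriv_const_mul c (((contDiff_succ_iff_deriv.1 hψ2).2.2.differentiable (by norm_num)) θ)
      have e1 : JS s α u₀ ω (fun θ => c * ψ θ) = c * JS s α u₀ ω ψ := by
        rw [JS_eq hSIu₀ hCSω hCSω1 hCSω2 (hψ.smul c), JS_eq hSIu₀ hCSω hCSω1 hCSω2 hψ, d1, d2,
          AA_smul_right, AA_smul_right, AA_smul_right]
        ring
      rw [e1]
      have e2 : ∑ i, AA (vt i) κ (fun θ => c * ψ θ) = c * ∑ i, AA (vt i) κ ψ := by
        rw [Finset.mul_sum]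
        exact Finset.sum_congr rfl fun i _ => AA_smul_right c
      rw [e2]; ring
    · intro ψ hψ hψ0
      refine mul_nonneg hTinv.le (add_nonneg (hJ₀ ψ hψ hψ0) (Finset.sum_nonneg fun i _ => ?_))
      exact AA_nonneg (hv0 i) hκ0 hψ0
  -- the mass
  have hmass : |M (fun _ => 1) - 2 * Real.pi * ρ ^ 2| ≤ X₁ := by
    refine le_trans ?_ hX₁
    have hone : Tst (fun _ => (1 : ℝ)) := Tst_const 1
    have hJ1 : JS s α u₀ ω (fun _ => 1) = 2 * Real.pi * ∫ x, T x * deriv (deriv ω) x := by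
      rw [JS_eq hSIu₀ hCSω hCSω1 hCSω2 hone]
      have d0 : deriv (fun _ : ℝ => (1 : ℝ)) = fun _ => 0 := by funext x; simp
      have d00 : deriv (fun _ : ℝ => (0 : ℝ)) = fun _ => 0 := by funext x; simp
      have e1 : AA (fun x θ => u₀ x (θ + s * (x - α))) ω (deriv (deriv fun _ => (1 : ℝ))) = 0 := by
        rw [d0, d00]
        unfold AA
        simp
      have e1' : AA (fun x θ => u₀ x (θ + s * (x - α))) (deriv ω) (deriv fun _ => (1 : ℝ)) = 0 := by
        rw [d0]
        unfold AA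
        simp
      have hu₀' : ∀ b d : ℝ, IntegrableOn (fun p : ℝ × ℝ =>
          (fun x θ => Real.posLog ‖f (pt x θ)‖ + Real.log ‖P (pt x θ)‖) p.1 p.2) (Ioo x₀ x₁ ×ˢ Ioo b d) :=
        fun b d => (strip_posLog hf x₀ x₁ _ _).add (integrable_log hPm x₀ x₁ _ _)
      have hu₀'' := shear_strip (G := fun x θ => Real.posLog ‖f (pt x θ)‖ + Real.log ‖P (pt x θ)‖) s α hu₀'
      have e2 : AA (fun x θ => u₀ x (θ + s * (x - α))) (deriv (deriv ω)) (fun _ => 1)
          = AA (fun x θ => Real.posLog ‖f (pt x (θ + s * (x - α)))‖ + Real.log ‖P (pt x (θ + s * (x - α)))‖)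
            (deriv (deriv ω)) (fun _ => 1) := by
        have hSI2 : SI (fun x θ => Real.posLog ‖f (pt x (θ + s * (x - α)))‖ + Real.log ‖P (pt x (θ + s * (x - α)))‖) x₀ x₁ :=
          hu₀'' _ _
        refine AA_congr hSIu₀ hSI2 hCSω2 continuous_const ?_
        filter_upwards [ae_shear s α hae3] with q hq h
        exact hq h.2
      have e3 : ∀ x, (∫ θ in (0)..(2 * Real.pi), (Real.posLog ‖f (pt x (θ + s * (x - α)))‖
          + Real.log ‖P (pt x (θ + s * (x - α)))‖) * (deriv (deriv ω) x * 1))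
            = 2 * Real.pi * (T x * deriv (deriv ω) x) + 2 * Real.pi * c₀ * deriv (deriv ω) x := by
        intro x
        by_cases hx : x ∈ Icc α β
        · rw [intervalIntegral.integral_mul_const]
          have hper : Function.Periodic (fun θ => Real.posLog ‖f (pt x θ)‖ + Real.log ‖P (pt x θ)‖) (2 * Real.pi) :=
            fun θ => by simp only [hpert x θ]
          have e4 : ∫ θ in (0)..(2 * Real.pi), (Real.posLog ‖f (pt x (θ + s * (x - α)))‖
              + Real.log ‖P (pt x (θ + s * (x - α)))‖) = 2 * Real.pi * (T x + c₀) := by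
            have h3 := int_shift hper (s * (x - α))
            refine h3.trans ?_
            rw [int_pt (fun z => Real.posLog ‖f z‖ + Real.log ‖P z‖) x]
            have h5 : CircleIntegrable (fun z => Real.posLog ‖f z‖) 0 (Real.exp x) :=
              hf.meromorphicOn.circleIntegrable_posLog_norm
            have h6 : CircleIntegrable (fun z => Real.log ‖P z‖) 0 (Real.exp x) :=
              hPm.meromorphicOn.circleIntegrable_log_norm
            have h7 := Real.circleAverage_add h5 h6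
            have h8 : Real.circleAverage (fun z => Real.posLog ‖f z‖ + Real.log ‖P z‖) 0 (Real.exp x)
                = Real.circleAverage (fun z => Real.posLog ‖f z‖) 0 (Real.exp x)
                  + Real.circleAverage (fun z => Real.log ‖P z‖) 0 (Real.exp x) := h7
            rw [h8, hc₀ (Real.exp x) (Real.exp_pos x) (Real.exp_lt_exp.2 (by linarith [hx.2]))]
            have h9 : T x = Real.circleAverage (fun z => Real.posLog ‖f z‖) 0 (Real.exp x)
                + logCounting f ⊤ (Real.exp x) := by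
              simp only [hT]
              rw [characteristic, Pi.add_apply, proximity_top]
            rw [h9]; ring
          rw [e4]; ring
        · rw [hz2 x hx]; simp
      rw [e1, e1', e2, mul_zero, mul_zero, sub_zero, add_zero]
      unfold AA
      simp only [e3]
      rw [integral_add ((int_T hf hω2c hz2).const_mul _)
        (((hω2c.integrable_of_hasCompactSupport (HasCompactSupport.intro isCompact_Icc hz2))).const_mul _),
        integral_const_mul, integral_const_mul, int_deriv2_zero hω hsupp, mul_zero, add_zero]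
    have hkey : ∫ x, T x * deriv (deriv ω) x = ρ ^ 2 * Tω + ∫ x, T x * (deriv (deriv ω) x - ρ ^ 2 * ω x) := by
      have h3 : (fun x => T x * (deriv (deriv ω) x - ρ ^ 2 * ω x))
          = fun x => T x * deriv (deriv ω) x - ρ ^ 2 * (T x * ω x) := by funext x; ring
      rw [h3, integral_sub (int_T hf hω2c hz2) ((int_T hf hω.continuous hsupp).const_mul _),
        integral_const_mul]
      ring
    have habs : |∫ x, T x * (deriv (deriv ω) x - ρ ^ 2 * ω x)| ≤ ∫ x, κ x * (1 * T x + 0) := by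
      refine (abs_integral_le_integral_abs).trans ?_
      refine integral_mono_of_nonneg (Eventually.of_forall fun x => abs_nonneg _) (hTκ hκc hκz 1 0)
        (Eventually.of_forall fun x => ?_)
      simp only
      by_cases hx : x ∈ Icc α β
      · rw [abs_mul, abs_of_nonneg (hT0 x hx)]
        simp only [hκ]
        linarith
      · rw [hz2 x hx, hsupp x hx, hκz x hx]; simp
    have hsum0 : 0 ≤ ∑ i, AA (vt i) κ (fun _ => 1) := Finset.sum_nonneg fun i _ =>
      AA_nonneg (hv0 i) hκ0 (fun _ => zero_le_one)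
    have hsum1 : ∑ i, AA (vt i) κ (fun _ => 1) ≤ 2 * Real.pi *
        ∫ x, κ x * ((Fintype.card ι : ℝ) * T x + ∑ i, (C₁ + 2 * cst (a i))) := by
      refine (Finset.sum_le_sum fun i _ => hAA1 hCSκ hκz hκ0 i).trans ?_
      rw [← Finset.mul_sum, ← integral_finsetSum _ (fun i _ => hTκ hκc hκz 1 (C₁ + 2 * cst (a i)))]
      refine le_of_eq ?_
      congr 1
      congr 1
      funext x
      simp only [one_mul]
      rw [← Finset.mul_sum, Finset.sum_add_distrib, Finset.sum_const, nsmul_eq_mul, Finset.card_univ]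
    have hM1 : M (fun _ => 1) - 2 * Real.pi * ρ ^ 2 = Tω⁻¹ * (2 * Real.pi *
        (∫ x, T x * (deriv (deriv ω) x - ρ ^ 2 * ω x)) + ∑ i, AA (vt i) κ (fun _ => 1)) := by
      simp only [hM]
      rw [hJ1, hkey]
      have : Tω⁻¹ * Tω = 1 := inv_mul_cancel₀ hTω.ne'
      linear_combination (2 * Real.pi * ρ ^ 2) * this
    rw [hM1, abs_mul, abs_of_pos hTinv]
    refine mul_le_mul_of_nonneg_left ?_ hTinv.le
    have hsplit : ∫ x, κ x * ((1 + (Fintype.card ι : ℝ)) * T x + ∑ i, (C₁ + 2 * cst (a i)))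
        = (∫ x, κ x * (1 * T x + 0)) + ∫ x, κ x * ((Fintype.card ι : ℝ) * T x + ∑ i, (C₁ + 2 * cst (a i))) := by
      rw [← integral_add (hTκ hκc hκz 1 0) (hTκ hκc hκz _ _)]
      congr 1; funext x; ring
    rw [hsplit]
    refine (abs_add_le _ _).trans ?_
    rw [abs_mul, abs_of_pos twopi_pos, abs_of_nonneg hsum0, mul_add]
    have := mul_le_mul_of_nonneg_left habs twopi_pos.le
    linarith
  -- the inequality with the first order error
  have hineq : ∀ i ψ, Tst ψ → (∀ θ, 0 ≤ ψ θ) →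
      ∫ θ in (0)..(2 * Real.pi), V i θ * LS s ρ ψ θ
        ≤ M ψ + 2 * s * ∫ θ in (0)..(2 * Real.pi), e i θ * deriv ψ θ := by
    intro i ψ hψ hψ0
    have hc2 : Continuous (fun θ => (1 + s ^ 2) * deriv (deriv ψ) θ) := continuous_const.mul hψ.cont2
    have hcc1 : Continuous (fun θ => 2 * s * ρ * deriv ψ θ) := continuous_const.mul hψ.cont1
    have hc0 : Continuous (fun θ => ρ ^ 2 * ψ θ) := continuous_const.mul hψ.cont
    have hc12 : Continuous (fun θ => (1 + s ^ 2) * deriv (deriv ψ) θ + 2 * s * ρ * deriv ψ θ) := hc2.add hcc1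
    have hLL : Continuous (LS s ρ ψ) := hc12.add hc0
    rw [hVint i _ hLL, heint i _ hψ.cont1]
    have e1 : AA (vt i) ω (LS s ρ ψ) = (1 + s ^ 2) * AA (vt i) ω (deriv (deriv ψ))
        + 2 * s * ρ * AA (vt i) ω (deriv ψ) + ρ ^ 2 * AA (vt i) ω ψ := by
      have : LS s ρ ψ = fun θ => ((1 + s ^ 2) * deriv (deriv ψ) θ + 2 * s * ρ * deriv ψ θ) + ρ ^ 2 * ψ θ := rfl
      rw [this, AA_add_right (hSIv i) hCSω hc12 hc0, AA_add_right (hSIv i) hCSω hc2 hcc1,
        AA_smul_right, AA_smul_right, AA_smul_right]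
    have hCSρ : CS (fun x => ρ ^ 2 * ω x) x₀ x₁ :=
      ⟨continuous_const.mul hω.continuous, fun x hx => by simp only [hCSω.2 x hx, mul_zero]⟩
    have hCSs : CS (fun x => deriv (deriv ω) x + κ x) x₀ x₁ :=
      ⟨hω2c.add hκc, fun x hx => by simp only [hCSω2.2 x hx, hCSκ.2 x hx, add_zero]⟩
    have e2 : ρ ^ 2 * AA (vt i) ω ψ ≤ AA (vt i) (deriv (deriv ω)) ψ + AA (vt i) κ ψ := by
      rw [← AA_smul_mid, ← AA_add_mid (hSIv i) hCSω2 hCSκ hψ.cont]
      refine AA_mono_mid (hSIv i) (hv0 i) hCSρ hCSs (fun x => ?_) hψ.cont hψ0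
      have := neg_abs_le (deriv (deriv ω) x - ρ ^ 2 * ω x)
      simp only [hκ]
      linarith
    have hCSρω : CS (fun x => ρ * ω x) x₀ x₁ :=
      ⟨continuous_const.mul hω.continuous, fun x hx => by simp only [hCSω.2 x hx, mul_zero]⟩
    have e2' : AA (vt i) κ₁ (deriv ψ) = AA (vt i) (deriv ω) (deriv ψ) + ρ * AA (vt i) ω (deriv ψ) := by
      rw [← AA_smul_mid (G := vt i) (α := ω) ρ, ← AA_add_mid (hSIv i) hCSω1 hCSρω hψ.cont1]
    have e3 := JS_eq (hSIv i) hCSω hCSω1 hCSω2 hψ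
    have e4 := hrel i ψ hψ
    have e5 := hJu (a i) ψ hψ hψ0
    have e6 : AA (vt i) κ ψ ≤ ∑ j, AA (vt j) κ ψ :=
      Finset.single_le_sum (f := fun j => AA (vt j) κ ψ)
        (fun j _ => AA_nonneg (hv0 j) hκ0 hψ0) (Finset.mem_univ i)
    have e7 : AA (vt i) ω (LS s ρ ψ) ≤ (JS s α u₀ ω ψ + ∑ j, AA (vt j) κ ψ) + 2 * s * AA (vt i) κ₁ (deriv ψ) := by
      rw [e1, e2']
      have e8 : JS s α (v i) ω ψ ≤ JS s α u₀ ω ψ := by linarith
      rw [e3] at e8
      have e9 : AA (fun x θ => v i x (θ + s * (x - α))) (deriv (deriv ω)) ψ = AA (vt i) (deriv (deriv ω)) ψ := rfl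
      have e10 : AA (fun x θ => v i x (θ + s * (x - α))) (deriv ω) (deriv ψ) = AA (vt i) (deriv ω) (deriv ψ) := rfl
      have e11 : AA (fun x θ => v i x (θ + s * (x - α))) ω (deriv (deriv ψ)) = AA (vt i) ω (deriv (deriv ψ)) := rfl
      rw [e9, e10, e11] at e8
      linarith
    have e8 := mul_le_mul_of_nonneg_left e7 hTinv.le
    simp only [hM]
    linarith
  have hVper : ∀ i, Function.Periodic (V i) (2 * Real.pi) := by
    intro i θ
    simp only [hV, hvt, hv, hshift, hpert]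
  have heper : ∀ i, Function.Periodic (e i) (2 * Real.pi) := by
    intro i θ
    simp only [he, hvt, hv, hshift, hpert]
  have hV0 : ∀ i θ, 0 ≤ V i θ := fun i θ =>
    mul_nonneg hTinv.le (integral_nonneg fun x => mul_nonneg (hv0 i x θ) (hω0 x))
  have hVii : ∀ i, IntervalIntegrable (V i) volume 0 (2 * Real.pi) := fun i =>
    (AA_ii (hSIv i) hCSω).const_mul _
  have heii : ∀ i, IntervalIntegrable (e i) volume 0 (2 * Real.pi) := fun i =>
    (AA_ii (hSIv i) hCSκ₁).const_mul _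
  have heE : ∀ i, ∫ θ in (0)..(2 * Real.pi), |e i θ| ≤ X₂ := by
    intro i
    refine le_trans ?_ (hE i)
    rw [AA_swap (hSIv i) hCSκ₂ continuous_const, ← intervalIntegral.integral_const_mul]
    refine intervalIntegral.integral_mono_on twopi_pos.le (heii i).abs ?_ (fun θ _ => ?_)
    · have h3 := (AA_ii (hSIv i) hCSκ₂).const_mul Tω⁻¹
      simp only [mul_one]
      exact h3
    · simp only [he]
      rw [abs_mul, abs_of_pos hTinv, mul_one]
      refine mul_le_mul_of_nonneg_left ?_ hTinv.le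
      refine (abs_integral_le_integral_abs).trans (le_of_eq ?_)
      congr 1; funext x
      rw [abs_mul, abs_of_nonneg (hv0 i x θ)]
  obtain ⟨V', M', k1, k2, k3, k4, k5, k6, k7⟩ := correctS hρ V e hMpos hVper hV0 hVii heper heii hX₂0 heE hineq
  refine ⟨V', M', k1, k2, k3, k4, ?_, k6, ?_, ?_⟩
  · have h3 : M' (fun _ => 1) - 2 * Real.pi * ρ ^ 2
        = (M' (fun _ => 1) - M (fun _ => 1)) + (M (fun _ => 1) - 2 * Real.pi * ρ ^ 2) := by ring
    rw [h3]
    refine (abs_add_le _ _).trans ?_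
    linarith
  · -- lower bound for the sum of means
    intro D hD
    have e0 : ∀ i, ∫ θ in (0)..(2 * Real.pi), V i θ = Tω⁻¹ * AA (vt i) ω (fun _ => 1) := by
      intro i
      rw [← hVint i _ continuous_const]
      simp only [mul_one]
    have hVD : D ≤ ∑ i, (1 / (2 * Real.pi)) * ∫ θ in (0)..(2 * Real.pi), V i θ := by
      simp only [e0]
      have e1 : ∑ i, (1 / (2 * Real.pi)) * (Tω⁻¹ * AA (vt i) ω (fun _ => 1))
          = Tω⁻¹ * ∑ i, (1 / (2 * Real.pi)) * AA (vt i) ω (fun _ => 1) := by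
        rw [Finset.mul_sum]
        exact Finset.sum_congr rfl fun i _ => by ring
      rw [e1]
      have e2 : D * Tω ≤ ∑ i, (1 / (2 * Real.pi)) * AA (vt i) ω (fun _ => 1) := by
        have e3 : ∑ i, (1 / (2 * Real.pi)) * AA (vt i) ω (fun _ => 1)
            = ∫ x, ∑ i, (1 / (2 * Real.pi)) * ∫ θ in (0)..(2 * Real.pi), vt i x θ * (ω x * 1) := by
          rw [integral_finsetSum _ (fun i _ => (AA_ix (hSIv i) hCSω continuous_const).const_mul _)]
          exact Finset.sum_congr rfl fun i _ => by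
            rw [integral_const_mul]; rfl
        rw [e3, hTωd, ← integral_const_mul]
        refine integral_mono ((int_T hf hω.continuous hsupp).const_mul _)
          (integrable_finsetSum _ fun i _ => (AA_ix (hSIv i) hCSω continuous_const).const_mul _) fun x => ?_
        simp only
        have e4 : ∀ i, (1 / (2 * Real.pi)) * ∫ θ in (0)..(2 * Real.pi), vt i x θ * (ω x * 1)
            = ω x * Real.circleAverage (fun z => vv f (a i) z + cst (a i)) 0 (Real.exp x) := by
          intro i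
          rw [intervalIntegral.integral_mul_const, hmean, mul_one]
          have := twopi_pos.ne'
          field_simp
        simp only [e4]
        rw [← Finset.mul_sum]
        by_cases hx : x ∈ Icc α β
        · have h3 := hD x hx
          have h4 : ∑ i, proximity f (a i) (Real.exp x)
              ≤ ∑ i, Real.circleAverage (fun z => vv f (a i) z + cst (a i)) 0 (Real.exp x) :=
            Finset.sum_le_sum fun i _ => mean_vv_ge hf (a i) _
          have h5 := mul_le_mul_of_nonneg_left (h3.trans h4) (hω0 x)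
          simp only [hT]
          linarith
        · rw [hsupp x hx]; simp
      rw [inv_mul_eq_div, le_div_iff₀ hTω]
      exact e2
    refine hVD.trans ?_
    have e5 : ∀ i, (1 / (2 * Real.pi)) * ∫ θ in (0)..(2 * Real.pi), V i θ
        ≤ (1 / (2 * Real.pi)) * (∫ θ in (0)..(2 * Real.pi), V' i θ) + 4 * X₂ := by
      intro i
      have h3 : ∫ θ in (0)..(2 * Real.pi), V i θ ≤ ∫ θ in (0)..(2 * Real.pi), (V' i θ + 4 * X₂) := by
        refine intervalIntegral.integral_mono_on twopi_pos.le (hVii i) ((k3 i).add intervalIntegrable_const)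
          (fun θ _ => ?_)
        have := (abs_le.1 (k7 i θ)).1
        linarith
      rw [intervalIntegral.integral_add (k3 i) intervalIntegrable_const,
        intervalIntegral.integral_const, smul_eq_mul, sub_zero] at h3
      have h4 := mul_le_mul_of_nonneg_left h3 (by positivity : 0 ≤ 1 / (2 * Real.pi))
      have h5 : 1 / (2 * Real.pi) * ((∫ θ in (0)..(2 * Real.pi), V' i θ) + 2 * Real.pi * (4 * X₂))
          = (1 / (2 * Real.pi)) * (∫ θ in (0)..(2 * Real.pi), V' i θ) + 4 * X₂ := by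
        have := twopi_pos.ne'
        field_simp
      linarith
    calc ∑ i, (1 / (2 * Real.pi)) * ∫ θ in (0)..(2 * Real.pi), V i θ
        ≤ ∑ i, ((1 / (2 * Real.pi)) * (∫ θ in (0)..(2 * Real.pi), V' i θ) + 4 * X₂) :=
          Finset.sum_le_sum fun i _ => e5 i
      _ = _ := by rw [Finset.sum_add_distrib, Finset.sum_const, nsmul_eq_mul, Finset.card_univ]
  · -- pointwise bound
    intro B hB i
    have hnear := ae_slice (G := fun x θ => near f (a i) (pt x (θ + s * (x - α)))) (x₀ := x₀) (x₁ := x₁)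
      (fun b d => shear_strip (G := fun x θ => near f (a i) (pt x θ)) s α
        (fun b d => strip_near hf (a i) x₀ x₁ b d) b d)
    filter_upwards [hnear] with θ hθ
    have hV' := (abs_le.1 (k7 i θ)).2
    refine le_trans (by linarith : V' i θ ≤ V i θ + 4 * X₂) ?_
    refine add_le_add ?_ le_rfl
    simp only [hV]
    refine mul_le_mul_of_nonneg_left ?_ hTinv.le
    have hB0 : 0 ≤ B := (hω0 α).trans (hB α)
    have hsub : Icc α β ⊆ Ioo x₀ x₁ := fun x hx => ⟨by linarith [hx.1], by linarith [hx.2]⟩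
    have hint1 : IntegrableOn (fun x => near f (a i) (pt x (θ + s * (x - α)))) (Icc α β) := hθ.mono_set hsub
    have hintc : IntegrableOn (fun _ : ℝ => 2 * cst (a i)) (Icc α β) :=
      continuous_const.integrableOn_Icc
    have hint2 : IntegrableOn (fun x => near f (a i) (pt x (θ + s * (x - α))) + 2 * cst (a i)) (Icc α β) :=
      hint1.add hintc
    have hint3' : IntegrableOn (fun x => B * (near f (a i) (pt x (θ + s * (x - α))) + 2 * cst (a i))) (Icc α β) :=
      Integrable.const_mul hint2 B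
    have hint3 : Integrable ((Icc α β).indicator
        (fun x => B * (near f (a i) (pt x (θ + s * (x - α))) + 2 * cst (a i)))) :=
      hint3'.integrable_indicator measurableSet_Icc
    have hle : ∫ x, vt i x θ * ω x ≤ ∫ x, (Icc α β).indicator
        (fun x => B * (near f (a i) (pt x (θ + s * (x - α))) + 2 * cst (a i))) x := by
      refine integral_mono_of_nonneg (Eventually.of_forall fun x => mul_nonneg (hv0 i x θ) (hω0 x))
        hint3 (Eventually.of_forall fun x => ?_)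
      simp only
      by_cases hx : x ∈ Icc α β
      · rw [indicator_of_mem hx]
        have h4 := vv_add_le f (a i) (pt x (θ + s * (x - α)))
        have h5 : vt i x θ ≤ near f (a i) (pt x (θ + s * (x - α))) + 2 * cst (a i) := h4
        calc vt i x θ * ω x ≤ vt i x θ * B := mul_le_mul_of_nonneg_left (hB x) (hv0 i x θ)
          _ ≤ (near f (a i) (pt x (θ + s * (x - α))) + 2 * cst (a i)) * B := mul_le_mul_of_nonneg_right h5 hB0
          _ = _ := by ring
      · rw [indicator_of_notMem hx, hsupp x hx]; simp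
    refine hle.trans (le_of_eq ?_)
    rw [integral_indicator measurableSet_Icc, integral_const_mul,
      intervalIntegral.integral_of_le hαβ, ← integral_Icc_eq_integral_Ioc,
      integral_add hint1 hintc,
      setIntegral_const, Real.volume_real_Icc_of_le hαβ, smul_eq_mul]
    ring

end DW24
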