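import Pool.Agent.DW24.PeakP
import Pool.Agent.DW24.FinalSumS

/-!
The main theorem near a sequence of Polya peaks.
-/

set_option autoImplicit false

open MeasureTheory Filter Topology Set ValueDistribution

namespace DW24

/-- The integral of `near f a` over the spiral arc `z = r exp (y + i (φ + s y))`,
`-h ≤ y ≤ h`, divided by the integral of the characteristic over the same radii. -/
noncomputable def AvP (f : ℂ → ℂ) (a : WithTop ℂ) (s : ℝ) (h : ℕ) (r φ : ℝ) : ℝ :=
  (∫ y in (-(h : ℝ))..h, near f a (circleMap 0 (r * Real.exp y) (φ + s * y))) /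
    ∫ y in (-(h : ℝ))..h, characteristic f ⊤ (r * Real.exp y)

/-- Separation near the radii `r n` by arcs of logarithmic spirals of pitch `σ h n`. -/
def SepP (f : ℂ → ℂ) (r : ℕ → ℝ) (σ : ℕ → ℕ → ℝ) (a b : WithTop ℂ) : Prop :=
  ∀ h : ℕ, 1 ≤ h → ∀ ε : ℝ, 0 < ε →
    Tendsto (fun n : ℕ => volume {φ : ℝ | φ ∈ Ioc 0 (2 * Real.pi) ∧
      ε < min (AvP f a (σ h n) h (r n) φ) (AvP f b (σ h n) h (r n) φ)}) atTop (𝓝 0)

lemma AvP_measurable {f : ℂ → ℂ} (hf : Meromorphic f) (c : WithTop ℂ) (s : ℝ) (h : ℕ) (r : ℝ) :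
    Measurable (fun φ => AvP f c s h r φ) := by
  have h1 : Measurable (fun p : ℝ × ℝ => near f c (circleMap 0 (r * Real.exp p.2) (p.1 + s * p.2))) := by
    have h2 : Measurable f := hf.measurable
    have h3 : Measurable (fun p : ℝ × ℝ => circleMap 0 (r * Real.exp p.2) (p.1 + s * p.2)) := by
      unfold circleMap
      fun_prop
    cases c with
    | top =>
      have : Measurable (fun p : ℝ × ℝ => ‖f (circleMap 0 (r * Real.exp p.2) (p.1 + s * p.2))‖) :=
        (h2.comp h3).norm
      exact Real.continuous_posLog.measurable.comp this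
    | coe c =>
      have : Measurable (fun p : ℝ × ℝ => ‖f (circleMap 0 (r * Real.exp p.2) (p.1 + s * p.2)) - c‖⁻¹) :=
        ((h2.comp h3).sub_const c).norm.inv
      exact Real.continuous_posLog.measurable.comp this
  unfold AvP
  refine Measurable.div_const ?_ _
  have hh : (-(h : ℝ)) ≤ h := by
    have : (0 : ℝ) ≤ (h : ℝ) := Nat.cast_nonneg _
    linarith
  have e : (fun φ : ℝ => ∫ y in (-(h : ℝ))..h, near f c (circleMap 0 (r * Real.exp y) (φ + s * y)))
      = fun φ => ∫ y, near f c (circleMap 0 (r * Real.exp y) (φ + s * y))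
          ∂(volume.restrict (Ioc (-(h : ℝ)) h)) := by
    funext φ
    rw [intervalIntegral.integral_of_le hh]
  rw [e]
  exact (h1.stronglyMeasurable.integral_prod_right (ν := volume.restrict (Ioc (-(h : ℝ)) h))).measurable

lemma AvP_per (f : ℂ → ℂ) (c : WithTop ℂ) (s : ℝ) (h : ℕ) (r φ : ℝ) :
    AvP f c s h r (φ + 2 * Real.pi) = AvP f c s h r φ := by
  unfold AvP
  congr 1
  congr 1
  funext y
  rw [show φ + 2 * Real.pi + s * y = (φ + s * y) + 2 * Real.pi by ring, periodic_circleMap 0 _ _]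

/-- the measure of a `2π`-periodic set in a period does not depend on the period -/
lemma measure_shift {A : Set ℝ} (hA : MeasurableSet A) (hp : ∀ θ : ℝ, θ + 2 * Real.pi ∈ A ↔ θ ∈ A) (t : ℝ) :
    volume (A ∩ Set.Ioc 0 (2 * Real.pi)) = volume ((fun θ => θ + t) ⁻¹' A ∩ Set.Ioc 0 (2 * Real.pi)) := by
  have hpi : 0 < 2 * Real.pi := by positivity
  have hz : ∀ (n : ℤ) (θ : ℝ), n • (2 * Real.pi) + θ ∈ A ↔ θ ∈ A := by
    intro n θ
    have h1 : Function.Periodic (fun θ => θ ∈ A) (2 * Real.pi) := fun θ => propext (hp θ)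
    have h2 := h1.zsmul n θ
    rw [add_comm]
    exact iff_of_eq h2
  have h0 := isAddFundamentalDomain_Ioc' hpi 0 (μ := volume)
  have h1 := isAddFundamentalDomain_Ioc' hpi t (μ := volume)
  have h2 := h0.measure_set_eq h1 hA (fun g => by
    obtain ⟨g, hg⟩ := g
    obtain ⟨n, hn⟩ := AddSubgroup.mem_zmultiples_iff.1 (AddSubgroup.mem_op.1 hg)
    ext θ
    simp only [Set.mem_preimage]
    have : ((⟨g, hg⟩ : (AddSubgroup.zmultiples (2 * Real.pi)).op) +ᵥ θ : ℝ) = n • (2 * Real.pi) + θ := by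
      rw [hn]
      show θ + AddOpposite.unop g = _
      rw [add_comm]
    rw [this]
    exact hz n θ)
  rw [zero_add] at h2
  rw [h2]
  have h3 := (measurePreserving_add_right volume t).measure_preimage
    (s := A ∩ Set.Ioc t (t + 2 * Real.pi)) (hA.inter measurableSet_Ioc).nullMeasurableSet
  rw [← h3]
  congr 1
  ext θ
  simp only [Set.mem_preimage, Set.mem_inter_iff, Set.mem_Ioc]
  constructor
  · rintro ⟨h4, h5, h6⟩; exact ⟨h4, by linarith, by linarith⟩
  · rintro ⟨h4, h5, h6⟩; exact ⟨h4, by linarith, by linarith⟩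

theorem liminf_sum_le_of_sepP {f : ℂ → ℂ} (hf : Meromorphic f) {ρ : ℝ} (hρ : 1 ≤ ρ) {r : ℕ → ℝ}
    (hr : Peaks (characteristic f ⊤) ρ r)
    {ι : Type*} [Fintype ι] (a : ι → WithTop ℂ) (σ : ℕ → ℕ → ℝ)
    (hsep : ∀ i j, i ≠ j → SepP f r σ (a i) (a j)) :
    liminf (fun r : ℝ => (((∑ i, proximity f (a i) r) / characteristic f ⊤ r : ℝ) : EReal)) atTop
      ≤ ((Lam ρ : ℝ) : EReal) := by
  classical
  have hρ0 : 0 < ρ := by linarith
  have hT := T_tendsto_of_peaks hf hρ0 hr
  have hne := ne_codiscrete hf hT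
  have hmono := mono_T hf
  obtain ⟨hr1, hr2, C, hC⟩ := hr
  choose C₀ hC₀ hCp using fun i => proximity_le hf (a i)
  set C₁ := ∑ i, C₀ i with hC₁d
  have hC₁0 : 0 ≤ C₁ := Finset.sum_nonneg fun i _ => hC₀ i
  have hC₁ : ∀ i r, 1 ≤ r → proximity f (a i) r ≤ characteristic f ⊤ r + C₁ := by
    intro i r hr
    have h1 := hCp i r hr
    have h2 := Finset.single_le_sum (f := C₀) (fun j _ => hC₀ j) (Finset.mem_univ i)
    linarith
  set cc : ℝ := ∑ i, cst (a i) with hcc
  have hcc0 : 0 ≤ cc := Finset.sum_nonneg fun i _ => cst_nonneg _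
  have hcci : ∀ i, cst (a i) ≤ cc := fun i =>
    Finset.single_le_sum (f := fun i => cst (a i)) (fun j _ => cst_nonneg _) (Finset.mem_univ i)
  have hη : ∀ n : ℕ, (0 : ℝ) < 1 / (n + 1) := fun n => by positivity
  set A₀ : ℝ := 1 + Fintype.card ι with hA₀
  set B₀ : ℝ := ∑ i, (C₁ + 2 * cst (a i)) with hB₀
  have hA₀0 : 0 ≤ A₀ := by positivity
  have hB₀0 : 0 ≤ B₀ := Finset.sum_nonneg fun i _ => by have := cst_nonneg (a i); linarith
  obtain ⟨Cw, hCw, hwin⟩ := window_assemble hf hρ0
  set K : ℕ → ℝ := fun n => max 1 (2 * Real.pi * (Cw * (A₀ + B₀)) / (1 / ((n : ℝ) + 1))) with hK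
  have hK1 : ∀ n, 1 ≤ K n := fun n => le_max_left _ _
  have hKη : ∀ n : ℕ, 2 * Real.pi * (Cw * (A₀ + B₀)) ≤ (1 / ((n : ℝ) + 1)) * K n := by
    intro n
    have h1 := le_max_right 1 (2 * Real.pi * (Cw * (A₀ + B₀)) / (1 / ((n : ℝ) + 1)))
    rw [div_le_iff₀ (hη n)] at h1
    simp only [hK]
    linarith
  choose L hL using fun n => exists_light (K n) (max C 1) (Real.exp (-ρ)) (hK1 n)
    (lt_of_lt_of_le one_pos (le_max_right _ _)) (Real.exp_pos _)
  -- the threshold x₀
  have hτT : Tendsto (fun x => characteristic f ⊤ (Real.exp x)) atTop atTop :=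
    hT.comp Real.tendsto_exp_atTop
  obtain ⟨x₁, hx₁⟩ := (tendsto_atTop.mp hτT 1).exists_forall_of_atTop
  set x₀ : ℝ := max x₁ 0 with hx₀
  have hge1 : ∀ x, x₀ ≤ x → 1 ≤ characteristic f ⊤ (Real.exp x) :=
    fun x hx => hx₁ x ((le_max_left _ _).trans hx)
  -- constants
  set G : ℕ → ℝ := fun n => 2 * Real.exp (ρ * (2 * (L n + 1))) with hG
  have hG0 : ∀ n, 0 < G n := fun n => by positivity
  set ε : ℕ → ℝ := fun n => 1 / (n + 1) / (2 * G n) with hε
  have hε0 : ∀ n, 0 < ε n := fun n => by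
    have := hG0 n
    have := hη n
    simp only [hε]; positivity
  have hlr : Tendsto (fun N => Real.log (r N)) atTop atTop := Real.tendsto_log_atTop.comp hr1
  have hX : ∀ n : ℕ, ∃ N : ℕ, n ≤ N ∧ 0 < r N ∧
      (∀ i j, i ≠ j → ∀ h : ℕ, 1 ≤ h → h ≤ L n + 1 →
        volume {θ : ℝ | θ ∈ Ioc 0 (2 * Real.pi) ∧
          ε n < min (AvP f (a i) (σ h N) h (r N) θ) (AvP f (a j) (σ h N) h (r N) θ)}
          ≤ ENNReal.ofReal ((1 / 2) ^ n)) ∧
      (∀ t ∈ Icc (r N / Real.exp (L n + 1)) (Real.exp (L n + 1) * r N),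
        characteristic f ⊤ t ≤ C * (t / r N) ^ ρ * characteristic f ⊤ (r N)) ∧
      max x₀ (n : ℝ) ≤ Real.log (r N) - (L n + 1) ∧
      2 * cc / (1 / (n + 1) / (2 * G n)) ≤ characteristic f ⊤ (Real.exp (Real.log (r N) - (L n + 1))) := by
    intro n
    have e1 : ∀ᶠ N : ℕ in atTop, ∀ i j, i ≠ j → ∀ h : ℕ, 1 ≤ h → h ≤ L n + 1 →
        volume {θ : ℝ | θ ∈ Ioc 0 (2 * Real.pi) ∧
          ε n < min (AvP f (a i) (σ h N) h (r N) θ) (AvP f (a j) (σ h N) h (r N) θ)}
          ≤ ENNReal.ofReal ((1 / 2) ^ n) := by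
      rw [eventually_all]; intro i
      rw [eventually_all]; intro j
      by_cases hij : i = j
      · exact Eventually.of_forall fun k h => absurd hij h
      have e2 : ∀ᶠ N : ℕ in atTop, ∀ h ∈ Finset.Icc 1 (L n + 1),
          volume {θ : ℝ | θ ∈ Ioc 0 (2 * Real.pi) ∧
            ε n < min (AvP f (a i) (σ h N) h (r N) θ) (AvP f (a j) (σ h N) h (r N) θ)}
          ≤ ENNReal.ofReal ((1 / 2) ^ n) := by
        rw [Filter.eventually_all_finset]
        intro h hh
        have h3 := hsep i j hij h (Finset.mem_Icc.1 hh).1 (ε n) (hε0 n)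
        have h4 : (0 : ENNReal) < ENNReal.ofReal ((1 / 2) ^ n) := ENNReal.ofReal_pos.2 (by positivity)
        exact (h3.eventually_lt_const h4).mono fun k hk => hk.le
      filter_upwards [e2] with k hk _ h h1 h2
      exact hk h (Finset.mem_Icc.2 ⟨h1, h2⟩)
    have hR1 : (1 : ℝ) ≤ Real.exp (L n + 1) := Real.one_le_exp (by positivity)
    have e2 := hC (Real.exp (L n + 1)) hR1
    have hlr2 : Tendsto (fun N => Real.log (r N) - (L n + 1)) atTop atTop :=
      tendsto_atTop_add_const_right _ (-((L n : ℝ) + 1)) hlr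
    have e3 := hlr2.eventually_ge_atTop (max x₀ (n : ℝ))
    have e4 := (hτT.comp hlr2).eventually_ge_atTop (2 * cc / (1 / (n + 1) / (2 * G n)))
    obtain ⟨N, h1, h2, h3, h4, h5, h6⟩ := (e1.and (e2.and (e3.and (e4.and
      ((eventually_ge_atTop n).and (hr1.eventually_gt_atTop 0)))))).exists
    exact ⟨N, h5, h6, h1, h2, h3, h4⟩
  choose N hNn hrN hNsep hNpk hNx hNT using hX
  set x : ℕ → ℝ := fun n => Real.log (r (N n)) with hx
  have hex : ∀ n, Real.exp (x n) = r (N n) := fun n => Real.exp_log (hrN n)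
  -- light windows
  have hlight : ∀ n, ∃ h : ℕ, 1 ≤ h ∧ h ≤ L n ∧
      K n * ((∫ y in (x n - h - 1)..(x n - h), characteristic f ⊤ (Real.exp y) * Real.exp (-ρ * y))
        + ∫ y in (x n + h)..(x n + h + 1), characteristic f ⊤ (Real.exp y) * Real.exp (-ρ * y))
          ≤ ∫ y in (x n - h)..(x n + h), characteristic f ⊤ (Real.exp y) * Real.exp (-ρ * y) := by
    intro n
    have hTx : 0 < characteristic f ⊤ (r (N n)) := hr2 _
    have hge : max x₀ (n : ℝ) ≤ x n - (L n + 1) := hNx n
    have hcont : Continuous (fun y : ℝ => Real.exp (-ρ * y)) := by fun_prop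
    refine hL n (fun y => characteristic f ⊤ (Real.exp y) * Real.exp (-ρ * y)) (x n)
      (characteristic f ⊤ (r (N n)) * Real.exp (-ρ * x n)) (mul_pos hTx (Real.exp_pos _)) ?_ ?_ ?_ ?_
    · intro u v
      exact (hmono.intervalIntegrable).mul_continuousOn hcont.continuousOn
    · intro y hy
      have h1 : x₀ ≤ y := by
        have h2 := (abs_le.1 hy).1
        have h3 := (le_max_left x₀ (n : ℝ)).trans hge
        linarith
      exact mul_nonneg (by linarith [hge1 y h1]) (Real.exp_pos _).le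
    · intro y hy
      rw [abs_le] at hy
      have h1 := hNpk n (Real.exp y) ⟨by
        rw [← hex n, ← Real.exp_sub]
        exact Real.exp_le_exp.2 (by linarith [hy.1]), by
        rw [← hex n, ← Real.exp_add]
        exact Real.exp_le_exp.2 (by linarith [hy.2])⟩
      have h2 : (Real.exp y / r (N n)) ^ ρ = Real.exp (ρ * (y - x n)) := by
        rw [← hex n, ← Real.exp_sub, ← Real.exp_mul, mul_comm]
      rw [h2] at h1
      have h3 := mul_le_mul_of_nonneg_right h1 (Real.exp_pos (-ρ * y)).le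
      refine h3.trans ?_
      have h4 : C * Real.exp (ρ * (y - x n)) * characteristic f ⊤ (r (N n)) * Real.exp (-ρ * y)
          = C * (characteristic f ⊤ (r (N n)) * Real.exp (-ρ * x n)) := by
        have : Real.exp (-ρ * x n) = Real.exp (ρ * (y - x n)) * Real.exp (-ρ * y) := by
          rw [← Real.exp_add]; congr 1; ring
        rw [this]; ring
      rw [h4]
      exact mul_le_mul_of_nonneg_right (le_max_left _ _) (mul_pos hTx (Real.exp_pos _)).le
    · -- lower bound on [x, x+1]
      have hii : ∀ u v : ℝ, IntervalIntegrable (fun y => characteristic f ⊤ (Real.exp y) * Real.exp (-ρ * y))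
          volume u v := fun u v => (hmono.intervalIntegrable).mul_continuousOn hcont.continuousOn
      have e1 := intervalIntegral.integral_add_adjacent_intervals (hii (x n - 1) (x n)) (hii (x n) (x n + 1))
      rw [← e1]
      have hxx : x₀ + 1 ≤ x n := by
        have h3 := (le_max_left x₀ (n : ℝ)).trans hge
        have h4 : (0 : ℝ) ≤ (L n : ℝ) := Nat.cast_nonneg _
        linarith
      have e2 : 0 ≤ ∫ y in (x n - 1)..(x n), characteristic f ⊤ (Real.exp y) * Real.exp (-ρ * y) := by
        refine intervalIntegral.integral_nonneg (by linarith) fun y hy => ?_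
        exact mul_nonneg (by linarith [hge1 y (by linarith [hy.1])]) (Real.exp_pos _).le
      have e3 : ∫ _y in (x n)..(x n + 1), Real.exp (-ρ) * (characteristic f ⊤ (r (N n)) * Real.exp (-ρ * x n))
          ≤ ∫ y in (x n)..(x n + 1), characteristic f ⊤ (Real.exp y) * Real.exp (-ρ * y) := by
        refine intervalIntegral.integral_mono_on (by linarith) intervalIntegrable_const (hii _ _) fun y hy => ?_
        have h1 : characteristic f ⊤ (r (N n)) ≤ characteristic f ⊤ (Real.exp y) := by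
          rw [← hex n]
          exact hmono hy.1
        have h2 : Real.exp (-ρ) * Real.exp (-ρ * x n) ≤ Real.exp (-ρ * y) := by
          rw [← Real.exp_add]
          refine Real.exp_le_exp.2 ?_
          have := mul_le_mul_of_nonneg_left hy.2 hρ0.le
          linarith
        calc Real.exp (-ρ) * (characteristic f ⊤ (r (N n)) * Real.exp (-ρ * x n))
            = characteristic f ⊤ (r (N n)) * (Real.exp (-ρ) * Real.exp (-ρ * x n)) := by ring
          _ ≤ _ := mul_le_mul h1 h2 (by positivity) (hTx.le.trans h1)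
      rw [intervalIntegral.integral_const, smul_eq_mul, add_sub_cancel_left, one_mul] at e3
      linarith
  choose h hh1 hhL hhK using hlight
  set H : ℕ → ℕ := fun n => h n + 1 with hH
  have hH1 : ∀ n, 1 ≤ H n := fun n => by simp only [hH]; omega
  have hHL : ∀ n, H n ≤ L n + 1 := fun n => by simp only [hH]; have := hhL n; omega
  have hHc : ∀ n, (H n : ℝ) = h n + 1 := fun n => by simp only [hH]; push_cast; ring
  have hHr : ∀ n, (1 : ℝ) ≤ H n := fun n => by exact_mod_cast hH1 n
  have hHLr : ∀ n, (H n : ℝ) ≤ L n + 1 := fun n => by exact_mod_cast hHL n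
  have hαx : ∀ n : ℕ, max x₀ (n : ℝ) ≤ x n - H n := fun n => (hNx n).trans (by
    have := hHLr n
    simp only [hx]
    linarith)
  choose ω hω hω0 hωle hsupp hTω hη1 hη2 hwin2 using fun n : ℕ =>
    hwin A₀ B₀ hA₀0 hB₀0 (1 / ((n : ℝ) + 1)) (hη n) (K n) (hK1 n) (hKη n) x₀ hge1
      (x n - H n) (x n + h n) (by
        have := hHc n
        have h3 : (1 : ℝ) ≤ h n := by exact_mod_cast hh1 n
        linarith) ((le_max_left _ _).trans (hαx n)) (by
        have h3 := hhK n
        have e1 : x n - (H n : ℝ) = x n - h n - 1 := by rw [hHc n]; ring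
        have e2 : x n - h n - 1 + 1 = x n - h n := by ring
        rw [e1, e2]
        exact h3)
  have hβ : ∀ n, x n + h n + 1 = x n + (H n : ℝ) := fun n => by rw [hHc n]; ring
  simp only [hβ] at hsupp hwin2
  set s : ℕ → ℝ := fun n => σ (H n) (N n) with hs
  have hx₀0 : 0 ≤ x₀ := le_max_right _ _
  choose V M h1 h2 h3 h4 h5 h6 h7 h8 using fun n : ℕ =>
    window_dataS hf hne a hρ0 (s n) (hω n) (hω0 n) (α := x n - H n) (β := x n + H n)
      (by linarith [(le_max_left x₀ (n : ℝ)).trans (hαx n)])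
      (by linarith [hHr n]) (hsupp n) (hTω n) hC₁0 hC₁
      (hη1 n) (hη2 n)
  have hηt : Tendsto (fun n : ℕ => (1 : ℝ) / (n + 1)) atTop (𝓝 0) := tendsto_one_div_add_atTop_nhds_zero_nat
  have hM1 : Tendsto (fun n => M n (fun _ => 1)) atTop (𝓝 (2 * Real.pi * ρ ^ 2)) := by
    rw [tendsto_iff_dist_tendsto_zero]
    have hc : Tendsto (fun n : ℕ => (1 : ℝ) / (n + 1) + (8 * Real.pi * ρ ^ 2 + 8 * ρ * Fintype.card ι) *
        ((1 : ℝ) / (n + 1))) atTop (𝓝 0) := by
      have := hηt.add (hηt.const_mul (8 * Real.pi * ρ ^ 2 + 8 * ρ * Fintype.card ι))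
      simpa using this
    exact squeeze_zero (fun n => dist_nonneg) (fun n => by
      rw [Real.dist_eq]; exact h5 n) hc
  -- the pointwise bound of V by AvP
  have key : ∀ n i, ∀ᵐ θ : ℝ, V n i θ ≤ G n * AvP f (a i) (s n) (H n) (r (N n)) (θ + s n * H n)
      + 1 / (n + 1) / 2 + 4 * (1 / (n + 1)) := by
    intro n i
    have hmm := hHr n
    have hb := h8 n (Real.exp (-ρ * (x n - H n))) (fun y => by
      by_cases hy : y ∈ Icc (x n - H n) (x n + H n)
      · refine (hωle n y).trans (Real.exp_le_exp.2 ?_)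
        have := mul_le_mul_of_nonneg_left hy.1 hρ0.le
        linarith
      · rw [hsupp n y hy]; positivity) i
    filter_upwards [hb] with θ hθ
    refine hθ.trans (add_le_add ?_ le_rfl)
    have hx0 : x₀ ≤ x n - H n := (le_max_left x₀ (n : ℝ)).trans (hαx n)
    have hTk1 : (1 : ℝ) ≤ characteristic f ⊤ (Real.exp (x n - H n)) := hge1 _ hx0
    have hTk2 : 2 * cc / (1 / (n + 1) / (2 * G n)) ≤ characteristic f ⊤ (Real.exp (x n - H n)) :=
      (hNT n).trans (hmono (by
        have := hHLr n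
        simp only [hx]
        linarith))
    set I : ℝ := ∫ y in (x n - H n)..(x n + H n), characteristic f ⊤ (Real.exp y) with hI
    have hII : ∀ u v : ℝ, IntervalIntegrable (fun y => characteristic f ⊤ (Real.exp y)) volume u v :=
      fun u v => hmono.intervalIntegrable
    have hI1 : (2 * (H n : ℝ)) * characteristic f ⊤ (Real.exp (x n - H n)) ≤ I := by
      have e1 : ∫ y in (x n - H n)..(x n + H n), characteristic f ⊤ (Real.exp (x n - H n))
          = (2 * (H n : ℝ)) * characteristic f ⊤ (Real.exp (x n - H n)) := by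
        rw [intervalIntegral.integral_const, smul_eq_mul]; ring
      rw [← e1]
      exact intervalIntegral.integral_mono_on (by linarith) intervalIntegrable_const (hII _ _)
        (fun y hy => hmono hy.1)
    have hIpos : 0 < I := lt_of_lt_of_le (by positivity) hI1
    set Tω : ℝ := ∫ y, characteristic f ⊤ (Real.exp y) * ω n y with hTωd
    have hTωn : 0 < Tω := hTω n
    have hlow2 : Real.exp (-ρ * (x n + H n)) * I ≤ 2 * Tω := by
      refine le_trans ?_ (hwin2 n)
      rw [hI, ← intervalIntegral.integral_const_mul]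
      refine intervalIntegral.integral_mono_on (by linarith) ((hII _ _).const_mul _) ?_ (fun y hy => ?_)
      · refine (hII _ _).mul_continuousOn ?_
        exact (Real.continuous_exp.comp (continuous_const.mul continuous_id)).continuousOn
      · rw [mul_comm]
        refine mul_le_mul_of_nonneg_left (Real.exp_le_exp.2 ?_) ?_
        · have := mul_le_mul_of_nonneg_left hy.2 hρ0.le
          linarith
        · linarith [hge1 y (hx0.trans hy.1)]
    have hkey : Tω⁻¹ * Real.exp (-ρ * (x n - H n)) ≤ G n / I := by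
      rw [inv_mul_eq_div, div_le_div_iff₀ hTωn hIpos]
      have e1 : Real.exp (-ρ * (x n - H n)) = Real.exp (ρ * (2 * H n)) * Real.exp (-ρ * (x n + H n)) := by
        rw [← Real.exp_add]; congr 1; ring
      have e2 : Real.exp (ρ * (2 * H n)) ≤ Real.exp (ρ * (2 * (L n + 1))) := Real.exp_le_exp.2
        (mul_le_mul_of_nonneg_left (by linarith [hHLr n]) hρ0.le)
      calc Real.exp (-ρ * (x n - H n)) * I = Real.exp (ρ * (2 * H n)) * (Real.exp (-ρ * (x n + H n)) * I) := by
            rw [e1]; ring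
        _ ≤ Real.exp (ρ * (2 * (L n + 1))) * (2 * Tω) :=
            mul_le_mul e2 hlow2 (by positivity) (by positivity)
        _ = G n * Tω := by simp only [hG]; ring
    -- change of variables
    have hcv1 : ∫ y in (-(H n : ℝ))..(H n), characteristic f ⊤ (r (N n) * Real.exp y) = I := by
      have e1 : ∀ y : ℝ, characteristic f ⊤ (r (N n) * Real.exp y) = characteristic f ⊤ (Real.exp (x n + y)) := by
        intro y; rw [Real.exp_add, hex n]
      simp only [e1]
      rw [intervalIntegral.integral_comp_add_left (fun y => characteristic f ⊤ (Real.exp y)) (x n)]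
      rfl
    have hcv2 : ∫ y in (-(H n : ℝ))..(H n), near f (a i) (circleMap 0 (r (N n) * Real.exp y)
          (θ + s n * H n + s n * y))
        = ∫ y in (x n - H n)..(x n + H n), near f (a i) (pt y (θ + s n * (y - (x n - H n)))) := by
      have e1 : ∀ y : ℝ, near f (a i) (circleMap 0 (r (N n) * Real.exp y) (θ + s n * H n + s n * y))
          = (fun y => near f (a i) (pt y (θ + s n * (y - (x n - H n))))) (x n + y) := by
        intro y
        simp only
        rw [pt_eq, Real.exp_add, hex n]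
        congr 2; ring
      simp only [e1]
      rw [intervalIntegral.integral_comp_add_left (fun y => near f (a i) (pt y (θ + s n * (y - (x n - H n))))) (x n)]
      rfl
    have hnn : 0 ≤ ∫ y in (-(H n : ℝ))..(H n), near f (a i) (circleMap 0 (r (N n) * Real.exp y)
          (θ + s n * H n + s n * y)) :=
      intervalIntegral.integral_nonneg (by linarith) fun y _ => near_nonneg f (a i) _
    rw [← hcv2, ← mul_assoc, show x n + (H n : ℝ) - (x n - H n) = 2 * (H n : ℝ) by ring]
    have hcst : 0 ≤ 2 * cst (a i) * (2 * (H n : ℝ)) := by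
      have := cst_nonneg (a i)
      positivity
    calc Tω⁻¹ * Real.exp (-ρ * (x n - H n)) * ((∫ y in (-(H n : ℝ))..(H n),
            near f (a i) (circleMap 0 (r (N n) * Real.exp y) (θ + s n * H n + s n * y)))
              + 2 * cst (a i) * (2 * (H n : ℝ)))
        ≤ G n / I * ((∫ y in (-(H n : ℝ))..(H n),
            near f (a i) (circleMap 0 (r (N n) * Real.exp y) (θ + s n * H n + s n * y)))
              + 2 * cst (a i) * (2 * (H n : ℝ))) :=
          mul_le_mul_of_nonneg_right hkey (add_nonneg hnn hcst)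
      _ = G n * AvP f (a i) (s n) (H n) (r (N n)) (θ + s n * H n)
            + G n * (2 * cst (a i) * (2 * (H n : ℝ)) / I) := by
          unfold AvP
          rw [hcv1]; ring
      _ ≤ _ := by
          refine add_le_add le_rfl ?_
          have e1 : 2 * cst (a i) * (2 * (H n : ℝ)) / I ≤ 1 / (n + 1) / (2 * G n) := by
            rw [div_le_iff₀ hIpos]
            rw [div_le_iff₀ (hε0 n)] at hTk2
            have e2 : 2 * cst (a i) * (2 * (H n : ℝ)) ≤ 2 * cc * (2 * (H n : ℝ)) := by
              have := hcci i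
              have := mul_le_mul_of_nonneg_right this (by linarith : (0 : ℝ) ≤ 2 * (H n : ℝ))
              linarith
            have e3 := mul_le_mul_of_nonneg_right hTk2 (by linarith : (0 : ℝ) ≤ 2 * (H n : ℝ))
            have e4 := mul_le_mul_of_nonneg_left hI1 (hε0 n).le
            simp only [hε] at e4
            linarith
          have e2 := mul_le_mul_of_nonneg_left e1 (hG0 n).le
          refine e2.trans (le_of_eq ?_)
          have := (hG0 n).ne'
          field_simp
  have hd : ∀ i j, i ≠ j → ∀ᵐ θ : ℝ, Tendsto (fun n => min (V n i θ) (V n j θ)) atTop (𝓝 0) := by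
    intro i j hij
    have h5t : Tendsto (fun n : ℕ => 5 * ((1 : ℝ) / (n + 1))) atTop (𝓝 0) := by
      simpa using hηt.const_mul 5
    refine ae_tendsto_of_small (g := fun n θ => min (V n i θ) (V n j θ)) (fun n θ => ?_)
      (fun n θ => le_min (h2 n i θ) (h2 n j θ)) (fun n => 5 * (1 / ((n : ℝ) + 1))) h5t (fun n => ?_)
    · simp only [h1 n i θ, h1 n j θ]
    · have e1 := hNsep n i j hij (H n) (hH1 n) (hHL n)
      have hAm : MeasurableSet {φ : ℝ | ε n < min (AvP f (a i) (s n) (H n) (r (N n)) φ)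
          (AvP f (a j) (s n) (H n) (r (N n)) φ)} :=
        measurableSet_lt measurable_const
          ((AvP_measurable hf (a i) (s n) (H n) (r (N n))).min (AvP_measurable hf (a j) (s n) (H n) (r (N n))))
      have e0 := measure_shift hAm (fun φ => by
        simp only [Set.mem_ofPred_eq, AvP_per]) (s n * H n)
      have e1' : volume ((fun θ => θ + s n * H n) ⁻¹' {φ : ℝ | ε n < min (AvP f (a i) (s n) (H n) (r (N n)) φ)
          (AvP f (a j) (s n) (H n) (r (N n)) φ)} ∩ Ioc 0 (2 * Real.pi)) ≤ ENNReal.ofReal ((1 / 2) ^ n) := by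
        rw [← e0]
        refine le_trans (measure_mono ?_) e1
        rintro φ ⟨hφ1, hφ2⟩
        exact ⟨hφ2, hφ1⟩
      refine le_trans (measure_mono_ae ?_) e1'
      filter_upwards [key n i, key n j] with θ hi hj hmem
      refine ⟨?_, hmem.1⟩
      have e2 : 5 * (1 / ((n : ℝ) + 1)) < min (V n i θ) (V n j θ) := hmem.2
      have e3 : ε n * (2 * G n) = 1 / ((n : ℝ) + 1) := by
        simp only [hε]
        have := (hG0 n).ne'
        field_simp
      show ε n < min (AvP f (a i) (s n) (H n) (r (N n)) (θ + s n * H n))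
          (AvP f (a j) (s n) (H n) (r (N n)) (θ + s n * H n))
      refine lt_min ?_ ?_
      · have e4 : 5 * (1 / ((n : ℝ) + 1)) < G n * AvP f (a i) (s n) (H n) (r (N n)) (θ + s n * H n)
            + 1 / (n + 1) / 2 + 4 * (1 / (n + 1)) := (e2.trans_le (min_le_left _ _)).trans_le hi
        have e5 : G n * ε n < G n * AvP f (a i) (s n) (H n) (r (N n)) (θ + s n * H n) := by linarith
        exact lt_of_mul_lt_mul_left e5 (hG0 n).le
      · have e4 : 5 * (1 / ((n : ℝ) + 1)) < G n * AvP f (a j) (s n) (H n) (r (N n)) (θ + s n * H n)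
            + 1 / (n + 1) / 2 + 4 * (1 / (n + 1)) := (e2.trans_le (min_le_right _ _)).trans_le hj
        have e5 : G n * ε n < G n * AvP f (a j) (s n) (H n) (r (N n)) (θ + s n * H n) := by linarith
        exact lt_of_mul_lt_mul_left e5 (hG0 n).le
  refine EReal.ge_of_forall_gt_iff_ge.1 fun D hD => ?_
  obtain ⟨D₂, hD1, hD2⟩ := EReal.lt_iff_exists_real_btwn.1 hD
  rw [EReal.coe_lt_coe_iff] at hD1
  have e1 : ∀ᶠ r in atTop, ((D₂ : ℝ) : EReal) < (((∑ i, proximity f (a i) r) / characteristic f ⊤ r : ℝ) : EReal) :=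
    eventually_lt_of_lt_liminf hD2
  have e2 : ∀ᶠ r in atTop, D₂ * characteristic f ⊤ r ≤ ∑ i, proximity f (a i) r := by
    filter_upwards [e1, hT.eventually_gt_atTop 0] with r hr hr2
    rw [EReal.coe_lt_coe_iff, lt_div_iff₀ hr2] at hr
    exact hr.le
  obtain ⟨r₀, hr₀⟩ := eventually_atTop.1 e2
  have e3 : ∀ᶠ n : ℕ in atTop, D ≤ ∑ i, (1 / (2 * Real.pi)) * ∫ θ in (0)..(2 * Real.pi), V n i θ := by
    have e4 : Tendsto (fun n : ℕ => (Fintype.card ι : ℝ) * (4 * ((1 : ℝ) / (n + 1)))) atTop (𝓝 0) := by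
      simpa using (hηt.const_mul 4).const_mul (Fintype.card ι : ℝ)
    filter_upwards [tendsto_natCast_atTop_atTop.eventually_ge_atTop (Real.log (max 1 r₀)),
      e4.eventually_lt_const (by linarith : 0 < D₂ - D)] with n hn hn2
    have e7 := h7 n D₂ fun y hy => hr₀ _ (by
      have e5 : Real.log (max 1 r₀) ≤ y :=
        hn.trans (((le_max_right x₀ (n : ℝ)).trans (hαx n)).trans hy.1)
      have e6 : max 1 r₀ ≤ Real.exp y := (Real.log_le_iff_le_exp (by positivity)).1 e5
      exact (le_max_right _ _).trans e6)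
    linarith
  refine EReal.coe_le_coe_iff.2 ?_
  by_cases hB : ∃ B : ℝ, ∃ᶠ n in atTop, |s n| ≤ B
  · obtain ⟨B, hB⟩ := hB
    obtain ⟨φ, hφ, hφB⟩ := extraction_of_frequently_atTop hB
    have hφt := hφ.tendsto_atTop
    obtain ⟨F, s', W, M', hF, hFne, w1, w2, w3, w4, w5, w6, w7, w8⟩ :=
      limitExtractS hρ (fun n => s (φ n)) (B := B) hφB (fun n => V (φ n)) (fun n => h1 (φ n))
        (fun n => h2 (φ n)) (fun n => h3 (φ n)) (fun n => M (φ n)) (fun n => h4 (φ n))
        (hM1.comp hφt) (fun n => h6 (φ n)) (fun i j hij => (hd i j hij).mono fun θ hθ => hθ.comp hφt)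
    have hone := oneDS W w1 w2 w3 w4 hρ w5 w6 w7
    have e4 : Tendsto (fun n => ∑ i, (1 / (2 * Real.pi)) * ∫ θ in (0)..(2 * Real.pi), V (φ n) i θ) F
        (𝓝 (∑ i, (1 / (2 * Real.pi)) * ∫ θ in (0)..(2 * Real.pi), W i θ)) :=
      tendsto_finsetSum _ fun i _ => w8 i
    have e5 : D ≤ ∑ i, (1 / (2 * Real.pi)) * ∫ θ in (0)..(2 * Real.pi), W i θ :=
      ge_of_tendsto e4 (hF (hφt.eventually e3))
    exact e5.trans hone
  · have hB2 : Tendsto (fun n => |s n|) atTop atTop := by
      rw [tendsto_atTop]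
      intro B
      by_contra h
      apply hB
      refine ⟨B, ?_⟩
      rw [not_eventually] at h
      exact h.mono fun n hn => (not_le.1 hn).le
    have h9 := limitInfS hρ s hB2 V h1 h2 h3 M h4 hM1 h6 hd e3
    exact h9.trans (Lam_ge_one hρ)

theorem sum_def_le_of_sepP {f : ℂ → ℂ} (hf : Meromorphic f) {ρ : ℝ} (hρ : 1 ≤ ρ) {r : ℕ → ℝ}
    (hr : Peaks (characteristic f ⊤) ρ r)
    (S : Finset (WithTop ℂ)) (σ : ℕ → ℕ → ℝ)
    (hsep : ∀ a ∈ S, ∀ b ∈ S, a ≠ b → 0 < defS f a → 0 < defS f b → SepP f r σ a b) :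
    ∑ a ∈ S, defS f a ≤ ((Lam ρ : ℝ) : EReal) := by
  classical
  set S' := S.filter (fun a => 0 < defS f a) with hS'
  have h1 : ∑ a ∈ S, defS f a ≤ ∑ a ∈ S', defS f a := by
    rw [← Finset.sum_filter_add_sum_filter_not S (fun a => 0 < defS f a)]
    have h2 : ∑ a ∈ S.filter (fun a => ¬ 0 < defS f a), defS f a ≤ 0 :=
      Finset.sum_nonpos fun a ha => not_lt.1 (Finset.mem_filter.1 ha).2
    calc _ ≤ ∑ a ∈ S', defS f a + 0 := add_le_add_right h2 _
      _ = _ := add_zero _
  refine h1.trans ((sum_liminf_le_liminf_sumS S' (fun a r => proximity f a r / characteristic f ⊤ r)).trans ?_)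
  have h3 := liminf_sum_le_of_sepP hf hρ hr (ι := S') (fun a => (a : WithTop ℂ)) σ (by
    intro i j hij
    have hi := Finset.mem_filter.1 i.2
    have hj := Finset.mem_filter.1 j.2
    exact hsep i hi.1 j hj.1 (fun h => hij (Subtype.ext h)) hi.2 hj.2)
  refine le_trans (le_of_eq ?_) h3
  congr 1
  funext r
  congr 1
  rw [Finset.sum_div]
  exact (Finset.sum_coe_sort S' (fun a => proximity f a r / characteristic f ⊤ r)).symm

end DW24
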