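import Pool.Agent.DW24.FinalLR

/-!
The sum of the deficiencies.
-/

set_option autoImplicit false

open MeasureTheory Filter Topology Set ValueDistribution

namespace DW24

lemma sum_liminf_le_liminf_sum {α ι : Type*} {l : Filter α} [l.NeBot] (S : Finset ι) (u : ι → α → ℝ) :
    ∑ i ∈ S, liminf (fun x => ((u i x : ℝ) : EReal)) l ≤ liminf (fun x => ((∑ i ∈ S, u i x : ℝ) : EReal)) l := by
  classical
  induction S using Finset.induction_on with
  | empty =>
    simp only [Finset.sum_empty]
    rw [EReal.coe_zero]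
    simp
  | insert a s ha ih =>
    rw [Finset.sum_insert ha]
    refine (add_le_add_right ih _).trans ?_
    refine EReal.le_liminf_add.trans (le_of_eq ?_)
    congr 1
    funext x
    rw [Pi.add_apply, Finset.sum_insert ha, EReal.coe_add]

/-- the deficiency -/
noncomputable def defi (f : ℂ → ℂ) (a : WithTop ℂ) : EReal :=
  liminf (fun r : ℝ => ((proximity f a r / characteristic f ⊤ r : ℝ) : EReal)) atTop

theorem sum_defi_le_of_sep {f : ℂ → ℂ} (hf : Meromorphic f) {ρ : ℝ} (hρ : 1 ≤ ρ)
    (hlow : liminf (fun r : ℝ => ((Real.log (characteristic f ⊤ r) / Real.log r : ℝ) : EReal)) atTop ≤ ρ)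
    (hupp : (ρ : EReal) ≤ limsup (fun r : ℝ => ((Real.log (characteristic f ⊤ r) / Real.log r : ℝ) : EReal)) atTop)
    (S : Finset (WithTop ℂ))
    (hsep : ∀ a ∈ S, ∀ b ∈ S, a ≠ b → 0 < defi f a → 0 < defi f b → Sep f a b) :
    ∑ a ∈ S, defi f a ≤ ((Lam ρ : ℝ) : EReal) := by
  classical
  set S' := S.filter (fun a => 0 < defi f a) with hS'
  have h1 : ∑ a ∈ S, defi f a ≤ ∑ a ∈ S', defi f a := by
    rw [← Finset.sum_filter_add_sum_filter_not S (fun a => 0 < defi f a)]
    have h2 : ∑ a ∈ S.filter (fun a => ¬ 0 < defi f a), defi f a ≤ 0 :=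
      Finset.sum_nonpos fun a ha => not_lt.1 (Finset.mem_filter.1 ha).2
    calc _ ≤ ∑ a ∈ S', defi f a + 0 := add_le_add_right h2 _
      _ = _ := add_zero _
  refine h1.trans ((sum_liminf_le_liminf_sum S' (fun a r => proximity f a r / characteristic f ⊤ r)).trans ?_)
  have h3 := liminf_sum_le_of_sep hf hρ hlow hupp (ι := S') (fun a => (a : WithTop ℂ)) (by
    intro i j hij
    have hi := Finset.mem_filter.1 i.2
    have hj := Finset.mem_filter.1 j.2
    exact hsep i hi.1 j hj.1 (fun h => hij (Subtype.ext h)) hi.2 hj.2)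
  refine le_trans (le_of_eq ?_) h3
  congr 1
  funext r
  congr 1
  rw [Finset.sum_div]
  exact (Finset.sum_coe_sort S' (fun a => proximity f a r / characteristic f ⊤ r)).symm

end DW24
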