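import Pool.Agent.DW24.FinP

/-!
Polya peaks: definition (weak form) and existence.
-/

set_option autoImplicit false

open MeasureTheory Filter Topology Set ValueDistribution

namespace DW24

/-- one peak -/
theorem peak_exists {τ : ℝ → ℝ} {x₀ ρ : ℝ} (hmono : Monotone τ) (hpos : ∀ x, x₀ ≤ x → 0 < τ x)
    (hρ : 0 < ρ)
    (hlow : ∀ ε : ℝ, 0 < ε → ∃ᶠ x : ℝ in atTop, Real.log (τ x) ≤ (ρ + ε) * x)
    (hupp : ∀ ε : ℝ, 0 < ε → ∃ᶠ x : ℝ in atTop, (ρ - ε) * x ≤ Real.log (τ x))
    {δ R : ℝ} (hδ : 0 < δ) (hR : 0 < R) (X : ℝ) :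
    ∃ x, X ≤ x ∧ 0 < τ x ∧ ∀ y, |y - x| ≤ R → τ y ≤ (1 + δ) * Real.exp (ρ * (y - x)) * τ x := by
  set δ₁ : ℝ := min 1 (δ / 3) with hδ₁
  have hδ₁0 : 0 < δ₁ := lt_min one_pos (by positivity)
  have hδ₁1 : δ₁ ≤ 1 := min_le_left _ _
  have hδ₁3 : 3 * δ₁ ≤ δ := by have := min_le_right 1 (δ / 3); linarith
  set c : ℝ := Real.log (1 + δ₁) / R with hc
  have hc0 : 0 < c := div_pos (Real.log_pos (by linarith)) hR
  have hcR : Real.exp (c * R) = 1 + δ₁ := by
    rw [hc, div_mul_cancel₀ _ hR.ne', Real.exp_log (by linarith)]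
  set X' : ℝ := max X (max x₀ 0) with hX'
  have hX1 : X ≤ X' := le_max_left _ _
  have hX2 : x₀ ≤ X' := (le_max_left _ _).trans (le_max_right _ _)
  have hX3 : 0 ≤ X' := (le_max_right _ _).trans (le_max_right _ _)
  have hτ0 : ∀ x, X' ≤ x → 0 < τ x := fun x hx => hpos x (hX2.trans hx)
  set D₀ : ℝ := τ (X' + R) * Real.exp (|c - ρ| * (X' + R)) with hD₀
  have hD₀0 : 0 < D₀ := mul_pos (hτ0 _ (by linarith)) (Real.exp_pos _)
  -- the point p
  have hev1 : ∀ᶠ x : ℝ in atTop, D₀ < Real.exp (c / 2 * x) :=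
    (Real.tendsto_exp_atTop.comp (tendsto_id.const_mul_atTop (by positivity))).eventually_gt_atTop D₀
  obtain ⟨p, hp1, hp2, hp3⟩ := ((hupp (c / 2) (by positivity)).and_eventually
    (hev1.and (eventually_ge_atTop (X' + R + 1)))).exists
  have hτp : 0 < τ p := hτ0 p (by linarith)
  have hdp : D₀ < τ p * Real.exp ((c - ρ) * p) := by
    refine hp2.trans_le ?_
    have h1 : Real.exp ((ρ - c / 2) * p) ≤ τ p := (Real.le_log_iff_exp_le hτp).1 hp1
    calc Real.exp (c / 2 * p) = Real.exp ((ρ - c / 2) * p) * Real.exp ((c - ρ) * p) := by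
          rw [← Real.exp_add]; congr 1; ring
      _ ≤ _ := mul_le_mul_of_nonneg_right h1 (Real.exp_pos _).le
  -- the point Z
  have hbp : 0 < τ p * Real.exp (-(ρ + c) * p) := mul_pos hτp (Real.exp_pos _)
  have hev2 : ∀ᶠ x : ℝ in atTop, Real.exp (-(c / 2 * x)) * Real.exp ((ρ + c) * R)
      < τ p * Real.exp (-(ρ + c) * p) := by
    have h1 : Tendsto (fun x : ℝ => Real.exp (-(c / 2 * x)) * Real.exp ((ρ + c) * R)) atTop (𝓝 0) := by
      have h2 : Tendsto (fun x : ℝ => Real.exp (-(c / 2 * x))) atTop (𝓝 0) :=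
        Real.tendsto_exp_neg_atTop_nhds_zero.comp (tendsto_id.const_mul_atTop (by positivity : 0 < c / 2))
      simpa using h2.mul_const (Real.exp ((ρ + c) * R))
    exact h1.eventually_lt_const hbp
  obtain ⟨Z, hZ1, hZ2, hZ3⟩ := ((hlow (c / 2) (by positivity)).and_eventually
    (hev2.and (eventually_ge_atTop (p + R + 1)))).exists
  have hτZ : 0 < τ Z := hτ0 Z (by linarith)
  have hbZ : τ Z * Real.exp (-(ρ + c) * (Z - R)) < τ p * Real.exp (-(ρ + c) * p) := by
    refine lt_of_le_of_lt ?_ hZ2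
    have h1 : τ Z ≤ Real.exp ((ρ + c / 2) * Z) := (Real.log_le_iff_le_exp hτZ).1 hZ1
    calc τ Z * Real.exp (-(ρ + c) * (Z - R))
        ≤ Real.exp ((ρ + c / 2) * Z) * Real.exp (-(ρ + c) * (Z - R)) :=
          mul_le_mul_of_nonneg_right h1 (Real.exp_pos _).le
      _ = _ := by rw [← Real.exp_add, ← Real.exp_add]; congr 1; ring
  set F : ℝ → ℝ := fun t => τ t * Real.exp (-(ρ * t) - c * |t - p|) with hF
  have hFp : F p = τ p * Real.exp (-(ρ * p)) := by simp only [hF]; simp
  have hFp0 : 0 < F p := by rw [hFp]; exact mul_pos hτp (Real.exp_pos _)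
  have hpZ : p ∈ Icc X' Z := ⟨by linarith, by linarith⟩
  have hbdd : BddAbove (F '' Icc X' Z) := by
    refine ⟨τ Z, ?_⟩
    rintro _ ⟨t, ht, rfl⟩
    simp only [hF]
    have h1 : τ t ≤ τ Z := hmono ht.2
    have h2 : Real.exp (-(ρ * t) - c * |t - p|) ≤ 1 := by
      rw [Real.exp_le_one_iff]
      have h3 : 0 ≤ ρ * t := mul_nonneg hρ.le (hX3.trans ht.1)
      have h4 : 0 ≤ c * |t - p| := mul_nonneg hc0.le (abs_nonneg _)
      linarith
    calc τ t * Real.exp (-(ρ * t) - c * |t - p|) ≤ τ Z * 1 :=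
          mul_le_mul h1 h2 (Real.exp_pos _).le hτZ.le
      _ = τ Z := mul_one _
  set S : ℝ := sSup (F '' Icc X' Z) with hS
  have hle : ∀ t ∈ Icc X' Z, F t ≤ S := fun t ht => le_csSup hbdd ⟨t, ht, rfl⟩
  obtain ⟨x, hx, hx1, hx2⟩ : ∃ x ∈ Icc X' Z, F p ≤ F x ∧ S ≤ (1 + δ₁) * F x := by
    by_cases h : S ≤ (1 + δ₁) * F p
    · exact ⟨p, hpZ, le_rfl, h⟩
    · push Not at h
      have h1 : S / (1 + δ₁) < S := by
        rw [div_lt_iff₀ (by linarith)]
        have : 0 < S := lt_trans (mul_pos (by linarith) hFp0) h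
        nlinarith
      obtain ⟨_, ⟨y, hy, rfl⟩, hy2⟩ := exists_lt_of_lt_csSup (Set.Nonempty.image F ⟨p, hpZ⟩) h1
      rw [div_lt_iff₀ (by linarith)] at hy2
      refine ⟨y, hy, ?_, by linarith⟩
      have h3 : (1 + δ₁) * F p < F y * (1 + δ₁) := h.trans hy2
      rw [mul_comm] at h3
      exact (lt_of_mul_lt_mul_right h3 (by linarith)).le
  have hxX : X' + R < x := by
    by_contra hcon
    push Not at hcon
    have h1 : F x ≤ D₀ * Real.exp (-(c * p)) := by
      simp only [hF]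
      rw [abs_of_nonpos (by linarith : x - p ≤ 0)]
      have h2 : τ x ≤ τ (X' + R) := hmono hcon
      have h3 : Real.exp (-(ρ * x) - c * -(x - p)) ≤ Real.exp (|c - ρ| * (X' + R)) * Real.exp (-(c * p)) := by
        rw [← Real.exp_add]
        refine Real.exp_le_exp.2 ?_
        have h4 : (c - ρ) * x ≤ |c - ρ| * (X' + R) := by
          have h5 : (c - ρ) * x ≤ |c - ρ| * x :=
            mul_le_mul_of_nonneg_right (le_abs_self _) (hX3.trans hx.1)
          have h6 : |c - ρ| * x ≤ |c - ρ| * (X' + R) := mul_le_mul_of_nonneg_left hcon (abs_nonneg _)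
          exact h5.trans h6
        linarith
      calc τ x * Real.exp (-(ρ * x) - c * -(x - p))
          ≤ τ (X' + R) * (Real.exp (|c - ρ| * (X' + R)) * Real.exp (-(c * p))) :=
            mul_le_mul h2 h3 (Real.exp_pos _).le (hτ0 _ (by linarith)).le
        _ = D₀ * Real.exp (-(c * p)) := by rw [hD₀]; ring
    have h2 : D₀ * Real.exp (-(c * p)) < F p := by
      have h3 := mul_lt_mul_of_pos_right hdp (Real.exp_pos (-(c * p)))
      refine h3.trans_le (le_of_eq ?_)
      rw [hFp, mul_assoc, ← Real.exp_add]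
      congr 2; ring
    linarith
  have hxZ : x < Z - R := by
    by_contra hcon
    push Not at hcon
    have h1 : F x ≤ τ Z * Real.exp (-(ρ + c) * (Z - R)) * Real.exp (c * p) := by
      simp only [hF]
      rw [abs_of_nonneg (by linarith : 0 ≤ x - p)]
      have h2 : τ x ≤ τ Z := hmono hx.2
      have h3 : Real.exp (-(ρ * x) - c * (x - p)) ≤ Real.exp (-(ρ + c) * (Z - R)) * Real.exp (c * p) := by
        rw [← Real.exp_add]
        refine Real.exp_le_exp.2 ?_
        have h4 : (ρ + c) * (Z - R) ≤ (ρ + c) * x := mul_le_mul_of_nonneg_left hcon (by positivity)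
        linarith
      calc τ x * Real.exp (-(ρ * x) - c * (x - p))
          ≤ τ Z * (Real.exp (-(ρ + c) * (Z - R)) * Real.exp (c * p)) :=
            mul_le_mul h2 h3 (Real.exp_pos _).le hτZ.le
        _ = _ := by ring
    have h2 : τ Z * Real.exp (-(ρ + c) * (Z - R)) * Real.exp (c * p) < F p := by
      have h3 := mul_lt_mul_of_pos_right hbZ (Real.exp_pos (c * p))
      refine h3.trans_le (le_of_eq ?_)
      rw [hFp, mul_assoc, ← Real.exp_add]
      congr 2; ring
    linarith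
  have hτx : 0 < τ x := hτ0 x hx.1
  refine ⟨x, hX1.trans hx.1, hτx, fun y hy => ?_⟩
  rw [abs_le] at hy
  have hyI : y ∈ Icc X' Z := ⟨by linarith [hy.1], by linarith [hy.2]⟩
  have h1 := (hle y hyI).trans hx2
  simp only [hF] at h1
  have h2 : c * |y - p| ≤ c * |x - p| + c * R := by
    have h3 : |y - p| ≤ |x - p| + |y - x| := by
      have := abs_add_le (x - p) (y - x)
      rwa [show x - p + (y - x) = y - p by ring] at this
    have h4 : |y - x| ≤ R := abs_le.2 hy
    have h5 := mul_le_mul_of_nonneg_left (h3.trans (add_le_add le_rfl h4)) hc0.le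
    linarith
  have h6 : τ y ≤ (1 + δ₁) * (τ x * Real.exp (-(ρ * x) - c * |x - p|)) * Real.exp (ρ * y + c * |y - p|) := by
    have h7 := mul_le_mul_of_nonneg_right h1 (Real.exp_pos (ρ * y + c * |y - p|)).le
    have h8 : τ y * Real.exp (-(ρ * y) - c * |y - p|) * Real.exp (ρ * y + c * |y - p|) = τ y := by
      rw [mul_assoc, ← Real.exp_add, show -(ρ * y) - c * |y - p| + (ρ * y + c * |y - p|) = 0 by ring,
        Real.exp_zero, mul_one]
    rw [h8] at h7
    exact h7
  refine h6.trans ?_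
  have h9 : (1 + δ₁) * (τ x * Real.exp (-(ρ * x) - c * |x - p|)) * Real.exp (ρ * y + c * |y - p|)
      = (1 + δ₁) * τ x * Real.exp (ρ * (y - x) + (c * |y - p| - c * |x - p|)) := by
    rw [mul_assoc (1 + δ₁), mul_assoc (τ x), ← Real.exp_add, ← mul_assoc]
    congr 2; ring
  rw [h9]
  have h10 : Real.exp (ρ * (y - x) + (c * |y - p| - c * |x - p|)) ≤ Real.exp (ρ * (y - x)) * (1 + δ₁) := by
    rw [← hcR, ← Real.exp_add]
    exact Real.exp_le_exp.2 (by linarith)
  calc (1 + δ₁) * τ x * Real.exp (ρ * (y - x) + (c * |y - p| - c * |x - p|))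
      ≤ (1 + δ₁) * τ x * (Real.exp (ρ * (y - x)) * (1 + δ₁)) :=
        mul_le_mul_of_nonneg_left h10 (by positivity)
    _ = ((1 + δ₁) * (1 + δ₁)) * (Real.exp (ρ * (y - x)) * τ x) := by ring
    _ ≤ (1 + δ) * (Real.exp (ρ * (y - x)) * τ x) := by
        refine mul_le_mul_of_nonneg_right ?_ (by positivity)
        nlinarith
    _ = _ := by ring

/-- `r` is a sequence of (weak) Polya peaks of order `ρ` of `T`. -/
def Peaks (T : ℝ → ℝ) (ρ : ℝ) (r : ℕ → ℝ) : Prop :=
  Tendsto r atTop atTop ∧ (∀ n, 0 < T (r n)) ∧ ∃ C : ℝ, ∀ R : ℝ, 1 ≤ R →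
    ∀ᶠ n in atTop, ∀ t ∈ Icc (r n / R) (R * r n), T t ≤ C * (t / r n) ^ ρ * T (r n)

/-- Polya peaks exist. -/
theorem exists_peaks {f : ℂ → ℂ} (hf : Meromorphic f) {ρ : ℝ} (hρ : 0 < ρ)
    (hlow : liminf (fun r : ℝ => ((Real.log (characteristic f ⊤ r) / Real.log r : ℝ) : EReal)) atTop ≤ ρ)
    (hupp : (ρ : EReal) ≤ limsup (fun r : ℝ => ((Real.log (characteristic f ⊤ r) / Real.log r : ℝ) : EReal)) atTop) :
    ∃ r : ℕ → ℝ, Tendsto r atTop atTop ∧ (∀ n, 0 < characteristic f ⊤ (r n)) ∧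
      ∀ δ : ℝ, 0 < δ → ∀ R : ℝ, 1 ≤ R → ∀ᶠ n in atTop, ∀ t ∈ Icc (r n / R) (R * r n),
        characteristic f ⊤ t ≤ (1 + δ) * (t / r n) ^ ρ * characteristic f ⊤ (r n) := by
  have hT := T_tendsto hf hρ hupp
  set τ : ℝ → ℝ := fun x => characteristic f ⊤ (Real.exp x) with hτ
  have hmono : Monotone τ := mono_T' hf
  have hτT : Tendsto τ atTop atTop := hT.comp Real.tendsto_exp_atTop
  obtain ⟨x₀, hx₀⟩ := (tendsto_atTop.mp hτT 1).exists_forall_of_atTop
  have hpos : ∀ x, x₀ ≤ x → 0 < τ x := fun x hx => lt_of_lt_of_le one_pos (hx₀ x hx)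
  have h1 := liminf_comp_exp
    (fun r : ℝ => ((Real.log (characteristic f ⊤ r) / Real.log r : ℝ) : EReal))
  have h2 := limsup_comp_exp
    (fun r : ℝ => ((Real.log (characteristic f ⊤ r) / Real.log r : ℝ) : EReal))
  simp only [Real.log_exp] at h1 h2
  have hl : ∀ ε : ℝ, 0 < ε → ∃ᶠ x : ℝ in atTop, Real.log (τ x) ≤ (ρ + ε) * x := by
    intro ε hε
    have h3 : liminf (fun x : ℝ => ((Real.log (τ x) / x : ℝ) : EReal)) atTop < ((ρ + ε : ℝ) : EReal) :=
      (h1.trans_le hlow).trans_lt (EReal.coe_lt_coe_iff.2 (by linarith))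
    refine ((frequently_lt_of_liminf_lt (h := h3)).and_eventually (eventually_gt_atTop 0)).mono ?_
    rintro x ⟨h4, h5⟩
    rw [EReal.coe_lt_coe_iff, div_lt_iff₀ h5] at h4
    exact h4.le
  have hu : ∀ ε : ℝ, 0 < ε → ∃ᶠ x : ℝ in atTop, (ρ - ε) * x ≤ Real.log (τ x) := by
    intro ε hε
    have h3 : ((ρ - ε : ℝ) : EReal) < limsup (fun x : ℝ => ((Real.log (τ x) / x : ℝ) : EReal)) atTop :=
      (EReal.coe_lt_coe_iff.2 (by linarith)).trans_le (h2.symm ▸ hupp)
    refine ((frequently_lt_of_lt_limsup (h := h3)).and_eventually (eventually_gt_atTop 0)).mono ?_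
    rintro x ⟨h4, h5⟩
    rw [EReal.coe_lt_coe_iff, lt_div_iff₀ h5] at h4
    exact h4.le
  choose x hx1 hx2 hx3 using fun n : ℕ => peak_exists (x₀ := x₀) hmono hpos hρ hl hu
    (δ := 1 / ((n : ℝ) + 1)) (R := (n : ℝ) + 1) (by positivity) (by positivity) (n : ℝ)
  refine ⟨fun n => Real.exp (x n), ?_, hx2, ?_⟩
  · refine Real.tendsto_exp_atTop.comp ?_
    exact tendsto_atTop_mono hx1 tendsto_natCast_atTop_atTop
  · intro δ hδ R hR
    have e1 : ∀ᶠ n : ℕ in atTop, 1 / ((n : ℝ) + 1) < δ :=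
      tendsto_one_div_add_atTop_nhds_zero_nat.eventually_lt_const hδ
    have e2 : ∀ᶠ n : ℕ in atTop, Real.log R ≤ (n : ℝ) :=
      tendsto_natCast_atTop_atTop.eventually_ge_atTop _
    filter_upwards [e1, e2] with n hn1 hn2 t ht
    have hR0 : 0 < R := by linarith
    have hr0 : 0 < Real.exp (x n) := Real.exp_pos _
    have ht0 : 0 < t := lt_of_lt_of_le (by positivity) ht.1
    have h4 : |Real.log t - x n| ≤ (n : ℝ) + 1 := by
      have h5 : Real.log (Real.exp (x n) / R) ≤ Real.log t := Real.log_le_log (by positivity) ht.1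
      have h6 : Real.log t ≤ Real.log (R * Real.exp (x n)) := Real.log_le_log ht0 ht.2
      rw [Real.log_div hr0.ne' hR0.ne', Real.log_exp] at h5
      rw [Real.log_mul hR0.ne' hr0.ne', Real.log_exp] at h6
      rw [abs_le]
      constructor <;> linarith
    have h5 := hx3 n (Real.log t) h4
    simp only [hτ] at h5
    rw [Real.exp_log ht0] at h5
    have h6 : (t / Real.exp (x n)) ^ ρ = Real.exp (ρ * (Real.log t - x n)) := by
      rw [Real.rpow_def_of_pos (by positivity), Real.log_div ht0.ne' hr0.ne', Real.log_exp, mul_comm]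
    rw [h6]
    refine h5.trans ?_
    have h7 : 0 ≤ Real.exp (ρ * (Real.log t - x n)) * characteristic f ⊤ (Real.exp (x n)) :=
      mul_nonneg (Real.exp_pos _).le (hx2 n).le
    rw [mul_assoc, mul_assoc]
    exact mul_le_mul_of_nonneg_right (by linarith) h7

/-- the characteristic tends to infinity if it has Polya peaks of positive order -/
theorem T_tendsto_of_peaks {f : ℂ → ℂ} (hf : Meromorphic f) {ρ : ℝ} (hρ : 0 < ρ) {r : ℕ → ℝ}
    (hr : Peaks (characteristic f ⊤) ρ r) : Tendsto (fun r => characteristic f ⊤ r) atTop atTop := by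
  obtain ⟨hr1, hr2, C, hC⟩ := hr
  set τ : ℝ → ℝ := fun x => characteristic f ⊤ (Real.exp x) with hτ
  have hmono : Monotone τ := mono_T' hf
  suffices h : Tendsto τ atTop atTop by
    have h1 := h.comp Real.tendsto_log_atTop
    refine h1.congr' ?_
    filter_upwards [eventually_gt_atTop 0] with x hx
    simp only [Function.comp, hτ]
    rw [Real.exp_log hx]
  rcases tendsto_atTop_of_monotone hmono with h | ⟨l, hl⟩
  · exact h
  · exfalso
    have hr3 : Tendsto (fun n => Real.log (r n)) atTop atTop := Real.tendsto_log_atTop.comp hr1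
    have hlr : Tendsto (fun n => characteristic f ⊤ (r n)) atTop (𝓝 l) := by
      refine (hl.comp hr3).congr' ?_
      filter_upwards [hr1.eventually_gt_atTop 0] with n hn
      simp only [Function.comp, hτ]
      rw [Real.exp_log hn]
    -- C > 0
    have hC1 : 1 ≤ C := by
      obtain ⟨n, hn, hn0⟩ := ((hC 1 le_rfl).and (hr1.eventually_gt_atTop 0)).exists
      have h1 := hn (r n) ⟨by rw [div_one], by rw [one_mul]⟩
      rw [div_self hn0.ne', Real.one_rpow, mul_one] at h1
      have h2 := hr2 n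
      by_contra hcon
      push Not at hcon
      nlinarith
    set u : ℝ := Real.log (2 * C) / ρ with hu
    have hu0 : 0 ≤ u := div_nonneg (Real.log_nonneg (by linarith)) hρ.le
    have hRu : 1 ≤ Real.exp u := Real.one_le_exp hu0
    have hlu : Tendsto (fun n => τ (Real.log (r n) - u)) atTop (𝓝 l) :=
      hl.comp (tendsto_atTop_add_const_right _ (-u) hr3)
    have hle : ∀ᶠ n in atTop, τ (Real.log (r n) - u) ≤ 1 / 2 * characteristic f ⊤ (r n) := by
      filter_upwards [hC (Real.exp u) hRu, hr1.eventually_gt_atTop 0] with n hn hn0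
      have h1 := hn (r n / Real.exp u) ⟨le_rfl, by
        have h2 : r n / Real.exp u ≤ r n := div_le_self hn0.le hRu
        have h3 : r n ≤ Real.exp u * r n := le_mul_of_one_le_left hn0.le hRu
        exact h2.trans h3⟩
      have e1 : r n / Real.exp u / r n = Real.exp (-u) := by
        rw [Real.exp_neg]; field_simp
      have e2 : τ (Real.log (r n) - u) = characteristic f ⊤ (r n / Real.exp u) := by
        simp only [hτ]
        rw [Real.exp_sub, Real.exp_log hn0]
      rw [e2]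
      refine h1.trans ?_
      refine mul_le_mul_of_nonneg_right ?_ (hr2 n).le
      rw [e1, ← Real.exp_mul]
      have e3 : -u * ρ = -Real.log (2 * C) := by rw [hu]; field_simp
      rw [e3, Real.exp_neg, Real.exp_log (by linarith)]
      have : C ≠ 0 := by linarith
      field_simp
      norm_num
    have h1 : l ≤ 1 / 2 * l := le_of_tendsto_of_tendsto hlu (hlr.const_mul (1 / 2)) hle
    have h2 : 0 < l := by
      obtain ⟨n, hn⟩ := (hr1.eventually_gt_atTop 0).exists
      have h4 : τ (Real.log (r n)) ≤ l := hmono.ge_of_tendsto hl _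
      simp only [hτ] at h4
      rw [Real.exp_log hn] at h4
      exact (hr2 n).trans_le h4
    linarith

end DW24
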