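import Pool.Agent.DW24.Defs

/-!
Module A3: the dual function `Φ = G_σ * e` and the `L¹` norm of the (anti)periodic
Green function of `d² + ρ²`.
-/

set_option autoImplicit false

open MeasureTheory Filter Topology Set

namespace DW24

/-! ### The integrals of `|cos|` and `|sin|` -/

noncomputable def Fc (x : ℝ) : ℝ := ∫ u in (0)..x, |Real.cos u|
noncomputable def Fs (x : ℝ) : ℝ := ∫ u in (0)..x, |Real.sin u|

lemma ii_cos (a b : ℝ) : IntervalIntegrable (fun u => |Real.cos u|) volume a b :=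
  (Real.continuous_cos.abs).intervalIntegrable a b

lemma ii_sin (a b : ℝ) : IntervalIntegrable (fun u => |Real.sin u|) volume a b :=
  (Real.continuous_sin.abs).intervalIntegrable a b

lemma Fc_small {θ : ℝ} (h0 : 0 ≤ θ) (h1 : θ ≤ Real.pi / 2) : Fc θ = Real.sin θ := by
  unfold Fc
  rw [intervalIntegral.integral_congr (g := fun u => Real.cos u)]
  · simp
  · intro u hu
    rw [uIcc_of_le h0] at hu
    exact abs_of_nonneg (Real.cos_nonneg_of_mem_Icc ⟨by linarith [hu.1, Real.pi_pos], by linarith [hu.2]⟩)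

lemma Fs_small {θ : ℝ} (h0 : 0 ≤ θ) (h1 : θ ≤ Real.pi / 2) : Fs θ = 1 - Real.cos θ := by
  unfold Fs
  rw [intervalIntegral.integral_congr (g := fun u => Real.sin u)]
  · simp
  · intro u hu
    rw [uIcc_of_le h0] at hu
    exact abs_of_nonneg (Real.sin_nonneg_of_nonneg_of_le_pi hu.1 (by linarith [hu.2, Real.pi_pos]))

lemma Fc_shift (x : ℝ) : Fc (x + Real.pi / 2) = 1 + Fs x := by
  have h1 : Fc (x + Real.pi / 2) = Fc (Real.pi / 2) + ∫ u in (Real.pi / 2)..(x + Real.pi / 2), |Real.cos u| := by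
    unfold Fc
    rw [intervalIntegral.integral_add_adjacent_intervals (ii_cos _ _) (ii_cos _ _)]
  have h2 : ∫ u in (Real.pi / 2)..(x + Real.pi / 2), |Real.cos u| = Fs x := by
    have := intervalIntegral.integral_comp_add_right (a := 0) (b := x)
      (fun u => |Real.cos u|) (Real.pi / 2)
    rw [zero_add] at this
    rw [← this]
    unfold Fs
    refine intervalIntegral.integral_congr fun u _ => ?_
    rw [Real.cos_add_pi_div_two, abs_neg]
  rw [h1, h2, Fc_small (by positivity) le_rfl, Real.sin_pi_div_two]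

lemma Fs_shift (x : ℝ) : Fs (x + Real.pi / 2) = 1 + Fc x := by
  have h1 : Fs (x + Real.pi / 2) = Fs (Real.pi / 2) + ∫ u in (Real.pi / 2)..(x + Real.pi / 2), |Real.sin u| := by
    unfold Fs
    rw [intervalIntegral.integral_add_adjacent_intervals (ii_sin _ _) (ii_sin _ _)]
  have h2 : ∫ u in (Real.pi / 2)..(x + Real.pi / 2), |Real.sin u| = Fc x := by
    have := intervalIntegral.integral_comp_add_right (a := 0) (b := x)
      (fun u => |Real.sin u|) (Real.pi / 2)
    rw [zero_add] at this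
    rw [← this]
    unfold Fc
    refine intervalIntegral.integral_congr fun u _ => ?_
    rw [Real.sin_add_pi_div_two]
  rw [h1, h2, Fs_small (by positivity) le_rfl, Real.cos_pi_div_two, sub_zero]

/-- the two ratios, by parity of `q` -/
lemma ratios (q : ℕ) {θ : ℝ} (h0 : 0 ≤ θ) (h1 : θ ≤ Real.pi / 2) :
    (Fc (q * (Real.pi / 2) + θ) = q + Real.sin θ ∧ Fs (q * (Real.pi / 2) + θ) = q + 1 - Real.cos θ ∧
      |Real.sin (q * (Real.pi / 2) + θ)| = Real.sin θ ∧ |Real.cos (q * (Real.pi / 2) + θ)| = Real.cos θ) ∨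
    (Fs (q * (Real.pi / 2) + θ) = q + Real.sin θ ∧ Fc (q * (Real.pi / 2) + θ) = q + 1 - Real.cos θ ∧
      |Real.cos (q * (Real.pi / 2) + θ)| = Real.sin θ ∧ |Real.sin (q * (Real.pi / 2) + θ)| = Real.cos θ) := by
  induction q with
  | zero =>
    left
    have hs := Real.sin_nonneg_of_nonneg_of_le_pi h0 (by linarith [Real.pi_pos])
    have hc := Real.cos_nonneg_of_mem_Icc ⟨by linarith [Real.pi_pos], h1⟩
    simp only [Nat.cast_zero, zero_mul, zero_add]
    exact ⟨Fc_small h0 h1, Fs_small h0 h1, abs_of_nonneg hs, abs_of_nonneg hc⟩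
  | succ k ih =>
    have e : ((k + 1 : ℕ) : ℝ) * (Real.pi / 2) + θ = (k * (Real.pi / 2) + θ) + Real.pi / 2 := by
      push_cast; ring
    rw [e, Fc_shift, Fs_shift, Real.sin_add_pi_div_two, Real.cos_add_pi_div_two, abs_neg]
    push_cast
    rcases ih with ⟨a, b, c, d⟩ | ⟨a, b, c, d⟩
    · right
      refine ⟨?_, ?_, c, d⟩
      · rw [a]; ring
      · rw [b]; ring
    · left
      refine ⟨?_, ?_, c, d⟩
      · rw [a]; ring
      · rw [b]; ring

/-! ### The Green function -/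

/-- symmetric integral -/
lemma int_abs_cos (x : ℝ) : ∫ u in (-x)..x, |Real.cos u| = 2 * Fc x := by
  have h : ∫ u in (-x)..0, |Real.cos u| = Fc x := by
    have := intervalIntegral.integral_comp_neg (a := 0) (b := x) (fun u => |Real.cos u|)
    rw [neg_zero] at this
    rw [← this]
    unfold Fc
    refine intervalIntegral.integral_congr fun u _ => ?_
    rw [Real.cos_neg]
  rw [← intervalIntegral.integral_add_adjacent_intervals (ii_cos (-x) 0) (ii_cos 0 x), h]
  unfold Fc; ring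

lemma int_abs_sin (x : ℝ) : ∫ u in (-x)..x, |Real.sin u| = 2 * Fs x := by
  have h : ∫ u in (-x)..0, |Real.sin u| = Fs x := by
    have := intervalIntegral.integral_comp_neg (a := 0) (b := x) (fun u => |Real.sin u|)
    rw [neg_zero] at this
    rw [← this]
    unfold Fs
    refine intervalIntegral.integral_congr fun u _ => ?_
    rw [Real.sin_neg, abs_neg]
  rw [← intervalIntegral.integral_add_adjacent_intervals (ii_sin (-x) 0) (ii_sin 0 x), h]
  unfold Fs; ring

lemma int_cos_shift {ρ : ℝ} (hρ : 0 < ρ) :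
    ∫ s in (0)..(2 * Real.pi), |Real.cos (ρ * (s - Real.pi))| = 2 / ρ * Fc (Real.pi * ρ) := by
  have h := intervalIntegral.integral_comp_mul_sub (a := 0) (b := 2 * Real.pi)
    (fun u => |Real.cos u|) hρ.ne' (ρ * Real.pi)
  have e : ∀ s : ℝ, ρ * s - ρ * Real.pi = ρ * (s - Real.pi) := fun s => by ring
  simp only [e] at h
  rw [h]
  have e1 : ρ * (0 - Real.pi) = -(Real.pi * ρ) := by ring
  have e2 : ρ * (2 * Real.pi - Real.pi) = Real.pi * ρ := by ring
  rw [e1, e2, int_abs_cos, smul_eq_mul]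
  ring

lemma int_sin_shift {ρ : ℝ} (hρ : 0 < ρ) :
    ∫ s in (0)..(2 * Real.pi), |Real.sin (ρ * (s - Real.pi))| = 2 / ρ * Fs (Real.pi * ρ) := by
  have h := intervalIntegral.integral_comp_mul_sub (a := 0) (b := 2 * Real.pi)
    (fun u => |Real.sin u|) hρ.ne' (ρ * Real.pi)
  have e : ∀ s : ℝ, ρ * s - ρ * Real.pi = ρ * (s - Real.pi) := fun s => by ring
  simp only [e] at h
  rw [h]
  have e1 : ρ * (0 - Real.pi) = -(Real.pi * ρ) := by ring
  have e2 : ρ * (2 * Real.pi - Real.pi) = Real.pi * ρ := by ring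
  rw [e1, e2, int_abs_sin, smul_eq_mul]
  ring

/-- General construction: `G s = A cos (ρ (s - π)) + B sin (ρ (s - π))`. -/
theorem green_sol {ρ : ℝ} {A B σ : ℝ}
    (h1 : A * Real.cos (ρ * Real.pi) * (1 - σ) = 0)
    (h2 : B * Real.sin (ρ * Real.pi) * (1 + σ) = 0)
    (h3 : A * Real.sin (ρ * Real.pi) * (1 + σ) * ρ + B * Real.cos (ρ * Real.pi) * (1 - σ) * ρ = 1)
    (hσ : σ * σ = 1)
    {e : ℝ → ℝ} (hec : Continuous e) (he : ∀ θ, e (θ + 2 * Real.pi) = σ * e θ) :
    ∃ Φ : ℝ → ℝ, ContDiff ℝ 2 Φ ∧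
      (∀ θ, Φ θ = ∫ s in (0)..(2 * Real.pi),
        (A * Real.cos (ρ * (s - Real.pi)) + B * Real.sin (ρ * (s - Real.pi))) * e (θ - s)) ∧
      ∀ θ, LL ρ Φ θ = e θ := by
  have he' : ∀ θ, e (θ - 2 * Real.pi) = σ * e θ := by
    intro θ
    have := he (θ - 2 * Real.pi)
    rw [sub_add_cancel] at this
    rw [this, ← mul_assoc, hσ, one_mul]
  set c : ℝ → ℝ := fun s => e s * Real.cos (ρ * s) with hc
  set d : ℝ → ℝ := fun s => e s * Real.sin (ρ * s) with hd
  have hcc : Continuous c := hec.mul (Real.continuous_cos.comp (continuous_const.mul continuous_id))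
  have hdc : Continuous d := hec.mul (Real.continuous_sin.comp (continuous_const.mul continuous_id))
  set EC : ℝ → ℝ := fun θ => ∫ s in (θ - 2 * Real.pi)..θ, c s with hEC
  set ED : ℝ → ℝ := fun θ => ∫ s in (θ - 2 * Real.pi)..θ, d s with hED
  have key : ∀ (g : ℝ → ℝ), Continuous g → ∀ θ, HasDerivAt (fun θ => ∫ s in (θ - 2 * Real.pi)..θ, g s)
      (g θ - g (θ - 2 * Real.pi)) θ := by
    intro g hg θ
    have h0 : (fun θ => ∫ s in (θ - 2 * Real.pi)..θ, g s)
        = fun θ => (∫ s in (0)..θ, g s) - ∫ s in (0)..(θ - 2 * Real.pi), g s := by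
      funext θ
      rw [intervalIntegral.integral_interval_sub_left (hg.intervalIntegrable _ _)
        (hg.intervalIntegrable _ _)]
    rw [h0]
    have a1 := (hg.integral_hasStrictDerivAt 0 θ).hasDerivAt
    have a2 := (hg.integral_hasStrictDerivAt 0 (θ - 2 * Real.pi)).hasDerivAt
    have a3 : HasDerivAt (fun θ : ℝ => θ - 2 * Real.pi) 1 θ := (hasDerivAt_id θ).sub_const _
    have a4 := a2.comp θ a3
    rw [mul_one] at a4
    exact a1.sub a4
  have hEC' := key c hcc
  have hED' := key d hdc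
  set Φ : ℝ → ℝ := fun θ =>
    A * (Real.cos (ρ * (θ - Real.pi)) * EC θ + Real.sin (ρ * (θ - Real.pi)) * ED θ) +
    B * (Real.sin (ρ * (θ - Real.pi)) * EC θ - Real.cos (ρ * (θ - Real.pi)) * ED θ) with hΦ
  set Φ₁ : ℝ → ℝ := fun θ =>
    A * ρ * (-Real.sin (ρ * (θ - Real.pi)) * EC θ + Real.cos (ρ * (θ - Real.pi)) * ED θ) +
    B * ρ * (Real.cos (ρ * (θ - Real.pi)) * EC θ + Real.sin (ρ * (θ - Real.pi)) * ED θ) with hΦ₁
  have dl : ∀ θ : ℝ, HasDerivAt (fun θ : ℝ => ρ * (θ - Real.pi)) ρ θ := by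
    intro θ
    simpa using ((hasDerivAt_id θ).sub_const Real.pi).const_mul ρ
  have dcos : ∀ θ : ℝ, HasDerivAt (fun θ : ℝ => Real.cos (ρ * (θ - Real.pi)))
      (-Real.sin (ρ * (θ - Real.pi)) * ρ) θ := fun θ => (dl θ).cos
  have dsin : ∀ θ : ℝ, HasDerivAt (fun θ : ℝ => Real.sin (ρ * (θ - Real.pi)))
      (Real.cos (ρ * (θ - Real.pi)) * ρ) θ := fun θ => (dl θ).sin
  have t1 : ∀ θ : ℝ, Real.cos (ρ * (θ - Real.pi)) * Real.cos (ρ * θ)
      + Real.sin (ρ * (θ - Real.pi)) * Real.sin (ρ * θ) = Real.cos (ρ * Real.pi) := by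
    intro θ
    rw [← Real.cos_sub]
    rw [show ρ * (θ - Real.pi) - ρ * θ = -(ρ * Real.pi) by ring, Real.cos_neg]
  have t2 : ∀ θ : ℝ, Real.cos (ρ * (θ - Real.pi)) * Real.cos (ρ * (θ - 2 * Real.pi))
      + Real.sin (ρ * (θ - Real.pi)) * Real.sin (ρ * (θ - 2 * Real.pi)) = Real.cos (ρ * Real.pi) := by
    intro θ
    rw [← Real.cos_sub]
    rw [show ρ * (θ - Real.pi) - ρ * (θ - 2 * Real.pi) = (ρ * Real.pi) by ring]
  have t3 : ∀ θ : ℝ, Real.sin (ρ * (θ - Real.pi)) * Real.cos (ρ * θ)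
      - Real.cos (ρ * (θ - Real.pi)) * Real.sin (ρ * θ) = -Real.sin (ρ * Real.pi) := by
    intro θ
    rw [← Real.sin_sub]
    rw [show ρ * (θ - Real.pi) - ρ * θ = -(ρ * Real.pi) by ring, Real.sin_neg]
  have t4 : ∀ θ : ℝ, Real.sin (ρ * (θ - Real.pi)) * Real.cos (ρ * (θ - 2 * Real.pi))
      - Real.cos (ρ * (θ - Real.pi)) * Real.sin (ρ * (θ - 2 * Real.pi)) = Real.sin (ρ * Real.pi) := by
    intro θ
    rw [← Real.sin_sub]
    rw [show ρ * (θ - Real.pi) - ρ * (θ - 2 * Real.pi) = (ρ * Real.pi) by ring]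
  have D1 : ∀ θ, HasDerivAt Φ (Φ₁ θ) θ := by
    intro θ
    have hA := ((dcos θ).mul (hEC' θ)).add ((dsin θ).mul (hED' θ))
    have hB := ((dsin θ).mul (hEC' θ)).sub ((dcos θ).mul (hED' θ))
    have hAB := (hA.const_mul A).add (hB.const_mul B)
    refine HasDerivAt.congr_deriv (f := Φ) hAB ?_
    simp only [hΦ₁, hc, hd, he', hEC, hED]
    have h1' : A * Real.cos (ρ * Real.pi) * (1 - σ) * e θ = 0 := by rw [h1, zero_mul]
    have h2' : B * Real.sin (ρ * Real.pi) * (1 + σ) * e θ = 0 := by rw [h2, zero_mul]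
    linear_combination (A * e θ) * (t1 θ) - (A * σ * e θ) * (t2 θ) + (B * e θ) * (t3 θ)
      - (B * σ * e θ) * (t4 θ) + h1' - h2'
  have D2 : ∀ θ, HasDerivAt Φ₁ (e θ - ρ ^ 2 * Φ θ) θ := by
    intro θ
    have hA := (((dsin θ).neg).mul (hEC' θ)).add ((dcos θ).mul (hED' θ))
    have hB := ((dcos θ).mul (hEC' θ)).add ((dsin θ).mul (hED' θ))
    have hAB := (hA.const_mul (A * ρ)).add (hB.const_mul (B * ρ))
    refine HasDerivAt.congr_deriv (f := Φ₁) hAB ?_
    simp only [hΦ, hc, hd, he', hEC, hED, Pi.neg_apply]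
    have h3' : (A * Real.sin (ρ * Real.pi) * (1 + σ) * ρ + B * Real.cos (ρ * Real.pi) * (1 - σ) * ρ) * e θ
        = e θ := by rw [h3, one_mul]
    linear_combination (-A * ρ * e θ) * (t3 θ) + (A * ρ * σ * e θ) * (t4 θ)
      + (B * ρ * e θ) * (t1 θ) - (B * ρ * σ * e θ) * (t2 θ) + h3'
  have hd1 : deriv Φ = Φ₁ := funext fun θ => (D1 θ).deriv
  have hd2 : deriv Φ₁ = fun θ => e θ - ρ ^ 2 * Φ θ := funext fun θ => (D2 θ).deriv
  have hΦc : Continuous Φ := continuous_iff_continuousAt.2 fun θ => (D1 θ).continuousAt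
  refine ⟨Φ, ?_, ?_, ?_⟩
  · have hD1 : Differentiable ℝ Φ := fun θ => (D1 θ).differentiableAt
    have hD2 : Differentiable ℝ Φ₁ := fun θ => (D2 θ).differentiableAt
    have h21 : ContDiff ℝ 1 Φ₁ := by
      rw [contDiff_one_iff_deriv]
      refine ⟨hD2, ?_⟩
      rw [hd2]
      exact hec.sub (continuous_const.mul hΦc)
    have : ContDiff ℝ (1 + 1) Φ := by
      rw [contDiff_succ_iff_deriv]
      refine ⟨hD1, by simp, ?_⟩
      rw [hd1]; exact h21
    simpa [one_add_one_eq_two] using this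
  · intro θ
    have hsub := intervalIntegral.integral_comp_sub_left (a := 0) (b := 2 * Real.pi)
      (fun u => (A * Real.cos (ρ * (θ - u - Real.pi)) + B * Real.sin (ρ * (θ - u - Real.pi))) * e u) θ
    have e3 : ∀ s : ℝ, θ - (θ - s) = s := fun s => by ring
    simp only [e3, sub_zero] at hsub
    rw [hsub]
    have e4 : ∀ u : ℝ, (A * Real.cos (ρ * (θ - u - Real.pi)) + B * Real.sin (ρ * (θ - u - Real.pi))) * e u
        = (A * Real.cos (ρ * (θ - Real.pi)) + B * Real.sin (ρ * (θ - Real.pi))) * c u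
          + (A * Real.sin (ρ * (θ - Real.pi)) - B * Real.cos (ρ * (θ - Real.pi))) * d u := by
      intro u
      simp only [hc, hd]
      have e5 : ρ * (θ - u - Real.pi) = ρ * (θ - Real.pi) - ρ * u := by ring
      rw [e5, Real.cos_sub, Real.sin_sub]
      ring
    simp only [e4]
    have hcI : IntervalIntegrable (fun u => (A * Real.cos (ρ * (θ - Real.pi)) +
        B * Real.sin (ρ * (θ - Real.pi))) * c u) volume (θ - 2 * Real.pi) θ :=
      (continuous_const.mul hcc).intervalIntegrable _ _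
    have hdI : IntervalIntegrable (fun u => (A * Real.sin (ρ * (θ - Real.pi)) -
        B * Real.cos (ρ * (θ - Real.pi))) * d u) volume (θ - 2 * Real.pi) θ :=
      (continuous_const.mul hdc).intervalIntegrable _ _
    rw [intervalIntegral.integral_add hcI hdI,
      intervalIntegral.integral_const_mul, intervalIntegral.integral_const_mul]
    simp only [hΦ, hEC, hED]
    ring
  · intro θ
    unfold LL
    rw [hd1, hd2]
    ring

/-- crude bound for a Green potential -/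
lemma green_bound {G e : ℝ → ℝ} (hG : Continuous G) (hec : Continuous e) (he : ∀ θ, |e θ| ≤ 1) (θ : ℝ) :
    |∫ s in (0)..(2 * Real.pi), G s * e (θ - s)| ≤ ∫ s in (0)..(2 * Real.pi), |G s| := by
  have h2 : (0 : ℝ) ≤ 2 * Real.pi := by positivity
  refine (intervalIntegral.abs_integral_le_integral_abs h2).trans ?_
  refine intervalIntegral.integral_mono_on h2 ?_ (hG.abs.intervalIntegrable _ _) ?_
  · exact ((hG.mul (hec.comp (continuous_const.sub continuous_id))).abs).intervalIntegrable _ _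
  · intro s _
    rw [abs_mul]
    exact mul_le_of_le_one_right (abs_nonneg _) (he _)

lemma lam_aux {ρ s : ℝ} {K : ℝ} (hρ : 0 < ρ) (h : K = ρ ^ 2 * s) :
    2 * ρ ^ 2 * s / (1 + ρ ^ 2 * s) = 2 * K / (1 + K) := by
  have := hρ.ne'
  rw [h]; ring

lemma mono_frac {x y : ℝ} (hx : 0 ≤ x) (hxy : x ≤ y) : 2 * x / (1 + x) ≤ 2 * y / (1 + y) := by
  rw [div_le_div_iff₀ (by linarith) (by linarith)]
  nlinarith

/-- Module A3. -/
theorem exists_Phi {ρ : ℝ} (hρ : 1 ≤ ρ) (hh : ∀ m : ℕ, 2 * ρ ≠ m) :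
    ∃ C : ℝ, 1 / ρ ^ 2 ≤ C ∧ 2 * ρ ^ 2 * C / (1 + ρ ^ 2 * C) ≤ Lam ρ ∧
      ∀ (n : ℕ) (e : ℝ → ℝ), Continuous e → (∀ θ, |e θ| ≤ 1) →
        (∀ θ, e (θ + 2 * Real.pi) = (-1) ^ n * e θ) →
        ∃ Φ : ℝ → ℝ, ContDiff ℝ 2 Φ ∧ (∀ θ, Φ (θ + 2 * Real.pi) = (-1) ^ n * Φ θ) ∧
          (∀ θ, |Φ θ| ≤ C) ∧ ∀ θ, LL ρ Φ θ = e θ := by
  have hρ0 : 0 < ρ := by linarith
  set q : ℕ := Nat.floor (2 * ρ) with hq
  set t : ℝ := Real.pi / 2 * (2 * ρ - (q : ℝ)) with ht
  have hq1 : (q : ℝ) ≤ 2 * ρ := Nat.floor_le (by linarith)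
  have hq2 : 2 * ρ < q + 1 := Nat.lt_floor_add_one _
  have hq3 : (q : ℝ) < 2 * ρ := lt_of_le_of_ne hq1 (fun h => hh q h.symm)
  have hqpos : (1 : ℝ) ≤ q := by
    have : 1 ≤ q := by
      rw [hq]; exact Nat.le_floor (by push_cast; linarith)
    exact_mod_cast this
  have ht0 : 0 < t := mul_pos (by positivity) (by linarith)
  have ht1 : t < Real.pi / 2 := by
    have : Real.pi / 2 * (2 * ρ - q) < Real.pi / 2 * 1 :=
      mul_lt_mul_of_pos_left (by linarith) (by positivity)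
    simpa [ht] using this
  have hx : (q : ℝ) * (Real.pi / 2) + t = Real.pi * ρ := by rw [ht]; ring
  have hst : 0 < Real.sin t := Real.sin_pos_of_pos_of_lt_pi ht0 (by linarith [Real.pi_pos])
  have hct : 0 < Real.cos t := Real.cos_pos_of_mem_Ioo ⟨by linarith [Real.pi_pos], ht1⟩
  have hct1 : Real.cos t ≤ 1 := Real.cos_le_one t
  set k₁ : ℝ := (q + Real.sin t) / Real.sin t with hk₁
  set k₂ : ℝ := (q + 1 - Real.cos t) / Real.cos t with hk₂
  have hk1 : 1 ≤ k₁ := by rw [hk₁, le_div_iff₀ hst]; linarith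
  have hk2 : 0 ≤ k₂ := by rw [hk₂]; apply div_nonneg _ hct.le; linarith
  set K : ℝ := max k₁ k₂ with hK
  have hK1 : 1 ≤ K := hk1.trans (le_max_left _ _)
  have hρ2 : 0 < ρ ^ 2 := by positivity
  have hparity := ratios q ht0.le ht1.le
  rw [hx] at hparity
  have hsin : Real.sin (ρ * Real.pi) ≠ 0 := by
    rw [mul_comm]
    intro h
    rcases hparity with ⟨_, _, c, _⟩ | ⟨_, _, _, d⟩
    · rw [h, abs_zero] at c; exact hst.ne c
    · rw [h, abs_zero] at d; exact hct.ne d
  have hcos : Real.cos (ρ * Real.pi) ≠ 0 := by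
    rw [mul_comm]
    intro h
    rcases hparity with ⟨_, _, _, d⟩ | ⟨_, _, c, _⟩
    · rw [h, abs_zero] at d; exact hct.ne d
    · rw [h, abs_zero] at c; exact hst.ne c
  -- the two bounds
  have b1 : Fc (Real.pi * ρ) / |Real.sin (ρ * Real.pi)| ≤ K := by
    rw [mul_comm ρ]
    rcases hparity with ⟨a, _, c, _⟩ | ⟨_, a, _, d⟩
    · rw [a, c]; exact le_max_left _ _
    · rw [a, d]; exact le_max_right _ _
  have b2 : Fs (Real.pi * ρ) / |Real.cos (ρ * Real.pi)| ≤ K := by
    rw [mul_comm ρ]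
    rcases hparity with ⟨_, b, _, d⟩ | ⟨a, _, c, _⟩
    · rw [b, d]; exact le_max_right _ _
    · rw [a, c]; exact le_max_left _ _
  refine ⟨K / ρ ^ 2, ?_, ?_, ?_⟩
  · exact div_le_div_of_nonneg_right hK1 hρ2.le
  · have e1 : 2 * ρ ^ 2 * (K / ρ ^ 2) / (1 + ρ ^ 2 * (K / ρ ^ 2)) = 2 * K / (1 + K) := by
      have h1 : ρ ^ 2 * (K / ρ ^ 2) = K := by field_simp
      rw [mul_assoc, h1]
    rw [e1]
    unfold Lam
    rw [← hq, ← ht]
    have l1 : 2 * k₁ / (1 + k₁) = 2 - 2 * Real.sin t / (q + 2 * Real.sin t) := by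
      rw [hk₁]; field_simp; ring
    have l2 : 2 * k₂ / (1 + k₂) = 2 - 2 * Real.cos t / (q + 1) := by
      have h1 : (q : ℝ) + 1 ≠ 0 := by linarith
      have h2 : Real.cos t + (q + 1 - Real.cos t) ≠ 0 := by
        rw [show Real.cos t + (q + 1 - Real.cos t) = (q : ℝ) + 1 by ring]; exact h1
      have h3 : 1 + k₂ = (q + 1) / Real.cos t := by rw [hk₂]; field_simp; ring
      rw [h3, hk₂]
      field_simp
    rcases max_cases k₁ k₂ with ⟨h, _⟩ | ⟨h, _⟩
    · rw [hK, h, l1]; exact le_max_left _ _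
    · rw [hK, h, l2]; exact le_max_right _ _
  · intro n e hec he hper
    rcases Nat.even_or_odd n with hn | hn
    · have hone : ((-1 : ℝ)) ^ n = 1 := hn.neg_one_pow
      rw [hone] at hper ⊢
      obtain ⟨Φ, h1, h2, h3⟩ := green_sol (ρ := ρ) (A := 1 / (2 * ρ * Real.sin (ρ * Real.pi)))
        (B := 0) (σ := 1) (by ring) (by ring) (by field_simp; ring) (by ring) hec hper
      refine ⟨Φ, h1, ?_, ?_, h3⟩
      · intro θ
        rw [h2, h2, one_mul]
        refine intervalIntegral.integral_congr fun s _ => ?_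
        rw [show θ + 2 * Real.pi - s = (θ - s) + 2 * Real.pi by ring, hper, one_mul]
      · intro θ
        rw [h2]
        refine (green_bound (G := fun s => 1 / (2 * ρ * Real.sin (ρ * Real.pi)) *
          Real.cos (ρ * (s - Real.pi)) + 0 * Real.sin (ρ * (s - Real.pi))) (by fun_prop) hec he θ).trans ?_
        have e1 : ∀ s : ℝ, |1 / (2 * ρ * Real.sin (ρ * Real.pi)) * Real.cos (ρ * (s - Real.pi)) +
            0 * Real.sin (ρ * (s - Real.pi))| = 1 / (2 * ρ * |Real.sin (ρ * Real.pi)|) *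
              |Real.cos (ρ * (s - Real.pi))| := by
          intro s
          rw [zero_mul, add_zero, abs_mul, abs_div, abs_one, abs_mul, abs_of_pos (by positivity : 0 < 2 * ρ)]
        simp only [e1]
        rw [intervalIntegral.integral_const_mul, int_cos_shift hρ0]
        have e2 : 1 / (2 * ρ * |Real.sin (ρ * Real.pi)|) * (2 / ρ * Fc (Real.pi * ρ))
            = Fc (Real.pi * ρ) / |Real.sin (ρ * Real.pi)| / ρ ^ 2 := by
          have : |Real.sin (ρ * Real.pi)| ≠ 0 := abs_ne_zero.2 hsin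
          field_simp
        rw [e2]
        exact div_le_div_of_nonneg_right b1 hρ2.le
    · have hone : ((-1 : ℝ)) ^ n = -1 := hn.neg_one_pow
      rw [hone] at hper ⊢
      obtain ⟨Φ, h1, h2, h3⟩ := green_sol (ρ := ρ) (A := 0)
        (B := 1 / (2 * ρ * Real.cos (ρ * Real.pi))) (σ := -1) (by ring) (by ring)
        (by field_simp; ring) (by ring) hec hper
      refine ⟨Φ, h1, ?_, ?_, h3⟩
      · intro θ
        rw [h2, h2, ← intervalIntegral.integral_const_mul]
        refine intervalIntegral.integral_congr fun s _ => ?_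
        rw [show θ + 2 * Real.pi - s = (θ - s) + 2 * Real.pi by ring, hper]
        ring
      · intro θ
        rw [h2]
        refine (green_bound (G := fun s => 0 * Real.cos (ρ * (s - Real.pi)) +
          1 / (2 * ρ * Real.cos (ρ * Real.pi)) * Real.sin (ρ * (s - Real.pi))) (by fun_prop) hec he θ).trans ?_
        have e1 : ∀ s : ℝ, |0 * Real.cos (ρ * (s - Real.pi)) +
            1 / (2 * ρ * Real.cos (ρ * Real.pi)) * Real.sin (ρ * (s - Real.pi))|
              = 1 / (2 * ρ * |Real.cos (ρ * Real.pi)|) * |Real.sin (ρ * (s - Real.pi))| := by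
          intro s
          rw [zero_mul, zero_add, abs_mul, abs_div, abs_one, abs_mul, abs_of_pos (by positivity : 0 < 2 * ρ)]
        simp only [e1]
        rw [intervalIntegral.integral_const_mul, int_sin_shift hρ0]
        have e2 : 1 / (2 * ρ * |Real.cos (ρ * Real.pi)|) * (2 / ρ * Fs (Real.pi * ρ))
            = Fs (Real.pi * ρ) / |Real.cos (ρ * Real.pi)| / ρ ^ 2 := by
          have : |Real.cos (ρ * Real.pi)| ≠ 0 := abs_ne_zero.2 hcos
          field_simp
        rw [e2]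
        exact div_le_div_of_nonneg_right b2 hρ2.le

end DW24
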