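import Pool.Agent.DW24.PhiS4

/-!
Module S1: the dual function for the spiral operator `(1 + s²) d² + 2 s ρ d + ρ²`, with the same
constant as in the radial case.
-/

set_option autoImplicit false

open MeasureTheory Filter Topology Set

namespace DW24

lemma sqrt_form {R c X Y : ℝ} (hR : 0 < R)
    (h : R ^ 2 = (2 * Real.exp (-c)) ^ 2 * (Real.sinh c ^ 2 + X ^ 2)) (hY : Y = Real.sqrt (Real.sinh c ^ 2 + X ^ 2)) :
    R = 2 * Real.exp (-c) * Y := by
  have h1 : R ^ 2 = (2 * Real.exp (-c) * Y) ^ 2 := by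
    rw [h, hY, mul_pow (2 * Real.exp (-c)), Real.sq_sqrt (by positivity)]
  exact (pow_left_inj₀ hR.le (by rw [hY]; positivity) two_ne_zero).1 h1

/-- hyperbolic rewriting of `q` and `w` -/
lemma hyp1 (c : ℝ) : 2 * Real.exp (-c) * Real.sinh c = 1 - Real.exp (-c) ^ 2 := by
  have hEc : Real.exp (-c) * Real.exp c = 1 := by rw [← Real.exp_add]; simp
  rw [Real.sinh_eq]; linear_combination hEc

lemma hyp2 (c : ℝ) : 2 * Real.exp (-c) * Real.cosh c = 1 + Real.exp (-c) ^ 2 := by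
  have hEc : Real.exp (-c) * Real.exp c = 1 := by rw [← Real.exp_add]; simp
  rw [Real.cosh_eq]; linear_combination hEc

lemma hyp3 (h : ℝ) (n : ℕ) : 2 * Real.exp (-h) ^ n * Real.sinh (n * h) = 1 - (Real.exp (-h) ^ 2) ^ n := by
  have e1 : Real.exp (-h) ^ n = Real.exp (-(n * h)) := by
    rw [← Real.exp_nat_mul]; congr 1; ring
  have e3 : (Real.exp (-h) ^ 2) ^ n = Real.exp (-(n * h)) ^ 2 := by
    rw [← e1, ← pow_mul, ← pow_mul, mul_comm]
  rw [e1, e3]
  exact hyp1 _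

lemma sinh_le_mul_cosh {c : ℝ} (hc : 0 ≤ c) : Real.sinh c ≤ c * Real.cosh c := by
  have hd : ∀ y, HasDerivAt (fun y => y * Real.cosh y - Real.sinh y) (y * Real.sinh y) y := by
    intro y
    have := ((hasDerivAt_id y).mul (Real.hasDerivAt_cosh y)).sub (Real.hasDerivAt_sinh y)
    refine this.congr_deriv ?_
    simp
  have hm : MonotoneOn (fun y => y * Real.cosh y - Real.sinh y) (Ici 0) := by
    refine monotoneOn_of_deriv_nonneg (convex_Ici 0)
      (fun y _ => (hd y).continuousAt.continuousWithinAt)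
      (fun y _ => (hd y).differentiableAt.differentiableWithinAt) ?_
    intro y hy
    rw [interior_Ici] at hy
    rw [(hd y).deriv]
    exact mul_nonneg (le_of_lt hy) (Real.sinh_nonneg_iff.2 (le_of_lt hy))
  have := hm (by simp) hc hc
  simp at this
  linarith

/-- the second term in the case `ν = 1` -/
lemma second_term {s t δ h c R A : ℝ} {p : ℕ} (hs : 0 < s) (hhd : h = Real.pi * s / 2)
    (hc : c = p * h + s * t) (hδ1 : δ < Real.pi / 2) (hA0 : 0 < A) (hRA : R = 2 * Real.exp (-c) * A) :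
    2 * Real.exp (s * (δ - t)) * Real.exp (-h) ^ 2 * (1 - (Real.exp (-h) ^ 2) ^ p) / (1 - Real.exp (-h) ^ 2)
      ≤ Real.sinh (p * h) / (Real.sinh h * A) * R := by
  have hh0 : 0 < h := by rw [hhd]; positivity
  have hshh : 0 < Real.sinh h := Real.sinh_pos_iff.2 hh0
  rw [← hyp3 h p, ← hyp1 h, hRA]
  have e0 : Real.exp (s * (δ - t)) * Real.exp (-h) ^ p = Real.exp (s * δ) * Real.exp (-c) := by
    rw [← Real.exp_nat_mul, ← Real.exp_add, ← Real.exp_add]; congr 1
    rw [hc]; ring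
  have e1 : 2 * Real.exp (s * (δ - t)) * Real.exp (-h) ^ 2 * (2 * Real.exp (-h) ^ p * Real.sinh (p * h))
      / (2 * Real.exp (-h) * Real.sinh h)
      = 2 * (Real.exp (s * (δ - t)) * Real.exp (-h) ^ p) * Real.exp (-h) * Real.sinh (p * h) / Real.sinh h := by
    have := (Real.exp_pos (-h)).ne'
    field_simp
  rw [e1, e0]
  have e2 : Real.sinh (p * h) / (Real.sinh h * A) * (2 * Real.exp (-c) * A)
      = 2 * Real.exp (-c) * Real.sinh (p * h) / Real.sinh h := by field_simp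
  rw [e2]
  refine div_le_div_of_nonneg_right ?_ hshh.le
  have h1 : Real.exp (s * δ) * Real.exp (-h) ≤ 1 := by
    rw [← Real.exp_add, Real.exp_le_one_iff]
    have := mul_le_mul_of_nonneg_left hδ1.le hs.le
    rw [hhd]; linarith
  have h2 : 0 ≤ Real.sinh (p * h) := Real.sinh_nonneg_iff.2 (by positivity)
  have h3 : 0 ≤ 2 * Real.exp (-c) * Real.sinh (p * h) := by positivity
  calc 2 * (Real.exp (s * δ) * Real.exp (-c)) * Real.exp (-h) * Real.sinh (p * h)
      = (Real.exp (s * δ) * Real.exp (-h)) * (2 * Real.exp (-c) * Real.sinh (p * h)) := by ring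
    _ ≤ 1 * (2 * Real.exp (-c) * Real.sinh (p * h)) := mul_le_mul_of_nonneg_right h1 h3
    _ = _ := one_mul _

/-- the first term in the case `ν = -1` -/
lemma first_term {s t δ h c R A : ℝ} {p : ℕ} (hh0 : 0 < h)
    (hc : c = p * h + s * t) (hA0 : 0 < A) (hRA : R = 2 * Real.exp (-c) * A) :
    2 * Real.exp (s * (δ - t)) * (1 - (Real.exp (-h) ^ 2) ^ (p + 1)) / (1 - Real.exp (-h) ^ 2)
      = Real.exp (s * δ) * Real.sinh ((p + 1 : ℕ) * h) / (Real.sinh h * A) * R := by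
  have hshh : 0 < Real.sinh h := Real.sinh_pos_iff.2 hh0
  rw [← hyp3 h (p + 1), ← hyp1 h, hRA]
  have e0 : Real.exp (s * (δ - t)) * Real.exp (-h) ^ (p + 1) = Real.exp (s * δ) * Real.exp (-c) * Real.exp (-h) := by
    rw [← Real.exp_nat_mul, ← Real.exp_add, ← Real.exp_add, ← Real.exp_add]; congr 1
    rw [hc]; push_cast; ring
  have e1 : 2 * Real.exp (s * (δ - t)) * (2 * Real.exp (-h) ^ (p + 1) * Real.sinh ((p + 1 : ℕ) * h))
      / (2 * Real.exp (-h) * Real.sinh h)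
      = 2 * (Real.exp (s * (δ - t)) * Real.exp (-h) ^ (p + 1)) / Real.exp (-h) * Real.sinh ((p + 1 : ℕ) * h) / Real.sinh h := by
    have := (Real.exp_pos (-h)).ne'
    field_simp
  rw [e1, e0]
  have := (Real.exp_pos (-h)).ne'
  field_simp

/-- the total in the case `ν = 1` -/
lemma total_plus {s η q w R : ℝ} {p : ℕ} {I1 I2 y z : ℝ} (hw1 : w < 1)
    (hclosed : (1 + s ^ 2) * I1 = (1 + w - 2 * w ^ (p + 1)) / (1 - w) - Real.exp (-(s * y)) * (s * Real.sin z + Real.cos z))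
    (hI2 : (1 + s ^ 2) * I2 = 1 - Real.exp (-(s * η)) * (s * Real.sin η + Real.cos η))
    (hexp : Real.exp (s * η) * Real.exp (-(s * y)) = q)
    (hexp2 : Real.exp (s * η) * Real.exp (-(s * η)) = 1)
    (hi1 : Real.sin η = q * Real.sin z) (hi2 : Real.cos η - q * Real.cos z = R) :
    (1 + s ^ 2) * (Real.exp (s * η) * (I1 - I2)) = R + 2 * Real.exp (s * η) * w * (1 - w ^ p) / (1 - w) := by
  have hw1' : 1 - w ≠ 0 := by linarith
  have e1 : (1 + s ^ 2) * (Real.exp (s * η) * (I1 - I2))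
      = Real.exp (s * η) * ((1 + s ^ 2) * I1) - Real.exp (s * η) * ((1 + s ^ 2) * I2) := by ring
  rw [e1, hclosed, hI2]
  have e2 : (1 + w - 2 * w ^ (p + 1)) / (1 - w) = 1 + 2 * w * (1 - w ^ p) / (1 - w) := by
    field_simp; ring
  rw [e2]
  have e3 : 2 * Real.exp (s * η) * w * (1 - w ^ p) / (1 - w)
      = Real.exp (s * η) * (2 * w * (1 - w ^ p) / (1 - w)) := by ring
  rw [e3]
  linear_combination (-(s * Real.sin z + Real.cos z)) * hexp
    + (s * Real.sin η + Real.cos η) * hexp2 + s * hi1 + hi2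

/-- the total in the case `ν = -1` -/
lemma total_minus {s η q w R : ℝ} {p : ℕ} {I1 I2 y z : ℝ} (hw1 : w < 1)
    (hclosed : (1 + s ^ 2) * I1 = (1 + w - 2 * w ^ (p + 1)) / (1 - w) - Real.exp (-(s * y)) * (s * Real.sin z + Real.cos z))
    (hI2 : (1 + s ^ 2) * I2 = -1 + Real.exp (-(s * η)) * (s * Real.sin η + Real.cos η))
    (hexp : Real.exp (s * η) * Real.exp (-(s * y)) = q)
    (hexp2 : Real.exp (s * η) * Real.exp (-(s * η)) = 1)
    (hi1 : Real.sin η = -1 * q * Real.sin z) (hi2 : Real.cos η - -1 * q * Real.cos z = R) :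
    (1 + s ^ 2) * (Real.exp (s * η) * (I1 - I2)) = 2 * Real.exp (s * η) * (1 - w ^ (p + 1)) / (1 - w) - R := by
  have hw1' : 1 - w ≠ 0 := by linarith
  have e1 : (1 + s ^ 2) * (Real.exp (s * η) * (I1 - I2))
      = Real.exp (s * η) * ((1 + s ^ 2) * I1) - Real.exp (s * η) * ((1 + s ^ 2) * I2) := by ring
  rw [e1, hclosed, hI2]
  have e2 : (1 + w - 2 * w ^ (p + 1)) / (1 - w) = -1 + 2 * (1 - w ^ (p + 1)) / (1 - w) := by
    field_simp; ring
  rw [e2]
  have e3 : 2 * Real.exp (s * η) * (1 - w ^ (p + 1)) / (1 - w)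
      = Real.exp (s * η) * (2 * (1 - w ^ (p + 1)) / (1 - w)) := by ring
  rw [e3]
  linear_combination (-(s * Real.sin z + Real.cos z)) * hexp
    - (s * Real.sin η + Real.cos η) * hexp2 - s * hi1 - hi2

/-- the bound of the total -/
lemma total_bound {a s t δ R : ℝ} {p : ℕ} (ha : 0 < a) (hs : 0 < s) (hρ : 1 ≤ a * (1 + s ^ 2))
    (hh : ∀ m : ℕ, 2 * (a * (1 + s ^ 2)) ≠ m) (ht0 : 0 ≤ t) (ht1 : t < Real.pi / 2)
    (hX : Real.pi * a = p * (Real.pi / 2) + t) {ν : ℝ} (hν : ν = 1 ∨ ν = -1)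
    (hR : 0 < R) (hδ0 : 0 ≤ δ) (hδ1 : δ < Real.pi / 2)
    (hRc : R * Real.cos δ = (1 - ν * Real.exp (-(2 * Real.pi * (s * a)))) * Real.cos t)
    (hRs : R * Real.sin δ = (1 + ν * Real.exp (-(2 * Real.pi * (s * a)))) * Real.sin t)
    (hR2 : R ^ 2 = ((1 - ν * Real.exp (-(2 * Real.pi * (s * a)))) * Real.cos t) ^ 2
      + ((1 + ν * Real.exp (-(2 * Real.pi * (s * a)))) * Real.sin t) ^ 2)
    (hRη : R * Real.sin (δ - t) = 2 * ν * Real.exp (-(2 * Real.pi * (s * a))) * (Real.sin t * Real.cos t))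
    (hi1 : Real.sin (δ - t) = ν * Real.exp (-(2 * Real.pi * (s * a))) * Real.sin (t + δ))
    (hi2 : Real.cos (δ - t) - ν * Real.exp (-(2 * Real.pi * (s * a))) * Real.cos (t + δ) = R) :
    (1 + s ^ 2) * (Real.exp (s * (δ - t)) * (Is s (p * Real.pi + (t + δ)) - Is s (δ - t)))
      ≤ KK (a * (1 + s ^ 2)) * R := by
  have hpi := Real.pi_pos
  set h : ℝ := Real.pi * s / 2 with hhd
  have hh0 : 0 < h := by positivity
  set c : ℝ := p * h + s * t with hc
  have hcX : c = s * (Real.pi * a) := by rw [hX, hc, hhd]; ring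
  have hc0 : 0 < c := by rw [hcX]; positivity
  have hqc : Real.exp (-(2 * Real.pi * (s * a))) = Real.exp (-c) ^ 2 := by
    rw [hcX, ← Real.exp_nat_mul]; congr 1; push_cast; ring
  have hwh : Real.exp (-(s * Real.pi)) = Real.exp (-h) ^ 2 := by
    rw [hhd, ← Real.exp_nat_mul]; congr 1; push_cast; ring
  have hπρ : Real.pi * (a * (1 + s ^ 2)) = p * (Real.pi / 2) + (t + s * c) := by
    rw [hcX]; linear_combination hX
  have hct : 0 < Real.cos t := Real.cos_pos_of_mem_Ioo ⟨by linarith, ht1⟩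
  have hst : 0 ≤ Real.sin t := Real.sin_nonneg_of_nonneg_of_le_pi ht0 (by linarith)
  have hsq : Real.sin t ^ 2 + Real.cos t ^ 2 = 1 := Real.sin_sq_add_cos_sq t
  have hshc : 0 < Real.sinh c := Real.sinh_pos_iff.2 hc0
  rw [hqc] at hRc hRs hR2 hRη hi1 hi2
  have hexp : Real.exp (s * (δ - t)) * Real.exp (-(s * (p * Real.pi + (t + δ)))) = Real.exp (-c) ^ 2 := by
    rw [← Real.exp_nat_mul, ← Real.exp_add]; congr 1
    rw [hc, hhd]; push_cast; ring
  have hexp2 : Real.exp (s * (δ - t)) * Real.exp (-(s * (δ - t))) = 1 := by rw [← Real.exp_add]; simp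
  have hclosed := Is_closed hs p (r := t + δ) (by linarith) (by linarith)
  rw [hwh] at hclosed
  have hw1 : Real.exp (-h) ^ 2 < 1 := by
    rw [← hwh, Real.exp_lt_one_iff]
    have : 0 < s * Real.pi := by positivity
    linarith
  have hq0 : 0 < Real.exp (-c) ^ 2 := by positivity
  have hp1 := hyp1 c
  rcases hν with hν' | hν'
  · -- case ν = 1
    rw [hν', one_mul] at hi1 hi2 hRc hRs hR2
    rw [hν'] at hRη
    have hη0 : 0 ≤ δ - t := by
      have h1 : 0 ≤ Real.sin (δ - t) := by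
        have : 0 ≤ R * Real.sin (δ - t) := by rw [hRη]; positivity
        exact nonneg_of_mul_nonneg_right this hR
      by_contra hneg
      push Not at hneg
      have := Real.sin_neg_of_neg_of_neg_pi_lt hneg (by linarith)
      linarith
    have hIη := Is_pos_small s hη0 (by linarith)
    rw [total_plus hw1 hclosed hIη hexp hexp2 hi1 hi2]
    set A : ℝ := Real.sqrt (Real.sinh c ^ 2 + Real.sin t ^ 2) with hA
    have hA0 : 0 < A := Real.sqrt_pos.2 (by positivity)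
    have hRA : R = 2 * Real.exp (-c) * A := by
      refine sqrt_form hR ?_ hA
      rw [hR2]
      linear_combination (-(2 * Real.exp (-c) * Real.sinh c + 1 - Real.exp (-c) ^ 2)) * hp1
        + (1 - Real.exp (-c) ^ 2) ^ 2 * hsq
    have hsec := second_term hs hhd hc hδ1 hA0 hRA
    have hfin := fin_plus hs hρ hh hhd hc hc0 ht0 ht1 hπρ
    rw [← hA] at hfin
    have := mul_le_mul_of_nonneg_right hfin hR.le
    linarith
  · -- case ν = -1
    rw [hν'] at hi1 hi2 hRc hRs hR2 hRη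
    have hη0 : δ - t ≤ 0 := by
      have h1 : Real.sin (δ - t) ≤ 0 := by
        have h2 : R * Real.sin (δ - t) ≤ 0 := by
          rw [hRη]
          have : 0 ≤ Real.exp (-c) ^ 2 * (Real.sin t * Real.cos t) := by positivity
          linarith
        exact nonpos_of_mul_nonpos_right h2 hR
      by_contra hneg
      push Not at hneg
      have := Real.sin_pos_of_pos_of_lt_pi hneg (by linarith)
      linarith
    have hIη := Is_neg_small s hη0 (by linarith)
    rw [total_minus hw1 hclosed hIη hexp hexp2 hi1 hi2]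
    set A : ℝ := Real.sqrt (Real.sinh c ^ 2 + Real.cos t ^ 2) with hA
    have hA0 : 0 < A := Real.sqrt_pos.2 (by positivity)
    have hRA : R = 2 * Real.exp (-c) * A := by
      refine sqrt_form hR ?_ hA
      rw [hR2]
      linear_combination (-(2 * Real.exp (-c) * Real.sinh c + 1 - Real.exp (-c) ^ 2)) * hp1
        + (1 - Real.exp (-c) ^ 2) ^ 2 * hsq
    rw [first_term hh0 hc hA0 hRA]
    have hcδ : 0 < Real.cos δ := Real.cos_pos_of_mem_Ioo ⟨by linarith, hδ1⟩
    have hδc : δ ≤ c * Real.tan t := by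
      have h1 : δ ≤ Real.tan δ := Real.le_tan hδ0 hδ1
      refine h1.trans ?_
      rw [Real.tan_eq_sin_div_cos, Real.tan_eq_sin_div_cos, div_le_iff₀ hcδ]
      have h2 : R * Real.sin δ ≤ R * (c * (Real.sin t / Real.cos t) * Real.cos δ) := by
        have e1 : R * (c * (Real.sin t / Real.cos t) * Real.cos δ)
            = c * (Real.sin t / Real.cos t) * (R * Real.cos δ) := by ring
        rw [e1, hRs, hRc]
        have e2 : c * (Real.sin t / Real.cos t) * ((1 - -1 * Real.exp (-c) ^ 2) * Real.cos t)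
            = c * (1 + Real.exp (-c) ^ 2) * Real.sin t := by field_simp; ring
        rw [e2]
        refine mul_le_mul_of_nonneg_right ?_ hst
        have h5 := mul_le_mul_of_nonneg_left (sinh_le_mul_cosh hc0.le) (by positivity : 0 ≤ 2 * Real.exp (-c))
        have h6 : 2 * Real.exp (-c) * (c * Real.cosh c) = c * (2 * Real.exp (-c) * Real.cosh c) := by ring
        rw [hyp1, h6, hyp2] at h5
        linarith
      exact le_of_mul_le_mul_left h2 hR
    have hfin := fin_minus hs hρ hh hhd hc hc0 ht0 ht1 hπρ (by linarith : δ ≤ t) hδc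
    rw [← hA] at hfin
    have := mul_le_mul_of_nonneg_right hfin hR.le
    linarith

/-- The key estimate. -/
theorem greenS_bound {a s : ℝ} (ha : 0 < a) (hs : 0 < s) (hρ : 1 ≤ a * (1 + s ^ 2))
    (hh : ∀ m : ℕ, 2 * (a * (1 + s ^ 2)) ≠ m) {σ : ℝ} (hσ : σ = 1 ∨ σ = -1) :
    ∃ P Q : ℝ, P = σ * Real.exp (-(2 * Real.pi * (s * a))) *
        (P * Real.cos (2 * Real.pi * a) + Q * Real.sin (2 * Real.pi * a)) ∧
      a * (1 + s ^ 2) * (Q - σ * Real.exp (-(2 * Real.pi * (s * a))) *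
        (Q * Real.cos (2 * Real.pi * a) - P * Real.sin (2 * Real.pi * a))) = 1 ∧
      ∫ u in (0)..(2 * Real.pi), |Real.exp (-(s * a * u)) * (P * Real.cos (a * u) + Q * Real.sin (a * u))|
        ≤ KK (a * (1 + s ^ 2)) / (a * (1 + s ^ 2)) ^ 2 := by
  have hpi := Real.pi_pos
  obtain ⟨ρ, hρd⟩ : ∃ ρ : ℝ, ρ = a * (1 + s ^ 2) := ⟨_, rfl⟩
  have hρ0 : 0 < ρ := by rw [hρd]; linarith
  obtain ⟨p, hp⟩ : ∃ p : ℕ, p = Nat.floor (2 * a) := ⟨_, rfl⟩
  obtain ⟨t, ht⟩ : ∃ t : ℝ, t = Real.pi / 2 * (2 * a - (p : ℝ)) := ⟨_, rfl⟩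
  have hp1 : (p : ℝ) ≤ 2 * a := by rw [hp]; exact Nat.floor_le (by linarith)
  have hp2 : 2 * a < p + 1 := by rw [hp]; exact Nat.lt_floor_add_one _
  have ht0 : 0 ≤ t := by rw [ht]; exact mul_nonneg (by positivity) (by linarith)
  have ht1 : t < Real.pi / 2 := by
    have : Real.pi / 2 * (2 * a - p) < Real.pi / 2 * 1 :=
      mul_lt_mul_of_pos_left (by linarith) (by positivity)
    rw [ht]; linarith
  have hx : 2 * Real.pi * a = 2 * t + p * Real.pi := by rw [ht]; ring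
  have hX : Real.pi * a = p * (Real.pi / 2) + t := by rw [ht]; ring
  have hqd : ∃ q : ℝ, q = Real.exp (-(2 * Real.pi * (s * a))) := ⟨_, rfl⟩
  obtain ⟨q, hq⟩ := hqd
  have hq0 : 0 < q := by rw [hq]; exact Real.exp_pos _
  have hq1 : q < 1 := by
    rw [hq, Real.exp_lt_one_iff]
    have : 0 < 2 * Real.pi * (s * a) := by positivity
    linarith
  obtain ⟨ν, hν⟩ : ∃ ν : ℝ, ν = σ * (-1) ^ p := ⟨_, rfl⟩
  have hν1 : ν = 1 ∨ ν = -1 := by
    rcases hσ with h | h <;> rcases neg_one_pow_eq_or ℝ p with h' | h' <;> rw [hν, h, h'] <;> norm_num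
  obtain ⟨R, δ, hR, hδ0, hδ1, hRc, hRs, hR2⟩ := polar hν1 hq0 hq1 ht0 ht1
  have hcos : Real.cos (2 * Real.pi * a) = (-1) ^ p * Real.cos (2 * t) := by
    rw [hx, Real.cos_add_nat_mul_pi]
  have hsin : Real.sin (2 * Real.pi * a) = (-1) ^ p * Real.sin (2 * t) := by
    rw [hx, Real.sin_add_nat_mul_pi]
  have hRη : R * Real.sin (δ - t) = 2 * ν * q * (Real.sin t * Real.cos t) := by
    rw [Real.sin_sub]
    linear_combination (Real.cos t) * hRs - (Real.sin t) * hRc
  have hi1 : Real.sin (δ - t) = ν * q * Real.sin (t + δ) := by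
    have : R * Real.sin (δ - t) = R * (ν * q * Real.sin (t + δ)) := by
      rw [hRη, Real.sin_add]
      linear_combination (-(ν * q) * Real.cos t) * hRs - (ν * q * Real.sin t) * hRc
    exact mul_left_cancel₀ hR.ne' this
  have hi2 : Real.cos (δ - t) - ν * q * Real.cos (t + δ) = R := by
    have h1 : R * (Real.cos (δ - t) - ν * q * Real.cos (t + δ)) = R * R := by
      rw [← sq R, hR2, Real.cos_sub, Real.cos_add]
      linear_combination (Real.cos t - ν * q * Real.cos t) * hRc + (Real.sin t + ν * q * Real.sin t) * hRs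
    exact mul_left_cancel₀ hR.ne' h1
  have ee1 : Real.cos (2 * t) * Real.sin (δ - t) + Real.sin (2 * t) * Real.cos (δ - t) = Real.sin (t + δ) := by
    rw [show t + δ = 2 * t + (δ - t) by ring, Real.sin_add]; ring
  have ee2 : Real.cos (2 * t) * Real.cos (δ - t) - Real.sin (2 * t) * Real.sin (δ - t) = Real.cos (t + δ) := by
    rw [show t + δ = 2 * t + (δ - t) by ring, Real.cos_add]
  have hρR : ρ * R ≠ 0 := by positivity
  have htb := total_bound (p := p) ha hs hρ hh ht0 ht1 hX hν1 hR hδ0 hδ1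
    (by rw [← hq]; exact hRc) (by rw [← hq]; exact hRs) (by rw [← hq]; exact hR2)
    (by rw [← hq]; exact hRη) (by rw [← hq]; exact hi1) (by rw [← hq]; exact hi2)
  rw [← hρd] at htb ⊢
  rw [← hq]
  refine ⟨Real.sin (δ - t) / (ρ * R), Real.cos (δ - t) / (ρ * R), ?_, ?_, ?_⟩
  · rw [hcos, hsin]
    have : σ * q * (Real.sin (δ - t) / (ρ * R) * ((-1) ^ p * Real.cos (2 * t))
        + Real.cos (δ - t) / (ρ * R) * ((-1) ^ p * Real.sin (2 * t))) = (ν * q * Real.sin (t + δ)) / (ρ * R) := by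
      rw [← ee1, hν]; ring
    rw [this, ← hi1]
  · rw [hcos, hsin]
    have : ρ * (Real.cos (δ - t) / (ρ * R) - σ * q * (Real.cos (δ - t) / (ρ * R) * ((-1) ^ p * Real.cos (2 * t))
        - Real.sin (δ - t) / (ρ * R) * ((-1) ^ p * Real.sin (2 * t))))
        = (Real.cos (δ - t) - ν * q * Real.cos (t + δ)) / R := by
      rw [← ee2, hν]
      have := hρ0.ne'
      have := hR.ne'
      field_simp
    rw [this, hi2, div_self hR.ne']
  have habs : ∀ u : ℝ, |Real.exp (-(s * a * u)) * (Real.sin (δ - t) / (ρ * R) * Real.cos (a * u)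
      + Real.cos (δ - t) / (ρ * R) * Real.sin (a * u))|
      = (1 / (ρ * R)) * (Real.exp (-(s * a * u)) * |Real.sin (a * u + (δ - t))|) := by
    intro u
    have e1 : Real.exp (-(s * a * u)) * (Real.sin (δ - t) / (ρ * R) * Real.cos (a * u)
      + Real.cos (δ - t) / (ρ * R) * Real.sin (a * u))
      = (1 / (ρ * R)) * (Real.exp (-(s * a * u)) * Real.sin (a * u + (δ - t))) := by
      rw [Real.sin_add]; ring
    rw [e1, abs_mul, abs_mul, abs_of_pos (Real.exp_pos _), abs_of_pos (by positivity : 0 < 1 / (ρ * R))]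
  simp only [habs]
  rw [intervalIntegral.integral_const_mul, l1_eq ha]
  have harg : 2 * Real.pi * a + (δ - t) = p * Real.pi + (t + δ) := by rw [hx]; ring
  rw [harg]
  have e1 : 1 / (ρ * R) * (Real.exp (s * (δ - t)) / a * (Is s (p * Real.pi + (t + δ)) - Is s (δ - t)))
      = (1 + s ^ 2) * (Real.exp (s * (δ - t)) * (Is s (p * Real.pi + (t + δ)) - Is s (δ - t))) / (ρ ^ 2 * R) := by
    have h2 : a ≠ 0 := ha.ne'
    have h3 : (1 + s ^ 2) ≠ 0 := by positivity
    have h4 : R ≠ 0 := hR.ne'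
    rw [hρd]
    field_simp
  rw [e1, div_le_div_iff₀ (by positivity) (by positivity)]
  have := mul_le_mul_of_nonneg_right htb (sq_nonneg ρ)
  linarith only [this]

lemma Lam_KK {ρ : ℝ} (hρ : 1 ≤ ρ) (hh : ∀ m : ℕ, 2 * ρ ≠ m) :
    Lam ρ = 2 * KK ρ / (1 + KK ρ) := by
  obtain ⟨hK1, hK2, hK3, hK4, hK5, hK6⟩ := KK_ge hρ hh
  unfold Lam KK
  set q : ℝ := (Nat.floor (2 * ρ) : ℝ) with hq
  set t : ℝ := Real.pi / 2 * (2 * ρ - q) with ht
  have hq0 : 0 ≤ q := Nat.cast_nonneg _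
  have hct1 := Real.cos_le_one t
  set k₁ : ℝ := (q + Real.sin t) / Real.sin t with hk₁
  set k₂ : ℝ := (q + 1 - Real.cos t) / Real.cos t with hk₂
  have hk1 : 0 ≤ k₁ := by positivity
  have hk2 : 0 ≤ k₂ := by rw [hk₂]; apply div_nonneg _ hK2.le; linarith
  have l1 : 2 * k₁ / (1 + k₁) = 2 - 2 * Real.sin t / (q + 2 * Real.sin t) := by
    rw [hk₁]; field_simp; ring
  have l2 : 2 * k₂ / (1 + k₂) = 2 - 2 * Real.cos t / (q + 1) := by
    have h1 : q + 1 ≠ 0 := by linarith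
    have h3 : 1 + k₂ = (q + 1) / Real.cos t := by rw [hk₂]; field_simp; ring
    rw [h3, hk₂]
    field_simp
  rw [← l1, ← l2]
  rcases le_total k₁ k₂ with h | h
  · rw [max_eq_right h, max_eq_right (mono_frac hk1 h)]
  · rw [max_eq_left h, max_eq_left (mono_frac hk2 h)]

/-- Module S1. -/
theorem exists_PhiS {ρ : ℝ} (hρ : 1 ≤ ρ) (hh : ∀ m : ℕ, 2 * ρ ≠ m) :
    ∃ C : ℝ, 1 / ρ ^ 2 ≤ C ∧ 2 * ρ ^ 2 * C / (1 + ρ ^ 2 * C) ≤ Lam ρ ∧
      ∀ (s : ℝ) (n : ℕ) (e : ℝ → ℝ), Continuous e → (∀ θ, |e θ| ≤ 1) →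
        (∀ θ, e (θ + 2 * Real.pi) = (-1) ^ n * e θ) →
        ∃ Φ : ℝ → ℝ, ContDiff ℝ 2 Φ ∧ (∀ θ, Φ (θ + 2 * Real.pi) = (-1) ^ n * Φ θ) ∧
          (∀ θ, |Φ θ| ≤ C) ∧ ∀ θ, LS s ρ Φ θ = e θ := by
  have hρ0 : 0 < ρ := by linarith
  have hρ2 : 0 < ρ ^ 2 := by positivity
  obtain ⟨hK1, hK2, hK3, hK4, hK5, hK6⟩ := KK_ge hρ hh
  have hK : 1 ≤ KK ρ := by
    have : (0 : ℝ) ≤ (Nat.floor (2 * ρ) : ℝ) := Nat.cast_nonneg _
    linarith
  have hLam := Lam_KK hρ hh
  -- positive pitch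
  have hpos : ∀ (s : ℝ), 0 < s → ∀ (n : ℕ) (e : ℝ → ℝ), Continuous e → (∀ θ, |e θ| ≤ 1) →
      (∀ θ, e (θ + 2 * Real.pi) = (-1) ^ n * e θ) →
      ∃ Φ : ℝ → ℝ, ContDiff ℝ 2 Φ ∧ (∀ θ, Φ (θ + 2 * Real.pi) = (-1) ^ n * Φ θ) ∧
        (∀ θ, |Φ θ| ≤ KK ρ / ρ ^ 2) ∧ ∀ θ, LS s ρ Φ θ = e θ := by
    intro s hs n e hec he hper
    obtain ⟨a, ha⟩ : ∃ a : ℝ, a = ρ / (1 + s ^ 2) := ⟨_, rfl⟩
    have ha0 : 0 < a := by rw [ha]; positivity
    have haρ : a * (1 + s ^ 2) = ρ := by rw [ha]; field_simp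
    obtain ⟨P, Q, g1, g2, g3⟩ := greenS_bound (a := a) (s := s) ha0 hs (by rw [haρ]; exact hρ)
      (by rw [haρ]; exact hh) (neg_one_pow_eq_or ℝ n)
    have hσσ : ((-1 : ℝ)) ^ n * (-1) ^ n = 1 := by rw [← pow_add, ← two_mul]; simp
    obtain ⟨Φ, f1, f2, f3⟩ := greenS_sol ha0 g1 g2 hσσ hec hper
    rw [haρ] at f3 g3
    refine ⟨Φ, f1, ?_, ?_, f3⟩
    · intro θ
      rw [f2, f2, ← intervalIntegral.integral_const_mul]
      refine intervalIntegral.integral_congr fun u _ => ?_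
      rw [show θ + 2 * Real.pi - u = (θ - u) + 2 * Real.pi by ring, hper]
      ring
    · intro θ
      rw [f2]
      exact (green_bound (G := fun u => Real.exp (-(s * a * u)) * (P * Real.cos (a * u) + Q * Real.sin (a * u)))
        (by fun_prop) hec he θ).trans g3
  refine ⟨KK ρ / ρ ^ 2, div_le_div_of_nonneg_right hK hρ2.le, ?_, ?_⟩
  · have e1 : 2 * ρ ^ 2 * (KK ρ / ρ ^ 2) / (1 + ρ ^ 2 * (KK ρ / ρ ^ 2)) = 2 * KK ρ / (1 + KK ρ) := by
      have h1 : ρ ^ 2 * (KK ρ / ρ ^ 2) = KK ρ := by field_simp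
      rw [mul_assoc, h1]
    rw [e1, hLam]
  · intro s n e hec he hper
    rcases lt_trichotomy s 0 with hs | hs | hs
    · -- negative pitch: reflect
      obtain ⟨Φ, f1, f2, f3, f4⟩ := hpos (-s) (by linarith) n (fun θ => e (-θ)) (hec.comp continuous_neg)
        (fun θ => he _) (fun θ => by
          have h1 := hper (-(θ + 2 * Real.pi))
          rw [show -(θ + 2 * Real.pi) + 2 * Real.pi = -θ by ring] at h1
          have hσσ : ((-1 : ℝ)) ^ n * (-1) ^ n = 1 := by rw [← pow_add, ← two_mul]; simp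
          rw [h1, ← mul_assoc, hσσ, one_mul])
      have d0 : Differentiable ℝ Φ := f1.differentiable (by norm_num)
      have f1' : ContDiff ℝ (1 + 1) Φ := by simpa [one_add_one_eq_two] using f1
      have c1 : ContDiff ℝ 1 (deriv Φ) := (contDiff_succ_iff_deriv.1 f1').2.2
      have d1 : Differentiable ℝ (deriv Φ) := c1.differentiable (by norm_num)
      have e1 : deriv (fun θ => Φ (-θ)) = fun θ => -deriv Φ (-θ) := by
        funext θ; exact deriv_comp_neg Φ θ
      have e2 : deriv (fun θ => -deriv Φ (-θ)) = fun θ => deriv (deriv Φ) (-θ) := by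
        funext θ
        rw [deriv.fun_neg, deriv_comp_neg (deriv Φ) θ, neg_neg]
      refine ⟨fun θ => Φ (-θ), f1.comp contDiff_neg, ?_, fun θ => f3 _, ?_⟩
      · intro θ
        have h1 := f2 (-(θ + 2 * Real.pi))
        rw [show -(θ + 2 * Real.pi) + 2 * Real.pi = -θ by ring] at h1
        have hσσ : ((-1 : ℝ)) ^ n * (-1) ^ n = 1 := by rw [← pow_add, ← two_mul]; simp
        show Φ (-(θ + 2 * Real.pi)) = (-1) ^ n * Φ (-θ)
        rw [h1, ← mul_assoc, hσσ, one_mul]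
      · intro θ
        have h1 := f4 (-θ)
        rw [neg_neg] at h1
        unfold LS at h1 ⊢
        rw [e1, e2, ← h1]
        ring
    · -- s = 0
      obtain ⟨C₁, g1, g2, g3⟩ := exists_Phi hρ hh
      obtain ⟨Φ, f1, f2, f3, f4⟩ := g3 n e hec he hper
      have hx0 : 0 ≤ ρ ^ 2 * C₁ := by
        have : 0 ≤ C₁ := le_trans (by positivity) g1
        positivity
      have hC : C₁ ≤ KK ρ / ρ ^ 2 := by
        rw [hLam, mul_assoc, div_le_div_iff₀ (by linarith) (by linarith)] at g2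
        rw [le_div_iff₀ hρ2]
        linarith only [g2]
      refine ⟨Φ, f1, f2, fun θ => (f3 θ).trans hC, fun θ => ?_⟩
      rw [← f4 θ, hs]
      unfold LS LL
      ring
    · exact hpos s hs n e hec he hper

end DW24
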