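import Pool.Agent.DW24.DefsS
import Pool.Agent.DW24.Phi

/-!
The (anti)periodic Green function of `(1 + s²) d² + 2 s ρ d + ρ²`, part 1: construction and
the closed form of its `L¹` norm.
-/

set_option autoImplicit false

open MeasureTheory Filter Topology Set

namespace DW24

/-- Construction of the solution. Here `ρ = a (1 + s²)`, the damping is `s a`. -/
theorem greenS_sol {a s P Q σ : ℝ} (ha : 0 < a)
    (h1 : P = σ * Real.exp (-(2 * Real.pi * (s * a))) *
      (P * Real.cos (2 * Real.pi * a) + Q * Real.sin (2 * Real.pi * a)))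
    (h2 : a * (1 + s ^ 2) * (Q - σ * Real.exp (-(2 * Real.pi * (s * a))) *
      (Q * Real.cos (2 * Real.pi * a) - P * Real.sin (2 * Real.pi * a))) = 1)
    (hσ : σ * σ = 1)
    {e : ℝ → ℝ} (hec : Continuous e) (he : ∀ θ, e (θ + 2 * Real.pi) = σ * e θ) :
    ∃ Φ : ℝ → ℝ, ContDiff ℝ 2 Φ ∧
      (∀ θ, Φ θ = ∫ t in (0)..(2 * Real.pi),
        (Real.exp (-(s * a * t)) * (P * Real.cos (a * t) + Q * Real.sin (a * t))) * e (θ - t)) ∧
      ∀ θ, LS s (a * (1 + s ^ 2)) Φ θ = e θ := by
  have he' : ∀ θ, e (θ - 2 * Real.pi) = σ * e θ := by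
    intro θ
    have := he (θ - 2 * Real.pi)
    rw [sub_add_cancel] at this
    rw [this, ← mul_assoc, hσ, one_mul]
  set b : ℝ := s * a with hb
  set c : ℝ → ℝ := fun u => e u * (Real.exp (b * u) * Real.cos (a * u)) with hc
  set d : ℝ → ℝ := fun u => e u * (Real.exp (b * u) * Real.sin (a * u)) with hd
  have hcc : Continuous c := hec.mul (by fun_prop)
  have hdc : Continuous d := hec.mul (by fun_prop)
  set EC : ℝ → ℝ := fun θ => ∫ u in (θ - 2 * Real.pi)..θ, c u with hEC
  set ED : ℝ → ℝ := fun θ => ∫ u in (θ - 2 * Real.pi)..θ, d u with hED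
  have key : ∀ (g : ℝ → ℝ), Continuous g → ∀ θ, HasDerivAt (fun θ => ∫ u in (θ - 2 * Real.pi)..θ, g u)
      (g θ - g (θ - 2 * Real.pi)) θ := by
    intro g hg θ
    have h0 : (fun θ => ∫ u in (θ - 2 * Real.pi)..θ, g u)
        = fun θ => (∫ u in (0)..θ, g u) - ∫ u in (0)..(θ - 2 * Real.pi), g u := by
      funext θ
      rw [intervalIntegral.integral_interval_sub_left (hg.intervalIntegrable _ _)
        (hg.intervalIntegrable _ _)]
    rw [h0]
    have a1 := (hg.integral_hasStrictDerivAt 0 θ).hasDerivAt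
    have a2 := (hg.integral_hasStrictDerivAt 0 (θ - 2 * Real.pi)).hasDerivAt
    have a3 : HasDerivAt (fun θ : ℝ => θ - 2 * Real.pi) 1 θ := (hasDerivAt_id θ).sub_const _
    have a4 := a2.comp θ a3
    rw [mul_one] at a4
    exact a1.sub a4
  have hEC' := key c hcc
  have hED' := key d hdc
  set Φ : ℝ → ℝ := fun θ => Real.exp (-(b * θ)) *
    ((P * Real.cos (a * θ) + Q * Real.sin (a * θ)) * EC θ
      + (P * Real.sin (a * θ) - Q * Real.cos (a * θ)) * ED θ) with hΦ
  set Ψ : ℝ → ℝ := fun θ => Real.exp (-(b * θ)) *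
    ((Q * Real.cos (a * θ) - P * Real.sin (a * θ)) * EC θ
      + (P * Real.cos (a * θ) + Q * Real.sin (a * θ)) * ED θ) with hΨ
  have dl : ∀ θ : ℝ, HasDerivAt (fun θ : ℝ => a * θ) a θ := by
    intro θ
    simpa using (hasDerivAt_id θ).const_mul a
  have dcos : ∀ θ : ℝ, HasDerivAt (fun θ : ℝ => Real.cos (a * θ)) (-Real.sin (a * θ) * a) θ :=
    fun θ => (dl θ).cos
  have dsin : ∀ θ : ℝ, HasDerivAt (fun θ : ℝ => Real.sin (a * θ)) (Real.cos (a * θ) * a) θ :=
    fun θ => (dl θ).sin
  have dexp : ∀ θ : ℝ, HasDerivAt (fun θ : ℝ => Real.exp (-(b * θ))) (Real.exp (-(b * θ)) * (-b)) θ := by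
    intro θ
    have h0 : HasDerivAt (fun θ : ℝ => -(b * θ)) (-(b * 1)) θ := ((hasDerivAt_id θ).const_mul b).neg
    rw [mul_one] at h0
    exact h0.exp
  -- trigonometric facts
  have u1 : ∀ θ : ℝ, Real.cos (a * θ) ^ 2 + Real.sin (a * θ) ^ 2 = 1 := fun θ => Real.cos_sq_add_sin_sq _
  have u2 : ∀ θ : ℝ, Real.exp (-(b * θ)) * Real.exp (b * θ) = 1 := by
    intro θ; rw [← Real.exp_add]; simp
  have u3 : ∀ θ : ℝ, Real.exp (b * (θ - 2 * Real.pi))
      = Real.exp (b * θ) * Real.exp (-(2 * Real.pi * b)) := by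
    intro θ; rw [← Real.exp_add]; congr 1; ring
  have u4 : ∀ θ : ℝ, Real.cos (a * (θ - 2 * Real.pi))
      = Real.cos (a * θ) * Real.cos (2 * Real.pi * a) + Real.sin (a * θ) * Real.sin (2 * Real.pi * a) := by
    intro θ
    rw [show a * (θ - 2 * Real.pi) = a * θ - 2 * Real.pi * a by ring, Real.cos_sub]
  have u5 : ∀ θ : ℝ, Real.sin (a * (θ - 2 * Real.pi))
      = Real.sin (a * θ) * Real.cos (2 * Real.pi * a) - Real.cos (a * θ) * Real.sin (2 * Real.pi * a) := by
    intro θ
    rw [show a * (θ - 2 * Real.pi) = a * θ - 2 * Real.pi * a by ring, Real.sin_sub]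
  set q : ℝ := Real.exp (-(2 * Real.pi * b)) with hq
  set cx : ℝ := Real.cos (2 * Real.pi * a) with hcx
  set sx : ℝ := Real.sin (2 * Real.pi * a) with hsx
  have D1 : ∀ θ, HasDerivAt Φ (-b * Φ θ + a * Ψ θ) θ := by
    intro θ
    have hA := (((dcos θ).const_mul P).add ((dsin θ).const_mul Q)).mul (hEC' θ)
    have hB := (((dsin θ).const_mul P).sub ((dcos θ).const_mul Q)).mul (hED' θ)
    have hAB := (dexp θ).mul (hA.add hB)
    refine HasDerivAt.congr_deriv (f := Φ) hAB ?_
    simp only [hΦ, hΨ, hc, hd, he', u3, u4, u5, Pi.add_apply, Pi.mul_apply, Pi.sub_apply]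
    have e1 : e θ * P = e θ * (σ * q * (P * cx + Q * sx)) := by rw [← h1]
    linear_combination (e θ * (P * (Real.cos (a * θ) ^ 2 + Real.sin (a * θ) ^ 2)
        - σ * q * (P * cx + Q * sx) * (Real.cos (a * θ) ^ 2 + Real.sin (a * θ) ^ 2))) * (u2 θ)
      + (e θ * P - e θ * σ * q * (P * cx + Q * sx)) * (u1 θ) + e1
  have D2 : ∀ θ, HasDerivAt Ψ (-b * Ψ θ - a * Φ θ + e θ / (a * (1 + s ^ 2))) θ := by
    intro θ
    have hA := (((dcos θ).const_mul Q).sub ((dsin θ).const_mul P)).mul (hEC' θ)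
    have hB := (((dcos θ).const_mul P).add ((dsin θ).const_mul Q)).mul (hED' θ)
    have hAB := (dexp θ).mul (hA.add hB)
    refine HasDerivAt.congr_deriv (f := Ψ) hAB ?_
    simp only [hΦ, hΨ, hc, hd, he', u3, u4, u5, Pi.add_apply, Pi.mul_apply, Pi.sub_apply]
    have hne : a * (1 + s ^ 2) ≠ 0 := by positivity
    have e2 : e θ * (Q - σ * q * (Q * cx - P * sx)) = e θ / (a * (1 + s ^ 2)) := by
      rw [eq_div_iff hne]
      linear_combination (e θ) * h2
    linear_combination (e θ * (Q * (Real.cos (a * θ) ^ 2 + Real.sin (a * θ) ^ 2)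
        - σ * q * (Q * cx - P * sx) * (Real.cos (a * θ) ^ 2 + Real.sin (a * θ) ^ 2))) * (u2 θ)
      + (e θ * Q - e θ * σ * q * (Q * cx - P * sx)) * (u1 θ) + e2
  have hΦc : Continuous Φ := continuous_iff_continuousAt.2 fun θ => (D1 θ).continuousAt
  have hΨc : Continuous Ψ := continuous_iff_continuousAt.2 fun θ => (D2 θ).continuousAt
  have hd1 : deriv Φ = fun θ => -b * Φ θ + a * Ψ θ := funext fun θ => (D1 θ).deriv
  have D3 : ∀ θ, HasDerivAt (fun θ => -b * Φ θ + a * Ψ θ)
      (-b * (-b * Φ θ + a * Ψ θ) + a * (-b * Ψ θ - a * Φ θ + e θ / (a * (1 + s ^ 2)))) θ := fun θ =>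
    ((D1 θ).const_mul (-b)).add ((D2 θ).const_mul a)
  have hd2 : deriv (fun θ => -b * Φ θ + a * Ψ θ) = fun θ =>
      -b * (-b * Φ θ + a * Ψ θ) + a * (-b * Ψ θ - a * Φ θ + e θ / (a * (1 + s ^ 2))) :=
    funext fun θ => (D3 θ).deriv
  refine ⟨Φ, ?_, ?_, ?_⟩
  · have hD1 : Differentiable ℝ Φ := fun θ => (D1 θ).differentiableAt
    have hD2 : Differentiable ℝ (fun θ => -b * Φ θ + a * Ψ θ) := fun θ => (D3 θ).differentiableAt
    have h21 : ContDiff ℝ 1 (fun θ => -b * Φ θ + a * Ψ θ) := by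
      rw [contDiff_one_iff_deriv]
      refine ⟨hD2, ?_⟩
      rw [hd2]
      fun_prop
    have : ContDiff ℝ (1 + 1) Φ := by
      rw [contDiff_succ_iff_deriv]
      refine ⟨hD1, by simp, ?_⟩
      rw [hd1]; exact h21
    simpa [one_add_one_eq_two] using this
  · intro θ
    have hsub := intervalIntegral.integral_comp_sub_left (a := 0) (b := 2 * Real.pi)
      (fun u => (Real.exp (-(b * (θ - u))) * (P * Real.cos (a * (θ - u)) + Q * Real.sin (a * (θ - u)))) * e u) θ
    have e3 : ∀ t : ℝ, θ - (θ - t) = t := fun t => by ring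
    simp only [e3, sub_zero] at hsub
    rw [hsub]
    have e4 : ∀ u : ℝ, (Real.exp (-(b * (θ - u))) * (P * Real.cos (a * (θ - u)) + Q * Real.sin (a * (θ - u)))) * e u
        = (Real.exp (-(b * θ)) * (P * Real.cos (a * θ) + Q * Real.sin (a * θ))) * c u
          + (Real.exp (-(b * θ)) * (P * Real.sin (a * θ) - Q * Real.cos (a * θ))) * d u := by
      intro u
      simp only [hc, hd]
      rw [show -(b * (θ - u)) = -(b * θ) + b * u by ring, Real.exp_add,
        show a * (θ - u) = a * θ - a * u by ring, Real.cos_sub, Real.sin_sub]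
      ring
    simp only [e4]
    have hcI : IntervalIntegrable (fun u => (Real.exp (-(b * θ)) * (P * Real.cos (a * θ) + Q * Real.sin (a * θ))) * c u)
        volume (θ - 2 * Real.pi) θ := (continuous_const.mul hcc).intervalIntegrable _ _
    have hdI : IntervalIntegrable (fun u => (Real.exp (-(b * θ)) * (P * Real.sin (a * θ) - Q * Real.cos (a * θ))) * d u)
        volume (θ - 2 * Real.pi) θ := (continuous_const.mul hdc).intervalIntegrable _ _
    rw [intervalIntegral.integral_add hcI hdI,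
      intervalIntegral.integral_const_mul, intervalIntegral.integral_const_mul]
    simp only [hΦ, hEC, hED]
    ring
  · intro θ
    unfold LS
    rw [hd1, hd2]
    simp only
    have hne : a * (1 + s ^ 2) ≠ 0 := by positivity
    have hne2 : (1 + s ^ 2) ≠ 0 := by positivity
    rw [hb]
    field_simp
    ring

/-! ### The integral of `e^{-su} |sin u|` -/

noncomputable def Is (s x : ℝ) : ℝ := ∫ u in (0)..x, Real.exp (-(s * u)) * |Real.sin u|

lemma ii_Is (s a b : ℝ) : IntervalIntegrable (fun u => Real.exp (-(s * u)) * |Real.sin u|) volume a b := by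
  refine Continuous.intervalIntegrable ?_ a b
  fun_prop

lemma int_exp_sin (s a b : ℝ) : (1 + s ^ 2) * ∫ u in a..b, Real.exp (-(s * u)) * Real.sin u
    = Real.exp (-(s * a)) * (s * Real.sin a + Real.cos a)
      - Real.exp (-(s * b)) * (s * Real.sin b + Real.cos b) := by
  have hd : ∀ u : ℝ, HasDerivAt (fun u : ℝ => -(Real.exp (-(s * u)) * (s * Real.sin u + Real.cos u)))
      ((1 + s ^ 2) * (Real.exp (-(s * u)) * Real.sin u)) u := by
    intro u
    have h1 : HasDerivAt (fun u : ℝ => -(s * u)) (-(s * 1)) u := ((hasDerivAt_id u).const_mul s).neg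
    rw [mul_one] at h1
    have h2 := h1.exp.mul (((Real.hasDerivAt_sin u).const_mul s).add (Real.hasDerivAt_cos u))
    refine h2.neg.congr_deriv ?_
    simp only [Pi.add_apply]
    ring
  rw [← intervalIntegral.integral_const_mul,
    intervalIntegral.integral_eq_sub_of_hasDerivAt (fun u _ => hd u)
      (Continuous.intervalIntegrable (by fun_prop) _ _)]
  ring

lemma Is_pos_small (s : ℝ) {r : ℝ} (h0 : 0 ≤ r) (h1 : r ≤ Real.pi) :
    (1 + s ^ 2) * Is s r = 1 - Real.exp (-(s * r)) * (s * Real.sin r + Real.cos r) := by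
  have : Is s r = ∫ u in (0)..r, Real.exp (-(s * u)) * Real.sin u := by
    unfold Is
    refine intervalIntegral.integral_congr fun u hu => ?_
    rw [uIcc_of_le h0] at hu
    rw [abs_of_nonneg (Real.sin_nonneg_of_nonneg_of_le_pi hu.1 (hu.2.trans h1))]
  rw [this, int_exp_sin]
  simp

lemma Is_neg_small (s : ℝ) {r : ℝ} (h0 : r ≤ 0) (h1 : -Real.pi ≤ r) :
    (1 + s ^ 2) * Is s r = -1 + Real.exp (-(s * r)) * (s * Real.sin r + Real.cos r) := by
  have : Is s r = - ∫ u in (0)..r, Real.exp (-(s * u)) * Real.sin u := by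
    unfold Is
    rw [← intervalIntegral.integral_neg]
    refine intervalIntegral.integral_congr fun u hu => ?_
    rw [uIcc_of_ge h0] at hu
    rw [abs_of_nonpos (Real.sin_nonpos_of_nonpos_of_neg_pi_le hu.2 (h1.trans hu.1))]
    ring
  rw [this, mul_neg, int_exp_sin]
  simp
  ring

lemma Is_add_pi (s y : ℝ) : Is s (y + Real.pi) = Is s Real.pi + Real.exp (-(s * Real.pi)) * Is s y := by
  have h1 : Is s (y + Real.pi) = Is s Real.pi
      + ∫ u in Real.pi..(y + Real.pi), Real.exp (-(s * u)) * |Real.sin u| := by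
    unfold Is
    rw [intervalIntegral.integral_add_adjacent_intervals (ii_Is s _ _) (ii_Is s _ _)]
  have h2 : ∫ u in Real.pi..(y + Real.pi), Real.exp (-(s * u)) * |Real.sin u|
      = Real.exp (-(s * Real.pi)) * Is s y := by
    have := intervalIntegral.integral_comp_add_right (a := 0) (b := y)
      (fun u => Real.exp (-(s * u)) * |Real.sin u|) Real.pi
    rw [zero_add] at this
    rw [← this]
    unfold Is
    rw [← intervalIntegral.integral_const_mul]
    refine intervalIntegral.integral_congr fun u _ => ?_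
    rw [Real.sin_add_pi, abs_neg, show -(s * (u + Real.pi)) = -(s * Real.pi) + -(s * u) by ring,
      Real.exp_add]
    ring
  rw [h1, h2]

lemma Is_closed {s : ℝ} (hs : 0 < s) (n : ℕ) {r : ℝ} (h0 : 0 ≤ r) (h1 : r ≤ Real.pi) :
    (1 + s ^ 2) * Is s (n * Real.pi + r)
      = (1 + Real.exp (-(s * Real.pi)) - 2 * Real.exp (-(s * Real.pi)) ^ (n + 1)) / (1 - Real.exp (-(s * Real.pi)))
        - Real.exp (-(s * (n * Real.pi + r))) * (s * Real.sin r + Real.cos r) := by
  have hw : Real.exp (-(s * Real.pi)) < 1 := by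
    rw [Real.exp_lt_one_iff]
    have := mul_pos hs Real.pi_pos
    linarith
  set w := Real.exp (-(s * Real.pi)) with hwd
  have hw1 : 1 - w ≠ 0 := by linarith
  induction n with
  | zero =>
    simp only [Nat.cast_zero, zero_mul, zero_add, pow_one]
    rw [Is_pos_small s h0 h1]
    have : (1 + w - 2 * w) / (1 - w) = 1 := by
      rw [div_eq_one_iff_eq hw1]; ring
    rw [this]
  | succ n ih =>
    have e : ((n + 1 : ℕ) : ℝ) * Real.pi + r = (n * Real.pi + r) + Real.pi := by push_cast; ring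
    rw [e, Is_add_pi, mul_add, Is_pos_small s Real.pi_pos.le le_rfl, ← mul_assoc,
      mul_comm (1 + s ^ 2) (Real.exp (-(s * Real.pi))), mul_assoc, ih, Real.sin_pi, Real.cos_pi, ← hwd]
    have e2 : Real.exp (-(s * (n * Real.pi + r + Real.pi))) = w * Real.exp (-(s * (n * Real.pi + r))) := by
      rw [hwd, ← Real.exp_add]; congr 1; ring
    rw [e2]
    field_simp
    ring

end DW24
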