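import Pool.Agent.DW24.PhiS1

/-!
The real inequalities behind the comparison of the spiral constants with the radial one.
-/

set_option autoImplicit false

open MeasureTheory Filter Topology Set

namespace DW24

/-- `sinh c / sqrt (1 + sinh² c / 3) ≤ c` -/
lemma sinh13 {c : ℝ} (hc : 0 ≤ c) : Real.sinh c ^ 2 - c ^ 2 ≤ c ^ 2 * Real.sinh c ^ 2 / 3 := by
  set g : ℝ → ℝ := fun x => 1 + Real.sinh x ^ 2 / 3 with hg
  have hg1 : ∀ x, 0 < g x := fun x => by simp only [hg]; positivity
  set φ : ℝ → ℝ := fun x => x - Real.sinh x / Real.sqrt (g x) with hφ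
  have hgd : ∀ x, HasDerivAt g (2 * Real.sinh x * Real.cosh x / 3) x := by
    intro x
    have h1 := ((Real.hasDerivAt_sinh x).pow 2).div_const 3
    have h2 := h1.const_add 1
    refine h2.congr_deriv ?_
    simp
  have hφd : ∀ x, HasDerivAt φ (1 - Real.cosh x / (g x * Real.sqrt (g x))) x := by
    intro x
    have hs : HasDerivAt (fun x => Real.sqrt (g x)) (2 * Real.sinh x * Real.cosh x / 3 / (2 * Real.sqrt (g x))) x :=
      (hgd x).sqrt (hg1 x).ne'
    have hq := (Real.hasDerivAt_sinh x).div hs (Real.sqrt_pos.2 (hg1 x)).ne'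
    refine ((hasDerivAt_id x).sub hq).congr_deriv ?_
    have h1 : Real.sqrt (g x) ^ 2 = g x := Real.sq_sqrt (hg1 x).le
    have h2 : Real.sqrt (g x) ≠ 0 := (Real.sqrt_pos.2 (hg1 x)).ne'
    have h3 : g x ≠ 0 := (hg1 x).ne'
    have h4 : g x = 1 + Real.sinh x ^ 2 / 3 := rfl
    have h5 : (Real.cosh x * Real.sqrt (g x) - Real.sinh x * (2 * Real.sinh x * Real.cosh x / 3 / (2 * Real.sqrt (g x))))
        / Real.sqrt (g x) ^ 2 = Real.cosh x / (g x * Real.sqrt (g x)) := by
      rw [h1]
      field_simp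
      rw [h1, h4]
      ring
    rw [h5]
  have hmono : MonotoneOn φ (Ici 0) := by
    refine monotoneOn_of_deriv_nonneg (convex_Ici 0)
      (fun x _ => (hφd x).continuousAt.continuousWithinAt)
      (fun x _ => (hφd x).differentiableAt.differentiableWithinAt) ?_
    intro x _
    rw [(hφd x).deriv, sub_nonneg, div_le_one (mul_pos (hg1 x) (Real.sqrt_pos.2 (hg1 x)))]
    -- cosh x ≤ g^{3/2}
    have h1 : Real.sqrt (g x) ^ 2 = g x := Real.sq_sqrt (hg1 x).le
    refine abs_le_of_sq_le_sq' ?_ (mul_pos (hg1 x) (Real.sqrt_pos.2 (hg1 x))).le |>.2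
    rw [mul_pow, h1, Real.cosh_sq']
    have h2 : g x = 1 + Real.sinh x ^ 2 / 3 := rfl
    rw [h2]
    nlinarith [sq_nonneg (Real.sinh x), sq_nonneg (Real.sinh x ^ 2), mul_nonneg (sq_nonneg (Real.sinh x)) (sq_nonneg (Real.sinh x ^ 2))]
  have h0 : φ 0 ≤ φ c := hmono (by simp) hc hc
  have h1 : φ 0 = 0 := by simp [hφ]
  rw [h1] at h0
  have h2 : Real.sinh c / Real.sqrt (g c) ≤ c := by
    simp only [hφ] at h0; linarith
  rw [div_le_iff₀ (Real.sqrt_pos.2 (hg1 c))] at h2
  have h3 := pow_le_pow_left₀ (Real.sinh_nonneg_iff.2 hc) h2 2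
  rw [mul_pow, Real.sq_sqrt (hg1 c).le] at h3
  simp only [hg] at h3
  linarith

/-- convexity of `sinh` on `[0, ∞)` -/
lemma sinh_scale {x c : ℝ} (hx : 0 ≤ x) (hxc : x ≤ c) : c * Real.sinh x ≤ x * Real.sinh c := by
  rcases eq_or_lt_of_le (hx.trans hxc) with hc | hc
  · have : x = 0 := le_antisymm (by rw [hc]; exact hxc) hx
    rw [← hc, this]
  set l : ℝ := x / c with hl
  have hl0 : 0 ≤ l := div_nonneg hx hc.le
  have hl1 : l ≤ 1 := by rw [hl, div_le_one hc]; exact hxc
  have hmono : MonotoneOn (fun y => l * Real.sinh y - Real.sinh (l * y)) (Ici 0) := by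
    have hd : ∀ y, HasDerivAt (fun y => l * Real.sinh y - Real.sinh (l * y))
        (l * Real.cosh y - Real.cosh (l * y) * l) y := by
      intro y
      have h1 : HasDerivAt (fun y : ℝ => l * y) l y := by simpa using (hasDerivAt_id y).const_mul l
      exact ((Real.hasDerivAt_sinh y).const_mul l).sub h1.sinh
    refine monotoneOn_of_deriv_nonneg (convex_Ici 0)
      (fun y _ => (hd y).continuousAt.continuousWithinAt)
      (fun y _ => (hd y).differentiableAt.differentiableWithinAt) ?_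
    intro y hy
    rw [interior_Ici] at hy
    have hy0 : 0 < y := hy
    rw [(hd y).deriv]
    have h1 : Real.cosh (l * y) ≤ Real.cosh y := by
      rw [Real.cosh_le_cosh, abs_of_nonneg (mul_nonneg hl0 hy0.le), abs_of_pos hy0]
      exact mul_le_of_le_one_left hy0.le hl1
    have h2 := mul_le_mul_of_nonneg_left h1 hl0
    linarith
  have h1 := hmono (by simp) hc.le hc.le
  simp only [Real.sinh_zero, mul_zero, sub_zero] at h1
  have h2 : l * c = x := by rw [hl]; field_simp
  rw [h2] at h1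
  have h3 := mul_le_mul_of_nonneg_left h1 hc.le
  have h4 : c * (l * Real.sinh c - Real.sinh x) = x * Real.sinh c - c * Real.sinh x := by
    rw [← h2]; ring
  rw [h4] at h3
  linarith

lemma plus_bound {s t h c S : ℝ} {p : ℕ} (hs : 0 < s) (hh : h = Real.pi * s / 2)
    (hc : c = p * h + s * t) (ht0 : 0 ≤ t) (hp : 1 ≤ p) (hS0 : 0 ≤ S)
    (hS : S ^ 2 ≤ Real.sin t ^ 2 + s * c) :
    Real.sinh (p * h) * S ≤ p * Real.sinh h * Real.sqrt (Real.sinh c ^ 2 + Real.sin t ^ 2) := by
  have hp' : (1 : ℝ) ≤ p := by exact_mod_cast hp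
  have hpi := Real.pi_gt_three
  have hh0 : 0 < h := by rw [hh]; positivity
  have hph : 0 < p * h := by positivity
  have hhc : h ≤ c := by
    rw [hc]
    have h1 : 1 * h ≤ p * h := mul_le_mul_of_nonneg_right hp' hh0.le
    have h2 : 0 ≤ s * t := by positivity
    linarith
  have hphc : p * h ≤ c := by
    rw [hc]
    have h2 : 0 ≤ s * t := by positivity
    linarith
  have hc0 : 0 < c := hh0.trans_le hhc
  have hsc : 0 < Real.sinh c := Real.sinh_pos_iff.2 hc0
  have hsh : h ≤ Real.sinh h := Real.self_le_sinh_iff.2 hh0.le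
  -- step 1
  have h1 : c * Real.sinh (p * h) ≤ p * Real.sinh h * Real.sinh c := by
    refine (sinh_scale hph.le hphc).trans ?_
    exact mul_le_mul_of_nonneg_right (mul_le_mul_of_nonneg_left hsh (by linarith)) hsc.le
  -- step 2
  have h2 : Real.sinh c * S ≤ c * Real.sqrt (Real.sinh c ^ 2 + Real.sin t ^ 2) := by
    refine abs_le_of_sq_le_sq' ?_ (by positivity) |>.2
    rw [mul_pow, mul_pow, Real.sq_sqrt (by positivity)]
    have h3 : s * c ≤ 2 / 3 * c ^ 2 := by
      have : s ≤ 2 / 3 * c := by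
        have : s * (3 / 2) ≤ h := by rw [hh]; nlinarith
        linarith
      nlinarith
    have h4 := sinh13 hc0.le
    have h5 : Real.sin t ^ 2 ≤ 1 := by nlinarith [Real.sin_sq_add_cos_sq t, sq_nonneg (Real.cos t)]
    have h6 : 0 ≤ Real.sinh c ^ 2 - c ^ 2 := by
      have h7 : c ≤ Real.sinh c := Real.self_le_sinh_iff.2 hc0.le
      have := pow_le_pow_left₀ hc0.le h7 2
      linarith
    have h7 : Real.sinh c ^ 2 * S ^ 2 ≤ Real.sinh c ^ 2 * (Real.sin t ^ 2 + 2 / 3 * c ^ 2) :=
      mul_le_mul_of_nonneg_left (by linarith) (by positivity)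
    have h8 : Real.sin t ^ 2 * (Real.sinh c ^ 2 - c ^ 2) ≤ 1 * (c ^ 2 * Real.sinh c ^ 2 / 3) :=
      mul_le_mul h5 h4 h6 (by norm_num)
    linarith
  have h3 : c * (Real.sinh (p * h) * S) ≤ c * (p * Real.sinh h * Real.sqrt (Real.sinh c ^ 2 + Real.sin t ^ 2)) := by
    calc c * (Real.sinh (p * h) * S) = (c * Real.sinh (p * h)) * S := by ring
      _ ≤ (p * Real.sinh h * Real.sinh c) * S := mul_le_mul_of_nonneg_right h1 hS0
      _ = p * Real.sinh h * (Real.sinh c * S) := by ring
      _ ≤ p * Real.sinh h * (c * Real.sqrt (Real.sinh c ^ 2 + Real.sin t ^ 2)) :=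
          mul_le_mul_of_nonneg_left h2 (by
            have : 0 < Real.sinh h := Real.sinh_pos_iff.2 hh0
            positivity)
      _ = _ := by ring
  exact le_of_mul_le_mul_left h3 hc0

lemma sinh_succ_le {h : ℝ} (hh : 0 ≤ h) (p : ℕ) :
    Real.sinh (p * h) * Real.cosh h ≤ p * Real.cosh (p * h) * Real.sinh h := by
  have hsh : 0 ≤ Real.sinh h := Real.sinh_nonneg_iff.2 hh
  induction p with
  | zero => simp
  | succ p ih =>
    have e : ((p + 1 : ℕ) : ℝ) * h = p * h + h := by push_cast; ring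
    rw [e, Real.sinh_add, Real.cosh_add]
    have h1 : 0 ≤ Real.sinh (p * h) := Real.sinh_nonneg_iff.2 (by positivity)
    have h2 := Real.cosh_pos h
    have h3 := Real.cosh_pos (p * h)
    have h4 := mul_le_mul_of_nonneg_right ih h2.le
    push_cast
    have h5 : 0 ≤ ((p : ℝ) + 1) * (Real.sinh (p * h) * Real.sinh h) * Real.sinh h := by positivity
    nlinarith

/-- `e^{y tan t} cos (t + y) ≤ cos t` -/
lemma exp_cos_le {t y : ℝ} (ht0 : 0 ≤ t) (ht1 : t < Real.pi / 2) (hy : 0 ≤ y) (hty : t + y ≤ Real.pi) :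
    Real.exp (y * Real.tan t) * Real.cos (t + y) ≤ Real.cos t := by
  have hct : 0 < Real.cos t := Real.cos_pos_of_mem_Ioo ⟨by linarith [Real.pi_pos], ht1⟩
  set T := Real.tan t with hT
  have hTs : T * Real.cos t = Real.sin t := by rw [hT]; exact Real.tan_mul_cos hct.ne'
  have hd : ∀ u, HasDerivAt (fun u => Real.exp (u * T) * Real.cos (t + u))
      (Real.exp (u * T) * T * Real.cos (t + u) + Real.exp (u * T) * (-Real.sin (t + u))) u := by
    intro u
    have h1 : HasDerivAt (fun u : ℝ => u * T) T u := by simpa using (hasDerivAt_id u).mul_const T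
    have h2 : HasDerivAt (fun u : ℝ => t + u) 1 u := (hasDerivAt_id u).const_add t
    have h3 := h1.exp.mul h2.cos
    refine h3.congr_deriv ?_
    ring
  have hanti : AntitoneOn (fun u => Real.exp (u * T) * Real.cos (t + u)) (Icc 0 Real.pi) := by
    refine antitoneOn_of_deriv_nonpos (convex_Icc 0 Real.pi)
      (fun u _ => (hd u).continuousAt.continuousWithinAt)
      (fun u _ => (hd u).differentiableAt.differentiableWithinAt) ?_
    intro u hu
    rw [interior_Icc] at hu
    rw [(hd u).deriv]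
    have h1 : 0 < Real.sin u := Real.sin_pos_of_pos_of_lt_pi hu.1 hu.2
    have h2 : (T * Real.cos (t + u) - Real.sin (t + u)) * Real.cos t = - Real.sin u := by
      have h3 : Real.sin u = Real.sin (t + u) * Real.cos t - Real.cos (t + u) * Real.sin t := by
        rw [← Real.sin_sub]; congr 1; ring
      rw [h3]
      linear_combination (Real.cos (t + u)) * hTs
    have h4 : T * Real.cos (t + u) - Real.sin (t + u) ≤ 0 := by
      by_contra h5
      push Not at h5
      have := mul_pos h5 hct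
      linarith
    have h5 := mul_nonpos_of_nonneg_of_nonpos (Real.exp_pos (u * T)).le h4
    linarith
  have h1 := hanti (a := 0) (b := y) ⟨le_rfl, Real.pi_pos.le⟩ ⟨hy, by linarith⟩ hy
  simpa using h1

end DW24
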