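import Pool.Agent.DW24.PhiS2

/-!
The bounds for the two cases.
-/

set_option autoImplicit false

open MeasureTheory Filter Topology Set

namespace DW24

/-- `coth h ≤ 1 + 1 / h` in the form `cosh h * h ≤ (h + 1) * sinh h` -/
lemma coth_le {h : ℝ} (hh : 0 < h) : Real.cosh h * h ≤ (h + 1) * Real.sinh h := by
  have h1 : (Real.cosh h - Real.sinh h) * (Real.cosh h + Real.sinh h) = 1 := by
    have := Real.cosh_sq h
    ring_nf
    linarith
  have h2 : Real.cosh h + Real.sinh h = Real.exp h := Real.cosh_add_sinh h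
  have h3 : Real.cosh h - Real.sinh h = Real.exp (-h) := Real.cosh_sub_sinh h
  have h4 : h ≤ Real.sinh h := Real.self_le_sinh_iff.2 hh.le
  have h5 : Real.exp (-h) ≤ 1 := Real.exp_le_one_iff.2 (by linarith)
  have h6 : Real.cosh h = Real.sinh h + Real.exp (-h) := by linarith
  rw [h6]
  have h7 := mul_le_mul_of_nonneg_right h5 hh.le
  nlinarith

/-- `coth h ≤ 1 + π / (4 h²)` -/
lemma coth_le2 {h : ℝ} (hh : 0 < h) : Real.cosh h * (4 * h ^ 2) ≤ (4 * h ^ 2 + Real.pi) * Real.sinh h := by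
  have hpi := Real.pi_gt_three
  have h6 : Real.cosh h = Real.sinh h + Real.exp (-h) := by
    have := Real.cosh_sub_sinh h
    linarith
  -- 2 sinh h = e^h - e^{-h}
  have h7 : 2 * Real.sinh h = Real.exp h - Real.exp (-h) := by rw [Real.sinh_eq]; ring
  have h8 : Real.exp h * Real.exp (-h) = 1 := by rw [← Real.exp_add]; simp
  have h9 : 1 + h + h ^ 2 / 2 ≤ Real.exp h := Real.quadratic_le_exp_of_nonneg hh.le
  have h10 : 0 < Real.exp (-h) := Real.exp_pos _
  have h11 : 0 < Real.exp h := Real.exp_pos _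
  -- need 4 h² e^{-h} ≤ π sinh h; multiply by e^h
  have h12 : 8 * h ^ 2 ≤ 3 * (Real.exp h ^ 2 - 1) := by
    have h13 : (1 + h + h ^ 2 / 2) ^ 2 ≤ Real.exp h ^ 2 := pow_le_pow_left₀ (by positivity) h9 2
    have h14 : 8 * h ^ 2 ≤ 3 * ((1 + h + h ^ 2 / 2) ^ 2 - 1) := by
      have e : 3 * ((1 + h + h ^ 2 / 2) ^ 2 - 1) - 8 * h ^ 2
          = h * (3 * (h - 1 / 3) ^ 2 + 17 / 3) + 3 / 4 * h ^ 4 := by ring
      have : 0 ≤ h * (3 * (h - 1 / 3) ^ 2 + 17 / 3) + 3 / 4 * h ^ 4 := by positivity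
      linarith
    linarith
  have h13 : 8 * h ^ 2 * Real.exp (-h) ≤ 3 * (Real.exp h - Real.exp (-h)) := by
    have := mul_le_mul_of_nonneg_right h12 h10.le
    have e : 3 * (Real.exp h ^ 2 - 1) * Real.exp (-h) = 3 * (Real.exp h * (Real.exp h * Real.exp (-h)) - Real.exp (-h)) := by
      ring
    rw [e, h8, mul_one] at this
    exact this
  have h14 : 0 ≤ Real.sinh h := Real.sinh_nonneg_iff.2 hh.le
  have h15 : 4 * h ^ 2 * Real.exp (-h) ≤ Real.pi * Real.sinh h := by nlinarith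
  rw [h6]
  nlinarith

/-- case `σ' = -1`, `p ≥ 1`: crude bound -/
lemma minus_bound1 {s t h c δ : ℝ} {p : ℕ} (hs : 0 < s) (hh : 0 < h)
    (hc : c = p * h + s * t) (ht0 : 0 ≤ t) (hp : 1 ≤ p) (hδ : δ ≤ t) :
    Real.exp (s * δ) * Real.sinh ((p + 1 : ℕ) * h) * Real.sinh h ≤
      2 * Real.cosh h * (Real.sinh h * Real.sqrt (Real.sinh c ^ 2 + Real.cos t ^ 2)) := by
  have hp' : (1 : ℝ) ≤ p := by exact_mod_cast hp
  have hph : 0 < p * h := by positivity
  have hst : 0 ≤ s * t := by positivity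
  have hc0 : 0 < c := by rw [hc]; linarith
  have hshh : 0 < Real.sinh h := Real.sinh_pos_iff.2 hh
  have hshp : 0 < Real.sinh (p * h) := Real.sinh_pos_iff.2 hph
  have hshc : 0 < Real.sinh c := Real.sinh_pos_iff.2 hc0
  have h1 : Real.sinh c ≤ Real.sqrt (Real.sinh c ^ 2 + Real.cos t ^ 2) := by
    refine Real.le_sqrt_of_sq_le ?_
    nlinarith [sq_nonneg (Real.cos t)]
  -- e^{st} sinh(ph) ≤ sinh c
  have h2 : Real.exp (s * δ) * Real.sinh (p * h) ≤ Real.sinh c := by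
    have h3 : Real.exp (s * δ) ≤ Real.exp (s * t) := Real.exp_le_exp.2 (mul_le_mul_of_nonneg_left hδ hs.le)
    have h4 : Real.exp (s * t) * Real.sinh (p * h) ≤ Real.sinh c := by
      rw [hc, Real.sinh_eq, Real.sinh_eq]
      have e1 : Real.exp (p * h + s * t) = Real.exp (s * t) * Real.exp (p * h) := by
        rw [← Real.exp_add]; congr 1; ring
      have e2 : Real.exp (-(p * h + s * t)) ≤ Real.exp (s * t) * Real.exp (-(p * h)) := by
        rw [← Real.exp_add]; exact Real.exp_le_exp.2 (by linarith)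
      rw [e1]
      linarith
    exact (mul_le_mul_of_nonneg_right h3 hshp.le).trans h4
  -- sinh((p+1)h) ≤ 2 cosh h sinh(ph)
  have h3 : Real.sinh ((p + 1 : ℕ) * h) ≤ 2 * Real.cosh h * Real.sinh (p * h) := by
    have e : ((p + 1 : ℕ) : ℝ) * h = p * h + h := by push_cast; ring
    rw [e, Real.sinh_add]
    have h4 : 0 ≤ Real.sinh (p * h - h) := Real.sinh_nonneg_iff.2 (by nlinarith)
    rw [Real.sinh_sub] at h4
    linarith
  calc Real.exp (s * δ) * Real.sinh ((p + 1 : ℕ) * h) * Real.sinh h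
      ≤ Real.exp (s * δ) * (2 * Real.cosh h * Real.sinh (p * h)) * Real.sinh h := by
        refine mul_le_mul_of_nonneg_right (mul_le_mul_of_nonneg_left h3 (Real.exp_pos _).le) hshh.le
    _ = 2 * Real.cosh h * (Real.sinh h * (Real.exp (s * δ) * Real.sinh (p * h))) := by ring
    _ ≤ 2 * Real.cosh h * (Real.sinh h * Real.sqrt (Real.sinh c ^ 2 + Real.cos t ^ 2)) := by
        refine mul_le_mul_of_nonneg_left (mul_le_mul_of_nonneg_left (h2.trans h1) hshh.le) ?_
        have := Real.cosh_pos h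
        positivity

/-- case `σ' = -1`, same interval -/
lemma minus_bound2 {s t h c δ : ℝ} {p : ℕ} (hs : 0 < s) (hh : 0 < h)
    (hc : c = p * h + s * t) (ht0 : 0 ≤ t) (ht1 : t < Real.pi / 2) (hδ : δ ≤ c * Real.tan t)
    (hτ : t + s * c < Real.pi / 2) :
    Real.exp (s * δ) * Real.sinh ((p + 1 : ℕ) * h) * Real.cos (t + s * c) ≤
      (p + 1) * (Real.sinh h * Real.sqrt (Real.sinh c ^ 2 + Real.cos t ^ 2)) := by
  have hph : 0 ≤ p * h := by positivity
  have hst : 0 ≤ s * t := by positivity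
  have hc0 : 0 ≤ c := by rw [hc]; linarith
  have hsc : 0 ≤ s * c := by positivity
  have hshh : 0 < Real.sinh h := Real.sinh_pos_iff.2 hh
  have hct : 0 < Real.cos t := Real.cos_pos_of_mem_Ioo ⟨by linarith [Real.pi_pos], ht1⟩
  have hcτ : 0 < Real.cos (t + s * c) := Real.cos_pos_of_mem_Ioo ⟨by linarith [Real.pi_pos], hτ⟩
  have h1 : Real.exp (s * δ) * Real.cos (t + s * c) ≤ Real.cos t := by
    have h2 := exp_cos_le ht0 ht1 hsc (by linarith [Real.pi_pos])
    have h3 : Real.exp (s * δ) ≤ Real.exp (s * c * Real.tan t) := by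
      refine Real.exp_le_exp.2 ?_
      have := mul_le_mul_of_nonneg_left hδ hs.le
      linarith
    exact (mul_le_mul_of_nonneg_right h3 hcτ.le).trans h2
  have h2 : Real.sinh ((p + 1 : ℕ) * h) ≤ (p + 1) * Real.cosh (p * h) * Real.sinh h := by
    have e : ((p + 1 : ℕ) : ℝ) * h = p * h + h := by push_cast; ring
    rw [e, Real.sinh_add]
    have := sinh_succ_le hh.le p
    linarith
  have h3 : Real.cos t * Real.cosh (p * h) ≤ Real.sqrt (Real.sinh c ^ 2 + Real.cos t ^ 2) := by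
    refine Real.le_sqrt_of_sq_le ?_
    rw [mul_pow, Real.cosh_sq]
    have h4 : Real.sinh (p * h) ≤ Real.sinh c := Real.sinh_le_sinh.2 (by rw [hc]; linarith)
    have h5 : Real.sinh (p * h) ^ 2 ≤ Real.sinh c ^ 2 := pow_le_pow_left₀ (Real.sinh_nonneg_iff.2 hph) h4 2
    have h6 : Real.cos t ^ 2 ≤ 1 := by nlinarith [Real.sin_sq_add_cos_sq t, sq_nonneg (Real.sin t)]
    have h7 : Real.cos t ^ 2 * Real.sinh (p * h) ^ 2 ≤ 1 * Real.sinh c ^ 2 :=
      mul_le_mul h6 h5 (sq_nonneg _) (by norm_num)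
    linarith
  have hshp : 0 ≤ Real.sinh ((p + 1 : ℕ) * h) := Real.sinh_nonneg_iff.2 (by positivity)
  calc Real.exp (s * δ) * Real.sinh ((p + 1 : ℕ) * h) * Real.cos (t + s * c)
      = (Real.exp (s * δ) * Real.cos (t + s * c)) * Real.sinh ((p + 1 : ℕ) * h) := by ring
    _ ≤ Real.cos t * Real.sinh ((p + 1 : ℕ) * h) := mul_le_mul_of_nonneg_right h1 hshp
    _ ≤ Real.cos t * ((p + 1) * Real.cosh (p * h) * Real.sinh h) := mul_le_mul_of_nonneg_left h2 hct.le
    _ = (p + 1) * (Real.sinh h * (Real.cos t * Real.cosh (p * h))) := by ring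
    _ ≤ _ := by
        refine mul_le_mul_of_nonneg_left (mul_le_mul_of_nonneg_left h3 hshh.le) (by positivity)

/-- case `σ' = -1`, `p = 0` -/
lemma minus_bound0 {s t δ : ℝ} (hs : 1 ≤ s) (ht0 : 0 ≤ t) (hδ : δ ≤ t) :
    Real.exp (s * δ) ≤ 4 * Real.sqrt (Real.sinh (s * t) ^ 2 + Real.cos t ^ 2) := by
  set c := s * t with hc
  have htc : t ≤ c := by rw [hc]; nlinarith
  have h1 : Real.exp (s * δ) ≤ Real.exp c := Real.exp_le_exp.2 (mul_le_mul_of_nonneg_left hδ (by linarith))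
  refine h1.trans ?_
  have h2 : Real.exp c * Real.exp (-c) = 1 := by rw [← Real.exp_add]; simp
  have h3 : 0 < Real.exp c := Real.exp_pos _
  have h3' : 0 < Real.exp (-c) := Real.exp_pos _
  refine abs_le_of_sq_le_sq' ?_ (by positivity) |>.2
  rw [mul_pow, Real.sq_sqrt (by positivity), Real.sinh_eq]
  have e : (4 : ℝ) ^ 2 * (((Real.exp c - Real.exp (-c)) / 2) ^ 2 + Real.cos t ^ 2)
      = 4 * Real.exp c ^ 2 - 8 * (Real.exp c * Real.exp (-c)) + 4 * Real.exp (-c) ^ 2 + 16 * Real.cos t ^ 2 := by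
    ring
  rw [e, h2]
  suffices h : 8 ≤ 3 * Real.exp c ^ 2 + 4 * Real.exp (-c) ^ 2 + 16 * Real.cos t ^ 2 by linarith
  rcases le_or_gt (1 / 2) c with hc2 | hc2
  · have h4 : 1 + c + c ^ 2 / 2 ≤ Real.exp c := Real.quadratic_le_exp_of_nonneg (by linarith)
    have h5 : (13 / 8 : ℝ) ≤ Real.exp c := by nlinarith
    have h6 : (13 / 8 : ℝ) ^ 2 ≤ Real.exp c ^ 2 := pow_le_pow_left₀ (by norm_num) h5 2
    nlinarith [sq_nonneg (Real.cos t), sq_nonneg (Real.exp (-c)), mul_pos h3 h3',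
      sq_nonneg (Real.exp c - 2 * Real.exp (-c) )]
  · have ht2 : t < 1 / 2 := lt_of_le_of_lt htc hc2
    have h4 : 1 - t ^ 2 / 2 ≤ Real.cos t := Real.one_sub_sq_div_two_le_cos
    have h5 : (7 / 8 : ℝ) ≤ Real.cos t := by nlinarith
    have h6 : (7 / 8 : ℝ) ^ 2 ≤ Real.cos t ^ 2 := pow_le_pow_left₀ (by norm_num) h5 2
    nlinarith [sq_nonneg (Real.exp c), sq_nonneg (Real.exp (-c))]

end DW24
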