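import Pool.Agent.DW24.PhiS3

/-!
Comparison with the radial constant.
-/

set_option autoImplicit false

open MeasureTheory Filter Topology Set

namespace DW24

noncomputable def KK (ρ : ℝ) : ℝ :=
  max (((Nat.floor (2 * ρ) : ℝ) + Real.sin (Real.pi / 2 * (2 * ρ - (Nat.floor (2 * ρ) : ℝ)))) /
      Real.sin (Real.pi / 2 * (2 * ρ - (Nat.floor (2 * ρ) : ℝ))))
    (((Nat.floor (2 * ρ) : ℝ) + 1 - Real.cos (Real.pi / 2 * (2 * ρ - (Nat.floor (2 * ρ) : ℝ)))) /
      Real.cos (Real.pi / 2 * (2 * ρ - (Nat.floor (2 * ρ) : ℝ))))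

/-- polar form of `(1 - ν q) cos t + i (1 + ν q) sin t` -/
lemma polar {ν q t : ℝ} (hν : ν = 1 ∨ ν = -1) (hq0 : 0 < q) (hq1 : q < 1) (ht0 : 0 ≤ t)
    (ht1 : t < Real.pi / 2) :
    ∃ R δ : ℝ, 0 < R ∧ 0 ≤ δ ∧ δ < Real.pi / 2 ∧ R * Real.cos δ = (1 - ν * q) * Real.cos t ∧
      R * Real.sin δ = (1 + ν * q) * Real.sin t ∧
      R ^ 2 = ((1 - ν * q) * Real.cos t) ^ 2 + ((1 + ν * q) * Real.sin t) ^ 2 := by
  have hct : 0 < Real.cos t := Real.cos_pos_of_mem_Ioo ⟨by linarith [Real.pi_pos], ht1⟩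
  have hst : 0 ≤ Real.sin t := Real.sin_nonneg_of_nonneg_of_le_pi ht0 (by linarith [Real.pi_pos])
  have h1 : 0 < 1 - ν * q := by rcases hν with h | h <;> rw [h] <;> linarith
  have h2 : 0 < 1 + ν * q := by rcases hν with h | h <;> rw [h] <;> linarith
  set z : ℂ := ⟨(1 - ν * q) * Real.cos t, (1 + ν * q) * Real.sin t⟩ with hz
  have hre : z.re = (1 - ν * q) * Real.cos t := rfl
  have him : z.im = (1 + ν * q) * Real.sin t := rfl
  have hrepos : 0 < z.re := by rw [hre]; positivity
  have hne : z ≠ 0 := by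
    intro h
    rw [h] at hrepos
    simp at hrepos
  refine ⟨‖z‖, Complex.arg z, norm_pos_iff.2 hne, Complex.arg_nonneg_iff.2 (by rw [him]; positivity), ?_, ?_, ?_, ?_⟩
  · exact (abs_lt.1 (Complex.abs_arg_lt_pi_div_two_iff.2 (Or.inl hrepos))).2
  · rw [Complex.norm_mul_cos_arg]
  · rw [Complex.norm_mul_sin_arg]
  · rw [← hre, ← him, Complex.sq_norm, Complex.normSq_apply]; ring

/-- The `L¹` integral in terms of `Is`. -/
lemma l1_eq {a s η : ℝ} (ha : 0 < a) :
    ∫ u in (0)..(2 * Real.pi), Real.exp (-(s * a * u)) * |Real.sin (a * u + η)|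
      = Real.exp (s * η) / a * (Is s (2 * Real.pi * a + η) - Is s η) := by
  have h := intervalIntegral.integral_comp_mul_add (a := 0) (b := 2 * Real.pi)
    (fun y => Real.exp (s * η) * (Real.exp (-(s * y)) * |Real.sin y|)) ha.ne' η
  have e1 : ∀ u : ℝ, Real.exp (s * η) * (Real.exp (-(s * (a * u + η))) * |Real.sin (a * u + η)|)
      = Real.exp (-(s * a * u)) * |Real.sin (a * u + η)| := by
    intro u
    rw [← mul_assoc, ← Real.exp_add]
    congr 2
    ring
  simp only [e1] at h
  rw [h, intervalIntegral.integral_const_mul, smul_eq_mul]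
  have e2 : Is s (2 * Real.pi * a + η) - Is s η
      = ∫ u in (a * 0 + η)..(a * (2 * Real.pi) + η), Real.exp (-(s * u)) * |Real.sin u| := by
    rw [mul_zero, zero_add, show a * (2 * Real.pi) = 2 * Real.pi * a by ring]
    unfold Is
    rw [intervalIntegral.integral_interval_sub_left (ii_Is s _ _) (ii_Is s _ _)]
  rw [e2]
  ring

/-- the arithmetic of the parameter `ρ` -/
lemma params {ρ : ℝ} (hρ : 1 ≤ ρ) {p : ℕ} {y : ℝ} (hy0 : 0 ≤ y)
    (hρy : Real.pi * ρ = p * (Real.pi / 2) + y) :
    (y < Real.pi / 2 → Nat.floor (2 * ρ) = p ∧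
        Real.pi / 2 * (2 * ρ - (Nat.floor (2 * ρ) : ℝ)) = y) ∧
    (Real.pi / 2 ≤ y → p + 1 ≤ Nat.floor (2 * ρ)) := by
  have hpi := Real.pi_pos
  have h2 : 2 * ρ = p + 2 * y / Real.pi := by
    field_simp
    linarith
  constructor
  · intro hy
    have hf : Nat.floor (2 * ρ) = p := by
      rw [Nat.floor_eq_iff (by linarith)]
      constructor
      · rw [h2]
        have : 0 ≤ 2 * y / Real.pi := by positivity
        linarith
      · rw [h2]
        have : 2 * y / Real.pi < 1 := by rw [div_lt_one hpi]; linarith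
        linarith
    refine ⟨hf, ?_⟩
    rw [hf, h2]
    field_simp
    ring
  · intro hy
    refine Nat.le_floor ?_
    push_cast
    rw [h2]
    have : 1 ≤ 2 * y / Real.pi := by rw [le_div_iff₀ hpi]; linarith
    linarith

lemma KK_ge {ρ : ℝ} (hρ : 1 ≤ ρ) (hh : ∀ m : ℕ, 2 * ρ ≠ m) :
    0 < Real.sin (Real.pi / 2 * (2 * ρ - (Nat.floor (2 * ρ) : ℝ))) ∧
    0 < Real.cos (Real.pi / 2 * (2 * ρ - (Nat.floor (2 * ρ) : ℝ))) ∧
    0 < Real.pi / 2 * (2 * ρ - (Nat.floor (2 * ρ) : ℝ)) ∧
    Real.pi / 2 * (2 * ρ - (Nat.floor (2 * ρ) : ℝ)) < Real.pi / 2 ∧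
    (Nat.floor (2 * ρ) : ℝ) + 1 ≤ KK ρ ∧ 2 ≤ Nat.floor (2 * ρ) := by
  set q : ℕ := Nat.floor (2 * ρ) with hq
  set t : ℝ := Real.pi / 2 * (2 * ρ - (q : ℝ)) with ht
  have hq1 : (q : ℝ) ≤ 2 * ρ := Nat.floor_le (by linarith)
  have hq2 : 2 * ρ < q + 1 := Nat.lt_floor_add_one _
  have hq3 : (q : ℝ) < 2 * ρ := lt_of_le_of_ne hq1 (fun h => hh q h.symm)
  have hpi := Real.pi_pos
  have ht0 : 0 < t := mul_pos (by positivity) (by linarith)
  have ht1 : t < Real.pi / 2 := by
    have : Real.pi / 2 * (2 * ρ - q) < Real.pi / 2 * 1 :=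
      mul_lt_mul_of_pos_left (by linarith) (by positivity)
    simpa [ht] using this
  have hst : 0 < Real.sin t := Real.sin_pos_of_pos_of_lt_pi ht0 (by linarith [Real.pi_pos])
  have hct : 0 < Real.cos t := Real.cos_pos_of_mem_Ioo ⟨by linarith [Real.pi_pos], ht1⟩
  refine ⟨hst, hct, ht0, ht1, ?_, Nat.le_floor (by push_cast; linarith)⟩
  refine le_trans ?_ (le_max_left _ _)
  rw [← hq, ← ht, le_div_iff₀ hst]
  have h1 := Real.sin_le_one t
  have h2 : (0 : ℝ) ≤ q := Nat.cast_nonneg q
  nlinarith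

lemma sin_sq_diff (t y : ℝ) :
    Real.sin (t + y) ^ 2 - Real.sin t ^ 2 = Real.sin (2 * t + y) * Real.sin y := by
  have e1 : Real.sin (2 * t + y) = Real.sin (t + y) * Real.cos t + Real.cos (t + y) * Real.sin t := by
    rw [← Real.sin_add]; congr 1; ring
  have e2 : Real.sin y = Real.sin (t + y) * Real.cos t - Real.cos (t + y) * Real.sin t := by
    rw [← Real.sin_sub]; congr 1; ring
  rw [e1, e2]
  linear_combination (-(Real.sin (t + y) ^ 2)) * (Real.sin_sq_add_cos_sq t)
    + (Real.sin t ^ 2) * (Real.sin_sq_add_cos_sq (t + y))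

lemma fin_plus {s t h c ρ : ℝ} {p : ℕ} (hs : 0 < s) (hρ : 1 ≤ ρ) (hh : ∀ m : ℕ, 2 * ρ ≠ m)
    (hhd : h = Real.pi * s / 2) (hc : c = p * h + s * t) (hc0 : 0 < c) (ht0 : 0 ≤ t)
    (ht1 : t < Real.pi / 2) (hπρ : Real.pi * ρ = p * (Real.pi / 2) + (t + s * c)) :
    Real.sinh (p * h) / (Real.sinh h * Real.sqrt (Real.sinh c ^ 2 + Real.sin t ^ 2)) ≤ KK ρ - 1 := by
  have hpi := Real.pi_pos
  have hh0 : 0 < h := by rw [hhd]; positivity
  have hsc : 0 ≤ s * c := by positivity
  have hshh : 0 < Real.sinh h := Real.sinh_pos_iff.2 hh0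
  obtain ⟨hpar1, hpar2⟩ := params hρ (p := p) (y := t + s * c) (by linarith) hπρ
  obtain ⟨hK1, hK2, hK3, hK4, hK5, hK6⟩ := KK_ge hρ hh
  set A : ℝ := Real.sqrt (Real.sinh c ^ 2 + Real.sin t ^ 2) with hA
  have hA0 : 0 < A := Real.sqrt_pos.2 (by
    have := Real.sinh_pos_iff.2 hc0
    positivity)
  rcases Nat.eq_zero_or_pos p with hp0 | hppos
  · rw [hp0]
    simp only [Nat.cast_zero, zero_mul, Real.sinh_zero, zero_div]
    have : (0 : ℝ) ≤ (Nat.floor (2 * ρ) : ℝ) := Nat.cast_nonneg _
    linarith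
  · have hbound : ∀ S : ℝ, 0 < S → S ^ 2 ≤ Real.sin t ^ 2 + s * c →
        Real.sinh (p * h) / (Real.sinh h * A) ≤ p / S := by
      intro S hS0 hS
      have h1 := plus_bound hs hhd hc ht0 hppos hS0.le hS
      rw [div_le_div_iff₀ (by positivity) hS0]
      linarith
    rcases lt_or_ge (t + s * c) (Real.pi / 2) with hlt | hge
    · obtain ⟨hf, hτ⟩ := hpar1 hlt
      rw [hτ] at hK1
      have h1 := hbound (Real.sin (t + s * c)) hK1 (by
        have e1 := sin_sq_diff t (s * c)
        have e2 : Real.sin (2 * t + s * c) * Real.sin (s * c) ≤ s * c := by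
          have a1 := Real.sin_le_one (2 * t + s * c)
          have a2 : Real.sin (s * c) ≤ s * c := Real.sin_le hsc
          have a3 : 0 ≤ Real.sin (s * c) := Real.sin_nonneg_of_nonneg_of_le_pi hsc (by linarith)
          calc Real.sin (2 * t + s * c) * Real.sin (s * c) ≤ 1 * Real.sin (s * c) :=
                mul_le_mul_of_nonneg_right a1 a3
            _ ≤ s * c := by rw [one_mul]; exact a2
        linarith only [e1, e2])
      refine h1.trans ?_
      have h2 : (p : ℝ) / Real.sin (t + s * c) + 1 ≤ KK ρ := by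
        refine le_trans (le_of_eq ?_) (le_max_left _ _)
        rw [hτ, hf]
        field_simp
      linarith only [h2]
    · have h1 := hbound 1 one_pos (by
        have a0 : 0 ≤ Real.cos t := (Real.cos_pos_of_mem_Ioo ⟨by linarith, ht1⟩).le
        have a1 : Real.cos t ≤ s * c := by
          rw [← Real.sin_pi_div_two_sub t]
          exact (Real.sin_le (by linarith only [ht1])).trans (by linarith only [hge])
        have a2 := Real.cos_le_one t
        have a3 : Real.cos t * Real.cos t ≤ 1 * Real.cos t := mul_le_mul_of_nonneg_right a2 a0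
        have a4 := Real.sin_sq_add_cos_sq t
        nlinarith only [a1, a3, a4])
      have h2 : ((p + 1 : ℕ) : ℝ) ≤ (Nat.floor (2 * ρ) : ℝ) := by exact_mod_cast hpar2 hge
      push_cast at h2
      rw [div_one] at h1
      linarith only [h1, h2, hK5]

lemma fin_minus {s t h c ρ δ : ℝ} {p : ℕ} (hs : 0 < s) (hρ : 1 ≤ ρ) (hh : ∀ m : ℕ, 2 * ρ ≠ m)
    (hhd : h = Real.pi * s / 2) (hc : c = p * h + s * t) (hc0 : 0 < c) (ht0 : 0 ≤ t)
    (ht1 : t < Real.pi / 2) (hπρ : Real.pi * ρ = p * (Real.pi / 2) + (t + s * c))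
    (hδt : δ ≤ t) (hδc : δ ≤ c * Real.tan t) :
    Real.exp (s * δ) * Real.sinh ((p + 1 : ℕ) * h) /
      (Real.sinh h * Real.sqrt (Real.sinh c ^ 2 + Real.cos t ^ 2)) - 1 ≤ KK ρ := by
  have hpi := Real.pi_pos
  have hh0 : 0 < h := by rw [hhd]; positivity
  have hsc : 0 ≤ s * c := by positivity
  have hshh : 0 < Real.sinh h := Real.sinh_pos_iff.2 hh0
  obtain ⟨hpar1, hpar2⟩ := params hρ (p := p) (y := t + s * c) (by linarith) hπρ
  obtain ⟨hK1, hK2, hK3, hK4, hK5, hK6⟩ := KK_ge hρ hh
  set A : ℝ := Real.sqrt (Real.sinh c ^ 2 + Real.cos t ^ 2) with hA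
  have hA0 : 0 < A := Real.sqrt_pos.2 (by
    have := Real.sinh_pos_iff.2 hc0
    positivity)
  have hX : c = s * (p * (Real.pi / 2) + t) := by rw [hc, hhd]; ring
  have hXle : s * c ≤ s ^ 2 * ((p + 1) * (Real.pi / 2)) := by
    have h1 : s ^ 2 * (p * (Real.pi / 2) + t) ≤ s ^ 2 * ((p + 1) * (Real.pi / 2)) :=
      mul_le_mul_of_nonneg_left (by linarith) (sq_nonneg s)
    have h2 : s * c = s ^ 2 * (p * (Real.pi / 2) + t) := by rw [hX]; ring
    rw [h2]; exact h1
  set E : ℝ := Real.exp (s * δ) * Real.sinh ((p + 1 : ℕ) * h) / (Real.sinh h * A) with hE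
  rcases lt_or_ge (t + s * c) (Real.pi / 2) with hlt | hge
  · -- same interval
    obtain ⟨hf, hτ⟩ := hpar1 hlt
    rw [hτ] at hK2
    have hb := minus_bound2 hs hh0 hc ht0 ht1 hδc hlt
    have hE2 : E ≤ (p + 1) / Real.cos (t + s * c) := by
      rw [hE, div_le_div_iff₀ (by positivity) hK2]
      exact hb
    have h2 : ((p : ℝ) + 1) / Real.cos (t + s * c) - 1 ≤ KK ρ := by
      refine le_trans (le_of_eq ?_) (le_max_right _ _)
      rw [hτ, hf]
      field_simp
    linarith only [hE2, h2]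
  · have hfl := hpar2 hge
    rcases Nat.eq_zero_or_pos p with hp0 | hppos
    · -- p = 0
      have hs1 : 1 ≤ s := by
        rw [hp0] at hXle
        by_contra hlt
        push Not at hlt
        have h1 : s ^ 2 < 1 := by nlinarith only [hlt, hs]
        have h2 : Real.pi * ρ < Real.pi := by
          rw [hπρ, hp0]
          simp only [Nat.cast_zero, zero_mul, zero_add] at hXle ⊢
          nlinarith only [hXle, h1, hpi, ht1]
        nlinarith only [h2, hρ, hpi]
      have hc' : c = s * t := by rw [hc, hp0]; simp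
      have hb := minus_bound0 hs1 ht0 hδt
      rw [← hc', ← hA] at hb
      have hE2 : E ≤ 4 := by
        rw [hE, hp0, div_le_iff₀ (by positivity)]
        simp only [zero_add, Nat.cast_one, one_mul]
        have := mul_le_mul_of_nonneg_right hb hshh.le
        linarith only [this]
      have h3 : (2 : ℝ) ≤ (Nat.floor (2 * ρ) : ℝ) := by exact_mod_cast hK6
      linarith only [hE2, h3, hK5]
    · -- p ≥ 1
      have hb := minus_bound1 hs hh0 hc ht0 hppos hδt
      rw [← hA] at hb
      have hE2 : E ≤ 2 * Real.cosh h / Real.sinh h := by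
        rw [hE, div_le_div_iff₀ (by positivity) hshh]
        exact hb
      have hs2 : 0 < s ^ 2 := by positivity
      rcases Nat.eq_or_lt_of_le hfl with hq1' | hq2'
      · -- the next interval
        set τ : ℝ := Real.pi / 2 * (2 * ρ - (Nat.floor (2 * ρ) : ℝ)) with hτd
        have hτe : τ = t + s * c - Real.pi / 2 := by
          rw [hτd, ← hq1']
          push_cast
          linarith only [hπρ]
        have hτle : τ ≤ s * c := by rw [hτe]; linarith only [ht1]
        have hsinτ : Real.sin τ ≤ s ^ 2 * ((p + 1) * (Real.pi / 2)) :=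
          (Real.sin_le hK3.le).trans (hτle.trans hXle)
        have h1 : 1 + 2 / (Real.pi * s ^ 2) ≤ KK ρ := by
          refine le_trans ?_ (le_max_left _ _)
          rw [← hτd, ← hq1']
          push_cast
          rw [le_div_iff₀ hK1]
          have h2 : (2 / (Real.pi * s ^ 2)) * Real.sin τ ≤ p + 1 := by
            have h3 := mul_le_mul_of_nonneg_left hsinτ (by positivity : 0 ≤ 2 / (Real.pi * s ^ 2))
            refine h3.trans (le_of_eq ?_)
            field_simp
          linarith only [h2]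
        have h2 : 2 * Real.cosh h / Real.sinh h ≤ 2 + 2 / (Real.pi * s ^ 2) := by
          have h3 := coth_le2 hh0
          rw [div_le_iff₀ hshh]
          have h4 : 0 < 4 * h ^ 2 := by positivity
          have h5 : Real.cosh h ≤ (1 + 1 / (Real.pi * s ^ 2)) * Real.sinh h := by
            have h6 : (1 + 1 / (Real.pi * s ^ 2)) * Real.sinh h * (4 * h ^ 2)
                = (4 * h ^ 2 + Real.pi) * Real.sinh h := by
              rw [hhd]; field_simp; ring
            have h7 : Real.cosh h * (4 * h ^ 2) ≤ (1 + 1 / (Real.pi * s ^ 2)) * Real.sinh h * (4 * h ^ 2) := by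
              rw [h6]; exact h3
            exact le_of_mul_le_mul_right h7 h4
          have h8 : 2 + 2 / (Real.pi * s ^ 2) = 2 * (1 + 1 / (Real.pi * s ^ 2)) := by ring
          rw [h8]
          linarith only [h5]
        linarith only [hE2, h1, h2]
      · -- a later interval
        have h1 : ((p : ℝ) + 2) ≤ (Nat.floor (2 * ρ) : ℝ) := by exact_mod_cast hq2'
        have h2 : (p : ℝ) + 2 ≤ 2 * ρ := h1.trans (Nat.floor_le (by linarith only [hρ]))
        have h3 : Real.pi ≤ t + s * c := by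
          have := mul_le_mul_of_nonneg_left h2 (by positivity : 0 ≤ Real.pi / 2)
          linarith only [this, hπρ]
        have h4 : 1 < s ^ 2 * (p + 1) := by
          have h5 : Real.pi / 2 < s * c := by linarith only [h3, ht1]
          have h7 : Real.pi / 2 * 1 < Real.pi / 2 * (s ^ 2 * (p + 1)) := by linarith only [h5, hXle]
          exact lt_of_mul_lt_mul_left h7 (by positivity)
        have h5 : 2 ≤ (p + 2) * h := by
          have hpi3 := Real.pi_gt_three
          have h6 : 9 / 4 * s ^ 2 ≤ h ^ 2 := by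
            have : h ^ 2 = Real.pi ^ 2 / 4 * s ^ 2 := by rw [hhd]; ring
            rw [this]
            refine mul_le_mul_of_nonneg_right ?_ (sq_nonneg s)
            nlinarith only [hpi3]
          have h7 : (2 : ℝ) ^ 2 ≤ ((p + 2) * h) ^ 2 := by
            rw [mul_pow]
            have hpp : (0 : ℝ) ≤ p := Nat.cast_nonneg p
            have h8 : 9 / 4 * s ^ 2 * (p + 2) ^ 2 ≤ h ^ 2 * (p + 2) ^ 2 :=
              mul_le_mul_of_nonneg_right h6 (by positivity)
            have h9 : (16 / 9 : ℝ) * (p + 1) ≤ (p + 2) ^ 2 := by nlinarith only [hpp]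
            have h10 : (16 / 9 : ℝ) < s ^ 2 * (p + 2) ^ 2 := by
              have := mul_le_mul_of_nonneg_left h9 (sq_nonneg s)
              linarith only [this, h4]
            linarith only [h8, h10]
          exact abs_le_of_sq_le_sq' h7 (by positivity) |>.2
        have h6 : 2 * Real.cosh h / Real.sinh h ≤ p + 4 := by
          rw [div_le_iff₀ hshh]
          have h7 := coth_le hh0
          have h8 : Real.cosh h * h ≤ (p + 4) / 2 * Real.sinh h * h := by
            refine h7.trans ?_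
            have h9 : h + 1 ≤ (p + 4) / 2 * h := by linarith only [h5]
            have := mul_le_mul_of_nonneg_right h9 hshh.le
            linarith only [this]
          have h9 := le_of_mul_le_mul_right h8 hh0
          linarith only [h9]
        linarith only [hE2, h1, h6, hK5]

end DW24
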