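import Pool.Agent.DW24.Defs

set_option autoImplicit false

open MeasureTheory Filter Topology Set

namespace DW24

/-- Discrete dichotomy: a positive sequence all of whose gaps are controlled by the ends grows or
decays geometrically. -/
theorem disc_dich {g : ℕ → ℝ} (hg : ∀ k, 0 < g k) {K : ℝ} (hK : 0 < K)
    (h : ∀ m n : ℕ, m + 1 < n → ∑ j ∈ Finset.Ico (m + 1) n, g j < K * (g m + g n)) :
    (∃ (N : ℕ) (c l : ℝ), 0 < c ∧ 1 < l ∧ ∀ k : ℕ, c * l ^ k ≤ g (N + k)) ∨
      (∃ C m : ℝ, 0 < C ∧ 0 < m ∧ m < 1 ∧ ∀ k : ℕ, g k ≤ C * m ^ k) := by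
  by_cases hs : Summable g
  · right
    have hR : ∀ m : ℕ, ∑' j, g (j + (m + 1)) ≤ K * g m := by
      intro m
      have hs1 : Summable (fun j => g (j + (m + 1))) := (summable_nat_add_iff (m + 1)).mpr hs
      have h1 : Tendsto (fun M : ℕ => ∑ j ∈ Finset.range M, g (j + (m + 1))) atTop
          (𝓝 (∑' j, g (j + (m + 1)))) := hs1.hasSum.tendsto_sum_nat
      have h2 : Tendsto (fun M : ℕ => K * (g m + g (M + (m + 1)))) atTop (𝓝 (K * (g m + 0))) := by
        apply Tendsto.const_mul
        apply Tendsto.const_add
        exact hs1.tendsto_atTop_zero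
      have h3 := le_of_tendsto_of_tendsto h1 h2 (by
        filter_upwards [eventually_ge_atTop 1] with M hM
        have h4 := h m (M + (m + 1)) (by omega)
        have h5 : ∑ j ∈ Finset.range M, g (j + (m + 1)) = ∑ j ∈ Finset.Ico (m + 1) (M + (m + 1)), g j := by
          rw [Finset.sum_Ico_eq_sum_range]
          have : M + (m + 1) - (m + 1) = M := by omega
          rw [this]
          apply Finset.sum_congr rfl
          intro j _
          congr 1
          omega
        rw [h5]
        exact h4.le)
      simpa using h3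
    have hstep : ∀ m : ℕ, ∑' j, g (j + m) = g m + ∑' j, g (j + (m + 1)) := by
      intro m
      have hs1 : Summable (fun j => g (j + m)) := (summable_nat_add_iff m).mpr hs
      rw [hs1.tsum_eq_zero_add]
      congr 1
      · simp
      · apply tsum_congr
        intro j
        congr 1
        omega
    have hRpos : ∀ m : ℕ, 0 < ∑' j, g (j + m) := by
      intro m
      have hs1 : Summable (fun j => g (j + m)) := (summable_nat_add_iff m).mpr hs
      exact hs1.tsum_pos (fun j => (hg _).le) 0 (hg _)
    have hgeo : ∀ m : ℕ, ∑' j, g (j + m) ≤ (∑' j, g (j + 0)) * (K / (1 + K)) ^ m := by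
      intro m
      induction m with
      | zero => simp
      | succ m ih =>
        have h1 := hR m
        have h2 := hstep m
        have h3 : ∑' j, g (j + (m + 1)) ≤ (K / (1 + K)) * ∑' j, g (j + m) := by
          rw [div_mul_eq_mul_div, le_div_iff₀ (by positivity)]
          rw [h2]
          nlinarith
        calc ∑' j, g (j + (m + 1)) ≤ (K / (1 + K)) * ∑' j, g (j + m) := h3
          _ ≤ (K / (1 + K)) * ((∑' j, g (j + 0)) * (K / (1 + K)) ^ m) := by
            apply mul_le_mul_of_nonneg_left ih (by positivity)
          _ = (∑' j, g (j + 0)) * (K / (1 + K)) ^ (m + 1) := by ring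
    refine ⟨∑' j, g (j + 0), K / (1 + K), hRpos 0, by positivity, ?_, ?_⟩
    · rw [div_lt_one (by positivity)]
      linarith
    · intro k
      refine le_trans ?_ (hgeo k)
      rw [hstep k]
      have := hRpos (k + 1)
      linarith
  · left
    rw [not_summable_iff_tendsto_nat_atTop_of_nonneg (fun k => (hg k).le)] at hs
    obtain ⟨N, hN⟩ := (hs.eventually_ge_atTop (2 * (1 + K) * g 0)).exists_forall_of_atTop
    have hstep : ∀ n, N + 2 ≤ n → ∑ i ∈ Finset.range n, g i ≤ 2 * K * g n := by
      intro n hn
      have h1 := hN n (by omega)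
      have h2 := h 0 n (by omega)
      have h3 : ∑ j ∈ Finset.Ico (0 + 1) n, g j = ∑ j ∈ Finset.range n, g j - g 0 := by
        rw [Finset.sum_Ico_eq_sub _ (by omega)]
        simp
      rw [h3] at h2
      nlinarith
    set P : ℕ → ℝ := fun n => ∑ i ∈ Finset.range n, g i with hP
    have hPpos : 0 < P (N + 2) := by
      apply Finset.sum_pos (fun i _ => hg i)
      exact ⟨0, by simp⟩
    have hgeo : ∀ k : ℕ, P (N + 2) * (1 + 1 / (2 * K)) ^ k ≤ P (N + 2 + k) := by
      intro k
      induction k with
      | zero => simp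
      | succ k ih =>
        have h1 : P (N + 2 + (k + 1)) = P (N + 2 + k) + g (N + 2 + k) := by
          simp only [hP]
          rw [← add_assoc, Finset.sum_range_succ]
        have h2 := hstep (N + 2 + k) (by omega)
        have h3 : P (N + 2 + k) / (2 * K) ≤ g (N + 2 + k) := by
          rw [div_le_iff₀ (by positivity)]
          linarith
        calc P (N + 2) * (1 + 1 / (2 * K)) ^ (k + 1)
            = (P (N + 2) * (1 + 1 / (2 * K)) ^ k) * (1 + 1 / (2 * K)) := by ring
          _ ≤ P (N + 2 + k) * (1 + 1 / (2 * K)) := by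
            apply mul_le_mul_of_nonneg_right ih (by positivity)
          _ = P (N + 2 + k) + P (N + 2 + k) / (2 * K) := by ring
          _ ≤ P (N + 2 + (k + 1)) := by
            rw [h1]
            linarith
    refine ⟨N + 2, P (N + 2) / (2 * K), 1 + 1 / (2 * K), by positivity, ?_, ?_⟩
    · have : 0 < 1 / (2 * K) := by positivity
      linarith
    · intro k
      have h1 := hgeo k
      have h2 := hstep (N + 2 + k) (by omega)
      rw [div_mul_eq_mul_div, div_le_iff₀ (by positivity)]
      linarith

/-- Windows: intervals on which the weighted mass of a monotone function in the middle dominates the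
mass at the two ends. -/
theorem window {τ : ℝ → ℝ} {x₀ : ℝ} (hmono : MonotoneOn τ (Ici x₀)) (hpos : ∀ x, x₀ ≤ x → 0 < τ x)
    {ρ : ℝ} (hρ : 0 < ρ)
    (hlow : Filter.liminf (fun x : ℝ => ((Real.log (τ x) / x : ℝ) : EReal)) atTop ≤ ρ)
    (hupp : (ρ : EReal) ≤ Filter.limsup (fun x : ℝ => ((Real.log (τ x) / x : ℝ) : EReal)) atTop)
    (K : ℝ) (X : ℝ) :
    ∃ a b : ℝ, X ≤ a ∧ a + 1 < b ∧
      K * ((∫ x in a..(a + 1), τ x * Real.exp (-ρ * x)) + ∫ x in b..(b + 1), τ x * Real.exp (-ρ * x))
        ≤ ∫ x in (a + 1)..b, τ x * Real.exp (-ρ * x) := by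
  by_contra hcon
  push Not at hcon
  set G : ℝ → ℝ := fun x => τ x * Real.exp (-ρ * x) with hG
  set Y : ℝ := max (max X x₀) 1 with hY
  have hYX : X ≤ Y := le_trans (le_max_left _ _) (le_max_left _ _)
  have hYx : x₀ ≤ Y := le_trans (le_max_right _ _) (le_max_left _ _)
  have hY1 : 1 ≤ Y := le_max_right _ _
  have hGi : ∀ a b : ℝ, x₀ ≤ a → x₀ ≤ b → IntervalIntegrable G volume a b := by
    intro a b ha hb
    apply IntervalIntegrable.mul_continuousOn
    · apply MonotoneOn.intervalIntegrable
      apply hmono.mono
      intro x hx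
      rcases le_total a b with hab | hab
      · rw [uIcc_of_le hab] at hx
        exact le_trans ha hx.1
      · rw [uIcc_of_ge hab] at hx
        exact le_trans hb hx.1
    · fun_prop
  have hGup : ∀ a : ℝ, x₀ ≤ a → ∫ x in a..(a + 1), G x ≤ τ (a + 1) * Real.exp (-ρ * a) := by
    intro a ha
    have h1 : ∫ x in a..(a + 1), G x ≤ ∫ _x in a..(a + 1), τ (a + 1) * Real.exp (-ρ * a) := by
      apply intervalIntegral.integral_mono_on (by linarith) (hGi a (a + 1) ha (by linarith))
        intervalIntegrable_const
      intro x hx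
      simp only [hG]
      apply mul_le_mul
      · exact hmono (le_trans ha hx.1) (show x₀ ≤ a + 1 by linarith) hx.2
      · apply Real.exp_le_exp.mpr
        nlinarith [hx.1]
      · positivity
      · exact (hpos _ (by linarith)).le
    simpa using h1
  have hGlo : ∀ a : ℝ, x₀ ≤ a → τ a * Real.exp (-ρ * (a + 1)) ≤ ∫ x in a..(a + 1), G x := by
    intro a ha
    have h1 : ∫ _x in a..(a + 1), τ a * Real.exp (-ρ * (a + 1)) ≤ ∫ x in a..(a + 1), G x := by
      apply intervalIntegral.integral_mono_on (by linarith) intervalIntegrable_const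
        (hGi a (a + 1) ha (by linarith))
      intro x hx
      simp only [hG]
      apply mul_le_mul
      · exact hmono ha (show x₀ ≤ x from le_trans ha hx.1) hx.1
      · apply Real.exp_le_exp.mpr
        nlinarith [hx.2]
      · positivity
      · exact (hpos _ (by linarith [hx.1])).le
    simpa using h1
  set g : ℕ → ℝ := fun k => ∫ x in (Y + k)..(Y + (k + 1 : ℕ)), G x with hg
  have hgpos : ∀ k, 0 < g k := by
    intro k
    have h1 := hGlo (Y + k) (by have : (0 : ℝ) ≤ k := by positivity
                                linarith)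
    have h2 : g k = ∫ x in (Y + k)..(Y + k + 1), G x := by
      simp only [hg]
      congr 1
      push_cast
      ring
    rw [h2]
    refine lt_of_lt_of_le ?_ h1
    apply mul_pos _ (Real.exp_pos _)
    apply hpos
    have : (0 : ℝ) ≤ k := by positivity
    linarith
  have hsum : ∀ m n : ℕ, m ≤ n → ∑ j ∈ Finset.Ico m n, g j = ∫ x in (Y + m)..(Y + n), G x := by
    intro m n hmn
    simp only [hg]
    rw [intervalIntegral.sum_integral_adjacent_intervals_Ico (a := fun k : ℕ => Y + k) hmn]
    intro k _
    apply hGi
    · have : (0 : ℝ) ≤ k := by positivity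
      linarith
    · have : (0 : ℝ) ≤ (k + 1 : ℕ) := by positivity
      linarith
  have hgap : ∀ m n : ℕ, m + 1 < n → ∑ j ∈ Finset.Ico (m + 1) n, g j < K * (g m + g n) := by
    intro m n hmn
    have hm0 : (0 : ℝ) ≤ m := by positivity
    have hmn' : (m : ℝ) + 1 < n := by exact_mod_cast hmn
    have h1 := hcon (Y + m) (Y + n) (by linarith) (by linarith)
    rw [hsum (m + 1) n (by omega)]
    have e1 : (Y + ((m + 1 : ℕ) : ℝ)) = Y + m + 1 := by push_cast; ring
    have e2 : g m = ∫ x in (Y + m)..(Y + m + 1), G x := by
      simp only [hg]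
      rw [e1]
    have e3 : g n = ∫ x in (Y + n)..(Y + n + 1), G x := by
      simp only [hg]
      congr 1
      push_cast
      ring
    rw [e1, e2, e3]
    exact h1
  have hK : 0 < K := by
    by_contra hK
    push Not at hK
    have h1 := hgap 0 2 (by norm_num)
    have h2 : ∑ j ∈ Finset.Ico (0 + 1) 2, g j = g 1 := by
      simp
    rw [h2] at h1
    have h3 := hgpos 0
    have h4 := hgpos 1
    have h5 := hgpos 2
    nlinarith
  rcases disc_dich hgpos hK hgap with ⟨N, c, l, hc, hl, hb⟩ | ⟨C, m, hC, hm0, hm1, hb⟩
  · -- exponential growth contradicts the liminf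
    have hll : 0 < Real.log l := Real.log_pos hl
    -- lower bound of log τ
    have hlb : ∀ᶠ x : ℝ in atTop,
        Real.log c - (Real.log l) * (Y + N + 2) + (-ρ) * 1 * 2 + (ρ + Real.log l) * x ≤ Real.log (τ x) := by
      filter_upwards [eventually_ge_atTop (Y + N + 2)] with x hx
      set k : ℕ := ⌊x - (Y + N + 1)⌋₊ with hk
      have hk1 : (k : ℝ) ≤ x - (Y + N + 1) := Nat.floor_le (by linarith)
      have hk2 : x - (Y + N + 1) < k + 1 := Nat.lt_floor_add_one _
      have hk0 : (0 : ℝ) ≤ k := by positivity
      have hN0 : (0 : ℝ) ≤ N := by positivity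
      have h1 := hb k
      have h2 := hGup (Y + (N + k : ℕ)) (by
        have : (0 : ℝ) ≤ (N + k : ℕ) := by positivity
        linarith)
      have h3 : g (N + k) = ∫ x in (Y + (N + k : ℕ))..(Y + (N + k : ℕ) + 1), G x := by
        simp only [hg]
        congr 1
        push_cast
        ring
      rw [← h3] at h2
      have h4 : τ (Y + (N + k : ℕ) + 1) ≤ τ x := by
        apply hmono
        · show x₀ ≤ _
          push_cast
          linarith
        · show x₀ ≤ _
          linarith
        · push_cast
          linarith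
      have h5 : c * l ^ k ≤ τ x * Real.exp (-ρ * (Y + (N + k : ℕ))) := by
        refine le_trans h1 (le_trans h2 ?_)
        apply mul_le_mul_of_nonneg_right h4 (Real.exp_pos _).le
      have hτ : 0 < τ x := hpos x (by linarith)
      have h6 := Real.log_le_log (by positivity) h5
      rw [Real.log_mul (by positivity) (by positivity), Real.log_mul (by positivity) (by positivity),
        Real.log_exp, Real.log_pow] at h6
      push_cast at h6
      have h7 : (k : ℝ) ≥ x - (Y + N + 2) := by linarith
      nlinarith
    have hlim : (((ρ + Real.log l / 2 : ℝ)) : EReal) ≤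
        Filter.liminf (fun x : ℝ => ((Real.log (τ x) / x : ℝ) : EReal)) atTop := by
      apply Filter.le_liminf_of_le (by isBoundedDefault)
      set c₁ : ℝ := Real.log c - (Real.log l) * (Y + N + 2) + (-ρ) * 1 * 2 with hc₁
      filter_upwards [hlb, eventually_ge_atTop (1 : ℝ), eventually_ge_atTop (2 * |c₁| / Real.log l)]
        with x hx1 hx2 hx3
      rw [EReal.coe_le_coe_iff]
      rw [le_div_iff₀ (by linarith)]
      have h8 : 2 * |c₁| ≤ x * Real.log l := by
        rwa [div_le_iff₀ hll] at hx3
      have h9 := neg_abs_le c₁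
      nlinarith
    have h10 := le_trans hlim hlow
    rw [EReal.coe_le_coe_iff] at h10
    linarith
  · -- exponential decay contradicts the limsup
    have hll : Real.log m < 0 := Real.log_neg hm0 hm1
    have hlb : ∀ᶠ x : ℝ in atTop,
        Real.log (τ x) ≤ Real.log C - Real.log m * (Y + 1) + 2 * ρ + (ρ + Real.log m) * x := by
      filter_upwards [eventually_ge_atTop (Y + 1)] with x hx
      set k : ℕ := ⌈x - Y⌉₊ with hk
      have hk1 : x - Y ≤ (k : ℝ) := Nat.le_ceil _
      have hk2 : (k : ℝ) < x - Y + 1 := Nat.ceil_lt_add_one (by linarith)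
      have hk0 : (0 : ℝ) ≤ k := by positivity
      have h1 := hb k
      have h2 := hGlo (Y + k) (by linarith)
      have h3 : g k = ∫ x in (Y + k)..(Y + k + 1), G x := by
        simp only [hg]
        congr 1
        push_cast
        ring
      rw [← h3] at h2
      have h4 : τ x ≤ τ (Y + k) := by
        apply hmono
        · show x₀ ≤ _
          linarith
        · show x₀ ≤ _
          linarith
        · linarith
      have h5 : τ x * Real.exp (-ρ * (Y + k + 1)) ≤ C * m ^ k := by
        refine le_trans ?_ (le_trans h2 h1)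
        apply mul_le_mul_of_nonneg_right h4 (Real.exp_pos _).le
      have hτ : 0 < τ x := hpos x (by linarith)
      have h6 := Real.log_le_log (by positivity) h5
      rw [Real.log_mul (by positivity) (by positivity), Real.log_mul (by positivity) (by positivity),
        Real.log_exp, Real.log_pow] at h6
      nlinarith
    have hlim : Filter.limsup (fun x : ℝ => ((Real.log (τ x) / x : ℝ) : EReal)) atTop ≤
        (((ρ + Real.log m / 2 : ℝ)) : EReal) := by
      apply Filter.limsup_le_of_le (by isBoundedDefault)
      set c₁ : ℝ := Real.log C - Real.log m * (Y + 1) + 2 * ρ with hc₁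
      filter_upwards [hlb, eventually_ge_atTop (1 : ℝ), eventually_ge_atTop (2 * |c₁| / (-Real.log m))]
        with x hx1 hx2 hx3
      rw [EReal.coe_le_coe_iff]
      rw [div_le_iff₀ (by linarith)]
      have h8 : 2 * |c₁| ≤ x * (-Real.log m) := by
        rwa [div_le_iff₀ (by linarith)] at hx3
      have h9 := le_abs_self c₁
      nlinarith
    have h10 := le_trans hupp hlim
    rw [EReal.coe_le_coe_iff] at h10
    linarith

end DW24
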